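import Pool.Agent.Lib.MP_28b8de_an.K.KSC0

/-!
MP_28b8de_an, module KConst.

Planar systems with constant first coordinate.
PROOF.  s₀ := (r t₀).1.1.  r' t := ((r t).1.2, (r t).2) : ℝ × Y is a trajectory near t₀ of FS F₁ h₁, GS G₁ with F₁ (t,x) := k (s₀,x), h₁ (t,x) := h (s₀,x), G₁ := 1 (components of the integral identity, (r t).1.1 = s₀ near t₀): LTraj (as in KGl/ltraj_lin).
`sc0_lrep` (n := finrank Y, `_ rfl`): LRep.  Θ (t,(x,y)) := ((s₀,x),y); fderiv Θ (1,(k,h)) = ((0,k),h) = FB f k h (t, Θ ..) for x near (r t₀).1.2 by h0; fderiv Θ (0,(1,0)) = ((0,1),0); r t = Θ (t, r' t) near t₀: `DD.lrep_push`.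
-/

set_option linter.unusedSectionVars false

namespace Pool.Agent.Lib.MP_28b8de_an.KK

open Filter Topology Set MeasureTheory
open Pool.Agent.Lib.MP_28b8de_an.PT (Adm Perf)
open Pool.Agent.Lib.MP_28b8de_an.TT (Env Sol Jn Tr SmAt Goal dx Dn Gen Lc Lp Lq fX cf)
open Pool.Agent.Lib.MP_28b8de_an.DD (LTraj LRep Ch)

variable {Y : Type*} [NormedAddCommGroup Y] [NormedSpace ℝ Y] [FiniteDimensional ℝ Y]

private theorem KConst_congr {V : Type*} [NormedAddCommGroup V] [NormedSpace ℝ V]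
    {F F' G : ℝ × V → V} {u : ℝ → ℝ} {x : ℝ → V} {t₀ : ℝ} (hx : LTraj F G u x t₀)
    (h : ∀ᶠ t in 𝓝 t₀, F (t, x t) = F' (t, x t)) : LTraj F' G u x t₀ := by
  obtain ⟨ε, hε, hc, he⟩ := hx
  obtain ⟨δ, hδ, hball⟩ := Metric.eventually_nhds_iff_ball.1 h
  have m1 := min_le_left ε δ
  have m2 := min_le_right ε δ
  refine ⟨min ε δ, lt_min hε hδ, hc.mono fun t ht => ⟨by linarith [ht.1], by linarith [ht.2]⟩, ?_⟩
  intro a ha b hb
  rw [he a ⟨by linarith [ha.1], by linarith [ha.2]⟩ b ⟨by linarith [hb.1], by linarith [hb.2]⟩]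
  apply intervalIntegral.integral_congr
  intro τ hτ
  have hτ' : τ ∈ Metric.ball t₀ δ := by
    rw [Metric.mem_ball, Real.dist_eq, abs_lt]
    rcases le_total a b with hab | hab
    · rw [uIcc_of_le hab] at hτ
      exact ⟨by linarith [ha.1, hτ.1], by linarith [hb.2, hτ.2]⟩
    · rw [uIcc_of_ge hab] at hτ
      exact ⟨by linarith [hb.1, hτ.1], by linarith [ha.2, hτ.2]⟩
  show F (τ, x τ) + u τ • G (τ, x τ) = F' (τ, x τ) + u τ • G (τ, x τ)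
  rw [hball τ hτ']

theorem b_const {f k : ℝ × ℝ → ℝ} {h : ℝ × ℝ → Y} {u : ℝ → ℝ} (hu : Adm u)
    {r : ℝ → (ℝ × ℝ) × Y} {t₀ : ℝ} (ht₀ : 0 < t₀) (hf : AnalyticAt ℝ f (r t₀).1)
    (hk : AnalyticAt ℝ k (r t₀).1) (hh : AnalyticAt ℝ h (r t₀).1)
    (hr : LTraj (FB f k h) GB u r t₀) (hs : ∀ᶠ t in 𝓝 t₀, (r t).1.1 = (r t₀).1.1)
    (h0 : ∀ᶠ x in 𝓝 (r t₀).1.2, f ((r t₀).1.1, x) = 0) : LRep (FB f k h) GB r t₀ := by
  obtain ⟨s₀, hs₀⟩ : ∃ s₀, s₀ = (r t₀).1.1 := ⟨_, rfl⟩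
  have hr0 : (r t₀).1 = (s₀, (r t₀).1.2) := by rw [hs₀]
  have hrc : ContinuousAt r t₀ := (DD.ltraj_cont hr).self_of_nhds
  rw [← hs₀] at hs h0
  -- the restricted functions
  have hsec : ∀ x : ℝ, AnalyticAt ℝ (fun y : ℝ => ((s₀, y) : ℝ × ℝ)) x := fun x =>
    analyticAt_const.prod analyticAt_id
  have hf' : AnalyticAt ℝ (fun y : ℝ => f (s₀, y)) (r t₀).1.2 :=
    AnalyticAt.fun_comp (g := f) (f := fun y : ℝ => ((s₀, y) : ℝ × ℝ)) (by rw [← hr0]; exact hf)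
      (hsec _)
  have hk' : AnalyticAt ℝ (fun y : ℝ => k (s₀, y)) (r t₀).1.2 :=
    AnalyticAt.fun_comp (g := k) (f := fun y : ℝ => ((s₀, y) : ℝ × ℝ)) (by rw [← hr0]; exact hk)
      (hsec _)
  have hh' : AnalyticAt ℝ (fun y : ℝ => h (s₀, y)) (r t₀).1.2 :=
    AnalyticAt.fun_comp (g := h) (f := fun y : ℝ => ((s₀, y) : ℝ × ℝ)) (by rw [← hr0]; exact hh)
      (hsec _)
  have hpr : AnalyticAt ℝ (fun z : ℝ × ((ℝ × ℝ) × Y) => z.2.1.2) (t₀, r t₀) :=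
    analyticAt_snd.fun_comp (analyticAt_fst.fun_comp analyticAt_snd)
  -- the trajectory of the modified field
  have hF2 : AnalyticAt ℝ (fun z : ℝ × ((ℝ × ℝ) × Y) =>
      (((f (s₀, z.2.1.2), k (s₀, z.2.1.2)), h (s₀, z.2.1.2)) : (ℝ × ℝ) × Y)) (t₀, r t₀) :=
    ((AnalyticAt.fun_comp (g := fun y : ℝ => f (s₀, y))
      (f := fun z : ℝ × ((ℝ × ℝ) × Y) => z.2.1.2) hf' hpr).prod
      (AnalyticAt.fun_comp (g := fun y : ℝ => k (s₀, y))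
      (f := fun z : ℝ × ((ℝ × ℝ) × Y) => z.2.1.2) hk' hpr)).prod
      (AnalyticAt.fun_comp (g := fun y : ℝ => h (s₀, y))
      (f := fun z : ℝ × ((ℝ × ℝ) × Y) => z.2.1.2) hh' hpr)
  have hr2 : LTraj (fun z : ℝ × ((ℝ × ℝ) × Y) =>
      (((f (s₀, z.2.1.2), k (s₀, z.2.1.2)), h (s₀, z.2.1.2)) : (ℝ × ℝ) × Y)) GB u r t₀ := by
    refine KConst_congr hr ?_
    filter_upwards [hs] with t ht
    have e : (r t).1 = (s₀, (r t).1.2) := by rw [← ht]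
    show ((f (r t).1, k (r t).1), h (r t).1) = _
    rw [e]
  have hGB : AnalyticAt ℝ (GB (Y := Y)) (t₀, r t₀) := analyticAt_const
  have hl := ltraj_lin (F' := FS (fun w : ℝ × ℝ => k (s₀, w.2)) fun w : ℝ × ℝ => h (s₀, w.2))
    (G' := GS fun _ : ℝ × ℝ => (1 : ℝ)) hu hF2 hGB hr2
    (((ContinuousLinearMap.snd ℝ ℝ ℝ).comp (ContinuousLinearMap.fst ℝ (ℝ × ℝ) Y)).prod
      (ContinuousLinearMap.snd ℝ (ℝ × ℝ) Y)) (fun z => rfl) (fun z => rfl)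
  have hl' : LTraj (FS (fun w : ℝ × ℝ => k (s₀, w.2)) fun w : ℝ × ℝ => h (s₀, w.2))
      (GS fun _ : ℝ × ℝ => (1 : ℝ)) u (fun t => (((r t).1.2, (r t).2) : ℝ × Y)) t₀ := hl
  have hk1 : AnalyticAt ℝ (fun w : ℝ × ℝ => k (s₀, w.2)) (t₀, (r t₀).1.2) :=
    AnalyticAt.fun_comp (g := fun y : ℝ => k (s₀, y)) (f := fun w : ℝ × ℝ => w.2) hk'
      analyticAt_snd
  have hh1 : AnalyticAt ℝ (fun w : ℝ × ℝ => h (s₀, w.2)) (t₀, (r t₀).1.2) :=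
    AnalyticAt.fun_comp (g := fun y : ℝ => h (s₀, y)) (f := fun w : ℝ × ℝ => w.2) hh'
      analyticAt_snd
  have hrep := sc0_lrep _ Y rfl (fun w : ℝ × ℝ => k (s₀, w.2)) (fun _ : ℝ × ℝ => (1 : ℝ))
    (fun w : ℝ × ℝ => h (s₀, w.2)) u (fun t => (((r t).1.2, (r t).2) : ℝ × Y)) t₀ ht₀ hu hk1
    analyticAt_const hh1 one_ne_zero hl'
  -- push forward
  have hq : AnalyticAt ℝ (fun z : ℝ × (ℝ × Y) => ((z.1, z.2.1) : ℝ × ℝ))
      (t₀, ((r t₀).1.2, (r t₀).2)) :=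
    analyticAt_fst.prod (analyticAt_fst.fun_comp analyticAt_snd)
  have hΘd : ∀ w : ℝ × (ℝ × Y), HasFDerivAt (fun w : ℝ × (ℝ × Y) =>
      (((s₀, w.2.1), w.2.2) : (ℝ × ℝ) × Y))
      (((0 : ℝ × (ℝ × Y) →L[ℝ] ℝ).prod ((ContinuousLinearMap.fst ℝ ℝ Y).comp
        (ContinuousLinearMap.snd ℝ ℝ (ℝ × Y)))).prod ((ContinuousLinearMap.snd ℝ ℝ Y).comp
        (ContinuousLinearMap.snd ℝ ℝ (ℝ × Y)))) w := by
    intro w
    refine HasFDerivAt.prodMk (HasFDerivAt.prodMk (hasFDerivAt_const _ _) ?_) ?_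
    · exact ((ContinuousLinearMap.fst ℝ ℝ Y).comp
        (ContinuousLinearMap.snd ℝ ℝ (ℝ × Y))).hasFDerivAt
    · exact ((ContinuousLinearMap.snd ℝ ℝ Y).comp
        (ContinuousLinearMap.snd ℝ ℝ (ℝ × Y))).hasFDerivAt
  refine DD.lrep_push (Θ := fun w : ℝ × (ℝ × Y) => (((s₀, w.2.1), w.2.2) : (ℝ × ℝ) × Y))
    (r := fun t => (((r t).1.2, (r t).2) : ℝ × Y)) ?_ ?_ ?_ ?_ ?_ ?_ hrep
  · exact (AnalyticAt.fun_comp (g := fun w : ℝ × ℝ => k (s₀, w.2))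
      (f := fun z : ℝ × (ℝ × Y) => ((z.1, z.2.1) : ℝ × ℝ)) hk1 hq).prod
      (AnalyticAt.fun_comp (g := fun w : ℝ × ℝ => h (s₀, w.2))
      (f := fun z : ℝ × (ℝ × Y) => ((z.1, z.2.1) : ℝ × ℝ)) hh1 hq)
  · exact analyticAt_const
  · exact (analyticAt_const.prod (analyticAt_fst.fun_comp analyticAt_snd)).prod
      (analyticAt_snd.fun_comp analyticAt_snd)
  · have hc : Tendsto (fun w : ℝ × (ℝ × Y) => w.2.1) (𝓝 (t₀, ((r t₀).1.2, (r t₀).2)))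
        (𝓝 (r t₀).1.2) := by
      have : Continuous fun w : ℝ × (ℝ × Y) => w.2.1 := continuous_fst.comp continuous_snd
      exact this.tendsto (t₀, ((r t₀).1.2, (r t₀).2))
    filter_upwards [hc.eventually h0] with w hw
    rw [(hΘd w).fderiv]
    show ((((0 : ℝ), k (s₀, w.2.1)), h (s₀, w.2.1)) : (ℝ × ℝ) × Y) =
      ((f (s₀, w.2.1), k (s₀, w.2.1)), h (s₀, w.2.1))
    rw [hw]
  · refine Eventually.of_forall fun w => ?_
    rw [(hΘd w).fderiv]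
    rfl
  · filter_upwards [hs] with t ht
    have e : r t = (((s₀, (r t).1.2)), (r t).2) := by rw [← ht]
    exact e

end Pool.Agent.Lib.MP_28b8de_an.KK
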