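import Pool.Agent.Lib.MP_28b8de_an.K.KInr

/-!
MP_28b8de_an, module KCxBd.

Planar data of a multiplier.
PROOF.  cx_inr: h₀.  lam t := p t ((1,0),0), ϕ t := p t ((0,1),0).  GB is constant: dx GB = 0.  At z = (t,((s,x),y)) with f, k, h analytic at (s,x): dx (FB f k h) z ((1,0),0) = ((Ds f, Ds k), fderiv h (s,x) (1,0)) and the same with Dn for ((0,1),0);
h₀ (fderiv h z (1,0)) = Ds (h₀ ∘ h) z.  So Cx.peq gives lam t - lam s = -∫ (lam Ds f + ϕ Ds k + Ds η), η := h₀ ∘ h, with a continuous integrand: HasDerivAt (fundamental theorem); same for ϕ.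
sd: (r t).1.1 has derivative f ((r t).1) (ltraj_hd with l = fst ∘ fst at every t ∈ (a,b): GB has first component 0).  Xeq: component fst.2 of the integral identities of LTraj on small intervals, glued as in KCxSd (the function t ↦ X t - ∫_c^t (k + u) is
locally constant on (a,b), so constant: `IsPreconnected`/`is_const_of_deriv_eq_zero` style argument or induction on a Lebesgue partition; the integrand is bounded on compact subintervals, hence integrable).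
us: Cx.mx, p (GB) = ϕ.  ϕ = 0 on C: Cx.sg.
-/

set_option linter.unusedSectionVars false

namespace Pool.Agent.Lib.MP_28b8de_an.KK

open Filter Topology Set MeasureTheory
open Pool.Agent.Lib.MP_28b8de_an.PT (Adm Perf)
open Pool.Agent.Lib.MP_28b8de_an.TT (Env Sol Jn Tr SmAt Goal dx Dn Gen Lc Lp Lq fX cf)
open Pool.Agent.Lib.MP_28b8de_an.DD (LTraj LRep Ch)

section glue

variable {V : Type*} [NormedAddCommGroup V] [NormedSpace ℝ V]

/-- local integral identities give global ones -/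
private theorem kcxbd_glue {x J : ℝ → V} {a b : ℝ}
    (hloc : ∀ t₀ ∈ Ioo a b, ∃ ε > 0, ∀ t ∈ Ioo (t₀ - ε) (t₀ + ε),
      x t - x t₀ = ∫ τ in t₀..t, J τ)
    (hJ : ∀ s ∈ Ioo a b, ∀ t ∈ Ioo a b, IntervalIntegrable J volume s t) :
    ∀ s ∈ Ioo a b, ∀ t ∈ Ioo a b, x t - x s = ∫ τ in s..t, J τ := by
  intro s hs t ht
  set Φ : ℝ → V := fun y => x y - ∫ τ in s..y, J τ with hΦ
  have hd : ∀ y ∈ Ioo a b, HasDerivAt Φ 0 y := by
    intro y hy
    obtain ⟨ε, hε, h⟩ := hloc y hy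
    have hev : Φ =ᶠ[𝓝 y] fun _ => Φ y := by
      filter_upwards [Ioo_mem_nhds (show y - ε < y by linarith) (show y < y + ε by linarith),
        Ioo_mem_nhds hy.1 hy.2] with z hz hz'
      have h1 := h z hz
      have h2 := intervalIntegral.integral_add_adjacent_intervals (hJ s hs y hy) (hJ y hy z hz')
      show x z - ∫ τ in s..z, J τ = x y - ∫ τ in s..y, J τ
      rw [← h2, ← h1]
      abel
    exact (hasDerivAt_const y (Φ y)).congr_of_eventuallyEq hev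
  have hc : Φ t = Φ s := isOpen_Ioo.is_const_of_deriv_eq_zero isPreconnected_Ioo
    (fun y hy => (hd y hy).differentiableAt.differentiableWithinAt)
    (fun y hy => (hd y hy).deriv) ht hs
  have h3 : Φ s = x s := by
    show x s - ∫ τ in s..s, J τ = x s
    rw [intervalIntegral.integral_same, sub_zero]
  have h4 : x t - ∫ τ in s..t, J τ = x s := hc.trans h3
  rw [← h4]
  abel

/-- the fundamental theorem for a continuous integrand -/
private theorem kcxbd_ftc {L I : ℝ → ℝ} {a b : ℝ} (hI : ContinuousOn I (Ioo a b))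
    (hL : ∀ s ∈ Ioo a b, ∀ t ∈ Ioo a b, L t - L s = -∫ τ in s..t, I τ) {t : ℝ}
    (ht : t ∈ Ioo a b) : HasDerivAt L (-I t) t := by
  have hnt : Ioo a b ∈ 𝓝 t := Ioo_mem_nhds ht.1 ht.2
  have hd : HasDerivAt (fun y => L t + -∫ τ in t..y, I τ) (-I t) t :=
    ((intervalIntegral.integral_hasDerivAt_right (IntervalIntegrable.refl)
      (hI.stronglyMeasurableAtFilter isOpen_Ioo t ht) (hI.continuousAt hnt)).neg).const_add _
  refine hd.congr_of_eventuallyEq ?_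
  filter_upwards [hnt] with y hy
  rw [← hL t ht y hy]
  ring

private theorem kcxbd_u {u : ℝ → ℝ} (hu : Adm u) (c : V) (s t : ℝ) :
    IntervalIntegrable (fun τ => u τ • c) volume s t := by
  refine (intervalIntegrable_const (c := c)).mono_fun
    (hu.1.aestronglyMeasurable.smul aestronglyMeasurable_const) (Eventually.of_forall fun τ => ?_)
  show ‖u τ • c‖ ≤ ‖c‖
  rw [norm_smul]
  have h1 : ‖u τ‖ ≤ 1 := by simpa using hu.2 τ
  calc ‖u τ‖ * ‖c‖ ≤ 1 * ‖c‖ := mul_le_mul_of_nonneg_right h1 (norm_nonneg _)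
    _ = ‖c‖ := one_mul _

end glue

variable {Y : Type*} [NormedAddCommGroup Y] [NormedSpace ℝ Y] [FiniteDimensional ℝ Y]

private theorem kcxbd_dxF {f k : ℝ × ℝ → ℝ} {h : ℝ × ℝ → Y} {z : ℝ × ((ℝ × ℝ) × Y)}
    (hf : DifferentiableAt ℝ f z.2.1) (hk : DifferentiableAt ℝ k z.2.1)
    (hh : DifferentiableAt ℝ h z.2.1) (v : (ℝ × ℝ) × Y) :
    dx (FB f k h) z v = ((fderiv ℝ f z.2.1 v.1, fderiv ℝ k z.2.1 v.1), fderiv ℝ h z.2.1 v.1) := by
  have h1 : HasFDerivAt (fun q : ℝ × ℝ => ((f q, k q), h q))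
      (((fderiv ℝ f z.2.1).prod (fderiv ℝ k z.2.1)).prod (fderiv ℝ h z.2.1)) z.2.1 :=
    (hf.hasFDerivAt.prodMk hk.hasFDerivAt).prodMk hh.hasFDerivAt
  have h2 : HasFDerivAt (fun w : ℝ × ((ℝ × ℝ) × Y) => w.2.1)
      ((ContinuousLinearMap.fst ℝ (ℝ × ℝ) Y).comp (ContinuousLinearMap.snd ℝ ℝ ((ℝ × ℝ) × Y))) z :=
    ((ContinuousLinearMap.fst ℝ (ℝ × ℝ) Y).comp
      (ContinuousLinearMap.snd ℝ ℝ ((ℝ × ℝ) × Y))).hasFDerivAt
  have h3 : HasFDerivAt (FB f k h) ((((fderiv ℝ f z.2.1).prod (fderiv ℝ k z.2.1)).prod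
      (fderiv ℝ h z.2.1)).comp ((ContinuousLinearMap.fst ℝ (ℝ × ℝ) Y).comp
        (ContinuousLinearMap.snd ℝ ℝ ((ℝ × ℝ) × Y)))) z :=
    HasFDerivAt.comp (g := fun q : ℝ × ℝ => ((f q, k q), h q))
      (f := fun w : ℝ × ((ℝ × ℝ) × Y) => w.2.1) z h1 h2
  unfold dx
  rw [h3.fderiv]
  rfl

private theorem kcxbd_dxG (z : ℝ × ((ℝ × ℝ) × Y)) (v : (ℝ × ℝ) × Y) :
    dx (GB (Y := Y)) z v = 0 := by
  have h1 : HasFDerivAt (GB (Y := Y)) (0 : (ℝ × ((ℝ × ℝ) × Y)) →L[ℝ] ((ℝ × ℝ) × Y)) z :=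
    hasFDerivAt_const (((0, 1), 0) : (ℝ × ℝ) × Y) z
  unfold dx
  rw [h1.fderiv]
  rfl

theorem cx_bd {f k : ℝ × ℝ → ℝ} {h : ℝ × ℝ → Y} {u : ℝ → ℝ} {r : ℝ → (ℝ × ℝ) × Y} {a b : ℝ}
    {p : ℝ → ((ℝ × ℝ) × Y) →L[ℝ] ℝ} {C : Set ℝ} (hx : Cx (FB f k h) GB u r a b p C)
    (hf : ∀ t ∈ Ioo a b, AnalyticAt ℝ f (r t).1) (hk : ∀ t ∈ Ioo a b, AnalyticAt ℝ k (r t).1)
    (hh : ∀ t ∈ Ioo a b, AnalyticAt ℝ h (r t).1) :
    ∃ h₀ : Y →L[ℝ] ℝ, BD f k (fun z => h₀ (h z)) u a b (fun t => (r t).1.1) (fun t => (r t).1.2)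
        (fun t => p t ((1, 0), 0)) (fun t => p t ((0, 1), 0)) ∧
      (∀ t ∈ Ioo a b, ∀ y : Y, p t (0, y) = h₀ y) ∧ ∀ t ∈ C, p t ((0, 1), 0) = 0 := by
  obtain ⟨h₀, hh₀⟩ := cx_inr (fun _ _ _ => rfl) (fun _ _ _ => rfl) hx
  have hrc : ∀ t ∈ Ioo a b, ContinuousAt r t := fun t ht =>
    (DD.ltraj_cont (hx.tr t ht)).self_of_nhds
  have hqc : ∀ t ∈ Ioo a b, ContinuousAt (fun τ => (r τ).1) t := fun t ht =>
    continuous_fst.continuousAt.comp (hrc t ht)
  have hpc : ∀ v : (ℝ × ℝ) × Y, ContinuousOn (fun τ => p τ v) (Ioo a b) := fun v =>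
    hx.pc.clm_apply continuousOn_const
  -- values of the multiplier
  have hpv : ∀ t ∈ Ioo a b, ∀ (α β : ℝ) (y : Y), p t ((α, β), y) =
      α * p t ((1, 0), 0) + β * p t ((0, 1), 0) + h₀ y := by
    intro t ht α β y
    have e : (((α, β), y) : (ℝ × ℝ) × Y) = α • (((1, 0), 0) : (ℝ × ℝ) × Y) +
        β • (((0, 1), 0) : (ℝ × ℝ) × Y) + ((0, y) : (ℝ × ℝ) × Y) := by
      ext <;> simp
    rw [e, map_add, map_add, map_smul, map_smul, hh₀ t ht y, smul_eq_mul, smul_eq_mul]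
  have hηd : ∀ t ∈ Ioo a b, ∀ w : ℝ × ℝ, fderiv ℝ (fun z => h₀ (h z)) (r t).1 w =
      h₀ (fderiv ℝ h (r t).1 w) := by
    intro t ht w
    have h1 : HasFDerivAt (fun z => h₀ (h z)) (h₀.comp (fderiv ℝ h (r t).1)) (r t).1 :=
      h₀.hasFDerivAt.comp _ (hh t ht).differentiableAt.hasFDerivAt
    rw [h1.fderiv]
    rfl
  -- the adjoint equation in a direction
  have key : ∀ w : ℝ × ℝ, ∀ t ∈ Ioo a b, HasDerivAt (fun τ => p τ (w, 0))
      (-(p t ((1, 0), 0) * fderiv ℝ f (r t).1 w + p t ((0, 1), 0) * fderiv ℝ k (r t).1 w +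
        fderiv ℝ (fun z => h₀ (h z)) (r t).1 w)) t := by
    intro w t ht
    have hcf : ∀ {E : Type _} [NormedAddCommGroup E] [NormedSpace ℝ E] [CompleteSpace E]
        {g : ℝ × ℝ → E}, (∀ t ∈ Ioo a b, AnalyticAt ℝ g (r t).1) →
        ContinuousOn (fun τ => fderiv ℝ g (r τ).1 w) (Ioo a b) := by
      intro E _ _ _ g hg τ hτ
      have h1 : ContinuousAt (fun τ => fderiv ℝ g (r τ).1) τ :=
        ContinuousAt.comp (f := fun τ => (r τ).1) (hg τ hτ).fderiv.continuousAt (hqc τ hτ)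
      exact (h1.clm_apply continuousAt_const).continuousWithinAt
    have hη : ∀ t ∈ Ioo a b, AnalyticAt ℝ (fun z => h₀ (h z)) (r t).1 := fun t ht =>
      (h₀.analyticAt _).comp (hh t ht)
    have hI : ContinuousOn (fun τ => p τ ((1, 0), 0) * fderiv ℝ f (r τ).1 w +
        p τ ((0, 1), 0) * fderiv ℝ k (r τ).1 w + fderiv ℝ (fun z => h₀ (h z)) (r τ).1 w)
        (Ioo a b) :=
      (((hpc _).mul (hcf hf)).add ((hpc _).mul (hcf hk))).add (hcf hη)
    refine kcxbd_ftc (L := fun τ => p τ (w, 0)) hI ?_ ht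
    intro s hs y hy
    show p y (w, 0) - p s (w, 0) = _
    rw [hx.peq (w, 0) s hs y hy]
    congr 1
    refine intervalIntegral.integral_congr fun τ hτ => ?_
    have hτ' : τ ∈ Ioo a b := ordConnected_Ioo.uIcc_subset hs hy hτ
    show p τ ((dx (FB f k h) (τ, r τ) + u τ • dx GB (τ, r τ)) (w, 0)) = _
    rw [add_apply, smul_apply, kcxbd_dxG, smul_zero,
      add_zero, kcxbd_dxF (hf τ hτ').differentiableAt (hk τ hτ').differentiableAt
        (hh τ hτ').differentiableAt, hpv τ hτ']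
    show _ = p τ ((1, 0), 0) * fderiv ℝ f (r τ).1 w + p τ ((0, 1), 0) * fderiv ℝ k (r τ).1 w +
      fderiv ℝ (fun z => h₀ (h z)) (r τ).1 w
    rw [hηd τ hτ' w]
    ring
  refine ⟨h₀, ?_, hh₀, fun t ht => hx.sg t ht⟩
  refine ⟨hx.adm, hf, hk, fun t ht => (h₀.analyticAt _).comp (hh t ht), ?_, ?_, ?_, ?_, ?_, ?_⟩
  · intro t ht
    have h1 := (DD.ltraj_hd hx.adm (hx.tr t ht)
      ((ContinuousLinearMap.fst ℝ ℝ ℝ).comp (ContinuousLinearMap.fst ℝ (ℝ × ℝ) Y))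
      (hx.Fa t ht) (hx.Ga t ht) (Eventually.of_forall fun z => rfl)).self_of_nhds
    exact h1
  · exact fun t ht => (continuous_snd.continuousAt.comp (hqc t ht)).continuousWithinAt
  · have hFc : ContinuousOn (fun τ => FB f k h (τ, r τ)) (Ioo a b) := by
      intro τ hτ
      have h1 : ContinuousAt (fun τ => (τ, r τ)) τ := continuousAt_id.prodMk (hrc τ hτ)
      exact (ContinuousAt.comp (f := fun τ => (τ, r τ)) (hx.Fa τ hτ).continuousAt
        h1).continuousWithinAt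
    have hJ : ∀ s ∈ Ioo a b, ∀ t ∈ Ioo a b,
        IntervalIntegrable (fun τ => FB f k h (τ, r τ) + u τ • GB (τ, r τ)) volume s t := by
      intro s hs t ht
      exact ((hFc.mono (ordConnected_Ioo.uIcc_subset hs ht)).intervalIntegrable).add
        (kcxbd_u hx.adm (((0, 1), 0) : (ℝ × ℝ) × Y) s t)
    have hr : ∀ s ∈ Ioo a b, ∀ t ∈ Ioo a b,
        r t - r s = ∫ τ in s..t, (FB f k h (τ, r τ) + u τ • GB (τ, r τ)) := by
      refine kcxbd_glue (fun t₀ ht₀ => ?_) hJ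
      obtain ⟨ε, hε, -, he⟩ := hx.tr t₀ ht₀
      exact ⟨ε, hε, fun t ht => he t₀ ⟨by linarith, by linarith⟩ t ht⟩
    intro s hs t ht
    set l : ((ℝ × ℝ) × Y) →L[ℝ] ℝ :=
      (ContinuousLinearMap.snd ℝ ℝ ℝ).comp (ContinuousLinearMap.fst ℝ (ℝ × ℝ) Y) with hl
    have h1 : l (r t - r s) = ∫ τ in s..t, l (FB f k h (τ, r τ) + u τ • GB (τ, r τ)) := by
      rw [hr s hs t ht]
      have : CompleteSpace Y := FiniteDimensional.complete ℝ Y
      exact (ContinuousLinearMap.intervalIntegral_comp_comm l (hJ s hs t ht)).symm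
    have h2 : l (r t - r s) = (r t).1.2 - (r s).1.2 := rfl
    rw [h2] at h1
    show (r t).1.2 - (r s).1.2 = ∫ τ in s..t, (k ((r τ).1.1, (r τ).1.2) + u τ)
    rw [h1]
    refine intervalIntegral.integral_congr fun τ _ => ?_
    show k (r τ).1 + u τ * 1 = k (r τ).1 + u τ
    rw [mul_one]
  · intro t ht
    exact key (1, 0) t ht
  · intro t ht
    exact key (0, 1) t ht
  · filter_upwards [hx.mx] with t h1 ht
    exact h1 ht

end Pool.Agent.Lib.MP_28b8de_an.KK
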