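import Pool.Agent.Lib.MP_28b8de_an.K.KPerm

/-!
MP_28b8de_an, module KPermB.

Planar systems at a rest point.
PROOF.  FB f k h = FP (fun z => (f z, k z)) h and GB = FP (fun _ => (0,1)) (fun _ => 0) (definitionally, `funext`).  q := (r t₁).1, ρ > 0 with f, k, h continuous on the ball B(q,ρ) (AnalyticAt.eventually_continuousAt / analytic near q).  K from Cx.gap.
δ > 0 so small that for |t - t₁| < δ: t ∈ Ioo a b, (r t).1 ∈ B(q,ρ), (t ∈ C → (r t).1 = q), and |K| 2δ < ρ.  For s < s' in C, |s - t₁|, |s' - t₁| < δ: perm_rep with x = r (integral equation on [s,s'] from the local ones Cx.tr by adding up; continuity from Cx.tr).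
-/

set_option linter.unusedSectionVars false

namespace Pool.Agent.Lib.MP_28b8de_an.KK

open Filter Topology Set MeasureTheory
open Pool.Agent.Lib.MP_28b8de_an.PT (Adm Perf)
open Pool.Agent.Lib.MP_28b8de_an.TT (Env Sol Jn Tr SmAt Goal dx Dn Gen Lc Lp Lq fX cf)
open Pool.Agent.Lib.MP_28b8de_an.DD (LTraj LRep Ch)

variable {Y : Type*} [NormedAddCommGroup Y] [NormedSpace ℝ Y] [FiniteDimensional ℝ Y]

omit [FiniteDimensional ℝ Y] in
private theorem kpermB_ii {f k : ℝ × ℝ → ℝ} {h : ℝ × ℝ → Y} {u : ℝ → ℝ}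
    {r : ℝ → (ℝ × ℝ) × Y} {a b : ℝ} (hu : Adm u) (hrc : ContinuousOn r (Ioo a b))
    (hf : ∀ t ∈ Ioo a b, AnalyticAt ℝ f (r t).1) (hk : ∀ t ∈ Ioo a b, AnalyticAt ℝ k (r t).1)
    (hh : ∀ t ∈ Ioo a b, AnalyticAt ℝ h (r t).1) {s t : ℝ} (hs : s ∈ Ioo a b) (ht : t ∈ Ioo a b) :
    IntervalIntegrable (fun τ => FB f k h (τ, r τ) + u τ • (GB (τ, r τ) : (ℝ × ℝ) × Y))
      volume s t := by
  have hsub : uIcc s t ⊆ Ioo a b := by
    intro τ hτ
    rcases le_total s t with hst | hst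
    · rw [uIcc_of_le hst] at hτ
      exact ⟨lt_of_lt_of_le hs.1 hτ.1, lt_of_le_of_lt hτ.2 ht.2⟩
    · rw [uIcc_of_ge hst] at hτ
      exact ⟨lt_of_lt_of_le ht.1 hτ.1, lt_of_le_of_lt hτ.2 hs.2⟩
  have hr1 : ContinuousOn (fun τ => (r τ).1) (Ioo a b) := continuous_fst.comp_continuousOn hrc
  have hF : ContinuousOn (fun τ => FB f k h (τ, r τ)) (Ioo a b) := by
    intro τ hτ
    have h1 : ContinuousWithinAt (fun τ => f (r τ).1) (Ioo a b) τ :=
      (hf τ hτ).continuousAt.comp_continuousWithinAt (f := fun τ => (r τ).1) (hr1 τ hτ)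
    have h2 : ContinuousWithinAt (fun τ => k (r τ).1) (Ioo a b) τ :=
      (hk τ hτ).continuousAt.comp_continuousWithinAt (f := fun τ => (r τ).1) (hr1 τ hτ)
    have h3 : ContinuousWithinAt (fun τ => h (r τ).1) (Ioo a b) τ :=
      (hh τ hτ).continuousAt.comp_continuousWithinAt (f := fun τ => (r τ).1) (hr1 τ hτ)
    exact (h1.prodMk h2).prodMk h3
  have hui : IntervalIntegrable u volume s t := by
    refine IntervalIntegrable.mono_fun' (g := fun _ => (1 : ℝ)) intervalIntegrable_const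
      hu.1.aestronglyMeasurable ?_
    exact Eventually.of_forall fun τ => by
      simpa [Real.norm_eq_abs] using hu.2 τ
  refine IntervalIntegrable.add ((hF.mono hsub).intervalIntegrable) ?_
  exact ⟨Integrable.smul_const hui.1 (((0, 1), 0) : (ℝ × ℝ) × Y),
    Integrable.smul_const hui.2 (((0, 1), 0) : (ℝ × ℝ) × Y)⟩

theorem b_perm {f k : ℝ × ℝ → ℝ} {h : ℝ × ℝ → Y} {u : ℝ → ℝ} {r : ℝ → (ℝ × ℝ) × Y} {a b : ℝ}
    {p : ℝ → ((ℝ × ℝ) × Y) →L[ℝ] ℝ} {C : Set ℝ} (hx : Cx (FB f k h) GB u r a b p C)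
    (hf : ∀ t ∈ Ioo a b, AnalyticAt ℝ f (r t).1) (hk : ∀ t ∈ Ioo a b, AnalyticAt ℝ k (r t).1)
    (hh : ∀ t ∈ Ioo a b, AnalyticAt ℝ h (r t).1) {t₁ : ℝ} (ht₁ : t₁ ∈ C)
    (hq : ∀ᶠ t in 𝓝 t₁, t ∈ C → (r t).1 = (r t₁).1) : LGoal (FB f k h) GB r C := by
  classical
  have hCab := hx.sub
  have ht₁' : t₁ ∈ Ioo a b := hCab ht₁
  have hrc : ContinuousOn r (Ioo a b) := by
    intro t ht
    exact (DD.ltraj_cont (hx.tr t ht)).self_of_nhds.continuousWithinAt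
  have hr₁ : ContinuousAt (fun t => (r t).1) t₁ :=
    continuous_fst.continuousAt.comp (DD.ltraj_cont (hx.tr t₁ ht₁')).self_of_nhds
  obtain ⟨ρ, hρ, hball⟩ : ∃ ρ > 0, ∀ z ∈ Metric.ball (r t₁).1 ρ,
      AnalyticAt ℝ f z ∧ AnalyticAt ℝ k z ∧ AnalyticAt ℝ h z := by
    have h1 : ∀ᶠ z in 𝓝 (r t₁).1, AnalyticAt ℝ f z ∧ AnalyticAt ℝ k z ∧ AnalyticAt ℝ h z :=
      (hf t₁ ht₁').eventually_analyticAt.and
        ((hk t₁ ht₁').eventually_analyticAt.and (hh t₁ ht₁').eventually_analyticAt)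
    exact Metric.eventually_nhds_iff_ball.1 h1
  obtain ⟨K, hK⟩ := hx.gap
  obtain ⟨δ₁, hδ₁, hd⟩ : ∃ δ₁ > 0, ∀ t ∈ Metric.ball t₁ δ₁,
      t ∈ Ioo a b ∧ (r t).1 ∈ Metric.ball (r t₁).1 ρ ∧ (t ∈ C → (r t).1 = (r t₁).1) := by
    have h1 : ∀ᶠ t in 𝓝 t₁, t ∈ Ioo a b := isOpen_Ioo.mem_nhds ht₁'
    have h2 : ∀ᶠ t in 𝓝 t₁, (r t).1 ∈ Metric.ball (r t₁).1 ρ :=
      hr₁ (Metric.ball_mem_nhds _ hρ)
    exact Metric.eventually_nhds_iff_ball.1 (h1.and (h2.and hq))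
  have hK1 : 0 < |K| + 1 := by positivity
  refine ⟨t₁, ht₁, |K| + ‖h (r t₁).1‖ + ‖(0 : Y)‖, min δ₁ (ρ / (2 * (|K| + 1))),
    lt_min hδ₁ (by positivity), ?_⟩
  intro s hsC s' hs'C hs hs' hss
  have hδs := lt_of_lt_of_le hs (min_le_left _ _)
  have hδs' := lt_of_lt_of_le hs' (min_le_left _ _)
  have hρs := lt_of_lt_of_le hs (min_le_right _ _)
  have hρs' := lt_of_lt_of_le hs' (min_le_right _ _)
  have hin : ∀ t ∈ Icc s s', t ∈ Metric.ball t₁ δ₁ := by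
    intro t ht
    rw [Metric.mem_ball, Real.dist_eq]
    rw [abs_lt] at hδs hδs' ⊢
    exact ⟨by linarith [ht.1], by linarith [ht.2]⟩
  have hIoo : ∀ t ∈ Icc s s', t ∈ Ioo a b := fun t ht => (hd t (hin t ht)).1
  have hsI : s ∈ Icc s s' := left_mem_Icc.2 hss.le
  have hlen : |K| * (s' - s) < ρ := by
    have h1 : s' - s < 2 * (ρ / (2 * (|K| + 1))) := by
      rw [abs_lt] at hρs hρs'
      linarith [hρs.1, hρs'.2]
    have h2 : 2 * (ρ / (2 * (|K| + 1))) = ρ / (|K| + 1) := by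
      field_simp
    rw [h2] at h1
    have h3 : |K| * (s' - s) ≤ |K| * (ρ / (|K| + 1)) :=
      mul_le_mul_of_nonneg_left h1.le (abs_nonneg _)
    have h4 : |K| * (ρ / (|K| + 1)) < ρ := by
      rw [mul_div_assoc', div_lt_iff₀ hK1]
      nlinarith [abs_nonneg K]
    exact lt_of_le_of_lt h3 h4
  have hint : ∀ t ∈ Icc s s', r t = r s + ∫ τ in s..t,
      (FB f k h (τ, r τ) + u τ • (GB (τ, r τ) : (ℝ × ℝ) × Y)) := by
    set Φ : ℝ → (ℝ × ℝ) × Y :=
      fun τ => FB f k h (τ, r τ) + u τ • (GB (τ, r τ) : (ℝ × ℝ) × Y) with hΦ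
    have hii : ∀ c ∈ Ioo a b, ∀ d ∈ Ioo a b, IntervalIntegrable Φ volume c d :=
      fun c hc d hd' => kpermB_ii hx.adm hrc hf hk hh hc hd'
    have hD : ∀ t ∈ Ioo a b, HasDerivAt (fun t => r t - ∫ τ in s..t, Φ τ) 0 t := by
      intro t ht
      obtain ⟨ε, hε, -, he⟩ := hx.tr t ht
      have hev : (fun t => r t - ∫ τ in s..t, Φ τ) =ᶠ[𝓝 t]
          fun _ => r t - ∫ τ in s..t, Φ τ := by
        have h1 : ∀ᶠ t' in 𝓝 t, t' ∈ Ioo (t - ε) (t + ε) :=
          isOpen_Ioo.mem_nhds ⟨by linarith, by linarith⟩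
        have h2 : ∀ᶠ t' in 𝓝 t, t' ∈ Ioo a b := isOpen_Ioo.mem_nhds ht
        filter_upwards [h1, h2] with t' h1 h2
        have h3 := he t ⟨by linarith, by linarith⟩ t' h1
        have h4 : (∫ τ in s..t', Φ τ) = (∫ τ in s..t, Φ τ) + ∫ τ in t..t', Φ τ :=
          (intervalIntegral.integral_add_adjacent_intervals (hii s (hIoo s hsI) t ht)
            (hii t ht t' h2)).symm
        have h5 : r t' = r t + ∫ τ in t..t', Φ τ := by
          rw [← h3]; abel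
        rw [h5, h4]; abel
      exact (hasDerivAt_const t _).congr_of_eventuallyEq hev
    intro t ht
    have hc := constant_of_has_deriv_right_zero (f := fun t => r t - ∫ τ in s..t, Φ τ)
      (a := s) (b := s')
      (fun τ hτ => (hD τ (hIoo τ hτ)).continuousAt.continuousWithinAt)
      (fun τ hτ => (hD τ (hIoo τ ⟨hτ.1, hτ.2.le⟩)).hasDerivWithinAt) t ht
    simp only [intervalIntegral.integral_same, sub_zero] at hc
    rw [← hc]; abel
  exact perm_rep (f := fun z => (f z, k z)) (g := fun _ => (0, 1)) (a := h) (b := fun _ => 0)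
    (q := (r t₁).1) (ρ := ρ)
    (fun z hz => ((hball z hz).1.continuousAt.prodMk
      (hball z hz).2.1.continuousAt).continuousWithinAt)
    continuousOn_const (fun z hz => (hball z hz).2.2.continuousAt.continuousWithinAt)
    continuousOn_const hx.adm hss
    (hrc.mono fun t ht => hIoo t ht) (fun t ht => (hd t (hin t ht)).2.1) hint
    hx.perf.closed hsC hs'C (fun t ht ht' => (hd t (hin t ht')).2.2 ht) hlen
    (fun α hα β hβ _ hαβ _ hg => hK α hα β hβ hαβ hg)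

end Pool.Agent.Lib.MP_28b8de_an.KK
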