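import Pool.Agent.Lib.MP_28b8de_an.K.KDefs

/-!
MP_28b8de_an, module KInr.

Multipliers of systems which do not depend on the costs; splitting off a functional.
PROOFS.  cx_inr: dx F z (0,y) = fderiv F z (0,(0,y)) = 0 for all z: if F is not differentiable at z then fderiv = 0; otherwise it is the derivative at 0 of τ ↦ F (z.1, (z.2.1, z.2.2 + τ y)), a constant function.  Same for G.
So p t (0,y) - p s (0,y) = 0 for s, t ∈ (a,b) (Cx.peq; if Ioo a b is empty take h₀ = 0): h₀ := (p c).comp (inr), c ∈ (a,b).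
ker_split: h₀ e = 1 for some e (h₀ ≠ 0); π y := y - h₀ y • e ∈ ker h₀ (continuous: finite dimension); finrank (ker h₀) + 1 = finrank Y (rank-nullity, the range of h₀ is ℝ).
-/

set_option linter.unusedSectionVars false

namespace Pool.Agent.Lib.MP_28b8de_an.KK

open Filter Topology Set MeasureTheory
open Pool.Agent.Lib.MP_28b8de_an.PT (Adm Perf)
open Pool.Agent.Lib.MP_28b8de_an.TT (Env Sol Jn Tr SmAt Goal dx Dn Gen Lc Lp Lq fX cf)
open Pool.Agent.Lib.MP_28b8de_an.DD (LTraj LRep Ch)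

private theorem kinr_fderiv {Q Y : Type*} [NormedAddCommGroup Q] [NormedSpace ℝ Q]
    [NormedAddCommGroup Y] [NormedSpace ℝ Y] {F : ℝ × (Q × Y) → Q × Y}
    (hF : ∀ (t : ℝ) (q : Q) (y : Y), F (t, (q, y)) = F (t, (q, 0))) (z : ℝ × (Q × Y)) (y : Y) :
    dx F z (0, y) = 0 := by
  have h0 : dx F z (0, y) = fderiv ℝ F z (0, (0, y)) := rfl
  rw [h0]
  by_cases hd : DifferentiableAt ℝ F z
  · have h1 : HasLineDerivAt ℝ F (fderiv ℝ F z (0, (0, y))) z (0, (0, y)) :=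
      hd.hasFDerivAt.hasLineDerivAt _
    have h2 : HasDerivAt (fun τ : ℝ => F (z + τ • ((0, (0, y)) : ℝ × (Q × Y))))
        (fderiv ℝ F z (0, (0, y))) 0 := h1
    have h3 : (fun τ : ℝ => F (z + τ • ((0, (0, y)) : ℝ × (Q × Y)))) = fun _ => F z := by
      funext τ
      obtain ⟨t, q, w⟩ := z
      have h4 : ((t, (q, w)) : ℝ × (Q × Y)) + τ • ((0, (0, y)) : ℝ × (Q × Y)) =
          (t, (q, w + τ • y)) := by
        simp
      rw [h4, hF, hF t q w]
    rw [h3] at h2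
    exact h2.unique (hasDerivAt_const _ _)
  · rw [fderiv_zero_of_not_differentiableAt hd]
    rfl

theorem cx_inr {Q Y : Type*} [NormedAddCommGroup Q] [NormedSpace ℝ Q] [NormedAddCommGroup Y]
    [NormedSpace ℝ Y] {F G : ℝ × (Q × Y) → Q × Y}
    (hF : ∀ (t : ℝ) (q : Q) (y : Y), F (t, (q, y)) = F (t, (q, 0)))
    (hG : ∀ (t : ℝ) (q : Q) (y : Y), G (t, (q, y)) = G (t, (q, 0)))
    {u : ℝ → ℝ} {x : ℝ → Q × Y} {a b : ℝ} {p : ℝ → (Q × Y) →L[ℝ] ℝ} {C : Set ℝ}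
    (h : Cx F G u x a b p C) :
    ∃ h₀ : Y →L[ℝ] ℝ, ∀ t ∈ Ioo a b, ∀ y : Y, p t (0, y) = h₀ y := by
  rcases (Ioo a b).eq_empty_or_nonempty with he | ⟨c, hc⟩
  · refine ⟨0, fun t ht => ?_⟩
    rw [he] at ht
    exact absurd ht (notMem_empty t)
  · refine ⟨(p c).comp (ContinuousLinearMap.inr ℝ Q Y), fun t ht y => ?_⟩
    have h1 := h.peq (0, y) c hc t ht
    have h2 : ∀ τ : ℝ, p τ ((dx F (τ, x τ) + u τ • dx G (τ, x τ)) (0, y)) = 0 := by
      intro τ
      rw [ContinuousLinearMap.add_apply, ContinuousLinearMap.smul_apply, kinr_fderiv hF,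
        kinr_fderiv hG, smul_zero, add_zero, map_zero]
    simp only [h2] at h1
    rw [intervalIntegral.integral_zero, neg_zero, sub_eq_zero] at h1
    exact h1

theorem ker_split {Y : Type*} [NormedAddCommGroup Y] [NormedSpace ℝ Y] [FiniteDimensional ℝ Y]
    {h₀ : Y →L[ℝ] ℝ} (hh : h₀ ≠ 0) :
    ∃ (π : Y →L[ℝ] (LinearMap.ker (h₀ : Y →ₗ[ℝ] ℝ))) (e : Y),
      (∀ y : Y, y = (π y : Y) + h₀ y • e) ∧
      Module.finrank ℝ (LinearMap.ker (h₀ : Y →ₗ[ℝ] ℝ)) + 1 = Module.finrank ℝ Y := by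
  obtain ⟨y0, hy0⟩ : ∃ y0, h₀ y0 ≠ 0 := by
    by_contra hcon
    push Not at hcon
    apply hh
    ext y
    rw [hcon y]
    rfl
  set e : Y := (h₀ y0)⁻¹ • y0 with he
  have h1 : h₀ e = 1 := by
    rw [he, map_smul, smul_eq_mul, inv_mul_cancel₀ hy0]
  refine ⟨(ContinuousLinearMap.id ℝ Y - h₀.smulRight e).codRestrict
    (LinearMap.ker (h₀ : Y →ₗ[ℝ] ℝ)) ?_, e, ?_, ?_⟩
  · intro y
    rw [LinearMap.mem_ker]
    change h₀ (y - h₀ y • e) = 0
    rw [map_sub, map_smul, h1, smul_eq_mul, mul_one, sub_self]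
  · intro y
    change y = (y - h₀ y • e) + h₀ y • e
    rw [sub_add_cancel]
  · have h2 := LinearMap.finrank_range_add_finrank_ker (h₀ : Y →ₗ[ℝ] ℝ)
    have h3 : LinearMap.range (h₀ : Y →ₗ[ℝ] ℝ) = ⊤ := by
      rw [LinearMap.range_eq_top]
      intro r
      refine ⟨r • e, ?_⟩
      change h₀ (r • e) = r
      rw [map_smul, h1, smul_eq_mul, mul_one]
    rw [h3, finrank_top, Module.finrank_self] at h2
    rw [add_comm]
    exact h2

end Pool.Agent.Lib.MP_28b8de_an.KK
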