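import Pool.Agent.Lib.MP_28b8de_an.K.KGl
import Pool.Agent.Lib.MP_28b8de_an.K.KInr
import Pool.Agent.Lib.MP_28b8de_an.D.DZ

/-!
MP_28b8de_an, module KRedB.

Reduction of the number of costs (planar systems).
PROOF.  z₀ := (r t₀).1.  S analytic at z₀.1 with S' = ω near z₀.1 (`DD.ode_ex` with H (v,_) := ω v; time variable v).  c := h₀ ((r t₀).2) + S z₀.1 - κ t₀.
Along the trajectory h₀ ((r t).2) + S ((r t).1.1) - κ t has derivative h₀ (h) + ω f - κ = 0 near t₀ (ltraj_hd with l = h₀ ∘ snd and l = fst ∘ fst; GB does not act on them), so h₀ ((r t).2) = c + κ t - S ((r t).1.1) near t₀.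
Θ (t,(z,y')) := (z, j y' + (c + κ t - S z.1) • e) : ℝ × ((ℝ × ℝ) × Y') → (ℝ × ℝ) × Y.  fderiv Θ (t,(z,y')) (1,((f,k), π h)) = ((f,k), j (π h) + (κ - ω z.1 f z) • e) = ((f,k), h) near (κ - ω f = h₀ (h)), fderiv Θ (0,((0,1),0)) = ((0,1),0);
r t = Θ (t,((r t).1, π (r t).2)) near t₀: `DD.lrep_push`.
-/

set_option linter.unusedSectionVars false

namespace Pool.Agent.Lib.MP_28b8de_an.KK

open Filter Topology Set MeasureTheory
open Pool.Agent.Lib.MP_28b8de_an.PT (Adm Perf)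
open Pool.Agent.Lib.MP_28b8de_an.TT (Env Sol Jn Tr SmAt Goal dx Dn Gen Lc Lp Lq fX cf)
open Pool.Agent.Lib.MP_28b8de_an.DD (LTraj LRep Ch)

variable {Y : Type*} [NormedAddCommGroup Y] [NormedSpace ℝ Y] [FiniteDimensional ℝ Y]

theorem b_red {Y' : Type*} [NormedAddCommGroup Y'] [NormedSpace ℝ Y'] [FiniteDimensional ℝ Y']
    {h₀ : Y →L[ℝ] ℝ} (π : Y →L[ℝ] Y') (j : Y' →L[ℝ] Y) (e : Y)
    (hj : ∀ y : Y, y = j (π y) + h₀ y • e) {f k : ℝ × ℝ → ℝ} {h : ℝ × ℝ → Y} {u : ℝ → ℝ}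
    (hu : Adm u) {r : ℝ → (ℝ × ℝ) × Y} {t₀ : ℝ} (hf : AnalyticAt ℝ f (r t₀).1)
    (hk : AnalyticAt ℝ k (r t₀).1) (hh : AnalyticAt ℝ h (r t₀).1)
    (hr : LTraj (FB f k h) GB u r t₀) {ω : ℝ → ℝ} {κ : ℝ} (hω : AnalyticAt ℝ ω (r t₀).1.1)
    (h1 : ∀ᶠ z in 𝓝 (r t₀).1, ω z.1 * f z + h₀ (h z) = κ)
    (H : LRep (FB f k fun z => π (h z)) GB (fun t => ((r t).1, π (r t).2)) t₀) :
    LRep (FB f k h) GB r t₀ := by
  -- an antiderivative of `ω`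
  obtain ⟨S, hSa, -, hSd⟩ := DD.ode_ex (E := ℝ) (H := fun p : ℝ × ℝ => ω p.1) (t₀ := (r t₀).1.1)
    (y₀ := 0) (AnalyticAt.fun_comp (f := fun p : ℝ × ℝ => p.1) (g := ω) (x := ((r t₀).1.1, (0 : ℝ)))
      hω analyticAt_fst)
  have hxc : ContinuousAt r t₀ := (DD.ltraj_cont hr).self_of_nhds
  have hr1 : Tendsto (fun t => (r t).1) (𝓝 t₀) (𝓝 (r t₀).1) := hxc.fst
  have hr11 : Tendsto (fun t => (r t).1.1) (𝓝 t₀) (𝓝 (r t₀).1.1) := hxc.fst.fst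
  have hproj : ∀ g : ℝ × ℝ → Y, AnalyticAt ℝ g (r t₀).1 →
      AnalyticAt ℝ (fun z : ℝ × ((ℝ × ℝ) × Y) => g z.2.1) (t₀, r t₀) := fun g hg =>
    AnalyticAt.fun_comp (f := fun z : ℝ × ((ℝ × ℝ) × Y) => z.2.1) (g := g) hg
      (analyticAt_fst.comp analyticAt_snd)
  have hproj1 : ∀ g : ℝ × ℝ → ℝ, AnalyticAt ℝ g (r t₀).1 →
      AnalyticAt ℝ (fun z : ℝ × ((ℝ × ℝ) × Y) => g z.2.1) (t₀, r t₀) := fun g hg =>
    AnalyticAt.fun_comp (f := fun z : ℝ × ((ℝ × ℝ) × Y) => z.2.1) (g := g) hg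
      (analyticAt_fst.comp analyticAt_snd)
  have hFa : AnalyticAt ℝ (FB f k h) (t₀, r t₀) :=
    ((hproj1 f hf).prod (hproj1 k hk)).prod (hproj h hh)
  have hGa : AnalyticAt ℝ (GB (Y := Y)) (t₀, r t₀) := analyticAt_const
  -- the conserved quantity
  have hd1 := DD.ltraj_hd hu hr (h₀.comp (ContinuousLinearMap.snd ℝ (ℝ × ℝ) Y)) hFa hGa
    (Eventually.of_forall fun z => by simp [GB])
  have hd2 := DD.ltraj_hd hu hr ((ContinuousLinearMap.fst ℝ ℝ ℝ).comp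
    (ContinuousLinearMap.fst ℝ (ℝ × ℝ) Y)) hFa hGa (Eventually.of_forall fun z => by simp [GB])
  simp only [ContinuousLinearMap.comp_apply, ContinuousLinearMap.coe_snd',
    ContinuousLinearMap.coe_fst', FB] at hd1 hd2
  have hd : ∀ᶠ t in 𝓝 t₀, HasDerivAt (fun t => h₀ (r t).2 + S (r t).1.1 - κ * t) 0 t := by
    filter_upwards [hd1, hd2, hr1.eventually h1, hr11.eventually hSd] with t g1 g2 g3 g4
    have g5 : HasDerivAt (fun t => S (r t).1.1) (ω (r t).1.1 * f (r t).1) t := g4.comp t g2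
    have g6 := (g1.add g5).sub ((hasDerivAt_id t).const_mul κ)
    have g7 : h₀ (h (r t).1) + ω (r t).1.1 * f (r t).1 - κ * 1 = 0 := by linarith
    rw [g7] at g6
    exact g6
  set c : ℝ := h₀ (r t₀).2 + S (r t₀).1.1 - κ * t₀ with hc
  have hcons : ∀ᶠ t in 𝓝 t₀, h₀ (r t).2 = c + κ * t - S (r t).1.1 := by
    obtain ⟨η, hη, hJ⟩ := Metric.eventually_nhds_iff_ball.1 hd
    filter_upwards [Metric.ball_mem_nhds t₀ hη] with t ht
    have h5 := Metric.isOpen_ball.is_const_of_deriv_eq_zero (convex_ball t₀ η).isPreconnected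
      (fun s hs => (hJ s hs).differentiableAt.differentiableWithinAt)
      (fun s hs => (hJ s hs).deriv) ht (Metric.mem_ball_self hη)
    linarith
  -- the map `Θ`
  let Θ : ℝ × ((ℝ × ℝ) × Y') → (ℝ × ℝ) × Y := fun w =>
    (w.2.1, j w.2.2 + (c + κ * w.1 - S w.2.1.1) • e)
  have hΘd : ∀ᶠ w in 𝓝 ((t₀, ((r t₀).1, π (r t₀).2)) : ℝ × ((ℝ × ℝ) × Y')),
      ∀ (τ : ℝ) (ζ : ℝ × ℝ) (y : Y'), fderiv ℝ Θ w (τ, (ζ, y)) =
        (ζ, j y + (κ * τ - ω w.2.1.1 * ζ.1) • e) := by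
    have g1 : Tendsto (fun w : ℝ × ((ℝ × ℝ) × Y') => w.2.1.1)
        (𝓝 (t₀, ((r t₀).1, π (r t₀).2))) (𝓝 (r t₀).1.1) :=
      (continuous_fst.comp (continuous_fst.comp continuous_snd)).tendsto _
    filter_upwards [g1.eventually hSd] with w hw τ ζ y
    have g2 : HasFDerivAt (fun w : ℝ × ((ℝ × ℝ) × Y') => w.2.1)
        ((ContinuousLinearMap.fst ℝ (ℝ × ℝ) Y').comp (ContinuousLinearMap.snd ℝ ℝ ((ℝ × ℝ) × Y'))) w :=
      ((ContinuousLinearMap.fst ℝ (ℝ × ℝ) Y').comp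
        (ContinuousLinearMap.snd ℝ ℝ ((ℝ × ℝ) × Y'))).hasFDerivAt
    have g3 : HasFDerivAt (fun w : ℝ × ((ℝ × ℝ) × Y') => w.2.2)
        ((ContinuousLinearMap.snd ℝ (ℝ × ℝ) Y').comp (ContinuousLinearMap.snd ℝ ℝ ((ℝ × ℝ) × Y'))) w :=
      ((ContinuousLinearMap.snd ℝ (ℝ × ℝ) Y').comp
        (ContinuousLinearMap.snd ℝ ℝ ((ℝ × ℝ) × Y'))).hasFDerivAt
    have g4 : HasFDerivAt (fun w : ℝ × ((ℝ × ℝ) × Y') => w.2.1.1)
        ((ContinuousLinearMap.fst ℝ ℝ ℝ).comp ((ContinuousLinearMap.fst ℝ (ℝ × ℝ) Y').comp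
          (ContinuousLinearMap.snd ℝ ℝ ((ℝ × ℝ) × Y')))) w :=
      ((ContinuousLinearMap.fst ℝ ℝ ℝ).comp ((ContinuousLinearMap.fst ℝ (ℝ × ℝ) Y').comp
        (ContinuousLinearMap.snd ℝ ℝ ((ℝ × ℝ) × Y')))).hasFDerivAt
    have g5 : HasFDerivAt (fun w : ℝ × ((ℝ × ℝ) × Y') => w.1)
        (ContinuousLinearMap.fst ℝ ℝ ((ℝ × ℝ) × Y')) w :=
      (ContinuousLinearMap.fst ℝ ℝ ((ℝ × ℝ) × Y')).hasFDerivAt
    have g6 := hw.comp_hasFDerivAt w g4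
    have g7 := (((g5.const_mul κ).const_add c).sub g6).smul_const e
    have g8 := g2.prodMk ((j.hasFDerivAt.comp w g3).add g7)
    have g9 : HasFDerivAt Θ _ w := g8
    rw [g9.fderiv]
    simp
  have hΘa : AnalyticAt ℝ Θ (t₀, ((r t₀).1, π (r t₀).2)) := by
    have g1 : AnalyticAt ℝ (fun w : ℝ × ((ℝ × ℝ) × Y') => w.2.1) (t₀, ((r t₀).1, π (r t₀).2)) :=
      analyticAt_fst.comp analyticAt_snd
    have g2 : AnalyticAt ℝ (fun w : ℝ × ((ℝ × ℝ) × Y') => w.2.2) (t₀, ((r t₀).1, π (r t₀).2)) :=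
      analyticAt_snd.comp analyticAt_snd
    have g3 : AnalyticAt ℝ (fun w : ℝ × ((ℝ × ℝ) × Y') => S w.2.1.1)
        (t₀, ((r t₀).1, π (r t₀).2)) :=
      AnalyticAt.fun_comp (f := fun w : ℝ × ((ℝ × ℝ) × Y') => w.2.1.1) (g := S) hSa
        (analyticAt_fst.comp g1)
    have g4 : AnalyticAt ℝ (fun w : ℝ × ((ℝ × ℝ) × Y') => w.1) (t₀, ((r t₀).1, π (r t₀).2)) :=
      analyticAt_fst
    have g5 : AnalyticAt ℝ (fun w : ℝ × ((ℝ × ℝ) × Y') => c + κ * w.1 - S w.2.1.1)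
        (t₀, ((r t₀).1, π (r t₀).2)) :=
      (analyticAt_const.add (analyticAt_const.mul g4)).sub g3
    have g6 : AnalyticAt ℝ (fun w : ℝ × ((ℝ × ℝ) × Y') => j w.2.2) (t₀, ((r t₀).1, π (r t₀).2)) :=
      (j.analyticAt _).comp g2
    exact g1.prod (g6.add (g5.smul analyticAt_const))
  -- the fields
  have hFpa : AnalyticAt ℝ (FB f k fun z => π (h z)) (t₀, ((r t₀).1, π (r t₀).2)) := by
    have g1 : AnalyticAt ℝ (fun w : ℝ × ((ℝ × ℝ) × Y') => w.2.1) (t₀, ((r t₀).1, π (r t₀).2)) :=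
      analyticAt_fst.comp analyticAt_snd
    have g2 : AnalyticAt ℝ (fun w : ℝ × ((ℝ × ℝ) × Y') => f w.2.1) (t₀, ((r t₀).1, π (r t₀).2)) :=
      AnalyticAt.fun_comp (f := fun w : ℝ × ((ℝ × ℝ) × Y') => w.2.1) (g := f) hf g1
    have g3 : AnalyticAt ℝ (fun w : ℝ × ((ℝ × ℝ) × Y') => k w.2.1) (t₀, ((r t₀).1, π (r t₀).2)) :=
      AnalyticAt.fun_comp (f := fun w : ℝ × ((ℝ × ℝ) × Y') => w.2.1) (g := k) hk g1
    have g4 : AnalyticAt ℝ (fun w : ℝ × ((ℝ × ℝ) × Y') => h w.2.1) (t₀, ((r t₀).1, π (r t₀).2)) :=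
      AnalyticAt.fun_comp (f := fun w : ℝ × ((ℝ × ℝ) × Y') => w.2.1) (g := h) hh g1
    exact (g2.prod g3).prod ((π.analyticAt _).comp g4)
  refine DD.lrep_push (F := FB f k h) (G := GB) (Fp := FB f k fun z => π (h z)) (Gp := GB)
    (Θ := Θ) (r := fun t => ((r t).1, π (r t).2)) (x := r) hFpa analyticAt_const hΘa ?_ ?_ ?_ H
  · have g1 : Tendsto (fun w : ℝ × ((ℝ × ℝ) × Y') => w.2.1)
        (𝓝 (t₀, ((r t₀).1, π (r t₀).2))) (𝓝 (r t₀).1) :=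
      (continuous_fst.comp continuous_snd).tendsto _
    filter_upwards [hΘd, g1.eventually h1] with w hw g2
    have g3 : ((1 : ℝ), FB f k (fun z => π (h z)) w) = (1, ((f w.2.1, k w.2.1), π (h w.2.1))) := rfl
    rw [g3, hw]
    simp only [FB, Θ]
    have g4 : κ * 1 - ω w.2.1.1 * f w.2.1 = h₀ (h w.2.1) := by linarith
    rw [g4, ← hj]
  · filter_upwards [hΘd] with w hw
    have g3 : ((0 : ℝ), (GB w : (ℝ × ℝ) × Y')) = (0, ((0, 1), 0)) := rfl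
    rw [g3, hw]
    simp [GB]
  · filter_upwards [hcons] with t ht
    simp only [Θ]
    rw [← ht, ← hj]

end Pool.Agent.Lib.MP_28b8de_an.KK
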