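import Pool.Agent.Lib.MP_28b8de_an.K.KInr

/-!
MP_28b8de_an, module KCxSd.

Scalar data of a multiplier.
PROOF.  cx_inr: h₀.  ϕ t := p t (1,0).  At points z = (t,(x,y)) with F, G, h differentiable at (t,x): dx (FS F h) z (1,0) = (Dn F (t,x), fderiv h (t,x) (0,1)), dx (GS G) z (1,0) = (Dn G (t,x), 0), Dn (h₀ ∘ h) = h₀ (fderiv h (0,1)).
So Cx.peq with v = (1,0): ϕ t - ϕ s = -∫ (ϕ (Dn F + u Dn G) + h₀ (fderiv h (0,1))) (p τ (a,b) = a ϕ τ + h₀ b).  xeq: first component of the integral identities of LTraj on small intervals; to get it on (a,b): glue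
(the difference of the two sides is locally constant in t; or: r.1 is locally the integral, use `intervalIntegral.integral_add_adjacent_intervals` and connectedness of Ioo a b; the integrand is bounded on compact subintervals: continuity of r and of F, G along r).
us from Cx.mx: p (GS G) = G ϕ.  For t ∈ C: G ϕ = 0 (Cx.sg), G ≠ 0, so ϕ t = 0.  If h₀ = 0 then p t (x,y) = x ϕ t = 0 for t ∈ C, contradiction with Cx.pn (C is nonempty, C ⊆ Ioo a b).
-/

set_option linter.unusedSectionVars false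

namespace Pool.Agent.Lib.MP_28b8de_an.KK

open Filter Topology Set MeasureTheory
open Pool.Agent.Lib.MP_28b8de_an.PT (Adm Perf)
open Pool.Agent.Lib.MP_28b8de_an.TT (Env Sol Jn Tr SmAt Goal dx Dn Gen Lc Lp Lq fX cf)
open Pool.Agent.Lib.MP_28b8de_an.DD (LTraj LRep Ch)

/-- integrability of `f + u g` -/
private theorem KCxSd_ii {E : Type*} [NormedAddCommGroup E] [NormedSpace ℝ E] {u : ℝ → ℝ}
    (hu : Adm u) {f g : ℝ → E} {s t : ℝ} (hf : ContinuousOn f (uIcc s t))
    (hg : ContinuousOn g (uIcc s t)) :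
    IntervalIntegrable (fun τ => f τ + u τ • g τ) volume s t := by
  have hiF : IntervalIntegrable f volume s t := hf.intervalIntegrable
  have hiG : IntervalIntegrable g volume s t := hg.intervalIntegrable
  have hiuG : IntervalIntegrable (fun τ => u τ • g τ) volume s t := by
    refine hiG.mono_fun (hu.1.aestronglyMeasurable.smul hiG.aestronglyMeasurable_restrict_uIoc)
      (Eventually.of_forall fun τ => ?_)
    show ‖u τ • g τ‖ ≤ ‖g τ‖
    rw [norm_smul]
    have h1 : ‖u τ‖ ≤ 1 := by simpa using hu.2 τ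
    calc ‖u τ‖ * ‖g τ‖ ≤ 1 * ‖g τ‖ := mul_le_mul_of_nonneg_right h1 (norm_nonneg _)
      _ = ‖g τ‖ := one_mul _
  exact hiF.add hiuG

/-- gluing of local integral identities -/
private theorem KCxSd_glue {x I : ℝ → ℝ} {a b : ℝ}
    (hI : ∀ s ∈ Ioo a b, ∀ t ∈ Ioo a b, IntervalIntegrable I volume s t)
    (hl : ∀ t₀ ∈ Ioo a b, ∀ᶠ t in 𝓝 t₀, x t - x t₀ = ∫ τ in t₀..t, I τ) :
    ∀ s ∈ Ioo a b, ∀ t ∈ Ioo a b, x t - x s = ∫ τ in s..t, I τ := by
  intro s hs t ht
  have hd : ∀ t₀ ∈ Ioo a b, HasDerivAt (fun t => x t - ∫ τ in s..t, I τ) 0 t₀ := by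
    intro t₀ ht₀
    have he : (fun t => x t - ∫ τ in s..t, I τ) =ᶠ[𝓝 t₀]
        (fun _ => x t₀ - ∫ τ in s..t₀, I τ) := by
      filter_upwards [hl t₀ ht₀, Ioo_mem_nhds ht₀.1 ht₀.2] with t h1 h2
      have h3 := intervalIntegral.integral_add_adjacent_intervals (hI s hs t₀ ht₀)
        (hI t₀ ht₀ t h2)
      linarith
    exact (hasDerivAt_const t₀ _).congr_of_eventuallyEq he
  have h := isOpen_Ioo.is_const_of_deriv_eq_zero isPreconnected_Ioo
    (f := fun t => x t - ∫ τ in s..t, I τ) (s := Ioo a b)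
    (fun t₀ ht₀ => (hd t₀ ht₀).differentiableAt.differentiableWithinAt)
    (fun t₀ ht₀ => (hd t₀ ht₀).deriv) ht hs
  simp only [intervalIntegral.integral_same, sub_zero] at h
  linarith

variable {Y : Type*} [NormedAddCommGroup Y] [NormedSpace ℝ Y] [FiniteDimensional ℝ Y]

/-- the derivative of the fields in the direction `(1,0)` -/
private theorem KCxSd_dF {F : ℝ × ℝ → ℝ} {h : ℝ × ℝ → Y} {t : ℝ} {q : ℝ × Y}
    (hF : DifferentiableAt ℝ F (t, q.1)) (hh : DifferentiableAt ℝ h (t, q.1)) :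
    dx (FS F h) (t, q) (1, 0) = (Dn F (t, q.1), fderiv ℝ h (t, q.1) (0, 1)) := by
  set L : ℝ × (ℝ × Y) →L[ℝ] ℝ × ℝ :=
    (ContinuousLinearMap.fst ℝ ℝ (ℝ × Y)).prod
      ((ContinuousLinearMap.fst ℝ ℝ Y).comp (ContinuousLinearMap.snd ℝ ℝ (ℝ × Y))) with hL
  have h1 : HasFDerivAt (FS F h)
      (((fderiv ℝ F (t, q.1)).prod (fderiv ℝ h (t, q.1))).comp L) (t, q) := by
    have h2 : HasFDerivAt (fun w : ℝ × ℝ => (F w, h w))
        ((fderiv ℝ F (t, q.1)).prod (fderiv ℝ h (t, q.1))) (L (t, q)) :=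
      hF.hasFDerivAt.prodMk hh.hasFDerivAt
    exact h2.comp (t, q) L.hasFDerivAt
  unfold dx
  rw [h1.fderiv]
  rfl

private theorem KCxSd_dG {G : ℝ × ℝ → ℝ} {t : ℝ} {q : ℝ × Y}
    (hG : DifferentiableAt ℝ G (t, q.1)) :
    dx (GS G : ℝ × (ℝ × Y) → ℝ × Y) (t, q) (1, 0) = (Dn G (t, q.1), 0) := by
  have h := KCxSd_dF (F := G) (h := fun _ => (0 : Y)) (t := t) (q := q) hG
    (differentiableAt_const _)
  have h1 : (FS G (fun _ => (0 : Y)) : ℝ × (ℝ × Y) → ℝ × Y) = GS G := rfl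
  rw [h1] at h
  rw [h]
  simp

theorem cx_sd {F G : ℝ × ℝ → ℝ} {h : ℝ × ℝ → Y} {u : ℝ → ℝ} {r : ℝ → ℝ × Y} {a b : ℝ}
    {p : ℝ → (ℝ × Y) →L[ℝ] ℝ} {C : Set ℝ} (hx : Cx (FS F h) (GS G) u r a b p C)
    (hF : ∀ t ∈ Ioo a b, AnalyticAt ℝ F (t, (r t).1))
    (hG : ∀ t ∈ Ioo a b, AnalyticAt ℝ G (t, (r t).1))
    (hh : ∀ t ∈ Ioo a b, AnalyticAt ℝ h (t, (r t).1))
    (hG0 : ∀ t ∈ Ioo a b, G (t, (r t).1) ≠ 0) :
    ∃ h₀ : Y →L[ℝ] ℝ, h₀ ≠ 0 ∧
      SD F G (fun z => h₀ (h z)) u a b (fun t => (r t).1) (fun t => p t (1, 0)) ∧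
      ∀ t ∈ C, p t (1, 0) = 0 := by
  obtain ⟨h₀, hh₀⟩ := cx_inr (F := FS F h) (G := GS G) (fun _ _ _ => rfl) (fun _ _ _ => rfl) hx
  have hp : ∀ t ∈ Ioo a b, ∀ (c : ℝ) (y : Y), p t (c, y) = c * p t (1, 0) + h₀ y := by
    intro t ht c y
    have h1 : ((c, y) : ℝ × Y) = c • ((1 : ℝ), (0 : Y)) + ((0 : ℝ), y) := by
      ext
      · simp
      · simp
    rw [h1, map_add, map_smul, hh₀ t ht, smul_eq_mul]
  have hC0 : ∀ t ∈ C, p t (1, 0) = 0 := by
    intro t ht
    have h1 := hx.sg t ht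
    have ht' := hx.sub ht
    have h2 : GS G (t, r t) = (G (t, (r t).1), (0 : Y)) := rfl
    rw [h2, hp t ht', map_zero, add_zero] at h1
    exact (mul_eq_zero.1 h1).resolve_left (hG0 t ht')
  have hrc : ∀ t ∈ Ioo a b, ContinuousAt r t := fun t ht =>
    (DD.ltraj_cont (hx.tr t ht)).self_of_nhds
  have hpair : ∀ t ∈ Ioo a b, ContinuousAt (fun t => (t, (r t).1)) t := fun t ht =>
    continuousAt_id.prodMk (hrc t ht).fst
  have hFc : ContinuousOn (fun τ => F (τ, (r τ).1)) (Ioo a b) := fun t ht =>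
    (ContinuousAt.comp (f := fun t => (t, (r t).1)) (hF t ht).continuousAt
      (hpair t ht)).continuousWithinAt
  have hGc : ContinuousOn (fun τ => G (τ, (r τ).1)) (Ioo a b) := fun t ht =>
    (ContinuousAt.comp (f := fun t => (t, (r t).1)) (hG t ht).continuousAt
      (hpair t ht)).continuousWithinAt
  have hhc : ContinuousOn (fun τ => h (τ, (r τ).1)) (Ioo a b) := fun t ht =>
    (ContinuousAt.comp (f := fun t => (t, (r t).1)) (hh t ht).continuousAt
      (hpair t ht)).continuousWithinAt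
  have hu := hx.adm
  refine ⟨h₀, ?_, ?_, hC0⟩
  · rintro rfl
    obtain ⟨t, ht⟩ := hx.perf.ne
    refine hx.pn t (hx.sub ht) ?_
    ext v
    · simp [hC0 t ht]
    · simp only [ContinuousLinearMap.coe_comp, Function.comp_apply, ContinuousLinearMap.inr_apply]
      rw [hh₀ t (hx.sub ht)]
      simp
  · refine
      { adm := hu
        Fa := hF
        Ga := hG
        ηa := ?_
        G0 := hG0
        xc := fun t ht => (hrc t ht).fst.continuousWithinAt
        xeq := ?_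
        ϕc := ?_
        ϕeq := ?_
        us := ?_ }
    · intro t ht
      exact (h₀.analyticAt _).comp (hh t ht)
    · refine KCxSd_glue (x := fun t => (r t).1)
        (I := fun τ => F (τ, (r τ).1) + u τ * G (τ, (r τ).1)) ?_ ?_
      · intro s hs t ht
        have hsub : uIcc s t ⊆ Ioo a b := ordConnected_Ioo.uIcc_subset hs ht
        exact KCxSd_ii hu (hFc.mono hsub) (hGc.mono hsub)
      · intro t₀ ht₀
        obtain ⟨ε, hε, -, he⟩ := hx.tr t₀ ht₀
        filter_upwards [Ioo_mem_nhds (show t₀ - ε < t₀ by linarith) (show t₀ < t₀ + ε by linarith),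
          Ioo_mem_nhds ht₀.1 ht₀.2] with t h1 h2
        have h3 := he t₀ ⟨by linarith, by linarith⟩ t h1
        have hsub : uIcc t₀ t ⊆ Ioo a b := ordConnected_Ioo.uIcc_subset ht₀ h2
        have hii : IntervalIntegrable (fun τ => (F (τ, (r τ).1), h (τ, (r τ).1)) +
            u τ • (G (τ, (r τ).1), (0 : Y))) volume t₀ t :=
          KCxSd_ii hu ((hFc.mono hsub).prodMk (hhc.mono hsub))
            ((hGc.mono hsub).prodMk continuousOn_const)
        have h4 := ContinuousLinearMap.intervalIntegral_comp_comm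
          (ContinuousLinearMap.fst ℝ ℝ Y) hii
        have h5 : (r t).1 - (r t₀).1 = (ContinuousLinearMap.fst ℝ ℝ Y) (r t - r t₀) := rfl
        rw [h5, h3]
        exact h4.symm
    · exact hx.pc.clm_apply continuousOn_const
    · intro s hs t ht
      rw [hx.peq (1, 0) s hs t ht]
      congr 1
      refine intervalIntegral.integral_congr fun τ hτ => ?_
      have hτ' : τ ∈ Ioo a b := ordConnected_Ioo.uIcc_subset hs ht hτ
      rw [add_apply, smul_apply,
        KCxSd_dF (hF τ hτ').differentiableAt (hh τ hτ').differentiableAt,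
        KCxSd_dG (hG τ hτ').differentiableAt]
      have h6 : (Dn F (τ, (r τ).1), fderiv ℝ h (τ, (r τ).1) (0, 1)) +
          u τ • (Dn G (τ, (r τ).1), (0 : Y)) =
          (Dn F (τ, (r τ).1) + u τ * Dn G (τ, (r τ).1), fderiv ℝ h (τ, (r τ).1) (0, 1)) := by
        ext
        · simp
        · simp
      rw [h6, hp τ hτ']
      have h7 : Dn (fun z => h₀ (h z)) (τ, (r τ).1) = h₀ (fderiv ℝ h (τ, (r τ).1) (0, 1)) := by
        unfold Dn
        have h8 : HasFDerivAt (fun z => h₀ (h z)) (h₀.comp (fderiv ℝ h (τ, (r τ).1)))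
            (τ, (r τ).1) := h₀.hasFDerivAt.comp _ (hh τ hτ').differentiableAt.hasFDerivAt
        rw [h8.fderiv]
        rfl
      rw [h7]
      ring
    · filter_upwards [hx.mx] with τ h1 hτ
      have h2 := h1 hτ
      have h3 : GS G (τ, r τ) = (G (τ, (r τ).1), (0 : Y)) := rfl
      rw [h3, hp τ hτ, map_zero, add_zero] at h2
      exact h2

end Pool.Agent.Lib.MP_28b8de_an.KK
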