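import Pool.Agent.Lib.MP_28b8de_an.K.KDefs
import Pool.Agent.Lib.MP_28b8de_an.D.DCut
import Pool.Agent.Lib.MP_28b8de_an.D.DTriLoc

/-!
MP_28b8de_an, module KCut.

Cut off near a point.
PROOF.  F, G are analytic on a ball B(z₀, 3ρ).  Multiply by a smooth bump function which is 1 on B(z₀,ρ) and 0 outside B(z₀,2ρ) (`ContDiffBump`); the products are smooth with compact support, so they and their derivatives
are bounded and the derivatives are Lipschitz.  Compare D/DCut.lean (cut_vec, cut_env), T/TCut.lean (Bd, bd_of_compact) and the private lemma TRescale_cut of T/TRescale.lean.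
-/

set_option linter.unusedSectionVars false

namespace Pool.Agent.Lib.MP_28b8de_an.KK

open Filter Topology Set MeasureTheory
open Pool.Agent.Lib.MP_28b8de_an.PT (Adm Perf)
open Pool.Agent.Lib.MP_28b8de_an.TT (Env Sol Jn Tr SmAt Goal dx Dn Gen Lc Lp Lq fX cf)
open Pool.Agent.Lib.MP_28b8de_an.DD (LTraj LRep Ch)

variable {V : Type*} [NormedAddCommGroup V] [NormedSpace ℝ V] [FiniteDimensional ℝ V]

open Pool.Agent.Lib.MP_28b8de_an.TT (Bd bd_of_compact) in
/-- cutting off a map which is analytic on a ball of radius `3 ρ` -/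
private theorem KCut_cut {H : ℝ × V → V} {z₀ : ℝ × V} {ρ : ℝ} (hρ : 0 < ρ)
    (hH : ∀ z ∈ Metric.ball z₀ (3 * ρ), AnalyticAt ℝ H z) :
    ∃ (H' : ℝ × V → V) (M : ℝ), Bd M H' ∧ ∀ z ∈ Metric.ball z₀ ρ, H' z = H z := by
  have : CompleteSpace V := FiniteDimensional.complete ℝ V
  have : ProperSpace (ℝ × V) := FiniteDimensional.proper ℝ (ℝ × V)
  let χ : ContDiffBump z₀ := ⟨ρ, 2 * ρ, hρ, by linarith⟩
  have hχs : ContDiff ℝ (⊤ : ℕ∞) χ := χ.contDiff
  have hχc : HasCompactSupport χ := χ.hasCompactSupport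
  have hχ1 : ∀ z ∈ Metric.ball z₀ ρ, χ z = 1 := fun z hz =>
    χ.one_of_mem_closedBall (Metric.ball_subset_closedBall hz)
  have hsm : ContDiff ℝ (⊤ : ℕ∞) (fun z => χ z • H z) := by
    rw [contDiff_iff_contDiffAt]
    intro z
    by_cases hz : z ∈ Metric.ball z₀ (3 * ρ)
    · exact hχs.contDiffAt.smul (hH z hz).contDiffAt
    · have hz' : z ∉ tsupport χ := by
        rw [χ.tsupport_eq, Metric.mem_closedBall]
        show ¬ dist z z₀ ≤ 2 * ρ
        intro h
        apply hz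
        rw [Metric.mem_ball]
        linarith
      have h0 : (fun z => χ z • H z) =ᶠ[𝓝 z] fun _ => 0 := by
        filter_upwards [notMem_tsupport_iff_eventuallyEq.1 hz'] with w hw
        rw [hw, Pi.zero_apply, zero_smul]
      exact contDiffAt_const.congr_of_eventuallyEq h0
  have e1 : ∀ z ∈ Metric.ball z₀ ρ, χ z • H z = H z := fun z hz => by rw [hχ1 z hz, one_smul]
  obtain ⟨M, hM⟩ := bd_of_compact (H := fun z => χ z • H z) hsm (hχc.smul_right)
  exact ⟨fun z => χ z • H z, M, hM, e1⟩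

open Pool.Agent.Lib.MP_28b8de_an.TT (Bd) in
theorem env_local {F G : ℝ × V → V} {z₀ : ℝ × V} (hF : AnalyticAt ℝ F z₀) (hG : AnalyticAt ℝ G z₀) :
    ∃ (F' G' : ℝ × V → V) (M ρ : ℝ), 0 < ρ ∧ Env F' G' M ∧
      ∀ z ∈ Metric.ball z₀ ρ, F' z = F z ∧ G' z = G z ∧ AnalyticAt ℝ F z ∧ AnalyticAt ℝ G z := by
  have : CompleteSpace V := FiniteDimensional.complete ℝ V
  obtain ⟨r, hr, hball⟩ := Metric.eventually_nhds_iff_ball.1
    (hF.eventually_analyticAt.and hG.eventually_analyticAt)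
  have hρ : 0 < r / 3 := by positivity
  have hr3 : 3 * (r / 3) = r := by ring
  obtain ⟨F', M₁, b1, e1⟩ := KCut_cut (H := F) (z₀ := z₀) hρ
    (fun z hz => (hball z (by rwa [hr3] at hz)).1)
  obtain ⟨G', M₂, b2, e2⟩ := KCut_cut (H := G) (z₀ := z₀) hρ
    (fun z hz => (hball z (by rwa [hr3] at hz)).2)
  have h1 := b1.1
  have h2 := b2.1
  have c1 : Bd (1 + M₁ + M₂) F' := b1.mono (by linarith)
  have c2 : Bd (1 + M₁ + M₂) G' := b2.mono (by linarith)
  refine ⟨F', G', 1 + M₁ + M₂, r / 3, hρ, ⟨by linarith, c1.2.1, c2.2.1, c1.2.2.1, c2.2.2.1, c1.2.2.2.1,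
    c2.2.2.2.1, c1.2.2.2.2, c2.2.2.2.2⟩, ?_⟩
  intro z hz
  have hz' : z ∈ Metric.ball z₀ r := Metric.ball_subset_ball (by linarith) hz
  exact ⟨e1 z hz, e2 z hz, hball z hz'⟩

theorem env_shift {F G : ℝ × V → V} {M : ℝ} (E : Env F G M) (s : ℝ) :
    Env (fun z : ℝ × V => F (s + z.1, z.2)) (fun z : ℝ × V => G (s + z.1, z.2)) M := by
  have e : ∀ H : ℝ × V → V, (fun z : ℝ × V => H (s + z.1, z.2)) = fun z => H (z + (s, 0)) := by
    intro H
    funext z
    congr 1
    refine Prod.ext ?_ ?_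
    · show s + z.1 = z.1 + s
      ring
    · show z.2 = z.2 + 0
      rw [add_zero]
  have hsm : ContDiff ℝ (⊤ : ℕ∞) (fun z : ℝ × V => z + (s, (0 : V))) := contDiff_id.add contDiff_const
  rw [e F, e G]
  refine ⟨E.hM, E.Fs.comp hsm, E.Gs.comp hsm, fun z => E.Fb _, fun z => E.Gb _, fun z => ?_, fun z => ?_,
    fun z w => ?_, fun z w => ?_⟩
  · rw [fderiv_comp_add_right]
    exact E.Fd _
  · rw [fderiv_comp_add_right]
    exact E.Gd _
  · rw [fderiv_comp_add_right, fderiv_comp_add_right]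
    refine (E.Fl _ _).trans (le_of_eq ?_)
    rw [add_sub_add_right_eq_sub]
  · rw [fderiv_comp_add_right, fderiv_comp_add_right]
    refine (E.Gl _ _).trans (le_of_eq ?_)
    rw [add_sub_add_right_eq_sub]

end Pool.Agent.Lib.MP_28b8de_an.KK
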