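import Pool.Agent.Lib.MP_28b8de_an.K.KDefs

/-!
MP_28b8de_an, module KGl.

Elementary facts on local replacements.
PROOFS.  lgoal_of_lrep: ρ > 0, M with ‖F‖, ‖G‖ ≤ M on the ball of radius ρ about (t, x t) (continuity).  κ := ρ/2, δ from LRep, δ ≤ ρ/2.  The replacement r satisfies ‖r τ - r s‖ ≤ 2M (τ-s) (integral of a function of norm ≤ 2M), so Rep with K = 2M.
smooth_lrep: the trajectory itself (control u) near t₀: its bad set is empty; tube by continuity of x at t₀; the integral identity from LTraj.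
smooth_near: SmAt at t₀ gives SmAt near t₀.
ltraj_lin: F, G are analytic at (t₀, x t₀), x is continuous near t₀ (ltraj_cont), so the integrand is bounded and measurable, hence integrable on short intervals; apply l (`ContinuousLinearMap.intervalIntegral_comp_comm`).
fs_smooth: if x = ξ near t₀ with ξ analytic, then the costs y have derivative h (t, ξ t) near t₀ (ltraj_hd with l = snd; GS has second component 0), analytic in t: y is analytic at t₀ (`TT.ode_an`), so r is smooth near t₀.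
-/

set_option linter.unusedSectionVars false

namespace Pool.Agent.Lib.MP_28b8de_an.KK

open Filter Topology Set MeasureTheory
open Pool.Agent.Lib.MP_28b8de_an.PT (Adm Perf)
open Pool.Agent.Lib.MP_28b8de_an.TT (Env Sol Jn Tr SmAt Goal dx Dn Gen Lc Lp Lq fX cf)
open Pool.Agent.Lib.MP_28b8de_an.DD (LTraj LRep Ch)

variable {V : Type*} [NormedAddCommGroup V] [NormedSpace ℝ V] [FiniteDimensional ℝ V]

private theorem KGl_bdd {X Y : Type*} [TopologicalSpace X] [SeminormedAddCommGroup Y] {f : X → Y}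
    {x : X} (hf : ContinuousAt f x) : ∃ B : ℝ, 0 ≤ B ∧ ∀ᶠ w in 𝓝 x, ‖f w‖ ≤ B := by
  refine ⟨‖f x‖ + 1, by positivity, ?_⟩
  have h1 : Tendsto (fun w => ‖f w‖) (𝓝 x) (𝓝 ‖f x‖) := hf.norm
  filter_upwards [h1.eventually (gt_mem_nhds (show ‖f x‖ < ‖f x‖ + 1 by linarith))] with w hw
  exact le_of_lt hw

private theorem KGl_sm {x : ℝ → V} {t₀ ε t : ℝ}
    (hs : ContDiffOn ℝ (⊤ : ℕ∞) x (Ioo (t₀ - ε) (t₀ + ε))) (ht : t ∈ Ioo (t₀ - ε) (t₀ + ε)) :
    SmAt x t := by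
  refine ⟨min (t - (t₀ - ε)) (t₀ + ε - t), lt_min (by linarith [ht.1]) (by linarith [ht.2]),
    hs.mono fun r hr => ?_⟩
  have h1 := min_le_left (t - (t₀ - ε)) (t₀ + ε - t)
  have h2 := min_le_right (t - (t₀ - ε)) (t₀ + ε - t)
  exact ⟨by linarith [hr.1], by linarith [hr.2]⟩

private theorem KGl_an {x : ℝ → V} {t₀ : ℝ} (h : AnalyticAt ℝ x t₀) : SmAt x t₀ := by
  obtain ⟨ε, hε, hb⟩ := Metric.eventually_nhds_iff_ball.1 h.eventually_analyticAt
  refine ⟨ε, hε, fun t ht => ?_⟩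
  have h1 : t ∈ Metric.ball t₀ ε := by
    rw [Real.ball_eq_Ioo]
    exact ht
  exact ((hb t h1).contDiffAt.of_le (by exact_mod_cast le_top)).contDiffWithinAt

theorem lgoal_of_lrep {F G : ℝ × V → V} {x : ℝ → V} {C : Set ℝ} {t : ℝ} (ht : t ∈ C)
    (hF : AnalyticAt ℝ F (t, x t)) (hG : AnalyticAt ℝ G (t, x t)) (h : LRep F G x t) :
    LGoal F G x C := by
  obtain ⟨B, hB0, hB⟩ := KGl_bdd hF.continuousAt
  obtain ⟨B', hB'0, hB'⟩ := KGl_bdd hG.continuousAt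
  obtain ⟨ρ, hρ, hball⟩ := Metric.eventually_nhds_iff_ball.1 (hB.and hB')
  obtain ⟨δ, hδ, hd⟩ := h (ρ / 2) (by linarith)
  refine ⟨t, ht, B + B', min δ (ρ / 2), lt_min hδ (by linarith), ?_⟩
  intro s hs s' hs' h1 h2 hss
  have h1' := lt_min_iff.1 h1
  have h2' := lt_min_iff.1 h2
  obtain ⟨v, r, hv, hc, e1, e2, hb, he, hco⟩ := hd s s' hss h1'.1 h2'.1
  refine ⟨v, r, hv, hc, e1, e2, ?_, he, hco⟩
  intro τ hτ
  have h3 : r τ - x s = ∫ σ in s..τ, (F (σ, r σ) + v σ • G (σ, r σ)) := by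
    rw [he τ hτ, e1]
    abel
  rw [h3]
  have h4 : ∀ σ ∈ uIoc s τ, ‖F (σ, r σ) + v σ • G (σ, r σ)‖ ≤ B + B' := by
    intro σ hσ
    rw [uIoc_of_le hτ.1] at hσ
    have hσ' : σ ∈ Icc s s' := ⟨hσ.1.le, hσ.2.trans hτ.2⟩
    have h5 : (σ, r σ) ∈ Metric.ball (t, x t) ρ := by
      rw [Metric.mem_ball, Prod.dist_eq]
      refine max_lt ?_ ?_
      · rw [Real.dist_eq]
        have h6 := abs_lt.1 h1'.2
        have h7 := abs_lt.1 h2'.2
        exact abs_lt.2 ⟨by linarith [hσ'.1], by linarith [hσ'.2]⟩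
      · rw [dist_eq_norm]
        have := hb σ hσ'
        show ‖r σ - x t‖ < ρ
        linarith
    have h6 := hball _ h5
    calc ‖F (σ, r σ) + v σ • G (σ, r σ)‖ ≤ ‖F (σ, r σ)‖ + ‖v σ • G (σ, r σ)‖ := norm_add_le _ _
      _ ≤ B + 1 * B' := by
          refine add_le_add h6.1 ?_
          rw [norm_smul]
          exact mul_le_mul (by simpa using hv.2 σ) h6.2 (norm_nonneg _) zero_le_one
      _ = B + B' := by ring
  refine (intervalIntegral.norm_integral_le_of_norm_le_const h4).trans ?_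
  rw [abs_of_nonneg (by linarith [hτ.1])]
  exact mul_le_mul_of_nonneg_left (by linarith [hτ.2]) (by linarith)

theorem smooth_lrep {F G : ℝ × V → V} {u : ℝ → ℝ} (hu : Adm u) {x : ℝ → V} {t₀ : ℝ}
    (hx : LTraj F G u x t₀) (hs : SmAt x t₀) : LRep F G x t₀ := by
  intro κ hκ
  obtain ⟨ε, hε, hc, he⟩ := hx
  obtain ⟨ε', hε', hs'⟩ := hs
  have hxc : ContinuousAt x t₀ := hc.continuousAt (Ioo_mem_nhds (by linarith) (by linarith))
  obtain ⟨η, hη, hx'⟩ := Metric.continuousAt_iff.1 hxc κ hκ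
  refine ⟨min (min ε ε') η, lt_min (lt_min hε hε') hη, ?_⟩
  intro s s' hss h1 h2
  have h1' := lt_min_iff.1 h1
  have h2' := lt_min_iff.1 h2
  have h3 := lt_min_iff.1 h1'.1
  have h4 := lt_min_iff.1 h2'.1
  have hmem : ∀ d : ℝ, |s - t₀| < d → |s' - t₀| < d → ∀ t ∈ Icc s s', t ∈ Ioo (t₀ - d) (t₀ + d) := by
    intro d hd hd' t ht
    have h5 := abs_lt.1 hd
    have h6 := abs_lt.1 hd'
    exact ⟨by linarith [ht.1], by linarith [ht.2]⟩
  have hE := hmem ε h3.1 h4.1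
  have hE' := hmem ε' h3.2 h4.2
  have hH := hmem η h1'.2 h2'.2
  refine ⟨u, x, hu, hc.mono hE, rfl, rfl, ?_, ?_, ?_⟩
  · intro t ht
    have h5 : dist t t₀ < η := by
      have h6 := hH t ht
      rw [Real.dist_eq]
      exact abs_lt.2 ⟨by linarith [h6.1], by linarith [h6.2]⟩
    have h6 := hx' h5
    rw [dist_eq_norm] at h6
    exact h6.le
  · intro t ht
    rw [← he s (hE s (left_mem_Icc.2 hss.le)) t (hE t ht)]
    abel
  · refine Set.Countable.mono (s₂ := ∅) ?_ countable_empty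
    rintro t ⟨ht, hn⟩
    exact (hn (KGl_sm hs' (hE' t (Ioo_subset_Icc_self ht)))).elim

theorem ltraj_lin {P : Type*} [NormedAddCommGroup P] [NormedSpace ℝ P] [CompleteSpace P]
    {F G : ℝ × V → V} {F' G' : ℝ × P → P} {u : ℝ → ℝ} (hu : Adm u) {x : ℝ → V} {t₀ : ℝ}
    (hF : AnalyticAt ℝ F (t₀, x t₀)) (hG : AnalyticAt ℝ G (t₀, x t₀)) (hx : LTraj F G u x t₀)
    (l : V →L[ℝ] P) (h1 : ∀ z : ℝ × V, l (F z) = F' (z.1, l z.2))
    (h2 : ∀ z : ℝ × V, l (G z) = G' (z.1, l z.2)) : LTraj F' G' u (fun t => l (x t)) t₀ := by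
  have : CompleteSpace V := FiniteDimensional.complete ℝ V
  have hxc : ContinuousAt x t₀ := (Pool.Agent.Lib.MP_28b8de_an.DD.ltraj_cont hx).self_of_nhds
  have hpair : Tendsto (fun t => (t, x t)) (𝓝 t₀) (𝓝 (t₀, x t₀)) :=
    (continuousAt_id.prodMk hxc : ContinuousAt (fun t => (t, x t)) t₀)
  have hev : ∀ᶠ t in 𝓝 t₀, ContinuousAt x t ∧ ContinuousAt F (t, x t) ∧
      ContinuousAt G (t, x t) := by
    filter_upwards [Pool.Agent.Lib.MP_28b8de_an.DD.ltraj_cont hx,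
      hpair.eventually hF.eventually_analyticAt,
      hpair.eventually hG.eventually_analyticAt] with t h1 h2 h3
    exact ⟨h1, h2.continuousAt, h3.continuousAt⟩
  obtain ⟨ε, hε, hc, he⟩ := hx
  obtain ⟨η, hη, hJ⟩ := Metric.eventually_nhds_iff_ball.1 (hev.and
    (Ioo_mem_nhds (show t₀ - ε < t₀ by linarith) (show t₀ < t₀ + ε by linarith)))
  have hmem : ∀ t ∈ Ioo (t₀ - η) (t₀ + η), t ∈ Metric.ball t₀ η := by
    intro t ht
    rw [Real.ball_eq_Ioo]
    exact ht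
  have hpt : ∀ t ∈ Ioo (t₀ - η) (t₀ + η), ContinuousAt (fun t => (t, x t)) t := fun t ht =>
    continuousAt_id.prodMk (hJ t (hmem t ht)).1.1
  have hFc : ContinuousOn (fun τ => F (τ, x τ)) (Ioo (t₀ - η) (t₀ + η)) := fun t ht =>
    (ContinuousAt.comp (f := fun t => (t, x t)) (hJ t (hmem t ht)).1.2.1
      (hpt t ht)).continuousWithinAt
  have hGc : ContinuousOn (fun τ => G (τ, x τ)) (Ioo (t₀ - η) (t₀ + η)) := fun t ht =>
    (ContinuousAt.comp (f := fun t => (t, x t)) (hJ t (hmem t ht)).1.2.2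
      (hpt t ht)).continuousWithinAt
  refine ⟨η, hη, fun t ht => ?_, fun s hs t ht => ?_⟩
  · exact (l.continuous.continuousAt.comp (hJ t (hmem t ht)).1.1).continuousWithinAt
  · have hst : uIcc s t ⊆ Ioo (t₀ - η) (t₀ + η) := ordConnected_Ioo.uIcc_subset hs ht
    have hiF : IntervalIntegrable (fun τ => F (τ, x τ)) volume s t :=
      (hFc.mono hst).intervalIntegrable
    have hiG : IntervalIntegrable (fun τ => G (τ, x τ)) volume s t :=
      (hGc.mono hst).intervalIntegrable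
    have hiuG : IntervalIntegrable (fun τ => u τ • G (τ, x τ)) volume s t := by
      refine hiG.mono_fun (hu.1.aestronglyMeasurable.smul hiG.aestronglyMeasurable_restrict_uIoc)
        (Eventually.of_forall fun τ => ?_)
      show ‖u τ • G (τ, x τ)‖ ≤ ‖G (τ, x τ)‖
      rw [norm_smul]
      have h1 : ‖u τ‖ ≤ 1 := by simpa using hu.2 τ
      calc ‖u τ‖ * ‖G (τ, x τ)‖ ≤ 1 * ‖G (τ, x τ)‖ :=
            mul_le_mul_of_nonneg_right h1 (norm_nonneg _)
        _ = ‖G (τ, x τ)‖ := one_mul _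
    have h3 := he s (hJ s (hmem s hs)).2 t (hJ t (hmem t ht)).2
    show l (x t) - l (x s) = _
    rw [← map_sub, h3, ← ContinuousLinearMap.intervalIntegral_comp_comm l (hiF.add hiuG)]
    refine intervalIntegral.integral_congr fun τ _ => ?_
    show l (F (τ, x τ) + u τ • G (τ, x τ)) = F' (τ, l (x τ)) + u τ • G' (τ, l (x τ))
    rw [map_add, map_smul, h1, h2]

theorem fs_smooth {Y : Type*} [NormedAddCommGroup Y] [NormedSpace ℝ Y] [FiniteDimensional ℝ Y]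
    {F G : ℝ × ℝ → ℝ} {h : ℝ × ℝ → Y} {u : ℝ → ℝ} (hu : Adm u) {r : ℝ → ℝ × Y} {t₀ : ℝ}
    (hF : AnalyticAt ℝ F (t₀, (r t₀).1)) (hG : AnalyticAt ℝ G (t₀, (r t₀).1))
    (hh : AnalyticAt ℝ h (t₀, (r t₀).1)) (hr : LTraj (FS F h) (GS G) u r t₀) {ξ : ℝ → ℝ}
    (hξ : AnalyticAt ℝ ξ t₀) (he : ∀ᶠ t in 𝓝 t₀, (r t).1 = ξ t) : SmAt r t₀ := by
  have : CompleteSpace Y := FiniteDimensional.complete ℝ Y
  have hpr : AnalyticAt ℝ (fun z : ℝ × (ℝ × Y) => (z.1, z.2.1)) (t₀, r t₀) :=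
    AnalyticAt.prod analyticAt_fst ((ContinuousLinearMap.fst ℝ ℝ Y).analyticAt _ |>.comp analyticAt_snd)
  have hF' : AnalyticAt ℝ (fun z : ℝ × (ℝ × Y) => F (z.1, z.2.1)) (t₀, r t₀) :=
    AnalyticAt.comp (g := F) (f := fun z : ℝ × (ℝ × Y) => (z.1, z.2.1)) hF hpr
  have hG' : AnalyticAt ℝ (fun z : ℝ × (ℝ × Y) => G (z.1, z.2.1)) (t₀, r t₀) :=
    AnalyticAt.comp (g := G) (f := fun z : ℝ × (ℝ × Y) => (z.1, z.2.1)) hG hpr
  have hh' : AnalyticAt ℝ (fun z : ℝ × (ℝ × Y) => h (z.1, z.2.1)) (t₀, r t₀) :=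
    AnalyticAt.comp (g := h) (f := fun z : ℝ × (ℝ × Y) => (z.1, z.2.1)) hh hpr
  have h1 : AnalyticAt ℝ (FS F h) (t₀, r t₀) := hF'.prod hh'
  have h2 : AnalyticAt ℝ (GS (Y := Y) G) (t₀, r t₀) := hG'.prod analyticAt_const
  have h3 := Pool.Agent.Lib.MP_28b8de_an.DD.ltraj_hd hu hr (ContinuousLinearMap.snd ℝ ℝ Y) h1 h2
    (Eventually.of_forall fun z => rfl)
  have e0 : (r t₀).1 = ξ t₀ := he.self_of_nhds
  have hΦ : AnalyticAt ℝ (fun z : ℝ × Y => h (z.1, ξ z.1)) (t₀, (r t₀).2) := by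
    have h4 : AnalyticAt ℝ (fun z : ℝ × Y => (z.1, ξ z.1)) (t₀, (r t₀).2) :=
      AnalyticAt.prod analyticAt_fst (AnalyticAt.comp (g := ξ) (f := fun z : ℝ × Y => z.1) hξ analyticAt_fst)
    have h5 : AnalyticAt ℝ h ((fun z : ℝ × Y => (z.1, ξ z.1)) (t₀, (r t₀).2)) := by
      show AnalyticAt ℝ h (t₀, ξ t₀)
      rw [← e0]
      exact hh
    exact AnalyticAt.comp (g := h) h5 h4
  have hy : AnalyticAt ℝ (fun t => (r t).2) t₀ := by
    refine Pool.Agent.Lib.MP_28b8de_an.TT.ode_an (Φ := fun z : ℝ × Y => h (z.1, ξ z.1)) hΦ ?_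
    filter_upwards [h3, he] with t h4 h5
    have h6 : HasDerivAt (fun t => (r t).2) (h (t, (r t).1)) t := h4
    rw [h5] at h6
    exact h6
  have hr' : AnalyticAt ℝ r t₀ := by
    refine (hξ.prod hy).congr ?_
    filter_upwards [he] with t h4
    exact Prod.ext h4.symm rfl
  exact KGl_an hr'

end Pool.Agent.Lib.MP_28b8de_an.KK
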