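import Pool.Agent.Lib.MP_28b8de_an.K.KDefs
import Pool.Agent.Lib.MP_28b8de_an.T.TPmp
import Pool.Agent.Lib.MP_28b8de_an.T.TLoc

/-!
MP_28b8de_an, module KMul.

From a multiplier of the cut off, shifted system to the structure Cx.
PROOFS.  portion: by `PT.perf_inner` there is c ∈ C ∩ (0,T); α := c/2, β := (c+T)/2, D := closure (C ∩ Ioo α β): D ⊆ C (C is closed), D ⊆ Icc α β ⊆ Icc 0 T.  No isolated points: a point of C ∩ Ioo α β has points of C ∩ Ioo α β arbitrarily close to it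
(Perf.acc); for t ∈ D take t₁ ∈ C ∩ Ioo α β within ε/2 of t and, if t₁ = t, another one within ε/2 of t₁.
cx_of_mul: write x̂ τ = x (s + τ), û τ = u (s + τ).  At t ∈ Ioo s (s+T), τ = t - s ∈ Ioo 0 T: F̂ z = F (s + z.1, z.2) near (τ, x̂ τ), so dx F̂ (τ, x̂ τ) = dx F (t, x t) (fderiv of a composition with the translation (z.1,z.2) ↦ (s + z.1, z.2); F is differentiable at (t, x t) by hFa;
`Filter.EventuallyEq.fderiv_eq`), F̂ (τ, x̂ τ) = F (t, x t); same for G.  pc: hp.adj.cont.  pn: hp.ne.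
peq: from TT.Adj.eq: p̂ τ = p̂ T + ∫_τ^T (p̂ σ).comp (Aop σ), evaluate at v (the integrand is bounded and measurable; `ContinuousLinearMap.intervalIntegral_comp_comm` with the evaluation at v), subtract the equations for two times, substitute σ = r - s
(`intervalIntegral.integral_comp_sub_right` or `_add_left`) and use Aop σ = dx F (s+σ, x (s+σ)) + u (s+σ) • dx G (..) for σ ∈ Ioo 0 T (`intervalIntegral.integral_congr`).
mx: hp.max, shifted (quasi measure preserving translation).  perf: {t | t - s ∈ D} ⊆ Icc 0 (s+T), closed, nonempty, no isolated points.  sub, sg, gap: clear (α, β ∈ C' correspond to α - s, β - s ∈ D).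
-/

set_option linter.unusedSectionVars false

namespace Pool.Agent.Lib.MP_28b8de_an.KK

open Filter Topology Set MeasureTheory
open Pool.Agent.Lib.MP_28b8de_an.PT (Adm Perf)
open Pool.Agent.Lib.MP_28b8de_an.TT (Env Sol Jn Tr SmAt Goal dx Dn Gen Lc Lp Lq fX cf)
open Pool.Agent.Lib.MP_28b8de_an.DD (LTraj LRep Ch)

variable {V : Type*} [NormedAddCommGroup V] [NormedSpace ℝ V] [FiniteDimensional ℝ V]

/-- a translation in time commutes with the space derivative -/
private theorem KMul_dx {F F' : ℝ × V → V} {s τ : ℝ} {y : V}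
    (h : ∀ᶠ z in 𝓝 (τ, y), F' z = F (s + z.1, z.2)) : dx F' (τ, y) = dx F (s + τ, y) := by
  have h1 : F' =ᶠ[𝓝 (τ, y)] fun z : ℝ × V => F ((s, 0) + z) := by
    filter_upwards [h] with z hz
    rw [hz]
    congr 1
    ext <;> simp
  unfold TT.dx
  rw [h1.fderiv_eq, fderiv_comp_add_left]
  have h2 : ((s, 0) + (τ, y) : ℝ × V) = (s + τ, y) := by
    ext <;> simp
  rw [h2]

theorem portion {T : ℝ} (hT : 0 < T) {C : Set ℝ} (hC : Perf T C) :
    ∃ (α β : ℝ) (D : Set ℝ), 0 < α ∧ β < T ∧ D ⊆ C ∧ Perf T D ∧ D ⊆ Icc α β ∧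
      (∀ t ∈ C, t ∈ Ioo α β → t ∈ D) ∧
      ∀ t ∈ D, ∀ ε : ℝ, 0 < ε → ∃ t₁ ∈ C, t₁ ∈ Ioo α β ∧ |t₁ - t| < ε := by
  obtain ⟨c, hcC, -, hc⟩ := PT.perf_inner hT hC (α := -1) (β := T + 1) (by
    obtain ⟨c, hc⟩ := hC.ne
    exact ⟨c, hc, by linarith [(hC.sub hc).1], by linarith [(hC.sub hc).2]⟩)
  have hα : 0 < c / 2 := by linarith [hc.1]
  have hβ : (c + T) / 2 < T := by linarith [hc.2]
  have hcI : c ∈ Ioo (c / 2) ((c + T) / 2) := ⟨by linarith [hc.1], by linarith [hc.2]⟩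
  have hDC : closure (C ∩ Ioo (c / 2) ((c + T) / 2)) ⊆ C :=
    closure_minimal inter_subset_left hC.closed
  have hDI : closure (C ∩ Ioo (c / 2) ((c + T) / 2)) ⊆ Icc (c / 2) ((c + T) / 2) :=
    closure_minimal (inter_subset_right.trans Ioo_subset_Icc_self) isClosed_Icc
  have hap : ∀ t ∈ closure (C ∩ Ioo (c / 2) ((c + T) / 2)), ∀ ε : ℝ, 0 < ε →
      ∃ t₁ ∈ C, t₁ ∈ Ioo (c / 2) ((c + T) / 2) ∧ |t₁ - t| < ε := by
    intro t ht ε hε
    obtain ⟨t₁, ht₁, hd⟩ := Metric.mem_closure_iff.1 ht ε hε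
    refine ⟨t₁, ht₁.1, ht₁.2, ?_⟩
    rw [dist_comm, Real.dist_eq] at hd
    exact hd
  refine ⟨c / 2, (c + T) / 2, closure (C ∩ Ioo (c / 2) ((c + T) / 2)), hα, hβ, hDC,
    ⟨fun t ht => hC.sub (hDC ht), isClosed_closure, ⟨c, subset_closure ⟨hcC, hcI⟩⟩, ?_⟩, hDI,
    fun t ht hI => subset_closure ⟨ht, hI⟩, hap⟩
  intro t ht ε hε
  obtain ⟨t₁, ht₁C, ht₁I, hd⟩ := hap t ht (ε / 2) (by linarith)
  by_cases h : t₁ = t
  · obtain ⟨r, hrC, hrt, hrd⟩ := hC.acc t₁ ht₁C
      (min (ε / 2) (min (t₁ - c / 2) ((c + T) / 2 - t₁)))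
      (lt_min (by linarith) (lt_min (by linarith [ht₁I.1]) (by linarith [ht₁I.2])))
    have h1 : |r - t₁| < ε / 2 := lt_of_lt_of_le hrd (min_le_left _ _)
    have h2 : |r - t₁| < t₁ - c / 2 :=
      lt_of_lt_of_le hrd ((min_le_right _ _).trans (min_le_left _ _))
    have h3 : |r - t₁| < (c + T) / 2 - t₁ :=
      lt_of_lt_of_le hrd ((min_le_right _ _).trans (min_le_right _ _))
    rw [abs_lt] at h2 h3
    refine ⟨r, subset_closure ⟨hrC, by linarith [h2.1], by linarith [h3.2]⟩, ?_, ?_⟩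
    · rw [← h]
      exact hrt
    · rw [← h]
      linarith
  · exact ⟨t₁, subset_closure ⟨ht₁C, ht₁I⟩, h, by linarith⟩

theorem cx_of_mul {F G F' G' : ℝ × V → V} {M s T : ℝ} {u : ℝ → ℝ} {x : ℝ → V} (hs : 0 ≤ s)
    (hu : Adm u) (h : Tr F' G' M T (fun τ => u (s + τ)) (fun τ => x (s + τ)))
    {p : ℝ → V →L[ℝ] ℝ} (hp : TT.Mul F' G' T (fun τ => u (s + τ)) (fun τ => x (s + τ)) p)
    (hag : ∀ τ ∈ Ioo 0 T, ∀ᶠ z in 𝓝 (τ, x (s + τ)),
      F' z = F (s + z.1, z.2) ∧ G' z = G (s + z.1, z.2))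
    (hFa : ∀ τ ∈ Ioo 0 T, AnalyticAt ℝ F (s + τ, x (s + τ)))
    (hGa : ∀ τ ∈ Ioo 0 T, AnalyticAt ℝ G (s + τ, x (s + τ)))
    (htr : ∀ τ ∈ Ioo 0 T, LTraj F G u x (s + τ)) {D : Set ℝ} (hD : Perf T D) (hsub : D ⊆ Ioo 0 T)
    (hsg : ∀ τ ∈ D, p τ (G' (τ, x (s + τ))) = 0)
    (hgap : ∃ K : ℝ, ∀ α ∈ D, ∀ β ∈ D, α < β → (∀ τ ∈ Ioo α β, τ ∉ D) →
      Rep F G x K (s + α) (s + β)) :
    Cx F G u x s (s + T) (fun t => p (t - s)) {t | t - s ∈ D} := by
  have hsh : ∀ t : ℝ, s + (t - s) = t := fun t => by ring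
  have hI : ∀ t ∈ Ioo s (s + T), t - s ∈ Ioo 0 T := fun t ht =>
    ⟨by linarith [ht.1], by linarith [ht.2]⟩
  have hG' : ∀ t ∈ Ioo s (s + T), G' (t - s, x t) = G (t, x t) := by
    intro t ht
    have h1 := (hag (t - s) (hI t ht)).self_of_nhds.2
    simp only [hsh] at h1
    exact h1
  have hdF : ∀ t ∈ Ioo s (s + T), dx F' (t - s, x t) = dx F (t, x t) := by
    intro t ht
    have h1 := hag (t - s) (hI t ht)
    rw [hsh] at h1
    have h2 := KMul_dx (h1.mono fun z hz => hz.1)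
    rw [hsh] at h2
    exact h2
  have hdG : ∀ t ∈ Ioo s (s + T), dx G' (t - s, x t) = dx G (t, x t) := by
    intro t ht
    have h1 := hag (t - s) (hI t ht)
    rw [hsh] at h1
    have h2 := KMul_dx (h1.mono fun z hz => hz.2)
    rw [hsh] at h2
    exact h2
  have hA : ∀ t ∈ Ioo s (s + T), TT.Aop F' G' (fun τ => u (s + τ)) (fun τ => x (s + τ)) (t - s)
      = dx F (t, x t) + u t • dx G (t, x t) := by
    intro t ht
    unfold TT.Aop
    simp only [hsh]
    rw [hdF t ht, hdG t ht]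
  have hTT : T ∈ Icc 0 T := right_mem_Icc.2 h.hT.le
  refine ⟨hs, hu, ?_, ?_, ?_, ?_, ?_, ?_, ?_, ?_, ?_, ?_, ?_⟩
  · intro t ht
    have h1 := htr (t - s) (hI t ht)
    rwa [hsh] at h1
  · intro t ht
    have h1 := hFa (t - s) (hI t ht)
    rwa [hsh] at h1
  · intro t ht
    have h1 := hGa (t - s) (hI t ht)
    rwa [hsh] at h1
  · refine hp.adj.cont.comp (continuous_id.sub continuous_const).continuousOn ?_
    intro t ht
    exact Ioo_subset_Icc_self (hI t ht)
  · intro t ht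
    exact hp.ne _ (Ioo_subset_Icc_self (hI t ht))
  · intro v r hr t ht
    have hr' := Ioo_subset_Icc_self (hI r hr)
    have ht' := Ioo_subset_Icc_self (hI t ht)
    have i1 := TT.adj_int h.env h.adm h.sol hp.adj.cont hr' hTT
    have i2 := TT.adj_int h.env h.adm h.sol hp.adj.cont ht' hTT
    have i3 := TT.adj_int h.env h.adm h.sol hp.adj.cont hr' ht'
    have e1 := hp.adj.eq (r - s) hr'
    have e2 := hp.adj.eq (t - s) ht'
    have e3 := intervalIntegral.integral_add_adjacent_intervals i3 i2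
    have e4 : p (t - s) - p (r - s) = -∫ σ in (r - s)..(t - s),
        (p σ).comp (TT.Aop F' G' (fun τ => u (s + τ)) (fun τ => x (s + τ)) σ) := by
      rw [e1, e2, ← e3]
      abel
    have e5 := congrArg (fun L : V →L[ℝ] ℝ => L v) e4
    simp only [sub_apply, neg_apply] at e5
    rw [ContinuousLinearMap.intervalIntegral_apply i3] at e5
    show p (t - s) v - p (r - s) v = _
    rw [e5, ← intervalIntegral.integral_comp_sub_right (fun σ => ((p σ).comp
      (TT.Aop F' G' (fun τ => u (s + τ)) (fun τ => x (s + τ)) σ)) v) s]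
    congr 1
    refine intervalIntegral.integral_congr fun τ hτ => ?_
    have hτI : τ ∈ Ioo s (s + T) := by
      have : uIcc r t ⊆ Ioo s (s + T) := by
        rcases le_total r t with h1 | h1
        · rw [uIcc_of_le h1]
          exact Icc_subset_Ioo hr.1 ht.2
        · rw [uIcc_of_ge h1]
          exact Icc_subset_Ioo ht.1 hr.2
      exact this hτ
    show (p (τ - s)) ((TT.Aop F' G' (fun τ => u (s + τ)) (fun τ => x (s + τ)) (τ - s)) v) = _
    rw [hA τ hτI]
  · have h1 := (measurePreserving_sub_right (volume : Measure ℝ) s).quasiMeasurePreserving.ae hp.max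
    filter_upwards [h1] with t ht htI
    have h2 := ht (Ioo_subset_Icc_self (hI t htI))
    simp only [hsh] at h2
    rw [hG' t htI] at h2
    exact h2
  · refine ⟨?_, ?_, ?_, ?_⟩
    · intro t ht
      have h1 := hsub ht
      exact ⟨by linarith [h1.1], by linarith [h1.2]⟩
    · exact hD.closed.preimage (continuous_id.sub continuous_const)
    · obtain ⟨d, hd⟩ := hD.ne
      refine ⟨s + d, ?_⟩
      show s + d - s ∈ D
      rwa [add_sub_cancel_left]
    · intro t ht ε hε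
      obtain ⟨σ, hσ, hne, hd⟩ := hD.acc _ ht ε hε
      refine ⟨s + σ, ?_, ?_, ?_⟩
      · show s + σ - s ∈ D
        rwa [add_sub_cancel_left]
      · intro h1
        exact hne (by rw [← h1]; ring)
      · have h1 : s + σ - t = σ - (t - s) := by ring
        rw [h1]
        exact hd
  · intro t ht
    have h1 := hsub ht
    exact ⟨by linarith [h1.1], by linarith [h1.2]⟩
  · intro t ht
    have h1 := hsub ht
    have h2 := hsg _ ht
    rw [hsh, hG' t ⟨by linarith [h1.1], by linarith [h1.2]⟩] at h2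
    exact h2
  · obtain ⟨K, hK⟩ := hgap
    refine ⟨K, fun α hα β hβ hαβ hno => ?_⟩
    have h1 := hK (α - s) hα (β - s) hβ (by linarith) (fun τ hτ hτD => ?_)
    · rwa [hsh, hsh] at h1
    · refine hno (s + τ) ⟨by linarith [hτ.1], by linarith [hτ.2]⟩ ?_
      show s + τ - s ∈ D
      rwa [add_sub_cancel_left]

end Pool.Agent.Lib.MP_28b8de_an.KK
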