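import Pool.Agent.Lib.MP_28b8de_an.K.KCut

/-!
MP_28b8de_an, module KShift.

Between the local and the global (cut off, time shifted) point of view.
PROOFS.  z₀ = (t₀, x t₀), ρ > 0, F' = F and G' = G on the ball B(z₀,ρ); x is continuous near t₀, so (t, x t) ∈ B(z₀,ρ/4) for |t - t₀| < δ.
tr_shift: the integral identity of LTraj for the shifted curve (substitution τ ↦ s + τ, `intervalIntegral.integral_comp_add_left`).
rep_of_jn: from Jn: v̂, r̂ on [α,β].  ‖r̂ t - r̂ α‖ ≤ 2M (t-α) (`TT.sol_lip`); δ so small that 4 M (β-α) ≤ 8 M δ < ρ/4 and δ < ρ/8: then (s + t, r̂ t) ∈ B(z₀,ρ), F' = F there.  r t := r̂ (t - s), v t := v̂ (t - s).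
jn_of_rep: from Rep: ‖r t - x (s+α)‖ ≤ K (β-α) < min (ρ/4, 1/4) and ‖x t - x (s+α)‖ < 1/4 for δ small, so F = F' along r and the tube condition holds.  SmAt is invariant under shifts.
-/

set_option linter.unusedSectionVars false

namespace Pool.Agent.Lib.MP_28b8de_an.KK

open Filter Topology Set MeasureTheory
open Pool.Agent.Lib.MP_28b8de_an.PT (Adm Perf)
open Pool.Agent.Lib.MP_28b8de_an.TT (Env Sol Jn Tr SmAt Goal dx Dn Gen Lc Lp Lq fX cf)
open Pool.Agent.Lib.MP_28b8de_an.DD (LTraj LRep Ch)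

variable {V : Type*} [NormedAddCommGroup V] [NormedSpace ℝ V] [FiniteDimensional ℝ V]

private theorem KShift_sm {r : ℝ → V} {c t : ℝ} (h : SmAt r (t + c)) :
    SmAt (fun τ => r (τ + c)) t := by
  obtain ⟨ε, hε, h⟩ := h
  refine ⟨ε, hε, ?_⟩
  have h1 : ContDiffOn ℝ (⊤ : ℕ∞) (fun τ : ℝ => τ + c) (Ioo (t - ε) (t + ε)) :=
    (contDiff_id.add contDiff_const).contDiffOn
  have h2 : MapsTo (fun τ : ℝ => τ + c) (Ioo (t - ε) (t + ε)) (Ioo (t + c - ε) (t + c + ε)) := by
    intro x hx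
    constructor
    · show t + c - ε < x + c
      linarith [hx.1]
    · show x + c < t + c + ε
      linarith [hx.2]
  exact h.comp h1 h2

private theorem KShift_ball {x₀ y : V} {t₀ t ρ : ℝ} (h1 : |t - t₀| < ρ) (h2 : ‖y - x₀‖ < ρ) :
    ((t, y) : ℝ × V) ∈ Metric.ball (t₀, x₀) ρ := by
  rw [Metric.mem_ball, Prod.dist_eq]
  apply max_lt
  · show dist t t₀ < ρ
    rw [Real.dist_eq]
    exact h1
  · show dist y x₀ < ρ
    rw [dist_eq_norm]
    exact h2

private theorem KShift_cont {x : ℝ → V} {t₀ : ℝ} (hx : ContinuousAt x t₀) {κ : ℝ} (hκ : 0 < κ) :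
    ∃ δ > 0, ∀ t, |t - t₀| < δ → ‖x t - x t₀‖ < κ := by
  obtain ⟨δ, hδ, h⟩ := Metric.continuousAt_iff.1 hx κ hκ
  refine ⟨δ, hδ, fun t ht => ?_⟩
  have h1 : dist t t₀ < δ := by rwa [Real.dist_eq]
  have h2 := h h1
  rwa [dist_eq_norm] at h2

private theorem KShift_mid {t₀ δ a b t : ℝ} (ha : |a - t₀| < δ) (hb : |b - t₀| < δ)
    (ht : t ∈ Icc a b) : |t - t₀| < δ := by
  rw [abs_lt] at *
  exact ⟨by linarith [ht.1], by linarith [ht.2]⟩

theorem tr_shift {F G F' G' : ℝ × V → V} {M ρ t₀ : ℝ} {x : ℝ → V} {w : ℝ → ℝ} (hw : Adm w)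
    (hρ : 0 < ρ) (E : Env F' G' M) (hx : LTraj F G w x t₀)
    (hag : ∀ z ∈ Metric.ball (t₀, x t₀) ρ, F' z = F z ∧ G' z = G z) :
    ∃ δ > 0, ∀ s s' : ℝ, |s - t₀| < δ → |s' - t₀| < δ → s < s' →
      Tr (fun z : ℝ × V => F' (s + z.1, z.2)) (fun z : ℝ × V => G' (s + z.1, z.2)) M (s' - s)
        (fun τ => w (s + τ)) (fun τ => x (s + τ)) := by
  obtain ⟨ε, hε, hc, heq⟩ := hx
  have hct : ContinuousAt x t₀ := hc.continuousAt (Ioo_mem_nhds (by linarith) (by linarith))
  obtain ⟨δ₁, hδ₁, hcl⟩ := KShift_cont hct hρ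
  refine ⟨min ε (min δ₁ ρ), lt_min hε (lt_min hδ₁ hρ), fun s s' hs hs' hss => ?_⟩
  have hin : ∀ t ∈ Icc s s', |t - t₀| < min ε (min δ₁ ρ) := fun t ht => KShift_mid hs hs' ht
  have hI : ∀ t ∈ Icc s s', t ∈ Ioo (t₀ - ε) (t₀ + ε) := by
    intro t ht
    have h1 := abs_lt.1 ((hin t ht).trans_le (min_le_left _ _))
    exact ⟨by linarith [h1.1], by linarith [h1.2]⟩
  have hB : ∀ t ∈ Icc s s', ((t, x t) : ℝ × V) ∈ Metric.ball (t₀, x t₀) ρ := by
    intro t ht
    have h1 := hin t ht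
    exact KShift_ball (h1.trans_le ((min_le_right _ _).trans (min_le_right _ _)))
      (hcl t (h1.trans_le ((min_le_right _ _).trans (min_le_left _ _))))
  refine ⟨env_shift E s, by linarith, ⟨hw.1.comp (measurable_const.add measurable_id),
    fun t => hw.2 _⟩, ?_, ?_⟩
  · refine hc.comp (continuous_const.add continuous_id).continuousOn ?_
    intro t ht
    exact hI _ ⟨by show s ≤ s + t; linarith [ht.1], by show s + t ≤ s'; linarith [ht.2]⟩
  · intro t ht
    have hst : s + t ∈ Icc s s' := ⟨by linarith [ht.1], by linarith [ht.2]⟩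
    have h1 := heq s (hI s ⟨le_rfl, hss.le⟩) (s + t) (hI _ hst)
    have h2 := intervalIntegral.integral_comp_add_left (a := 0) (b := t)
      (fun τ => F (τ, x τ) + w τ • G (τ, x τ)) s
    rw [add_zero] at h2
    have h3 : ∫ τ in (0:ℝ)..t, (F' (s + τ, x (s + τ)) + w (s + τ) • G' (s + τ, x (s + τ))) =
        ∫ τ in (0:ℝ)..t, (F (s + τ, x (s + τ)) + w (s + τ) • G (s + τ, x (s + τ))) := by
      refine intervalIntegral.integral_congr fun τ hτ => ?_
      rw [uIcc_of_le ht.1] at hτ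
      have h4 := hag _ (hB (s + τ) ⟨by linarith [hτ.1], by linarith [hτ.2, ht.2]⟩)
      show F' (s + τ, x (s + τ)) + w (s + τ) • G' (s + τ, x (s + τ)) = _
      rw [h4.1, h4.2]
    show x (s + t) = x (s + 0) +
      ∫ τ in (0:ℝ)..t, (F' (s + τ, x (s + τ)) + w (s + τ) • G' (s + τ, x (s + τ)))
    rw [h3, h2, ← h1, add_zero]
    abel

theorem rep_of_jn {F G F' G' : ℝ × V → V} {M ρ t₀ : ℝ} {x : ℝ → V} (hρ : 0 < ρ) (E : Env F' G' M)
    (hx : ∀ᶠ t in 𝓝 t₀, ContinuousAt x t)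
    (hag : ∀ z ∈ Metric.ball (t₀, x t₀) ρ, F' z = F z ∧ G' z = G z) :
    ∃ δ > 0, ∀ s α β : ℝ, |s + α - t₀| < δ → |s + β - t₀| < δ → α < β →
      Jn (fun z : ℝ × V => F' (s + z.1, z.2)) (fun z : ℝ × V => G' (s + z.1, z.2))
        (fun τ => x (s + τ)) α β → Rep F G x (4 * M) (s + α) (s + β) := by
  have hM0 : 0 < M := lt_of_lt_of_le zero_lt_one E.hM
  obtain ⟨δ₁, hδ₁, hcl⟩ := KShift_cont hx.self_of_nhds (κ := ρ / 4) (by positivity)
  refine ⟨min δ₁ (min ρ (ρ / (16 * M))), lt_min hδ₁ (lt_min hρ (by positivity)),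
    fun s α β hα hβ hαβ hJ => ?_⟩
  obtain ⟨v, r, hv, hsol, hra, hrb, -, hbad⟩ := hJ
  have E' := env_shift E s
  have hαm : α ∈ Icc α β := ⟨le_rfl, hαβ.le⟩
  have hβα : β - α < ρ / (8 * M) := by
    have h1 := (abs_lt.1 (hα.trans_le ((min_le_right _ _).trans (min_le_right _ _)))).1
    have h2 := (abs_lt.1 (hβ.trans_le ((min_le_right _ _).trans (min_le_right _ _)))).2
    have h3 : ρ / (8 * M) = ρ / (16 * M) + ρ / (16 * M) := by
      field_simp
      norm_num
    linarith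
  have hlip : ∀ t ∈ Icc α β, ‖r t - r α‖ ≤ 2 * M * (β - α) := by
    intro t ht
    refine (TT.sol_lip E' hv hsol hαm ht).trans ?_
    rw [abs_of_nonneg (by linarith [ht.1])]
    exact mul_le_mul_of_nonneg_left (by linarith [ht.2]) (by positivity)
  have hxa : ‖x (s + α) - x t₀‖ < ρ / 4 := hcl _ (hα.trans_le (min_le_left _ _))
  have hB : ∀ t ∈ Icc α β, ((s + t, r t) : ℝ × V) ∈ Metric.ball (t₀, x t₀) ρ := by
    intro t ht
    refine KShift_ball ?_ ?_
    · refine (KShift_mid (t := s + t) hα hβ ⟨by linarith [ht.1], by linarith [ht.2]⟩).trans_le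
        ((min_le_right _ _).trans (min_le_left _ _))
    · have h1 := hlip t ht
      have h2 : 2 * M * (β - α) ≤ ρ / 4 := by
        have h3 : 2 * M * (β - α) ≤ 2 * M * (ρ / (8 * M)) :=
          mul_le_mul_of_nonneg_left hβα.le (by positivity)
        have h4 : 2 * M * (ρ / (8 * M)) = ρ / 4 := by
          field_simp
          norm_num
        linarith
      have h5 : ‖r t - x t₀‖ ≤ ‖r t - r α‖ + ‖x (s + α) - x t₀‖ := by
        have h6 : r t - x t₀ = (r t - r α) + (x (s + α) - x t₀) := by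
          rw [hra]
          abel
        rw [h6]
        exact norm_add_le _ _
      linarith
  refine ⟨fun τ => v (τ - s), fun τ => r (τ - s), ⟨hv.1.comp (measurable_id.sub_const s),
    fun t => hv.2 _⟩, ?_, ?_, ?_, ?_, ?_, ?_⟩
  · refine hsol.cont.comp (continuous_id.sub continuous_const).continuousOn ?_
    intro t ht
    exact ⟨by show α ≤ t - s; linarith [ht.1], by show t - s ≤ β; linarith [ht.2]⟩
  · show r (s + α - s) = x (s + α)
    rw [add_sub_cancel_left]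
    exact hra
  · show r (s + β - s) = x (s + β)
    rw [add_sub_cancel_left]
    exact hrb
  · intro t ht
    have h1 := hlip (t - s) ⟨by linarith [ht.1], by linarith [ht.2]⟩
    have h2 : r α = x (s + α) := hra
    rw [h2] at h1
    refine h1.trans ?_
    have h3 : s + β - (s + α) = β - α := by ring
    rw [h3]
    exact mul_le_mul_of_nonneg_right (by linarith) (by linarith)
  · intro t ht
    have hts : t - s ∈ Icc α β := ⟨by linarith [ht.1], by linarith [ht.2]⟩
    have h1 := hsol.eq (t - s) hts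
    have h2 := intervalIntegral.integral_comp_sub_right (a := s + α) (b := t)
      (fun τ => F' (s + τ, r τ) + v τ • G' (s + τ, r τ)) s
    rw [add_sub_cancel_left] at h2
    have h3 : ∫ τ in (s + α)..t, (F (τ, r (τ - s)) + v (τ - s) • G (τ, r (τ - s))) =
        ∫ τ in (s + α)..t, (F' (s + (τ - s), r (τ - s)) + v (τ - s) • G' (s + (τ - s), r (τ - s))) := by
      refine intervalIntegral.integral_congr fun τ hτ => ?_
      rw [uIcc_of_le ht.1] at hτ
      have h4 := hag _ (hB (τ - s) ⟨by linarith [hτ.1], by linarith [hτ.2, ht.2]⟩)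
      show F (τ, r (τ - s)) + v (τ - s) • G (τ, r (τ - s)) = _
      rw [h4.1, h4.2, add_sub_cancel]
    show r (t - s) = r (s + α - s) +
      ∫ τ in (s + α)..t, (F (τ, r (τ - s)) + v (τ - s) • G (τ, r (τ - s)))
    rw [h3, h2, add_sub_cancel_left]
    exact h1
  · refine (hbad.image (fun τ => s + τ)).mono ?_
    rintro t ⟨ht, hns⟩
    refine ⟨t - s, ⟨⟨by linarith [ht.1], by linarith [ht.2]⟩, fun hs => hns ?_⟩, by
      show s + (t - s) = t; ring⟩
    have h1 : SmAt r (t + -s) := by rwa [← sub_eq_add_neg]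
    have h2 := KShift_sm h1
    simpa only [← sub_eq_add_neg] using h2

theorem jn_of_rep {F G F' G' : ℝ × V → V} {M ρ t₀ : ℝ} {x : ℝ → V} (hρ : 0 < ρ) (E : Env F' G' M)
    (hx : ∀ᶠ t in 𝓝 t₀, ContinuousAt x t)
    (hag : ∀ z ∈ Metric.ball (t₀, x t₀) ρ, F' z = F z ∧ G' z = G z) (K : ℝ) :
    ∃ δ > 0, ∀ s α β : ℝ, |s + α - t₀| < δ → |s + β - t₀| < δ → α < β →
      Rep F G x K (s + α) (s + β) →
      Jn (fun z : ℝ × V => F' (s + z.1, z.2)) (fun z : ℝ × V => G' (s + z.1, z.2))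
        (fun τ => x (s + τ)) α β := by
  obtain ⟨κ, hκd⟩ : ∃ κ : ℝ, κ = min (ρ / 4) (1 / 4) := ⟨_, rfl⟩
  have hκ : 0 < κ := by rw [hκd]; positivity
  have hκ1 : κ ≤ ρ / 4 := by rw [hκd]; exact min_le_left _ _
  have hκ2 : κ ≤ 1 / 4 := by rw [hκd]; exact min_le_right _ _
  obtain ⟨δ₁, hδ₁, hcl⟩ := KShift_cont hx.self_of_nhds hκ
  have hK0 : 0 ≤ |K| := abs_nonneg K
  refine ⟨min δ₁ (min ρ (κ / (2 * (|K| + 1)))), lt_min hδ₁ (lt_min hρ (by positivity)),
    fun s α β hα hβ hαβ hR => ?_⟩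
  obtain ⟨v, r, hv, hrc, hra, hrb, hrK, hreq, hbad⟩ := hR
  have hKb : K * (s + β - (s + α)) ≤ κ := by
    have h1 := (abs_lt.1 (hα.trans_le ((min_le_right _ _).trans (min_le_right _ _)))).1
    have h2 := (abs_lt.1 (hβ.trans_le ((min_le_right _ _).trans (min_le_right _ _)))).2
    have h3 : s + β - (s + α) ≤ κ / (|K| + 1) := by
      have h4 : κ / (|K| + 1) = κ / (2 * (|K| + 1)) + κ / (2 * (|K| + 1)) := by
        field_simp
        norm_num
      linarith
    have h5 : K * (s + β - (s + α)) ≤ |K| * (s + β - (s + α)) :=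
      mul_le_mul_of_nonneg_right (le_abs_self K) (by linarith)
    have h6 : |K| * (s + β - (s + α)) ≤ |K| * (κ / (|K| + 1)) :=
      mul_le_mul_of_nonneg_left h3 hK0
    have h7 : |K| * (κ / (|K| + 1)) ≤ κ := by
      rw [mul_div_assoc', div_le_iff₀ (by positivity)]
      nlinarith
    linarith
  have hxc : ∀ t ∈ Icc (s + α) (s + β), ‖x t - x t₀‖ < κ := fun t ht =>
    hcl t ((KShift_mid hα hβ ht).trans_le (min_le_left _ _))
  have ham : s + α ∈ Icc (s + α) (s + β) := ⟨le_rfl, by linarith⟩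
  have hB : ∀ t ∈ Icc (s + α) (s + β), ((t, r t) : ℝ × V) ∈ Metric.ball (t₀, x t₀) ρ := by
    intro t ht
    refine KShift_ball ((KShift_mid hα hβ ht).trans_le ((min_le_right _ _).trans (min_le_left _ _))) ?_
    have h1 := hrK t ht
    have h2 := hxc _ ham
    have h5 : ‖r t - x t₀‖ ≤ ‖r t - x (s + α)‖ + ‖x (s + α) - x t₀‖ := by
      have h6 : r t - x t₀ = (r t - x (s + α)) + (x (s + α) - x t₀) := by abel
      rw [h6]
      exact norm_add_le _ _
    linarith
  refine ⟨fun τ => v (s + τ), fun τ => r (s + τ), ⟨hv.1.comp (measurable_const.add measurable_id),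
    fun t => hv.2 _⟩, ⟨?_, ?_⟩, hra, hrb, ?_, ?_⟩
  · refine hrc.comp (continuous_const.add continuous_id).continuousOn ?_
    intro t ht
    exact ⟨by show s + α ≤ s + t; linarith [ht.1], by show s + t ≤ s + β; linarith [ht.2]⟩
  · intro t ht
    have hst : s + t ∈ Icc (s + α) (s + β) := ⟨by linarith [ht.1], by linarith [ht.2]⟩
    have h1 := hreq (s + t) hst
    have h2 := intervalIntegral.integral_comp_add_left (a := α) (b := t)
      (fun τ => F (τ, r τ) + v τ • G (τ, r τ)) s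
    have h3 : ∫ τ in α..t, (F' (s + τ, r (s + τ)) + v (s + τ) • G' (s + τ, r (s + τ))) =
        ∫ τ in α..t, (F (s + τ, r (s + τ)) + v (s + τ) • G (s + τ, r (s + τ))) := by
      refine intervalIntegral.integral_congr fun τ hτ => ?_
      rw [uIcc_of_le ht.1] at hτ
      have h4 := hag _ (hB (s + τ) ⟨by linarith [hτ.1], by linarith [hτ.2, ht.2]⟩)
      show F' (s + τ, r (s + τ)) + v (s + τ) • G' (s + τ, r (s + τ)) = _
      rw [h4.1, h4.2]
    show r (s + t) = r (s + α) +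
      ∫ τ in α..t, (F' (s + τ, r (s + τ)) + v (s + τ) • G' (s + τ, r (s + τ)))
    rw [h3, h2]
    exact h1
  · intro t ht
    have hst : s + t ∈ Icc (s + α) (s + β) := ⟨by linarith [ht.1], by linarith [ht.2]⟩
    have h1 := hrK _ hst
    have h2 := hxc _ ham
    have h3 := hxc _ hst
    have h5 : ‖r (s + t) - x (s + t)‖ ≤
        ‖r (s + t) - x (s + α)‖ + ‖x (s + α) - x t₀‖ + ‖x (s + t) - x t₀‖ := by
      have h6 : r (s + t) - x (s + t) = (r (s + t) - x (s + α)) + (x (s + α) - x t₀) -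
        (x (s + t) - x t₀) := by abel
      rw [h6]
      exact (norm_sub_le _ _).trans (add_le_add_left (norm_add_le _ _) _)
    show ‖r (s + t) - x (s + t)‖ ≤ 1
    linarith
  · refine (hbad.image (fun τ => τ - s)).mono ?_
    rintro t ⟨ht, hns⟩
    refine ⟨s + t, ⟨⟨by linarith [ht.1], by linarith [ht.2]⟩, fun hs => hns ?_⟩, by
      show s + t - s = t; ring⟩
    have h1 : SmAt r (t + s) := by rwa [add_comm]
    have h2 := KShift_sm h1
    simpa only [add_comm] using h2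

end Pool.Agent.Lib.MP_28b8de_an.KK
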