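import Pool.Agent.Lib.MP_28b8de_an.K.KPrin
import Pool.Agent.Lib.MP_28b8de_an.K.KShift
import Pool.Agent.Lib.MP_28b8de_an.K.KGl
import Pool.Agent.Lib.MP_28b8de_an.K.KCut
import Pool.Agent.Lib.MP_28b8de_an.K.KMul

/-!
MP_28b8de_an, module KMain.

The local principle with multipliers.
PROOF.  env_local (K/KCut) at z₀ = (t₀, x t₀): F', G', M, ρ₁.  Given κ > 0 choose δ > 0 smaller than ρ, t₀, κ/(8M), the δ of tr_shift, rep_of_jn, such that LTraj F G u x t and (t, x t) ∈ B(z₀, ρ₁/2), ‖x t - x t₀‖ < κ/2 for |t - t₀| < 2δ (ltraj_ev, ltraj_cont).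
Let s < s', |s - t₀|, |s' - t₀| < δ.  Claim: Jn F̂ Ĝ x̂ 0 (s'-s), where F̂ z := F' (s + z.1, z.2) etc., x̂ τ := x (s + τ); then rep_of_jn with α = 0, β = s'-s gives Rep F G x (4M) s s', which is what LRep asks
(‖r t - x t₀‖ ≤ 4M (s'-s) + ‖x s - x t₀‖ ≤ κ).
Claim: h := tr_shift.  `TT.pmp_or h`: Jn (done) or a multiplier p̂ (Mul).  In the second case `principle'`: let C be perfect in [0,T̂], T̂ = s'-s, with the bad property and the gap property.  `TT.bad_point`: p̂ τ (Ĝ (τ, x̂ τ)) = 0 for τ ∈ C.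
`portion`: α, β, D.  `cx_of_mul` with a = s, a + T = s' (s + (s'-s) = s'): Cx F G u x s s' p C', C' = {t | t - s ∈ D}: hag, hFa, hGa, htr: choice of δ; hs: δ < t₀, so s > 0.
hgap with K := 4M: α', β' ∈ D without points of D between: Ioo α' β' ⊆ Ioo α β contains no point of C (a point of C in it would be in D), so Jn by the gap property, rep_of_jn.
H gives LGoal F G x C': t ∈ C', K, δ'.  Goal F̂ Ĝ x̂ C: let δ'' ≤ δ' be smaller than the δ of jn_of_rep (for K) at the base point t (the ball about (t, x t) of radius ρ₁/2 is contained in B(z₀,ρ₁)); the portion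
Ioo (max (t-s-δ'') α) (min (t-s+δ'') β) contains a point of C (last property of `portion`) and any two points of C in it are in D; Rep gives Jn by jn_of_rep.
-/

set_option linter.unusedSectionVars false

namespace Pool.Agent.Lib.MP_28b8de_an.KK

open Filter Topology Set MeasureTheory
open Pool.Agent.Lib.MP_28b8de_an.PT (Adm Perf)
open Pool.Agent.Lib.MP_28b8de_an.TT (Env Sol Jn Tr SmAt Goal dx Dn Gen Lc Lp Lq fX cf)
open Pool.Agent.Lib.MP_28b8de_an.DD (LTraj LRep Ch)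

variable {V : Type*} [NormedAddCommGroup V] [NormedSpace ℝ V] [FiniteDimensional ℝ V]

theorem lrep_main {F G : ℝ × V → V} {u : ℝ → ℝ} (hu : Adm u) {x : ℝ → V} {t₀ : ℝ} (ht₀ : 0 < t₀)
    (hF : AnalyticAt ℝ F (t₀, x t₀)) (hG : AnalyticAt ℝ G (t₀, x t₀)) (hx : LTraj F G u x t₀)
    {ρ : ℝ} (hρ : 0 < ρ)
    (H : ∀ (a b : ℝ) (p : ℝ → V →L[ℝ] ℝ) (C : Set ℝ), |a - t₀| < ρ → |b - t₀| < ρ →
      Cx F G u x a b p C → LGoal F G x C) : LRep F G x t₀ := by
  intro κ hκ
  obtain ⟨F', G', M, ρ₁, hρ₁, E, hag⟩ := env_local hF hG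
  have hM : 1 ≤ M := E.hM
  have hag' : ∀ z ∈ Metric.ball (t₀, x t₀) ρ₁, F' z = F z ∧ G' z = G z :=
    fun z hz => ⟨(hag z hz).1, (hag z hz).2.1⟩
  obtain ⟨δ₁, hδ₁, h1⟩ := tr_shift hu hρ₁ E hx hag'
  obtain ⟨δ₂, hδ₂, h2⟩ := rep_of_jn hρ₁ E (DD.ltraj_cont hx) hag'
  have hxc : ContinuousAt x t₀ := (DD.ltraj_cont hx).self_of_nhds
  have e3 : ∀ᶠ t in 𝓝 t₀, (t, x t) ∈ Metric.ball (t₀, x t₀) (ρ₁ / 2) := by
    have hpair : Tendsto (fun t => (t, x t)) (𝓝 t₀) (𝓝 (t₀, x t₀)) :=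
      (continuousAt_id.prodMk hxc : ContinuousAt (fun t => (t, x t)) t₀)
    exact hpair (Metric.ball_mem_nhds _ (by linarith))
  have e4 : ∀ᶠ t in 𝓝 t₀, ‖x t - x t₀‖ < κ / 2 := by
    have h : ∀ᶠ t in 𝓝 t₀, x t ∈ Metric.ball (x t₀) (κ / 2) :=
      hxc (Metric.ball_mem_nhds _ (by linarith))
    filter_upwards [h] with t ht
    rw [← dist_eq_norm]
    exact ht
  obtain ⟨δ₃, hδ₃, h3⟩ := Metric.eventually_nhds_iff.1
    ((DD.ltraj_ev hx).and ((DD.ltraj_cont hx).and (e3.and e4)))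
  have h3' : ∀ t : ℝ, |t - t₀| < δ₃ → LTraj F G u x t ∧ ContinuousAt x t ∧
      (t, x t) ∈ Metric.ball (t₀, x t₀) (ρ₁ / 2) ∧ ‖x t - x t₀‖ < κ / 2 := by
    intro t ht
    exact h3 (by rw [Real.dist_eq]; exact ht)
  obtain ⟨δ, hδ, dρ, dt, dκ, d1, d2, d3⟩ : ∃ δ : ℝ, 0 < δ ∧ δ ≤ ρ ∧ δ ≤ t₀ ∧ δ ≤ κ / (16 * M) ∧
      δ ≤ δ₁ ∧ δ ≤ δ₂ ∧ δ ≤ δ₃ := by
    refine ⟨min ρ (min t₀ (min (κ / (16 * M)) (min δ₁ (min δ₂ δ₃)))), ?_, ?_, ?_, ?_, ?_, ?_, ?_⟩
    · have : 0 < κ / (16 * M) := by positivity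
      simp only [lt_min_iff]
      exact ⟨hρ, ht₀, this, hδ₁, hδ₂, hδ₃⟩
    · exact min_le_left _ _
    · exact (min_le_right _ _).trans (min_le_left _ _)
    · exact (min_le_right _ _).trans ((min_le_right _ _).trans (min_le_left _ _))
    · exact (min_le_right _ _).trans ((min_le_right _ _).trans ((min_le_right _ _).trans
        (min_le_left _ _)))
    · exact (min_le_right _ _).trans ((min_le_right _ _).trans ((min_le_right _ _).trans
        ((min_le_right _ _).trans (min_le_left _ _))))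
    · exact (min_le_right _ _).trans ((min_le_right _ _).trans ((min_le_right _ _).trans
        ((min_le_right _ _).trans (min_le_right _ _))))
  refine ⟨δ, hδ, ?_⟩
  intro s s' hss hs hs'
  have hs1 := abs_lt.1 hs
  have hs2 := abs_lt.1 hs'
  -- points of the interval are close to `t₀`
  have hnear : ∀ τ : ℝ, 0 ≤ τ → τ ≤ s' - s → |s + τ - t₀| < δ := by
    intro τ h0 h1
    rw [abs_lt]
    constructor <;> linarith [hs1.1, hs1.2, hs2.1, hs2.2]
  -- the claim
  have hJ : Jn (fun z : ℝ × V => F' (s + z.1, z.2)) (fun z : ℝ × V => G' (s + z.1, z.2))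
      (fun τ => x (s + τ)) 0 (s' - s) := by
    have h := h1 s s' (by linarith) (by linarith) hss
    rcases TT.pmp_or h with hJ | ⟨p, hp⟩
    · exact hJ
    refine principle' h.env h.hT h.sol.cont ?_
    intro C hC hbad hgapC
    have hsg : ∀ τ ∈ C, p τ (G' (s + τ, x (s + τ))) = 0 := fun τ hτ =>
      (TT.bad_point h hp (hC.sub hτ) (hbad τ hτ)).1
    obtain ⟨α, β, D, hα, hβ, hDC, hDP, hDI, hin, happr⟩ := portion h.hT hC
    have hDsub : D ⊆ Ioo 0 (s' - s) := fun τ hτ =>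
      ⟨lt_of_lt_of_le hα (hDI hτ).1, lt_of_le_of_lt (hDI hτ).2 hβ⟩
    have hball : ∀ τ ∈ Ioo 0 (s' - s), (s + τ, x (s + τ)) ∈ Metric.ball (t₀, x t₀) (ρ₁ / 2) :=
      fun τ hτ => (h3' (s + τ) (lt_of_lt_of_le (hnear τ hτ.1.le hτ.2.le) d3)).2.2.1
    have hball' : ∀ τ ∈ Ioo 0 (s' - s), (s + τ, x (s + τ)) ∈ Metric.ball (t₀, x t₀) ρ₁ :=
      fun τ hτ => Metric.ball_subset_ball (by linarith) (hball τ hτ)
    have cx : Cx F G u x s (s + (s' - s)) (fun t => p (t - s)) {t | t - s ∈ D} := by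
      refine cx_of_mul (F := F) (G := G) (by linarith [hs1.1]) hu h hp ?_ ?_ ?_ ?_ hDP hDsub
        (fun τ hτ => hsg τ (hDC hτ)) ⟨4 * M, ?_⟩
      · intro τ hτ
        have hc : ContinuousAt (fun z : ℝ × V => (s + z.1, z.2)) (τ, x (s + τ)) :=
          ((continuous_const.add continuous_fst).prodMk continuous_snd).continuousAt
        have hev : ∀ᶠ z in 𝓝 (τ, x (s + τ)),
            ((s + z.1, z.2) : ℝ × V) ∈ Metric.ball (t₀, x t₀) ρ₁ :=
          hc.eventually_mem (Metric.isOpen_ball.mem_nhds (hball' τ hτ))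
        filter_upwards [hev] with z hz
        exact hag' _ hz
      · intro τ hτ
        exact (hag _ (hball' τ hτ)).2.2.1
      · intro τ hτ
        exact (hag _ (hball' τ hτ)).2.2.2
      · intro τ hτ
        exact (h3' (s + τ) (lt_of_lt_of_le (hnear τ hτ.1.le hτ.2.le) d3)).1
      · intro α' hα' β' hβ' hlt hno
        have hJ1 := hgapC α' (hC.sub (hDC hα')) β' (hC.sub (hDC hβ')) hlt
          (fun τ hτ hτC => hno τ hτ (hin τ hτC
            ⟨lt_of_le_of_lt (hDI hα').1 hτ.1, lt_of_lt_of_le hτ.2 (hDI hβ').2⟩))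
        have hα1 := hDsub hα'
        have hβ1 := hDsub hβ'
        exact h2 s α' β' (lt_of_lt_of_le (hnear α' hα1.1.le hα1.2.le) d2)
          (lt_of_lt_of_le (hnear β' hβ1.1.le hβ1.2.le) d2) hlt hJ1
    have hss' : s + (s' - s) = s' := by ring
    obtain ⟨t, htD, K, δ', hδ', hrep⟩ := H s (s + (s' - s)) _ _ (lt_of_lt_of_le hs dρ)
      (by rw [hss']; exact lt_of_lt_of_le hs' dρ) cx
    have htD' : t - s ∈ D := htD
    have htI := hDsub htD'
    have ht3 := h3' t (by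
      have h5 := hnear (t - s) htI.1.le htI.2.le
      have e : s + (t - s) = t := by ring
      rw [e] at h5
      linarith)
    obtain ⟨δ'', hδ'', h4⟩ := jn_of_rep (F := F) (G := G) (F' := F') (G' := G') (M := M)
      (ρ := ρ₁ / 2) (t₀ := t) (x := x) (by linarith) E (DD.ltraj_cont ht3.1) (by
        intro z hz
        apply hag'
        have h6 := ht3.2.2.1
        rw [Metric.mem_ball] at hz h6 ⊢
        calc dist z (t₀, x t₀) ≤ dist z (t, x t) + dist (t, x t) (t₀, x t₀) := dist_triangle _ _ _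
          _ < ρ₁ / 2 + ρ₁ / 2 := add_lt_add hz h6
          _ = ρ₁ := by ring) K
    refine ⟨max (t - s - min δ' δ'') α, min (t - s + min δ' δ'') β, ?_, ?_⟩
    · obtain ⟨t₁, ht₁, hI, hd⟩ := happr (t - s) htD' (min δ' δ'') (lt_min hδ' hδ'')
      have hd' := abs_lt.1 hd
      refine ⟨t₁, ht₁, max_lt (by linarith [hd'.1]) hI.1, lt_min (by linarith [hd'.2]) hI.2⟩
    · intro σ hσ hσI σ' hσ' hσI' hlt
      have a1 := (le_max_left (t - s - min δ' δ'') α).trans_lt hσI.1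
      have a2 := (le_max_right (t - s - min δ' δ'') α).trans_lt hσI.1
      have a3 := hσI.2.trans_le (min_le_left (t - s + min δ' δ'') β)
      have a4 := hσI.2.trans_le (min_le_right (t - s + min δ' δ'') β)
      have b1 := (le_max_left (t - s - min δ' δ'') α).trans_lt hσI'.1
      have b2 := (le_max_right (t - s - min δ' δ'') α).trans_lt hσI'.1
      have b3 := hσI'.2.trans_le (min_le_left (t - s + min δ' δ'') β)
      have b4 := hσI'.2.trans_le (min_le_right (t - s + min δ' δ'') β)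
      have c1 : |s + σ - t| < min δ' δ'' := by
        rw [abs_lt]
        constructor <;> linarith
      have c2 : |s + σ' - t| < min δ' δ'' := by
        rw [abs_lt]
        constructor <;> linarith
      have m1 : s + σ ∈ {t | t - s ∈ D} := by
        change s + σ - s ∈ D
        rw [add_sub_cancel_left]
        exact hin σ hσ ⟨a2, a4⟩
      have m2 : s + σ' ∈ {t | t - s ∈ D} := by
        change s + σ' - s ∈ D
        rw [add_sub_cancel_left]
        exact hin σ' hσ' ⟨b2, b4⟩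
      have hR := hrep (s + σ) m1 (s + σ') m2 (c1.trans_le (min_le_left _ _))
        (c2.trans_le (min_le_left _ _)) (by linarith)
      exact h4 s σ σ' (c1.trans_le (min_le_right _ _)) (c2.trans_le (min_le_right _ _)) hlt hR
  have hR : Rep F G x (4 * M) (s + 0) (s + (s' - s)) :=
    h2 s 0 (s' - s) (lt_of_lt_of_le (hnear 0 (le_refl 0) (by linarith)) d2)
      (lt_of_lt_of_le (hnear (s' - s) (by linarith) (le_refl _)) d2) (by linarith) hJ
  have e0 : s + 0 = s := add_zero s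
  have e1 : s + (s' - s) = s' := by ring
  rw [e0, e1] at hR
  obtain ⟨v, r, hv, hrc, hr0, hr1, hrb, hre, hrs⟩ := hR
  refine ⟨v, r, hv, hrc, hr0, hr1, ?_, hre, hrs⟩
  intro t ht
  have g1 := hrb t ht
  have g2 := (h3' s (lt_of_lt_of_le hs d3)).2.2.2
  have g3 : 4 * M * (s' - s) ≤ κ / 2 := by
    have g4 : s' - s ≤ 2 * δ := by linarith [hs1.1, hs2.2]
    have g5 : δ * (16 * M) ≤ κ := by
      rw [le_div_iff₀ (by positivity)] at dκ
      exact dκ
    have g6 : 4 * M * (s' - s) ≤ 4 * M * (2 * δ) := mul_le_mul_of_nonneg_left g4 (by positivity)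
    linarith
  calc ‖r t - x t₀‖ = ‖(r t - x s) + (x s - x t₀)‖ := by rw [sub_add_sub_cancel]
    _ ≤ ‖r t - x s‖ + ‖x s - x t₀‖ := norm_add_le _ _
    _ ≤ κ := by linarith

end Pool.Agent.Lib.MP_28b8de_an.KK
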