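import Pool.Agent.Lib.MP_28b8de_an.K.KGl
import Pool.Agent.Lib.MP_28b8de_an.K.KInr
import Pool.Agent.Lib.MP_28b8de_an.D.DZ

/-!
MP_28b8de_an, module KSRed.

Reduction of the number of costs (scalar systems).
PROOF.  η z := h₀ (h z): Dn η = 0 near (t₀,x₀), x₀ := (r t₀).1, so η (t,x) = η (t,x₀) near (mean value theorem on a ball).  ζ analytic at t₀ with ζ' = η (t,x₀), ζ t₀ = h₀ ((r t₀).2) (`DD.ode_ex`).
Along the trajectory h₀ ((r t).2) has derivative η (t, (r t).1) = η (t,x₀) near t₀ (ltraj_hd with l = h₀ ∘ snd), so h₀ ((r t).2) = ζ t near t₀.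
Θ (t,(x,y')) := (x, j y' + ζ t • e) : ℝ × (ℝ × Y') → ℝ × Y; fderiv Θ (t,(x,y')) (1,(F, π h)) = (F, j (π h) + ζ' t • e) = (F, h) since ζ' t = h₀ (h (t,x)) near; fderiv Θ (0,(G,0)) = (G,0); r t = Θ (t,((r t).1, π (r t).2)): `DD.lrep_push`.
-/

set_option linter.unusedSectionVars false

namespace Pool.Agent.Lib.MP_28b8de_an.KK

open Filter Topology Set MeasureTheory
open Pool.Agent.Lib.MP_28b8de_an.PT (Adm Perf)
open Pool.Agent.Lib.MP_28b8de_an.TT (Env Sol Jn Tr SmAt Goal dx Dn Gen Lc Lp Lq fX cf)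
open Pool.Agent.Lib.MP_28b8de_an.DD (LTraj LRep Ch)

variable {Y : Type*} [NormedAddCommGroup Y] [NormedSpace ℝ Y] [FiniteDimensional ℝ Y]

/-- a function with vanishing partial derivative does not depend on the second variable -/
private theorem KSRed_const {η : ℝ × ℝ → ℝ} {t₀ x₀ : ℝ} (hη : AnalyticAt ℝ η (t₀, x₀))
    (h1 : ∀ᶠ z in 𝓝 (t₀, x₀), Dn η z = 0) :
    ∀ᶠ z in 𝓝 (t₀, x₀), η z = η (z.1, x₀) := by
  obtain ⟨ρ, hρ, hJ⟩ := Metric.eventually_nhds_iff_ball.1 (hη.eventually_analyticAt.and h1)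
  filter_upwards [Metric.ball_mem_nhds (t₀, x₀) hρ] with z hz
  obtain ⟨t, x⟩ := z
  rw [Metric.mem_ball, Prod.dist_eq] at hz
  have ht : dist t t₀ < ρ := lt_of_le_of_lt (le_max_left _ _) hz
  have hx : dist x x₀ < ρ := lt_of_le_of_lt (le_max_right _ _) hz
  have hmem : ∀ y ∈ Metric.ball x₀ ρ, (t, y) ∈ Metric.ball (t₀, x₀) ρ := by
    intro y hy
    rw [Metric.mem_ball, Prod.dist_eq]
    exact max_lt ht (Metric.mem_ball.1 hy)
  have hd : ∀ y ∈ Metric.ball x₀ ρ, HasDerivAt (fun y => η (t, y)) 0 y := by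
    intro y hy
    have h2 := TT.Dn_slice (hJ _ (hmem y hy)).1.differentiableAt
    rw [(hJ _ (hmem y hy)).2] at h2
    exact h2
  exact Metric.isOpen_ball.is_const_of_deriv_eq_zero (convex_ball x₀ ρ).isPreconnected
    (fun y hy => (hd y hy).differentiableAt.differentiableWithinAt) (fun y hy => (hd y hy).deriv)
    (Metric.mem_ball.2 hx) (Metric.mem_ball_self hρ)

theorem sc0_red {Y' : Type*} [NormedAddCommGroup Y'] [NormedSpace ℝ Y'] [FiniteDimensional ℝ Y']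
    {h₀ : Y →L[ℝ] ℝ} (π : Y →L[ℝ] Y') (j : Y' →L[ℝ] Y) (e : Y)
    (hj : ∀ y : Y, y = j (π y) + h₀ y • e) {F G : ℝ × ℝ → ℝ} {h : ℝ × ℝ → Y} {u : ℝ → ℝ}
    (hu : Adm u) {r : ℝ → ℝ × Y} {t₀ : ℝ} (hF : AnalyticAt ℝ F (t₀, (r t₀).1))
    (hG : AnalyticAt ℝ G (t₀, (r t₀).1)) (hh : AnalyticAt ℝ h (t₀, (r t₀).1))
    (hr : LTraj (FS F h) (GS G) u r t₀)
    (h1 : ∀ᶠ z in 𝓝 (t₀, (r t₀).1), Dn (fun z => h₀ (h z)) z = 0)
    (H : LRep (FS F fun z => π (h z)) (GS G) (fun t => ((r t).1, π (r t).2)) t₀) :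
    LRep (FS F h) (GS G) r t₀ := by
  set x₀ : ℝ := (r t₀).1 with hx₀
  have hηa : AnalyticAt ℝ (fun z => h₀ (h z)) (t₀, x₀) := (h₀.analyticAt _).comp hh
  have hη1 := KSRed_const hηa h1
  -- the coordinate `h₀ y` along the trajectory
  obtain ⟨ζ, hζa, hζ0, hζd⟩ := DD.ode_ex (E := ℝ) (H := fun p : ℝ × ℝ => h₀ (h (p.1, x₀)))
    (t₀ := t₀) (y₀ := h₀ (r t₀).2)
    (AnalyticAt.fun_comp (f := fun p : ℝ × ℝ => (p.1, x₀)) (g := fun z => h₀ (h z))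
      (x := (t₀, h₀ (r t₀).2)) hηa (analyticAt_fst.prod analyticAt_const))
  have hxc : ContinuousAt r t₀ := (DD.ltraj_cont hr).self_of_nhds
  have hr1 : Tendsto (fun t => (t, (r t).1)) (𝓝 t₀) (𝓝 (t₀, x₀)) :=
    (continuousAt_id.prodMk hxc.fst : ContinuousAt (fun t => (t, (r t).1)) t₀)
  have hpr : AnalyticAt ℝ (fun z : ℝ × (ℝ × Y) => (z.1, z.2.1)) (t₀, r t₀) :=
    analyticAt_fst.prod (analyticAt_fst.comp analyticAt_snd)
  have hFa : AnalyticAt ℝ (FS F h) (t₀, r t₀) :=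
    (AnalyticAt.fun_comp (f := fun z : ℝ × (ℝ × Y) => (z.1, z.2.1)) (g := F) hF hpr).prod
      (AnalyticAt.fun_comp (f := fun z : ℝ × (ℝ × Y) => (z.1, z.2.1)) (g := h) hh hpr)
  have hGa : AnalyticAt ℝ (GS (Y := Y) G) (t₀, r t₀) :=
    (AnalyticAt.fun_comp (f := fun z : ℝ × (ℝ × Y) => (z.1, z.2.1)) (g := G) hG hpr).prod
      analyticAt_const
  have hd1 := DD.ltraj_hd hu hr (h₀.comp (ContinuousLinearMap.snd ℝ ℝ Y)) hFa hGa
    (Eventually.of_forall fun z => by simp [GS])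
  simp only [ContinuousLinearMap.comp_apply, ContinuousLinearMap.coe_snd', FS] at hd1
  have hd : ∀ᶠ t in 𝓝 t₀, HasDerivAt (fun t => h₀ (r t).2 - ζ t) 0 t := by
    filter_upwards [hd1, hr1.eventually hη1, hζd] with t g1 g2 g3
    have g4 := g1.sub g3
    have g5 : h₀ (h (t, (r t).1)) - h₀ (h (t, x₀)) = 0 := by
      rw [sub_eq_zero]
      exact g2
    rw [g5] at g4
    exact g4
  have hcons : ∀ᶠ t in 𝓝 t₀, h₀ (r t).2 = ζ t := by
    obtain ⟨δ, hδ, hJ⟩ := Metric.eventually_nhds_iff_ball.1 hd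
    filter_upwards [Metric.ball_mem_nhds t₀ hδ] with t ht
    have h5 := Metric.isOpen_ball.is_const_of_deriv_eq_zero (convex_ball t₀ δ).isPreconnected
      (fun s hs => (hJ s hs).differentiableAt.differentiableWithinAt)
      (fun s hs => (hJ s hs).deriv) ht (Metric.mem_ball_self hδ)
    have h6 : h₀ (r t).2 - ζ t = h₀ (r t₀).2 - ζ t₀ := h5
    rw [hζ0] at h6
    linarith
  -- the map `Θ`
  let Θ : ℝ × (ℝ × Y') → ℝ × Y := fun w => (w.2.1, j w.2.2 + ζ w.1 • e)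
  have hΘd : ∀ᶠ w in 𝓝 ((t₀, (x₀, π (r t₀).2)) : ℝ × (ℝ × Y')),
      ∀ (τ a : ℝ) (y : Y'), fderiv ℝ Θ w (τ, (a, y)) =
        (a, j y + (τ * h₀ (h (w.1, x₀))) • e) := by
    have g1 : Tendsto (fun w : ℝ × (ℝ × Y') => w.1) (𝓝 (t₀, (x₀, π (r t₀).2))) (𝓝 t₀) :=
      continuous_fst.tendsto _
    filter_upwards [g1.eventually hζd] with w hw τ a y
    have g2 : HasFDerivAt (fun w : ℝ × (ℝ × Y') => w.2.1)
        ((ContinuousLinearMap.fst ℝ ℝ Y').comp (ContinuousLinearMap.snd ℝ ℝ (ℝ × Y'))) w :=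
      ((ContinuousLinearMap.fst ℝ ℝ Y').comp
        (ContinuousLinearMap.snd ℝ ℝ (ℝ × Y'))).hasFDerivAt
    have g3 : HasFDerivAt (fun w : ℝ × (ℝ × Y') => w.2.2)
        ((ContinuousLinearMap.snd ℝ ℝ Y').comp (ContinuousLinearMap.snd ℝ ℝ (ℝ × Y'))) w :=
      ((ContinuousLinearMap.snd ℝ ℝ Y').comp
        (ContinuousLinearMap.snd ℝ ℝ (ℝ × Y'))).hasFDerivAt
    have g5 : HasFDerivAt (fun w : ℝ × (ℝ × Y') => w.1)
        (ContinuousLinearMap.fst ℝ ℝ (ℝ × Y')) w :=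
      (ContinuousLinearMap.fst ℝ ℝ (ℝ × Y')).hasFDerivAt
    have g6 := hw.comp_hasFDerivAt w g5
    have g7 := g6.smul_const e
    have g8 := g2.prodMk ((j.hasFDerivAt.comp w g3).add g7)
    have g9 : HasFDerivAt Θ _ w := g8
    rw [g9.fderiv]
    simp [mul_comm]
  have hw1 : AnalyticAt ℝ (fun w : ℝ × (ℝ × Y') => w.2.1) (t₀, (x₀, π (r t₀).2)) :=
    analyticAt_fst.comp analyticAt_snd
  have hΘa : AnalyticAt ℝ Θ (t₀, (x₀, π (r t₀).2)) := by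
    have g2 : AnalyticAt ℝ (fun w : ℝ × (ℝ × Y') => w.2.2) (t₀, (x₀, π (r t₀).2)) :=
      analyticAt_snd.comp analyticAt_snd
    have g3 : AnalyticAt ℝ (fun w : ℝ × (ℝ × Y') => ζ w.1) (t₀, (x₀, π (r t₀).2)) :=
      AnalyticAt.fun_comp (f := fun w : ℝ × (ℝ × Y') => w.1) (g := ζ) hζa analyticAt_fst
    have g6 : AnalyticAt ℝ (fun w : ℝ × (ℝ × Y') => j w.2.2) (t₀, (x₀, π (r t₀).2)) :=
      (j.analyticAt _).comp g2
    exact hw1.prod (g6.add (g3.smul analyticAt_const))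
  -- the fields
  have hpr' : AnalyticAt ℝ (fun w : ℝ × (ℝ × Y') => (w.1, w.2.1)) (t₀, (x₀, π (r t₀).2)) :=
    analyticAt_fst.prod hw1
  have hFpa : AnalyticAt ℝ (FS F fun z => π (h z)) (t₀, (x₀, π (r t₀).2)) :=
    (AnalyticAt.fun_comp (f := fun w : ℝ × (ℝ × Y') => (w.1, w.2.1)) (g := F) hF hpr').prod
      ((π.analyticAt _).comp
        (AnalyticAt.fun_comp (f := fun w : ℝ × (ℝ × Y') => (w.1, w.2.1)) (g := h) hh hpr'))
  have hGpa : AnalyticAt ℝ (GS (Y := Y') G) (t₀, (x₀, π (r t₀).2)) :=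
    (AnalyticAt.fun_comp (f := fun w : ℝ × (ℝ × Y') => (w.1, w.2.1)) (g := G) hG hpr').prod
      analyticAt_const
  refine DD.lrep_push (F := FS F h) (G := GS G) (Fp := FS F fun z => π (h z)) (Gp := GS G)
    (Θ := Θ) (r := fun t => ((r t).1, π (r t).2)) (x := r) hFpa hGpa hΘa ?_ ?_ ?_ H
  · have g1 : Tendsto (fun w : ℝ × (ℝ × Y') => (w.1, w.2.1))
        (𝓝 (t₀, (x₀, π (r t₀).2))) (𝓝 (t₀, x₀)) := hpr'.continuousAt.tendsto
    filter_upwards [hΘd, g1.eventually hη1] with w hw g2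
    have g3 : ((1 : ℝ), FS F (fun z => π (h z)) w) =
        (1, (F (w.1, w.2.1), π (h (w.1, w.2.1)))) := rfl
    rw [g3, hw]
    have g4 : (1 : ℝ) * h₀ (h (w.1, x₀)) = h₀ (h (w.1, w.2.1)) := by
      rw [one_mul]
      exact g2.symm
    rw [g4, ← hj]
    rfl
  · filter_upwards [hΘd] with w hw
    have g3 : ((0 : ℝ), (GS G w : ℝ × Y')) = (0, (G (w.1, w.2.1), 0)) := rfl
    rw [g3, hw]
    simp [GS, Θ]
  · filter_upwards [hcons] with t ht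
    show r t = ((r t).1, j (π (r t).2) + ζ t • e)
    rw [← ht, ← hj]

end Pool.Agent.Lib.MP_28b8de_an.KK
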