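import Pool.Agent.Lib.MP_28b8de_an.K.KSCore
import Pool.Agent.Lib.MP_28b8de_an.K.KCxSd
import Pool.Agent.Lib.MP_28b8de_an.K.KSRed
import Pool.Agent.Lib.MP_28b8de_an.K.KMain

/-!
MP_28b8de_an, module KSC0.

Scalar systems with any number of costs.
-/

set_option linter.unusedSectionVars false

namespace Pool.Agent.Lib.MP_28b8de_an.KK

open Filter Topology Set MeasureTheory
open Pool.Agent.Lib.MP_28b8de_an.PT (Adm Perf)
open Pool.Agent.Lib.MP_28b8de_an.TT (Env Sol Jn Tr SmAt Goal dx Dn Gen Lc Lp Lq fX cf)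
open Pool.Agent.Lib.MP_28b8de_an.DD (LTraj LRep Ch)


universe v

theorem h₀_zero {Y : Type*} [NormedAddCommGroup Y] [NormedSpace ℝ Y] [FiniteDimensional ℝ Y]
    (hY : Module.finrank ℝ Y = 0) (h₀ : Y →L[ℝ] ℝ) : h₀ = 0 := by
  have hs : Subsingleton Y := Module.finrank_zero_iff.1 hY
  ext y
  rw [Subsingleton.elim y 0, map_zero, zero_apply]

/-- the induction step -/
theorem sc0_step {Y : Type v} [NormedAddCommGroup Y] [NormedSpace ℝ Y] [FiniteDimensional ℝ Y]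
    {F G : ℝ × ℝ → ℝ} {h : ℝ × ℝ → Y} {u : ℝ → ℝ} {r : ℝ → ℝ × Y} {t₀ : ℝ} (ht₀ : 0 < t₀)
    (hu : Adm u) (hF : AnalyticAt ℝ F (t₀, (r t₀).1)) (hG : AnalyticAt ℝ G (t₀, (r t₀).1))
    (hh : AnalyticAt ℝ h (t₀, (r t₀).1)) (hG0 : G (t₀, (r t₀).1) ≠ 0)
    (hr : LTraj (FS F h) (GS G) u r t₀)
    (IH : ∀ h₀ : Y →L[ℝ] ℝ, h₀ ≠ 0 → ∃ (Y' : Type v) (_ : NormedAddCommGroup Y')
      (_ : NormedSpace ℝ Y') (_ : FiniteDimensional ℝ Y') (π : Y →L[ℝ] Y') (j : Y' →L[ℝ] Y) (e : Y),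
      (∀ y : Y, y = j (π y) + h₀ y • e) ∧
      ∀ (h' : ℝ × ℝ → Y') (r' : ℝ → ℝ × Y') (t₂ : ℝ), 0 < t₂ → AnalyticAt ℝ F (t₂, (r' t₂).1) →
        AnalyticAt ℝ G (t₂, (r' t₂).1) → AnalyticAt ℝ h' (t₂, (r' t₂).1) →
        G (t₂, (r' t₂).1) ≠ 0 → LTraj (FS F h') (GS G) u r' t₂ → LRep (FS F h') (GS G) r' t₂) :
    LRep (FS F h) (GS G) r t₀ := by
  have hproj : AnalyticAt ℝ (fun z : ℝ × (ℝ × Y) => ((z.1, z.2.1) : ℝ × ℝ)) (t₀, r t₀) :=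
    analyticAt_fst.prod (analyticAt_fst.fun_comp analyticAt_snd)
  have hFS : ∀ t, AnalyticAt ℝ F (t, (r t).1) → AnalyticAt ℝ h (t, (r t).1) →
      AnalyticAt ℝ (FS F h) (t, r t) := by
    intro t h1 h2
    have hp : AnalyticAt ℝ (fun z : ℝ × (ℝ × Y) => ((z.1, z.2.1) : ℝ × ℝ)) (t, r t) :=
      analyticAt_fst.prod (analyticAt_fst.fun_comp analyticAt_snd)
    exact (AnalyticAt.fun_comp (g := F) (f := fun z : ℝ × (ℝ × Y) => ((z.1, z.2.1) : ℝ × ℝ)) h1 hp).prod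
      (AnalyticAt.fun_comp (g := h) (f := fun z : ℝ × (ℝ × Y) => ((z.1, z.2.1) : ℝ × ℝ)) h2 hp)
  have hGS : ∀ t, AnalyticAt ℝ G (t, (r t).1) → AnalyticAt ℝ (GS (Y := Y) G) (t, r t) := by
    intro t h1
    have hp : AnalyticAt ℝ (fun z : ℝ × (ℝ × Y) => ((z.1, z.2.1) : ℝ × ℝ)) (t, r t) :=
      analyticAt_fst.prod (analyticAt_fst.fun_comp analyticAt_snd)
    exact (AnalyticAt.fun_comp (g := G) (f := fun z : ℝ × (ℝ × Y) => ((z.1, z.2.1) : ℝ × ℝ)) h1 hp).prod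
      analyticAt_const
  have hc0 : ContinuousAt (fun t => ((t, (r t).1) : ℝ × ℝ)) t₀ :=
    continuousAt_id.prodMk (continuous_fst.continuousAt.comp (DD.ltraj_cont hr).self_of_nhds)
  have hev : ∀ᶠ t in 𝓝 t₀, AnalyticAt ℝ F (t, (r t).1) ∧ AnalyticAt ℝ G (t, (r t).1) ∧
      AnalyticAt ℝ h (t, (r t).1) ∧ G (t, (r t).1) ≠ 0 := by
    have h1 := hc0.eventually hF.eventually_analyticAt
    have h2 := hc0.eventually hG.eventually_analyticAt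
    have h3 := hc0.eventually hh.eventually_analyticAt
    have h4 := hc0.eventually (hG.continuousAt.eventually_ne hG0)
    filter_upwards [h1, h2, h3, h4] with t a1 a2 a3 a4
    exact ⟨a1, a2, a3, a4⟩
  obtain ⟨ρ, hρ, hball⟩ := Metric.eventually_nhds_iff_ball.1 hev
  refine lrep_main hu ht₀ (hFS t₀ hF hh) (hGS t₀ hG) hr hρ ?_
  intro a b p C ha hb hx
  rw [abs_lt] at ha hb
  have hin : ∀ t ∈ Ioo a b, AnalyticAt ℝ F (t, (r t).1) ∧ AnalyticAt ℝ G (t, (r t).1) ∧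
      AnalyticAt ℝ h (t, (r t).1) ∧ G (t, (r t).1) ≠ 0 := fun t ht => hball t (by
    rw [Metric.mem_ball, Real.dist_eq, abs_lt]
    exact ⟨by linarith [ht.1], by linarith [ht.2]⟩)
  obtain ⟨h₀, hh₀, hsd, hϕ⟩ := cx_sd hx (fun t ht => (hin t ht).1) (fun t ht => (hin t ht).2.1)
    (fun t ht => (hin t ht).2.2.1) (fun t ht => (hin t ht).2.2.2)
  obtain ⟨t₁, ht₁⟩ := hx.perf.ne
  obtain ⟨t₂, ht₂, ht₂ab, halt⟩ := sd_core hsd hx.perf ht₁ (hx.sub ht₁) hϕ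
  obtain ⟨i1, i2, i3, i4⟩ := hin t₂ ht₂ab
  have hpos : 0 < t₂ := lt_of_le_of_lt hx.a0 ht₂ab.1
  refine lgoal_of_lrep ht₂ (hFS t₂ i1 i3) (hGS t₂ i2) ?_
  have htr := hx.tr t₂ ht₂ab
  rcases halt with ⟨ξ, hξ, he⟩ | hD
  · exact smooth_lrep hu htr (fs_smooth hu i1 i2 i3 htr hξ he)
  · obtain ⟨Y', i5, i6, i7, π, j, e, hj, hIH⟩ := IH h₀ hh₀
    refine sc0_red π j e hj hu i1 i2 i3 htr hD ?_
    have hπ : AnalyticAt ℝ (fun z => π (h z)) (t₂, (r t₂).1) :=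
      AnalyticAt.fun_comp (g := fun y => π y) (f := h) (π.analyticAt _) i3
    refine hIH _ _ t₂ hpos i1 i2 hπ i4 ?_
    have hl := ltraj_lin (F' := FS F fun z => π (h z)) (G' := GS G) hu (hFS t₂ i1 i3) (hGS t₂ i2) htr
      ((ContinuousLinearMap.fst ℝ ℝ Y).prod (π.comp (ContinuousLinearMap.snd ℝ ℝ Y)))
      (fun z => rfl) (fun z => by
        show ((G (z.1, z.2.1), π 0) : ℝ × Y') = (G (z.1, z.2.1), 0)
        rw [map_zero])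
    exact hl


theorem sc0_lrep (n : ℕ) : ∀ (Y : Type v) [NormedAddCommGroup Y] [NormedSpace ℝ Y]
    [FiniteDimensional ℝ Y], Module.finrank ℝ Y = n → ∀ (F G : ℝ × ℝ → ℝ) (h : ℝ × ℝ → Y)
    (u : ℝ → ℝ) (r : ℝ → ℝ × Y) (t₀ : ℝ), 0 < t₀ → Adm u → AnalyticAt ℝ F (t₀, (r t₀).1) →
    AnalyticAt ℝ G (t₀, (r t₀).1) → AnalyticAt ℝ h (t₀, (r t₀).1) → G (t₀, (r t₀).1) ≠ 0 →
    LTraj (FS F h) (GS G) u r t₀ → LRep (FS F h) (GS G) r t₀ := by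
  induction n with
  | zero =>
    intro Y _ _ _ hY F G h u r t₀ ht₀ hu hF hG hh hG0 hr
    exact sc0_step ht₀ hu hF hG hh hG0 hr fun h₀ hh₀ => absurd (h₀_zero hY h₀) hh₀
  | succ n ih =>
    intro Y _ _ _ hY F G h u r t₀ ht₀ hu hF hG hh hG0 hr
    refine sc0_step ht₀ hu hF hG hh hG0 hr fun h₀ hh₀ => ?_
    obtain ⟨π, e, hπ, hfr⟩ := ker_split hh₀
    refine ⟨LinearMap.ker (h₀ : Y →ₗ[ℝ] ℝ), inferInstance, inferInstance, inferInstance, π,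
      (LinearMap.ker (h₀ : Y →ₗ[ℝ] ℝ)).subtypeL, e, hπ, ?_⟩
    intro h' r' t₂ ht₂ hF2 hG2 hh2 hG02 hr2
    exact ih _ (by omega) F G h' u r' t₂ ht₂ hu hF2 hG2 hh2 hG02 hr2

end Pool.Agent.Lib.MP_28b8de_an.KK
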