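import Pool.Agent.Lib.MP_28b8de_an.K.KTime1
import Pool.Agent.Lib.MP_28b8de_an.K.KSC0

/-!
MP_28b8de_an, module KTime2.

Points where the first coordinate moves.
PROOF.  q₀ := (r t₀).1, s₀ := q₀.1, ε := 1 if f q₀ > 0, -1 otherwise: ε f > 0 near q₀.  V⁺ := ((ℝ × ℝ) × Y) × ℝ, z t := (r t, t), P (r,t) := (((f,k) (r.1), h (r.1)), 1), R := (((0,1),0),0), ϑ (r,t) := ε f (r.1),
S := an open ball (product) about z t₀ on which f, k, h are analytic and ϑ > 0.  θ t := 1 + ε ((r t).1.1 - s₀): θ' = ϑ (z), θ t₀ = 1.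
Forward: on a closed interval [a,b] ∋ t₀ (interior) inside LTraj's interval with z ∈ S: time_change: y = (((ŝ,x̂),ŷ),t̂), w.  ŝ σ = s₀ + ε (σ-1) (since (r t).1.1 = s₀ + ε (θ t - 1)), t̂ (θ t) = t.
r̂ σ := (x̂ σ, (ŷ σ, t̂ σ)) : ℝ × (Y × ℝ); with Q (σ,x) := (s₀ + ε (σ-1), x): F̂ := k(Q)/(ε f(Q)), Ĝ := 1/(ε f(Q)), ĥ := ((ε f(Q))⁻¹ • h(Q), (ε f(Q))⁻¹): analytic at (1, x̂ 1) = (1, q₀.2), Ĝ ≠ 0; LTraj (FS F̂ ĥ) (GS Ĝ) w r̂ 1.
`sc0_lrep _ (Y × ℝ) rfl`: LRep at 1.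
Backward: κ given; ρ small with the ball of radius ρ in S etc.; LRep with a small κ' gives δ'; δ such that |θ t - 1| < δ' for |t - t₀| < δ.  For s < s' near t₀: σ₁ := θ s < σ₂ := θ s' (θ increasing), replacement (v̂, ρ̂) on [σ₁,σ₂], ρ̂ = (X̂,(Ŷ,T̂)), with the end points
of r̂: T̂ σ₁ = s, T̂ σ₂ = s'.  z̃ σ := (((s₀ + ε (σ-1), X̂), Ŷ), T̂) satisfies z̃' = (ϑ⁻¹ • P) + v̂ (ϑ⁻¹ • R), and T̂' = ϑ⁻¹.  time_change with P̃ = ϑ⁻¹ • P, R̃ = ϑ⁻¹ • R, ϑ̃ = ϑ⁻¹, θ̃ = T̂: ỹ on [s,s'] with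
ỹ' = ϑ • (ϑ⁻¹ • P + w̃ ϑ⁻¹ • R) = P + w̃ R, ỹ (T̂ σ) = z̃ σ.  r'' := first component of ỹ: solution of FB f k h, GB on [s,s'], end points r s, r s'.  Tube: z̃ is close to z t₀.  Bad set of r'' ⊆ T̂ (bad set of ρ̂) (every t ∈ (s,s') is T̂ σ, σ ∈ (σ₁,σ₂)), countable.
-/

set_option linter.unusedSectionVars false

namespace Pool.Agent.Lib.MP_28b8de_an.KK

open Filter Topology Set MeasureTheory
open Pool.Agent.Lib.MP_28b8de_an.PT (Adm Perf)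
open Pool.Agent.Lib.MP_28b8de_an.TT (Env Sol Jn Tr SmAt Goal dx Dn Gen Lc Lp Lq fX cf)
open Pool.Agent.Lib.MP_28b8de_an.DD (LTraj LRep Ch)

variable {Y : Type*} [NormedAddCommGroup Y] [NormedSpace ℝ Y] [FiniteDimensional ℝ Y]

/-- the drift of the extended system -/
private def KTime2_P (f k : ℝ × ℝ → ℝ) (h : ℝ × ℝ → Y) (w : ((ℝ × ℝ) × Y) × ℝ) :
    ((ℝ × ℝ) × Y) × ℝ := (((f w.1.1, k w.1.1), h w.1.1), 1)

private def KTime2_R (_ : ((ℝ × ℝ) × Y) × ℝ) : ((ℝ × ℝ) × Y) × ℝ := (((0, 1), 0), 0)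

/-- the speed -/
private def KTime2_v (ε : ℝ) (f : ℝ × ℝ → ℝ) (w : ((ℝ × ℝ) × Y) × ℝ) : ℝ := ε * f w.1.1

private def KTime2_Q (ε s₀ : ℝ) (p : ℝ × ℝ) : ℝ × ℝ := (s₀ + ε * (p.1 - 1), p.2)

private noncomputable def KTime2_F (ε s₀ : ℝ) (f k : ℝ × ℝ → ℝ) (p : ℝ × ℝ) : ℝ :=
  (ε * f (KTime2_Q ε s₀ p))⁻¹ * k (KTime2_Q ε s₀ p)

private noncomputable def KTime2_G (ε s₀ : ℝ) (f : ℝ × ℝ → ℝ) (p : ℝ × ℝ) : ℝ :=
  (ε * f (KTime2_Q ε s₀ p))⁻¹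

private noncomputable def KTime2_h (ε s₀ : ℝ) (f : ℝ × ℝ → ℝ) (h : ℝ × ℝ → Y) (p : ℝ × ℝ) : Y × ℝ :=
  ((ε * f (KTime2_Q ε s₀ p))⁻¹ • h (KTime2_Q ε s₀ p), (ε * f (KTime2_Q ε s₀ p))⁻¹)

private def KTime2_L (Y : Type*) [NormedAddCommGroup Y] [NormedSpace ℝ Y] :
    (((ℝ × ℝ) × Y) × ℝ) →L[ℝ] (ℝ × (Y × ℝ)) :=
  ((ContinuousLinearMap.snd ℝ ℝ ℝ).comp ((ContinuousLinearMap.fst ℝ (ℝ × ℝ) Y).comp
    (ContinuousLinearMap.fst ℝ ((ℝ × ℝ) × Y) ℝ))).prod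
  (((ContinuousLinearMap.snd ℝ (ℝ × ℝ) Y).comp (ContinuousLinearMap.fst ℝ ((ℝ × ℝ) × Y) ℝ)).prod
    (ContinuousLinearMap.snd ℝ ((ℝ × ℝ) × Y) ℝ))

private theorem KTime2_L_apply (w : ((ℝ × ℝ) × Y) × ℝ) :
    KTime2_L Y w = (w.1.1.2, (w.1.2, w.2)) := rfl

private def KTime2_M (Y : Type*) [NormedAddCommGroup Y] [NormedSpace ℝ Y] :
    (ℝ × (Y × ℝ)) →L[ℝ] (((ℝ × ℝ) × Y) × ℝ) :=
  ((((0 : (ℝ × (Y × ℝ)) →L[ℝ] ℝ).prod (ContinuousLinearMap.fst ℝ ℝ (Y × ℝ))).prod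
    ((ContinuousLinearMap.fst ℝ Y ℝ).comp (ContinuousLinearMap.snd ℝ ℝ (Y × ℝ))))).prod
    ((ContinuousLinearMap.snd ℝ Y ℝ).comp (ContinuousLinearMap.snd ℝ ℝ (Y × ℝ)))

private theorem KTime2_M_apply (w : ℝ × (Y × ℝ)) :
    KTime2_M Y w = (((0, w.1), w.2.1), w.2.2) := rfl

private theorem KTime2_ii {V : Type*} [NormedAddCommGroup V] [NormedSpace ℝ V] {A B : ℝ → V}
    {v : ℝ → ℝ} {a b : ℝ} (hab : a ≤ b) (hv : Adm v) (hA : ContinuousOn A (Icc a b))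
    (hB : ContinuousOn B (Icc a b)) :
    IntervalIntegrable (fun τ => A τ + v τ • B τ) volume a b := by
  rw [← uIcc_of_le hab] at hA hB
  have h1 : IntervalIntegrable A volume a b := hA.intervalIntegrable
  have h2 : IntervalIntegrable B volume a b := hB.intervalIntegrable
  refine h1.add (h2.mono_fun ?_ ?_)
  · exact hv.1.aestronglyMeasurable.smul h2.def'.aestronglyMeasurable
  · refine Eventually.of_forall fun τ => ?_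
    simp only
    rw [norm_smul]
    exact mul_le_of_le_one_left (norm_nonneg _) (by rw [Real.norm_eq_abs]; exact hv.2 τ)

private theorem KTime2_comp {E : Type*} [NormedAddCommGroup E] [NormedSpace ℝ E] [CompleteSpace E]
    {g : ℝ × ℝ → E} {q₀ : ℝ × ℝ} {ρ : ℝ} (hg : ∀ q ∈ Metric.ball q₀ ρ, AnalyticAt ℝ g q) :
    ContDiffOn ℝ (⊤ : ℕ∞) (fun w : ((ℝ × ℝ) × Y) × ℝ => g w.1.1)
      {w : ((ℝ × ℝ) × Y) × ℝ | w.1.1 ∈ Metric.ball q₀ ρ} := by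
  intro w hw
  have h1 : ContDiffAt ℝ (⊤ : ℕ∞) g w.1.1 := (hg w.1.1 hw).contDiffAt
  have h2 : ContDiffAt ℝ (⊤ : ℕ∞) (fun w : ((ℝ × ℝ) × Y) × ℝ => w.1.1) w :=
    (contDiff_fst.comp contDiff_fst).contDiffAt
  exact (ContDiffAt.comp (g := g) (f := fun w : ((ℝ × ℝ) × Y) × ℝ => w.1.1) w h1 h2).contDiffWithinAt

private theorem KTime2_Pc {f k : ℝ × ℝ → ℝ} {h : ℝ × ℝ → Y} {q₀ : ℝ × ℝ} {ρ : ℝ}
    (hf : ∀ q ∈ Metric.ball q₀ ρ, AnalyticAt ℝ f q) (hk : ∀ q ∈ Metric.ball q₀ ρ, AnalyticAt ℝ k q)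
    (hh : ∀ q ∈ Metric.ball q₀ ρ, AnalyticAt ℝ h q) :
    ContDiffOn ℝ (⊤ : ℕ∞) (KTime2_P f k h) {w : ((ℝ × ℝ) × Y) × ℝ | w.1.1 ∈ Metric.ball q₀ ρ} :=
  (((KTime2_comp hf).prodMk (KTime2_comp hk)).prodMk (KTime2_comp hh)).prodMk contDiffOn_const

private theorem KTime2_Rc (S : Set (((ℝ × ℝ) × Y) × ℝ)) :
    ContDiffOn ℝ (⊤ : ℕ∞) (KTime2_R (Y := Y)) S := contDiffOn_const

private theorem KTime2_vc {f : ℝ × ℝ → ℝ} {q₀ : ℝ × ℝ} {ρ ε : ℝ}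
    (hf : ∀ q ∈ Metric.ball q₀ ρ, AnalyticAt ℝ f q) :
    ContDiffOn ℝ (⊤ : ℕ∞) (KTime2_v (Y := Y) ε f)
      {w : ((ℝ × ℝ) × Y) × ℝ | w.1.1 ∈ Metric.ball q₀ ρ} :=
  contDiffOn_const.mul (KTime2_comp hf)

private theorem KTime2_open (q₀ : ℝ × ℝ) (ρ : ℝ) :
    IsOpen {w : ((ℝ × ℝ) × Y) × ℝ | w.1.1 ∈ Metric.ball q₀ ρ} :=
  Metric.isOpen_ball.preimage (continuous_fst.comp continuous_fst)

/-- the hypotheses on the ball -/
private def KTime2_H (ε ρ : ℝ) (q₀ : ℝ × ℝ) (f k : ℝ × ℝ → ℝ) (h : ℝ × ℝ → Y) : Prop :=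
  ∀ q ∈ Metric.ball q₀ ρ, AnalyticAt ℝ f q ∧ AnalyticAt ℝ k q ∧ AnalyticAt ℝ h q ∧ 0 < ε * f q

private theorem KTime2_Qa (ε s₀ : ℝ) (p : ℝ × ℝ) : AnalyticAt ℝ (KTime2_Q ε s₀) p :=
  (analyticAt_const.add (analyticAt_const.mul (analyticAt_fst.sub analyticAt_const))).prod analyticAt_snd

/-- the analytic fields of the scalar system -/
private theorem KTime2_an {ε ρ s₀ : ℝ} {q₀ : ℝ × ℝ} {f k : ℝ × ℝ → ℝ} {h : ℝ × ℝ → Y}
    (H : KTime2_H ε ρ q₀ f k h) {p : ℝ × ℝ} (hp : KTime2_Q ε s₀ p ∈ Metric.ball q₀ ρ) :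
    AnalyticAt ℝ (KTime2_F ε s₀ f k) p ∧ AnalyticAt ℝ (KTime2_G ε s₀ f) p ∧
      AnalyticAt ℝ (KTime2_h ε s₀ f h) p := by
  obtain ⟨h1, h2, h3, h4⟩ := H _ hp
  have hQ := KTime2_Qa ε s₀ p
  have f1 : AnalyticAt ℝ (fun p => f (KTime2_Q ε s₀ p)) p :=
    AnalyticAt.fun_comp (g := f) (f := KTime2_Q ε s₀) h1 hQ
  have k1 : AnalyticAt ℝ (fun p => k (KTime2_Q ε s₀ p)) p :=
    AnalyticAt.fun_comp (g := k) (f := KTime2_Q ε s₀) h2 hQ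
  have h5 : AnalyticAt ℝ (fun p => h (KTime2_Q ε s₀ p)) p :=
    AnalyticAt.fun_comp (g := h) (f := KTime2_Q ε s₀) h3 hQ
  have g1 : AnalyticAt ℝ (fun p => (ε * f (KTime2_Q ε s₀ p))⁻¹) p :=
    (analyticAt_const.mul f1).inv h4.ne'
  exact ⟨g1.mul k1, g1, (g1.smul h5).prod g1⟩

/-- the scalar field as a linear image -/
private theorem KTime2_pt (ε s₀ : ℝ) (f k : ℝ × ℝ → ℝ) (h : ℝ × ℝ → Y) (σ v : ℝ)
    (y : ((ℝ × ℝ) × Y) × ℝ) (hy : y.1.1.1 = s₀ + ε * (σ - 1)) :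
    KTime2_L Y ((KTime2_v ε f y)⁻¹ • (KTime2_P f k h y + v • KTime2_R y)) =
      FS (KTime2_F ε s₀ f k) (KTime2_h ε s₀ f h) (σ, KTime2_L Y y) +
        v • GS (KTime2_G ε s₀ f) (σ, KTime2_L Y y) := by
  have hQ : KTime2_Q ε s₀ (σ, (KTime2_L Y y).1) = y.1.1 := by
    rw [KTime2_L_apply]
    exact Prod.ext hy.symm rfl
  rw [KTime2_L_apply]
  unfold FS GS KTime2_F KTime2_h KTime2_G
  simp only [hQ]
  unfold KTime2_v KTime2_P KTime2_R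
  refine Prod.ext ?_ (Prod.ext ?_ ?_)
  · simp only [Prod.fst_add, Prod.snd_add, Prod.smul_fst, Prod.smul_snd, smul_eq_mul]
    ring
  · simp only [Prod.fst_add, Prod.snd_add, Prod.smul_fst, Prod.smul_snd, smul_zero, add_zero]
  · simp only [Prod.fst_add, Prod.snd_add, Prod.smul_fst, Prod.smul_snd, smul_zero, add_zero,
      smul_eq_mul, mul_zero, add_zero, mul_one]

/-- the extended system as an affine image of the scalar system -/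
private theorem KTime2_pt2 {ε s₀ : ℝ} (hε : ε * ε = 1) (f k : ℝ × ℝ → ℝ) (h : ℝ × ℝ → Y) (σ v : ℝ)
    (x : ℝ × (Y × ℝ)) (y : ((ℝ × ℝ) × Y) × ℝ) (hy : y = KTime2_M Y x + (((s₀ + ε * (σ - 1), 0), 0), 0))
    (hf : ε * f y.1.1 ≠ 0) :
    (KTime2_v ε f y)⁻¹ • KTime2_P f k h y + v • ((KTime2_v ε f y)⁻¹ • KTime2_R y) =
      KTime2_M Y (FS (KTime2_F ε s₀ f k) (KTime2_h ε s₀ f h) (σ, x) +
        v • GS (KTime2_G ε s₀ f) (σ, x)) + (((ε, 0), 0), 0) := by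
  have hQ : KTime2_Q ε s₀ (σ, x.1) = y.1.1 := by
    rw [hy, KTime2_M_apply]
    refine Prod.ext ?_ ?_
    · show s₀ + ε * (σ - 1) = 0 + (s₀ + ε * (σ - 1))
      rw [zero_add]
    · show x.1 = x.1 + 0
      rw [add_zero]
  rw [KTime2_M_apply]
  unfold FS GS KTime2_F KTime2_h KTime2_G
  simp only [hQ]
  unfold KTime2_v KTime2_P KTime2_R
  have hf1 : (ε * f y.1.1)⁻¹ * f y.1.1 = ε := by
    have h1 : f y.1.1 ≠ 0 := right_ne_zero_of_mul hf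
    have h2 : ε ≠ 0 := left_ne_zero_of_mul hf
    field_simp
    nlinarith [hε]
  refine Prod.ext (Prod.ext (Prod.ext ?_ ?_) ?_) ?_
  · simp only [Prod.fst_add, Prod.smul_fst, smul_eq_mul, hf1]
    ring
  · simp only [Prod.fst_add, Prod.snd_add, Prod.smul_fst, Prod.smul_snd, smul_eq_mul]
    ring
  · simp only [Prod.fst_add, Prod.snd_add, Prod.smul_fst, Prod.smul_snd, smul_zero, add_zero]
  · show (ε * f y.1.1)⁻¹ * 1 + v * ((ε * f y.1.1)⁻¹ * 0) = (ε * f y.1.1)⁻¹ + v * 0 + 0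
    ring

/-- the forward change of time -/
private theorem KTime2_fwd {f k : ℝ × ℝ → ℝ} {h : ℝ × ℝ → Y} {u : ℝ → ℝ} (hu : Adm u)
    {r : ℝ → (ℝ × ℝ) × Y} {t₀ : ℝ} {ε ρ : ℝ} (hε : ε * ε = 1) (hρ : 0 < ρ)
    (H : KTime2_H ε ρ (r t₀).1 f k h) (hr : LTraj (FB f k h) GB u r t₀) :
    ∃ η > 0, ContinuousOn r (Icc (t₀ - η) (t₀ + η)) ∧
      (∀ s ∈ Icc (t₀ - η) (t₀ + η), ∀ t ∈ Icc (t₀ - η) (t₀ + η), s < t →
        ε * (r s).1.1 < ε * (r t).1.1) ∧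
      ∃ (w : ℝ → ℝ) (R : ℝ → ℝ × (Y × ℝ)), Adm w ∧
      (∀ t ∈ Icc (t₀ - η) (t₀ + η), R (1 + ε * ((r t).1.1 - (r t₀).1.1)) = ((r t).1.2, ((r t).2, t))) ∧
      LTraj (FS (KTime2_F ε (r t₀).1.1 f k) (KTime2_h ε (r t₀).1.1 f h))
        (GS (KTime2_G ε (r t₀).1.1 f)) w R 1 := by
  have : CompleteSpace Y := FiniteDimensional.complete ℝ Y
  obtain ⟨ε₁, hε₁, hrc, hreq⟩ := hr
  have hrt : ContinuousAt r t₀ := hrc.continuousAt (Ioo_mem_nhds (by linarith) (by linarith))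
  have hev : ∀ᶠ t in 𝓝 t₀, (r t).1 ∈ Metric.ball (r t₀).1 ρ :=
    (continuous_fst.continuousAt.comp hrt).eventually (Metric.ball_mem_nhds _ hρ)
  obtain ⟨η₀, hη₀, hη⟩ := Metric.eventually_nhds_iff_ball.1 hev
  obtain ⟨η, hηdef⟩ : ∃ η, η = min ε₁ η₀ / 2 := ⟨_, rfl⟩
  have hη0 : 0 < η := by
    rw [hηdef]
    have := lt_min hε₁ hη₀
    linarith
  have hη1 : η < ε₁ := by
    rw [hηdef]
    have := min_le_left ε₁ η₀
    linarith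
  have hη2 : η < η₀ := by
    rw [hηdef]
    have := min_le_right ε₁ η₀
    linarith
  obtain ⟨a, ha⟩ : ∃ a, a = t₀ - η := ⟨_, rfl⟩
  obtain ⟨b, hb⟩ : ∃ b, b = t₀ + η := ⟨_, rfl⟩
  have hab : a < b := by linarith
  have hsub : Icc a b ⊆ Ioo (t₀ - ε₁) (t₀ + ε₁) := fun t ht =>
    ⟨by linarith [ht.1], by linarith [ht.2]⟩
  have ht₀ : t₀ ∈ Icc a b := ⟨by linarith, by linarith⟩
  have hbl : ∀ t ∈ Icc a b, (r t).1 ∈ Metric.ball (r t₀).1 ρ := fun t ht => hη t (by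
    rw [Metric.mem_ball, Real.dist_eq, abs_lt]
    exact ⟨by linarith [ht.1], by linarith [ht.2]⟩)
  have hrc' : ContinuousOn r (Icc a b) := hrc.mono hsub
  obtain ⟨s₀, hs₀⟩ : ∃ s₀, s₀ = (r t₀).1.1 := ⟨_, rfl⟩
  obtain ⟨q₀, hq₀⟩ : ∃ q₀, q₀ = (r t₀).1 := ⟨_, rfl⟩
  have Hf : ∀ q ∈ Metric.ball q₀ ρ, AnalyticAt ℝ f q := fun q hq => (H q (hq₀ ▸ hq)).1
  have Hk : ∀ q ∈ Metric.ball q₀ ρ, AnalyticAt ℝ k q := fun q hq => (H q (hq₀ ▸ hq)).2.1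
  have Hh : ∀ q ∈ Metric.ball q₀ ρ, AnalyticAt ℝ h q := fun q hq => (H q (hq₀ ▸ hq)).2.2.1
  have Hp : ∀ q ∈ Metric.ball q₀ ρ, 0 < ε * f q := fun q hq => (H q (hq₀ ▸ hq)).2.2.2
  rw [← hq₀] at hbl
  -- the extended trajectory
  obtain ⟨z, hz⟩ : ∃ z : ℝ → ((ℝ × ℝ) × Y) × ℝ, z = fun t => (r t, t) := ⟨_, rfl⟩
  have hzc : ContinuousOn z (Icc a b) := by
    rw [hz]
    exact hrc'.prodMk continuousOn_id
  have hz1 : ∀ t, z t = (r t, t) := fun t => by rw [hz]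
  have hzS : ∀ t ∈ Icc a b, z t ∈ {w : ((ℝ × ℝ) × Y) × ℝ | w.1.1 ∈ Metric.ball q₀ ρ} := by
    intro t ht
    rw [hz1]
    exact hbl t ht
  have hPc := KTime2_Pc (Y := Y) Hf Hk Hh
  have hRc := KTime2_Rc (Y := Y) {w : ((ℝ × ℝ) × Y) × ℝ | w.1.1 ∈ Metric.ball q₀ ρ}
  have hvc := KTime2_vc (Y := Y) (ε := ε) Hf
  have hPz : ContinuousOn (fun τ => KTime2_P f k h (z τ)) (Icc a b) := hPc.continuousOn.comp hzc hzS
  have hRz : ContinuousOn (fun τ => KTime2_R (z τ)) (Icc a b) := hRc.continuousOn.comp hzc hzS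
  have hvz : ContinuousOn (fun τ => KTime2_v ε f (z τ)) (Icc a b) := hvc.continuousOn.comp hzc hzS
  have hint : ∀ s ∈ Icc a b, ∀ t ∈ Icc a b, s ≤ t → IntervalIntegrable
      (fun τ => KTime2_P f k h (z τ) + u τ • KTime2_R (z τ)) volume s t := fun s hs t ht hst =>
    KTime2_ii hst hu (hPz.mono (Icc_subset_Icc hs.1 ht.2)) (hRz.mono (Icc_subset_Icc hs.1 ht.2))
  have hfst : ∀ τ, (KTime2_P f k h (z τ) + u τ • KTime2_R (z τ)).1 =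
      FB f k h (τ, r τ) + u τ • GB (τ, r τ) := by
    intro τ
    rw [hz]
    rfl
  have hsnd : ∀ τ, (KTime2_P f k h (z τ) + u τ • KTime2_R (z τ)).2 = 1 := by
    intro τ
    rw [hz]
    show (1 : ℝ) + u τ • (0 : ℝ) = 1
    rw [smul_zero, add_zero]
  have hzeq : ∀ s ∈ Icc a b, ∀ t ∈ Icc a b, s ≤ t →
      z t - z s = ∫ τ in s..t, (KTime2_P f k h (z τ) + u τ • KTime2_R (z τ)) := by
    intro s hs t ht hst
    have h1 := (ContinuousLinearMap.fst ℝ ((ℝ × ℝ) × Y) ℝ).intervalIntegral_comp_comm (hint s hs t ht hst)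
    have h2 := (ContinuousLinearMap.snd ℝ ((ℝ × ℝ) × Y) ℝ).intervalIntegral_comp_comm (hint s hs t ht hst)
    refine Prod.ext ?_ ?_
    · refine Eq.trans ?_ h1
      have e1 : (z t - z s).1 = r t - r s := by
        rw [hz1, hz1]
        rfl
      rw [e1, hreq s (hsub hs) t (hsub ht)]
      exact intervalIntegral.integral_congr fun τ _ => (hfst τ).symm
    · refine Eq.trans ?_ h2
      have e1 : (z t - z s).2 = t - s := by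
        rw [hz1, hz1]
        rfl
      rw [e1]
      have h3 : ∫ τ in s..t, (ContinuousLinearMap.snd ℝ ((ℝ × ℝ) × Y) ℝ)
          (KTime2_P f k h (z τ) + u τ • KTime2_R (z τ)) = ∫ τ in s..t, (1 : ℝ) :=
        intervalIntegral.integral_congr fun τ _ => hsnd τ
      rw [h3, intervalIntegral.integral_const, smul_eq_mul, mul_one]
  obtain ⟨θ, hθ⟩ : ∃ θ : ℝ → ℝ, θ = fun t => 1 + ε * ((r t).1.1 - s₀) := ⟨_, rfl⟩
  have hθeq : ∀ s ∈ Icc a b, ∀ t ∈ Icc a b, s ≤ t → θ t - θ s = ∫ τ in s..t, KTime2_v ε f (z τ) := by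
    intro s hs t ht hst
    have h1 := (((ContinuousLinearMap.fst ℝ ℝ ℝ).comp (ContinuousLinearMap.fst ℝ (ℝ × ℝ) Y)).comp
      (ContinuousLinearMap.fst ℝ ((ℝ × ℝ) × Y) ℝ)).intervalIntegral_comp_comm (hint s hs t ht hst)
    rw [← hzeq s hs t ht hst] at h1
    have h2 : θ t - θ s = ε * ((z t - z s).1.1.1) := by
      rw [hθ, hz]
      show 1 + ε * ((r t).1.1 - s₀) - (1 + ε * ((r s).1.1 - s₀)) = ε * ((r t).1.1 - (r s).1.1)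
      ring
    rw [h2]
    have h3 : (z t - z s).1.1.1 = ∫ τ in s..t, f (z τ).1.1 := by
      refine h1.symm.trans (intervalIntegral.integral_congr fun τ _ => ?_)
      show f (z τ).1.1 + u τ * 0 = f (z τ).1.1
      ring
    rw [h3, ← intervalIntegral.integral_const_mul]
    rfl
  have hmono : ∀ s ∈ Icc a b, ∀ t ∈ Icc a b, s < t → θ s < θ t := by
    intro s hs t ht hst
    have h1 := hθeq s hs t ht hst.le
    have h2 : 0 < ∫ τ in s..t, KTime2_v ε f (z τ) := by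
      refine intervalIntegral.intervalIntegral_pos_of_pos_on ?_ ?_ hst
      · have h3 := hvz.mono (Icc_subset_Icc hs.1 ht.2)
        rw [← uIcc_of_le hst.le] at h3
        exact h3.intervalIntegrable
      · intro τ hτ
        exact Hp _ (hzS τ ⟨by linarith [hs.1, hτ.1], by linarith [ht.2, hτ.2]⟩)
    linarith
  have haI : a ∈ Icc a b := left_mem_Icc.2 hab.le
  have hbI : b ∈ Icc a b := right_mem_Icc.2 hab.le
  obtain ⟨hθab, w, y, hw, hyc, hy1, hy2, hyeq, -⟩ := time_change (P := KTime2_P f k h)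
    (R := KTime2_R) (ϑ := KTime2_v ε f) (θ := θ) hu hab hzc (KTime2_open q₀ ρ) hzS
    hPc hRc hvc (fun x hx => Hp _ hx)
    (fun t ht => by rw [← hzeq a haI t ht ht.1]; abel)
    (fun t ht => by
      have := hθeq a haI t ht ht.1
      linarith)
  refine ⟨η, hη0, ?_, ?_, w, fun σ => KTime2_L Y (y σ), hw, ?_, ?_⟩
  · rw [← ha, ← hb]
    exact hrc'
  · rw [← ha, ← hb]
    intro s hs t ht hst
    have h1 := hmono s hs t ht hst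
    rw [hθ] at h1
    simp only at h1
    linarith
  · rw [← ha, ← hb]
    intro t ht
    have h1 := (hy1 t ht).2.1
    rw [hθ, hs₀] at h1
    show KTime2_L Y (y (1 + ε * ((r t).1.1 - (r t₀).1.1))) = _
    simp only at h1
    rw [h1, hz]
    rfl
  · -- the local trajectory
    have hθt₀ : θ t₀ = 1 := by
      rw [hθ, hs₀]
      show 1 + ε * ((r t₀).1.1 - (r t₀).1.1) = 1
      ring
    have hθa : θ a < 1 := by
      rw [← hθt₀]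
      exact hmono a haI t₀ ht₀ (by linarith)
    have hθb : 1 < θ b := by
      rw [← hθt₀]
      exact hmono t₀ ht₀ b hbI (by linarith)
    have hyS : ∀ τ ∈ Icc (θ a) (θ b), y τ ∈ {w : ((ℝ × ℝ) × Y) × ℝ | w.1.1 ∈ Metric.ball q₀ ρ} ∧
        (y τ).1.1.1 = s₀ + ε * (τ - 1) := by
      intro τ hτ
      obtain ⟨t, ht, rfl⟩ := hy2 τ hτ
      rw [(hy1 t ht).2.1]
      refine ⟨hzS t ht, ?_⟩
      rw [hz, hθ]
      show (r t).1.1 = s₀ + ε * (1 + ε * ((r t).1.1 - s₀) - 1)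
      have : s₀ + ε * (1 + ε * ((r t).1.1 - s₀) - 1) = s₀ + (ε * ε) * ((r t).1.1 - s₀) := by ring
      rw [this, hε]
      ring
    have hyP : ContinuousOn (fun τ => (KTime2_v ε f (y τ))⁻¹ • KTime2_P f k h (y τ)) (Icc (θ a) (θ b)) :=
      ((hvc.continuousOn.comp hyc fun τ hτ => (hyS τ hτ).1).inv₀ fun τ hτ =>
        (Hp _ (hyS τ hτ).1).ne').smul (hPc.continuousOn.comp hyc fun τ hτ => (hyS τ hτ).1)
    have hyR : ContinuousOn (fun τ => (KTime2_v ε f (y τ))⁻¹ • KTime2_R (y τ)) (Icc (θ a) (θ b)) :=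
      ((hvc.continuousOn.comp hyc fun τ hτ => (hyS τ hτ).1).inv₀ fun τ hτ =>
        (Hp _ (hyS τ hτ).1).ne').smul (hRc.continuousOn.comp hyc fun τ hτ => (hyS τ hτ).1)
    have hyI : ∀ s ∈ Icc (θ a) (θ b), ∀ t ∈ Icc (θ a) (θ b), IntervalIntegrable
        (fun τ => (KTime2_v ε f (y τ))⁻¹ • (KTime2_P f k h (y τ) + w τ • KTime2_R (y τ))) volume s t := by
      have key : ∀ s ∈ Icc (θ a) (θ b), ∀ t ∈ Icc (θ a) (θ b), s ≤ t → IntervalIntegrable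
          (fun τ => (KTime2_v ε f (y τ))⁻¹ • (KTime2_P f k h (y τ) + w τ • KTime2_R (y τ))) volume s t := by
        intro s hs t ht hst
        have h1 := KTime2_ii hst hw (hyP.mono (Icc_subset_Icc hs.1 ht.2)) (hyR.mono (Icc_subset_Icc hs.1 ht.2))
        refine h1.congr fun τ _ => ?_
        rw [smul_add, smul_comm (w τ)]
      intro s hs t ht
      rcases le_total s t with h1 | h1
      · exact key s hs t ht h1
      · exact (key t ht s hs h1).symm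
    obtain ⟨ε₂, hε₂⟩ : ∃ ε₂, ε₂ = min (1 - θ a) (θ b - 1) := ⟨_, rfl⟩
    have hsub2 : Ioo (1 - ε₂) (1 + ε₂) ⊆ Icc (θ a) (θ b) := by
      intro τ hτ
      have h1 : ε₂ ≤ 1 - θ a := hε₂ ▸ min_le_left _ _
      have h2 : ε₂ ≤ θ b - 1 := hε₂ ▸ min_le_right _ _
      exact ⟨by linarith [hτ.1], by linarith [hτ.2]⟩
    rw [← hs₀]
    refine ⟨ε₂, ?_, ?_, ?_⟩
    · rw [hε₂]
      exact lt_min (by linarith) (by linarith)
    · exact (KTime2_L Y).continuous.comp_continuousOn (hyc.mono hsub2)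
    · intro s hs t ht
      have hs' := hsub2 hs
      have ht' := hsub2 ht
      have haI' : θ a ∈ Icc (θ a) (θ b) := left_mem_Icc.2 hθab.le
      have h1 : y t - y s = ∫ τ in s..t,
          ((KTime2_v ε f (y τ))⁻¹ • (KTime2_P f k h (y τ) + w τ • KTime2_R (y τ))) := by
        rw [hyeq t ht', hyeq s hs', add_sub_add_left_eq_sub,
          intervalIntegral.integral_interval_sub_left (hyI _ haI' t ht') (hyI _ haI' s hs')]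
      show KTime2_L Y (y t) - KTime2_L Y (y s) = _
      rw [← map_sub, h1, ← (KTime2_L Y).intervalIntegral_comp_comm (hyI s hs' t ht')]
      refine intervalIntegral.integral_congr fun τ hτ => ?_
      have hτ' : τ ∈ Icc (θ a) (θ b) := by
        have := uIcc_subset_Icc hs' ht' hτ
        exact this
      exact KTime2_pt ε s₀ f k h τ (w τ) (y τ) (hyS τ hτ').2

/-- the backward change of time -/
private theorem KTime2_bwd {f k : ℝ × ℝ → ℝ} {h : ℝ × ℝ → Y} {ε ρ s₀ : ℝ} (hε : ε * ε = 1)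
    {q₀ : ℝ × ℝ} (H : KTime2_H ε ρ q₀ f k h) {σ₁ σ₂ : ℝ} (h12 : σ₁ < σ₂) {v : ℝ → ℝ} (hv : Adm v)
    {x : ℝ → ℝ × (Y × ℝ)} (hc : ContinuousOn x (Icc σ₁ σ₂))
    (hin : ∀ σ ∈ Icc σ₁ σ₂, (s₀ + ε * (σ - 1), (x σ).1) ∈ Metric.ball q₀ ρ)
    (heq : ∀ t ∈ Icc σ₁ σ₂, x t = x σ₁ + ∫ τ in σ₁..t,
      (FS (KTime2_F ε s₀ f k) (KTime2_h ε s₀ f h) (τ, x τ) + v τ • GS (KTime2_G ε s₀ f) (τ, x τ)))
    (hbad : {σ ∈ Ioo σ₁ σ₂ | ¬ SmAt x σ}.Countable) :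
    ∃ (w : ℝ → ℝ) (y : ℝ → (ℝ × ℝ) × Y), Adm w ∧
      ContinuousOn y (Icc (x σ₁).2.2 (x σ₂).2.2) ∧
      (∀ σ ∈ Icc σ₁ σ₂, y (x σ).2.2 = ((s₀ + ε * (σ - 1), (x σ).1), (x σ).2.1)) ∧
      (∀ t ∈ Icc (x σ₁).2.2 (x σ₂).2.2, ∃ σ ∈ Icc σ₁ σ₂, t = (x σ).2.2) ∧
      (∀ t ∈ Icc (x σ₁).2.2 (x σ₂).2.2, y t = y (x σ₁).2.2 + ∫ τ in (x σ₁).2.2..t,
        (FB f k h (τ, y τ) + w τ • GB (τ, y τ))) ∧
      {t ∈ Ioo (x σ₁).2.2 (x σ₂).2.2 | ¬ SmAt y t}.Countable := by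
  have : CompleteSpace Y := FiniteDimensional.complete ℝ Y
  have Hf : ∀ q ∈ Metric.ball q₀ ρ, AnalyticAt ℝ f q := fun q hq => (H q hq).1
  have Hk : ∀ q ∈ Metric.ball q₀ ρ, AnalyticAt ℝ k q := fun q hq => (H q hq).2.1
  have Hh : ∀ q ∈ Metric.ball q₀ ρ, AnalyticAt ℝ h q := fun q hq => (H q hq).2.2.1
  have Hp : ∀ q ∈ Metric.ball q₀ ρ, 0 < ε * f q := fun q hq => (H q hq).2.2.2
  obtain ⟨z, hz⟩ : ∃ z : ℝ → ((ℝ × ℝ) × Y) × ℝ,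
      z = fun σ => KTime2_M Y (x σ) + (((s₀ + ε * (σ - 1), 0), 0), 0) := ⟨_, rfl⟩
  have hz0 : ∀ σ, z σ = KTime2_M Y (x σ) + (((s₀ + ε * (σ - 1), 0), 0), 0) := fun σ => by rw [hz]
  have hz1 : ∀ σ, z σ = (((s₀ + ε * (σ - 1), (x σ).1), (x σ).2.1), (x σ).2.2) := by
    intro σ
    rw [hz0, KTime2_M_apply]
    refine Prod.ext (Prod.ext (Prod.ext ?_ ?_) ?_) ?_
    · show 0 + (s₀ + ε * (σ - 1)) = s₀ + ε * (σ - 1)
      rw [zero_add]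
    · show (x σ).1 + 0 = (x σ).1
      rw [add_zero]
    · show (x σ).2.1 + 0 = (x σ).2.1
      rw [add_zero]
    · show (x σ).2.2 + 0 = (x σ).2.2
      rw [add_zero]
  have haff : ContDiff ℝ (⊤ : ℕ∞) (fun σ : ℝ => ((((s₀ + ε * (σ - 1), 0), 0), 0) : ((ℝ × ℝ) × Y) × ℝ)) :=
    (((contDiff_const.add (contDiff_const.mul (contDiff_id.sub contDiff_const))).prodMk
      contDiff_const).prodMk contDiff_const).prodMk contDiff_const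
  have hzc : ContinuousOn z (Icc σ₁ σ₂) := by
    rw [hz]
    exact ((KTime2_M Y).continuous.comp_continuousOn hc).add haff.continuous.continuousOn
  have hzS : ∀ t ∈ Icc σ₁ σ₂, z t ∈ {w : ((ℝ × ℝ) × Y) × ℝ | w.1.1 ∈ Metric.ball q₀ ρ} := by
    intro t ht
    rw [hz1]
    exact hin t ht
  have hPc := KTime2_Pc (Y := Y) Hf Hk Hh
  have hRc := KTime2_Rc (Y := Y) {w : ((ℝ × ℝ) × Y) × ℝ | w.1.1 ∈ Metric.ball q₀ ρ}
  have hvc := KTime2_vc (Y := Y) (ε := ε) Hf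
  have hvi := hvc.inv fun w hw => (Hp _ hw).ne'
  have hpc : ContinuousOn (fun τ => ((τ, (x τ).1) : ℝ × ℝ)) (Icc σ₁ σ₂) :=
    continuousOn_id.prodMk (continuous_fst.comp_continuousOn hc)
  have han : ∀ τ ∈ Icc σ₁ σ₂, AnalyticAt ℝ (KTime2_F ε s₀ f k) (τ, (x τ).1) ∧
      AnalyticAt ℝ (KTime2_G ε s₀ f) (τ, (x τ).1) ∧ AnalyticAt ℝ (KTime2_h ε s₀ f h) (τ, (x τ).1) :=
    fun τ hτ => KTime2_an H (hin τ hτ)
  have hA : ContinuousOn (fun τ => FS (KTime2_F ε s₀ f k) (KTime2_h ε s₀ f h) (τ, x τ)) (Icc σ₁ σ₂) := by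
    intro τ hτ
    have h1 : ContinuousWithinAt (fun τ => KTime2_F ε s₀ f k (τ, (x τ).1)) (Icc σ₁ σ₂) τ :=
      ContinuousAt.comp_continuousWithinAt (g := KTime2_F ε s₀ f k) (han τ hτ).1.continuousAt (hpc τ hτ)
    have h2 : ContinuousWithinAt (fun τ => KTime2_h ε s₀ f h (τ, (x τ).1)) (Icc σ₁ σ₂) τ :=
      ContinuousAt.comp_continuousWithinAt (g := KTime2_h ε s₀ f h) (han τ hτ).2.2.continuousAt (hpc τ hτ)
    exact h1.prodMk h2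
  have hB : ContinuousOn (fun τ => GS (KTime2_G ε s₀ f) (τ, x τ)) (Icc σ₁ σ₂) := by
    intro τ hτ
    have h1 : ContinuousWithinAt (fun τ => KTime2_G ε s₀ f (τ, (x τ).1)) (Icc σ₁ σ₂) τ :=
      ContinuousAt.comp_continuousWithinAt (g := KTime2_G ε s₀ f) (han τ hτ).2.1.continuousAt (hpc τ hτ)
    exact h1.prodMk continuousWithinAt_const
  have hI : ∀ t ∈ Icc σ₁ σ₂, IntervalIntegrable (fun τ => FS (KTime2_F ε s₀ f k) (KTime2_h ε s₀ f h)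
      (τ, x τ) + v τ • GS (KTime2_G ε s₀ f) (τ, x τ)) volume σ₁ t := fun t ht =>
    KTime2_ii ht.1 hv (hA.mono (Icc_subset_Icc le_rfl ht.2)) (hB.mono (Icc_subset_Icc le_rfl ht.2))
  have hzeq : ∀ t ∈ Icc σ₁ σ₂, z t = z σ₁ + ∫ τ in σ₁..t,
      ((KTime2_v ε f (z τ))⁻¹ • KTime2_P f k h (z τ) + v τ • ((KTime2_v ε f (z τ))⁻¹ • KTime2_R (z τ))) := by
    intro t ht
    have h1 : ∫ τ in σ₁..t, ((KTime2_v ε f (z τ))⁻¹ • KTime2_P f k h (z τ) +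
        v τ • ((KTime2_v ε f (z τ))⁻¹ • KTime2_R (z τ))) =
        ∫ τ in σ₁..t, (KTime2_M Y (FS (KTime2_F ε s₀ f k) (KTime2_h ε s₀ f h) (τ, x τ) +
          v τ • GS (KTime2_G ε s₀ f) (τ, x τ)) + (((ε, 0), 0), 0)) := by
      refine intervalIntegral.integral_congr fun τ hτ => ?_
      rw [uIcc_of_le ht.1] at hτ
      have hτ' : τ ∈ Icc σ₁ σ₂ := ⟨hτ.1, hτ.2.trans ht.2⟩
      exact KTime2_pt2 hε f k h τ (v τ) (x τ) (z τ) (hz0 τ) (Hp _ (hzS τ hτ')).ne'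
    have h2 : IntervalIntegrable (fun τ => KTime2_M Y (FS (KTime2_F ε s₀ f k) (KTime2_h ε s₀ f h) (τ, x τ) +
          v τ • GS (KTime2_G ε s₀ f) (τ, x τ))) volume σ₁ t := by
      have h3 := KTime2_ii (A := fun τ => KTime2_M Y (FS (KTime2_F ε s₀ f k) (KTime2_h ε s₀ f h) (τ, x τ)))
        (B := fun τ => KTime2_M Y (GS (KTime2_G ε s₀ f) (τ, x τ))) ht.1 hv
        ((KTime2_M Y).continuous.comp_continuousOn (hA.mono (Icc_subset_Icc le_rfl ht.2)))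
        ((KTime2_M Y).continuous.comp_continuousOn (hB.mono (Icc_subset_Icc le_rfl ht.2)))
      refine h3.congr fun τ _ => ?_
      rw [map_add, map_smul]
    rw [h1, intervalIntegral.integral_add h2 intervalIntegrable_const,
      (KTime2_M Y).intervalIntegral_comp_comm (hI t ht), intervalIntegral.integral_const, hz0 t, hz0 σ₁,
      heq t ht, map_add]
    have h4 : ((((s₀ + ε * (t - 1), 0), 0), 0) : ((ℝ × ℝ) × Y) × ℝ) =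
        (((s₀ + ε * (σ₁ - 1), 0), 0), 0) + (t - σ₁) • (((ε, 0), 0), 0) := by
      refine Prod.ext (Prod.ext (Prod.ext ?_ ?_) ?_) ?_
      · show s₀ + ε * (t - 1) = s₀ + ε * (σ₁ - 1) + (t - σ₁) * ε
        ring
      · show (0 : ℝ) = 0 + (t - σ₁) * 0
        ring
      · show (0 : Y) = 0 + (t - σ₁) • 0
        rw [smul_zero, add_zero]
      · show (0 : ℝ) = 0 + (t - σ₁) * 0
        ring
    rw [h4]
    abel
  have hθeq : ∀ t ∈ Icc σ₁ σ₂, (x t).2.2 = (x σ₁).2.2 + ∫ τ in σ₁..t, (KTime2_v ε f (z τ))⁻¹ := by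
    intro t ht
    have h1 := ((ContinuousLinearMap.snd ℝ Y ℝ).comp
      (ContinuousLinearMap.snd ℝ ℝ (Y × ℝ))).intervalIntegral_comp_comm (hI t ht)
    have h2 : ∫ τ in σ₁..t, ((ContinuousLinearMap.snd ℝ Y ℝ).comp
      (ContinuousLinearMap.snd ℝ ℝ (Y × ℝ))) (FS (KTime2_F ε s₀ f k) (KTime2_h ε s₀ f h) (τ, x τ) +
          v τ • GS (KTime2_G ε s₀ f) (τ, x τ)) = ∫ τ in σ₁..t, (KTime2_v ε f (z τ))⁻¹ := by
      refine intervalIntegral.integral_congr fun τ _ => ?_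
      show (ε * f (KTime2_Q ε s₀ (τ, (x τ).1)))⁻¹ + v τ * 0 = (KTime2_v ε f (z τ))⁻¹
      rw [mul_zero, add_zero, hz1]
      rfl
    rw [h2] at h1
    rw [h1]
    have h3 := congrArg (fun q : ℝ × (Y × ℝ) => q.2.2) (heq t ht)
    exact h3
  obtain ⟨hθab, w, y, hw, hyc, hy1, hy2, hyeq, hsm⟩ := time_change
    (P := fun w => (KTime2_v ε f w)⁻¹ • KTime2_P f k h w)
    (R := fun w => (KTime2_v ε f w)⁻¹ • KTime2_R w) (ϑ := fun w => (KTime2_v ε f w)⁻¹)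
    (θ := fun σ => (x σ).2.2) hv h12 hzc (KTime2_open q₀ ρ) hzS (hvi.smul hPc) (hvi.smul hRc) hvi
    (fun w hw => inv_pos.2 (Hp _ hw)) hzeq hθeq
  have hyS : ∀ τ ∈ Icc (x σ₁).2.2 (x σ₂).2.2, y τ ∈ {w : ((ℝ × ℝ) × Y) × ℝ | w.1.1 ∈ Metric.ball q₀ ρ} := by
    intro τ hτ
    obtain ⟨σ, hσ, rfl⟩ := hy2 τ hτ
    rw [(hy1 σ hσ).2.1]
    exact hzS σ hσ
  have hyP : ContinuousOn (fun τ => KTime2_P f k h (y τ)) (Icc (x σ₁).2.2 (x σ₂).2.2) :=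
    hPc.continuousOn.comp hyc hyS
  have hyR : ContinuousOn (fun τ => KTime2_R (y τ)) (Icc (x σ₁).2.2 (x σ₂).2.2) :=
    hRc.continuousOn.comp hyc hyS
  refine ⟨w, fun t => (y t).1, hw, continuous_fst.comp_continuousOn hyc, ?_, hy2, ?_, ?_⟩
  · intro σ hσ
    show (y (x σ).2.2).1 = _
    rw [(hy1 σ hσ).2.1, hz1]
  · intro t ht
    have h1 : ∫ τ in (x σ₁).2.2..t, ((KTime2_v ε f (y τ))⁻¹)⁻¹ • ((KTime2_v ε f (y τ))⁻¹ •
        KTime2_P f k h (y τ) + w τ • (KTime2_v ε f (y τ))⁻¹ • KTime2_R (y τ)) =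
        ∫ τ in (x σ₁).2.2..t, (KTime2_P f k h (y τ) + w τ • KTime2_R (y τ)) := by
      refine intervalIntegral.integral_congr fun τ hτ => ?_
      rw [uIcc_of_le ht.1] at hτ
      have hτ' : τ ∈ Icc (x σ₁).2.2 (x σ₂).2.2 := ⟨hτ.1, hτ.2.trans ht.2⟩
      have h2 : KTime2_v ε f (y τ) ≠ 0 := (Hp _ (hyS τ hτ')).ne'
      rw [inv_inv, smul_add, smul_smul, mul_inv_cancel₀ h2, one_smul, smul_comm (w τ), smul_smul,
        mul_inv_cancel₀ h2, one_smul]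
    have h3 := KTime2_ii ht.1 hw (hyP.mono (Icc_subset_Icc le_rfl ht.2))
      (hyR.mono (Icc_subset_Icc le_rfl ht.2))
    have h4 := (ContinuousLinearMap.fst ℝ ((ℝ × ℝ) × Y) ℝ).intervalIntegral_comp_comm h3
    have h5 := hyeq t ht
    rw [h1] at h5
    show (y t).1 = (y (x σ₁).2.2).1 + _
    rw [h5]
    show (y (x σ₁).2.2).1 + (∫ τ in (x σ₁).2.2..t, (KTime2_P f k h (y τ) + w τ • KTime2_R (y τ))).1 = _
    congr 1
    exact h4.symm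
  · refine (hbad.image fun σ => (x σ).2.2).mono ?_
    rintro t ⟨ht, hns⟩
    obtain ⟨σ, hσ, rfl⟩ := hy2 t (Ioo_subset_Icc_self ht)
    have hσ1 : σ ≠ σ₁ := by
      rintro rfl
      exact lt_irrefl _ ht.1
    have hσ2 : σ ≠ σ₂ := by
      rintro rfl
      exact lt_irrefl _ ht.2
    have hσ' : σ ∈ Ioo σ₁ σ₂ := ⟨lt_of_le_of_ne hσ.1 (Ne.symm hσ1), lt_of_le_of_ne hσ.2 hσ2⟩
    refine ⟨σ, ⟨hσ', ?_⟩, rfl⟩
    rintro ⟨ε', hε', hsmx⟩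
    apply hns
    have hzsm : SmAt z σ := by
      refine ⟨ε', hε', ?_⟩
      rw [hz]
      exact ((KTime2_M Y).contDiff.comp_contDiffOn hsmx).add haff.contDiffOn
    obtain ⟨ε₃, hε₃, h6⟩ := hsm σ hσ' hzsm
    exact ⟨ε₃, hε₃, contDiff_fst.comp_contDiffOn h6⟩

theorem b_time {f k : ℝ × ℝ → ℝ} {h : ℝ × ℝ → Y} {u : ℝ → ℝ} (hu : Adm u)
    {r : ℝ → (ℝ × ℝ) × Y} {t₀ : ℝ} (hf : AnalyticAt ℝ f (r t₀).1)
    (hk : AnalyticAt ℝ k (r t₀).1) (hh : AnalyticAt ℝ h (r t₀).1) (hf0 : f (r t₀).1 ≠ 0)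
    (hr : LTraj (FB f k h) GB u r t₀) : LRep (FB f k h) GB r t₀ := by
  have : CompleteSpace Y := FiniteDimensional.complete ℝ Y
  obtain ⟨ε, hε, hεf⟩ : ∃ ε : ℝ, ε * ε = 1 ∧ 0 < ε * f (r t₀).1 := by
    rcases lt_or_gt_of_ne hf0 with h1 | h1
    · exact ⟨-1, by norm_num, by linarith⟩
    · exact ⟨1, by norm_num, by linarith⟩
  have hε1 : |ε| = 1 := by
    have h1 : |ε| * |ε| = 1 := by rw [← abs_mul, hε, abs_one]
    nlinarith [abs_nonneg ε]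
  have hev : ∀ᶠ q in 𝓝 (r t₀).1, AnalyticAt ℝ f q ∧ AnalyticAt ℝ k q ∧ AnalyticAt ℝ h q ∧
      0 < ε * f q := by
    have h4 : ∀ᶠ q in 𝓝 (r t₀).1, 0 < ε * f q :=
      (continuousAt_const.mul hf.continuousAt).eventually (lt_mem_nhds hεf)
    filter_upwards [hf.eventually_analyticAt, hk.eventually_analyticAt, hh.eventually_analyticAt, h4]
      with q a1 a2 a3 a4
    exact ⟨a1, a2, a3, a4⟩
  obtain ⟨ρ, hρ, H⟩ := Metric.eventually_nhds_iff_ball.1 hev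
  obtain ⟨η, hη, hrc, hmono, w, R, hw, hR, hLT⟩ := KTime2_fwd hu hε hρ H hr
  have hR1 : R 1 = ((r t₀).1.2, ((r t₀).2, t₀)) := by
    have h1 := hR t₀ ⟨by linarith, by linarith⟩
    rw [sub_self, mul_zero, add_zero] at h1
    exact h1
  have hQ1 : KTime2_Q ε (r t₀).1.1 (1, (R 1).1) = (r t₀).1 := by
    rw [hR1]
    refine Prod.ext ?_ rfl
    show (r t₀).1.1 + ε * (1 - 1) = (r t₀).1.1
    ring
  obtain ⟨a1, a2, a3⟩ := KTime2_an (s₀ := (r t₀).1.1) (p := (1, (R 1).1)) H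
    (by rw [hQ1]; exact Metric.mem_ball_self hρ)
  have hG0 : KTime2_G ε (r t₀).1.1 f (1, (R 1).1) ≠ 0 := by
    unfold KTime2_G
    rw [hQ1]
    exact inv_ne_zero hεf.ne'
  have hL := sc0_lrep (Module.finrank ℝ (Y × ℝ)) (Y × ℝ) rfl _ _ _ w R 1 one_pos hw a1 a2 a3 hG0 hLT
  intro κ hκ
  obtain ⟨κ', hκ'⟩ : ∃ κ', κ' = min κ (ρ / 2) := ⟨_, rfl⟩
  have hκ0 : 0 < κ' := by
    rw [hκ']
    exact lt_min hκ (by linarith)
  have hκ1 : κ' ≤ κ := hκ' ▸ min_le_left _ _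
  have hκ2 : κ' < ρ := by
    have : κ' ≤ ρ / 2 := hκ' ▸ min_le_right _ _
    linarith
  obtain ⟨δ', hδ', hrep⟩ := hL κ' hκ0
  have hrt : ContinuousAt r t₀ := hrc.continuousAt (Icc_mem_nhds (by linarith) (by linarith))
  have hθc : ContinuousAt (fun t => 1 + ε * ((r t).1.1 - (r t₀).1.1)) t₀ :=
    continuousAt_const.add (continuousAt_const.mul
      (((continuous_fst.comp continuous_fst).continuousAt.comp hrt).sub continuousAt_const))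
  have hev2 : ∀ᶠ t in 𝓝 t₀, (1 + ε * ((r t).1.1 - (r t₀).1.1)) ∈ Metric.ball 1 (min δ' κ') := by
    have e0 : (fun t => 1 + ε * ((r t).1.1 - (r t₀).1.1)) t₀ = 1 := by
      show 1 + ε * ((r t₀).1.1 - (r t₀).1.1) = 1
      ring
    have h1 : Metric.ball (1 : ℝ) (min δ' κ') ∈ 𝓝 ((fun t => 1 + ε * ((r t).1.1 - (r t₀).1.1)) t₀) := by
      rw [e0]
      exact Metric.ball_mem_nhds _ (lt_min hδ' hκ0)
    exact hθc h1
  obtain ⟨δ₁, hδ₁, hδ₂⟩ := Metric.eventually_nhds_iff_ball.1 hev2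
  have hσδ : ∀ t, |t - t₀| < δ₁ → |1 + ε * ((r t).1.1 - (r t₀).1.1) - 1| < min δ' κ' := by
    intro t ht
    have h1 := hδ₂ t (by rw [Metric.mem_ball, Real.dist_eq]; exact ht)
    rw [Metric.mem_ball, Real.dist_eq] at h1
    exact h1
  refine ⟨min η δ₁, lt_min hη hδ₁, ?_⟩
  intro s s' hss hs hs'
  have hsη := lt_of_lt_of_le hs (min_le_left _ _)
  have hs'η := lt_of_lt_of_le hs' (min_le_left _ _)
  have hsI : s ∈ Icc (t₀ - η) (t₀ + η) := by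
    rw [abs_lt] at hsη
    exact ⟨by linarith, by linarith⟩
  have hs'I : s' ∈ Icc (t₀ - η) (t₀ + η) := by
    rw [abs_lt] at hs'η
    exact ⟨by linarith, by linarith⟩
  have hσs := hσδ s (lt_of_lt_of_le hs (min_le_right _ _))
  have hσs' := hσδ s' (lt_of_lt_of_le hs' (min_le_right _ _))
  obtain ⟨σ₁, hσ₁⟩ : ∃ σ₁, σ₁ = 1 + ε * ((r s).1.1 - (r t₀).1.1) := ⟨_, rfl⟩
  obtain ⟨σ₂, hσ₂⟩ : ∃ σ₂, σ₂ = 1 + ε * ((r s').1.1 - (r t₀).1.1) := ⟨_, rfl⟩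
  have hRs := hR s hsI
  have hRs' := hR s' hs'I
  rw [← hσ₁] at hσs hRs
  rw [← hσ₂] at hσs' hRs'
  have h12 : σ₁ < σ₂ := by
    have h1 := hmono s hsI s' hs'I hss
    rw [hσ₁, hσ₂]
    linarith
  obtain ⟨v, x, hv, hxc, hx1, hx2, hxκ, hxeq, hxbad⟩ := hrep σ₁ σ₂ h12
    (lt_of_lt_of_le hσs (min_le_left _ _)) (lt_of_lt_of_le hσs' (min_le_left _ _))
  have hσκ : ∀ σ ∈ Icc σ₁ σ₂, |σ - 1| ≤ κ' := by
    intro σ hσ
    have h1 := (abs_lt.1 (lt_of_lt_of_le hσs (min_le_right _ _))).1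
    have h2 := (abs_lt.1 (lt_of_lt_of_le hσs' (min_le_right _ _))).2
    rw [abs_le]
    exact ⟨by linarith [hσ.1], by linarith [hσ.2]⟩
  have hcomp : ∀ σ ∈ Icc σ₁ σ₂, |(r t₀).1.1 + ε * (σ - 1) - (r t₀).1.1| ≤ κ' ∧
      |(x σ).1 - (r t₀).1.2| ≤ κ' ∧ ‖(x σ).2.1 - (r t₀).2‖ ≤ κ' := by
    intro σ hσ
    have h1 := hxκ σ hσ
    rw [hR1] at h1
    have h2 : ‖(x σ).1 - (r t₀).1.2‖ ≤ κ' := (norm_fst_le _).trans h1
    have h3 : ‖(x σ).2.1 - (r t₀).2‖ ≤ κ' := (norm_fst_le _).trans ((norm_snd_le _).trans h1)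
    refine ⟨?_, h2, h3⟩
    rw [add_sub_cancel_left, abs_mul, hε1, one_mul]
    exact hσκ σ hσ
  obtain ⟨w', y, hw', hyc, hy1, hy2, hyeq, hybad⟩ := KTime2_bwd (s₀ := (r t₀).1.1) hε H h12 hv hxc
    (fun σ hσ => by
      obtain ⟨c1, c2, -⟩ := hcomp σ hσ
      rw [Metric.mem_ball, Prod.dist_eq, Real.dist_eq, Real.dist_eq]
      exact max_lt (lt_of_le_of_lt c1 hκ2) (lt_of_le_of_lt c2 hκ2)) hxeq hxbad
  have e1 : (x σ₁).2.2 = s := by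
    rw [hx1, hRs]
  have e2 : (x σ₂).2.2 = s' := by
    rw [hx2, hRs']
  have hback : ∀ t, (r t₀).1.1 + ε * (1 + ε * ((r t).1.1 - (r t₀).1.1) - 1) = (r t).1.1 := by
    intro t
    have h1 : (r t₀).1.1 + ε * (1 + ε * ((r t).1.1 - (r t₀).1.1) - 1) =
        (r t₀).1.1 + (ε * ε) * ((r t).1.1 - (r t₀).1.1) := by ring
    rw [h1, hε]
    ring
  have hys : y s = r s := by
    have h1 := hy1 σ₁ (left_mem_Icc.2 h12.le)
    rw [e1, hx1, hRs, hσ₁, hback s] at h1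
    exact h1
  have hys' : y s' = r s' := by
    have h1 := hy1 σ₂ (right_mem_Icc.2 h12.le)
    rw [e2, hx2, hRs', hσ₂, hback s'] at h1
    exact h1
  rw [e1, e2] at hyc hybad
  rw [e1, e2] at hy2 hyeq
  refine ⟨w', y, hw', hyc, hys, hys', ?_, hyeq, hybad⟩
  intro t ht
  obtain ⟨σ, hσ, rfl⟩ := hy2 t ht
  rw [hy1 σ hσ]
  obtain ⟨c1, c2, c3⟩ := hcomp σ hσ
  refine le_trans (norm_prod_le_iff.2 ⟨norm_prod_le_iff.2 ⟨c1, c2⟩, c3⟩) hκ1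

end Pool.Agent.Lib.MP_28b8de_an.KK
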