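import Pool.Agent.Lib.MP_28b8de_an.K.KBCore
import Pool.Agent.Lib.MP_28b8de_an.K.KCxBd
import Pool.Agent.Lib.MP_28b8de_an.K.KRedB
import Pool.Agent.Lib.MP_28b8de_an.K.KConst
import Pool.Agent.Lib.MP_28b8de_an.K.KTime2
import Pool.Agent.Lib.MP_28b8de_an.K.KPermB

/-!
MP_28b8de_an, module KB.

Planar systems with any number of costs, controlled field `∂/∂x`.
-/

set_option linter.unusedSectionVars false

namespace Pool.Agent.Lib.MP_28b8de_an.KK

open Filter Topology Set MeasureTheory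
open Pool.Agent.Lib.MP_28b8de_an.PT (Adm Perf)
open Pool.Agent.Lib.MP_28b8de_an.TT (Env Sol Jn Tr SmAt Goal dx Dn Gen Lc Lp Lq fX cf)
open Pool.Agent.Lib.MP_28b8de_an.DD (LTraj LRep Ch)

universe v

/-- isolated zeros -/
theorem iso_zero {s : ℝ → ℝ} {C : Set ℝ} {t : ℝ} (hs : ContinuousAt s t) {a : ℝ → ℝ}
    (ha : AnalyticAt ℝ a (s t)) (h0 : ∀ᶠ r in 𝓝 t, r ∈ C → a (s r) = 0)
    (hn : ¬ ∀ᶠ v in 𝓝 (s t), a v = 0) : ∀ᶠ r in 𝓝 t, r ∈ C → s r = s t := by
  rcases ha.eventually_eq_zero_or_eventually_ne_zero with h | h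
  · exact absurd h hn
  · have h1 : ∀ᶠ v in 𝓝 (s t), v ≠ s t → a v ≠ 0 := by
      rw [eventually_nhdsWithin_iff] at h
      filter_upwards [h] with v hv hne
      exact hv hne
    filter_upwards [hs.eventually h1, h0] with r hr h0r hrC
    by_contra hne
    exact hr hne (h0r hrC)

/-- the first coordinate is constant if `f(s₁,·) = 0` -/
theorem s_const {f : ℝ × ℝ → ℝ} {s x : ℝ → ℝ} {t₁ : ℝ} (hf : AnalyticAt ℝ f (s t₁, x t₁))
    (hd : ∀ᶠ t in 𝓝 t₁, HasDerivAt s (f (s t, x t)) t) (hx : ContinuousAt x t₁)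
    (h0 : ∀ᶠ X in 𝓝 (x t₁), f (s t₁, X) = 0) : ∀ᶠ t in 𝓝 t₁, s t = s t₁ := by
  obtain ⟨K, U, hU, hK⟩ := (hf.contDiffAt (n := 1)).exists_lipschitzOnWith
  have hs : ContinuousAt s t₁ := hd.self_of_nhds.continuousAt
  have h1 : ∀ᶠ t in 𝓝 t₁, (s t, x t) ∈ U := (hs.prodMk hx).eventually hU
  have h2 : ∀ᶠ t in 𝓝 t₁, (s t₁, x t) ∈ U := (continuousAt_const.prodMk hx).eventually hU
  have h3 : ∀ᶠ t in 𝓝 t₁, f (s t₁, x t) = 0 := hx.eventually h0
  have h4 := TT.zero_der1 (f := fun t => s t - s t₁) (f' := fun t => f (s t, x t)) (t₀ := t₁)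
    (K := K) (by simp) (by
      filter_upwards [hd, h1, h2, h3] with t a1 a2 a3 a4
      refine ⟨a1.sub_const _, ?_⟩
      have h5 := hK.dist_le_mul _ a2 _ a3
      rw [Real.dist_eq, a4, sub_zero, Prod.dist_eq, dist_self, max_eq_left dist_nonneg,
        Real.dist_eq] at h5
      exact h5)
  filter_upwards [h4] with t ht
  linarith

/-- the induction step -/
theorem b_step {Y : Type v} [NormedAddCommGroup Y] [NormedSpace ℝ Y] [FiniteDimensional ℝ Y]
    {f k : ℝ × ℝ → ℝ} {h : ℝ × ℝ → Y} {u : ℝ → ℝ} {r : ℝ → (ℝ × ℝ) × Y} {t₀ : ℝ} (ht₀ : 0 < t₀)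
    (hu : Adm u) (hf : AnalyticAt ℝ f (r t₀).1) (hk : AnalyticAt ℝ k (r t₀).1)
    (hh : AnalyticAt ℝ h (r t₀).1) (hr : LTraj (FB f k h) GB u r t₀)
    (IH : ∀ h₀ : Y →L[ℝ] ℝ, h₀ ≠ 0 → ∃ (Y' : Type v) (_ : NormedAddCommGroup Y')
      (_ : NormedSpace ℝ Y') (_ : FiniteDimensional ℝ Y') (π : Y →L[ℝ] Y') (j : Y' →L[ℝ] Y) (e : Y),
      (∀ y : Y, y = j (π y) + h₀ y • e) ∧
      ∀ (h' : ℝ × ℝ → Y') (r' : ℝ → (ℝ × ℝ) × Y') (t₂ : ℝ), 0 < t₂ → AnalyticAt ℝ f (r' t₂).1 →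
        AnalyticAt ℝ k (r' t₂).1 → AnalyticAt ℝ h' (r' t₂).1 →
        LTraj (FB f k h') GB u r' t₂ → LRep (FB f k h') GB r' t₂) :
    LRep (FB f k h) GB r t₀ := by
  have hFB : ∀ t, AnalyticAt ℝ f (r t).1 → AnalyticAt ℝ k (r t).1 → AnalyticAt ℝ h (r t).1 →
      AnalyticAt ℝ (FB f k h) (t, r t) := by
    intro t h1 h2 h3
    have hp : AnalyticAt ℝ (fun z : ℝ × ((ℝ × ℝ) × Y) => z.2.1) (t, r t) :=
      analyticAt_fst.fun_comp analyticAt_snd
    exact ((AnalyticAt.fun_comp (g := f) (f := fun z : ℝ × ((ℝ × ℝ) × Y) => z.2.1) h1 hp).prod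
      (AnalyticAt.fun_comp (g := k) (f := fun z : ℝ × ((ℝ × ℝ) × Y) => z.2.1) h2 hp)).prod
      (AnalyticAt.fun_comp (g := h) (f := fun z : ℝ × ((ℝ × ℝ) × Y) => z.2.1) h3 hp)
  have hGB : ∀ t, AnalyticAt ℝ (GB (Y := Y)) (t, r t) := fun t => analyticAt_const
  have hc0 : ContinuousAt (fun t => (r t).1) t₀ :=
    continuous_fst.continuousAt.comp (DD.ltraj_cont hr).self_of_nhds
  have hev : ∀ᶠ t in 𝓝 t₀, AnalyticAt ℝ f (r t).1 ∧ AnalyticAt ℝ k (r t).1 ∧
      AnalyticAt ℝ h (r t).1 := by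
    have h1 := hc0.eventually hf.eventually_analyticAt
    have h2 := hc0.eventually hk.eventually_analyticAt
    have h3 := hc0.eventually hh.eventually_analyticAt
    filter_upwards [h1, h2, h3] with t a1 a2 a3
    exact ⟨a1, a2, a3⟩
  obtain ⟨ρ, hρ, hball⟩ := Metric.eventually_nhds_iff_ball.1 hev
  refine lrep_main hu ht₀ (hFB t₀ hf hk hh) (hGB t₀) hr hρ ?_
  intro a b p C ha hb hx
  rw [abs_lt] at ha hb
  have hin : ∀ t ∈ Ioo a b, AnalyticAt ℝ f (r t).1 ∧ AnalyticAt ℝ k (r t).1 ∧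
      AnalyticAt ℝ h (r t).1 := fun t ht => hball t (by
    rw [Metric.mem_ball, Real.dist_eq, abs_lt]
    exact ⟨by linarith [ht.1], by linarith [ht.2]⟩)
  obtain ⟨h₀, hbd, hp0, hϕC⟩ := cx_bd hx (fun t ht => (hin t ht).1) (fun t ht => (hin t ht).2.1)
    (fun t ht => (hin t ht).2.2)
  have hfin : ∀ t ∈ C, LRep (FB f k h) GB r t → LGoal (FB f k h) GB r C := fun t ht h1 =>
    lgoal_of_lrep ht (hFB t (hin t (hx.sub ht)).1 (hin t (hx.sub ht)).2.1 (hin t (hx.sub ht)).2.2)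
      (hGB t) h1
  obtain ⟨t₁, ht₁⟩ := hx.perf.ne
  by_cases hz : ∃ t ∈ C, f (r t).1 ≠ 0
  · obtain ⟨t, ht, hne⟩ := hz
    obtain ⟨i1, i2, i3⟩ := hin t (hx.sub ht)
    exact hfin t ht (b_time hu i1 i2 i3 hne (hx.tr t (hx.sub ht)))
  have hz' : ∀ t ∈ C, f (r t).1 = 0 := fun t ht => by
    by_contra h1
    exact hz ⟨t, ht, h1⟩
  -- continuity and derivative of the first coordinate
  have hcont : ∀ t ∈ Ioo a b, ContinuousAt (fun t => (r t).1.1) t ∧
      ContinuousAt (fun t => (r t).1.2) t := fun t ht =>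
    ⟨(bd_cont hbd ht).1, (bd_cont hbd ht).2.1⟩
  have hsd : ∀ t ∈ Ioo a b, ∀ᶠ τ in 𝓝 t,
      HasDerivAt (fun t => (r t).1.1) (f ((r τ).1.1, (r τ).1.2)) τ := fun t ht => by
    filter_upwards [isOpen_Ioo.mem_nhds ht] with τ hτ
    exact hbd.sd τ hτ
  have hI₁ := hx.sub ht₁
  -- the case where `f(s₁,·)` vanishes
  have hline : ∀ t ∈ C, (∀ᶠ X in 𝓝 (r t).1.2, f ((r t).1.1, X) = 0) → LGoal (FB f k h) GB r C := by
    intro t ht h0
    obtain ⟨i1, i2, i3⟩ := hin t (hx.sub ht)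
    have h1 : ∀ᶠ τ in 𝓝 t, (r τ).1.1 = (r t).1.1 :=
      s_const (f := f) (s := fun t => (r t).1.1) (x := fun t => (r t).1.2) i1 (hsd t (hx.sub ht))
        (hcont t (hx.sub ht)).2 h0
    exact hfin t ht (b_const hu (lt_of_le_of_lt hx.a0 (hx.sub ht).1) i1 i2 i3
      (hx.tr t (hx.sub ht)) h1 h0)
  rcases TT.zw (w := fun t => (r t).1.1) (x := fun t => (r t).1.2) (a := f) ht₁
    (by filter_upwards [isOpen_Ioo.mem_nhds hI₁] with t ht using (hcont t ht).1)
    (by filter_upwards [isOpen_Ioo.mem_nhds hI₁] with t ht using (hcont t ht).2)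
    (hin t₁ hI₁).1 (Eventually.of_forall fun t htC => hz' t htC)
    (show (0 : ℝ) < 1 by norm_num) with h1 | ⟨t₂, ht₂, -, ξ, hξ, hxξ⟩ | ⟨b', hb', hbC, hb0⟩
  · -- `f` vanishes near the point
    refine hline t₁ ht₁ ?_
    have h2 : ContinuousAt (fun X : ℝ => (((r t₁).1.1, X) : ℝ × ℝ)) (r t₁).1.2 :=
      continuousAt_const.prodMk continuousAt_id
    exact h2.eventually h1
  · -- `x = ξ(s)` on `C` near `t₂`
    have hI₂ := hx.sub ht₂
    by_cases hG : ∀ᶠ t in 𝓝 t₂, t ∈ C → Gen C (fun t => (r t).1.1) t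
    · -- generic case
      have hsc₂ : ContinuousAt (fun t => (r t).1.1) t₂ := (hcont t₂ hI₂).1
      have hnear : ∀ᶠ t in 𝓝 t₂, t ∈ Ioo a b ∧ AnalyticAt ℝ ξ (r t).1.1 ∧
          (t ∈ C → (r t).1.2 = ξ (r t).1.1) := by
        filter_upwards [isOpen_Ioo.mem_nhds hI₂, hsc₂.eventually hξ.eventually_analyticAt, hxξ]
          with t a1 a2 a3
        exact ⟨a1, a2, a3⟩
      obtain ⟨ε, hε, hε'⟩ := Metric.eventually_nhds_iff_ball.1 hnear
      set a' : ℝ := t₂ - ε with ha'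
      set b' : ℝ := t₂ + ε with hb'
      have hin' : ∀ t ∈ Ioo a' b', t ∈ Ioo a b ∧ AnalyticAt ℝ ξ (r t).1.1 ∧
          (t ∈ C → (r t).1.2 = ξ (r t).1.1) := fun t ht => hε' t (by
        rw [Metric.mem_ball, Real.dist_eq, abs_lt]
        exact ⟨by linarith [ht.1], by linarith [ht.2]⟩)
      have hIab : Ioo a' b' ⊆ Ioo a b := fun t ht => (hin' t ht).1
      have hlt : a' < b' := by linarith
      obtain ⟨hle1, hle2⟩ := (Ioo_subset_Ioo_iff hlt).1 hIab
      have hsh := bd_shift (hbd.mono hle1 hle2) (ξ := ξ) (fun t ht => (hin' t ht).2.1)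
      have hI₂' : t₂ ∈ Ioo a' b' := ⟨by linarith, by linarith⟩
      obtain ⟨t₃, ht₃, ht₃', hG₃, ω, κ, hω, hlam, hE⟩ := bd_core hsh hx.perf ht₂ hI₂' (by
        filter_upwards [isOpen_Ioo.mem_nhds hI₂'] with t ht htC
        have h3 := (hin' t ht).2.2 htC
        refine ⟨by show (r t).1.2 - ξ (r t).1.1 = 0; rw [h3, sub_self], hϕC t htC, ?_⟩
        show f ((r t).1.1, ξ (r t).1.1 + ((r t).1.2 - ξ (r t).1.1)) = 0
        have h4 : ξ (r t).1.1 + ((r t).1.2 - ξ (r t).1.1) = (r t).1.2 := by ring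
        rw [h4]
        exact hz' t htC) hG
      obtain ⟨hI₃, hξ₃, hx₃⟩ := hin' t₃ ht₃'
      obtain ⟨i1, i2, i3⟩ := hin t₃ hI₃
      have hxt₃ : (r t₃).1.2 = ξ (r t₃).1.1 := hx₃ ht₃
      -- transfer to the original coordinates
      have hE' : ∀ᶠ z in 𝓝 (r t₃).1, ω z.1 * f z + h₀ (h z) = κ := by
        have h2 : ContinuousAt (fun z : ℝ × ℝ => ((z.1, z.2 - ξ z.1) : ℝ × ℝ)) (r t₃).1 := by
          refine continuousAt_fst.prodMk (continuousAt_snd.sub ?_)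
          exact ContinuousAt.comp (g := ξ) (f := fun z : ℝ × ℝ => z.1) hξ₃.continuousAt
            continuousAt_fst
        have h3 := h2.eventually hE
        filter_upwards [h3] with z hz1
        have h4 : ξ z.1 + (z.2 - ξ z.1) = z.2 := by ring
        simp only [h4] at hz1
        exact hz1
      -- `h₀` is not zero
      have hh₀ : h₀ ≠ 0 := by
        intro h00
        have hκ : κ = 0 := by
          have := hE'.self_of_nhds
          rw [h00, zero_apply, add_zero, hz' t₃ ht₃, mul_zero] at this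
          exact this.symm
        have hω0 : ω (r t₃).1.1 = 0 := by
          by_contra hne
          have h5 : ∀ᶠ z in 𝓝 (r t₃).1, ω z.1 ≠ 0 := by
            have h6 : ContinuousAt (fun z : ℝ × ℝ => ω z.1) (r t₃).1 :=
              ContinuousAt.comp (g := ω) (f := fun z : ℝ × ℝ => z.1) hω.continuousAt
                continuousAt_fst
            exact h6.eventually_ne hne
          have h7 : ∀ᶠ z in 𝓝 (r t₃).1, f z = 0 := by
            filter_upwards [h5, hE'] with z a1 a2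
            rw [h00, zero_apply, add_zero, hκ] at a2
            exact (mul_eq_zero.1 a2).resolve_left a1
          have h8 : ∀ᶠ X in 𝓝 (r t₃).1.2, f ((r t₃).1.1, X) = 0 := by
            have h9 : ContinuousAt (fun X : ℝ => (((r t₃).1.1, X) : ℝ × ℝ)) (r t₃).1.2 :=
              continuousAt_const.prodMk continuousAt_id
            exact h9.eventually h7
          have h10 : ∀ᶠ τ in 𝓝 t₃, (r τ).1.1 = (r t₃).1.1 :=
            s_const (f := f) (s := fun t => (r t).1.1) (x := fun t => (r t).1.2) i1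
              (hsd t₃ hI₃) (hcont t₃ hI₃).2 h8
          have h11 := hG₃ (fun v => v - (r t₃).1.1) (analyticAt_id.sub analyticAt_const) (by
            filter_upwards [h10] with τ hτ _
            rw [hτ, sub_self])
          have h12 : ∀ᶠ v in 𝓝 (r t₃).1.1, v = (r t₃).1.1 := by
            filter_upwards [h11] with v hv
            linarith
          have h13 : (𝓝[≠] (r t₃).1.1).NeBot := inferInstance
          have h14 : ∀ᶠ v in 𝓝[≠] (r t₃).1.1, False := by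
            rw [eventually_nhdsWithin_iff]
            filter_upwards [h12] with v hv hv2
            exact hv2 hv
          exact h14.exists.elim fun _ hh => hh
        have hlam3 := hlam.self_of_nhds ht₃
        have hϕ3 : p t₃ ((0, 1), 0) = 0 := hϕC t₃ ht₃
        have hl3 : p t₃ ((1, 0), 0) = 0 := by
          have h5 : p t₃ ((1, 0), 0) + deriv ξ (r t₃).1.1 * p t₃ ((0, 1), 0) = ω (r t₃).1.1 := hlam3
          rw [hϕ3, mul_zero, add_zero, hω0] at h5
          exact h5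
        refine hx.pn t₃ hI₃ ?_
        ext z
        · simp only [ContinuousLinearMap.comp_apply, ContinuousLinearMap.inl_apply]
          exact hl3
        · simp only [ContinuousLinearMap.comp_apply, ContinuousLinearMap.inl_apply, ContinuousLinearMap.inr_apply]
          exact hϕ3
        · simp only [ContinuousLinearMap.comp_apply, ContinuousLinearMap.inr_apply]
          have h6 := hp0 t₃ hI₃ z
          rw [h00, zero_apply] at h6
          simpa using h6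
      obtain ⟨Y', i5, i6, i7, π, j, e, hj, hIH⟩ := IH h₀ hh₀
      refine hfin t₃ ht₃ ?_
      have htr := hx.tr t₃ hI₃
      refine b_red π j e hj hu i1 i2 i3 htr hω hE' ?_
      have hπ : AnalyticAt ℝ (fun z => π (h z)) (r t₃).1 :=
        AnalyticAt.fun_comp (g := fun y => π y) (f := h) (π.analyticAt _) i3
      refine hIH _ _ t₃ (lt_of_le_of_lt hx.a0 hI₃.1) i1 i2 hπ ?_
      have hl := ltraj_lin (F' := FB f k fun z => π (h z)) (G' := GB) hu (hFB t₃ i1 i2 i3) (hGB t₃) htr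
        ((ContinuousLinearMap.fst ℝ (ℝ × ℝ) Y).prod (π.comp (ContinuousLinearMap.snd ℝ (ℝ × ℝ) Y)))
        (fun z => rfl) (fun z => by
          show (((0, 1), π 0) : (ℝ × ℝ) × Y') = ((0, 1), 0)
          rw [map_zero])
      exact hl
    · -- the points of `C` near some `t₃` are at rest
      rw [not_eventually] at hG
      obtain ⟨t₃, h3, h4, h5⟩ := (hG.and_eventually
        (hxξ.eventually_nhds.and ((isOpen_Ioo.mem_nhds hI₂ : ∀ᶠ t in 𝓝 t₂, t ∈ Ioo a b)))).exists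
      rw [Classical.not_imp] at h3
      obtain ⟨ht₃, hng⟩ := h3
      have h6 : ∃ a₁ : ℝ → ℝ, AnalyticAt ℝ a₁ (r t₃).1.1 ∧
          (∀ᶠ τ in 𝓝 t₃, τ ∈ C → a₁ (r τ).1.1 = 0) ∧ ¬ ∀ᶠ v in 𝓝 (r t₃).1.1, a₁ v = 0 := by
        by_contra h7
        refine hng fun a₁ h8 h9 => ?_
        by_contra h10
        exact h7 ⟨a₁, h8, h9, h10⟩
      obtain ⟨a₁, h8, h9, h10⟩ := h6
      have h11 := iso_zero (s := fun t => (r t).1.1) (hcont t₃ h5).1 h8 h9 h10
      refine b_perm hx (fun t ht => (hin t ht).1) (fun t ht => (hin t ht).2.1)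
        (fun t ht => (hin t ht).2.2) ht₃ ?_
      filter_upwards [h11, h4] with t a1 a2 htC
      have h12 : (r t).1.1 = (r t₃).1.1 := a1 htC
      refine Prod.ext h12 ?_
      rw [a2 htC, h12]
      exact (h4.self_of_nhds ht₃).symm
  · -- `s = s₁` on `C` near `t₁`
    have h11 := iso_zero (s := fun t => (r t).1.1) (hcont t₁ hI₁).1 hb' hbC hb0
    obtain ⟨i1, i2, i3⟩ := hin t₁ hI₁
    by_cases hl : ∀ᶠ X in 𝓝 (r t₁).1.2, f ((r t₁).1.1, X) = 0
    · exact hline t₁ ht₁ hl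
    have h12 : AnalyticAt ℝ (fun X : ℝ => f ((r t₁).1.1, X)) (r t₁).1.2 :=
      AnalyticAt.fun_comp (g := f) (f := fun X : ℝ => (((r t₁).1.1, X) : ℝ × ℝ)) i1
        (analyticAt_const.prod analyticAt_id)
    have h13 := iso_zero (s := fun t => (r t).1.2) (hcont t₁ hI₁).2 h12 (by
      filter_upwards [h11] with t a1 htC
      have h14 : (r t).1.1 = (r t₁).1.1 := a1 htC
      show f ((r t₁).1.1, (r t).1.2) = 0
      rw [← h14]
      exact hz' t htC) hl
    refine b_perm hx (fun t ht => (hin t ht).1) (fun t ht => (hin t ht).2.1)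
      (fun t ht => (hin t ht).2.2) ht₁ ?_
    filter_upwards [h11, h13] with t a1 a2 htC
    exact Prod.ext (a1 htC) (a2 htC)

theorem b_lrep (n : ℕ) : ∀ (Y : Type v) [NormedAddCommGroup Y] [NormedSpace ℝ Y]
    [FiniteDimensional ℝ Y], Module.finrank ℝ Y = n → ∀ (f k : ℝ × ℝ → ℝ) (h : ℝ × ℝ → Y)
    (u : ℝ → ℝ) (r : ℝ → (ℝ × ℝ) × Y) (t₀ : ℝ), 0 < t₀ → Adm u → AnalyticAt ℝ f (r t₀).1 →
    AnalyticAt ℝ k (r t₀).1 → AnalyticAt ℝ h (r t₀).1 →
    LTraj (FB f k h) GB u r t₀ → LRep (FB f k h) GB r t₀ := by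
  induction n with
  | zero =>
    intro Y _ _ _ hY f k h u r t₀ ht₀ hu hf hk hh hr
    exact b_step ht₀ hu hf hk hh hr fun h₀ hh₀ => absurd (h₀_zero hY h₀) hh₀
  | succ n ih =>
    intro Y _ _ _ hY f k h u r t₀ ht₀ hu hf hk hh hr
    refine b_step ht₀ hu hf hk hh hr fun h₀ hh₀ => ?_
    obtain ⟨π, e, hπ, hfr⟩ := ker_split hh₀
    refine ⟨LinearMap.ker (h₀ : Y →ₗ[ℝ] ℝ), inferInstance, inferInstance, inferInstance, π,
      (LinearMap.ker (h₀ : Y →ₗ[ℝ] ℝ)).subtypeL, e, hπ, ?_⟩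
    intro h' r' t₂ ht₂ hf2 hk2 hh2 hr2
    exact ih _ (by omega) f k h' u r' t₂ ht₂ hu hf2 hk2 hh2 hr2

end Pool.Agent.Lib.MP_28b8de_an.KK
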