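import Pool.Agent.Lib.MP_28b8de_an.K.KDefs
import Pool.Agent.Lib.MP_28b8de_an.D.DCaseB

/-!
MP_28b8de_an, module KB0.

Points where the controlled field vanishes on C: the trajectory is analytic.
PROOF.  See the proof of `DD.caseB` (file D/DCaseB.lean, complete): it constructs γ (ode_ex), shows G (t, γ t) = 0 near t₀ (zcurve) and x = γ near t₀.  Same proof with this conclusion.
-/

set_option linter.unusedSectionVars false

namespace Pool.Agent.Lib.MP_28b8de_an.KK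

open Filter Topology Set MeasureTheory
open Pool.Agent.Lib.MP_28b8de_an.PT (Adm Perf)
open Pool.Agent.Lib.MP_28b8de_an.TT (Env Sol Jn Tr SmAt Goal dx Dn Gen Lc Lp Lq fX cf)
open Pool.Agent.Lib.MP_28b8de_an.DD (LTraj LRep Ch)

variable {V : Type*} [NormedAddCommGroup V] [NormedSpace ℝ V] [FiniteDimensional ℝ V]

/-- an eventual property holds on a symmetric interval -/
private theorem KB0_ev {P : ℝ → Prop} {t₀ : ℝ} (h : ∀ᶠ t in 𝓝 t₀, P t) :
    ∃ δ > 0, ∀ t ∈ Ioo (t₀ - δ) (t₀ + δ), P t := by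
  obtain ⟨δ, hδ, h1⟩ := Metric.eventually_nhds_iff.1 h
  refine ⟨δ, hδ, fun t ht => h1 ?_⟩
  rw [Real.dist_eq, abs_lt]
  constructor <;> linarith [ht.1, ht.2]

private theorem KB0_uI {a b s t : ℝ} (hs : s ∈ Ioo a b) (ht : t ∈ Ioo a b) : uIcc s t ⊆ Ioo a b :=
  ordConnected_Ioo.uIcc_subset hs ht

theorem caseB0 {F G : ℝ × V → V} {u : ℝ → ℝ} (hu : Adm u) {x : ℝ → V} {T : ℝ} {C : Set ℝ}
    (hC : Perf T C) {t₀ : ℝ} (ht₀ : t₀ ∈ C) (hF : AnalyticAt ℝ F (t₀, x t₀))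
    (hG : AnalyticAt ℝ G (t₀, x t₀)) (hx : LTraj F G u x t₀)
    (h0 : ∀ᶠ t in 𝓝 t₀, t ∈ C → G (t, x t) = 0) :
    ∃ γ : ℝ → V, AnalyticAt ℝ γ t₀ ∧
      ∀ᶠ t in 𝓝 t₀, x t = γ t ∧ HasDerivAt γ (F (t, γ t)) t ∧ G (t, γ t) = 0 := by
  have : CompleteSpace V := FiniteDimensional.complete ℝ V
  obtain ⟨γ, hγa, hγ0, hγd⟩ := DD.ode_ex hF
  obtain ⟨K₁, s₁, hs₁, hL₁⟩ := ContDiffAt.exists_lipschitzOnWith (hF.contDiffAt (n := 1))
  obtain ⟨K₂, s₂, hs₂, hL₂⟩ := ContDiffAt.exists_lipschitzOnWith (hG.contDiffAt (n := 1))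
  set U : Set (ℝ × V) := {z | AnalyticAt ℝ F z} ∩ {z | AnalyticAt ℝ G z} with hUdef
  have hU : IsOpen U := (isOpen_analyticAt ℝ F).inter (isOpen_analyticAt ℝ G)
  have hUm : U ∈ 𝓝 (t₀, x t₀) := hU.mem_nhds ⟨hF, hG⟩
  have hN : U ∩ (s₁ ∩ s₂) ∈ 𝓝 (t₀, x t₀) := inter_mem hUm (inter_mem hs₁ hs₂)
  have hxc := DD.ltraj_cont hx
  have hxc0 : ContinuousAt x t₀ := hxc.self_of_nhds
  have hxN : ∀ᶠ t in 𝓝 t₀, (t, x t) ∈ U ∩ (s₁ ∩ s₂) :=
    (continuousAt_id.prodMk hxc0).eventually_mem hN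
  have hγN : ∀ᶠ t in 𝓝 t₀, (t, γ t) ∈ U ∩ (s₁ ∩ s₂) := by
    refine (continuousAt_id.prodMk hγa.continuousAt).eventually_mem ?_
    simpa [hγ0] using hN
  obtain ⟨ε₁, hε₁, -, hxi⟩ := hx
  have hI : ∀ᶠ t in 𝓝 t₀, t ∈ Ioo (t₀ - ε₁) (t₀ + ε₁) :=
    Ioo_mem_nhds (by linarith) (by linarith)
  obtain ⟨δ, hδ, hall⟩ := KB0_ev
    (hxc.and (hxN.and (hγN.and (hγd.and (h0.and (hI.and hγa.eventually_analyticAt))))))
  set J : Set ℝ := Ioo (t₀ - δ) (t₀ + δ) with hJ
  have ht₀J : t₀ ∈ J := ⟨by linarith, by linarith⟩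
  have hJo : IsOpen J := isOpen_Ioo
  have hxJ : ContinuousOn x J := fun t ht => (hall t ht).1.continuousWithinAt
  have hγJ : ContinuousOn γ J := fun t ht => (hall t ht).2.2.2.2.2.2.continuousAt.continuousWithinAt
  have hFx : ContinuousOn (fun t => F (t, x t)) J := fun t ht =>
    (ContinuousAt.comp (f := fun t => (t, x t)) (hall t ht).2.1.1.1.continuousAt
      (continuousAt_id.prodMk (hall t ht).1)).continuousWithinAt
  have hGx : ContinuousOn (fun t => G (t, x t)) J := fun t ht =>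
    (ContinuousAt.comp (f := fun t => (t, x t)) (hall t ht).2.1.1.2.continuousAt
      (continuousAt_id.prodMk (hall t ht).1)).continuousWithinAt
  have hFγ : ContinuousOn (fun t => F (t, γ t)) J := fun t ht =>
    (ContinuousAt.comp (f := fun t => (t, γ t)) (hall t ht).2.2.1.1.1.continuousAt
      (continuousAt_id.prodMk (hall t ht).2.2.2.2.2.2.continuousAt)).continuousWithinAt
  -- the derivative of `x` on `C`
  have hder : ∀ t ∈ C, t ∈ J → HasDerivAt x (F (t, x t)) t := by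
    intro t htC htJ
    have hG0 : G (t, x t) = 0 := (hall t htJ).2.2.2.2.1 htC
    have hcG : ContinuousAt (fun τ => u τ • G (τ, x τ)) t := by
      have h1 : Tendsto (fun τ => G (τ, x τ)) (𝓝 t) (𝓝 0) := by
        have := (hGx.continuousAt (hJo.mem_nhds htJ)).tendsto
        rwa [hG0] at this
      have h2 : Tendsto (fun τ => u τ • G (τ, x τ)) (𝓝 t) (𝓝 0) := by
        rw [tendsto_zero_iff_norm_tendsto_zero] at h1 ⊢
        refine squeeze_zero (fun τ => norm_nonneg _) (fun τ => ?_) h1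
        rw [norm_smul]
        exact mul_le_of_le_one_left (norm_nonneg _) (by simpa using hu.2 τ)
      change Tendsto (fun τ => u τ • G (τ, x τ)) (𝓝 t) (𝓝 (u t • G (t, x t)))
      rw [hG0, smul_zero]
      exact h2
    have hcf : ContinuousAt (fun τ => F (τ, x τ) + u τ • G (τ, x τ)) t :=
      (hFx.continuousAt (hJo.mem_nhds htJ)).add hcG
    have hm : StronglyMeasurableAtFilter (fun τ => F (τ, x τ) + u τ • G (τ, x τ)) (𝓝 t) volume :=
      ⟨J, hJo.mem_nhds htJ, (hFx.aestronglyMeasurable measurableSet_Ioo).add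
        (hu.1.aestronglyMeasurable.smul (hGx.aestronglyMeasurable measurableSet_Ioo))⟩
    have h3 := intervalIntegral.integral_hasDerivAt_right
      (a := t) (b := t) (f := fun τ => F (τ, x τ) + u τ • G (τ, x τ)) (by simp) hm hcf
    have h4 : HasDerivAt (fun s => x t + ∫ τ in t..s, (F (τ, x τ) + u τ • G (τ, x τ)))
        (F (t, x t)) t := by
      have := h3.const_add (x t)
      simpa [hG0] using this
    refine h4.congr_of_eventuallyEq ?_
    filter_upwards [hJo.mem_nhds htJ] with s hs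
    have := hxi t (hall t htJ).2.2.2.2.2.1 s (hall s hs).2.2.2.2.2.1
    rw [← this]
    abel
  -- the field `G` vanishes along `γ`
  have hGγ : ∀ t ∈ J, G (t, γ t) = 0 := by
    refine DD.zcurve (E := V) (E' := V) hU (H := F) (a := G) (fun z hz => hz.1) (fun z hz => hz.2) hC ht₀ hδ
      (y := x) ?_ (γ := γ) ht₀J ?_ hγ0
    · intro t htC htd
      have htJ : t ∈ J := by
        rw [abs_lt] at htd
        exact ⟨by linarith [htd.1], by linarith [htd.2]⟩
      exact ⟨(hall t htJ).2.1.1, hder t htC htJ, (hall t htJ).2.2.2.2.1 htC⟩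
    · intro t ht
      exact ⟨(hall t ht).2.2.1.1, (hall t ht).2.2.2.1⟩
  -- `x = γ` near `t₀`
  have hdiff : ∀ t ∈ J, x t - γ t = ∫ τ in t₀..t, ((F (τ, x τ) + u τ • G (τ, x τ)) - F (τ, γ τ)) := by
    intro t ht
    have hsub : uIcc t₀ t ⊆ J := KB0_uI ht₀J ht
    have hi2 : IntervalIntegrable (fun τ => F (τ, γ τ)) volume t₀ t :=
      (hFγ.mono hsub).intervalIntegrable
    have hi3 : IntervalIntegrable (fun τ => F (τ, x τ)) volume t₀ t :=
      (hFx.mono hsub).intervalIntegrable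
    have hi4 : IntervalIntegrable (fun τ => u τ • G (τ, x τ)) volume t₀ t := by
      have h5 : IntervalIntegrable (fun τ => G (τ, x τ)) volume t₀ t :=
        (hGx.mono hsub).intervalIntegrable
      rw [intervalIntegrable_iff] at h5 ⊢
      refine Integrable.mono h5 (hu.1.aestronglyMeasurable.smul h5.aestronglyMeasurable)
        (Eventually.of_forall fun τ => ?_)
      rw [norm_smul]
      exact mul_le_of_le_one_left (norm_nonneg _) (by simpa using hu.2 τ)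
    rw [intervalIntegral.integral_sub (hi3.add hi4) hi2]
    rw [← hxi t₀ (hall t₀ ht₀J).2.2.2.2.2.1 t (hall t ht).2.2.2.2.2.1]
    rw [intervalIntegral.integral_eq_sub_of_hasDerivAt (f := γ)
      (fun τ hτ => (hall τ (hsub hτ)).2.2.2.1) hi2, hγ0]
    abel
  have hK : ∀ τ ∈ J, ‖(F (τ, x τ) + u τ • G (τ, x τ)) - F (τ, γ τ)‖ ≤ (K₁ + K₂) * ‖x τ - γ τ‖ := by
    intro τ hτ
    have h1 : ‖F (τ, x τ) - F (τ, γ τ)‖ ≤ K₁ * ‖x τ - γ τ‖ := by
      have := hL₁.norm_sub_le (hall τ hτ).2.1.2.1 (hall τ hτ).2.2.1.2.1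
      simpa [Prod.norm_def] using this
    have h2 : ‖G (τ, x τ) - G (τ, γ τ)‖ ≤ K₂ * ‖x τ - γ τ‖ := by
      have := hL₂.norm_sub_le (hall τ hτ).2.1.2.2 (hall τ hτ).2.2.1.2.2
      simpa [Prod.norm_def] using this
    rw [hGγ τ hτ, sub_zero] at h2
    have h3 : ‖u τ • G (τ, x τ)‖ ≤ K₂ * ‖x τ - γ τ‖ := by
      rw [norm_smul]
      exact (mul_le_of_le_one_left (norm_nonneg _) (by simpa using hu.2 τ)).trans h2
    calc ‖(F (τ, x τ) + u τ • G (τ, x τ)) - F (τ, γ τ)‖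
        = ‖(F (τ, x τ) - F (τ, γ τ)) + u τ • G (τ, x τ)‖ := by
          congr 1
          abel
      _ ≤ ‖F (τ, x τ) - F (τ, γ τ)‖ + ‖u τ • G (τ, x τ)‖ := norm_add_le _ _
      _ ≤ (K₁ + K₂) * ‖x τ - γ τ‖ := by linarith
  have hdc : ContinuousOn (fun t => ‖x t - γ t‖) J := (hxJ.sub hγJ).norm
  have hzero := TT.zero_near (f := fun t => ‖x t - γ t‖) (K := K₁ + K₂) ht₀J hdc (by positivity) (by
    intro t ht
    have hsub : uIcc t₀ t ⊆ J := KB0_uI ht₀J ht
    simp only [abs_norm]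
    rw [hdiff t ht]
    refine (intervalIntegral.norm_integral_le_abs_of_norm_le
      (g := fun τ => (K₁ + K₂) * ‖x τ - γ τ‖) ?_ ?_).trans (le_of_eq ?_)
    · rw [ae_restrict_iff' measurableSet_uIoc]
      exact Eventually.of_forall fun τ hτ => hK τ (hsub (uIoc_subset_uIcc hτ))
    · exact ((continuousOn_const.mul hdc).mono hsub).intervalIntegrable
    · rw [intervalIntegral.integral_const_mul, abs_mul, abs_of_nonneg (by positivity)])
  have heq : ∀ t ∈ J, x t = γ t := fun t ht => by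
    have := hzero t ht
    exact sub_eq_zero.1 (norm_eq_zero.1 this)
  refine ⟨γ, hγa, ?_⟩
  filter_upwards [hJo.mem_nhds ht₀J] with t ht
  exact ⟨heq t ht, (hall t ht).2.2.2.1, hGγ t ht⟩

end Pool.Agent.Lib.MP_28b8de_an.KK
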