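import Pool.Agent.Lib.MP_28b8de_an.K.KHam

/-!
MP_28b8de_an, module KBFacts.

What holds on C.
PROOFS.  bd_facts: X t₁ = 0, so f, η are analytic at (s t₁, 0).  a v := f (v,0): a (s t) = f (s t, X t) = 0 for t ∈ C near t₁; Gen C s t₁ gives f (v,0) = 0 near s t₁.  κ := η (s t₁,0): for t ∈ C near t₁ bd_ham between t₁ and t gives η (s t,0) = κ
(f = 0, ϕ = 0 there), Gen again.  ϕ is differentiable with ϕ' = -(lam Dn f + ϕ Dn k + Dn η) and ϕ = 0 on C near t₁: `TT.der_zero` at the points t ∈ C near t₁ (eventually_eventually).  `TT.kder_ev` with m = X, A = k (s,X), B = 1.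
bd_rest: by `TT.three_points` (and continuity of s) take r < t₂ < r' in C so close to t₁ that also f (s t,0) = 0 for t ∈ [r,r'], Gen C s t₂.  X = 0 on [r,r'], so s' = f (s,0) = 0: s is constant on (r,r'), s = s t₂.
Gen C s t₂ with a v := v - s t₂: v = s t₂ for all v near s t₂, impossible.
-/

set_option linter.unusedSectionVars false

namespace Pool.Agent.Lib.MP_28b8de_an.KK

open Filter Topology Set MeasureTheory
open Pool.Agent.Lib.MP_28b8de_an.PT (Adm Perf)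
open Pool.Agent.Lib.MP_28b8de_an.TT (Env Sol Jn Tr SmAt Goal dx Dn Gen Lc Lp Lq fX cf)
open Pool.Agent.Lib.MP_28b8de_an.DD (LTraj LRep Ch)

private theorem KBFacts_an {g : ℝ × ℝ → ℝ} {v : ℝ} (hg : AnalyticAt ℝ g (v, 0)) :
    AnalyticAt ℝ (fun w : ℝ => g (w, 0)) v := by
  have h1 : AnalyticAt ℝ (fun w : ℝ => ((w, 0) : ℝ × ℝ)) v := analyticAt_id.prod analyticAt_const
  exact AnalyticAt.comp (g := g) (f := fun w : ℝ => ((w, 0) : ℝ × ℝ)) hg h1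

theorem bd_facts {f k η : ℝ × ℝ → ℝ} {u : ℝ → ℝ} {a b : ℝ} {s X lam ϕ : ℝ → ℝ}
    (h : BD f k η u a b s X lam ϕ) {T : ℝ} {C : Set ℝ} (hC : Perf T C) {t₁ : ℝ} (ht₁ : t₁ ∈ C)
    (hab : t₁ ∈ Ioo a b)
    (h0 : ∀ᶠ t in 𝓝 t₁, t ∈ C → X t = 0 ∧ ϕ t = 0 ∧ f (s t, X t) = 0)
    (hg : ∀ᶠ t in 𝓝 t₁, t ∈ C → Gen C s t) :
    ∃ κ : ℝ, (∀ᶠ v in 𝓝 (s t₁), f (v, 0) = 0 ∧ η (v, 0) = κ) ∧
      ∀ᶠ t in 𝓝 t₁, t ∈ C → lam t * Dn f (s t, 0) + Dn η (s t, 0) = 0 ∧ |k (s t, 0)| ≤ 1 := by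
  obtain ⟨hX1, hϕ1, hf1⟩ := h0.self_of_nhds ht₁
  have hI : ∀ᶠ t in 𝓝 t₁, t ∈ Ioo a b := isOpen_Ioo.mem_nhds hab
  have hG : Gen C s t₁ := hg.self_of_nhds ht₁
  have hfa : AnalyticAt ℝ f (s t₁, 0) := by
    have := h.fa t₁ hab
    rwa [hX1] at this
  have hηa : AnalyticAt ℝ η (s t₁, 0) := by
    have := h.ηa t₁ hab
    rwa [hX1] at this
  have e1 : ∀ᶠ v in 𝓝 (s t₁), f (v, 0) = 0 := by
    refine hG (fun v => f (v, 0)) (KBFacts_an hfa) ?_
    filter_upwards [h0] with t ht htC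
    obtain ⟨a1, -, a3⟩ := ht htC
    rw [a1] at a3
    exact a3
  have e2 : ∀ᶠ v in 𝓝 (s t₁), η (v, 0) - η (s t₁, 0) = 0 := by
    refine hG (fun v => η (v, 0) - η (s t₁, 0)) ((KBFacts_an hηa).sub analyticAt_const) ?_
    filter_upwards [h0, hI] with t ht htI htC
    obtain ⟨a1, a2, a3⟩ := ht htC
    have h1 := bd_ham h t₁ hab t htI
    rw [a3, a2, a1, hf1, hϕ1, hX1] at h1
    simp only [mul_zero, zero_mul, abs_zero, zero_add] at h1
    show η (s t, 0) - η (s t₁, 0) = 0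
    linarith
  have e3 : ∀ᶠ t in 𝓝 t₁, t ∈ C → lam t * Dn f (s t, 0) + Dn η (s t, 0) = 0 := by
    filter_upwards [h0.eventually_nhds, hI] with t ht htI htC
    obtain ⟨a1, a2, -⟩ := ht.self_of_nhds htC
    have h1 := TT.der_zero hC htC (h.ϕd t htI) (ht.mono fun r hr hrC => (hr hrC).2.1)
    rw [a1, a2, zero_mul, add_zero] at h1
    linarith
  have e4 : ∀ᶠ t in 𝓝 t₁, t ∈ C → |k (s t, X t)| ≤ |(1 : ℝ)| := by
    have hpos : 0 < min (t₁ - a) (b - t₁) := lt_min (by linarith [hab.1]) (by linarith [hab.2])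
    have hsub : Ioo (t₁ - min (t₁ - a) (b - t₁)) (t₁ + min (t₁ - a) (b - t₁)) ⊆ Ioo a b := by
      have m1 := min_le_left (t₁ - a) (b - t₁)
      have m2 := min_le_right (t₁ - a) (b - t₁)
      exact Ioo_subset_Ioo (by linarith) (by linarith)
    refine TT.kder_ev hC ht₁ (A := fun t => k (s t, X t)) (B := fun _ => 1) (u := u) (m := X) h.adm
      ?_ (Eventually.of_forall fun _ => continuousAt_const) (h0.mono fun t ht htC => (ht htC).1)
      hpos ?_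
    · filter_upwards [hI] with t ht
      have h1 : ContinuousAt (fun t => (s t, X t)) t := (bd_cont h ht).1.prodMk (bd_cont h ht).2.1
      exact ContinuousAt.comp (g := k) (f := fun t => (s t, X t)) (h.ka t ht).continuousAt h1
    · intro r hr r' hr'
      rw [h.Xeq r (hsub hr) r' (hsub hr')]
      simp only [mul_one]
  refine ⟨η (s t₁, 0), ?_, ?_⟩
  · filter_upwards [e1, e2] with v h1 h2
    exact ⟨h1, by linarith⟩
  · filter_upwards [e3, e4, h0] with t h1 h2 h3 htC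
    refine ⟨h1 htC, ?_⟩
    have h4 := h2 htC
    rw [(h3 htC).1, abs_one] at h4
    exact h4

theorem bd_rest {f k η : ℝ × ℝ → ℝ} {u : ℝ → ℝ} {a b : ℝ} {s X lam ϕ : ℝ → ℝ}
    (h : BD f k η u a b s X lam ϕ) {T : ℝ} {C : Set ℝ} (hC : Perf T C) {t₁ : ℝ} (ht₁ : t₁ ∈ C)
    (hab : t₁ ∈ Ioo a b) (hf : ∀ᶠ v in 𝓝 (s t₁), f (v, 0) = 0)
    (hg : ∀ᶠ t in 𝓝 t₁, t ∈ C → Gen C s t) {δ : ℝ} (hδ : 0 < δ)
    (hX : ∀ r ∈ C, ∀ r' ∈ C, r < r' → |r - t₁| < δ → |r' - t₁| < δ → ∀ t ∈ Icc r r', X t = 0) :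
    False := by
  have hI : ∀ᶠ t in 𝓝 t₁, t ∈ Ioo a b := isOpen_Ioo.mem_nhds hab
  have hsc : ContinuousAt s t₁ := (bd_cont h hab).1
  have hall : ∀ᶠ t in 𝓝 t₁, t ∈ Ioo a b ∧ f (s t, 0) = 0 ∧ (t ∈ C → Gen C s t) := by
    filter_upwards [hI, hsc.eventually hf, hg] with t a1 a2 a3
    exact ⟨a1, a2, a3⟩
  obtain ⟨ε, hε, hball⟩ := Metric.eventually_nhds_iff_ball.1 hall
  have hin : ∀ t, |t - t₁| < ε → t ∈ Ioo a b ∧ f (s t, 0) = 0 ∧ (t ∈ C → Gen C s t) :=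
    fun t ht => hball t (by rw [Metric.mem_ball, Real.dist_eq]; exact ht)
  obtain ⟨r, hr, t₂, ht₂, r', hr', l1, l2, d1, d2, d3⟩ := TT.three_points hC ht₁ (lt_min hε hδ)
  have d1' := lt_min_iff.1 d1
  have d2' := lt_min_iff.1 d2
  have d3' := lt_min_iff.1 d3
  have hXz := hX r hr r' hr' (l1.trans l2) d1'.2 d3'.2
  have hnear : ∀ t ∈ Icc r r', |t - t₁| < ε := by
    intro t ht
    have k1 := abs_lt.1 d1'.1
    have k2 := abs_lt.1 d3'.1
    rw [abs_lt]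
    exact ⟨by linarith [ht.1], by linarith [ht.2]⟩
  have hd : ∀ t ∈ Icc r r', HasDerivAt s 0 t := by
    intro t ht
    obtain ⟨a1, a2, -⟩ := hin t (hnear t ht)
    have h1 := h.sd t a1
    rw [hXz t ht, a2] at h1
    exact h1
  have hconst : ∀ t ∈ Icc r r', s t = s r :=
    constant_of_has_deriv_right_zero (fun t ht => (hd t ht).continuousAt.continuousWithinAt)
      fun t ht => (hd t ⟨ht.1, ht.2.le⟩).hasDerivWithinAt
  have hG : Gen C s t₂ := (hin t₂ d2'.1).2.2 ht₂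
  have hev : ∀ᶠ v in 𝓝 (s t₂), v - s t₂ = 0 := by
    refine hG (fun v => v - s t₂) (analyticAt_id.sub analyticAt_const) ?_
    filter_upwards [Icc_mem_nhds l1 l2] with t ht _
    show s t - s t₂ = 0
    rw [hconst t ht, hconst t₂ ⟨l1.le, l2.le⟩, sub_self]
  obtain ⟨e, he, hb⟩ := Metric.eventually_nhds_iff_ball.1 hev
  have h1 := hb (s t₂ + e / 2) (by
    rw [Metric.mem_ball, Real.dist_eq, add_sub_cancel_left, abs_of_pos (by linarith)]
    linarith)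
  linarith

end Pool.Agent.Lib.MP_28b8de_an.KK
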