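import Pool.Agent.Lib.MP_28b8de_an.K.KGap4
import Pool.Agent.Lib.MP_28b8de_an.T.TLc1
import Pool.Agent.Lib.MP_28b8de_an.T.TLcD
import Pool.Agent.Lib.MP_28b8de_an.T.TLcR

/-!
MP_28b8de_an, module KLc4.

Local version of the variant of gap lemma 1.
Variant of `TT.lc_one` (file T/TLc1.lean, complete; adapt it) with gap_four instead of gap_one: pp = 1, and y' may be of the size of ϕ.
PROOF.  lc_rl, lc_Db as there.  Instead of lc_Di: D t := Bf (w t,Y t,X t) - Bf (w t,0,0) is Lipschitz near t₀ with D' = b (α + u g) + ψ a.e., ψ := fderiv Bf (w,Y,X) (w',0,0) - fderiv Bf (w,0,0) (w',0,0) + fderiv Bf (w,Y,X) (0,1,0) y',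
|ψ| ≤ K (|X|^m + |Y|) + K |y'| ≤ K'' (|X|^m + |Y| + |ϕ|) (adapt the proof of `TT.lc_Di` in T/TLcD.lean; TT.B_est).  |Y t| = |∫_s^t y'|.  Common constants, gap_four.
-/

set_option linter.unusedSectionVars false

namespace Pool.Agent.Lib.MP_28b8de_an.KK

open Filter Topology Set MeasureTheory
open Pool.Agent.Lib.MP_28b8de_an.PT (Adm Perf)
open Pool.Agent.Lib.MP_28b8de_an.TT (Env Sol Jn Tr SmAt Goal dx Dn Gen Lc Lp Lq fX cf)
open Pool.Agent.Lib.MP_28b8de_an.DD (LTraj LRep Ch)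

open Pool.Agent.Lib.MP_28b8de_an.TT (B_est lc_lip an_lip lc_near lc_rl lc_Db fX_an)

section

variable {W : Type*} [NormedAddCommGroup W] [NormedSpace ℝ W] [FiniteDimensional ℝ W]
  {K a b t₀ : ℝ} {u : ℝ → ℝ} {w w' : ℝ → W} {Y y' X : ℝ → ℝ} {α g : W × ℝ × ℝ → ℝ}

private theorem KLc4_curve (h : Lc K u a b w w' Y y' X α g) {t : ℝ} (ht : t ∈ Ioo a b) :
    ContinuousAt (fun t => (w t, Y t, X t)) t :=
  (h.wd t ht).continuousAt.prodMk ((h.Yd t ht).continuousAt.prodMk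
    (h.Xc.continuousAt (Ioo_mem_nhds ht.1 ht.2)))

private theorem KLc4_fd {E : Type*} [NormedAddCommGroup E] [NormedSpace ℝ E] {f : E → ℝ} {z : E}
    (hf : AnalyticAt ℝ f z) : ContinuousAt (fderiv ℝ f) z := hf.fderiv.continuousAt

private theorem KLc4_nhds {P : ℝ → Prop} (h : ∀ᶠ t in 𝓝 t₀, P t) :
    ∃ δ > 0, ∀ t ∈ Ioo (t₀ - δ) (t₀ + δ), P t := by
  obtain ⟨δ, hδ, hs⟩ := Metric.eventually_nhds_iff_ball.1 h
  refine ⟨δ, hδ, fun t ht => hs t ?_⟩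
  rw [Real.ball_eq_Ioo]
  exact ht

private theorem KLc4_Di {ϕ : ℝ → ℝ} (h : Lc K u a b w w' Y y' X α g) (h₀ : Lp a b w Y X α g t₀)
    {Bf : W × ℝ × ℝ → ℝ} (hB : AnalyticAt ℝ Bf (w t₀, 0, 0)) {m : ℕ}
    (ho : ∀ j < m, ∀ᶠ v in 𝓝 (w t₀), Dn^[j] (fX Bf) (v, 0) = 0)
    {K' : ℝ} (hy : ∀ᶠ t in 𝓝 t₀, |y' t| ≤ K' * (|X t| ^ m + |Y t| + |ϕ t|)) :
    ∃ (K₁ δ : ℝ) (ψ : ℝ → ℝ), 1 ≤ K₁ ∧ 0 < δ ∧ Ioo (t₀ - δ) (t₀ + δ) ⊆ Ioo a b ∧
      ContinuousOn ψ (Ioo (t₀ - δ) (t₀ + δ)) ∧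
      (∀ t ∈ Ioo (t₀ - δ) (t₀ + δ), |ψ t| ≤ K₁ * (|X t| ^ m + |Y t| + |ϕ t|)) ∧
      ∀ s ∈ Ioo (t₀ - δ) (t₀ + δ), ∀ t ∈ Ioo (t₀ - δ) (t₀ + δ),
        (Bf (w t, Y t, X t) - Bf (w t, 0, 0)) - (Bf (w s, Y s, X s) - Bf (w s, 0, 0)) =
          ∫ r in s..t, (fderiv ℝ Bf (w r, Y r, X r) (0, 0, 1)
            * (α (w r, Y r, X r) + u r * g (w r, Y r, X r)) + ψ r) := by
  obtain ⟨K0, hK0, hest⟩ := B_est hB ho
  obtain ⟨KL, δL, hKL, hδL, hsubL, hlip⟩ := lc_lip h h₀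
  obtain ⟨KB, hKB, ρ, hρ, hBl⟩ := an_lip hB
  obtain ⟨δy, hδy, hyy⟩ := KLc4_nhds hy
  have hpr : Tendsto (fun z : W × ℝ × ℝ => (z.1, (0 : ℝ), (0 : ℝ))) (𝓝 (w t₀, 0, 0))
      (𝓝 (w t₀, 0, 0)) := by
    have h0 : Continuous (fun z : W × ℝ × ℝ => (z.1, (0 : ℝ), (0 : ℝ))) := by fun_prop
    exact h0.tendsto (w t₀, 0, 0)
  have hcd : ∀ᶠ z in 𝓝 (w t₀, (0 : ℝ), (0 : ℝ)),
      ‖fderiv ℝ Bf z‖ < ‖fderiv ℝ Bf (w t₀, 0, 0)‖ + 1 :=
    (KLc4_fd hB).norm.eventually (gt_mem_nhds (by linarith))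
  obtain ⟨δ1, hδ1, hsub1, hall⟩ := lc_near h h₀ (P := fun z => (_ ∧ _ ∧ _) ∧
    ((AnalyticAt ℝ Bf z ∧ z ∈ Metric.ball (w t₀, (0 : ℝ), (0 : ℝ)) ρ) ∧
      (AnalyticAt ℝ Bf (z.1, 0, 0) ∧ (z.1, (0 : ℝ), (0 : ℝ)) ∈
        Metric.ball (w t₀, (0 : ℝ), (0 : ℝ)) ρ)) ∧
      (‖fderiv ℝ Bf z‖ < ‖fderiv ℝ Bf (w t₀, 0, 0)‖ + 1 ∧ AnalyticAt ℝ α z ∧ AnalyticAt ℝ g z))
    (hest.and (((hB.eventually_analyticAt.and (Metric.ball_mem_nhds _ hρ)).and
      (hpr.eventually (hB.eventually_analyticAt.and (Metric.ball_mem_nhds _ hρ)))).and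
      (hcd.and (h₀.αa.eventually_analyticAt.and h₀.ga.eventually_analyticAt))))
  -- the final radius
  obtain ⟨δ, hδ, hd1, hdL, hdy⟩ : ∃ δ : ℝ, 0 < δ ∧ δ < δ1 ∧ δ < δL ∧ δ < δy := by
    refine ⟨min δ1 (min δL δy) / 2, by positivity, ?_, ?_, ?_⟩
    · have : min δ1 (min δL δy) ≤ δ1 := min_le_left _ _
      linarith
    · have : min δ1 (min δL δy) ≤ δL := (min_le_right _ _).trans (min_le_left _ _)
      linarith
    · have : min δ1 (min δL δy) ≤ δy := (min_le_right _ _).trans (min_le_right _ _)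
      linarith
  have hc1 : Icc (t₀ - δ) (t₀ + δ) ⊆ Ioo (t₀ - δ1) (t₀ + δ1) := fun t ht =>
    ⟨by linarith [ht.1], by linarith [ht.2]⟩
  have hcL : Icc (t₀ - δ) (t₀ + δ) ⊆ Ioo (t₀ - δL) (t₀ + δL) := fun t ht =>
    ⟨by linarith [ht.1], by linarith [ht.2]⟩
  have hcy : Icc (t₀ - δ) (t₀ + δ) ⊆ Ioo (t₀ - δy) (t₀ + δy) := fun t ht =>
    ⟨by linarith [ht.1], by linarith [ht.2]⟩
  have hcab : Icc (t₀ - δ) (t₀ + δ) ⊆ Ioo a b := hc1.trans hsub1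
  have hio : Ioo (t₀ - δ) (t₀ + δ) ⊆ Icc (t₀ - δ) (t₀ + δ) := Ioo_subset_Icc_self
  -- continuity along the curve
  have hcomp : ∀ {f : W × ℝ × ℝ → ℝ} {t : ℝ},
      t ∈ Icc (t₀ - δ) (t₀ + δ) → ContinuousAt f (w t, Y t, X t) →
      ContinuousAt (fun t => f (w t, Y t, X t)) t := by
    intro f t ht hf
    exact ContinuousAt.comp (f := fun t => (w t, Y t, X t)) hf (KLc4_curve h (hcab ht))
  have hw0 : ∀ t ∈ Icc (t₀ - δ) (t₀ + δ), ContinuousAt (fun t => (w t, (0 : ℝ), (0 : ℝ))) t :=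
    fun t ht => (h.wd t (hcab ht)).continuousAt.prodMk continuousAt_const
  have hw'c : ∀ t ∈ Icc (t₀ - δ) (t₀ + δ), ContinuousAt w' t := fun t ht =>
    h.wc.continuousAt (Ioo_mem_nhds (hcab ht).1 (hcab ht).2)
  have hy'c : ∀ t ∈ Icc (t₀ - δ) (t₀ + δ), ContinuousAt y' t := fun t ht =>
    h.Yc.continuousAt (Ioo_mem_nhds (hcab ht).1 (hcab ht).2)
  obtain ⟨ψ, hψ⟩ : ∃ ψ : ℝ → ℝ, ψ = fun r => fderiv ℝ Bf (w r, Y r, X r) (w' r, 0, 0) -
    fderiv ℝ Bf (w r, 0, 0) (w' r, 0, 0) + fderiv ℝ Bf (w r, Y r, X r) (0, y' r, 0) := ⟨_, rfl⟩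
  -- the derivative of `X`
  have hξ : IntervalIntegrable (fun r => α (w r, Y r, X r) + u r * g (w r, Y r, X r)) volume
      (t₀ - δ) (t₀ + δ) := by
    have hle : t₀ - δ ≤ t₀ + δ := by linarith
    have h1 : IntervalIntegrable (fun r => α (w r, Y r, X r)) volume (t₀ - δ) (t₀ + δ) := by
      apply ContinuousOn.intervalIntegrable
      rw [uIcc_of_le hle]
      intro t ht
      exact (hcomp ht (hall t (hc1 ht)).2.2.2.1.continuousAt).continuousWithinAt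
    have h2 : IntervalIntegrable (fun r => g (w r, Y r, X r)) volume (t₀ - δ) (t₀ + δ) := by
      apply ContinuousOn.intervalIntegrable
      rw [uIcc_of_le hle]
      intro t ht
      exact (hcomp ht (hall t (hc1 ht)).2.2.2.2.continuousAt).continuousWithinAt
    refine h1.add ?_
    rw [intervalIntegrable_iff] at h2 ⊢
    refine h2.bdd_mul (c := 1) h.adm.1.aestronglyMeasurable ?_
    exact Eventually.of_forall fun x => by simpa using h.adm.2 x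
  have hXd : ∀ᵐ t : ℝ, t ∈ Ioo (t₀ - δ) (t₀ + δ) →
      HasDerivAt X (α (w t, Y t, X t) + u t * g (w t, Y t, X t)) t := by
    filter_upwards [hξ.ae_hasDerivAt_integral] with t ht hti
    have htI : t ∈ uIcc (t₀ - δ) (t₀ + δ) := by
      rw [uIcc_of_le (by linarith)]
      exact hio hti
    have h1 := (ht htI (t₀ - δ) left_mem_uIcc).const_add (X (t₀ - δ))
    refine h1.congr_of_eventuallyEq ?_
    filter_upwards [Ioo_mem_nhds hti.1 hti.2] with x hx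
    have h2 := h.Xeq (t₀ - δ) (hcab ⟨le_rfl, by linarith⟩) x (hcab (hio hx))
    linarith
  -- the function is Lipschitz
  obtain ⟨D, hD⟩ : ∃ D : ℝ → ℝ, D = fun t => Bf (w t, Y t, X t) - Bf (w t, 0, 0) := ⟨_, rfl⟩
  have hDl : LipschitzOnWith (Real.toNNReal (2 * (KB * KL))) D (Icc (t₀ - δ) (t₀ + δ)) := by
    have hKK : 0 ≤ KB * KL := mul_nonneg hKB (by linarith)
    refine LipschitzOnWith.of_dist_le_mul fun s hs t ht => ?_
    rw [dist_eq_norm, Real.dist_eq, Real.coe_toNNReal _ (by linarith), hD]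
    obtain ⟨l1, l2, l3⟩ := hlip s (hcL hs) t (hcL ht)
    have hs1 := (hall s (hc1 hs)).2.1
    have ht1 := (hall t (hc1 ht)).2.1
    have b1 := hBl _ hs1.1.2 _ ht1.1.2
    have b2 := hBl _ hs1.2.2 _ ht1.2.2
    have n1 : ‖((w s, Y s, X s) : W × ℝ × ℝ) - (w t, Y t, X t)‖ ≤ KL * |s - t| := by
      rw [Prod.mk_sub_mk, Prod.mk_sub_mk, Prod.norm_def, Prod.norm_def]
      exact max_le l1 (max_le l2 l3)
    have n2 : ‖((w s, (0 : ℝ), (0 : ℝ)) : W × ℝ × ℝ) - (w t, 0, 0)‖ ≤ KL * |s - t| := by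
      have h0 : (0 : ℝ) ≤ KL * |s - t| := (norm_nonneg _).trans l1
      rw [Prod.mk_sub_mk, Prod.mk_sub_mk, Prod.norm_def, Prod.norm_def]
      simp only [sub_zero, norm_zero]
      exact max_le l1 (max_le h0 h0)
    have b1' := b1.trans (mul_le_mul_of_nonneg_left n1 hKB)
    have b2' := b2.trans (mul_le_mul_of_nonneg_left n2 hKB)
    have e1 : (Bf (w s, Y s, X s) - Bf (w s, 0, 0)) - (Bf (w t, Y t, X t) - Bf (w t, 0, 0)) =
        (Bf (w s, Y s, X s) - Bf (w t, Y t, X t)) - (Bf (w s, 0, 0) - Bf (w t, 0, 0)) := by ring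
    rw [e1]
    refine (norm_sub_le _ _).trans ?_
    have e2 : 2 * (KB * KL) * |s - t| = KB * (KL * |s - t|) + KB * (KL * |s - t|) := by ring
    rw [e2]
    exact add_le_add b1' b2'
  -- the derivative of the function
  have hDd : ∀ᵐ t : ℝ, t ∈ Ioo (t₀ - δ) (t₀ + δ) →
      HasDerivAt D (fderiv ℝ Bf (w t, Y t, X t) (0, 0, 1)
            * (α (w t, Y t, X t) + u t * g (w t, Y t, X t)) + ψ t) t := by
    filter_upwards [hXd] with t ht hti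
    have hX := ht hti
    have htc := hio hti
    have hw := h.wd t (hcab htc)
    have hY := h.Yd t (hcab htc)
    obtain ⟨_, ⟨⟨a1, _⟩, a2, _⟩, _⟩ := hall t (hc1 htc)
    have d1 : HasDerivAt (fun t => Bf (w t, Y t, X t)) (fderiv ℝ Bf (w t, Y t, X t)
        (w' t, y' t, α (w t, Y t, X t) + u t * g (w t, Y t, X t))) t :=
      (a1.differentiableAt.hasFDerivAt).comp_hasDerivAt t (hw.prodMk (hY.prodMk hX))
    have d2 : HasDerivAt (fun t => Bf (w t, (0 : ℝ), (0 : ℝ))) (fderiv ℝ Bf (w t, 0, 0)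
        (w' t, 0, 0)) t :=
      (a2.differentiableAt.hasFDerivAt).comp_hasDerivAt t
        (hw.prodMk ((hasDerivAt_const t (0 : ℝ)).prodMk (hasDerivAt_const t (0 : ℝ))))
    have d3 := d1.sub d2
    have e1 : ((w' t, y' t, α (w t, Y t, X t) + u t * g (w t, Y t, X t)) : W × ℝ × ℝ) =
        (w' t, 0, 0) + (0, y' t, 0) +
          (α (w t, Y t, X t) + u t * g (w t, Y t, X t)) • (0, 0, 1) := by
      ext <;> simp
    have e2 : fderiv ℝ Bf (w t, Y t, X t)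
        (w' t, y' t, α (w t, Y t, X t) + u t * g (w t, Y t, X t)) -
        fderiv ℝ Bf (w t, 0, 0) (w' t, 0, 0) = fderiv ℝ Bf (w t, Y t, X t) (0, 0, 1)
            * (α (w t, Y t, X t) + u t * g (w t, Y t, X t)) + ψ t := by
      rw [e1, map_add, map_add, map_smul, smul_eq_mul, hψ]
      ring
    rw [e2] at d3
    rw [hD]
    exact d3
  refine ⟨1 + K0 * K + (‖fderiv ℝ Bf (w t₀, 0, 0)‖ + 1) * |K'|, δ, ψ, ?_, hδ, hio.trans hcab,
    ?_, ?_, ?_⟩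
  · have h1 : 0 ≤ K0 * K := mul_nonneg hK0 (by linarith [h.K1])
    have h2 : 0 ≤ (‖fderiv ℝ Bf (w t₀, 0, 0)‖ + 1) * |K'| := by positivity
    linarith
  · intro t ht
    have htc := hio ht
    obtain ⟨_, ⟨⟨a1, _⟩, a2, _⟩, _⟩ := hall t (hc1 htc)
    have c1 : ContinuousAt (fun t => fderiv ℝ Bf (w t, Y t, X t)) t :=
      ContinuousAt.comp (f := fun t => (w t, Y t, X t)) (KLc4_fd a1) (KLc4_curve h (hcab htc))
    have c2 : ContinuousAt (fun t => fderiv ℝ Bf (w t, (0 : ℝ), (0 : ℝ))) t :=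
      ContinuousAt.comp (f := fun t => (w t, (0 : ℝ), (0 : ℝ))) (KLc4_fd a2) (hw0 t htc)
    have c3 : ContinuousAt (fun t => ((w' t, 0, 0) : W × ℝ × ℝ)) t :=
      (hw'c t htc).prodMk continuousAt_const
    have c4 : ContinuousAt (fun t => ((0, y' t, 0) : W × ℝ × ℝ)) t :=
      continuousAt_const.prodMk ((hy'c t htc).prodMk continuousAt_const)
    rw [hψ]
    exact (((c1.clm_apply c3).sub (c2.clm_apply c3)).add (c1.clm_apply c4)).continuousWithinAt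
  · intro t ht
    have htc := hio ht
    obtain ⟨⟨_, _, e3⟩, _, n1, _⟩ := hall t (hc1 htc)
    have hS : 0 ≤ |X t| ^ m + |Y t| := by positivity
    have hS' : 0 ≤ |X t| ^ m + |Y t| + |ϕ t| := by positivity
    have f1 : |fderiv ℝ Bf (w t, Y t, X t) (w' t, 0, 0) - fderiv ℝ Bf (w t, 0, 0) (w' t, 0, 0)| ≤
        K0 * (|X t| ^ m + |Y t|) * ‖w' t‖ := e3 (w' t)
    have f2 : K0 * (|X t| ^ m + |Y t|) * ‖w' t‖ ≤ K0 * (|X t| ^ m + |Y t|) * K :=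
      mul_le_mul_of_nonneg_left (h.wb t (hcab htc)) (mul_nonneg hK0 hS)
    have f4 : 0 ≤ K0 * |ϕ t| * K :=
      mul_nonneg (mul_nonneg hK0 (abs_nonneg _)) (by linarith [h.K1])
    have f3 : |fderiv ℝ Bf (w t, Y t, X t) (0, y' t, 0)| ≤
        (‖fderiv ℝ Bf (w t₀, 0, 0)‖ + 1) * (|K'| * (|X t| ^ m + |Y t| + |ϕ t|)) := by
      have g1 : ‖((0, y' t, 0) : W × ℝ × ℝ)‖ ≤ |K'| * (|X t| ^ m + |Y t| + |ϕ t|) := by
        have g2 : |y' t| ≤ |K'| * (|X t| ^ m + |Y t| + |ϕ t|) :=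
          (hyy t (hcy htc)).trans (mul_le_mul_of_nonneg_right (le_abs_self _) hS')
        have g3 : 0 ≤ |K'| * (|X t| ^ m + |Y t| + |ϕ t|) := by positivity
        rw [Prod.norm_def, Prod.norm_def]
        simp only [norm_zero]
        exact max_le g3 (max_le g2 g3)
      have g2 := (fderiv ℝ Bf (w t, Y t, X t)).le_opNorm ((0, y' t, 0) : W × ℝ × ℝ)
      rw [Real.norm_eq_abs] at g2
      exact g2.trans (mul_le_mul n1.le g1 (norm_nonneg _) (by positivity))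
    rw [hψ]
    refine (abs_add_le _ _).trans ?_
    have e4 : (1 + K0 * K + (‖fderiv ℝ Bf (w t₀, 0, 0)‖ + 1) * |K'|) *
        (|X t| ^ m + |Y t| + |ϕ t|) =
        (|X t| ^ m + |Y t| + |ϕ t|) + K0 * (|X t| ^ m + |Y t|) * K + K0 * |ϕ t| * K +
        (‖fderiv ℝ Bf (w t₀, 0, 0)‖ + 1) * (|K'| * (|X t| ^ m + |Y t| + |ϕ t|)) := by ring
    rw [e4]
    linarith [f1.trans f2]
  · intro s hs t ht
    have hsub : uIcc s t ⊆ Ioo (t₀ - δ) (t₀ + δ) := by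
      intro x hx
      exact ⟨(lt_min hs.1 ht.1).trans_le hx.1, hx.2.trans_lt (max_lt hs.2 ht.2)⟩
    have hac := (hDl.mono (hsub.trans hio)).absolutelyContinuousOnInterval
    have h1 := hac.integral_deriv_eq_sub
    have h2 : D t - D s = ∫ r in s..t, (fderiv ℝ Bf (w r, Y r, X r) (0, 0, 1)
            * (α (w r, Y r, X r) + u r * g (w r, Y r, X r)) + ψ r) := by
      rw [← h1]
      refine intervalIntegral.integral_congr_ae ?_
      filter_upwards [hDd] with x hx hxi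
      exact (hx (hsub (uIoc_subset_uIcc hxi))).deriv
    rw [hD] at h2
    exact h2

end

theorem lc_four {W : Type*} [NormedAddCommGroup W] [NormedSpace ℝ W] [FiniteDimensional ℝ W]
    {K a b t₀ : ℝ} {u : ℝ → ℝ} {w w' : ℝ → W} {Y y' X : ℝ → ℝ} {α g : W × ℝ × ℝ → ℝ}
    (h : Lc K u a b w w' Y y' X α g) (h₀ : Lp a b w Y X α g t₀)
    (hu : |α (w t₀, 0, 0)| < |g (w t₀, 0, 0)|) {ϕ n : ℝ → ℝ} (hq : Lq K u a b w Y X g ϕ n)
    {Bf : W × ℝ × ℝ → ℝ} (hB : AnalyticAt ℝ Bf (w t₀, 0, 0)) {m : ℕ} (hm : 2 ≤ m)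
    (ho : ∀ j < m, ∀ᶠ v in 𝓝 (w t₀), Dn^[j] (fX Bf) (v, 0) = 0)
    (hne : Dn^[m] (fX Bf) (w t₀, 0) ≠ 0)
    (hn : ∀ t ∈ Ioo a b, |n t + fderiv ℝ Bf (w t, Y t, X t) (0, 0, 1)| ≤ K * |ϕ t|)
    {K' : ℝ} (hy : ∀ᶠ t in 𝓝 t₀, |y' t| ≤ K' * (|X t| ^ m + |Y t| + |ϕ t|)) :
    ∃ δ > 0, ∀ s s' : ℝ, s < s' → |s - t₀| < δ → |s' - t₀| < δ → X s = 0 → Y s = 0 → ϕ s = 0 →
      X s' = 0 → ϕ s' = 0 → ∀ t ∈ Icc s s', X t = 0 := by
  obtain ⟨K₀, c₀, δ₀, hK₀, hc₀, hδ₀, hR⟩ := lc_rl h h₀ hu hq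
  obtain ⟨K₁, c₁, δ₁, hK₁, hc₁, hδ₁, hs₁, hec, hbc, hD⟩ :=
    lc_Db h h₀ hB (by omega : 1 ≤ m) ho hne
  obtain ⟨K₂, δ₂, ψ, hK₂, hδ₂, hs₂, hψc, hψb, hDi⟩ := KLc4_Di h h₀ hB ho hy
  obtain ⟨δ₃, hδ₃, hy₃⟩ := Metric.eventually_nhds_iff.1 hy
  have hK1 : 1 ≤ K := h.K1
  have hK0 : 0 < K := by linarith
  have hK'0 : 0 ≤ |K'| := abs_nonneg _
  obtain ⟨Kc, hKc⟩ : ∃ Kc : ℝ, Kc = K + K₀ + K₁ + K₂ + |K'| := ⟨_, rfl⟩
  have hKc1 : 1 ≤ Kc := by linarith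
  obtain ⟨cc, hcc0, hccc, hcc1⟩ : ∃ cc : ℝ, 0 < cc ∧ cc ≤ c₀ ∧ cc ≤ c₁ :=
    ⟨min c₀ c₁, lt_min hc₀ hc₁, min_le_left _ _, min_le_right _ _⟩
  obtain ⟨δg, hδg, G⟩ := gap_four (K := Kc) (c := cc) hKc1 hcc0 hm
  obtain ⟨δ, hδ, d0, d1, d2, d3, dg⟩ : ∃ δ : ℝ, 0 < δ ∧ δ ≤ δ₀ ∧ δ ≤ δ₁ ∧ δ ≤ δ₂ ∧
      δ ≤ δ₃ ∧ δ ≤ δg / 2 := by
    refine ⟨min δ₀ (min δ₁ (min δ₂ (min δ₃ (δg / 2)))), ?_, ?_, ?_, ?_, ?_, ?_⟩
    · exact lt_min hδ₀ (lt_min hδ₁ (lt_min hδ₂ (lt_min hδ₃ (by linarith))))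
    all_goals simp only [min_le_iff, le_refl, true_or, or_true]
  refine ⟨δ, hδ, ?_⟩
  intro s s' hlt hs hs' hXs hYs hϕs hXs' hϕs'
  rw [abs_lt] at hs hs'
  -- points of `[s,s']` are near `t₀`
  have hnear : ∀ t ∈ Icc s s', |t - t₀| < δ := by
    intro t ht
    rw [abs_lt]
    exact ⟨by linarith [ht.1, hs.1], by linarith [ht.2, hs'.2]⟩
  have hin1 : ∀ t ∈ Icc s s', t ∈ Ioo (t₀ - δ₁) (t₀ + δ₁) := by
    intro t ht
    have := abs_lt.1 (hnear t ht)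
    exact ⟨by linarith [this.1], by linarith [this.2]⟩
  have hin2 : ∀ t ∈ Icc s s', t ∈ Ioo (t₀ - δ₂) (t₀ + δ₂) := by
    intro t ht
    have := abs_lt.1 (hnear t ht)
    exact ⟨by linarith [this.1], by linarith [this.2]⟩
  have hab : ∀ t ∈ Icc s s', t ∈ Ioo a b := fun t ht => hs₁ (hin1 t ht)
  have hsI : s ∈ Icc s s' := left_mem_Icc.2 hlt.le
  have hRl := hR Kc cc s s' (by linarith) hcc0 hccc hlt
    (lt_of_lt_of_le (abs_lt.2 hs) d0) (lt_of_lt_of_le (abs_lt.2 hs') d0) hXs hXs' hϕs hϕs'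
  have hYc : ContinuousOn Y (Icc s s') := fun t ht =>
    (h.Yd t (hab t ht)).continuousAt.continuousWithinAt
  have hXc : ContinuousOn X (Icc s s') := h.Xc.mono hab
  have hsub : ∀ t ∈ Icc s s', uIcc s t ⊆ Icc s s' := by
    intro t ht r hr
    rw [uIcc_of_le ht.1] at hr
    exact ⟨hr.1, hr.2.trans ht.2⟩
  have hDs : Bf (w s, Y s, X s) - Bf (w s, 0, 0) = 0 := by rw [hXs, hYs, sub_self]
  refine G s s' X ϕ u (fun t => g (w t, Y t, X t))
    (fun t => -(α (w t, Y t, X t) / g (w t, Y t, X t))) n Y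
    (fun t => Bf (w t, Y t, X t) - Bf (w t, 0, 0))
    (fun t => fderiv ℝ Bf (w t, Y t, X t) (0, 0, 1)) (fun t => cf (fX Bf) m (w t)) ψ
    (by linarith) hRl hYc (hbc.mono hin1) (hec.mono hin1) ?_ ?_ ?_ ?_ ?_ ?_ ?_ ?_ ?_
  · -- ψ
    refine ContinuousOn.intervalIntegrable ?_
    rw [uIcc_of_le hlt.le]
    exact hψc.mono hin2
  · intro t ht
    exact hcc1.trans (hD t (hin1 t ht)).1
  · intro t ht
    exact (hD t (hin1 t ht)).2.1.trans (by linarith)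
  · intro t ht
    refine (hn t (hab t ht)).trans ?_
    exact mul_le_mul_of_nonneg_right (by linarith) (abs_nonneg _)
  · -- D as an integral
    intro t ht
    have h1 := hDi s (hin2 s hsI) t (hin2 t ht)
    rw [hDs, sub_zero] at h1
    show Bf (w t, Y t, X t) - Bf (w t, 0, 0) = _
    rw [h1]
    refine intervalIntegral.integral_congr fun r hr => ?_
    have hr' : r ∈ Icc s s' := hsub t ht hr
    have h2 : g (w r, Y r, X r) ≠ 0 := by
      have := hRl.g0 r hr'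
      exact abs_pos.1 (lt_of_lt_of_le hcc0 this)
    show fderiv ℝ Bf (w r, Y r, X r) (0, 0, 1)
        * (α (w r, Y r, X r) + u r * g (w r, Y r, X r)) + ψ r =
      fderiv ℝ Bf (w r, Y r, X r) (0, 0, 1)
        * (g (w r, Y r, X r) * (u r - -(α (w r, Y r, X r) / g (w r, Y r, X r)))) + ψ r
    have h3 : g (w r, Y r, X r) * (u r - -(α (w r, Y r, X r) / g (w r, Y r, X r))) =
        α (w r, Y r, X r) + u r * g (w r, Y r, X r) := by
      field_simp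
      ring
    rw [h3]
  · intro t ht
    refine (hψb t (hin2 t ht)).trans ?_
    exact mul_le_mul_of_nonneg_right (by linarith) (by positivity)
  · intro t ht
    refine (hD t (hin1 t ht)).2.2.1.trans ?_
    exact mul_le_mul_of_nonneg_right (by linarith) (by positivity)
  · intro t ht
    refine (hD t (hin1 t ht)).2.2.2.1.trans ?_
    exact mul_le_mul_of_nonneg_right (by linarith) (by positivity)
  · -- Y
    intro t ht
    have hst : s ≤ t := ht.1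
    have hϕc : ContinuousOn ϕ (Icc s s') := hq.ϕc.mono hab
    have hI : ContinuousOn (fun r => |X r| ^ m + |Y r| + |ϕ r|) (Icc s t) := by
      have hm1 : Icc s t ⊆ Icc s s' := Icc_subset_Icc_right ht.2
      exact (((hXc.mono hm1).abs.pow m).add (hYc.mono hm1).abs).add (hϕc.mono hm1).abs
    have hII : IntervalIntegrable (fun r => |X r| ^ m + |Y r| + |ϕ r|) volume s t := by
      refine ContinuousOn.intervalIntegrable ?_
      rw [uIcc_of_le hst]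
      exact hI
    have hyc : ContinuousOn y' (Icc s s') := h.Yc.mono hab
    have hyi : IntervalIntegrable y' volume s t := by
      refine ContinuousOn.intervalIntegrable ?_
      rw [uIcc_of_le hst]
      exact hyc.mono (Icc_subset_Icc_right ht.2)
    have h1 : ∫ r in s..t, y' r = Y t - Y s := by
      refine intervalIntegral.integral_eq_sub_of_hasDerivAt (fun r hr => ?_) hyi
      exact h.Yd r (hab r (hsub t ht hr))
    rw [hYs, sub_zero] at h1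
    rw [← h1]
    calc |∫ r in s..t, y' r| ≤ ∫ r in s..t, |y' r| :=
          intervalIntegral.abs_integral_le_integral_abs hst
      _ ≤ ∫ r in s..t, Kc * (|X r| ^ m + |Y r| + |ϕ r|) := by
          refine intervalIntegral.integral_mono_on hst hyi.abs (hII.const_mul _) fun r hr => ?_
          have hr' : r ∈ Icc s s' := ⟨hr.1, hr.2.trans ht.2⟩
          have h2 : dist r t₀ < δ₃ := by
            rw [Real.dist_eq]
            exact lt_of_lt_of_le (hnear r hr') d3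
          refine (hy₃ h2).trans ?_
          refine mul_le_mul_of_nonneg_right ?_ (by positivity)
          have := le_abs_self K'
          linarith
      _ = Kc * ∫ r in s..t, (|X r| ^ m + |Y r| + |ϕ r|) := intervalIntegral.integral_const_mul _ _

end Pool.Agent.Lib.MP_28b8de_an.KK
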