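import Pool.Agent.Lib.MP_28b8de_an.K.KBLc
import Pool.Agent.Lib.MP_28b8de_an.K.KBFacts
import Pool.Agent.Lib.MP_28b8de_an.K.KLc4

/-!
MP_28b8de_an, module KBOne.

Planar extremals: (s,lam) is Zariski dense on C.
PROOF.  w := (s, lam), Y = 0, Bf ((v,l),Y,X) := l f (v,X) + η (v,X), α ((v,l),Y,X) := k (v,X), g = 1.  F := fX Bf: F ((v,l),X) = l (f (v,X) - f (v,0)) + η (v,X) - η (v,0).
(1) F is not 0 near (w t₂, 0): otherwise (difference of two values of l) f (v,X) = f (v,0) = 0 near (s t₂,0), so s' = f (s,X) = 0 near t₂ (X t₂ = 0), s is constant near t₂, and Gen C s t₂ with a v := v - s t₂ gives a contradiction.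
(2) `TT.order` (Gen for w: hg2): t₃ ∈ C close to t₂ and m.  m ≠ 0: F (w,0) = 0.  m ≠ 1: Dn F (w t₃,0) = lam Dn f (s,0) + Dn η (s,0) = 0 at t₃ by hn.  So m ≥ 2; |k (s t₃,0)| < 1 by continuity; X t₃ = 0.
(3) lc_four at t₃ (second Lc and Lq of bd_lc at t₃; Lp; n t + fderiv Bf (0,0,1) = -ϕ Dn k, |..| ≤ K |ϕ|; y' = 0): X = 0 on [r,r'] for r < r' in C near t₃ (X = ϕ = 0 on C near t₃).  bd_rest at t₃ (hf and hg hold near t₃): False.
(Choose ε in `order` such that everything that holds eventually at t₂ holds near t₃.)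
-/

set_option linter.unusedSectionVars false

namespace Pool.Agent.Lib.MP_28b8de_an.KK

open Filter Topology Set MeasureTheory
open Pool.Agent.Lib.MP_28b8de_an.PT (Adm Perf)
open Pool.Agent.Lib.MP_28b8de_an.TT (Env Sol Jn Tr SmAt Goal dx Dn Gen Lc Lp Lq fX cf)
open Pool.Agent.Lib.MP_28b8de_an.DD (LTraj LRep Ch)

/-- the energy without the terms in `ϕ` -/
private def BOne_B (f η : ℝ × ℝ → ℝ) (z : (ℝ × ℝ) × ℝ × ℝ) : ℝ :=
  z.1.2 * f (z.1.1, z.2.2) + η (z.1.1, z.2.2)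

private theorem BOne_pair {f : ℝ × ℝ → ℝ} {v l y x : ℝ} (hf : AnalyticAt ℝ f (v, x)) :
    AnalyticAt ℝ (fun z : (ℝ × ℝ) × ℝ × ℝ => f (z.1.1, z.2.2)) ((v, l), y, x) := by
  have h1 : AnalyticAt ℝ (fun z : (ℝ × ℝ) × ℝ × ℝ => ((z.1.1, z.2.2) : ℝ × ℝ)) ((v, l), y, x) :=
    (analyticAt_fst.fun_comp analyticAt_fst).prod (analyticAt_snd.fun_comp analyticAt_snd)
  exact AnalyticAt.fun_comp (g := f) hf h1

private theorem BOne_an {f η : ℝ × ℝ → ℝ} {v l y x : ℝ} (hf : AnalyticAt ℝ f (v, x))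
    (hη : AnalyticAt ℝ η (v, x)) : AnalyticAt ℝ (BOne_B f η) ((v, l), y, x) := by
  have h1 : AnalyticAt ℝ (fun z : (ℝ × ℝ) × ℝ × ℝ => z.1.2) ((v, l), y, x) :=
    analyticAt_snd.fun_comp analyticAt_fst
  exact (h1.mul (BOne_pair hf)).add (BOne_pair hη)

private theorem BOne_slice {E : Type*} [NormedAddCommGroup E] [NormedSpace ℝ E] {f : E → ℝ}
    {p w : E} (hf : DifferentiableAt ℝ f p) : HasDerivAt (fun τ : ℝ => f (p + τ • w)) (fderiv ℝ f p w) 0 := by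
  have h1 : HasDerivAt (fun τ : ℝ => p + τ • w) w 0 := by
    simpa using ((hasDerivAt_id (0 : ℝ)).smul_const w).const_add p
  have h2 : HasFDerivAt f (fderiv ℝ f p) (p + (0 : ℝ) • w) := by
    rw [zero_smul, add_zero]; exact hf.hasFDerivAt
  exact h2.comp_hasDerivAt (0 : ℝ) h1

private theorem BOne_fd {f η : ℝ × ℝ → ℝ} {v l y x : ℝ} (hf : AnalyticAt ℝ f (v, x))
    (hη : AnalyticAt ℝ η (v, x)) :
    fderiv ℝ (BOne_B f η) ((v, l), y, x) (0, 0, 1) = l * Dn f (v, x) + Dn η (v, x) := by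
  have h1 := BOne_slice (w := ((0, 0, 1) : (ℝ × ℝ) × ℝ × ℝ))
    (BOne_an (l := l) (y := y) hf hη).differentiableAt
  have h2 := BOne_slice (w := ((0, 1) : ℝ × ℝ)) hf.differentiableAt
  have h3 := BOne_slice (w := ((0, 1) : ℝ × ℝ)) hη.differentiableAt
  refine h1.unique ?_
  have h4 := (h2.const_mul l).add h3
  refine h4.congr_of_eventuallyEq (Eventually.of_forall fun τ => ?_)
  simp [BOne_B]

private theorem BOne_fX {f η : ℝ × ℝ → ℝ} {v l : ℝ} (hf : AnalyticAt ℝ f (v, 0))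
    (hη : AnalyticAt ℝ η (v, 0)) :
    Dn (fX (BOne_B f η)) ((v, l), 0) = l * Dn f (v, 0) + Dn η (v, 0) := by
  have h0 : AnalyticAt ℝ (fX (BOne_B f η)) ((v, l), 0) := TT.fX_an (BOne_an hf hη)
  have h1 := BOne_slice (w := ((0, 1) : (ℝ × ℝ) × ℝ)) h0.differentiableAt
  have h2 := BOne_slice (w := ((0, 1) : ℝ × ℝ)) hf.differentiableAt
  have h3 := BOne_slice (w := ((0, 1) : ℝ × ℝ)) hη.differentiableAt
  refine h1.unique ?_
  have h4 := ((h2.const_mul l).add h3).sub_const (l * f (v, 0) + η (v, 0))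
  refine h4.congr_of_eventuallyEq (Eventually.of_forall fun τ => ?_)
  simp [BOne_B, fX]

/-- a function which is not constant near the point (Gen) -/
private theorem BOne_gen {C : Set ℝ} {s : ℝ → ℝ} {t : ℝ} (hg : Gen C s t)
    (h : ∀ᶠ r in 𝓝 t, s r = s t) : False := by
  have h1 := hg (fun v => v - s t) (analyticAt_id.sub analyticAt_const)
    (h.mono fun r hr _ => sub_eq_zero.2 hr)
  have h2 : ∀ᶠ v in 𝓝[≠] (s t), v - s t = 0 := h1.filter_mono nhdsWithin_le_nhds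
  obtain ⟨v, hv1, hv2⟩ := (h2.and self_mem_nhdsWithin).exists
  exact hv2 (sub_eq_zero.1 hv1)

private theorem BOne_const {s s' : ℝ → ℝ} {t : ℝ} (h : ∀ᶠ r in 𝓝 t, HasDerivAt s (s' r) r)
    (h0 : ∀ᶠ r in 𝓝 t, s' r = 0) : ∀ᶠ r in 𝓝 t, s r = s t := by
  obtain ⟨δ, hδ, h1⟩ := Metric.eventually_nhds_iff_ball.1 (h.and h0)
  filter_upwards [Metric.ball_mem_nhds t hδ] with r hr
  refine (convex_ball t δ).is_const_of_fderivWithin_eq_zero (𝕜 := ℝ) (f := s)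
    (fun x hx => (h1 x hx).1.differentiableAt.differentiableWithinAt) (fun x hx => ?_) hr
    (Metric.mem_ball_self hδ)
  rw [fderivWithin_of_isOpen Metric.isOpen_ball hx]
  have h2 := (h1 x hx).1
  rw [(h1 x hx).2] at h2
  have h3 := h2.hasFDerivAt.fderiv
  rw [h3]
  ext
  simp

theorem bd_one {f k η : ℝ × ℝ → ℝ} {u : ℝ → ℝ} {a b : ℝ} {s X lam ϕ : ℝ → ℝ}
    (h : BD f k η u a b s X lam ϕ) {T : ℝ} {C : Set ℝ} (hC : Perf T C) {t₂ : ℝ} (ht₂ : t₂ ∈ C)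
    (hab : t₂ ∈ Ioo a b) (h0 : ∀ᶠ t in 𝓝 t₂, t ∈ C → X t = 0 ∧ ϕ t = 0)
    (hf : ∀ᶠ v in 𝓝 (s t₂), f (v, 0) = 0)
    (hn : ∀ᶠ t in 𝓝 t₂, t ∈ C → lam t * Dn f (s t, 0) + Dn η (s t, 0) = 0)
    (hk : |k (s t₂, 0)| < 1) (hg : ∀ᶠ t in 𝓝 t₂, t ∈ C → Gen C s t)
    (hg2 : ∀ᶠ t in 𝓝 t₂, t ∈ C → Gen C (fun t => ((s t, lam t) : ℝ × ℝ)) t) : False := by
  classical
  have hin : ∀ᶠ t in 𝓝 t₂, t ∈ Ioo a b := Ioo_mem_nhds hab.1 hab.2
  have hsd : ∀ᶠ t in 𝓝 t₂, HasDerivAt s (f (s t, X t)) t := hin.mono fun t ht => h.sd t ht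
  have hsc : ContinuousAt s t₂ := (h.sd t₂ hab).continuousAt
  have hXc : ContinuousAt X t₂ := h.Xc.continuousAt (Ioo_mem_nhds hab.1 hab.2)
  have hX0 : X t₂ = 0 := (h0.self_of_nhds ht₂).1
  have hfa : AnalyticAt ℝ f (s t₂, 0) := by
    have := h.fa t₂ hab
    rwa [hX0] at this
  have hka : AnalyticAt ℝ k (s t₂, 0) := by
    have := h.ka t₂ hab
    rwa [hX0] at this
  have hηa : AnalyticAt ℝ η (s t₂, 0) := by
    have := h.ηa t₂ hab
    rwa [hX0] at this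
  -- (1)
  have hne : ¬ ∀ᶠ p in 𝓝 (((s t₂, lam t₂) : ℝ × ℝ), (0 : ℝ)), fX (BOne_B f η) p = 0 := by
    intro hF
    obtain ⟨ρ, hρ, hb⟩ := Metric.eventually_nhds_iff_ball.1 hF
    have hff : ∀ᶠ q in 𝓝 ((s t₂, 0) : ℝ × ℝ), f q = 0 := by
      have e1 : ∀ᶠ q in 𝓝 ((s t₂, 0) : ℝ × ℝ), q ∈ Metric.ball ((s t₂, 0) : ℝ × ℝ) ρ :=
        Metric.ball_mem_nhds _ hρ
      have e2 : ∀ᶠ q in 𝓝 ((s t₂, 0) : ℝ × ℝ), f (q.1, 0) = 0 :=
        (continuousAt_fst (p := ((s t₂, 0) : ℝ × ℝ))).eventually hf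
      filter_upwards [e1, e2] with q hq1 hq2
      rw [← ball_prod_same] at hq1
      have hz : (0 : ℝ) < ρ / 2 := by linarith
      have m1 : (((q.1, lam t₂) : ℝ × ℝ), q.2) ∈ Metric.ball (((s t₂, lam t₂) : ℝ × ℝ), (0 : ℝ)) ρ := by
        rw [← ball_prod_same, ← ball_prod_same]
        exact ⟨⟨hq1.1, Metric.mem_ball_self hρ⟩, hq1.2⟩
      have m2 : (((q.1, lam t₂ + ρ / 2) : ℝ × ℝ), q.2) ∈
          Metric.ball (((s t₂, lam t₂) : ℝ × ℝ), (0 : ℝ)) ρ := by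
        rw [← ball_prod_same, ← ball_prod_same]
        refine ⟨⟨hq1.1, ?_⟩, hq1.2⟩
        rw [Metric.mem_ball, Real.dist_eq, add_sub_cancel_left, abs_of_pos hz]
        linarith
      have r1 := hb _ m1
      have r2 := hb _ m2
      simp only [fX, BOne_B, hq2, mul_zero, zero_add] at r1 r2
      have r3 : ρ / 2 * f (q.1, q.2) = 0 := by linarith
      rcases mul_eq_zero.1 r3 with h5 | h5
      · exact absurd h5 hz.ne'
      · exact h5
    have hcc : ContinuousAt (fun t => ((s t, X t) : ℝ × ℝ)) t₂ := hsc.prodMk hXc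
    have hff2 : ∀ᶠ q in 𝓝 ((s t₂, X t₂) : ℝ × ℝ), f q = 0 := by rw [hX0]; exact hff
    exact BOne_gen (hg.self_of_nhds ht₂) (BOne_const hsd (hcc.eventually hff2))
  -- (2)
  have hwc : ∀ᶠ t in 𝓝 t₂, ContinuousAt (fun t => ((s t, lam t) : ℝ × ℝ)) t :=
    hin.mono fun t ht => (h.sd t ht).continuousAt.prodMk (h.ld t ht).continuousAt
  have hfe : ∀ᶠ t in 𝓝 t₂, ∀ᶠ v in 𝓝 (s t), f (v, 0) = 0 :=
    hsc.eventually (eventually_eventually_nhds.2 hf)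
  have hke : ∀ᶠ t in 𝓝 t₂, |k (s t, 0)| < 1 := by
    have hc : ContinuousAt (fun t => |k (s t, 0)|) t₂ := by
      have h1 : ContinuousAt (fun t => ((s t, 0) : ℝ × ℝ)) t₂ := hsc.prodMk continuousAt_const
      exact (ContinuousAt.comp (g := k) (f := fun t => ((s t, 0) : ℝ × ℝ)) hka.continuousAt h1).abs
    exact hc.eventually (Iio_mem_nhds hk)
  obtain ⟨ε, hε, hall⟩ := Metric.eventually_nhds_iff_ball.1
    (hin.and (h0.and (hfe.and (hn.and (hke.and hg)))))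
  obtain ⟨t₃, ht₃, hd, -, m, ho, hm⟩ := TT.order (W := ℝ × ℝ) (w := fun t => ((s t, lam t) : ℝ × ℝ))
    ht₂ hwc hg2 (f := fX (BOne_B f η)) (TT.fX_an (BOne_an hfa hηa)) hne hε
  have hb₃ : t₃ ∈ Metric.ball t₂ ε := by rw [Metric.mem_ball, Real.dist_eq]; exact hd
  obtain ⟨hab₃, h0₃, hf₃, hn₃, hk₃, -⟩ := hall t₃ hb₃
  have hX₃ : X t₃ = 0 := (h0₃ ht₃).1
  have hfa₃ : AnalyticAt ℝ f (s t₃, 0) := by
    have := h.fa t₃ hab₃
    rwa [hX₃] at this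
  have hka₃ : AnalyticAt ℝ k (s t₃, 0) := by
    have := h.ka t₃ hab₃
    rwa [hX₃] at this
  have hηa₃ : AnalyticAt ℝ η (s t₃, 0) := by
    have := h.ηa t₃ hab₃
    rwa [hX₃] at this
  have hm2 : 2 ≤ m := by
    rcases m with _ | _ | m
    · exfalso
      apply hm
      simp [fX]
    · exfalso
      apply hm
      rw [Function.iterate_one]
      exact (BOne_fX hfa₃ hηa₃).trans (hn₃ ht₃)
    · omega
  -- (3)
  obtain ⟨K, a', b', hab', hsub, -, hLc, -, hLq, hKb⟩ := bd_lc h hab₃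
  have hLp : Lp a' b' (fun t => ((s t, lam t) : ℝ × ℝ)) (fun _ => 0) X
      (fun z : (ℝ × ℝ) × ℝ × ℝ => k (z.1.1, z.2.2)) (fun _ => 1) t₃ :=
    ⟨hab', hX₃, rfl, BOne_pair hka₃, analyticAt_const⟩
  obtain ⟨δ, hδ, hδX⟩ := lc_four hLc hLp (by rw [abs_one]; exact hk₃) hLq
    (Bf := BOne_B f η) (BOne_an hfa₃ hηa₃) hm2 ho hm
    (by
      intro t ht
      have ht' := hsub ht
      rw [BOne_fd (h.fa t ht') (h.ηa t ht')]
      have e1 : -(lam t * Dn f (s t, X t) + ϕ t * Dn k (s t, X t) + Dn η (s t, X t)) +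
          (lam t * Dn f (s t, X t) + Dn η (s t, X t)) = -(Dn k (s t, X t) * ϕ t) := by ring
      rw [e1, abs_neg, abs_mul]
      refine mul_le_mul_of_nonneg_right ?_ (abs_nonneg _)
      have e2 := hKb t ht
      have e3 := abs_nonneg (Ds f (s t, X t))
      have e4 := abs_nonneg (Ds k (s t, X t))
      linarith)
    (K' := 0) (Eventually.of_forall fun t => by simp)
  have hρ : 0 < ε - |t₃ - t₂| := by linarith
  have hnear : ∀ r : ℝ, |r - t₃| < ε - |t₃ - t₂| → r ∈ Metric.ball t₂ ε := by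
    intro r hr
    rw [Metric.mem_ball, Real.dist_eq]
    have := abs_sub_le r t₃ t₂
    linarith
  have hg₃ : ∀ᶠ t in 𝓝 t₃, t ∈ C → Gen C s t := by
    filter_upwards [Metric.isOpen_ball.mem_nhds hb₃] with t ht
    exact (hall t ht).2.2.2.2.2
  refine bd_rest h hC ht₃ hab₃ hf₃ hg₃ (lt_min hδ hρ) ?_
  intro r hr r' hr' hrr hd1 hd2
  have q1 := (hall r (hnear r (hd1.trans_le (min_le_right _ _)))).2.1 hr
  have q2 := (hall r' (hnear r' (hd2.trans_le (min_le_right _ _)))).2.1 hr'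
  exact hδX r r' hrr (hd1.trans_le (min_le_left _ _)) (hd2.trans_le (min_le_left _ _)) q1.1 rfl q1.2
    q2.1 q2.2

end Pool.Agent.Lib.MP_28b8de_an.KK
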