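import Pool.Agent.Lib.MP_28b8de_an.K.KBLc
import Pool.Agent.Lib.MP_28b8de_an.K.KBFacts
import Pool.Agent.Lib.MP_28b8de_an.K.KLc4

/-!
MP_28b8de_an, module KBTwo.

Planar extremals: lam is a function of s on C.
PROOF.  E (v,X) := ω v f (v,X) + η (v,X) - κ, analytic at (s t₂,0), E (v,0) = 0 near s t₂ (hf).  w := s, Y := lam - ω (s), Bf (v,Y,X) := E (v,X) + Y f (v,X), α (v,Y,X) := k (v,X), g = 1.  fX Bf (v,X) = E (v,X) - E (v,0) = E (v,X).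
Dn E (v,0) = ω v Dn f (v,0) + Dn η (v,0) vanishes at v = s t for t ∈ C near t₂ (hn, hlam), so near s t₂ (Gen C s t₂).
If fX Bf = 0 near (s t₂,0): E = 0 near, which is the claim.  Otherwise `TT.order` (hg): t₃ ∈ C close to t₂ and m; m ≥ 2 (E (v,0) = 0, Dn E (v,0) = 0 near); |k (s t₃,0)| < 1 by continuity.
Restrict to (a₃,b₃) ∋ t₃ on which ω is analytic at s t (BD.mono, bd_lc).  Y is differentiable, y' = -(lam Ds f + ϕ Ds k + Ds η) - ω'(s) f = -(Ds E (s,X) + Y Ds f + ϕ Ds k) (Ds E = ω' f + ω Ds f + Ds η).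
|Ds E (v,X)| ≤ K' |X|^m: third estimate of `TT.B_est` for Bf with Y = 0 and h = 1 (fderiv Bf (v,0,0) (1,0,0) = Ds E (v,0) = 0 near).  So |y'| ≤ K' (|X|^m + |Y| + |ϕ|) near t₃.
n = -(lam Dn f + ϕ Dn k + Dn η), fderiv Bf (v,Y,X) (0,0,1) = Dn E + Y Dn f = lam Dn f + Dn η: n + .. = -ϕ Dn k.  Y = 0, X = 0, ϕ = 0 on C near t₃.  lc_four at t₃: X = 0 on [r,r'] for r < r' in C near t₃; bd_rest: False.
-/

set_option linter.unusedSectionVars false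

namespace Pool.Agent.Lib.MP_28b8de_an.KK

open Filter Topology Set MeasureTheory
open Pool.Agent.Lib.MP_28b8de_an.PT (Adm Perf)
open Pool.Agent.Lib.MP_28b8de_an.TT (Env Sol Jn Tr SmAt Goal dx Dn Gen Lc Lp Lq fX cf)
open Pool.Agent.Lib.MP_28b8de_an.DD (LTraj LRep Ch)

/-- the function `(ω + Y) f + η - κ` -/
private def kbtwo_B (f η : ℝ × ℝ → ℝ) (ω : ℝ → ℝ) (κ : ℝ) (z : ℝ × ℝ × ℝ) : ℝ :=
  (ω z.1 + z.2.1) * f (z.1, z.2.2) + η (z.1, z.2.2) - κ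

private theorem kbtwo_fd {f η : ℝ × ℝ → ℝ} {ω : ℝ → ℝ} {κ v x : ℝ}
    (hf : DifferentiableAt ℝ f (v, x)) (hη : DifferentiableAt ℝ η (v, x))
    (hω : DifferentiableAt ℝ ω v) (y h p q : ℝ) :
    fderiv ℝ (kbtwo_B f η ω κ) (v, y, x) (h, p, q) =
      (deriv ω v * h + p) * f (v, x) + (ω v + y) * fderiv ℝ f (v, x) (h, q) +
        fderiv ℝ η (v, x) (h, q) := by
  set A : ℝ × ℝ × ℝ →L[ℝ] ℝ × ℝ := (ContinuousLinearMap.fst ℝ ℝ (ℝ × ℝ)).prod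
    ((ContinuousLinearMap.snd ℝ ℝ ℝ).comp (ContinuousLinearMap.snd ℝ ℝ (ℝ × ℝ))) with hA
  have e1 : HasFDerivAt (fun z : ℝ × ℝ × ℝ => f (z.1, z.2.2)) ((fderiv ℝ f (v, x)).comp A)
      (v, y, x) :=
    HasFDerivAt.comp (g := f) (f := fun z : ℝ × ℝ × ℝ => (z.1, z.2.2)) (v, y, x)
      hf.hasFDerivAt A.hasFDerivAt
  have e2 : HasFDerivAt (fun z : ℝ × ℝ × ℝ => η (z.1, z.2.2)) ((fderiv ℝ η (v, x)).comp A)
      (v, y, x) :=
    HasFDerivAt.comp (g := η) (f := fun z : ℝ × ℝ × ℝ => (z.1, z.2.2)) (v, y, x)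
      hη.hasFDerivAt A.hasFDerivAt
  have e3 : HasFDerivAt (fun z : ℝ × ℝ × ℝ => ω z.1)
      ((ContinuousLinearMap.smulRight (1 : ℝ →L[ℝ] ℝ) (deriv ω v)).comp
        (ContinuousLinearMap.fst ℝ ℝ (ℝ × ℝ))) (v, y, x) :=
    HasFDerivAt.comp (g := ω) (f := fun z : ℝ × ℝ × ℝ => z.1) (v, y, x)
      hω.hasDerivAt.hasFDerivAt (ContinuousLinearMap.fst ℝ ℝ (ℝ × ℝ)).hasFDerivAt
  have e4 : HasFDerivAt (fun z : ℝ × ℝ × ℝ => z.2.1)
      ((ContinuousLinearMap.fst ℝ ℝ ℝ).comp (ContinuousLinearMap.snd ℝ ℝ (ℝ × ℝ))) (v, y, x) :=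
    ((ContinuousLinearMap.fst ℝ ℝ ℝ).comp (ContinuousLinearMap.snd ℝ ℝ (ℝ × ℝ))).hasFDerivAt
  have e5 := (((e3.add e4).mul e1).add e2).sub_const κ
  have e6 : HasFDerivAt (kbtwo_B f η ω κ) _ (v, y, x) := e5
  rw [e6.fderiv]
  simp [hA]
  ring

private theorem kbtwo_fX {Bf : ℝ × ℝ × ℝ → ℝ} {p : ℝ × ℝ}
    (h1 : DifferentiableAt ℝ Bf (p.1, 0, p.2)) (h2 : DifferentiableAt ℝ Bf (p.1, 0, 0))
    (q : ℝ × ℝ) :
    fderiv ℝ (fX Bf) p q = fderiv ℝ Bf (p.1, 0, p.2) (q.1, 0, q.2) -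
      fderiv ℝ Bf (p.1, 0, 0) (q.1, 0, 0) := by
  set A : ℝ × ℝ →L[ℝ] ℝ × ℝ × ℝ :=
    (ContinuousLinearMap.fst ℝ ℝ ℝ).prod ((0 : ℝ × ℝ →L[ℝ] ℝ).prod (ContinuousLinearMap.snd ℝ ℝ ℝ))
    with hA
  set A0 : ℝ × ℝ →L[ℝ] ℝ × ℝ × ℝ :=
    (ContinuousLinearMap.fst ℝ ℝ ℝ).prod ((0 : ℝ × ℝ →L[ℝ] ℝ).prod (0 : ℝ × ℝ →L[ℝ] ℝ)) with hA0
  have e1 : HasFDerivAt Bf (fderiv ℝ Bf (A p)) (A p) := h1.hasFDerivAt
  have e2 : HasFDerivAt Bf (fderiv ℝ Bf (A0 p)) (A0 p) := h2.hasFDerivAt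
  have e3 : HasFDerivAt (fX Bf) ((fderiv ℝ Bf (A p)).comp A - (fderiv ℝ Bf (A0 p)).comp A0) p :=
    (e1.comp p A.hasFDerivAt).sub (e2.comp p A0.hasFDerivAt)
  rw [e3.fderiv]
  rfl

private theorem kbtwo_an {f η : ℝ × ℝ → ℝ} {ω : ℝ → ℝ} {κ v : ℝ}
    (hf : AnalyticAt ℝ f (v, 0)) (hη : AnalyticAt ℝ η (v, 0)) (hω : AnalyticAt ℝ ω v) :
    AnalyticAt ℝ (kbtwo_B f η ω κ) (v, 0, 0) := by
  have h1 : AnalyticAt ℝ (fun z : ℝ × ℝ × ℝ => (z.1, z.2.2)) (v, 0, 0) :=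
    ((ContinuousLinearMap.fst ℝ ℝ (ℝ × ℝ)).prod
      ((ContinuousLinearMap.snd ℝ ℝ ℝ).comp (ContinuousLinearMap.snd ℝ ℝ (ℝ × ℝ)))).analyticAt _
  have h2 : AnalyticAt ℝ (fun z : ℝ × ℝ × ℝ => f (z.1, z.2.2)) (v, 0, 0) :=
    AnalyticAt.comp (g := f) (f := fun z : ℝ × ℝ × ℝ => (z.1, z.2.2)) hf h1
  have h3 : AnalyticAt ℝ (fun z : ℝ × ℝ × ℝ => η (z.1, z.2.2)) (v, 0, 0) :=
    AnalyticAt.comp (g := η) (f := fun z : ℝ × ℝ × ℝ => (z.1, z.2.2)) hη h1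
  have h4 : AnalyticAt ℝ (fun z : ℝ × ℝ × ℝ => ω z.1) (v, 0, 0) :=
    AnalyticAt.comp (g := ω) (f := fun z : ℝ × ℝ × ℝ => z.1) hω analyticAt_fst
  have h5 : AnalyticAt ℝ (fun z : ℝ × ℝ × ℝ => z.2.1) (v, 0, 0) :=
    ((ContinuousLinearMap.fst ℝ ℝ ℝ).comp (ContinuousLinearMap.snd ℝ ℝ (ℝ × ℝ))).analyticAt _
  exact ((h4.add h5).mul h2).add h3 |>.sub analyticAt_const

private theorem kbtwo_kan {k : ℝ × ℝ → ℝ} {v : ℝ} (hk : AnalyticAt ℝ k (v, 0)) :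
    AnalyticAt ℝ (fun z : ℝ × ℝ × ℝ => k (z.1, z.2.2)) (v, 0, 0) := by
  have h1 : AnalyticAt ℝ (fun z : ℝ × ℝ × ℝ => (z.1, z.2.2)) (v, 0, 0) :=
    ((ContinuousLinearMap.fst ℝ ℝ (ℝ × ℝ)).prod
      ((ContinuousLinearMap.snd ℝ ℝ ℝ).comp (ContinuousLinearMap.snd ℝ ℝ (ℝ × ℝ)))).analyticAt _
  exact AnalyticAt.comp (g := k) (f := fun z : ℝ × ℝ × ℝ => (z.1, z.2.2)) hk h1

/-- continuity of first derivatives along a curve -/
private theorem kbtwo_cont {f : ℝ × ℝ → ℝ} {s X : ℝ → ℝ} {t : ℝ} (hf : AnalyticAt ℝ f (s t, X t))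
    (hs : ContinuousAt s t) (hX : ContinuousAt X t) (q : ℝ × ℝ) :
    ContinuousAt (fun t => fderiv ℝ f (s t, X t) q) t := by
  have h1 : ContinuousAt (fun t => ((s t, X t) : ℝ × ℝ)) t := hs.prodMk hX
  have h2 : ContinuousAt (fun t => fderiv ℝ f (s t, X t)) t :=
    ContinuousAt.comp (g := fderiv ℝ f) (f := fun t => ((s t, X t) : ℝ × ℝ))
      hf.fderiv.continuousAt h1
  exact h2.clm_apply continuousAt_const

private theorem kbtwo_cont0 {f : ℝ × ℝ → ℝ} {s X : ℝ → ℝ} {t : ℝ} (hf : AnalyticAt ℝ f (s t, X t))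
    (hs : ContinuousAt s t) (hX : ContinuousAt X t) : ContinuousAt (fun t => f (s t, X t)) t :=
  ContinuousAt.comp (g := f) (f := fun t => ((s t, X t) : ℝ × ℝ)) hf.continuousAt (hs.prodMk hX)

theorem bd_two {f k η : ℝ × ℝ → ℝ} {u : ℝ → ℝ} {a b : ℝ} {s X lam ϕ : ℝ → ℝ}
    (h : BD f k η u a b s X lam ϕ) {T : ℝ} {C : Set ℝ} (hC : Perf T C) {t₂ : ℝ} (ht₂ : t₂ ∈ C)
    (hab : t₂ ∈ Ioo a b) (h0 : ∀ᶠ t in 𝓝 t₂, t ∈ C → X t = 0 ∧ ϕ t = 0) {κ : ℝ}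
    (hf : ∀ᶠ v in 𝓝 (s t₂), f (v, 0) = 0 ∧ η (v, 0) = κ)
    (hn : ∀ᶠ t in 𝓝 t₂, t ∈ C → lam t * Dn f (s t, 0) + Dn η (s t, 0) = 0)
    (hk : |k (s t₂, 0)| < 1) (hg : ∀ᶠ t in 𝓝 t₂, t ∈ C → Gen C s t) {ω : ℝ → ℝ}
    (hω : AnalyticAt ℝ ω (s t₂)) (hlam : ∀ᶠ t in 𝓝 t₂, t ∈ C → lam t = ω (s t)) :
    ∀ᶠ z in 𝓝 ((s t₂, 0) : ℝ × ℝ), ω z.1 * f z + η z = κ := by
  classical
  -- the data at `t₂`
  have hX2 : X t₂ = 0 := (h0.self_of_nhds ht₂).1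
  have hfa2 : AnalyticAt ℝ f (s t₂, 0) := by
    have := h.fa t₂ hab
    rwa [hX2] at this
  have hηa2 : AnalyticAt ℝ η (s t₂, 0) := by
    have := h.ηa t₂ hab
    rwa [hX2] at this
  have hka2 : AnalyticAt ℝ k (s t₂, 0) := by
    have := h.ka t₂ hab
    rwa [hX2] at this
  have hB2 : AnalyticAt ℝ (kbtwo_B f η ω κ) (s t₂, 0, 0) := kbtwo_an hfa2 hηa2 hω
  have hsc2 : ContinuousAt s t₂ := (bd_cont h hab).1
  by_contra hno
  have hne : ¬ ∀ᶠ p in 𝓝 ((s t₂, (0 : ℝ)) : ℝ × ℝ), fX (kbtwo_B f η ω κ) p = 0 := by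
    intro h1
    apply hno
    have h2 : Tendsto (fun z : ℝ × ℝ => z.1) (𝓝 ((s t₂, 0) : ℝ × ℝ)) (𝓝 (s t₂)) :=
      continuous_fst.tendsto' _ _ rfl
    filter_upwards [h1, h2.eventually hf] with z hz1 hz2
    unfold fX kbtwo_B at hz1
    simp only at hz1 hz2
    rw [hz2.1, hz2.2] at hz1
    have : (z.1, z.2) = z := rfl
    rw [this] at hz1
    linarith
  -- the properties of the points near `t₂`
  have hmem : ∀ᶠ t in 𝓝 t₂, t ∈ Ioo a b := isOpen_Ioo.mem_nhds hab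
  have hsc : ∀ᶠ t in 𝓝 t₂, ContinuousAt s t := hmem.mono fun t ht => (bd_cont h ht).1
  have q3 : ∀ᶠ t in 𝓝 t₂, ∀ᶠ v in 𝓝 (s t), f (v, 0) = 0 ∧ η (v, 0) = κ :=
    hsc2.eventually hf.eventually_nhds
  have q5 : ∀ᶠ t in 𝓝 t₂, |k (s t, 0)| < 1 := by
    have h1 : ContinuousAt (fun t => |k (s t, 0)|) t₂ := by
      have h2 : ContinuousAt (fun t => ((s t, (0 : ℝ)) : ℝ × ℝ)) t₂ :=
        hsc2.prodMk continuousAt_const
      exact (ContinuousAt.comp (g := k) (f := fun t => ((s t, (0 : ℝ)) : ℝ × ℝ))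
        hka2.continuousAt h2).abs
    exact h1.eventually_lt continuousAt_const hk
  have q7 : ∀ᶠ t in 𝓝 t₂, AnalyticAt ℝ ω (s t) := hsc2.eventually hω.eventually_analyticAt
  obtain ⟨ε, hε, hall⟩ := Metric.eventually_nhds_iff_ball.1
    (hmem.and (h0.eventually_nhds.and (q3.and (hn.and (q5.and (hg.eventually_nhds.and
      (q7.eventually_nhds.and hlam.eventually_nhds)))))))
  obtain ⟨t₃, ht₃, hd3, -, m, ho, hm0⟩ := TT.order ht₂ hsc hg (TT.fX_an hB2) hne hε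
  obtain ⟨hab3, h03, hf3, hn3, hk3, hg3, hω3, hlam3⟩ := hall t₃ (by
    rw [Metric.mem_ball, Real.dist_eq]
    exact hd3)
  obtain ⟨hX3, hϕ3⟩ := h03.self_of_nhds ht₃
  have hl3 : lam t₃ = ω (s t₃) := hlam3.self_of_nhds ht₃
  have hωa3 : AnalyticAt ℝ ω (s t₃) := hω3.self_of_nhds
  have hfa3 : AnalyticAt ℝ f (s t₃, 0) := by
    have := h.fa t₃ hab3
    rwa [hX3] at this
  have hηa3 : AnalyticAt ℝ η (s t₃, 0) := by
    have := h.ηa t₃ hab3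
    rwa [hX3] at this
  have hka3 : AnalyticAt ℝ k (s t₃, 0) := by
    have := h.ka t₃ hab3
    rwa [hX3] at this
  have hB3 : AnalyticAt ℝ (kbtwo_B f η ω κ) (s t₃, 0, 0) := kbtwo_an hfa3 hηa3 hωa3
  obtain ⟨hs3c, hX3c, hl3c, hϕ3c⟩ := bd_cont h hab3
  -- the order is at least two
  have hm2 : 2 ≤ m := by
    rcases Nat.lt_or_ge m 2 with hm | hm
    · exfalso
      interval_cases m
      · apply hm0
        simp [fX]
      · apply hm0
        have h1 : Dn (fX (kbtwo_B f η ω κ)) (s t₃, 0) = 0 := by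
          unfold Dn
          rw [kbtwo_fX (p := ((s t₃, 0) : ℝ × ℝ)) hB3.differentiableAt hB3.differentiableAt]
          simp only
          rw [kbtwo_fd hfa3.differentiableAt hηa3.differentiableAt hωa3.differentiableAt,
            kbtwo_fd hfa3.differentiableAt hηa3.differentiableAt hωa3.differentiableAt]
          have h2 := hn3 ht₃
          unfold Dn at h2
          rw [hl3] at h2
          have h3 : fderiv ℝ f (s t₃, 0) ((0 : ℝ), (0 : ℝ)) = 0 := by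
            have : (((0 : ℝ), (0 : ℝ)) : ℝ × ℝ) = 0 := rfl
            rw [this, map_zero]
          have h4 : fderiv ℝ η (s t₃, 0) ((0 : ℝ), (0 : ℝ)) = 0 := by
            have : (((0 : ℝ), (0 : ℝ)) : ℝ × ℝ) = 0 := rfl
            rw [this, map_zero]
          rw [h3, h4]
          linarith
        simpa using h1
    · exact hm
  -- an interval on which `ω` is analytic
  obtain ⟨ρ, hρ, hρa⟩ := Metric.eventually_nhds_iff_ball.1 (hω3.and (isOpen_Ioo.mem_nhds hab3))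
  set a₃ : ℝ := t₃ - ρ with ha₃
  set b₃ : ℝ := t₃ + ρ with hb₃
  have hball : ∀ t ∈ Ioo a₃ b₃, AnalyticAt ℝ ω (s t) ∧ t ∈ Ioo a b := by
    intro t ht
    refine hρa t ?_
    rw [Metric.mem_ball, Real.dist_eq, abs_lt]
    constructor <;> linarith [ht.1, ht.2]
  have hab3' : t₃ ∈ Ioo (max a a₃) (min b b₃) := by
    refine ⟨max_lt hab3.1 (by linarith), lt_min hab3.2 (by linarith)⟩
  have hI : ∀ t ∈ Ioo (max a a₃) (min b b₃), AnalyticAt ℝ ω (s t) ∧ t ∈ Ioo a b := by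
    intro t ht
    exact hball t ⟨lt_of_le_of_lt (le_max_right _ _) ht.1, lt_of_lt_of_le ht.2 (min_le_right _ _)⟩
  have h' : BD f k η u (max a a₃) (min b b₃) s X lam ϕ :=
    h.mono (le_max_left _ _) (min_le_left _ _)
  obtain ⟨K, a', b', ht3', hsub, hLc, -, hLq, -, hK⟩ := bd_lc h' hab3'
  set Y : ℝ → ℝ := fun t => lam t - ω (s t) with hY
  set y' : ℝ → ℝ := fun t =>
    -(lam t * Ds f (s t, X t) + ϕ t * Ds k (s t, X t) + Ds η (s t, X t)) -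
      deriv ω (s t) * f (s t, X t) with hy'
  have hYd : ∀ t ∈ Ioo (max a a₃) (min b b₃), HasDerivAt Y (y' t) t := by
    intro t ht
    have h1 : HasDerivAt (fun t => ω (s t)) (deriv ω (s t) * f (s t, X t)) t :=
      (hI t ht).1.differentiableAt.hasDerivAt.comp t (h'.sd t ht)
    exact (h'.ld t ht).sub h1
  have hYc : ContinuousOn y' (Ioo (max a a₃) (min b b₃)) := by
    intro t ht
    apply ContinuousAt.continuousWithinAt
    obtain ⟨c1, c2, c3, c4⟩ := bd_cont h' ht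
    have d1 := kbtwo_cont (h'.fa t ht) c1 c2 (1, 0)
    have d2 := kbtwo_cont (h'.ka t ht) c1 c2 (1, 0)
    have d3 := kbtwo_cont (h'.ηa t ht) c1 c2 (1, 0)
    have d4 := kbtwo_cont0 (h'.fa t ht) c1 c2
    have d5 : ContinuousAt (fun t => deriv ω (s t)) t :=
      ContinuousAt.comp (g := deriv ω) (f := s) (hI t ht).1.deriv.continuousAt c1
    exact ((((c3.mul d1).add (c4.mul d2)).add d3).neg).sub (d5.mul d4)
  have hL := hLc Y y' hYd hYc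
  have hq := hLq Y
  have hLp : Lp a' b' s Y X (fun z : ℝ × ℝ × ℝ => k (z.1, z.2.2)) (fun _ => 1) t₃ := by
    refine ⟨ht3', hX3, ?_, kbtwo_kan hka3, analyticAt_const⟩
    rw [hY]
    simp only
    rw [hl3, sub_self]
  -- the switching function
  have hnn : ∀ t ∈ Ioo a' b',
      |-(lam t * Dn f (s t, X t) + ϕ t * Dn k (s t, X t) + Dn η (s t, X t)) +
        fderiv ℝ (kbtwo_B f η ω κ) (s t, Y t, X t) (0, 0, 1)| ≤ K * |ϕ t| := by
    intro t ht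
    have ht' := hsub ht
    have e1 := kbtwo_fd (κ := κ) (h'.fa t ht').differentiableAt (h'.ηa t ht').differentiableAt
      (hI t ht').1.differentiableAt (Y t) 0 0 1
    rw [e1]
    have e2 : -(lam t * Dn f (s t, X t) + ϕ t * Dn k (s t, X t) + Dn η (s t, X t)) +
        ((deriv ω (s t) * 0 + 0) * f (s t, X t) + (ω (s t) + Y t) * fderiv ℝ f (s t, X t) (0, 1) +
          fderiv ℝ η (s t, X t) (0, 1)) = -(ϕ t * Dn k (s t, X t)) := by
      unfold Dn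
      rw [hY]
      simp only
      ring
    rw [e2, abs_neg, abs_mul, mul_comm]
    refine mul_le_mul_of_nonneg_right ?_ (abs_nonneg _)
    have := hK t ht
    have h1 := abs_nonneg (Ds f (s t, X t))
    have h2 := abs_nonneg (Ds k (s t, X t))
    linarith
  -- the derivative of `Y`
  obtain ⟨K₁, hK₁, hest⟩ := TT.B_est hB3 ho
  have hK0 : 0 ≤ K := le_trans (abs_nonneg _) ((le_add_of_nonneg_right (abs_nonneg _)).trans
    ((le_add_of_nonneg_right (abs_nonneg _)).trans (hK t₃ ht3')))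
  have hyb : ∀ᶠ t in 𝓝 t₃, |y' t| ≤ (K₁ + K) * (|X t| ^ m + |Y t| + |ϕ t|) := by
    have c1 : Tendsto (fun t => ((s t, (0 : ℝ), X t) : ℝ × ℝ × ℝ)) (𝓝 t₃)
        (𝓝 (s t₃, (0 : ℝ), (0 : ℝ))) := by
      have : ContinuousAt (fun t => ((s t, (0 : ℝ), X t) : ℝ × ℝ × ℝ)) t₃ :=
        hs3c.prodMk (continuousAt_const.prodMk hX3c)
      have h2 := this.tendsto
      rwa [hX3] at h2
    have c2 : ∀ᶠ t in 𝓝 t₃, ∀ᶠ v in 𝓝 (s t), f (v, 0) = 0 ∧ η (v, 0) = κ :=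
      hs3c.eventually hf3.eventually_nhds
    have c3 : ∀ᶠ t in 𝓝 t₃, AnalyticAt ℝ f (s t, 0) ∧ AnalyticAt ℝ η (s t, 0) := by
      have : ContinuousAt (fun t => ((s t, (0 : ℝ)) : ℝ × ℝ)) t₃ := hs3c.prodMk continuousAt_const
      exact this.eventually (hfa3.eventually_analyticAt.and hηa3.eventually_analyticAt)
    filter_upwards [c1.eventually hest, c2, c3, isOpen_Ioo.mem_nhds ht3'] with t g1 g2 g3 g4
    have ht' := hsub g4
    have g5 := g1.2.2 1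
    simp only [norm_one, mul_one, abs_zero, add_zero] at g5
    rw [kbtwo_fd (h'.fa t ht').differentiableAt (h'.ηa t ht').differentiableAt
      (hI t ht').1.differentiableAt, kbtwo_fd g3.1.differentiableAt g3.2.differentiableAt
      (hI t ht').1.differentiableAt] at g5
    have z1 : fderiv ℝ f (s t, 0) ((1 : ℝ), (0 : ℝ)) = 0 := by
      have e1 : HasDerivAt (fun v : ℝ => f (v, 0)) (fderiv ℝ f (s t, 0) (1, 0)) (s t) := by
        have e2 : HasDerivAt (fun v : ℝ => ((v, (0 : ℝ)) : ℝ × ℝ)) ((1 : ℝ), (0 : ℝ)) (s t) :=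
          (hasDerivAt_id _).prodMk (hasDerivAt_const _ _)
        exact g3.1.differentiableAt.hasFDerivAt.comp_hasDerivAt (s t) e2
      have e3 : HasDerivAt (fun v : ℝ => f (v, 0)) 0 (s t) :=
        (hasDerivAt_const (s t) (0 : ℝ)).congr_of_eventuallyEq (g2.mono fun v hv => hv.1)
      exact e1.unique e3
    have z2 : fderiv ℝ η (s t, 0) ((1 : ℝ), (0 : ℝ)) = 0 := by
      have e1 : HasDerivAt (fun v : ℝ => η (v, 0)) (fderiv ℝ η (s t, 0) (1, 0)) (s t) := by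
        have e2 : HasDerivAt (fun v : ℝ => ((v, (0 : ℝ)) : ℝ × ℝ)) ((1 : ℝ), (0 : ℝ)) (s t) :=
          (hasDerivAt_id _).prodMk (hasDerivAt_const _ _)
        exact g3.2.differentiableAt.hasFDerivAt.comp_hasDerivAt (s t) e2
      have e3 : HasDerivAt (fun v : ℝ => η (v, 0)) 0 (s t) :=
        (hasDerivAt_const (s t) κ).congr_of_eventuallyEq (g2.mono fun v hv => hv.2)
      exact e1.unique e3
    rw [z1, z2, g2.self_of_nhds.1] at g5
    have g6 : y' t = -((deriv ω (s t) * 1 + 0) * f (s t, X t) +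
        (ω (s t) + 0) * fderiv ℝ f (s t, X t) (1, 0) + fderiv ℝ η (s t, X t) (1, 0) -
        ((deriv ω (s t) * 1 + 0) * 0 + (ω (s t) + 0) * 0 + 0)) -
        Y t * Ds f (s t, X t) - ϕ t * Ds k (s t, X t) := by
      rw [hy', hY]
      unfold Ds
      simp only
      ring
    rw [g6]
    have hKt := hK t g4
    have n1 := abs_nonneg (Dn k (s t, X t))
    have n2 := abs_nonneg (Ds f (s t, X t))
    have n3 := abs_nonneg (Ds k (s t, X t))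
    have n4 : 0 ≤ |X t| ^ m := by positivity
    have b1 : |Y t * Ds f (s t, X t)| ≤ |Y t| * K := by
      rw [abs_mul]
      exact mul_le_mul_of_nonneg_left (by linarith) (abs_nonneg _)
    have b2 : |ϕ t * Ds k (s t, X t)| ≤ |ϕ t| * K := by
      rw [abs_mul]
      exact mul_le_mul_of_nonneg_left (by linarith) (abs_nonneg _)
    refine (abs_sub _ _).trans ?_
    refine (add_le_add ((abs_sub _ _).trans (add_le_add ((abs_neg _).le.trans g5) b1)) b2).trans ?_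
    nlinarith [mul_nonneg hK0 n4, mul_nonneg hK₁ (abs_nonneg (Y t)), mul_nonneg hK₁ (abs_nonneg (ϕ t))]
  obtain ⟨δ, hδ, hfin⟩ := lc_four hL hLp (by simpa using hk3) hq hB3 hm2 ho hm0 hnn hyb
  obtain ⟨δ', hδ', hfin'⟩ := Metric.eventually_nhds_iff_ball.1 (h03.and hlam3)
  refine bd_rest h hC ht₃ hab3 (hf3.mono fun v hv => hv.1) hg3 (lt_min hδ hδ') ?_
  intro r hr r' hr' hrr h1 h2
  have m1 := hfin' r (by
    rw [Metric.mem_ball, Real.dist_eq]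
    exact lt_of_lt_of_le h1 (min_le_right _ _))
  have m2 := hfin' r' (by
    rw [Metric.mem_ball, Real.dist_eq]
    exact lt_of_lt_of_le h2 (min_le_right _ _))
  obtain ⟨x1, x2⟩ := m1.1 hr
  obtain ⟨x3, x4⟩ := m2.1 hr'
  refine hfin r r' hrr (lt_of_lt_of_le h1 (min_le_left _ _)) (lt_of_lt_of_le h2 (min_le_left _ _))
    x1 ?_ x2 x3 x4
  rw [hY]
  simp only
  rw [m1.2 hr, sub_self]

end Pool.Agent.Lib.MP_28b8de_an.KK
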