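import Pool.Agent.Lib.MP_28b8de_an.K.KBUnsat
import Pool.Agent.Lib.MP_28b8de_an.K.KBOne
import Pool.Agent.Lib.MP_28b8de_an.K.KBTwo

/-!
MP_28b8de_an, module KBCore.

Planar extremals which vanish on C are totally singular.
-/

set_option linter.unusedSectionVars false

namespace Pool.Agent.Lib.MP_28b8de_an.KK

open Filter Topology Set MeasureTheory
open Pool.Agent.Lib.MP_28b8de_an.PT (Adm Perf)
open Pool.Agent.Lib.MP_28b8de_an.TT (Env Sol Jn Tr SmAt Goal dx Dn Gen Lc Lp Lq fX cf)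
open Pool.Agent.Lib.MP_28b8de_an.DD (LTraj LRep Ch)

theorem bd_core {f k η : ℝ × ℝ → ℝ} {u : ℝ → ℝ} {a b : ℝ} {s X lam ϕ : ℝ → ℝ}
    (h : BD f k η u a b s X lam ϕ) {T : ℝ} {C : Set ℝ} (hC : Perf T C) {t₁ : ℝ} (ht₁ : t₁ ∈ C)
    (hab : t₁ ∈ Ioo a b)
    (h0 : ∀ᶠ t in 𝓝 t₁, t ∈ C → X t = 0 ∧ ϕ t = 0 ∧ f (s t, X t) = 0)
    (hg : ∀ᶠ t in 𝓝 t₁, t ∈ C → Gen C s t) :
    ∃ t₂ ∈ C, t₂ ∈ Ioo a b ∧ Gen C s t₂ ∧ ∃ (ω : ℝ → ℝ) (κ : ℝ), AnalyticAt ℝ ω (s t₂) ∧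
      (∀ᶠ t in 𝓝 t₂, t ∈ C → lam t = ω (s t)) ∧
      ∀ᶠ z in 𝓝 (s t₂, X t₂), ω z.1 * f z + η z = κ := by
  obtain ⟨κ, hfη, hnk⟩ := bd_facts h hC ht₁ hab h0 hg
  have hI : ∀ᶠ t in 𝓝 t₁, t ∈ Ioo a b := isOpen_Ioo.mem_nhds hab
  have hsc : ContinuousAt s t₁ := (bd_cont h hab).1
  -- everything that holds near `t₁`
  have hall : ∀ᶠ t in 𝓝 t₁, t ∈ Ioo a b ∧
      (∀ᶠ r in 𝓝 t, r ∈ C → X r = 0 ∧ ϕ r = 0 ∧ f (s r, X r) = 0) ∧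
      (∀ᶠ r in 𝓝 t, r ∈ C → Gen C s r) ∧ (∀ᶠ v in 𝓝 (s t), f (v, 0) = 0 ∧ η (v, 0) = κ) ∧
      ∀ᶠ r in 𝓝 t, r ∈ C → lam r * Dn f (s r, 0) + Dn η (s r, 0) = 0 ∧ |k (s r, 0)| ≤ 1 := by
    filter_upwards [hI, h0.eventually_nhds, hg.eventually_nhds,
      hsc.eventually hfη.eventually_nhds, hnk.eventually_nhds] with t a1 a2 a3 a4 a5
    exact ⟨a1, a2, a3, a4, a5⟩
  obtain ⟨ε, hε, hball⟩ := Metric.eventually_nhds_iff_ball.1 hall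
  have hin : ∀ t, |t - t₁| < ε → _ := fun t ht => hball t (by
    rw [Metric.mem_ball, Real.dist_eq]
    exact ht)
  obtain ⟨t₂, ht₂, hd₂, hk₂⟩ := bd_unsat h hC ht₁ hab (h0.mono fun t ht htC => (ht htC).1)
    (hfη.mono fun v hv => hv.1) (hnk.mono fun t ht htC => (ht htC).2) hg hε
  obtain ⟨c1, c2, c3, c4, c5⟩ := hin t₂ hd₂
  have hX₂ : X t₂ = 0 := (c2.self_of_nhds ht₂).1
  -- the unsaturated points near `t₂`
  have hkc : ∀ᶠ t in 𝓝 t₂, t ∈ C → |k (s t, 0)| < 1 := by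
    have h1 : ContinuousAt k (s t₂, 0) := by
      have := (h.ka t₂ c1).continuousAt
      rwa [hX₂] at this
    have h2 : ContinuousAt (fun t => |k (s t, 0)|) t₂ := by
      have h3 : ContinuousAt (fun t => ((s t, 0) : ℝ × ℝ)) t₂ :=
        (bd_cont h c1).1.prodMk continuousAt_const
      exact (ContinuousAt.comp (g := k) (f := fun t => ((s t, 0) : ℝ × ℝ)) h1 h3).abs
    have h4 : ∀ᶠ t in 𝓝 t₂, |k (s t, 0)| < 1 := h2.eventually (gt_mem_nhds hk₂)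
    filter_upwards [h4] with t ht _
    exact ht
  have hall₂ : ∀ᶠ t in 𝓝 t₂, (t ∈ C → |k (s t, 0)| < 1) ∧ |t - t₁| < ε := by
    have h5 : ∀ᶠ t in 𝓝 t₂, |t - t₁| < ε :=
      (continuousAt_id.sub continuousAt_const).abs.eventually (gt_mem_nhds hd₂)
    filter_upwards [hkc, h5] with t a1 a2
    exact ⟨a1, a2⟩
  obtain ⟨ε₂, hε₂, hball₂⟩ := Metric.eventually_nhds_iff_ball.1 hall₂
  by_cases hcase : ∃ t₃ ∈ C, |t₃ - t₂| < ε₂ ∧ ∃ ω : ℝ → ℝ, AnalyticAt ℝ ω (s t₃) ∧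
      ∀ᶠ t in 𝓝 t₃, t ∈ C → lam t = ω (s t)
  · obtain ⟨t₃, ht₃, hd₃, ω, hω, hlam⟩ := hcase
    obtain ⟨e1, e2⟩ := hball₂ t₃ (by rw [Metric.mem_ball, Real.dist_eq]; exact hd₃)
    obtain ⟨d1, d2, d3, d4, d5⟩ := hin t₃ e2
    have hX₃ : X t₃ = 0 := (d2.self_of_nhds ht₃).1
    refine ⟨t₃, ht₃, d1, d3.self_of_nhds ht₃, ω, κ, hω, hlam, ?_⟩
    rw [hX₃]
    exact bd_two h hC ht₃ d1 (d2.mono fun t ht htC => ⟨(ht htC).1, (ht htC).2.1⟩) d4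
      (d5.mono fun t ht htC => (ht htC).1) (e1 ht₃) d3 hω hlam
  · exfalso
    refine bd_one h hC ht₂ c1 (c2.mono fun t ht htC => ⟨(ht htC).1, (ht htC).2.1⟩)
      (c4.mono fun v hv => hv.1) (c5.mono fun t ht htC => (ht htC).1) hk₂ c3 ?_
    have hnear : ∀ᶠ t in 𝓝 t₂, |t - t₂| < ε₂ ∧ |t - t₁| < ε := by
      filter_upwards [Metric.ball_mem_nhds t₂ hε₂] with t ht
      refine ⟨?_, (hball₂ t ht).2⟩
      rwa [Metric.mem_ball, Real.dist_eq] at ht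
    filter_upwards [hnear] with t ht htC
    obtain ⟨d1, d2, d3, d4, d5⟩ := hin t ht.2
    intro c hc hcC
    have hI' : ∀ᶠ r in 𝓝 t, r ∈ Ioo a b := isOpen_Ioo.mem_nhds d1
    rcases TT.zw (w := s) (x := lam) htC (hI'.mono fun r hr => (bd_cont h hr).1)
      (hI'.mono fun r hr => (bd_cont h hr).2.2.1) hc hcC
      (show 0 < ε₂ - |t - t₂| by linarith [ht.1]) with h1 | ⟨t₃, ht₃, hd₃, ω, hω, hlam⟩ | ⟨b', hb', hbC, hb0⟩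
    · exact h1
    · exfalso
      refine hcase ⟨t₃, ht₃, ?_, ω, hω, hlam⟩
      calc |t₃ - t₂| = |(t₃ - t) + (t - t₂)| := by ring_nf
        _ ≤ |t₃ - t| + |t - t₂| := abs_add_le _ _
        _ < ε₂ := by linarith
    · exact absurd (d3.self_of_nhds htC b' hb' hbC) hb0

end Pool.Agent.Lib.MP_28b8de_an.KK
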