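import Pool.Agent.Lib.MP_28b8de_an.K.KBMono

/-!
MP_28b8de_an, module KBLc.

Local data (in the sense of T/) of a planar extremal.
PROOF.  Take a' < t₁ < b' with [a',b'] ⊂ (a,b).  All functions (f, k, η, their first derivatives along the curve, s, X, lam, ϕ) are continuous on (a,b), hence bounded on [a',b']; K large.
First Lc: w = s, w' = f (s,X); Yc: y' is continuous on Ioo a b ⊇ Ioo a' b'.  Second: w = (s,lam) with derivative (f, -(..)).  Xeq from BD.xeq (g = 1).  Lq: n := -(lam Dn f + ϕ Dn k + Dn η), continuous, ϕ' = n; usgn from BD.us.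
-/

set_option linter.unusedSectionVars false

namespace Pool.Agent.Lib.MP_28b8de_an.KK

open Filter Topology Set MeasureTheory
open Pool.Agent.Lib.MP_28b8de_an.PT (Adm Perf)
open Pool.Agent.Lib.MP_28b8de_an.TT (Env Sol Jn Tr SmAt Goal dx Dn Gen Lc Lp Lq fX cf)
open Pool.Agent.Lib.MP_28b8de_an.DD (LTraj LRep Ch)

private theorem KBLc_clm {g : ℝ × ℝ → ℝ} {s X : ℝ → ℝ} {t : ℝ}
    (hg : AnalyticAt ℝ g (s t, X t)) (hs : ContinuousAt s t) (hX : ContinuousAt X t)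
    (e : ℝ × ℝ) : ContinuousAt (fun t => fderiv ℝ g (s t, X t) e) t := by
  have hz : ContinuousAt (fun t => ((s t, X t) : ℝ × ℝ)) t := hs.prodMk hX
  have h1 : ContinuousAt (fun t => fderiv ℝ g (s t, X t)) t :=
    ContinuousAt.comp (f := fun t => ((s t, X t) : ℝ × ℝ)) (g := fderiv ℝ g)
      hg.fderiv.continuousAt hz
  exact h1.clm_apply continuousAt_const

private theorem KBLc_val {g : ℝ × ℝ → ℝ} {s X : ℝ → ℝ} {t : ℝ}
    (hg : AnalyticAt ℝ g (s t, X t)) (hs : ContinuousAt s t) (hX : ContinuousAt X t) :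
    ContinuousAt (fun t => g (s t, X t)) t :=
  ContinuousAt.comp (f := fun t => ((s t, X t) : ℝ × ℝ)) (g := g)
    hg.continuousAt (hs.prodMk hX)

theorem bd_lc {f k η : ℝ × ℝ → ℝ} {u : ℝ → ℝ} {a b : ℝ} {s X lam ϕ : ℝ → ℝ}
    (h : BD f k η u a b s X lam ϕ) {t₁ : ℝ} (hab : t₁ ∈ Ioo a b) :
    ∃ K a' b' : ℝ, t₁ ∈ Ioo a' b' ∧ Ioo a' b' ⊆ Ioo a b ∧
      (∀ Y y' : ℝ → ℝ, (∀ t ∈ Ioo a b, HasDerivAt Y (y' t) t) → ContinuousOn y' (Ioo a b) →
        Lc K u a' b' s (fun t => f (s t, X t)) Y y' X (fun z : ℝ × ℝ × ℝ => k (z.1, z.2.2))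
          (fun _ => 1)) ∧
      Lc K u a' b' (fun t => ((s t, lam t) : ℝ × ℝ))
        (fun t => (f (s t, X t), -(lam t * Ds f (s t, X t) + ϕ t * Ds k (s t, X t) + Ds η (s t, X t))))
        (fun _ => 0) (fun _ => 0) X (fun z : (ℝ × ℝ) × ℝ × ℝ => k (z.1.1, z.2.2)) (fun _ => 1) ∧
      (∀ Y : ℝ → ℝ, Lq K u a' b' s Y X (fun _ : ℝ × ℝ × ℝ => 1) ϕ
        (fun t => -(lam t * Dn f (s t, X t) + ϕ t * Dn k (s t, X t) + Dn η (s t, X t)))) ∧
      Lq K u a' b' (fun t => ((s t, lam t) : ℝ × ℝ)) (fun _ => 0) X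
        (fun _ : (ℝ × ℝ) × ℝ × ℝ => 1) ϕ
        (fun t => -(lam t * Dn f (s t, X t) + ϕ t * Dn k (s t, X t) + Dn η (s t, X t))) ∧
      ∀ t ∈ Ioo a' b', |Dn k (s t, X t)| + |Ds f (s t, X t)| + |Ds k (s t, X t)| ≤ K := by
  obtain ⟨ha1, hb1⟩ := hab
  -- continuity along the curve
  have cs : ∀ t ∈ Ioo a b, ContinuousAt s t := fun t ht => (bd_cont h ht).1
  have cX : ∀ t ∈ Ioo a b, ContinuousAt X t := fun t ht => (bd_cont h ht).2.1
  have cl : ∀ t ∈ Ioo a b, ContinuousAt lam t := fun t ht => (bd_cont h ht).2.2.1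
  have cϕ : ∀ t ∈ Ioo a b, ContinuousAt ϕ t := fun t ht => (bd_cont h ht).2.2.2
  have cf : ∀ t ∈ Ioo a b, ContinuousAt (fun t => f (s t, X t)) t := fun t ht =>
    KBLc_val (h.fa t ht) (cs t ht) (cX t ht)
  have cn : ∀ t ∈ Ioo a b, ContinuousAt
      (fun t => -(lam t * Dn f (s t, X t) + ϕ t * Dn k (s t, X t) + Dn η (s t, X t))) t :=
    fun t ht => ((((cl t ht).mul (KBLc_clm (h.fa t ht) (cs t ht) (cX t ht) (0, 1))).add
      ((cϕ t ht).mul (KBLc_clm (h.ka t ht) (cs t ht) (cX t ht) (0, 1)))).add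
      (KBLc_clm (h.ηa t ht) (cs t ht) (cX t ht) (0, 1))).neg
  have cm : ∀ t ∈ Ioo a b, ContinuousAt
      (fun t => -(lam t * Ds f (s t, X t) + ϕ t * Ds k (s t, X t) + Ds η (s t, X t))) t :=
    fun t ht => ((((cl t ht).mul (KBLc_clm (h.fa t ht) (cs t ht) (cX t ht) (1, 0))).add
      ((cϕ t ht).mul (KBLc_clm (h.ka t ht) (cs t ht) (cX t ht) (1, 0)))).add
      (KBLc_clm (h.ηa t ht) (cs t ht) (cX t ht) (1, 0))).neg
  have cp : ∀ t ∈ Ioo a b, ContinuousAt (fun t => ((f (s t, X t),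
      -(lam t * Ds f (s t, X t) + ϕ t * Ds k (s t, X t) + Ds η (s t, X t))) : ℝ × ℝ)) t :=
    fun t ht => (cf t ht).prodMk (cm t ht)
  have cq : ∀ t ∈ Ioo a b, ContinuousAt
      (fun t => |Dn k (s t, X t)| + |Ds f (s t, X t)| + |Ds k (s t, X t)|) t :=
    fun t ht => (((KBLc_clm (h.ka t ht) (cs t ht) (cX t ht) (0, 1)).abs).add
      (KBLc_clm (h.fa t ht) (cs t ht) (cX t ht) (1, 0)).abs).add
      (KBLc_clm (h.ka t ht) (cs t ht) (cX t ht) (1, 0)).abs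
  -- the interval
  have hI : Icc ((a + t₁) / 2) ((t₁ + b) / 2) ⊆ Ioo a b := fun t ht =>
    ⟨by linarith [ht.1], by linarith [ht.2]⟩
  have hJ : Ioo ((a + t₁) / 2) ((t₁ + b) / 2) ⊆ Ioo a b := Ioo_subset_Icc_self.trans hI
  obtain ⟨C1, hC1⟩ := (isCompact_Icc (a := (a + t₁) / 2) (b := (t₁ + b) / 2)).exists_bound_of_continuousOn
    (f := fun t => ((f (s t, X t),
      -(lam t * Ds f (s t, X t) + ϕ t * Ds k (s t, X t) + Ds η (s t, X t))) : ℝ × ℝ))
    (fun t ht => (cp t (hI ht)).continuousWithinAt)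
  obtain ⟨C2, hC2⟩ := (isCompact_Icc (a := (a + t₁) / 2) (b := (t₁ + b) / 2)).exists_bound_of_continuousOn
    (f := fun t => -(lam t * Dn f (s t, X t) + ϕ t * Dn k (s t, X t) + Dn η (s t, X t)))
    (fun t ht => (cn t (hI ht)).continuousWithinAt)
  obtain ⟨C3, hC3⟩ := (isCompact_Icc (a := (a + t₁) / 2) (b := (t₁ + b) / 2)).exists_bound_of_continuousOn
    (f := fun t => |Dn k (s t, X t)| + |Ds f (s t, X t)| + |Ds k (s t, X t)|)
    (fun t ht => (cq t (hI ht)).continuousWithinAt)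
  have k1 : (1 : ℝ) ≤ 1 + |C1| + |C2| + |C3| := by
    linarith [abs_nonneg C1, abs_nonneg C2, abs_nonneg C3]
  have bp : ∀ t ∈ Ioo ((a + t₁) / 2) ((t₁ + b) / 2), ‖((f (s t, X t),
      -(lam t * Ds f (s t, X t) + ϕ t * Ds k (s t, X t) + Ds η (s t, X t))) : ℝ × ℝ)‖ ≤
      1 + |C1| + |C2| + |C3| := fun t ht => by
    have h1 := hC1 t (Ioo_subset_Icc_self ht)
    exact h1.trans (by linarith [le_abs_self C1, abs_nonneg C2, abs_nonneg C3])
  have bf : ∀ t ∈ Ioo ((a + t₁) / 2) ((t₁ + b) / 2), ‖f (s t, X t)‖ ≤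
      1 + |C1| + |C2| + |C3| := fun t ht => by
    have h1 := bp t ht
    rw [Prod.norm_def] at h1
    exact (le_max_left _ _).trans h1
  have bn : ∀ t ∈ Ioo ((a + t₁) / 2) ((t₁ + b) / 2),
      |(-(lam t * Dn f (s t, X t) + ϕ t * Dn k (s t, X t) + Dn η (s t, X t)))| ≤
      1 + |C1| + |C2| + |C3| := fun t ht => by
    have h1 := hC2 t (Ioo_subset_Icc_self ht)
    rw [Real.norm_eq_abs] at h1
    exact h1.trans (by linarith [le_abs_self C2, abs_nonneg C1, abs_nonneg C3])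
  have bq : ∀ t ∈ Ioo ((a + t₁) / 2) ((t₁ + b) / 2),
      |Dn k (s t, X t)| + |Ds f (s t, X t)| + |Ds k (s t, X t)| ≤
      1 + |C1| + |C2| + |C3| := fun t ht => by
    have h1 := hC3 t (Ioo_subset_Icc_self ht)
    rw [Real.norm_eq_abs] at h1
    exact (le_abs_self _).trans (h1.trans
      (by linarith [le_abs_self C3, abs_nonneg C1, abs_nonneg C2]))
  -- integrals of the equations
  have huI : ∀ r ∈ Ioo ((a + t₁) / 2) ((t₁ + b) / 2), ∀ t ∈ Ioo ((a + t₁) / 2) ((t₁ + b) / 2),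
      uIcc r t ⊆ Ioo a b := fun r hr t ht τ hτ => by
    have hr' := hJ hr
    have ht' := hJ ht
    rcases le_total r t with hrt | hrt
    · rw [uIcc_of_le hrt] at hτ
      exact ⟨lt_of_lt_of_le hr'.1 hτ.1, lt_of_le_of_lt hτ.2 ht'.2⟩
    · rw [uIcc_of_ge hrt] at hτ
      exact ⟨lt_of_lt_of_le ht'.1 hτ.1, lt_of_le_of_lt hτ.2 hr'.2⟩
  have ni : ∀ r ∈ Ioo ((a + t₁) / 2) ((t₁ + b) / 2), ∀ t ∈ Ioo ((a + t₁) / 2) ((t₁ + b) / 2),
      IntervalIntegrable (fun t => -(lam t * Dn f (s t, X t) + ϕ t * Dn k (s t, X t) +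
        Dn η (s t, X t))) volume r t := fun r hr t ht =>
    ContinuousOn.intervalIntegrable
      (fun τ hτ => (cn τ (huI r hr t ht hτ)).continuousWithinAt)
  have neq : ∀ r ∈ Ioo ((a + t₁) / 2) ((t₁ + b) / 2), ∀ t ∈ Ioo ((a + t₁) / 2) ((t₁ + b) / 2),
      ϕ t - ϕ r = ∫ τ in r..t, -(lam τ * Dn f (s τ, X τ) + ϕ τ * Dn k (s τ, X τ) +
        Dn η (s τ, X τ)) := fun r hr t ht =>
    (intervalIntegral.integral_eq_sub_of_hasDerivAt
      (fun τ hτ => h.ϕd τ (huI r hr t ht hτ)) (ni r hr t ht)).symm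
  have us : ∀ᵐ t : ℝ, t ∈ Ioo ((a + t₁) / 2) ((t₁ + b) / 2) →
      u t * (1 * ϕ t) = |1 * ϕ t| := by
    filter_upwards [h.us] with t ht htI
    rw [one_mul]
    exact ht (hJ htI)
  have xeq : ∀ r ∈ Ioo ((a + t₁) / 2) ((t₁ + b) / 2), ∀ t ∈ Ioo ((a + t₁) / 2) ((t₁ + b) / 2),
      X t - X r = ∫ τ in r..t, (k (s τ, X τ) + u τ * 1) := fun r hr t ht => by
    rw [h.Xeq r (hJ hr) t (hJ ht)]
    simp only [mul_one]
  refine ⟨1 + |C1| + |C2| + |C3|, (a + t₁) / 2, (t₁ + b) / 2,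
    ⟨by linarith, by linarith⟩, hJ, ?_, ?_, ?_, ?_, bq⟩
  · intro Y y' hY hy'
    exact {
      K1 := k1
      adm := h.adm
      wd := fun t ht => h.sd t (hJ ht)
      wc := fun t ht => (cf t (hJ ht)).continuousWithinAt
      wb := bf
      Yd := fun t ht => hY t (hJ ht)
      Yc := hy'.mono hJ
      Xc := fun t ht => (cX t (hJ ht)).continuousWithinAt
      Xeq := xeq }
  · exact {
      K1 := k1
      adm := h.adm
      wd := fun t ht => (h.sd t (hJ ht)).prodMk (h.ld t (hJ ht))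
      wc := fun t ht => (cp t (hJ ht)).continuousWithinAt
      wb := bp
      Yd := fun t _ => hasDerivAt_const t (0 : ℝ)
      Yc := continuousOn_const
      Xc := fun t ht => (cX t (hJ ht)).continuousWithinAt
      Xeq := xeq }
  · intro Y
    exact {
      ϕc := fun t ht => (cϕ t (hJ ht)).continuousWithinAt
      ni := ni
      nb := bn
      ϕeq := neq
      usgn := us }
  · exact {
      ϕc := fun t ht => (cϕ t (hJ ht)).continuousWithinAt
      ni := ni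
      nb := bn
      ϕeq := neq
      usgn := us }

end Pool.Agent.Lib.MP_28b8de_an.KK
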