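import Pool.Agent.Lib.MP_28b8de_an.K.KDefs

/-!
MP_28b8de_an, module KBMono.

Extremals of planar systems: restriction, change of coordinates.
PROOFS.  BD.mono: restriction.  bd_cont: s is differentiable, X is continuous.
bd_shift: write f̃ (v,X) = f (v, ξ v + X), k̃ = k (v, ξ v + X) - ξ' v f̃, η̃ = η (v, ξ v + X), lam~ = lam + ξ'(s) ϕ, X = x - ξ (s).  All functions on the right are evaluated at (s, x) = (s, ξ (s) + X).
Dn f̃ = Dn f, Dn k̃ = Dn k - ξ' Dn f, Dn η̃ = Dn η, Ds f̃ = Ds f + ξ' Dn f, Ds η̃ = Ds η + ξ' Dn η, Ds k̃ = Ds k + ξ' Dn k - ξ'' f - ξ' (Ds f + ξ' Dn f).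
ϕd: lam~ Dn f̃ + ϕ Dn k̃ + Dn η̃ = lam Dn f + ϕ Dn k + Dn η.  ld: (lam + ξ'(s) ϕ)' = -(lam Ds f + ϕ Ds k + Ds η) + ξ'' f ϕ - ξ' (lam Dn f + ϕ Dn k + Dn η) = -(lam~ Ds f̃ + ϕ Ds k̃ + Ds η̃) (ring).
Xeq: (ξ (s))' = ξ' (s) f (s,x) (continuous), so X t - X r = ∫ (k + u - ξ' f).  Analyticity: composition.
-/

set_option linter.unusedSectionVars false

namespace Pool.Agent.Lib.MP_28b8de_an.KK

open Filter Topology Set MeasureTheory
open Pool.Agent.Lib.MP_28b8de_an.PT (Adm Perf)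
open Pool.Agent.Lib.MP_28b8de_an.TT (Env Sol Jn Tr SmAt Goal dx Dn Gen Lc Lp Lq fX cf)
open Pool.Agent.Lib.MP_28b8de_an.DD (LTraj LRep Ch)

theorem BD.mono {f k η : ℝ × ℝ → ℝ} {u : ℝ → ℝ} {a b a' b' : ℝ} {s X lam ϕ : ℝ → ℝ}
    (h : BD f k η u a b s X lam ϕ) (ha : a ≤ a') (hb : b' ≤ b) : BD f k η u a' b' s X lam ϕ := by
  have hs : Ioo a' b' ⊆ Ioo a b := Ioo_subset_Ioo ha hb
  refine ⟨h.adm, fun t ht => h.fa t (hs ht), fun t ht => h.ka t (hs ht), fun t ht => h.ηa t (hs ht),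
    fun t ht => h.sd t (hs ht), h.Xc.mono hs, fun r hr t ht => h.Xeq r (hs hr) t (hs ht),
    fun t ht => h.ld t (hs ht), fun t ht => h.ϕd t (hs ht), ?_⟩
  filter_upwards [h.us] with t h1 ht
  exact h1 (hs ht)

theorem bd_cont {f k η : ℝ × ℝ → ℝ} {u : ℝ → ℝ} {a b : ℝ} {s X lam ϕ : ℝ → ℝ}
    (h : BD f k η u a b s X lam ϕ) {t : ℝ} (ht : t ∈ Ioo a b) :
    ContinuousAt s t ∧ ContinuousAt X t ∧ ContinuousAt lam t ∧ ContinuousAt ϕ t :=
  ⟨(h.sd t ht).continuousAt, h.Xc.continuousAt (isOpen_Ioo.mem_nhds ht),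
    (h.ld t ht).continuousAt, (h.ϕd t ht).continuousAt⟩

private theorem KBMono_chain {g : ℝ × ℝ → ℝ} {ξ : ℝ → ℝ} {σ x : ℝ}
    (hg : DifferentiableAt ℝ g (σ, x)) (hξ : DifferentiableAt ℝ ξ σ) :
    HasFDerivAt (fun z : ℝ × ℝ => g (z.1, ξ z.1 + z.2))
      ((fderiv ℝ g (σ, x)).comp ((ContinuousLinearMap.fst ℝ ℝ ℝ).prod
        (deriv ξ σ • ContinuousLinearMap.fst ℝ ℝ ℝ + ContinuousLinearMap.snd ℝ ℝ ℝ)))
      (σ, x - ξ σ) := by
  have h1 : HasFDerivAt (fun z : ℝ × ℝ => ξ z.1) (deriv ξ σ • ContinuousLinearMap.fst ℝ ℝ ℝ)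
      (σ, x - ξ σ) :=
    HasDerivAt.comp_hasFDerivAt (σ, x - ξ σ) hξ.hasDerivAt hasFDerivAt_fst
  have h2 : HasFDerivAt (fun z : ℝ × ℝ => (z.1, ξ z.1 + z.2))
      ((ContinuousLinearMap.fst ℝ ℝ ℝ).prod
        (deriv ξ σ • ContinuousLinearMap.fst ℝ ℝ ℝ + ContinuousLinearMap.snd ℝ ℝ ℝ))
      (σ, x - ξ σ) := hasFDerivAt_fst.prodMk (h1.add hasFDerivAt_snd)
  have h3 : HasFDerivAt g (fderiv ℝ g (σ, x)) ((fun z : ℝ × ℝ => (z.1, ξ z.1 + z.2)) (σ, x - ξ σ)) := by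
    have : (fun z : ℝ × ℝ => (z.1, ξ z.1 + z.2)) (σ, x - ξ σ) = (σ, x) := by simp
    rw [this]
    exact hg.hasFDerivAt
  exact HasFDerivAt.comp (f := fun z : ℝ × ℝ => (z.1, ξ z.1 + z.2)) (σ, x - ξ σ) h3 h2

private theorem KBMono_apply (L : ℝ × ℝ →L[ℝ] ℝ) (c : ℝ) :
    (L.comp ((ContinuousLinearMap.fst ℝ ℝ ℝ).prod
        (c • ContinuousLinearMap.fst ℝ ℝ ℝ + ContinuousLinearMap.snd ℝ ℝ ℝ))) (1, 0) =
      L (1, 0) + c * L (0, 1) ∧
    (L.comp ((ContinuousLinearMap.fst ℝ ℝ ℝ).prod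
        (c • ContinuousLinearMap.fst ℝ ℝ ℝ + ContinuousLinearMap.snd ℝ ℝ ℝ))) (0, 1) = L (0, 1) := by
  constructor
  · have h1 : ((1 : ℝ), c) = (1, 0) + c • ((0 : ℝ), (1 : ℝ)) := by simp
    simp only [ContinuousLinearMap.comp_apply, ContinuousLinearMap.prod_apply,
      add_apply, smul_apply, ContinuousLinearMap.coe_fst',
      ContinuousLinearMap.coe_snd', smul_eq_mul, mul_one, add_zero]
    rw [h1, map_add, map_smul, smul_eq_mul]
  · simp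

private theorem KBMono_g {g : ℝ × ℝ → ℝ} {ξ : ℝ → ℝ} {σ x : ℝ}
    (hg : DifferentiableAt ℝ g (σ, x)) (hξ : DifferentiableAt ℝ ξ σ) :
    Ds (fun z : ℝ × ℝ => g (z.1, ξ z.1 + z.2)) (σ, x - ξ σ) =
      Ds g (σ, x) + deriv ξ σ * Dn g (σ, x) ∧
    Dn (fun z : ℝ × ℝ => g (z.1, ξ z.1 + z.2)) (σ, x - ξ σ) = Dn g (σ, x) := by
  unfold Ds Dn
  rw [(KBMono_chain hg hξ).fderiv]
  exact KBMono_apply _ _

private theorem KBMono_k {f k : ℝ × ℝ → ℝ} {ξ : ℝ → ℝ} {σ x : ℝ}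
    (hf : DifferentiableAt ℝ f (σ, x)) (hk : DifferentiableAt ℝ k (σ, x)) (hξ : AnalyticAt ℝ ξ σ) :
    Ds (fun z : ℝ × ℝ => k (z.1, ξ z.1 + z.2) - deriv ξ z.1 * f (z.1, ξ z.1 + z.2)) (σ, x - ξ σ) =
      Ds k (σ, x) + deriv ξ σ * Dn k (σ, x) - (deriv (deriv ξ) σ * f (σ, x) +
        deriv ξ σ * (Ds f (σ, x) + deriv ξ σ * Dn f (σ, x))) ∧
    Dn (fun z : ℝ × ℝ => k (z.1, ξ z.1 + z.2) - deriv ξ z.1 * f (z.1, ξ z.1 + z.2)) (σ, x - ξ σ) =
      Dn k (σ, x) - deriv ξ σ * Dn f (σ, x) := by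
  have h1 : HasFDerivAt (fun z : ℝ × ℝ => deriv ξ z.1)
      (deriv (deriv ξ) σ • ContinuousLinearMap.fst ℝ ℝ ℝ) (σ, x - ξ σ) := by
    have h0 : HasDerivAt (deriv ξ) (deriv (deriv ξ) σ) σ := hξ.deriv.differentiableAt.hasDerivAt
    exact HasDerivAt.comp_hasFDerivAt (h₂ := deriv ξ) (f := Prod.fst) (σ, x - ξ σ) h0
      hasFDerivAt_fst
  have h2 := (KBMono_chain hk hξ.differentiableAt).sub
    (h1.mul (KBMono_chain hf hξ.differentiableAt))
  have hx : ξ σ + (x - ξ σ) = x := by ring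
  have h3 := KBMono_apply (fderiv ℝ k (σ, x)) (deriv ξ σ)
  have h4 := KBMono_apply (fderiv ℝ f (σ, x)) (deriv ξ σ)
  have h5 : HasFDerivAt (fun z : ℝ × ℝ => k (z.1, ξ z.1 + z.2) -
      deriv ξ z.1 * f (z.1, ξ z.1 + z.2)) _ (σ, x - ξ σ) := h2
  unfold Ds Dn
  rw [h5.fderiv]
  simp only [sub_apply, add_apply,
    smul_apply, smul_eq_mul, h3.1, h3.2, h4.1, h4.2, hx,
    ContinuousLinearMap.coe_fst']
  constructor <;> ring

theorem bd_shift {f k η : ℝ × ℝ → ℝ} {u : ℝ → ℝ} {a b : ℝ} {s x lam ϕ : ℝ → ℝ}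
    (h : BD f k η u a b s x lam ϕ) {ξ : ℝ → ℝ} (hξ : ∀ t ∈ Ioo a b, AnalyticAt ℝ ξ (s t)) :
    BD (fun z => f (z.1, ξ z.1 + z.2))
      (fun z => k (z.1, ξ z.1 + z.2) - deriv ξ z.1 * f (z.1, ξ z.1 + z.2))
      (fun z => η (z.1, ξ z.1 + z.2)) u a b s (fun t => x t - ξ (s t))
      (fun t => lam t + deriv ξ (s t) * ϕ t) ϕ := by
  have hx : ∀ t, ξ (s t) + (x t - ξ (s t)) = x t := fun t => by ring
  have hΦ : ∀ t ∈ Ioo a b, ∀ g : ℝ × ℝ → ℝ, AnalyticAt ℝ g (s t, x t) →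
      AnalyticAt ℝ (fun z : ℝ × ℝ => g (z.1, ξ z.1 + z.2)) (s t, x t - ξ (s t)) := by
    intro t ht g hg
    have h1 : AnalyticAt ℝ (fun z : ℝ × ℝ => (z.1, ξ z.1 + z.2)) (s t, x t - ξ (s t)) := by
      refine analyticAt_fst.prod (AnalyticAt.add ?_ analyticAt_snd)
      exact AnalyticAt.fun_comp (hξ t ht) analyticAt_fst
    refine AnalyticAt.fun_comp (g := g) ?_ h1
    simp only [hx]
    exact hg
  refine ⟨h.adm, fun t ht => hΦ t ht f (h.fa t ht), fun t ht => ?_,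
    fun t ht => hΦ t ht η (h.ηa t ht), fun t ht => ?_, ?_, ?_, fun t ht => ?_, fun t ht => ?_, h.us⟩
  · refine (hΦ t ht k (h.ka t ht)).sub (AnalyticAt.mul ?_ (hΦ t ht f (h.fa t ht)))
    exact AnalyticAt.fun_comp (hξ t ht).deriv analyticAt_fst
  · simp only [hx]
    exact h.sd t ht
  · intro t ht
    exact (((bd_cont h ht).2.1).sub
      (ContinuousAt.comp (f := s) (hξ t ht).continuousAt (bd_cont h ht).1)).continuousWithinAt
  · intro r hr t ht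
    have hsub : uIcc r t ⊆ Ioo a b := fun τ hτ => by
      rcases le_total r t with h1 | h1
      · rw [uIcc_of_le h1] at hτ
        exact ⟨hr.1.trans_le hτ.1, hτ.2.trans_lt ht.2⟩
      · rw [uIcc_of_ge h1] at hτ
        exact ⟨ht.1.trans_le hτ.1, hτ.2.trans_lt hr.2⟩
    have hsx : ∀ τ ∈ uIcc r t, ContinuousAt (fun τ => (s τ, x τ)) τ := fun τ hτ =>
      (bd_cont h (hsub hτ)).1.prodMk (bd_cont h (hsub hτ)).2.1
    have hk1 : IntervalIntegrable (fun τ => k (s τ, x τ)) volume r t := by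
      refine ContinuousOn.intervalIntegrable fun τ hτ => ContinuousAt.continuousWithinAt ?_
      exact ContinuousAt.comp (f := fun τ => (s τ, x τ)) (h.ka τ (hsub hτ)).continuousAt (hsx τ hτ)
    have hf1 : IntervalIntegrable (fun τ => deriv ξ (s τ) * f (s τ, x τ)) volume r t := by
      refine ContinuousOn.intervalIntegrable fun τ hτ => ContinuousAt.continuousWithinAt ?_
      refine ContinuousAt.mul ?_ ?_
      · exact ContinuousAt.comp (f := s) (hξ τ (hsub hτ)).deriv.continuousAt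
          (bd_cont h (hsub hτ)).1
      · exact ContinuousAt.comp (f := fun τ => (s τ, x τ)) (h.fa τ (hsub hτ)).continuousAt
          (hsx τ hτ)
    have hu1 : IntervalIntegrable u volume r t := by
      have hc : IntervalIntegrable (fun _ : ℝ => (1 : ℝ)) volume r t := intervalIntegrable_const
      refine hc.mono_fun h.adm.1.aestronglyMeasurable.restrict ?_
      refine Filter.Eventually.of_forall fun τ => ?_
      simpa using h.adm.2 τ
    have e1 : ∫ τ in r..t, deriv ξ (s τ) * f (s τ, x τ) = ξ (s t) - ξ (s r) := by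
      refine intervalIntegral.integral_eq_sub_of_hasDerivAt (f := fun τ => ξ (s τ))
        (fun τ hτ => ?_) hf1
      exact HasDerivAt.comp τ (hξ τ (hsub hτ)).differentiableAt.hasDerivAt (h.sd τ (hsub hτ))
    have e2 := h.Xeq r hr t ht
    have e3 : ∫ τ in r..t, (k (s τ, x τ) - deriv ξ (s τ) * f (s τ, x τ) + u τ) =
        (∫ τ in r..t, (k (s τ, x τ) + u τ)) - ∫ τ in r..t, deriv ξ (s τ) * f (s τ, x τ) := by
      rw [← intervalIntegral.integral_sub (hk1.add hu1) hf1]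
      refine intervalIntegral.integral_congr fun τ _ => ?_
      ring
    simp only [hx]
    rw [e3, e1, ← e2]
    ring
  · have hf0 := (h.fa t ht).differentiableAt
    have hk0 := (h.ka t ht).differentiableAt
    have hη0 := (h.ηa t ht).differentiableAt
    have hξ0 := hξ t ht
    have d1 : HasDerivAt (fun t => deriv ξ (s t)) (deriv (deriv ξ) (s t) * f (s t, x t)) t :=
      HasDerivAt.comp t hξ0.deriv.differentiableAt.hasDerivAt (h.sd t ht)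
    have d2 := (h.ld t ht).add (d1.mul (h.ϕd t ht))
    refine d2.congr_deriv ?_
    rw [(KBMono_g hf0 hξ0.differentiableAt).1, (KBMono_k hf0 hk0 hξ0).1,
      (KBMono_g hη0 hξ0.differentiableAt).1]
    ring
  · have hf0 := (h.fa t ht).differentiableAt
    have hk0 := (h.ka t ht).differentiableAt
    have hη0 := (h.ηa t ht).differentiableAt
    have hξ0 := hξ t ht
    refine (h.ϕd t ht).congr_deriv ?_
    rw [(KBMono_g hf0 hξ0.differentiableAt).2, (KBMono_k hf0 hk0 hξ0).2,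
      (KBMono_g hη0 hξ0.differentiableAt).2]
    ring

end Pool.Agent.Lib.MP_28b8de_an.KK
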