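import Pool.Agent.Lib.MP_28b8de_an.K.KBLc
import Pool.Agent.Lib.MP_28b8de_an.K.KBFacts

/-!
MP_28b8de_an, module KBUnsat.

Saturated singular controls are impossible.
PROOF.  Suppose |k (s t,0)| = 1 for all t ∈ C near t₁ (otherwise, with hk, there is t₂).  Gen C s t₁ with a v := k (v,0)² - 1: k (v,0)² = 1 near s t₁, so by continuity k (v,0) = -ν near s t₁, ν = ±1.
`TT.lc_sat` for the first Lc of bd_lc with Y = 0, y' = 0 (α (v,Y,X) = k (v,X), g = 1): δ with X = 0 on [r,r'] for r < r' in C, |r - t₁|, |r' - t₁| < δ (X = 0 on C near t₁: shrink δ).  bd_rest: False.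
-/

set_option linter.unusedSectionVars false

namespace Pool.Agent.Lib.MP_28b8de_an.KK

open Filter Topology Set MeasureTheory
open Pool.Agent.Lib.MP_28b8de_an.PT (Adm Perf)
open Pool.Agent.Lib.MP_28b8de_an.TT (Env Sol Jn Tr SmAt Goal dx Dn Gen Lc Lp Lq fX cf)
open Pool.Agent.Lib.MP_28b8de_an.DD (LTraj LRep Ch)

private theorem KBUnsat_sq {x : ℝ} (h : x ^ 2 - 1 = 0) : x = 1 ∨ x = -1 := by
  have h1 : (x - 1) * (x + 1) = 0 := by linear_combination h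
  rcases mul_eq_zero.1 h1 with e | e
  · left; linarith
  · right; linarith

theorem bd_unsat {f k η : ℝ × ℝ → ℝ} {u : ℝ → ℝ} {a b : ℝ} {s X lam ϕ : ℝ → ℝ}
    (h : BD f k η u a b s X lam ϕ) {T : ℝ} {C : Set ℝ} (hC : Perf T C) {t₁ : ℝ} (ht₁ : t₁ ∈ C)
    (hab : t₁ ∈ Ioo a b) (h0 : ∀ᶠ t in 𝓝 t₁, t ∈ C → X t = 0)
    (hf : ∀ᶠ v in 𝓝 (s t₁), f (v, 0) = 0) (hk : ∀ᶠ t in 𝓝 t₁, t ∈ C → |k (s t, 0)| ≤ 1)
    (hg : ∀ᶠ t in 𝓝 t₁, t ∈ C → Gen C s t) {ε : ℝ} (hε : 0 < ε) :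
    ∃ t₂ ∈ C, |t₂ - t₁| < ε ∧ |k (s t₂, 0)| < 1 := by
  by_contra hcon
  push Not at hcon
  have hX0 : X t₁ = 0 := h0.self_of_nhds ht₁
  have hka : AnalyticAt ℝ k (s t₁, 0) := by
    have := h.ka t₁ hab
    rwa [hX0] at this
  have hmap : AnalyticAt ℝ (fun v : ℝ => ((v, 0) : ℝ × ℝ)) (s t₁) :=
    analyticAt_id.prod analyticAt_const
  have hk0 : AnalyticAt ℝ (fun v : ℝ => k (v, 0)) (s t₁) :=
    AnalyticAt.fun_comp (f := fun v : ℝ => ((v, 0) : ℝ × ℝ)) (g := k) hka hmap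
  have hsq : ∀ᶠ v in 𝓝 (s t₁), (k (v, 0)) ^ 2 - 1 = 0 := by
    refine hg.self_of_nhds ht₁ (fun v => (k (v, 0)) ^ 2 - 1) ((hk0.pow 2).sub analyticAt_const) ?_
    have hball : ∀ᶠ t in 𝓝 t₁, |t - t₁| < ε := by
      filter_upwards [Metric.ball_mem_nhds t₁ hε] with t ht
      rwa [Metric.mem_ball, Real.dist_eq] at ht
    filter_upwards [hk, hball] with t h1 h2 htC
    have h3 : |k (s t, 0)| = 1 := le_antisymm (h1 htC) (hcon t htC h2)
    have h4 : (k (s t, 0)) ^ 2 = 1 := by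
      rw [← sq_abs, h3]
      norm_num
    show (k (s t, 0)) ^ 2 - 1 = 0
    rw [h4]
    ring
  have hs1 : k (s t₁, 0) = 1 ∨ k (s t₁, 0) = -1 := by
    have := hsq.self_of_nhds
    exact KBUnsat_sq this
  obtain ⟨ν, hν, hkν⟩ : ∃ ν : ℝ, (ν = 1 ∨ ν = -1) ∧ ∀ᶠ v in 𝓝 (s t₁), k (v, 0) = -ν := by
    refine ⟨-k (s t₁, 0), ?_, ?_⟩
    · rcases hs1 with e | e
      · right; rw [e]
      · left; rw [e]; ring
    · have hc : ∀ᶠ v in 𝓝 (s t₁), |k (v, 0) - k (s t₁, 0)| < 1 := by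
        have := hk0.continuousAt.eventually (Metric.ball_mem_nhds (k (s t₁, 0)) one_pos)
        filter_upwards [this] with v hv
        rw [← Real.dist_eq]
        exact hv
      filter_upwards [hsq, hc] with v h1 h2
      have h3 : k (v, 0) = 1 ∨ k (v, 0) = -1 := KBUnsat_sq h1
      rw [neg_neg]
      rw [abs_lt] at h2
      rcases h3 with e | e <;> rcases hs1 with e' | e' <;> rw [e, e'] at h2 <;> first
        | (exfalso; linarith [h2.1, h2.2])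
        | (rw [e, e'])
  obtain ⟨K, a', b', hm, hsub, hLc, -, -, -, -⟩ := bd_lc h hab
  have hL := hLc (fun _ => 0) (fun _ => 0) (fun t _ => hasDerivAt_const t 0) continuousOn_const
  have hαa : AnalyticAt ℝ (fun z : ℝ × ℝ × ℝ => k (z.1, z.2.2)) (s t₁, 0, 0) := by
    have hm2 : AnalyticAt ℝ (fun z : ℝ × ℝ × ℝ => ((z.1, z.2.2) : ℝ × ℝ)) (s t₁, 0, 0) :=
      analyticAt_fst.prod (analyticAt_snd.fun_comp analyticAt_snd)
    exact AnalyticAt.fun_comp (f := fun z : ℝ × ℝ × ℝ => ((z.1, z.2.2) : ℝ × ℝ)) (g := k) hka hm2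
  have hP : Lp a' b' s (fun _ => 0) X (fun z : ℝ × ℝ × ℝ => k (z.1, z.2.2)) (fun _ => 1) t₁ :=
    ⟨hm, hX0, rfl, hαa, analyticAt_const⟩
  obtain ⟨δ, hδ, hgap⟩ := TT.lc_sat hL hP one_ne_zero hν (by
      filter_upwards [hkν] with v hv
      show k (v, 0) = -(ν * 1)
      rw [hv]
      ring) (K' := 0) (Eventually.of_forall fun t => by simp)
  obtain ⟨δ₁, hδ₁, hC0⟩ := Metric.eventually_nhds_iff.1 h0
  refine bd_rest h hC ht₁ hab hf hg (lt_min hδ hδ₁) ?_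
  intro r hr r' hr' hrr h1 h2 t ht
  have h1a := lt_of_lt_of_le h1 (min_le_left δ δ₁)
  have h1b := lt_of_lt_of_le h1 (min_le_right δ δ₁)
  have h2a := lt_of_lt_of_le h2 (min_le_left δ δ₁)
  have h2b := lt_of_lt_of_le h2 (min_le_right δ δ₁)
  have x1 : X r = 0 := hC0 (by rwa [Real.dist_eq]) hr
  have x2 : X r' = 0 := hC0 (by rwa [Real.dist_eq]) hr'
  exact (hgap r r' hrr h1a h2a x1 rfl x2 t ht).1

end Pool.Agent.Lib.MP_28b8de_an.KK
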