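import Pool.Agent.Lib.MP_28b8de_an.K.KDefs
import Pool.Agent.Lib.MP_28b8de_an.T.TGlue

/-!
MP_28b8de_an, module KConcat.

Concatenation of a sequence of trajectories.
PROOF.  c i := s + ∑ j < i, ℓ j: c 0 = s, c monotone, c i → s + L (`HasSum.tendsto_sum_nat`), c i ≤ s + L.  For t ∈ [s,s+L) with c 0 ≤ t there is a unique i with c i ≤ t < c (i+1) (the least i with t < c (i+1)) (if t < s + L; such i exists by convergence).
Define v t := w i (t - c i), y t := r i (t - c i) for this i, and v t := 0, y t := z' for all other t.  v is measurable (countable partition into half open intervals; e.g. v = ∑' or `Measurable` by cases on a countable family: `measurable_of_restrict_..`, or via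
`Measurable.find`), |v| ≤ 1.  y = r i (· - c i) on the closed interval [c i, c (i+1)] too, if ℓ i > 0 or not: by induction y (c i) = z i if c i < s + L (skip the indices with ℓ = 0: z (i+1) = r i (ℓ i) = r i 0 = z i when ℓ i = 0), and if c i = s + L then ℓ j = 0 for all j ≥ i, so z j = z i for j ≥ i and z' = z i.
By induction on i: y is continuous on [s, c i] and satisfies the integral equation there (gluing at c i: continuity on a union of two closed intervals, `intervalIntegral.integral_add_adjacent_intervals`, the integrand is bounded by 2M and measurable: P ∘ y, R ∘ y are continuous on the pieces).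
At s + L: ‖y t - z i‖ ≤ K ℓ i on [c i, c (i+1)], ℓ i → 0, z i → z': y t → z' for t → s + L.  The integral equation at s + L: let t → s + L (both sides are continuous: the integrand is bounded, hence integrable on [s,s+L]).
Bad set: contained in {c i} ∪ ⋃ (c i + bad set of r i).  If L = 0 everything is trivial (all ℓ i = 0).  See also T/TGlue.lean (jn_seq_up: the same construction for strictly increasing times).
-/

set_option linter.unusedSectionVars false

namespace Pool.Agent.Lib.MP_28b8de_an.KK

open Filter Topology Set MeasureTheory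
open Pool.Agent.Lib.MP_28b8de_an.PT (Adm Perf)
open Pool.Agent.Lib.MP_28b8de_an.TT (Env Sol Jn Tr SmAt Goal dx Dn Gen Lc Lp Lq fX cf)
open Pool.Agent.Lib.MP_28b8de_an.DD (LTraj LRep Ch)

private theorem KConcat_smAt {V : Type*} [NormedAddCommGroup V] [NormedSpace ℝ V] {y r : ℝ → V}
    {c t a b : ℝ} (hat : a < t) (htb : t < b) (h : ∀ τ ∈ Ioo a b, y τ = r (τ - c))
    (hr : SmAt r (t - c)) : SmAt y t := by
  obtain ⟨ε, hε, hcd⟩ := hr
  refine ⟨min ε (min (t - a) (b - t)), lt_min hε (lt_min (by linarith) (by linarith)), ?_⟩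
  have hm1 := min_le_left ε (min (t - a) (b - t))
  have hm2 := (min_le_right ε (min (t - a) (b - t))).trans (min_le_left _ _)
  have hm3 := (min_le_right ε (min (t - a) (b - t))).trans (min_le_right _ _)
  have h1 : ContDiffOn ℝ (⊤ : ℕ∞) (fun τ => r (τ - c)) (Ioo (t - min ε (min (t - a) (b - t)))
      (t + min ε (min (t - a) (b - t)))) := by
    refine hcd.comp (by fun_prop) fun τ hτ => ?_
    constructor <;> linarith [hτ.1, hτ.2]
  refine h1.congr fun τ hτ => h τ ?_
  constructor <;> linarith [hτ.1, hτ.2]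

theorem concat {V : Type*} [NormedAddCommGroup V] [NormedSpace ℝ V] [CompleteSpace V] {P R : V → V}
    {S : Set V} (hP : ContinuousOn P S) (hR : ContinuousOn R S) {M : ℝ}
    (hM : ∀ x ∈ S, ‖P x‖ ≤ M ∧ ‖R x‖ ≤ M) {ℓ : ℕ → ℝ} (hℓ : ∀ i, 0 ≤ ℓ i) {L : ℝ}
    (hL : HasSum ℓ L) {z : ℕ → V} {z' : V} {w : ℕ → ℝ → ℝ} {r : ℕ → ℝ → V} (hw : ∀ i, Adm (w i))
    (hr : ∀ i, ContinuousOn (r i) (Icc 0 (ℓ i))) (hrS : ∀ i, ∀ t ∈ Icc 0 (ℓ i), r i t ∈ S)
    (h0 : ∀ i, r i 0 = z i) (h1 : ∀ i, r i (ℓ i) = z (i + 1))
    (heq : ∀ i, ∀ t ∈ Icc 0 (ℓ i), r i t = z i + ∫ τ in (0 : ℝ)..t, (P (r i τ) + w i τ • R (r i τ)))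
    (hlim : Tendsto z atTop (𝓝 z')) {K : ℝ}
    (hK : ∀ i, ∀ t ∈ Icc 0 (ℓ i), ‖r i t - z i‖ ≤ K * ℓ i)
    (hbad : ∀ i, {t ∈ Ioo 0 (ℓ i) | ¬ SmAt (r i) t}.Countable) (s : ℝ) :
    ∃ (v : ℝ → ℝ) (y : ℝ → V), Adm v ∧ ContinuousOn y (Icc s (s + L)) ∧ y s = z 0 ∧
      y (s + L) = z' ∧
      (∀ t ∈ Icc s (s + L), y t = y s + ∫ τ in s..t, (P (y τ) + v τ • R (y τ))) ∧
      (∀ t ∈ Icc s (s + L), y t = z' ∨ ∃ i, ∃ τ ∈ Icc 0 (ℓ i), y t = r i τ) ∧
      {t ∈ Ioo s (s + L) | ¬ SmAt y t}.Countable := by
  classical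
  set c : ℕ → ℝ := fun i => s + ∑ j ∈ Finset.range i, ℓ j with hc
  have c0 : c 0 = s := by simp [hc]
  have cs : ∀ i, c (i + 1) = c i + ℓ i := fun i => by
    simp only [hc, Finset.sum_range_succ]
    ring
  have cmono : Monotone c := monotone_nat_of_le_succ fun i => by
    rw [cs]
    linarith [hℓ i]
  have ctend : Tendsto c atTop (𝓝 (s + L)) := tendsto_const_nhds.add hL.tendsto_sum_nat
  have cle : ∀ i, c i ≤ s + L := fun i => cmono.ge_of_tendsto ctend i
  have sle : ∀ i, s ≤ c i := fun i => by
    rw [← c0]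
    exact cmono (Nat.zero_le i)
  have zc : ∀ i j, i ≤ j → c i = c j → z i = z j := by
    intro i j hij
    induction j, hij using Nat.le_induction with
    | base => intro _; rfl
    | succ j hij ih =>
      intro hcc
      have h2 : c i ≤ c j := cmono hij
      have h3 : c j ≤ c (j + 1) := cmono (Nat.le_succ j)
      have h4 : ℓ j = 0 := by linarith [cs j]
      rw [ih (by linarith), ← h1 j, h4, h0]
  have zl : ∀ i, c i = s + L → z i = z' := by
    intro i hi
    refine tendsto_nhds_unique (tendsto_const_nhds.congr' ?_) hlim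
    filter_upwards [eventually_ge_atTop i] with j hj
    have h2 : c i ≤ c j := cmono hj
    exact zc i j hj (by linarith [cle j])
  have hex : ∀ x : ℝ, ∃ n, (x < c (n + 1) ∨ s + L ≤ x) := by
    intro x
    rcases lt_or_ge x (s + L) with hx | hx
    · obtain ⟨i, hi⟩ := (ctend.eventually (lt_mem_nhds hx)).exists
      exact ⟨i, Or.inl (hi.trans_le (cmono (Nat.le_succ i)))⟩
    · exact ⟨0, Or.inr hx⟩
  set N : ℝ → ℕ := fun x => Nat.find (hex x) with hN
  have hN1 : ∀ x, x < s + L → x < c (N x + 1) := by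
    intro x hx
    rcases Nat.find_spec (hex x) with h | h
    · exact h
    · linarith
  have hN2 : ∀ x, s ≤ x → c (N x) ≤ x := by
    intro x hx
    rcases Nat.eq_zero_or_pos (N x) with h | h
    · rw [h, c0]
      exact hx
    · have h2 := Nat.find_min (hex x) (m := N x - 1) (by
        show N x - 1 < N x
        omega)
      rw [not_or, not_lt] at h2
      have h3 : N x - 1 + 1 = N x := by omega
      rw [h3] at h2
      exact h2.1
  have hN3 : ∀ i t, c i ≤ t → t < c (i + 1) → N t = i := by
    intro i t h2 h3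
    have h4 : N t ≤ i := Nat.find_min' (hex t) (Or.inl h3)
    by_contra h5
    have h6 : N t + 1 ≤ i := by omega
    have h7 := hN1 t (by linarith [cle (i + 1)])
    have h8 := cmono h6
    linarith
  set v : ℝ → ℝ := fun x => if x < s + L then w (N x) (x - c (N x)) else 0 with hv
  set y : ℝ → V := fun x => if x < s + L then r (N x) (x - c (N x)) else z' with hy
  have hvm : Adm v := by
    constructor
    · exact Measurable.find (f := fun n x => if x < s + L then w n (x - c n) else 0)
        (p := fun n x => x < c (n + 1) ∨ s + L ≤ x)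
        (fun n => Measurable.ite measurableSet_Iio ((hw n).1.comp (measurable_id.sub_const _))
          measurable_const) (fun n => measurableSet_Iio.union measurableSet_Ici) hex
    · intro t
      simp only [hv]
      split_ifs
      · exact (hw _).2 _
      · simp
  have yv : ∀ i t, c i ≤ t → t < c (i + 1) → y t = r i (t - c i) ∧ v t = w i (t - c i) := by
    intro i t h2 h3
    have h4 := hN3 i t h2 h3
    have h5 : t < s + L := h3.trans_le (cle _)
    simp only [hv, hy, if_pos h5, h4, and_self]
  have yc : ∀ i, y (c i) = z i := by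
    intro i
    rcases lt_or_eq_of_le (cle i) with h2 | h2
    · have h3 := hN2 (c i) (sle i)
      have h4 := hN1 (c i) h2
      have h5 : i ≤ N (c i) := by
        by_contra h6
        have := cmono (show N (c i) + 1 ≤ i by omega)
        linarith
      have h6 : c i = c (N (c i)) := le_antisymm (cmono h5) h3
      rw [zc i (N (c i)) h5 h6, ← h0]
      simp only [hy, if_pos h2]
      congr 1
      linarith
    · simp only [hy]
      rw [if_neg (by linarith), zl i h2]
  have yD : ∀ i, ∀ t ∈ Icc (c i) (c (i + 1)), y t = r i (t - c i) := by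
    intro i t ht
    rcases lt_or_eq_of_le ht.2 with h2 | h2
    · exact (yv i t ht.1 h2).1
    · rw [h2, yc, ← h1 i, cs]
      congr 1
      ring
  have hmem : ∀ i, ∀ t ∈ Icc (c i) (c (i + 1)), t - c i ∈ Icc 0 (ℓ i) := by
    intro i t ht
    have := cs i
    constructor <;> linarith [ht.1, ht.2]
  set g : ℝ → V := fun τ => P (y τ) + v τ • R (y τ) with hg
  have hSy : ∀ t ∈ Ico s (s + L), y t ∈ S := by
    intro t ht
    have h2 := hN2 t ht.1
    have h3 := hN1 t ht.2
    rw [(yv (N t) t h2 h3).1]
    exact hrS _ _ (hmem (N t) t ⟨h2, h3.le⟩)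
  have hgb : ∀ t ∈ Ico s (s + L), ‖g t‖ ≤ M + M := by
    intro t ht
    obtain ⟨h2, h3⟩ := hM _ (hSy t ht)
    refine (norm_add_le _ _).trans (add_le_add h2 ?_)
    rw [norm_smul, Real.norm_eq_abs]
    calc |v t| * ‖R (y t)‖ ≤ 1 * M := by
          gcongr
          exact hvm.2 t
      _ = M := one_mul M
  have hgm : AEStronglyMeasurable g (volume.restrict (Ico s (s + L))) := by
    have h2 : Ico s (s + L) ⊆ ⋃ i, Ico (c i) (c (i + 1)) := by
      intro t ht
      exact mem_iUnion.mpr ⟨N t, hN2 t ht.1, hN1 t ht.2⟩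
    refine AEStronglyMeasurable.mono_set h2 ?_
    rw [aestronglyMeasurable_iUnion_iff]
    intro i
    have hcomp : ContinuousOn (fun τ => r i (τ - c i)) (Icc (c i) (c (i + 1))) :=
      (hr i).comp (by fun_prop) (hmem i)
    have hmaps : MapsTo (fun τ => r i (τ - c i)) (Icc (c i) (c (i + 1))) S :=
      fun τ hτ => hrS i _ (hmem i τ hτ)
    have h3 : AEStronglyMeasurable (fun τ => P (r i (τ - c i)) + w i (τ - c i) • R (r i (τ - c i)))
        (volume.restrict (Icc (c i) (c (i + 1)))) := by
      refine ((hP.comp hcomp hmaps).aestronglyMeasurable measurableSet_Icc).add ?_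
      refine AEStronglyMeasurable.smul ?_
        ((hR.comp hcomp hmaps).aestronglyMeasurable measurableSet_Icc)
      exact ((hw i).1.comp (measurable_id.sub_const _)).aestronglyMeasurable
    refine (h3.mono_set Ico_subset_Icc_self).congr ?_
    filter_upwards [ae_restrict_mem measurableSet_Ico] with τ hτ
    obtain ⟨h4, h5⟩ := yv i τ hτ.1 hτ.2
    simp only [hg, h4, h5]
  have hgi : IntegrableOn g (Ico s (s + L)) := by
    have : IsFiniteMeasure (volume.restrict (Ico s (s + L))) := ⟨by
      rw [Measure.restrict_apply_univ, Real.volume_Ico]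
      exact ENNReal.ofReal_lt_top⟩
    refine Integrable.of_bound hgm (M + M) ?_
    filter_upwards [ae_restrict_mem measurableSet_Ico] with τ hτ
    exact hgb τ hτ
  have hLs : s ≤ s + L := (sle 0).trans (cle 0)
  have hgI : IntervalIntegrable g volume s (s + L) :=
    (intervalIntegrable_iff_integrableOn_Ico_of_le hLs).mpr hgi
  have hsub : ∀ a b, a ∈ Icc s (s + L) → b ∈ Icc s (s + L) → IntervalIntegrable g volume a b := by
    intro a b ha hb
    refine hgI.mono_set ?_
    rw [uIcc_of_le hLs]
    exact uIcc_subset_Icc ha hb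
  have hcm : ∀ i, c i ∈ Icc s (s + L) := fun i => ⟨sle i, cle i⟩
  have step : ∀ i, ∀ t ∈ Icc (c i) (c (i + 1)), y t = z i + ∫ τ in (c i)..t, g τ := by
    intro i t ht
    rw [yD i t ht, heq i _ (hmem i t ht)]
    congr 1
    have h2 := intervalIntegral.integral_comp_sub_right (a := c i) (b := t)
      (fun τ => P (r i τ) + w i τ • R (r i τ)) (c i)
    rw [sub_self] at h2
    rw [← h2]
    have hae : ∀ᵐ x : ℝ, x ≠ c (i + 1) := by simp [ae_iff, measure_singleton]
    refine intervalIntegral.integral_congr_ae ?_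
    filter_upwards [hae] with x hx hxm
    rw [uIoc_of_le ht.1] at hxm
    obtain ⟨h4, h5⟩ := yv i x hxm.1.le (lt_of_le_of_ne (hxm.2.trans ht.2) hx)
    simp only [hg, h4, h5]
  have hmain : ∀ i, z i = z 0 + ∫ τ in s..(c i), g τ := by
    intro i
    induction i with
    | zero => rw [c0]; simp
    | succ i ih =>
      have h2 := step i (c (i + 1)) ⟨cmono (Nat.le_succ i), le_rfl⟩
      rw [yc] at h2
      rw [h2]
      conv_lhs => rw [ih]
      rw [add_assoc, intervalIntegral.integral_add_adjacent_intervals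
        (hsub _ _ ⟨le_rfl, hLs⟩ (hcm i)) (hsub _ _ (hcm i) (hcm (i + 1)))]
  have ys : y s = z 0 := by
    have := yc 0
    rwa [c0] at this
  have yL : y (s + L) = z' := by simp only [hy, if_neg (lt_irrefl _)]
  have hprim : ContinuousOn (fun t => ∫ τ in s..t, g τ) (Icc s (s + L)) := by
    have h2 := intervalIntegral.continuousOn_primitive_interval (μ := volume) (f := g) (a := s)
      (b := s + L) (by
        rw [uIcc_of_le hLs]
        exact (integrableOn_Icc_iff_integrableOn_Ico).mpr hgi)
    rwa [uIcc_of_le hLs] at h2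
  have hall : ∀ t ∈ Icc s (s + L), y t = y s + ∫ τ in s..t, g τ := by
    intro t ht
    rw [ys]
    rcases lt_or_eq_of_le ht.2 with h2 | h2
    · have h3 := hN2 t ht.1
      have h4 := hN1 t h2
      rw [step (N t) t ⟨h3, h4.le⟩, hmain (N t), add_assoc,
        intervalIntegral.integral_add_adjacent_intervals
        (hsub _ _ ⟨le_rfl, hLs⟩ (hcm _)) (hsub _ _ (hcm _) ht)]
    · rw [h2, yL]
      refine tendsto_nhds_unique hlim ?_
      have h3 : Tendsto (fun i => z 0 + ∫ τ in s..(c i), g τ) atTop
          (𝓝 (z 0 + ∫ τ in s..(s + L), g τ)) := by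
        refine tendsto_const_nhds.add ?_
        have h4 : Tendsto c atTop (𝓝[Icc s (s + L)] (s + L)) :=
          tendsto_nhdsWithin_of_tendsto_nhds_of_eventually_within _ ctend
            (Eventually.of_forall hcm)
        exact (hprim (s + L) ⟨hLs, le_rfl⟩).tendsto.comp h4
      exact h3.congr fun i => (hmain i).symm
  refine ⟨v, y, hvm, ?_, ys, yL, hall, ?_, ?_⟩
  · exact (continuousOn_const.add hprim).congr hall
  · intro t ht
    rcases lt_or_eq_of_le ht.2 with h2 | h2
    · right
      have h3 := hN2 t ht.1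
      have h4 := hN1 t h2
      exact ⟨N t, t - c (N t), hmem _ t ⟨h3, h4.le⟩, (yv _ t h3 h4).1⟩
    · left
      rw [h2, yL]
  · have hcount : (range c ∪ ⋃ i, (fun τ => τ + c i) '' {t ∈ Ioo 0 (ℓ i) | ¬ SmAt (r i) t}).Countable :=
      (countable_range c).union (countable_iUnion fun i => (hbad i).image _)
    refine hcount.mono ?_
    rintro t ⟨ht, hbadt⟩
    by_cases hrange : t ∈ range c
    · exact Or.inl hrange
    · right
      have h3 := hN2 t ht.1.le
      have h4 := hN1 t ht.2
      have h5 : c (N t) < t := lt_of_le_of_ne h3 fun h => hrange ⟨_, h⟩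
      refine mem_iUnion.mpr ⟨N t, t - c (N t), ⟨?_, fun hsm => hbadt ?_⟩, by simp⟩
      · have := cs (N t)
        constructor <;> linarith
      · exact KConcat_smAt h5 h4 (fun τ hτ => yD (N t) τ ⟨hτ.1.le, hτ.2.le⟩) hsm

end Pool.Agent.Lib.MP_28b8de_an.KK
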