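import Pool.Agent.Lib.MP_28b8de_an.T.TLc1
import Pool.Agent.Lib.MP_28b8de_an.T.TLcS
import Pool.Agent.Lib.MP_28b8de_an.T.TOrd
import Pool.Agent.Lib.MP_28b8de_an.T.TZw
import Pool.Agent.Lib.MP_28b8de_an.T.TAux
import Pool.Agent.Lib.MP_28b8de_an.T.TOdeAn
import Pool.Agent.Lib.MP_28b8de_an.D.DPush
import Pool.Agent.Lib.MP_28b8de_an.D.DPull
import Pool.Agent.Lib.MP_28b8de_an.D.DCh
import Pool.Agent.Lib.MP_28b8de_an.D.DLt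

/-!
MP_28b8de_an, module KDefs.

definitions for planar control systems with integral costs.
-/

set_option linter.unusedSectionVars false

namespace Pool.Agent.Lib.MP_28b8de_an.KK

open Filter Topology Set MeasureTheory
open Pool.Agent.Lib.MP_28b8de_an.PT (Adm Perf)
open Pool.Agent.Lib.MP_28b8de_an.TT (Env Sol Jn Tr SmAt Goal dx Dn Gen Lc Lp Lq fX cf)
open Pool.Agent.Lib.MP_28b8de_an.DD (LTraj LRep Ch)

section general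

variable {V : Type*} [NormedAddCommGroup V] [NormedSpace ℝ V]

/-- replacement on `[s,s']` by a trajectory close to the starting point, with a countable bad set -/
def Rep (F G : ℝ × V → V) (x : ℝ → V) (K s s' : ℝ) : Prop :=
  ∃ (v : ℝ → ℝ) (r : ℝ → V), Adm v ∧ ContinuousOn r (Icc s s') ∧ r s = x s ∧ r s' = x s' ∧
    (∀ t ∈ Icc s s', ‖r t - x s‖ ≤ K * (s' - s)) ∧
    (∀ t ∈ Icc s s', r t = r s + ∫ τ in s..t, (F (τ, r τ) + v τ • G (τ, r τ))) ∧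
    {t ∈ Ioo s s' | ¬ SmAt r t}.Countable

/-- the trajectory can be replaced between any two points of a portion of `C` -/
def LGoal (F G : ℝ × V → V) (x : ℝ → V) (C : Set ℝ) : Prop :=
  ∃ t ∈ C, ∃ K δ : ℝ, 0 < δ ∧ ∀ s ∈ C, ∀ s' ∈ C, |s - t| < δ → |s' - t| < δ → s < s' →
    Rep F G x K s s'

/-- the situation at a perfect set `C` of bad times: a multiplier `p` on `(a,b)` whose switching
function vanishes on `C`, and replacements on the gaps of `C` -/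
structure Cx (F G : ℝ × V → V) (u : ℝ → ℝ) (x : ℝ → V) (a b : ℝ) (p : ℝ → V →L[ℝ] ℝ)
    (C : Set ℝ) : Prop where
  a0 : 0 ≤ a
  adm : Adm u
  tr : ∀ t ∈ Ioo a b, LTraj F G u x t
  Fa : ∀ t ∈ Ioo a b, AnalyticAt ℝ F (t, x t)
  Ga : ∀ t ∈ Ioo a b, AnalyticAt ℝ G (t, x t)
  pc : ContinuousOn p (Ioo a b)
  pn : ∀ t ∈ Ioo a b, p t ≠ 0
  peq : ∀ v : V, ∀ s ∈ Ioo a b, ∀ t ∈ Ioo a b,
    p t v - p s v = -∫ τ in s..t, p τ ((dx F (τ, x τ) + u τ • dx G (τ, x τ)) v)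
  mx : ∀ᵐ τ : ℝ, τ ∈ Ioo a b → u τ * p τ (G (τ, x τ)) = |p τ (G (τ, x τ))|
  perf : Perf b C
  sub : C ⊆ Ioo a b
  sg : ∀ t ∈ C, p t (G (t, x t)) = 0
  gap : ∃ K : ℝ, ∀ α ∈ C, ∀ β ∈ C, α < β → (∀ τ ∈ Ioo α β, τ ∉ C) → Rep F G x K α β

end general

section fields

variable {Y : Type*} [NormedAddCommGroup Y] [NormedSpace ℝ Y]

/-- costs only: `y' = α(t)` -/
def FL (α : ℝ → Y) (z : ℝ × Y) : Y := α z.1

/-- one state `x` and costs `y`: the drift `(F(t,x), h(t,x))` -/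
def FS (F : ℝ × ℝ → ℝ) (h : ℝ × ℝ → Y) (z : ℝ × (ℝ × Y)) : ℝ × Y :=
  (F (z.1, z.2.1), h (z.1, z.2.1))

/-- the controlled field `(G(t,x), 0)` -/
def GS (G : ℝ × ℝ → ℝ) (z : ℝ × (ℝ × Y)) : ℝ × Y := (G (z.1, z.2.1), 0)

/-- planar states `q` and costs: autonomous fields `(f(q), h(q))` -/
def FP (f : ℝ × ℝ → ℝ × ℝ) (h : ℝ × ℝ → Y) (z : ℝ × ((ℝ × ℝ) × Y)) : (ℝ × ℝ) × Y :=
  (f z.2.1, h z.2.1)

/-- planar states `(s,x)` and costs `y`: the drift `(f(s,x), k(s,x), h(s,x))` -/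
def FB (f k : ℝ × ℝ → ℝ) (h : ℝ × ℝ → Y) (z : ℝ × ((ℝ × ℝ) × Y)) : (ℝ × ℝ) × Y :=
  ((f z.2.1, k z.2.1), h z.2.1)

/-- the controlled field `∂/∂x` -/
def GB (_ : ℝ × ((ℝ × ℝ) × Y)) : (ℝ × ℝ) × Y := ((0, 1), 0)

end fields

/-- derivative in the first variable -/
noncomputable def Ds (f : ℝ × ℝ → ℝ) (z : ℝ × ℝ) : ℝ := fderiv ℝ f z (1, 0)

/-- data of an extremal of the system `s' = f(s,X)`, `X' = k(s,X) + u` with the scalar cost `η` -/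
structure BD (f k η : ℝ × ℝ → ℝ) (u : ℝ → ℝ) (a b : ℝ) (s X lam ϕ : ℝ → ℝ) : Prop where
  adm : Adm u
  fa : ∀ t ∈ Ioo a b, AnalyticAt ℝ f (s t, X t)
  ka : ∀ t ∈ Ioo a b, AnalyticAt ℝ k (s t, X t)
  ηa : ∀ t ∈ Ioo a b, AnalyticAt ℝ η (s t, X t)
  sd : ∀ t ∈ Ioo a b, HasDerivAt s (f (s t, X t)) t
  Xc : ContinuousOn X (Ioo a b)
  Xeq : ∀ r ∈ Ioo a b, ∀ t ∈ Ioo a b, X t - X r = ∫ τ in r..t, (k (s τ, X τ) + u τ)
  ld : ∀ t ∈ Ioo a b, HasDerivAt lam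
    (-(lam t * Ds f (s t, X t) + ϕ t * Ds k (s t, X t) + Ds η (s t, X t))) t
  ϕd : ∀ t ∈ Ioo a b, HasDerivAt ϕ
    (-(lam t * Dn f (s t, X t) + ϕ t * Dn k (s t, X t) + Dn η (s t, X t))) t
  us : ∀ᵐ t : ℝ, t ∈ Ioo a b → u t * ϕ t = |ϕ t|

/-- data of an extremal of the system `x' = F(t,x) + u G(t,x)` with the scalar cost `η(t,x)` -/
structure SD (F G η : ℝ × ℝ → ℝ) (u : ℝ → ℝ) (a b : ℝ) (x ϕ : ℝ → ℝ) : Prop where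
  adm : Adm u
  Fa : ∀ t ∈ Ioo a b, AnalyticAt ℝ F (t, x t)
  Ga : ∀ t ∈ Ioo a b, AnalyticAt ℝ G (t, x t)
  ηa : ∀ t ∈ Ioo a b, AnalyticAt ℝ η (t, x t)
  G0 : ∀ t ∈ Ioo a b, G (t, x t) ≠ 0
  xc : ContinuousOn x (Ioo a b)
  xeq : ∀ r ∈ Ioo a b, ∀ t ∈ Ioo a b, x t - x r = ∫ τ in r..t, (F (τ, x τ) + u τ * G (τ, x τ))
  ϕc : ContinuousOn ϕ (Ioo a b)
  ϕeq : ∀ r ∈ Ioo a b, ∀ t ∈ Ioo a b,
    ϕ t - ϕ r = -∫ τ in r..t, (ϕ τ * (Dn F (τ, x τ) + u τ * Dn G (τ, x τ)) + Dn η (τ, x τ))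
  us : ∀ᵐ t : ℝ, t ∈ Ioo a b → u t * (G (t, x t) * ϕ t) = |G (t, x t) * ϕ t|

end Pool.Agent.Lib.MP_28b8de_an.KK
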