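import Pool.Agent.Lib.MP_28b8de_an.K.KDefs
import Pool.Agent.Lib.MP_28b8de_an.D.DFlow
import Pool.Agent.Lib.MP_28b8de_an.D.DLin

/-!
MP_28b8de_an, module KFlowP.

Flow boxes for planar systems with costs.
PROOF.  X := (ℝ × ℝ) × Y, v (q,y) := (g q, b q), analytic at (q₀,0); Φ from `DD.flow_an` at (q₀,0).  n : ℝ × ℝ with det (n, g q₀) ≠ 0 (`DD.lin2` in D/DLin.lean: A (0,1) = g q₀, n := A (1,0)).
θ (s,x) := (Φ (x, (q₀ + s • n, 0))).1, β (s,x) := (Φ (x, (q₀ + s • n, 0))).2: analytic at (0,0), θ 0 = q₀, β (s,0) = 0 near, fderiv θ w (0,1) = g (θ w), fderiv β w (0,1) = b (θ w) near 0 (chain rule, flow_an: v (Φ ..) = (g (θ w), b (θ w))),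
fderiv θ 0 = A (direction (1,0): θ (s,0) = q₀ + s n near; direction (0,1): g q₀).  Analytic inverse function theorem in the plane: ψ analytic at q₀, ψ q₀ = 0, θ (ψ q) = q near q₀, ψ (θ w) = w near 0
(or `DD.ch_of` with V = P = ℝ × ℝ, F z := f z.2, G z := g z.2, Θ z := θ z.2, Gp := (0,1) at (t₀, 0): it gives Ξ, Fp; then ψ q := Ξ (t₀,q), (f',k') w := Fp (t₀,w)).
(f',k') w := fderiv ψ (θ w) (f (θ w)): fderiv θ w (f' w, k' w) = f (θ w) near 0.  h' w := a (θ w) - fderiv β w (f' w, k' w).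
Θ (t,(w,y)) := (θ w, y + β w), Ξ (t,(q,y)) := (ψ q, y - β (ψ q)).  Ch: F1: fderiv Θ (1,((f',k'),h')) = (f (θ w), h' + fderiv β w (f',k')) = (f (θ w), a (θ w)); G1: fderiv Θ (0,((0,1),0)) = (g (θ w), b (θ w)).  Θ (t₀,(0,y₀)) = (q₀, y₀ + β 0) = (q₀,y₀).
-/

set_option linter.unusedSectionVars false

namespace Pool.Agent.Lib.MP_28b8de_an.KK

open Filter Topology Set MeasureTheory
open Pool.Agent.Lib.MP_28b8de_an.PT (Adm Perf)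
open Pool.Agent.Lib.MP_28b8de_an.TT (Env Sol Jn Tr SmAt Goal dx Dn Gen Lc Lp Lq fX cf)
open Pool.Agent.Lib.MP_28b8de_an.DD (LTraj LRep Ch)

variable {Y : Type*} [NormedAddCommGroup Y] [NormedSpace ℝ Y] [FiniteDimensional ℝ Y]

/-- the flow box map -/
private theorem KFlowP_map {g : ℝ × ℝ → ℝ × ℝ} {b : ℝ × ℝ → Y} {q₀ : ℝ × ℝ}
    (hg : AnalyticAt ℝ g q₀) (hb : AnalyticAt ℝ b q₀) (A : (ℝ × ℝ) ≃L[ℝ] (ℝ × ℝ))
    (hA : A (0, 1) = g q₀) :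
    ∃ (θ : ℝ × ℝ → ℝ × ℝ) (β : ℝ × ℝ → Y), AnalyticAt ℝ θ 0 ∧ AnalyticAt ℝ β 0 ∧ θ 0 = q₀ ∧
      β 0 = 0 ∧ fderiv ℝ θ 0 = (A : (ℝ × ℝ) →L[ℝ] (ℝ × ℝ)) ∧
      (∀ᶠ w in 𝓝 (0 : ℝ × ℝ), fderiv ℝ θ w (0, 1) = g (θ w)) ∧
      ∀ᶠ w in 𝓝 (0 : ℝ × ℝ), fderiv ℝ β w (0, 1) = b (θ w) := by
  have : CompleteSpace Y := FiniteDimensional.complete ℝ Y
  have hv : AnalyticAt ℝ (fun x : (ℝ × ℝ) × Y => (g x.1, b x.1)) (q₀, 0) := by
    have h1 : AnalyticAt ℝ (fun x : (ℝ × ℝ) × Y => g x.1) (q₀, 0) :=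
      AnalyticAt.comp_of_eq hg analyticAt_fst rfl
    have h2 : AnalyticAt ℝ (fun x : (ℝ × ℝ) × Y => b x.1) (q₀, 0) :=
      AnalyticAt.comp_of_eq hb analyticAt_fst rfl
    exact h1.prod h2
  obtain ⟨Φ, hΦ, hΦ0, hΦ1⟩ := DD.flow_an hv
  set n : ℝ × ℝ := A (1, 0) with hn
  set e : ℝ × ℝ → ℝ × ((ℝ × ℝ) × Y) := fun w => (w.2, (q₀ + w.1 • n, 0)) with he
  set L : (ℝ × ℝ) →L[ℝ] ℝ × ((ℝ × ℝ) × Y) := (ContinuousLinearMap.snd ℝ ℝ ℝ).prod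
    (((ContinuousLinearMap.fst ℝ ℝ ℝ).smulRight n).prod 0) with hL
  have hed : ∀ w, HasFDerivAt e L w := by
    intro w
    exact hasFDerivAt_snd.prodMk (((hasFDerivAt_fst.smul_const n).const_add q₀).prodMk
      (hasFDerivAt_const 0 w))
  have hea : AnalyticAt ℝ e 0 :=
    analyticAt_snd.prod ((analyticAt_const.add (analyticAt_fst.smul analyticAt_const)).prod
      analyticAt_const)
  have he0 : e 0 = (0, (q₀, 0)) := by simp [he]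
  have hΦa : AnalyticAt ℝ Φ (e 0) := by rw [he0]; exact hΦ
  have hHa : AnalyticAt ℝ (fun w => Φ (e w)) 0 := AnalyticAt.comp hΦa hea
  have het : Tendsto e (𝓝 0) (𝓝 (0, (q₀, 0))) := by
    rw [← he0]
    exact hea.continuousAt
  have hHd : ∀ w, DifferentiableAt ℝ Φ (e w) →
      HasFDerivAt (fun w => Φ (e w)) ((fderiv ℝ Φ (e w)).comp L) w := fun w hw =>
    HasFDerivAt.comp w hw.hasFDerivAt (hed w)
  have hL01 : L (0, 1) = (1, 0) := by simp [hL]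
  have hL10 : L (1, 0) = (0, (n, 0)) := by simp [hL]
  have hΦe : Φ (0, (q₀, 0)) = (q₀, 0) := hΦ0.self_of_nhds
  -- the derivative of `Φ` at the base point in the direction of the second variable
  have hd2 : ∀ x : (ℝ × ℝ) × Y, fderiv ℝ Φ (0, (q₀, 0)) (0, x) = x := by
    intro x
    have h1 : HasFDerivAt (fun x : (ℝ × ℝ) × Y => Φ (0, x))
        ((fderiv ℝ Φ (0, (q₀, 0))).comp (ContinuousLinearMap.inr ℝ ℝ ((ℝ × ℝ) × Y))) (q₀, 0) := by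
      have h2 : HasFDerivAt (fun x : (ℝ × ℝ) × Y => ((0 : ℝ), x))
          (ContinuousLinearMap.inr ℝ ℝ ((ℝ × ℝ) × Y)) (q₀, 0) :=
        (hasFDerivAt_const (0 : ℝ) _).prodMk (hasFDerivAt_id _)
      exact HasFDerivAt.comp (g := Φ) (q₀, (0 : Y)) hΦ.differentiableAt.hasFDerivAt h2
    have h3 : HasFDerivAt (fun x : (ℝ × ℝ) × Y => Φ (0, x))
        (ContinuousLinearMap.id ℝ ((ℝ × ℝ) × Y)) (q₀, 0) :=
      (hasFDerivAt_id _).congr_of_eventuallyEq hΦ0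
    have h4 := congrArg (fun T : ((ℝ × ℝ) × Y) →L[ℝ] ((ℝ × ℝ) × Y) => T x) (h1.unique h3)
    simpa using h4
  refine ⟨fun w => (Φ (e w)).1, fun w => (Φ (e w)).2, ?_, ?_, ?_, ?_, ?_, ?_, ?_⟩
  · exact AnalyticAt.comp_of_eq analyticAt_fst hHa rfl
  · exact AnalyticAt.comp_of_eq analyticAt_snd hHa rfl
  · show (Φ (e 0)).1 = q₀
    rw [he0, hΦe]
  · show (Φ (e 0)).2 = 0
    rw [he0, hΦe]
  · have h1 := (hHd 0 hΦa.differentiableAt).fst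
    rw [h1.fderiv]
    refine ContinuousLinearMap.ext fun w => ?_
    obtain ⟨s, x⟩ := w
    have h2 : ((s, x) : ℝ × ℝ) = s • (1, 0) + x • (0, 1) := by simp
    have h3 : fderiv ℝ Φ (e 0) (L (1, 0)) = (n, 0) := by rw [hL10, he0, hd2]
    have h4 : fderiv ℝ Φ (e 0) (L (0, 1)) = (g q₀, b q₀) := by
      rw [hL01, he0]
      have h5 := hΦ1.self_of_nhds
      rw [h5, hΦe]
    show (fderiv ℝ Φ (e 0) (L (s, x))).1 = A (s, x)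
    rw [h2, map_add, map_smul, map_smul, map_add, map_smul, map_smul, h3, h4, map_add, map_smul,
      map_smul, hA, ← hn]
    rfl
  · filter_upwards [het.eventually hΦ1, het.eventually hΦ.eventually_analyticAt] with w h1 h2
    have h3 := (hHd w h2.differentiableAt).fst
    rw [h3.fderiv]
    show (fderiv ℝ Φ (e w) (L (0, 1))).1 = _
    rw [hL01, h1]
  · filter_upwards [het.eventually hΦ1, het.eventually hΦ.eventually_analyticAt] with w h1 h2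
    have h3 := (hHd w h2.differentiableAt).snd
    rw [h3.fderiv]
    show (fderiv ℝ Φ (e w) (L (0, 1))).2 = _
    rw [hL01, h1]

private theorem KFlowP_app {E₀ E₁ E₂ : Type*} [NormedAddCommGroup E₀] [NormedSpace ℝ E₀]
    [NormedAddCommGroup E₁] [NormedSpace ℝ E₁] [NormedAddCommGroup E₂] [NormedSpace ℝ E₂]
    {L : E₀ → E₁ →L[ℝ] E₂} {v : E₀ → E₁} {z : E₀}
    (hL : AnalyticAt ℝ L z) (hv : AnalyticAt ℝ v z) : AnalyticAt ℝ (fun z => L z (v z)) z := by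
  have h1 := (ContinuousLinearMap.id ℝ (E₁ →L[ℝ] E₂)).analyticAt_bilinear (L z, v z)
  exact h1.comp_of_eq (hL.prod hv) rfl

theorem flowP {f g : ℝ × ℝ → ℝ × ℝ} {a b : ℝ × ℝ → Y} {q₀ : ℝ × ℝ} (y₀ : Y) (t₀ : ℝ)
    (hf : AnalyticAt ℝ f q₀) (hg : AnalyticAt ℝ g q₀) (ha : AnalyticAt ℝ a q₀)
    (hb : AnalyticAt ℝ b q₀) (hg0 : g q₀ ≠ 0) :
    ∃ (f' k' : ℝ × ℝ → ℝ) (h' : ℝ × ℝ → Y) (Θ : ℝ × ((ℝ × ℝ) × Y) → (ℝ × ℝ) × Y)
      (Ξ : ℝ × ((ℝ × ℝ) × Y) → (ℝ × ℝ) × Y), AnalyticAt ℝ f' 0 ∧ AnalyticAt ℝ k' 0 ∧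
      AnalyticAt ℝ h' 0 ∧ Ch (FP f a) (FP g b) (FB f' k' h') GB Θ Ξ (t₀, (0, y₀)) ∧
      Θ (t₀, (0, y₀)) = (q₀, y₀) := by
  have : CompleteSpace Y := FiniteDimensional.complete ℝ Y
  obtain ⟨A, hA⟩ := DD.lin2 hg0
  obtain ⟨θ, β, hθ, hβ, hθ0, hβ0, hθA, hθ1, hβ1⟩ := KFlowP_map hg hb A hA
  -- the planar chart
  have hsn : Tendsto (fun w : ℝ × (ℝ × ℝ) => w.2) (𝓝 (t₀, 0)) (𝓝 0) := continuousAt_snd
  have hΘd : ∀ w : ℝ × (ℝ × ℝ), DifferentiableAt ℝ θ w.2 →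
      fderiv ℝ (fun w : ℝ × (ℝ × ℝ) => θ w.2) w =
        (fderiv ℝ θ w.2).comp (ContinuousLinearMap.snd ℝ ℝ (ℝ × ℝ)) := by
    intro w hw
    have h1 : HasFDerivAt (fun w : ℝ × (ℝ × ℝ) => θ w.2)
        ((fderiv ℝ θ w.2).comp (ContinuousLinearMap.snd ℝ ℝ (ℝ × ℝ))) w :=
      HasFDerivAt.comp (g := θ) w hw.hasFDerivAt hasFDerivAt_snd
    exact h1.fderiv
  have hθev := hsn.eventually hθ.eventually_analyticAt
  obtain ⟨Ξp, Fp, hch⟩ := DD.ch_of (V := ℝ × ℝ) (P := ℝ × ℝ) (F := fun z => f z.2)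
    (G := fun z => g z.2) (Gp := fun _ => (0, 1)) (Θ := fun w => θ w.2) (w₀ := (t₀, 0))
    (AnalyticAt.comp_of_eq hθ analyticAt_snd rfl) A
    (by
      rw [hΘd (t₀, 0) hθ.differentiableAt]
      show ((fderiv ℝ θ 0).comp (ContinuousLinearMap.snd ℝ ℝ (ℝ × ℝ))).comp
        (ContinuousLinearMap.inr ℝ ℝ (ℝ × ℝ)) = _
      rw [hθA]
      rfl)
    (by
      have h1 : AnalyticAt ℝ f (t₀, θ 0).2 := by
        show AnalyticAt ℝ f (θ 0)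
        rw [hθ0]; exact hf
      exact AnalyticAt.comp_of_eq h1 analyticAt_snd rfl)
    analyticAt_const
    (by
      filter_upwards [hθev, hsn.eventually hθ1] with w h1 h2
      rw [hΘd w h1.differentiableAt]
      exact h2)
  have hin : Tendsto (fun w : ℝ × ℝ => (t₀, w)) (𝓝 0) (𝓝 (t₀, 0)) :=
    (Continuous.prodMk_right t₀).tendsto 0
  have hinq : Tendsto (fun q : ℝ × ℝ => (t₀, q)) (𝓝 q₀) (𝓝 (t₀, q₀)) :=
    (Continuous.prodMk_right t₀).tendsto q₀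
  set ψ : ℝ × ℝ → ℝ × ℝ := fun q => Ξp (t₀, q) with hψ
  have hΞa : AnalyticAt ℝ Ξp (t₀, q₀) := by
    have h1 : AnalyticAt ℝ Ξp (t₀, θ 0) := hch.Ξa
    rwa [hθ0] at h1
  have hψa : AnalyticAt ℝ ψ q₀ :=
    AnalyticAt.comp_of_eq hΞa (analyticAt_const.prod analyticAt_id) rfl
  have hψl : ∀ᶠ q in 𝓝 q₀, θ (ψ q) = q := by
    have h1 : ∀ᶠ z in 𝓝 (t₀, θ 0), θ (Ξp z) = z.2 := hch.li
    rw [hθ0] at h1
    exact hinq.eventually h1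
  have hψr : ∀ᶠ w in 𝓝 (0 : ℝ × ℝ), ψ (θ w) = w := by
    have h1 := hch.ri
    have h2 := hin.eventually h1
    have h3 : Tendsto θ (𝓝 0) (𝓝 q₀) := by
      have := hθ.continuousAt
      unfold ContinuousAt at this
      rwa [hθ0] at this
    filter_upwards [h2] with w hw
    exact hw
  have hψ0 : ψ q₀ = 0 := by
    have := hψr.self_of_nhds
    rwa [hθ0] at this
  set Q : ℝ × ℝ → ℝ × ℝ := fun w => Fp (t₀, w) with hQ
  have hQa : AnalyticAt ℝ Q 0 :=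
    AnalyticAt.comp_of_eq hch.Fa (analyticAt_const.prod analyticAt_id) rfl
  have hQ1 : ∀ᶠ w in 𝓝 (0 : ℝ × ℝ), fderiv ℝ θ w (Q w) = f (θ w) := by
    filter_upwards [hin.eventually hch.F1, hθ.eventually_analyticAt] with w h1 h2
    have h3 := hΘd (t₀, w) h2.differentiableAt
    have h4 : fderiv ℝ (fun w : ℝ × (ℝ × ℝ) => θ w.2) (t₀, w) (1, Fp (t₀, w)) = f (θ w) := h1
    rw [h3] at h4
    exact h4
  have hQf : AnalyticAt ℝ (fun w => (Q w).1) 0 := AnalyticAt.comp_of_eq analyticAt_fst hQa rfl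
  have hQk : AnalyticAt ℝ (fun w => (Q w).2) 0 := AnalyticAt.comp_of_eq analyticAt_snd hQa rfl
  have hh' : AnalyticAt ℝ (fun w => a (θ w) - fderiv ℝ β w (Q w)) 0 := by
    have h1 : AnalyticAt ℝ (fun w => a (θ w)) 0 := AnalyticAt.comp_of_eq ha hθ hθ0
    exact h1.sub (KFlowP_app hβ.fderiv hQa)
  -- the chart
  set Θ : ℝ × ((ℝ × ℝ) × Y) → (ℝ × ℝ) × Y := fun w => (θ w.2.1, w.2.2 + β w.2.1) with hΘ
  set Ξ : ℝ × ((ℝ × ℝ) × Y) → (ℝ × ℝ) × Y := fun z => (ψ z.2.1, z.2.2 - β (ψ z.2.1)) with hΞ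
  have hΘ0 : Θ (t₀, (0, y₀)) = (q₀, y₀) := by
    show (θ 0, y₀ + β 0) = (q₀, y₀)
    rw [hθ0, hβ0, add_zero]
  have hp1 : ∀ (q : ℝ × ℝ), AnalyticAt ℝ (fun w : ℝ × ((ℝ × ℝ) × Y) => w.2.1) (t₀, (q, y₀)) :=
    fun q => AnalyticAt.comp_of_eq (g := fun p : (ℝ × ℝ) × Y => p.1) analyticAt_fst
      analyticAt_snd rfl
  have hp2 : ∀ (q : ℝ × ℝ), AnalyticAt ℝ (fun w : ℝ × ((ℝ × ℝ) × Y) => w.2.2) (t₀, (q, y₀)) :=
    fun q => AnalyticAt.comp_of_eq (g := fun p : (ℝ × ℝ) × Y => p.2) analyticAt_snd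
      analyticAt_snd rfl
  have hΘa : AnalyticAt ℝ Θ (t₀, (0, y₀)) := by
    have h1 : AnalyticAt ℝ (fun w : ℝ × ((ℝ × ℝ) × Y) => θ w.2.1) (t₀, (0, y₀)) :=
      AnalyticAt.comp_of_eq hθ (hp1 0) rfl
    have h2 : AnalyticAt ℝ (fun w : ℝ × ((ℝ × ℝ) × Y) => β w.2.1) (t₀, (0, y₀)) :=
      AnalyticAt.comp_of_eq hβ (hp1 0) rfl
    exact h1.prod ((hp2 0).add h2)
  have hpc0 : Tendsto (fun w : ℝ × ((ℝ × ℝ) × Y) => w.2.1) (𝓝 (t₀, (0, y₀))) (𝓝 0) :=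
    (hp1 0).continuousAt
  have hpcq : Tendsto (fun w : ℝ × ((ℝ × ℝ) × Y) => w.2.1) (𝓝 (t₀, (q₀, y₀))) (𝓝 q₀) :=
    (hp1 q₀).continuousAt
  have hΘf : ∀ w : ℝ × ((ℝ × ℝ) × Y), AnalyticAt ℝ θ w.2.1 → AnalyticAt ℝ β w.2.1 →
      ∀ (α : ℝ) (p : ℝ × ℝ) (y : Y), fderiv ℝ Θ w (α, (p, y)) =
        (fderiv ℝ θ w.2.1 p, y + fderiv ℝ β w.2.1 p) := by
    intro w h1 h2 α p y
    have e1 : HasFDerivAt (fun w : ℝ × ((ℝ × ℝ) × Y) => w.2.1)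
        ((ContinuousLinearMap.fst ℝ (ℝ × ℝ) Y).comp (ContinuousLinearMap.snd ℝ ℝ ((ℝ × ℝ) × Y)))
        w := ((ContinuousLinearMap.fst ℝ (ℝ × ℝ) Y).comp
          (ContinuousLinearMap.snd ℝ ℝ ((ℝ × ℝ) × Y))).hasFDerivAt
    have e2 : HasFDerivAt (fun w : ℝ × ((ℝ × ℝ) × Y) => w.2.2)
        ((ContinuousLinearMap.snd ℝ (ℝ × ℝ) Y).comp (ContinuousLinearMap.snd ℝ ℝ ((ℝ × ℝ) × Y)))
        w := ((ContinuousLinearMap.snd ℝ (ℝ × ℝ) Y).comp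
          (ContinuousLinearMap.snd ℝ ℝ ((ℝ × ℝ) × Y))).hasFDerivAt
    have e3 := HasFDerivAt.comp (g := θ) w h1.differentiableAt.hasFDerivAt e1
    have e4 := HasFDerivAt.comp (g := β) w h2.differentiableAt.hasFDerivAt e1
    have e5 := e3.prodMk (e2.add e4)
    have e6 : HasFDerivAt Θ _ w := e5
    rw [e6.fderiv]
    rfl
  have hθe0 := hpc0.eventually hθ.eventually_analyticAt
  have hβe0 := hpc0.eventually hβ.eventually_analyticAt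
  refine ⟨fun w => (Q w).1, fun w => (Q w).2, fun w => a (θ w) - fderiv ℝ β w (Q w), Θ, Ξ, hQf,
    hQk, hh', ?_, hΘ0⟩
  refine ⟨hΘa, ?_, ?_, ?_, ?_, ?_, ?_, ?_⟩
  · rw [hΘ0]
    have h1 : AnalyticAt ℝ (fun z : ℝ × ((ℝ × ℝ) × Y) => ψ z.2.1) (t₀, (q₀, y₀)) :=
      AnalyticAt.comp_of_eq (g := ψ) hψa (hp1 q₀) rfl
    have h2 : AnalyticAt ℝ (fun z : ℝ × ((ℝ × ℝ) × Y) => β (ψ z.2.1)) (t₀, (q₀, y₀)) :=
      AnalyticAt.comp_of_eq hβ h1 hψ0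
    exact h1.prod ((hp2 q₀).sub h2)
  · rw [hΘ0]
    filter_upwards [hpcq.eventually hψl] with z hz
    show (θ (ψ z.2.1), z.2.2 - β (ψ z.2.1) + β (ψ z.2.1)) = z.2
    rw [hz, sub_add_cancel]
  · filter_upwards [hpc0.eventually hψr] with w hw
    show (ψ (θ w.2.1), w.2.2 + β w.2.1 - β (ψ (θ w.2.1))) = w.2
    rw [hw, add_sub_cancel_right]
  · have h1 : AnalyticAt ℝ (fun w : ℝ × ((ℝ × ℝ) × Y) => (Q w.2.1).1) (t₀, (0, y₀)) :=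
      AnalyticAt.comp_of_eq (g := fun w => (Q w).1) hQf (hp1 0) rfl
    have h2 : AnalyticAt ℝ (fun w : ℝ × ((ℝ × ℝ) × Y) => (Q w.2.1).2) (t₀, (0, y₀)) :=
      AnalyticAt.comp_of_eq (g := fun w => (Q w).2) hQk (hp1 0) rfl
    have h3 : AnalyticAt ℝ (fun w : ℝ × ((ℝ × ℝ) × Y) => a (θ w.2.1) -
        fderiv ℝ β w.2.1 (Q w.2.1)) (t₀, (0, y₀)) :=
      AnalyticAt.comp_of_eq hh' (hp1 0) rfl
    exact (h1.prod h2).prod h3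
  · exact analyticAt_const
  · filter_upwards [hθe0, hβe0, hpc0.eventually hQ1] with w h1 h2 h3
    show fderiv ℝ Θ w (1, (((Q w.2.1).1, (Q w.2.1).2), a (θ w.2.1) -
      fderiv ℝ β w.2.1 (Q w.2.1))) = (f (θ w.2.1), a (θ w.2.1))
    rw [hΘf w h1 h2]
    show (fderiv ℝ θ w.2.1 (Q w.2.1), a (θ w.2.1) - fderiv ℝ β w.2.1 (Q w.2.1) +
      fderiv ℝ β w.2.1 (Q w.2.1)) = (f (θ w.2.1), a (θ w.2.1))
    rw [h3, sub_add_cancel]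
  · filter_upwards [hθe0, hβe0, hpc0.eventually hθ1, hpc0.eventually hβ1] with w h1 h2 h3 h4
    show fderiv ℝ Θ w (0, ((0, 1), 0)) = (g (θ w.2.1), b (θ w.2.1))
    rw [hΘf w h1 h2, h3, h4, zero_add]

end Pool.Agent.Lib.MP_28b8de_an.KK
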