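import Pool.Agent.Lib.MP_28b8de_an.K.KDefs
import Pool.Agent.Lib.MP_28b8de_an.T.TGapOne

/-!
MP_28b8de_an, module KGap4.

A variant of gap lemma 1.
Variant of `TT.gap_one` (file T/TGapOne.lean, complete; adapt it; read its header).  Differences: p = 1, and the error variable Y may also be driven by ϕ: |Y t| ≤ K ∫ (|X|^m + |Y| + |ϕ|), |ψ| ≤ K (|X|^m + |Y| + |ϕ|).
PROOF.  All constants C depend on K, c, m only; δ := s' - s small.  |X| ≤ 2Kδ =: ρ (rl_Xb).  A := ∫ |X|^m, Φ := ∫ |ϕ|, R := A + Φ.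
(f) gron: |Y t| ≤ C R on [s,s'], ∫|Y| ≤ C δ R.
(b) rl_X: ∫ En = -∫ X n = ∫ b X + O(K ρ Φ) = m ∫ e X^m + O(ρ A + ρ δ R + ρ Φ).  So c² Φ ≤ ∫ En ≤ C A + C (ρ + δ) R, and for small δ: Φ ≤ C A, R ≤ C A.
(c) h := D + En: D t = ∫_s^t (b g (u-v) + ψ), En t = ∫_s^t g (u-v) n + O(∫|ϕ|) (rl_E), n = -b + O(|ϕ|): |h t| ≤ C ∫ (|X|^m + |Y| + |ϕ|) ≤ C A, ∫|h| ≤ C δ A.  Pointwise |h - (e X^m + En)| ≤ K (|X|^(m+1) + |Y|),
so |∫ e X^m + ∫ En| ≤ C (δ + ρ) A.  With (b): (1 + m) |∫ e X^m| ≤ C (δ + ρ) A.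
m even: |∫ e X^m| ≥ c A (e has constant sign): A = 0, X = 0.
m odd: 0 = ϕ s' = ∫ n = -∫ b + O(Φ): m |∫ e X^(m-1)| ≤ C (A + ∫|Y| + Φ) ≤ C A ≤ C ρ ∫ |X|^(m-1), m - 1 ≥ 2 even: c ∫ |X|^(m-1) ≤ ..: X = 0.
-/

set_option linter.unusedSectionVars false

namespace Pool.Agent.Lib.MP_28b8de_an.KK

open Filter Topology Set MeasureTheory
open Pool.Agent.Lib.MP_28b8de_an.PT (Adm Perf gron)
open Pool.Agent.Lib.MP_28b8de_an.TT (Env Sol Jn Tr SmAt Goal dx Dn Gen Lc Lp Lq fX cf)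
open Pool.Agent.Lib.MP_28b8de_an.DD (LTraj LRep Ch)

private theorem KGap4_le {f G : ℝ → ℝ} {a b : ℝ} (hab : a ≤ b)
    (hG : IntervalIntegrable G volume a b)
    (h : ∀ t ∈ Icc a b, |f t| ≤ G t) : |∫ r in a..b, f r| ≤ ∫ r in a..b, G r := by
  have := intervalIntegral.norm_integral_le_of_norm_le (f := f) (g := G) (μ := volume) hab
    (Eventually.of_forall fun t ht => h t ⟨ht.1.le, ht.2⟩) hG
  rwa [Real.norm_eq_abs] at this

private theorem KGap4_ci {f : ℝ → ℝ} {a b : ℝ} (hab : a ≤ b) (hf : ContinuousOn f (Icc a b)) :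
    IntervalIntegrable f volume a b := by
  apply ContinuousOn.intervalIntegrable
  rwa [uIcc_of_le hab]

private theorem KGap4_mono {G : ℝ → ℝ} {s s' t : ℝ} (ht : t ∈ Icc s s')
    (hG : ContinuousOn G (Icc s s')) (h0 : ∀ r ∈ Icc s s', 0 ≤ G r) :
    ∫ r in s..t, G r ≤ ∫ r in s..s', G r := by
  refine intervalIntegral.integral_mono_interval le_rfl ht.1 ht.2 ?_
    (KGap4_ci (ht.1.trans ht.2) hG)
  exact (ae_restrict_iff' measurableSet_Ioc).2
    (Eventually.of_forall fun r hr => h0 r ⟨hr.1.le, hr.2⟩)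

private theorem KGap4_Y {K s s' : ℝ} {F Y : ℝ → ℝ} (hK : 1 ≤ K)
    (hs : s ≤ s') (hd : K * (s' - s) ≤ 1 / 2)
    (hF : ContinuousOn F (Icc s s')) (hF0 : ∀ t ∈ Icc s s', 0 ≤ F t)
    (hY : ContinuousOn Y (Icc s s'))
    (h : ∀ t ∈ Icc s s', |Y t| ≤ K * ∫ r in s..t, (F r + |Y r|)) :
    ∀ t ∈ Icc s s', |Y t| ≤ 2 * K * ∫ r in s..s', F r := by
  have hYa : ContinuousOn (fun r => |Y r|) (Icc s s') := hY.abs
  obtain ⟨A, hA⟩ : ∃ A, A = ∫ r in s..s', F r := ⟨_, rfl⟩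
  have hA0 : 0 ≤ A := by
    rw [hA]
    exact intervalIntegral.integral_nonneg hs hF0
  rw [← hA]
  have key := gron (f := fun t => |Y t|) (a := s) (b := s') (e := K * A) (K := K) hYa
    (by linarith) (fun t ht => by
      have h1 := h t ht
      have h2 : ∫ r in s..t, (F r + |Y r|) =
          (∫ r in s..t, F r) + ∫ r in s..t, |Y r| :=
        intervalIntegral.integral_add (KGap4_ci ht.1 (hF.mono (Icc_subset_Icc_right ht.2)))
          (KGap4_ci ht.1 (hYa.mono (Icc_subset_Icc_right ht.2)))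
      have h3 := KGap4_mono ht hF hF0
      rw [h2, mul_add] at h1
      rw [← hA] at h3
      have h4 := mul_le_mul_of_nonneg_left h3 (by linarith : (0 : ℝ) ≤ K)
      show |Y t| ≤ K * A + K * ∫ r in s..t, |Y r|
      linarith)
  intro t ht
  have h1 := key t ht
  have h4 : 0 ≤ K * (t - s) := mul_nonneg (by linarith) (by linarith [ht.1])
  have h3 : K * (t - s) ≤ 1 / 2 :=
    (mul_le_mul_of_nonneg_left (by linarith [ht.2]) (by linarith)).trans hd
  have h2 : Real.exp (K * (t - s)) ≤ 2 := by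
    have h5 := Real.exp_bound_div_one_sub_of_interval h4 (by linarith)
    refine h5.trans ?_
    rw [div_le_iff₀ (by linarith)]
    linarith
  calc |Y t| ≤ K * A * Real.exp (K * (t - s)) := h1
    _ ≤ K * A * 2 := mul_le_mul_of_nonneg_left h2 (mul_nonneg (by linarith) hA0)
    _ = 2 * K * A := by ring

private theorem KGap4_sign {κ F : ℝ → ℝ} {s s' c' : ℝ} (hs : s ≤ s')
    (hκ : ContinuousOn κ (Icc s s')) (hF : ContinuousOn F (Icc s s')) (hc : 0 < c')
    (h1 : ∀ t ∈ Icc s s', c' ≤ |κ t|) (h0 : ∀ t ∈ Icc s s', 0 ≤ F t) :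
    c' * ∫ r in s..s', F r ≤ |∫ r in s..s', κ r * F r| := by
  have hsI : s ∈ Icc s s' := left_mem_Icc.mpr hs
  have hsgn : (∀ t ∈ Icc s s', c' ≤ κ t) ∨ (∀ t ∈ Icc s s', κ t ≤ -c') := by
    by_cases h : 0 < κ s
    · left
      intro t ht
      by_contra hcon
      push Not at hcon
      have h2 : κ t ≤ 0 := by
        by_contra h3
        push Not at h3
        have := h1 t ht
        rw [abs_of_pos h3] at this
        linarith
      obtain ⟨r, hr, hr0⟩ := intermediate_value_Icc' ht.1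
        (hκ.mono (Icc_subset_Icc_right ht.2)) ⟨h2, h.le⟩
      have := h1 r ⟨hr.1, hr.2.trans ht.2⟩
      rw [hr0, abs_zero] at this
      linarith
    · right
      push Not at h
      intro t ht
      by_contra hcon
      push Not at hcon
      have h2 : 0 ≤ κ t := by
        by_contra h3
        push Not at h3
        have := h1 t ht
        rw [abs_of_neg h3] at this
        linarith
      obtain ⟨r, hr, hr0⟩ := intermediate_value_Icc ht.1
        (hκ.mono (Icc_subset_Icc_right ht.2)) ⟨h, h2⟩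
      have := h1 r ⟨hr.1, hr.2.trans ht.2⟩
      rw [hr0, abs_zero] at this
      linarith
  have hi1 : IntervalIntegrable (fun r => c' * F r) volume s s' :=
    KGap4_ci hs (continuousOn_const.mul hF)
  have hi2 : IntervalIntegrable (fun r => κ r * F r) volume s s' := KGap4_ci hs (hκ.mul hF)
  rw [← intervalIntegral.integral_const_mul]
  rcases hsgn with h | h
  · refine le_trans ?_ (le_abs_self _)
    exact intervalIntegral.integral_mono_on hs hi1 hi2 fun t ht =>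
      mul_le_mul_of_nonneg_right (h t ht) (h0 t ht)
  · refine le_trans ?_ (neg_le_abs _)
    rw [← intervalIntegral.integral_neg]
    refine intervalIntegral.integral_mono_on hs hi1 hi2.neg fun t ht => ?_
    have := mul_le_mul_of_nonneg_right (h t ht) (h0 t ht)
    show c' * F t ≤ -(κ t * F t)
    linarith

/-- the hypotheses -/
private structure G4 (K c : ℝ) (m : ℕ) (s s' : ℝ) (X ϕ u g v n Y D b e ψ : ℝ → ℝ) : Prop where
  m2 : 2 ≤ m
  d1 : K * (s' - s) ≤ 1 / 2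
  d2 : 8 * K ^ 2 * (s' - s) ≤ c ^ 2
  rl : TT.Rl K c s s' X ϕ u g v n
  Yc : ContinuousOn Y (Icc s s')
  bc : ContinuousOn b (Icc s s')
  ec : ContinuousOn e (Icc s s')
  ψi : IntervalIntegrable ψ volume s s'
  e0 : ∀ t ∈ Icc s s', c ≤ |e t|
  e1 : ∀ t ∈ Icc s s', |e t| ≤ K
  nb : ∀ t ∈ Icc s s', |n t + b t| ≤ K * |ϕ t|
  Deq : ∀ t ∈ Icc s s', D t = ∫ r in s..t, (b r * (g r * (u r - v r)) + ψ r)
  ψb : ∀ t ∈ Icc s s', |ψ t| ≤ K * (|X t| ^ m + |Y t| + |ϕ t|)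
  Db : ∀ t ∈ Icc s s', |D t - e t * X t ^ m| ≤ K * (|X t| ^ (m + 1) + |Y t|)
  bb : ∀ t ∈ Icc s s', |b t - m * e t * X t ^ (m - 1)| ≤ K * (|X t| ^ m + |Y t|)
  Yb : ∀ t ∈ Icc s s', |Y t| ≤ K * ∫ r in s..t, (|X r| ^ m + |Y r| + |ϕ r|)

section facts

variable {K c : ℝ} {m : ℕ} {s s' : ℝ} {X ϕ u g v n Y D b e ψ : ℝ → ℝ}

private theorem G4.A0 (h : G4 K c m s s' X ϕ u g v n Y D b e ψ) :
    0 ≤ ∫ r in s..s', |X r| ^ m :=
  intervalIntegral.integral_nonneg h.rl.hs.le fun r _ => by positivity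

private theorem G4.Φ0 (h : G4 K c m s s' X ϕ u g v n Y D b e ψ) :
    0 ≤ ∫ r in s..s', |ϕ r| :=
  intervalIntegral.integral_nonneg h.rl.hs.le fun _ _ => abs_nonneg _

/-- `|Y| ≤ 2 K R` -/
private theorem G4.Y1 (h : G4 K c m s s' X ϕ u g v n Y D b e ψ) :
    ∀ t ∈ Icc s s', |Y t| ≤
      2 * K * ((∫ r in s..s', |X r| ^ m) + ∫ r in s..s', |ϕ r|) := by
  have hs := h.rl.hs.le
  have h1 := KGap4_Y (F := fun r => |X r| ^ m + |ϕ r|) h.rl.hK hs h.d1
    ((h.rl.Xc.abs.pow m).add h.rl.ϕc.abs) (fun t _ => by positivity) h.Yc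
    (fun t ht => by
      have h2 : ∫ r in s..t, (|X r| ^ m + |Y r| + |ϕ r|) =
          ∫ r in s..t, (|X r| ^ m + |ϕ r| + |Y r|) :=
        intervalIntegral.integral_congr fun r _ => by
          show |X r| ^ m + |Y r| + |ϕ r| = |X r| ^ m + |ϕ r| + |Y r|
          ring
      have h3 := h.Yb t ht
      rw [h2] at h3
      exact h3)
  have hXi : IntervalIntegrable (fun r => |X r| ^ m) volume s s' :=
    KGap4_ci hs (h.rl.Xc.abs.pow m)
  rw [intervalIntegral.integral_add hXi (KGap4_ci hs h.rl.ϕc.abs)] at h1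
  exact h1

/-- `∫ |Y| ≤ 2 K (s' - s) R` -/
private theorem G4.Y2 (h : G4 K c m s s' X ϕ u g v n Y D b e ψ) :
    ∫ r in s..s', |Y r| ≤ 2 * K * (s' - s) *
      ((∫ r in s..s', |X r| ^ m) + ∫ r in s..s', |ϕ r|) := by
  have h1 := intervalIntegral.integral_mono_on h.rl.hs.le (KGap4_ci h.rl.hs.le h.Yc.abs)
    (KGap4_ci h.rl.hs.le continuousOn_const) h.Y1
  rw [intervalIntegral.integral_const, smul_eq_mul] at h1
  refine h1.trans (le_of_eq ?_)
  ring

private theorem G4.X1 (h : G4 K c m s s' X ϕ u g v n Y D b e ψ) :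
    ∀ t ∈ Icc s s', |X t| ≤ 2 * K * (s' - s) := by
  intro t ht
  have h1 := TT.rl_Xb h.rl t ht
  have h2 : 2 * K * (t - s) ≤ 2 * K * (s' - s) :=
    mul_le_mul_of_nonneg_left (by linarith [ht.2]) (by linarith [h.rl.hK])
  linarith

private theorem G4.ρ0 (h : G4 K c m s s' X ϕ u g v n Y D b e ψ) : 0 ≤ 2 * K * (s' - s) :=
  mul_nonneg (by linarith [h.rl.hK]) (by linarith [h.rl.hs])

private theorem G4.ρ1 (h : G4 K c m s s' X ϕ u g v n Y D b e ψ) : 2 * K * (s' - s) ≤ 1 := by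
  linarith [h.d1]

/-- `|∫ e X^m| ≤ K A` -/
private theorem G4.J1 (h : G4 K c m s s' X ϕ u g v n Y D b e ψ) :
    |∫ r in s..s', e r * X r ^ m| ≤ K * ∫ r in s..s', |X r| ^ m := by
  rw [← intervalIntegral.integral_const_mul]
  refine KGap4_le h.rl.hs.le (KGap4_ci h.rl.hs.le (continuousOn_const.mul (h.rl.Xc.abs.pow m)))
    fun t ht => ?_
  rw [abs_mul, abs_pow]
  exact mul_le_mul_of_nonneg_right (h.e1 t ht) (by positivity)

/-- (b): `|∫ En - m ∫ e X^m| ≤ 2 K ρ (A + Φ)` -/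
private theorem G4.b1 (h : G4 K c m s s' X ϕ u g v n Y D b e ψ) :
    |(∫ r in s..s', TT.En ϕ g v r) - m * ∫ r in s..s', e r * X r ^ m| ≤
      2 * K * (s' - s) *
        (2 * K * ((∫ r in s..s', |X r| ^ m) + ∫ r in s..s', |ϕ r|)) := by
  have hK := h.rl.hK
  have hs := h.rl.hs.le
  have hEi := KGap4_ci hs (TT.rl_En_cont h.rl)
  have hXn : IntervalIntegrable (fun r => X r * n r) volume s s' := by
    apply h.rl.ni.continuousOn_mul
    rw [uIcc_of_le hs]
    exact h.rl.Xc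
  have hκX : IntervalIntegrable (fun r => e r * X r ^ m) volume s s' :=
    KGap4_ci hs (h.ec.mul (h.rl.Xc.pow m))
  have h1 : (∫ r in s..s', TT.En ϕ g v r) + ∫ r in s..s', X r * n r = 0 := by
    rw [← intervalIntegral.integral_add hEi hXn]
    exact TT.rl_X h.rl
  have h2 : ∫ r in s..s', (X r * n r + m * (e r * X r ^ m)) =
      (∫ r in s..s', X r * n r) + m * ∫ r in s..s', e r * X r ^ m := by
    rw [intervalIntegral.integral_add hXn (hκX.const_mul _), intervalIntegral.integral_const_mul]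
  have h3 : (∫ r in s..s', TT.En ϕ g v r) - m * ∫ r in s..s', e r * X r ^ m =
      -∫ r in s..s', (X r * n r + m * (e r * X r ^ m)) := by
    rw [h2]
    linarith
  rw [h3, abs_neg]
  have hY2 := h.Y2
  have hρ0' := h.ρ0
  have hρ1' := h.ρ1
  have hX1 := h.X1
  obtain ⟨ρ, hρ⟩ : ∃ ρ, ρ = 2 * K * (s' - s) := ⟨_, rfl⟩
  rw [← hρ] at hY2 hρ0' hρ1' hX1 ⊢
  have hGi : IntervalIntegrable (fun r => ρ * (K * |ϕ r| + K * (|X r| ^ m + |Y r|)))
      volume s s' :=
    KGap4_ci hs (continuousOn_const.mul ((continuousOn_const.mul h.rl.ϕc.abs).add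
      (continuousOn_const.mul ((h.rl.Xc.abs.pow m).add h.Yc.abs))))
  have h4 : |∫ r in s..s', (X r * n r + m * (e r * X r ^ m))| ≤
      ∫ r in s..s', ρ * (K * |ϕ r| + K * (|X r| ^ m + |Y r|)) := by
    refine KGap4_le hs hGi fun t ht => ?_
    have hm1 : X t * X t ^ (m - 1) = X t ^ m := by
      rw [← pow_succ', Nat.sub_add_cancel (by have := h.m2; omega)]
    have e1 : X t * n t + m * (e t * X t ^ m) =
        X t * (n t + b t) - X t * (b t - m * e t * X t ^ (m - 1)) := by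
      rw [← hm1]
      ring
    have hX := hX1 t ht
    have h5 : |X t * (n t + b t)| ≤ ρ * (K * |ϕ t|) := by
      rw [abs_mul]
      exact mul_le_mul hX (h.nb t ht) (abs_nonneg _) hρ0'
    have h6 : |X t * (b t - m * e t * X t ^ (m - 1))| ≤ ρ * (K * (|X t| ^ m + |Y t|)) := by
      rw [abs_mul]
      exact mul_le_mul hX (h.bb t ht) (abs_nonneg _) hρ0'
    rw [e1]
    calc _ ≤ |X t * (n t + b t)| + |X t * (b t - m * e t * X t ^ (m - 1))| :=
          abs_sub _ _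
      _ ≤ ρ * (K * |ϕ t|) + ρ * (K * (|X t| ^ m + |Y t|)) := add_le_add h5 h6
      _ = ρ * (K * |ϕ t| + K * (|X t| ^ m + |Y t|)) := by ring
  refine h4.trans ?_
  have hXi : IntervalIntegrable (fun r => |X r| ^ m) volume s s' :=
    KGap4_ci hs (h.rl.Xc.abs.pow m)
  have hYi := KGap4_ci hs h.Yc.abs
  have hϕi := KGap4_ci hs h.rl.ϕc.abs
  have h5 : ∫ r in s..s', ρ * (K * |ϕ r| + K * (|X r| ^ m + |Y r|)) =
      ρ * (K * (∫ r in s..s', |ϕ r|) +
        K * ((∫ r in s..s', |X r| ^ m) + ∫ r in s..s', |Y r|)) := by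
    rw [intervalIntegral.integral_const_mul,
      intervalIntegral.integral_add (hϕi.const_mul _) ((hXi.add hYi).const_mul _),
      intervalIntegral.integral_const_mul, intervalIntegral.integral_const_mul,
      intervalIntegral.integral_add hXi hYi]
  rw [h5]
  refine mul_le_mul_of_nonneg_left ?_ hρ0'
  have h7 := h.A0
  have h8 := h.Φ0
  obtain ⟨A, hAe⟩ : ∃ A, A = ∫ r in s..s', |X r| ^ m := ⟨_, rfl⟩
  obtain ⟨Φ, hΦe⟩ : ∃ Φ, Φ = ∫ r in s..s', |ϕ r| := ⟨_, rfl⟩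
  obtain ⟨y, hye⟩ : ∃ y, y = ∫ r in s..s', |Y r| := ⟨_, rfl⟩
  rw [← hAe, ← hΦe, ← hye] at hY2 ⊢
  rw [← hAe] at h7
  rw [← hΦe] at h8
  have h9 : ρ * (A + Φ) ≤ A + Φ := mul_le_of_le_one_left (by linarith) hρ1'
  have h10 : K * (A + y) ≤ K * (A + (A + Φ)) :=
    mul_le_mul_of_nonneg_left (by linarith) (by linarith)
  refine (add_le_add_right h10 (K * Φ)).trans (le_of_eq ?_)
  ring

/-- `Φ ≤ C A` -/
private theorem G4.b2 (h : G4 K c m s s' X ϕ u g v n Y D b e ψ) :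
    ∫ r in s..s', |ϕ r| ≤ 2 * (m + 2) * K / c ^ 2 * ∫ r in s..s', |X r| ^ m := by
  have hK := h.rl.hK
  have hs := h.rl.hs.le
  have hc := h.rl.hc
  have hb := h.b1
  have hJ := h.J1
  have hA := h.A0
  have hρ0 := h.ρ0
  have hρ1 := h.ρ1
  have hΦ0 := h.Φ0
  have h1 : c ^ 2 * (∫ r in s..s', |ϕ r|) ≤ ∫ r in s..s', TT.En ϕ g v r := by
    rw [← intervalIntegral.integral_const_mul]
    refine intervalIntegral.integral_mono_on hs
      (KGap4_ci hs (continuousOn_const.mul h.rl.ϕc.abs)) (KGap4_ci hs (TT.rl_En_cont h.rl))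
      fun t ht => ?_
    have := (TT.rl_pos h.rl t ht).1
    rw [sq]
    exact this
  obtain ⟨J, hJe⟩ : ∃ J, J = ∫ r in s..s', e r * X r ^ m := ⟨_, rfl⟩
  obtain ⟨Φ, hΦe⟩ : ∃ Φ, Φ = ∫ r in s..s', |ϕ r| := ⟨_, rfl⟩
  obtain ⟨A, hAe⟩ : ∃ A, A = ∫ r in s..s', |X r| ^ m := ⟨_, rfl⟩
  obtain ⟨I, hIe⟩ : ∃ I, I = ∫ r in s..s', TT.En ϕ g v r := ⟨_, rfl⟩
  rw [← hJe, ← hΦe, ← hAe, ← hIe] at hb
  rw [← hJe, ← hAe] at hJ
  rw [← hΦe, ← hIe] at h1
  rw [← hAe] at hA ⊢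
  rw [← hΦe] at hΦ0 ⊢
  obtain ⟨ρ, hρ⟩ : ∃ ρ, ρ = 2 * K * (s' - s) := ⟨_, rfl⟩
  have hd2 : 4 * K * ρ ≤ c ^ 2 := by
    rw [hρ]
    have := h.d2
    nlinarith
  rw [← hρ] at hb hρ0 hρ1
  have h2 : I ≤ m * J + ρ * (2 * K * (A + Φ)) := by
    have := (abs_le.1 hb).2
    linarith
  have h3 : (m : ℝ) * J ≤ m * (K * A) :=
    mul_le_mul_of_nonneg_left ((le_abs_self J).trans hJ) (Nat.cast_nonneg m)
  have h4 : ρ * (2 * K * A) ≤ 2 * K * A := mul_le_of_le_one_left (by positivity) hρ1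
  have h5 : 2 * (ρ * (2 * K * Φ)) ≤ c ^ 2 * Φ := by
    have := mul_le_mul_of_nonneg_right hd2 hΦ0
    linarith
  have h6 : c ^ 2 * Φ ≤ 2 * (m + 2) * K * A := by
    have h7 : c ^ 2 * Φ ≤ m * (K * A) + ρ * (2 * K * Φ) + ρ * (2 * K * A) := by
      have e1 : ρ * (2 * K * (A + Φ)) = ρ * (2 * K * Φ) + ρ * (2 * K * A) := by ring
      rw [e1] at h2
      linarith
    have h8 : c ^ 2 * Φ ≤ 2 * (m * (K * A)) + 2 * (2 * K * A) := by linarith
    refine h8.trans (le_of_eq ?_)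
    ring
  have hc2 : 0 < c ^ 2 := by positivity
  rw [div_mul_eq_mul_div, le_div_iff₀ hc2]
  linarith

/-- odd `m` -/
private theorem G4.odd (h : G4 K c m s s' X ϕ u g v n Y D b e ψ) (hm : Even (m - 1))
    (hd : 2 * K * (s' - s) * (K * (2 * (2 * (m + 2) * K / c ^ 2) + 2)) ≤ c) :
    ∫ r in s..s', |X r| ^ m = 0 := by
  have hK := h.rl.hK
  have hs := h.rl.hs.le
  have hc := h.rl.hc
  have hsI : s' ∈ Icc s s' := right_mem_Icc.mpr hs
  have hΦ := h.b2
  have hY := h.Y2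
  have hA := h.A0
  have hΦ0 := h.Φ0
  have hρ0 := h.ρ0
  have hρ1 := h.ρ1
  have hm2 := h.m2
  have hn0 : ∫ r in s..s', n r = 0 := by
    rw [← h.rl.ϕeq s' hsI]
    exact h.rl.ϕ1
  have hκX : IntervalIntegrable (fun r => e r * X r ^ (m - 1)) volume s s' :=
    KGap4_ci hs (h.ec.mul (h.rl.Xc.pow (m - 1)))
  have hXi : IntervalIntegrable (fun r => |X r| ^ m) volume s s' :=
    KGap4_ci hs (h.rl.Xc.abs.pow m)
  have hYi := KGap4_ci hs h.Yc.abs
  have hϕi := KGap4_ci hs h.rl.ϕc.abs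
  -- `m ∫ e X^(m-1)`
  have h1 : |∫ r in s..s', (n r + m * (e r * X r ^ (m - 1)))| ≤
      ∫ r in s..s', (K * |ϕ r| + K * (|X r| ^ m + |Y r|)) := by
    refine KGap4_le hs (KGap4_ci hs ((continuousOn_const.mul h.rl.ϕc.abs).add
      (continuousOn_const.mul ((h.rl.Xc.abs.pow m).add h.Yc.abs)))) fun t ht => ?_
    have e1 : n t + m * (e t * X t ^ (m - 1)) =
        (n t + b t) - (b t - m * e t * X t ^ (m - 1)) := by ring
    rw [e1]
    calc _ ≤ |n t + b t| + |b t - m * e t * X t ^ (m - 1)| := abs_sub _ _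
      _ ≤ K * |ϕ t| + K * (|X t| ^ m + |Y t|) := add_le_add (h.nb t ht) (h.bb t ht)
  rw [intervalIntegral.integral_add h.rl.ni (hκX.const_mul _), hn0, zero_add,
    intervalIntegral.integral_const_mul, intervalIntegral.integral_add (hϕi.const_mul _)
    ((hXi.add hYi).const_mul _), intervalIntegral.integral_const_mul,
    intervalIntegral.integral_const_mul, intervalIntegral.integral_add hXi hYi] at h1
  have hF0 : ∀ t ∈ Icc s s', 0 ≤ X t ^ (m - 1) := fun t _ => hm.pow_nonneg _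
  have h2 := KGap4_sign (F := fun t => X t ^ (m - 1)) hs h.ec (h.rl.Xc.pow (m - 1))
    hc h.e0 hF0
  obtain ⟨A, hAe⟩ : ∃ A, A = ∫ r in s..s', |X r| ^ m := ⟨_, rfl⟩
  obtain ⟨Φ, hΦe⟩ : ∃ Φ, Φ = ∫ r in s..s', |ϕ r| := ⟨_, rfl⟩
  obtain ⟨y, hye⟩ : ∃ y, y = ∫ r in s..s', |Y r| := ⟨_, rfl⟩
  obtain ⟨I, hIe⟩ : ∃ I, I = ∫ r in s..s', X r ^ (m - 1) := ⟨_, rfl⟩
  have hI0 : 0 ≤ I := by
    rw [hIe]
    exact intervalIntegral.integral_nonneg hs hF0
  have hAI : A ≤ 2 * K * (s' - s) * I := by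
    rw [hAe, hIe, ← intervalIntegral.integral_const_mul]
    refine intervalIntegral.integral_mono_on hs hXi
      (KGap4_ci hs (continuousOn_const.mul (h.rl.Xc.pow (m - 1)))) fun t ht => ?_
    have e1 : |X t| ^ m = |X t| * X t ^ (m - 1) := by
      rw [← hm.pow_abs, ← pow_succ', Nat.sub_add_cancel (by omega)]
    rw [e1]
    exact mul_le_mul_of_nonneg_right (h.X1 t ht) (hF0 t ht)
  rw [← hAe, ← hΦe, ← hye] at h1 hY
  rw [← hAe, ← hΦe] at hΦ
  rw [← hAe] at hA ⊢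
  rw [← hΦe] at hΦ0
  rw [← hIe] at h2
  obtain ⟨C, hC⟩ : ∃ C, C = 2 * ((m : ℝ) + 2) * K / c ^ 2 := ⟨_, rfl⟩
  have hC0 : 0 ≤ C := by rw [hC]; positivity
  rw [← hC] at hΦ hd
  obtain ⟨ρ, hρ⟩ : ∃ ρ, ρ = 2 * K * (s' - s) := ⟨_, rfl⟩
  rw [← hρ] at hY hρ0 hρ1 hAI hd
  have h3 : (m : ℝ) * (c * I) ≤ K * (2 * C + 2) * A := by
    have h4 : (m : ℝ) * (c * I) ≤ |(m : ℝ) * ∫ r in s..s', e r * X r ^ (m - 1)| := by
      rw [abs_mul, Nat.abs_cast]
      exact mul_le_mul_of_nonneg_left h2 (Nat.cast_nonneg m)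
    have h6 : ρ * (A + Φ) ≤ A + Φ := mul_le_of_le_one_left (by linarith) hρ1
    have h7 : K * (Φ + (A + y)) ≤ K * ((2 * C + 2) * A) :=
      mul_le_mul_of_nonneg_left (by linarith) (by linarith)
    linarith
  have h4 : K * (2 * C + 2) * A ≤ c * I := by
    calc K * (2 * C + 2) * A ≤ K * (2 * C + 2) * (ρ * I) :=
          mul_le_mul_of_nonneg_left hAI (by positivity)
      _ = (ρ * (K * (2 * C + 2))) * I := by ring
      _ ≤ c * I := mul_le_mul_of_nonneg_right hd hI0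
  have hmr : (2 : ℝ) ≤ m := by exact_mod_cast hm2
  have h5 : I ≤ 0 := by
    by_contra hcon
    push Not at hcon
    have h6 : 0 < c * I := mul_pos hc hcon
    nlinarith
  have h6 : A ≤ 0 := hAI.trans (by nlinarith)
  linarith

/-- even `m` -/
private theorem G4.even (h : G4 K c m s s' X ϕ u g v n Y D b e ψ) (hm : Even m)
    (hd : (s' - s) * ((13 * (2 * (m + 2) * K / c ^ 2) + 10) * K ^ 2) ≤ c) :
    ∫ r in s..s', |X r| ^ m = 0 := by
  have hK := h.rl.hK
  have hs := h.rl.hs.le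
  have hss := h.rl.hs
  have hc := h.rl.hc
  have hI : uIcc s s' = Icc s s' := uIcc_of_le hs
  have hsI : s' ∈ Icc s s' := right_mem_Icc.mpr hs
  have hΦ := h.b2
  have hY := h.Y2
  have hA := h.A0
  have hΦ0 := h.Φ0
  have hρ0 := h.ρ0
  have hρ1 := h.ρ1
  have hb1 := h.b1
  have hm2 := h.m2
  have hXi : IntervalIntegrable (fun r => |X r| ^ m) volume s s' :=
    KGap4_ci hs (h.rl.Xc.abs.pow m)
  have hYi := KGap4_ci hs h.Yc.abs
  have hϕi := KGap4_ci hs h.rl.ϕc.abs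
  have hlip : ∀ f : ℝ → ℝ, (∀ t ∈ Icc s s', ∀ r ∈ Icc s s', |f t - f r| ≤ K * |t - r|) →
      LipschitzOnWith (Real.toNNReal K) f (Icc s s') := by
    intro f hf
    refine LipschitzOnWith.of_dist_le_mul fun t ht r hr => ?_
    rw [Real.dist_eq, Real.dist_eq, Real.coe_toNNReal _ (by linarith)]
    exact hf t ht r hr
  have hgc : ContinuousOn g (Icc s s') := (hlip g h.rl.gl).continuousOn
  have hvc : ContinuousOn v (Icc s s') := (hlip v h.rl.vl).continuousOn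
  have hu : IntervalIntegrable u volume s s' := PT.prm_u h.rl.adm.1 h.rl.adm.2 s s'
  have hguv : IntervalIntegrable (fun r => g r * (u r - v r)) volume s s' := by
    apply (hu.sub (KGap4_ci hs hvc)).continuousOn_mul
    rw [hI]
    exact hgc
  have hguvb : ∀ t ∈ Icc s s', |g t * (u t - v t)| ≤ 2 * K := by
    intro t ht
    rw [abs_mul]
    have h1 : |u t - v t| ≤ 2 := by
      have h2 := abs_le.1 (h.rl.adm.2 t)
      have h3 := abs_le.1 (h.rl.v1 t ht)
      rw [abs_le]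
      constructor <;> linarith [h2.1, h2.2, h3.1, h3.2]
    calc |g t| * |u t - v t| ≤ K * 2 := mul_le_mul (h.rl.g1 t ht) h1 (abs_nonneg _) (by linarith)
      _ = 2 * K := by ring
  have hdi : IntervalIntegrable (fun r => b r * (g r * (u r - v r)) + ψ r) volume s s' := by
    refine IntervalIntegrable.add ?_ h.ψi
    apply hguv.continuousOn_mul
    rw [hI]
    exact h.bc
  obtain ⟨acD, dD⟩ := PT.prm_int hss hdi h.Deq
  have hDc : ContinuousOn D (Icc s s') := by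
    rw [← hI]
    exact acD.continuousOn
  obtain ⟨A, hAe⟩ : ∃ A, A = ∫ r in s..s', |X r| ^ m := ⟨_, rfl⟩
  obtain ⟨Φ, hΦe⟩ : ∃ Φ, Φ = ∫ r in s..s', |ϕ r| := ⟨_, rfl⟩
  obtain ⟨C, hC⟩ : ∃ C, C = 2 * ((m : ℝ) + 2) * K / c ^ 2 := ⟨_, rfl⟩
  have hC0 : 0 ≤ C := by rw [hC]; positivity
  obtain ⟨y, hye⟩ : ∃ y, y = ∫ r in s..s', |Y r| := ⟨_, rfl⟩
  have hy0 : 0 ≤ y := by
    rw [hye]
    exact intervalIntegral.integral_nonneg hs fun r _ => abs_nonneg _
  rw [← hC] at hd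
  rw [← hAe, ← hΦe, ← hC] at hΦ
  rw [← hAe, ← hye, ← hΦe] at hY
  rw [← hΦe, ← hAe] at hb1
  rw [← hAe] at hA ⊢
  rw [← hΦe] at hΦ0
  have hyR : y ≤ A + Φ := hY.trans (mul_le_of_le_one_left (by linarith) hρ1)
  -- the bound for `h = D + En`
  have hh : ∀ t ∈ Icc s s', |D t + TT.En ϕ g v t| ≤ (7 * C + 2) * K ^ 2 * A := by
    intro t ht
    have hsub : uIcc s t ⊆ uIcc s s' := by
      rw [hI, uIcc_of_le ht.1]
      exact Icc_subset_Icc_right ht.2
    have hsub' : Icc s t ⊆ Icc s s' := Icc_subset_Icc_right ht.2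
    have h2 := TT.rl_E h.rl t ht
    have hgn : IntervalIntegrable (fun r => g r * (u r - v r) * n r) volume s t := by
      have hn := h.rl.ni.mono_set hsub
      have hg' := hguv.mono_set hsub
      rw [intervalIntegrable_iff] at hn hg' ⊢
      refine Integrable.bdd_mul (c := 2 * K) hn hg'.aestronglyMeasurable ?_
      rw [ae_restrict_iff' measurableSet_uIoc]
      refine Eventually.of_forall fun r hr => ?_
      rw [uIoc_of_le ht.1] at hr
      rw [Real.norm_eq_abs]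
      exact hguvb r ⟨hr.1.le, hr.2.trans ht.2⟩
    have hpi : IntervalIntegrable (fun r => b r * (g r * (u r - v r)) + ψ r) volume s t :=
      hdi.mono_set hsub
    have hcG : ContinuousOn (fun r => 2 * K * (K * |ϕ r|) + K * (|X r| ^ m + |Y r| + |ϕ r|))
        (Icc s s') :=
      (continuousOn_const.mul (continuousOn_const.mul h.rl.ϕc.abs)).add
        (continuousOn_const.mul (((h.rl.Xc.abs.pow m).add h.Yc.abs).add h.rl.ϕc.abs))
    have h3 : |(∫ r in s..t, (b r * (g r * (u r - v r)) + ψ r)) +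
        ∫ r in s..t, g r * (u r - v r) * n r| ≤
        ∫ r in s..t, (2 * K * (K * |ϕ r|) + K * (|X r| ^ m + |Y r| + |ϕ r|)) := by
      rw [← intervalIntegral.integral_add hpi hgn]
      refine KGap4_le ht.1 (KGap4_ci ht.1 (hcG.mono hsub')) fun r hr => ?_
      have hr' := hsub' hr
      have e1 : b r * (g r * (u r - v r)) + ψ r + g r * (u r - v r) * n r =
          g r * (u r - v r) * (n r + b r) + ψ r := by ring
      rw [e1]
      refine (abs_add_le _ _).trans (add_le_add ?_ (h.ψb r hr'))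
      rw [abs_mul]
      exact mul_le_mul (hguvb r hr') (h.nb r hr') (abs_nonneg _) (by linarith)
    have h4 : ∫ r in s..t, (2 * K * (K * |ϕ r|) + K * (|X r| ^ m + |Y r| + |ϕ r|)) ≤
        2 * K ^ 2 * Φ + K * (A + y + Φ) := by
      have h5 := KGap4_mono ht hcG (fun r _ => by positivity)
      refine h5.trans (le_of_eq ?_)
      rw [intervalIntegral.integral_add ((hϕi.const_mul _).const_mul _)
        (((hXi.add hYi).add hϕi).const_mul _), intervalIntegral.integral_const_mul,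
        intervalIntegral.integral_const_mul, intervalIntegral.integral_const_mul,
        intervalIntegral.integral_add (hXi.add hYi) hϕi, intervalIntegral.integral_add hXi hYi,
        ← hAe, ← hΦe, ← hye]
      ring
    have h6 : ∫ r in s..t, |ϕ r| ≤ Φ := by
      rw [hΦe]
      exact KGap4_mono (G := fun r => |ϕ r|) ht h.rl.ϕc.abs (fun r _ => abs_nonneg _)
    have h7 : |D t + TT.En ϕ g v t| ≤
        |TT.En ϕ g v t - ∫ r in s..t, g r * (u r - v r) * n r| +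
        |(∫ r in s..t, (b r * (g r * (u r - v r)) + ψ r)) +
          ∫ r in s..t, g r * (u r - v r) * n r| := by
      have e1 : D t + TT.En ϕ g v t =
          (TT.En ϕ g v t - ∫ r in s..t, g r * (u r - v r) * n r) +
          ((∫ r in s..t, (b r * (g r * (u r - v r)) + ψ r)) +
            ∫ r in s..t, g r * (u r - v r) * n r) := by
        rw [h.Deq t ht]
        ring
      rw [e1]
      exact abs_add_le _ _
    have h9 : 3 * K ^ 2 * (∫ r in s..t, |ϕ r|) ≤ 3 * K ^ 2 * Φ :=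
      mul_le_mul_of_nonneg_left h6 (by positivity)
    have h10 : K ^ 2 * Φ ≤ K ^ 2 * (C * A) := mul_le_mul_of_nonneg_left hΦ (by positivity)
    have hKK : K ≤ K ^ 2 := by nlinarith
    have h11 : K * (A + y + Φ) ≤ K ^ 2 * (2 * A + 2 * Φ) :=
      mul_le_mul hKK (by linarith) (by linarith) (by positivity)
    calc |D t + TT.En ϕ g v t|
        ≤ 3 * K ^ 2 * Φ + (2 * K ^ 2 * Φ + K * (A + y + Φ)) := by linarith
      _ ≤ 3 * K ^ 2 * Φ + (2 * K ^ 2 * Φ + K ^ 2 * (2 * A + 2 * Φ)) := by linarith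
      _ = 7 * (K ^ 2 * Φ) + 2 * (K ^ 2 * A) := by ring
      _ ≤ 7 * (K ^ 2 * (C * A)) + 2 * (K ^ 2 * A) := by linarith
      _ = (7 * C + 2) * K ^ 2 * A := by ring
  -- the integral of `h`
  have hEi := KGap4_ci hs (TT.rl_En_cont h.rl)
  have hDi : IntervalIntegrable D volume s s' := KGap4_ci hs hDc
  have hκX : IntervalIntegrable (fun r => e r * X r ^ m) volume s s' :=
    KGap4_ci hs (h.ec.mul (h.rl.Xc.pow m))
  have hint1 : |∫ r in s..s', (D r + TT.En ϕ g v r)| ≤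
      (s' - s) * ((7 * C + 2) * K ^ 2 * A) := by
    refine (KGap4_le hs (KGap4_ci hs continuousOn_const) hh).trans (le_of_eq ?_)
    rw [intervalIntegral.integral_const, smul_eq_mul]
  have hint2 : |∫ r in s..s', (D r - e r * X r ^ m)| ≤
      K * (2 * K * (s' - s) * A + y) := by
    have h1 : |∫ r in s..s', (D r - e r * X r ^ m)| ≤
        ∫ r in s..s', K * (2 * K * (s' - s) * |X r| ^ m + |Y r|) := by
      refine KGap4_le hs (KGap4_ci hs (continuousOn_const.mul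
        ((continuousOn_const.mul (h.rl.Xc.abs.pow m)).add h.Yc.abs))) fun t ht => ?_
      have h2 : |X t| ^ (m + 1) ≤ 2 * K * (s' - s) * |X t| ^ m := by
        rw [pow_succ']
        exact mul_le_mul_of_nonneg_right (h.X1 t ht) (by positivity)
      exact (h.Db t ht).trans (mul_le_mul_of_nonneg_left (by linarith) (by linarith))
    refine h1.trans (le_of_eq ?_)
    rw [intervalIntegral.integral_const_mul, intervalIntegral.integral_add (hXi.const_mul _) hYi,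
      intervalIntegral.integral_const_mul, ← hAe, ← hye]
  obtain ⟨J, hJe⟩ : ∃ J, J = ∫ r in s..s', e r * X r ^ m := ⟨_, rfl⟩
  obtain ⟨E, hEe⟩ : ∃ E, E = ∫ r in s..s', TT.En ϕ g v r := ⟨_, rfl⟩
  have hsum : J + E = (∫ r in s..s', (D r + TT.En ϕ g v r)) -
      ∫ r in s..s', (D r - e r * X r ^ m) := by
    rw [intervalIntegral.integral_add hDi hEi, intervalIntegral.integral_sub hDi hκX, ← hJe,
      ← hEe]
    ring
  rw [← hJe, ← hEe] at hb1
  have h1 : |J + E| ≤ (s' - s) * ((7 * C + 2) * K ^ 2 * A) +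
      K * (2 * K * (s' - s) * A + y) := by
    rw [hsum]
    exact (abs_sub _ _).trans (add_le_add hint1 hint2)
  have h2 : (1 + (m : ℝ)) * |J| ≤ |J + E| + |E - m * J| := by
    have e1 : (1 + (m : ℝ)) * J = (J + E) - (E - m * J) := by ring
    calc (1 + (m : ℝ)) * |J| = |(1 + (m : ℝ)) * J| := by
          rw [abs_mul, abs_of_nonneg (by positivity : (0 : ℝ) ≤ 1 + m)]
      _ ≤ _ := by rw [e1]; exact abs_sub _ _
  have hF0 : ∀ t ∈ Icc s s', 0 ≤ X t ^ m := fun t _ => hm.pow_nonneg _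
  have h3 := KGap4_sign (F := fun t => X t ^ m) hs h.ec (h.rl.Xc.pow m) hc h.e0 hF0
  have h4 : ∫ r in s..s', X r ^ m = A := by
    rw [hAe]
    exact intervalIntegral.integral_congr fun t _ => (hm.pow_abs (X t)).symm
  rw [h4, ← hJe] at h3
  have hδ0 : 0 ≤ s' - s := by linarith
  have hy2 : y ≤ 2 * K * (s' - s) * ((1 + C) * A) :=
    hY.trans (mul_le_mul_of_nonneg_left (by linarith) hρ0)
  have h5 : K * (2 * K * (s' - s) * A + y) ≤ (s' - s) * ((2 * C + 4) * K ^ 2 * A) := by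
    have : K * (2 * K * (s' - s) * A + y) ≤
        K * (2 * K * (s' - s) * A + 2 * K * (s' - s) * ((1 + C) * A)) :=
      mul_le_mul_of_nonneg_left (by linarith) (by linarith)
    refine this.trans (le_of_eq ?_)
    ring
  have h6 : 2 * K * (s' - s) * (2 * K * (A + Φ)) ≤
      (s' - s) * ((4 * C + 4) * K ^ 2 * A) := by
    have : 2 * K * (s' - s) * (2 * K * (A + Φ)) ≤
        2 * K * (s' - s) * (2 * K * ((1 + C) * A)) :=
      mul_le_mul_of_nonneg_left
        (mul_le_mul_of_nonneg_left (by linarith) (by linarith)) hρ0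
    refine this.trans (le_of_eq ?_)
    ring
  have h7 : (1 + (m : ℝ)) * |J| ≤ c * A := by
    have h8 : (1 + (m : ℝ)) * |J| ≤ (s' - s) * ((13 * C + 10) * K ^ 2) * A := by
      have h9 : (1 + (m : ℝ)) * |J| ≤ (s' - s) * ((7 * C + 2) * K ^ 2 * A) +
          (s' - s) * ((2 * C + 4) * K ^ 2 * A) + (s' - s) * ((4 * C + 4) * K ^ 2 * A) := by
        linarith
      refine h9.trans (le_of_eq ?_)
      ring
    exact h8.trans (mul_le_mul_of_nonneg_right hd hA)
  have hmr : (2 : ℝ) ≤ m := by exact_mod_cast hm2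
  have h8 : A ≤ 0 := by
    by_contra hcon
    push Not at hcon
    have h9 : 0 < c * A := mul_pos hc hcon
    have h10 : 0 ≤ |J| := abs_nonneg _
    nlinarith
  linarith

end facts

theorem gap_four {K c : ℝ} (hK : 1 ≤ K) (hc : 0 < c) {m : ℕ} (hm : 2 ≤ m) :
    ∃ δ > 0, ∀ (s s' : ℝ) (X ϕ u g v n Y D b e ψ : ℝ → ℝ), s' - s ≤ δ →
      TT.Rl K c s s' X ϕ u g v n →
      ContinuousOn Y (Icc s s') → ContinuousOn b (Icc s s') → ContinuousOn e (Icc s s') →
      IntervalIntegrable ψ volume s s' →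
      (∀ t ∈ Icc s s', c ≤ |e t|) → (∀ t ∈ Icc s s', |e t| ≤ K) →
      (∀ t ∈ Icc s s', |n t + b t| ≤ K * |ϕ t|) →
      (∀ t ∈ Icc s s', D t = ∫ r in s..t, (b r * (g r * (u r - v r)) + ψ r)) →
      (∀ t ∈ Icc s s', |ψ t| ≤ K * (|X t| ^ m + |Y t| + |ϕ t|)) →
      (∀ t ∈ Icc s s', |D t - e t * X t ^ m| ≤ K * (|X t| ^ (m + 1) + |Y t|)) →
      (∀ t ∈ Icc s s', |b t - m * e t * X t ^ (m - 1)| ≤ K * (|X t| ^ m + |Y t|)) →
      (∀ t ∈ Icc s s', |Y t| ≤ K * ∫ r in s..t, (|X r| ^ m + |Y r| + |ϕ r|)) →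
      ∀ t ∈ Icc s s', X t = 0 := by
  have hK0 : 0 < K := by linarith
  obtain ⟨C, hC⟩ : ∃ C, C = 2 * ((m : ℝ) + 2) * K / c ^ 2 := ⟨_, rfl⟩
  have hC0 : 0 < C := by rw [hC]; positivity
  obtain ⟨C1, hC1⟩ : ∃ C1, C1 = 2 * K * (K * (2 * C + 2)) := ⟨_, rfl⟩
  obtain ⟨C2, hC2⟩ : ∃ C2, C2 = (13 * C + 10) * K ^ 2 := ⟨_, rfl⟩
  have hC10 : 0 < C1 := by rw [hC1]; positivity
  have hC20 : 0 < C2 := by rw [hC2]; positivity
  refine ⟨min (1 / (2 * K)) (min (c ^ 2 / (8 * K ^ 2)) (min (c / C1) (c / C2))),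
    by positivity, ?_⟩
  intro s s' X ϕ u g v n Y D b e ψ hδ hR hYc hbc hec hψi he0 he1 hnb hD hψb hDb hbb hYb
  have hd1 := hδ.trans (min_le_left _ _)
  have hδ' := hδ.trans (min_le_right _ _)
  have hd2 := hδ'.trans (min_le_left _ _)
  have hδ'' := hδ'.trans (min_le_right _ _)
  have hd3 := hδ''.trans (min_le_left _ _)
  have hd4 := hδ''.trans (min_le_right _ _)
  rw [le_div_iff₀ (by positivity)] at hd1 hd2 hd3 hd4
  have h : G4 K c m s s' X ϕ u g v n Y D b e ψ :=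
    ⟨hm, by linarith, by linarith, hR, hYc, hbc, hec, hψi, he0, he1, hnb, hD, hψb,
      hDb, hbb, hYb⟩
  have hA : ∫ r in s..s', |X r| ^ m = 0 := by
    rcases Nat.even_or_odd m with hme | hmo
    · refine h.even hme ?_
      rw [← hC, ← hC2]
      exact hd4
    · refine h.odd ?_ ?_
      · obtain ⟨k, hk⟩ := hmo
        exact ⟨k, by omega⟩
      · rw [← hC]
        rw [hC1] at hd3
        linarith
  have hs := hR.hs
  have hXm : ContinuousOn (fun r => |X r| ^ m) (Icc s s') := hR.Xc.abs.pow m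
  intro t ht
  by_contra hne
  have h1 : 0 < |X t| ^ m := by positivity
  have h2 : 0 < ∫ r in s..s', |X r| ^ m :=
    intervalIntegral.integral_pos hs hXm (fun r _ => by positivity) ⟨t, ht, h1⟩
  linarith

end Pool.Agent.Lib.MP_28b8de_an.KK
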