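import Pool.Agent.Lib.MP_28b8de_an.K.KDefs

/-!
MP_28b8de_an, module KGaps.

The gaps of a closed set.
PROOFS.  gaps: U := Ioo s s' \ C is open.  For x ∈ U let α(x) := sSup (C ∩ Icc s x), β(x) := sInf (C ∩ Icc x s') (the sets are compact and nonempty, s, s' ∈ C): α(x), β(x) ∈ C, α(x) < x < β(x), no point of C in (α(x),β(x)).
J := {rational x ∈ U}: countable, and every y ∈ U lies in (α(x),β(x)) for some x ∈ J (a rational x in (α(y),β(y)); then α(x) = α(y), β(x) = β(y)).  The set of pairs P := {(α(x),β(x)) | x ∈ U} = {(α(x),β(x)) | x ∈ J} is countable;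
two different pairs have disjoint intervals.  If P is empty take α i = β i = s.  Otherwise enumerate P by an injective function on a subset of ℕ: e.g. with e : P → ℕ injective (`Set.Countable` / `Encodable`), (α i, β i) := the pair p with e p = i if it exists,
and (s,s) otherwise.
gaps_sum: ∫_s^s' φ = ∫_{Ioo s s'} φ = ∫_{C ∩ Ioo s s'} φ + ∫_{Ioo s s' \ C} φ and `MeasureTheory.hasSum_integral_iUnion` (the intervals are measurable and pairwise disjoint); ∫ over Ioo (α i) (β i) = ∫ τ in (α i)..(β i) (α i ≤ β i, `intervalIntegral.integral_of_le`, `integral_Ioc_eq_integral_Ioo`).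
-/

set_option linter.unusedSectionVars false

namespace Pool.Agent.Lib.MP_28b8de_an.KK

open Filter Topology Set MeasureTheory
open Pool.Agent.Lib.MP_28b8de_an.PT (Adm Perf)
open Pool.Agent.Lib.MP_28b8de_an.TT (Env Sol Jn Tr SmAt Goal dx Dn Gen Lc Lp Lq fX cf)
open Pool.Agent.Lib.MP_28b8de_an.DD (LTraj LRep Ch)

private lemma kgaps_unique {C : Set ℝ} {a b a' b' : ℝ} (ha : a ∈ C) (hb : b ∈ C) (ha' : a' ∈ C)
    (hb' : b' ∈ C) (h : ∀ τ ∈ Ioo a b, τ ∉ C) (h' : ∀ τ ∈ Ioo a' b', τ ∉ C)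
    (hnd : ¬ Disjoint (Ioo a b) (Ioo a' b')) : a = a' ∧ b = b' := by
  rw [Set.not_disjoint_iff] at hnd
  obtain ⟨t, ⟨h1, h2⟩, h3, h4⟩ := hnd
  refine ⟨?_, ?_⟩
  · rcases lt_trichotomy a a' with h5 | h5 | h5
    · exact absurd ha' (h a' ⟨h5, h3.trans h2⟩)
    · exact h5
    · exact absurd ha (h' a ⟨h5, h1.trans h4⟩)
  · rcases lt_trichotomy b b' with h5 | h5 | h5
    · exact absurd hb (h' b ⟨h3.trans h2, h5⟩)
    · exact h5
    · exact absurd hb' (h b' ⟨h1.trans h4, h5⟩)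

private lemma kgaps_point {C : Set ℝ} (hC : IsClosed C) {s s' : ℝ} (h1 : s ∈ C) (h2 : s' ∈ C)
    {x : ℝ} (hx : x ∈ Ioo s s' \ C) : ∃ a b : ℝ, a ∈ C ∧ b ∈ C ∧ s ≤ a ∧ b ≤ s' ∧
      x ∈ Ioo a b ∧ ∀ τ ∈ Ioo a b, τ ∉ C := by
  obtain ⟨⟨hx1, hx2⟩, hxC⟩ := hx
  have hA : IsClosed (C ∩ Iic x) := hC.inter isClosed_Iic
  have hB : IsClosed (C ∩ Ici x) := hC.inter isClosed_Ici
  have hAb : BddAbove (C ∩ Iic x) := ⟨x, fun y hy => hy.2⟩
  have hBb : BddBelow (C ∩ Ici x) := ⟨x, fun y hy => hy.2⟩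
  have hAn : (C ∩ Iic x).Nonempty := ⟨s, h1, hx1.le⟩
  have hBn : (C ∩ Ici x).Nonempty := ⟨s', h2, hx2.le⟩
  have ha := hA.csSup_mem hAn hAb
  have hb := hB.csInf_mem hBn hBb
  have hax : sSup (C ∩ Iic x) < x := lt_of_le_of_ne ha.2 fun h => hxC (h ▸ ha.1)
  have hbx : x < sInf (C ∩ Ici x) := lt_of_le_of_ne hb.2 fun h => hxC (h.symm ▸ hb.1)
  refine ⟨_, _, ha.1, hb.1, le_csSup hAb ⟨h1, hx1.le⟩, csInf_le hBb ⟨h2, hx2.le⟩, ⟨hax, hbx⟩, ?_⟩
  rintro τ ⟨h3, h4⟩ hτ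
  rcases le_total τ x with h5 | h5
  · exact absurd (le_csSup hAb ⟨hτ, h5⟩) (not_le.mpr h3)
  · exact absurd (csInf_le hBb ⟨hτ, h5⟩) (not_le.mpr h4)

theorem gaps {C : Set ℝ} (hC : IsClosed C) {s s' : ℝ} (hs : s < s') (h1 : s ∈ C) (h2 : s' ∈ C) :
    ∃ α β : ℕ → ℝ, (∀ i, α i ∈ C ∧ β i ∈ C ∧ s ≤ α i ∧ α i ≤ β i ∧ β i ≤ s' ∧
        ∀ τ ∈ Ioo (α i) (β i), τ ∉ C) ∧
      (∀ i j, i ≠ j → Disjoint (Ioo (α i) (β i)) (Ioo (α j) (β j))) ∧
      Ioo s s' \ C = ⋃ i, Ioo (α i) (β i) := by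
  classical
  choose! a b ha hb hsa hbs hx hno using fun x (hx : x ∈ Ioo s s' \ C) =>
    kgaps_point hC h1 h2 hx
  let q : ℕ → ℝ := fun i => (((Denumerable.eqv ℚ).symm i : ℚ) : ℝ)
  let ok : ℕ → Prop := fun i => q i ∈ Ioo s s' \ C ∧ ∀ j < i, q j ∈ Ioo s s' \ C →
    a (q j) ≠ a (q i)
  let α : ℕ → ℝ := fun i => if ok i then a (q i) else s
  let β : ℕ → ℝ := fun i => if ok i then b (q i) else s
  have hα : ∀ i, ok i → α i = a (q i) := fun i hi => if_pos hi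
  have hβ : ∀ i, ok i → β i = b (q i) := fun i hi => if_pos hi
  have hα' : ∀ i, ¬ ok i → α i = s := fun i hi => if_neg hi
  have hβ' : ∀ i, ¬ ok i → β i = s := fun i hi => if_neg hi
  have hfirst : ∀ i, α i ∈ C ∧ β i ∈ C ∧ s ≤ α i ∧ α i ≤ β i ∧ β i ≤ s' ∧
        ∀ τ ∈ Ioo (α i) (β i), τ ∉ C := by
    intro i
    by_cases hi : ok i
    · rw [hα i hi, hβ i hi]
      exact ⟨ha _ hi.1, hb _ hi.1, hsa _ hi.1, ((hx _ hi.1).1.trans (hx _ hi.1).2).le, hbs _ hi.1,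
        hno _ hi.1⟩
    · rw [hα' i hi, hβ' i hi]
      refine ⟨h1, h1, le_rfl, le_rfl, hs.le, ?_⟩
      intro τ hτ
      exact absurd (hτ.1.trans hτ.2) (lt_irrefl _)
  have hdis : ∀ i j, j < i → Disjoint (Ioo (α i) (β i)) (Ioo (α j) (β j)) := by
    intro i j hji
    by_contra hnd
    have hi : ok i := by
      by_contra hi
      apply hnd
      rw [hα' i hi, hβ' i hi, Ioo_self]
      exact Set.empty_disjoint _
    have hj : ok j := by
      by_contra hj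
      apply hnd
      rw [hα' j hj, hβ' j hj, Ioo_self]
      exact Set.disjoint_empty _
    have h3 := kgaps_unique (hfirst i).1 (hfirst i).2.1 (hfirst j).1 (hfirst j).2.1
      (hfirst i).2.2.2.2.2 (hfirst j).2.2.2.2.2 hnd
    rw [hα i hi, hα j hj] at h3
    exact hi.2 j hji hj.1 h3.1.symm
  refine ⟨α, β, hfirst, ?_, ?_⟩
  · intro i j hij
    rcases lt_or_gt_of_ne hij with h | h
    · exact (hdis j i h).symm
    · exact hdis i j h
  · ext y
    rw [Set.mem_iUnion]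
    constructor
    · intro hy
      obtain ⟨r, hr1, hr2⟩ := exists_rat_btwn ((hx y hy).1.trans (hx y hy).2)
      have hrU : (r : ℝ) ∈ Ioo s s' \ C :=
        ⟨⟨(hsa y hy).trans_lt hr1, hr2.trans_le (hbs y hy)⟩, hno y hy _ ⟨hr1, hr2⟩⟩
      have hqr : q (Denumerable.eqv ℚ r) = r := by
        simp only [q, Equiv.symm_apply_apply]
      have hr3 : a r = a y := by
        refine (kgaps_unique (ha _ hrU) (hb _ hrU) (ha _ hy) (hb _ hy) (hno _ hrU) (hno _ hy) ?_).1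
        rw [Set.not_disjoint_iff]
        exact ⟨r, hx _ hrU, hr1, hr2⟩
      have hex : ∃ i, q i ∈ Ioo s s' \ C ∧ a (q i) = a y :=
        ⟨Denumerable.eqv ℚ r, by rw [hqr]; exact hrU, by rw [hqr]; exact hr3⟩
      obtain ⟨i, ⟨hi1, hi2⟩, hmin⟩ : ∃ i, (q i ∈ Ioo s s' \ C ∧ a (q i) = a y) ∧
          ∀ j < i, ¬ (q j ∈ Ioo s s' \ C ∧ a (q j) = a y) :=
        ⟨Nat.find hex, Nat.find_spec hex, fun j hj => Nat.find_min hex hj⟩
      have hi : ok i := ⟨hi1, fun j hj hj1 h3 => hmin j hj ⟨hj1, h3.trans hi2⟩⟩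
      have hbb : b (q i) = b y := by
        have h3 := hx _ hi1
        have h4 := hx _ hy
        rcases le_total (b (q i)) (b y) with h5 | h5
        · rcases h5.lt_or_eq with h5 | h5
          · exact absurd (hb _ hi1) (hno _ hy _ ⟨by rw [← hi2]; exact h3.1.trans h3.2, h5⟩)
          · exact h5
        · rcases h5.lt_or_eq with h5 | h5
          · exact absurd (hb _ hy) (hno _ hi1 _ ⟨by rw [hi2]; exact h4.1.trans h4.2, h5⟩)
          · exact h5.symm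
      refine ⟨i, ?_⟩
      rw [hα i hi, hβ i hi, hi2, hbb]
      exact hx y hy
    · rintro ⟨i, hi⟩
      obtain ⟨-, -, h3, -, h4, h5⟩ := hfirst i
      exact ⟨⟨h3.trans_lt hi.1, hi.2.trans_le h4⟩, h5 _ hi⟩

theorem gaps_sum {E : Type*} [NormedAddCommGroup E] [NormedSpace ℝ E] [CompleteSpace E]
    {C : Set ℝ} (hC : IsClosed C) {s s' : ℝ} (hs : s < s') {α β : ℕ → ℝ} (h1 : ∀ i, α i ≤ β i)
    (h2 : ∀ i j, i ≠ j → Disjoint (Ioo (α i) (β i)) (Ioo (α j) (β j)))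
    (h3 : Ioo s s' \ C = ⋃ i, Ioo (α i) (β i)) {φ : ℝ → E} (hφ : IntervalIntegrable φ volume s s') :
    HasSum (fun i => ∫ τ in (α i)..(β i), φ τ)
      ((∫ τ in s..s', φ τ) - ∫ τ in C ∩ Ioo s s', φ τ) := by
  have hint : IntegrableOn φ (Ioo s s') volume :=
    ((intervalIntegrable_iff_integrableOn_Ioo_of_le hs.le).mp hφ)
  have h4 : ∀ i, (∫ τ in (α i)..(β i), φ τ) = ∫ τ in Ioo (α i) (β i), φ τ := fun i => by
    rw [intervalIntegral.integral_of_le (h1 i), integral_Ioc_eq_integral_Ioo]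
  have h5 : (∫ τ in s..s', φ τ) - ∫ τ in C ∩ Ioo s s', φ τ = ∫ τ in ⋃ i, Ioo (α i) (β i), φ τ := by
    rw [← h3, intervalIntegral.integral_of_le hs.le, integral_Ioc_eq_integral_Ioo, Set.inter_comm,
      ← integral_inter_add_sdiff hC.measurableSet hint]
    abel
  rw [h5]
  simp only [h4]
  refine hasSum_integral_iUnion (fun i => measurableSet_Ioo) (fun i j hij => h2 i j hij) ?_
  rw [← h3]
  exact hint.mono_set Set.sdiff_subset

end Pool.Agent.Lib.MP_28b8de_an.KK
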