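import Pool.Agent.Lib.MP_28b8de_an.K.KBMono

/-!
MP_28b8de_an, module KHam.

The Hamiltonian is constant.
PROOF.  H t := lam f + ϕ k + |ϕ| + η along the curve.  On compact subintervals s, X, lam, ϕ are Lipschitz and f, k, η are locally Lipschitz, so H is Lipschitz; it is enough that H' = 0 a.e. (`AbsolutelyContinuousOnInterval.integral_deriv_eq_sub`).
a.e. X' = k + u (derivative of an integral), and with A := lam Dn f + ϕ Dn k + Dn η, B := lam Ds f + ϕ Ds k + Ds η: lam' = -B, ϕ' = -A, s' = f: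
(lam f + ϕ k + η)' = -B f - A k + B f + A (k + u) = u A = -u ϕ'.  |ϕ|' = u ϕ' a.e.: where ϕ ≠ 0, u = sgn ϕ (BD.us); a.e. on {ϕ = 0} ϕ' = 0 and |ϕ|' = 0 (density points; see P/PRelMin.lean, lemmas prm_*, and `rl_E` in T/TRl.lean,
where the same identity |σ(t)| - |σ(s)| = ∫ u σ' is proved).
-/

set_option linter.unusedSectionVars false

namespace Pool.Agent.Lib.MP_28b8de_an.KK

open Filter Topology Set MeasureTheory
open Pool.Agent.Lib.MP_28b8de_an.PT (Adm Perf)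
open Pool.Agent.Lib.MP_28b8de_an.TT (Env Sol Jn Tr SmAt Goal dx Dn Gen Lc Lp Lq fX cf)
open Pool.Agent.Lib.MP_28b8de_an.DD (LTraj LRep Ch)

private theorem KHam_lipd {g g' : ℝ → ℝ} {r t : ℝ} (hd : ∀ τ ∈ Icc r t, HasDerivAt g (g' τ) τ)
    (hc : ContinuousOn g' (Icc r t)) : ∃ C : NNReal, LipschitzOnWith C g (Icc r t) := by
  obtain ⟨C, hC⟩ := isCompact_Icc.exists_bound_of_continuousOn hc
  refine ⟨C.toNNReal, ?_⟩
  refine (convex_Icc r t).lipschitzOnWith_of_nnnorm_hasDerivWithin_le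
    (fun τ hτ => (hd τ hτ).hasDerivWithinAt) fun τ hτ => ?_
  rw [← NNReal.coe_le_coe, coe_nnnorm]
  exact (hC τ hτ).trans (Real.le_coe_toNNReal C)

private theorem KHam_comp {g : ℝ × ℝ → ℝ} {s X : ℝ → ℝ} {r t : ℝ} {Cs CX : NNReal}
    (hs : LipschitzOnWith Cs s (Icc r t)) (hX : LipschitzOnWith CX X (Icc r t))
    (hg : ∀ τ ∈ Icc r t, AnalyticAt ℝ g (s τ, X τ)) :
    ∃ C : NNReal, LipschitzOnWith C (fun τ => g (s τ, X τ)) (Icc r t) := by
  refine LocallyLipschitzOn.exists_lipschitzOnWith_of_compact isCompact_Icc ?_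
  intro τ hτ
  obtain ⟨K, U, hU, hK⟩ := ((hg τ hτ).contDiffAt (n := 1)).exists_lipschitzOnWith
  have hc : ContinuousWithinAt (fun τ => (s τ, X τ)) (Icc r t) τ :=
    (hs.continuousOn τ hτ).prodMk (hX.continuousOn τ hτ)
  have h1 := hc.preimage_mem_nhdsWithin hU
  refine ⟨K * max Cs CX, (fun τ => (s τ, X τ)) ⁻¹' U ∩ Icc r t,
    inter_mem h1 self_mem_nhdsWithin, ?_⟩
  have h2 : LipschitzOnWith (max Cs CX) (fun τ => (s τ, X τ))
      ((fun τ => (s τ, X τ)) ⁻¹' U ∩ Icc r t) :=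
    (hs.mono inter_subset_right).prodMk (hX.mono inter_subset_right)
  exact hK.comp h2 fun x hx => hx.1

private theorem KHam_lt {f k η : ℝ × ℝ → ℝ} {u : ℝ → ℝ} {a b : ℝ} {s X lam ϕ : ℝ → ℝ}
    (h : BD f k η u a b s X lam ϕ) {r t : ℝ} (hr : r ∈ Ioo a b) (ht : t ∈ Ioo a b) (hrt : r < t) :
      lam t * f (s t, X t) + ϕ t * k (s t, X t) + |ϕ t| + η (s t, X t) =
        lam r * f (s r, X r) + ϕ r * k (s r, X r) + |ϕ r| + η (s r, X r) := by
  have hI : Icc r t ⊆ Ioo a b := fun x hx => ⟨hr.1.trans_le hx.1, hx.2.trans_lt ht.2⟩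
  have hU : uIcc r t = Icc r t := uIcc_of_le hrt.le
  have cs : ContinuousOn s (Icc r t) := fun x hx => (h.sd x (hI hx)).continuousAt.continuousWithinAt
  have cX : ContinuousOn X (Icc r t) := h.Xc.mono hI
  have cl : ContinuousOn lam (Icc r t) :=
    fun x hx => (h.ld x (hI hx)).continuousAt.continuousWithinAt
  have cϕ : ContinuousOn ϕ (Icc r t) :=
    fun x hx => (h.ϕd x (hI hx)).continuousAt.continuousWithinAt
  have cp : ContinuousOn (fun τ => (s τ, X τ)) (Icc r t) := cs.prodMk cX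
  have c0 : ∀ g : ℝ × ℝ → ℝ, (∀ τ ∈ Ioo a b, AnalyticAt ℝ g (s τ, X τ)) →
      ContinuousOn (fun τ => g (s τ, X τ)) (Icc r t) := fun g hg x hx =>
    ContinuousAt.comp_continuousWithinAt (f := fun τ => (s τ, X τ)) (hg x (hI hx)).continuousAt
      (cp x hx)
  have c1 : ∀ g : ℝ × ℝ → ℝ, (∀ τ ∈ Ioo a b, AnalyticAt ℝ g (s τ, X τ)) →
      ∀ v : ℝ × ℝ, ContinuousOn (fun τ => fderiv ℝ g (s τ, X τ) v) (Icc r t) := by
    intro g hg v x hx
    have h1 : ContinuousAt (fun z => fderiv ℝ g z v) (s x, X x) :=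
      (hg x (hI hx)).fderiv.continuousAt.clm_apply continuousAt_const
    exact ContinuousAt.comp_continuousWithinAt (f := fun τ => (s τ, X τ)) h1 (cp x hx)
  have cB : ContinuousOn (fun τ => -(lam τ * Ds f (s τ, X τ) + ϕ τ * Ds k (s τ, X τ) +
      Ds η (s τ, X τ))) (Icc r t) :=
    (((cl.mul (c1 f h.fa (1, 0))).add (cϕ.mul (c1 k h.ka (1, 0)))).add (c1 η h.ηa (1, 0))).neg
  have cA : ContinuousOn (fun τ => -(lam τ * Dn f (s τ, X τ) + ϕ τ * Dn k (s τ, X τ) +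
      Dn η (s τ, X τ))) (Icc r t) :=
    (((cl.mul (c1 f h.fa (0, 1))).add (cϕ.mul (c1 k h.ka (0, 1)))).add (c1 η h.ηa (0, 1))).neg
  obtain ⟨Cs, ls⟩ := KHam_lipd (fun τ hτ => h.sd τ (hI hτ)) (c0 f h.fa)
  obtain ⟨Cl, ll⟩ := KHam_lipd (fun τ hτ => h.ld τ (hI hτ)) cB
  obtain ⟨Cϕ, lϕ⟩ := KHam_lipd (fun τ hτ => h.ϕd τ (hI hτ)) cA
  -- `X` is Lipschitz
  obtain ⟨Ck, hCk⟩ := isCompact_Icc.exists_bound_of_continuousOn (c0 k h.ka)
  have lX : LipschitzOnWith (Ck + 1).toNNReal X (Icc r t) := by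
    refine LipschitzOnWith.of_dist_le_mul fun x hx y hy => ?_
    have hsub : uIoc y x ⊆ Icc r t :=
      uIoc_subset_uIcc.trans (uIcc_subset_Icc hy hx)
    rw [Real.dist_eq, h.Xeq y (hI hy) x (hI hx)]
    have h1 := intervalIntegral.norm_integral_le_of_norm_le_const (a := y) (b := x)
      (C := Ck + 1) (f := fun τ => k (s τ, X τ) + u τ) (fun τ hτ => by
        refine (norm_add_le _ _).trans (add_le_add (hCk τ (hsub hτ)) ?_)
        rw [Real.norm_eq_abs]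
        exact h.adm.2 τ)
    rw [Real.norm_eq_abs] at h1
    refine h1.trans ?_
    rw [Real.dist_eq]
    exact mul_le_mul_of_nonneg_right (Real.le_coe_toNNReal _) (abs_nonneg _)
  obtain ⟨Cf, lf⟩ := KHam_comp ls lX fun τ hτ => h.fa τ (hI hτ)
  obtain ⟨Ck', lk⟩ := KHam_comp ls lX fun τ hτ => h.ka τ (hI hτ)
  obtain ⟨Cη, lη⟩ := KHam_comp ls lX fun τ hτ => h.ηa τ (hI hτ)
  obtain ⟨acl, -⟩ := PT.prm_lip hrt ll
  obtain ⟨acϕ, -⟩ := PT.prm_lip hrt lϕ
  obtain ⟨acf, -⟩ := PT.prm_lip hrt lf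
  obtain ⟨ack, -⟩ := PT.prm_lip hrt lk
  obtain ⟨acη, -⟩ := PT.prm_lip hrt lη
  -- derivative of `X`
  have hku : IntervalIntegrable (fun τ => k (s τ, X τ) + u τ) volume r t := by
    refine IntervalIntegrable.add ?_ (PT.prm_u h.adm.1 h.adm.2 r t)
    apply ContinuousOn.intervalIntegrable
    rw [hU]
    exact c0 k h.ka
  obtain ⟨-, dX⟩ := PT.prm_int (f := fun τ => X τ - X r) hrt hku
    fun τ hτ => h.Xeq r hr τ (hI hτ)
  have dϕ : ∀ᵐ τ, τ ∈ uIoc r t → HasDerivAt ϕ (-(lam τ * Dn f (s τ, X τ) +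
      ϕ τ * Dn k (s τ, X τ) + Dn η (s τ, X τ))) τ := by
    refine Eventually.of_forall fun τ hτ => h.ϕd τ (hI ?_)
    rw [← hU]
    exact uIoc_subset_uIcc hτ
  have hus : ∀ᵐ τ, τ ∈ uIoc r t → u τ * ϕ τ = |ϕ τ| := by
    filter_upwards [h.us] with τ h1 hτ
    refine h1 (hI ?_)
    rw [← hU]
    exact uIoc_subset_uIcc hτ
  have dabs := der_abs acϕ dϕ hus
  have acH : AbsolutelyContinuousOnInterval (fun τ => lam τ * f (s τ, X τ) +
      ϕ τ * k (s τ, X τ) + |ϕ τ| + η (s τ, X τ)) r t :=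
    (((acl.fun_mul acf).fun_add (acϕ.fun_mul ack)).fun_add (ac_abs acϕ)).fun_add acη
  have hftc := acH.integral_deriv_eq_sub
  have h0 : ∫ τ in r..t, deriv (fun τ => lam τ * f (s τ, X τ) +
      ϕ τ * k (s τ, X τ) + |ϕ τ| + η (s τ, X τ)) τ = ∫ τ in r..t, (0 : ℝ) := by
    apply intervalIntegral.integral_congr_ae
    filter_upwards [dX, dabs] with τ h1 h2 hτ
    have hτI : τ ∈ Ioo a b := by
      refine hI ?_
      rw [← hU]
      exact uIoc_subset_uIcc hτ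
    have dX' : HasDerivAt X (k (s τ, X τ) + u τ) τ := by
      have h3 := (h1 hτ).add_const (X r)
      simpa using h3
    have dp : HasDerivAt (fun τ => (s τ, X τ)) (f (s τ, X τ), k (s τ, X τ) + u τ) τ :=
      (h.sd τ hτI).prodMk dX'
    have dg : ∀ g : ℝ × ℝ → ℝ, AnalyticAt ℝ g (s τ, X τ) →
        HasDerivAt (fun τ => g (s τ, X τ))
          (f (s τ, X τ) * Ds g (s τ, X τ) + (k (s τ, X τ) + u τ) * Dn g (s τ, X τ)) τ := by
      intro g hg
      have h3 := hg.differentiableAt.hasFDerivAt.comp_hasDerivAt τ dp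
      have h4 : fderiv ℝ g (s τ, X τ) (f (s τ, X τ), k (s τ, X τ) + u τ) =
          f (s τ, X τ) * Ds g (s τ, X τ) + (k (s τ, X τ) + u τ) * Dn g (s τ, X τ) := by
        have h5 : ((f (s τ, X τ), k (s τ, X τ) + u τ) : ℝ × ℝ) =
            f (s τ, X τ) • ((1, 0) : ℝ × ℝ) + (k (s τ, X τ) + u τ) • ((0, 1) : ℝ × ℝ) := by
          ext <;> simp
        rw [h5, map_add, map_smul, map_smul]
        rfl
      rw [← h4]
      exact h3
    have dH := ((((h.ld τ hτI).mul (dg f (h.fa τ hτI))).add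
      ((h.ϕd τ hτI).mul (dg k (h.ka τ hτI)))).add (h2 hτ)).add (dg η (h.ηa τ hτI))
    refine HasDerivAt.deriv (dH.congr_deriv ?_)
    ring
  rw [h0, intervalIntegral.integral_zero] at hftc
  linarith

theorem bd_ham {f k η : ℝ × ℝ → ℝ} {u : ℝ → ℝ} {a b : ℝ} {s X lam ϕ : ℝ → ℝ}
    (h : BD f k η u a b s X lam ϕ) : ∀ r ∈ Ioo a b, ∀ t ∈ Ioo a b,
      lam t * f (s t, X t) + ϕ t * k (s t, X t) + |ϕ t| + η (s t, X t) =
        lam r * f (s r, X r) + ϕ r * k (s r, X r) + |ϕ r| + η (s r, X r) := by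
  intro r hr t ht
  rcases lt_trichotomy r t with hlt | heq | hgt
  · exact KHam_lt h hr ht hlt
  · rw [heq]
  · exact (KHam_lt h ht hr hgt).symm

end Pool.Agent.Lib.MP_28b8de_an.KK
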