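import Pool.Agent.Lib.MP_28b8de_an.K.KMain
import Pool.Agent.Lib.MP_28b8de_an.K.KInr
import Pool.Agent.Lib.MP_28b8de_an.D.DZ

/-!
MP_28b8de_an, module KLin.

Systems with costs only.
PROOF.  lin_red: ζ analytic at t₀ with ζ' = h₀ (α t), ζ t₀ = h₀ (y t₀) (`DD.ode_ex` with H (t,z) := h₀ (α t)).  Along the trajectory (h₀ y)' = h₀ (α t) near t₀ (ltraj_hd with l = h₀, h₀ (β t) = 0), so h₀ (y t) = ζ t near t₀.
Θ (t,y') := j y' + ζ t • e : ℝ × Y' → Y; fderiv Θ (1, π (α t)) = j (π (α t)) + ζ' t • e = α t, fderiv Θ (0, π (β t)) = j (π (β t)) = β t (h₀ (β t) = 0), y t = Θ (t, π (y t)): `DD.lrep_push`.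
lin_lrep: induction on n.  lrep_main (ρ such that α, β are analytic at all t with |t - t₀| < ρ, and ρ < t₀).  Given Cx: dx (FL α) = 0 (FL α does not depend on y: as in cx_inr), so p t = h₀ is constant on (a,b), h₀ ≠ 0 (n = 0: impossible, Y is trivial).
h₀ (β t) = 0 for t ∈ C (Cx.sg), t₁ ∈ C (Perf.ne): h₀ (β t) = 0 near t₁ (`TT.perf_ev`).  ker_split, the induction hypothesis for the trajectory t ↦ π (y t) (ltraj_lin, with FL (π α), FL (π β)) and lin_red give LRep at t₁, lgoal_of_lrep.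
-/

set_option linter.unusedSectionVars false

namespace Pool.Agent.Lib.MP_28b8de_an.KK

open Filter Topology Set MeasureTheory
open Pool.Agent.Lib.MP_28b8de_an.PT (Adm Perf)
open Pool.Agent.Lib.MP_28b8de_an.TT (Env Sol Jn Tr SmAt Goal dx Dn Gen Lc Lp Lq fX cf)
open Pool.Agent.Lib.MP_28b8de_an.DD (LTraj LRep Ch)

universe v

private theorem KLin_an {Y : Type*} [NormedAddCommGroup Y] [NormedSpace ℝ Y] {α : ℝ → Y} {t : ℝ}
    (h : AnalyticAt ℝ α t) (y : Y) : AnalyticAt ℝ (FL α) (t, y) :=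
  AnalyticAt.fun_comp (g := α) (f := fun z : ℝ × Y => z.1) h analyticAt_fst

private theorem KLin_const {f g : ℝ → ℝ} {t₀ : ℝ} {d : ℝ → ℝ} (hf : ∀ᶠ t in 𝓝 t₀, HasDerivAt f (d t) t)
    (hg : ∀ᶠ t in 𝓝 t₀, HasDerivAt g (d t) t) (h0 : f t₀ = g t₀) : ∀ᶠ t in 𝓝 t₀, f t = g t := by
  obtain ⟨η, hη, hJ⟩ := Metric.eventually_nhds_iff_ball.1 (hf.and hg)
  have hmem : ∀ t ∈ Ioo (t₀ - η) (t₀ + η), t ∈ Metric.ball t₀ η := by
    intro t ht
    rw [Real.ball_eq_Ioo]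
    exact ht
  have ht0 : t₀ ∈ Ioo (t₀ - η) (t₀ + η) := ⟨by linarith, by linarith⟩
  have h4 : ∀ s ∈ Ioo (t₀ - η) (t₀ + η), HasDerivAt (fun t => f t - g t) 0 s := fun s hs => by
    have := (hJ s (hmem s hs)).1.sub (hJ s (hmem s hs)).2
    rwa [sub_self] at this
  filter_upwards [isOpen_Ioo.mem_nhds ht0] with t ht
  have h5 := isOpen_Ioo.is_const_of_deriv_eq_zero isPreconnected_Ioo
    (fun s hs => (h4 s hs).differentiableAt.differentiableWithinAt) (fun s hs => (h4 s hs).deriv) ht ht0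
  have h6 : f t - g t = f t₀ - g t₀ := h5
  rw [h0, sub_self] at h6
  linarith

theorem lin_red {Y Y' : Type*} [NormedAddCommGroup Y] [NormedSpace ℝ Y] [FiniteDimensional ℝ Y]
    [NormedAddCommGroup Y'] [NormedSpace ℝ Y'] [FiniteDimensional ℝ Y'] {h₀ : Y →L[ℝ] ℝ}
    (π : Y →L[ℝ] Y') (j : Y' →L[ℝ] Y) (e : Y) (hj : ∀ y : Y, y = j (π y) + h₀ y • e)
    {α β : ℝ → Y} {u : ℝ → ℝ} (hu : Adm u) {y : ℝ → Y} {t₀ : ℝ} (hα : AnalyticAt ℝ α t₀)
    (hβ : AnalyticAt ℝ β t₀) (hy : LTraj (FL α) (FL β) u y t₀)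
    (h0 : ∀ᶠ t in 𝓝 t₀, h₀ (β t) = 0)
    (H : LRep (FL fun t => π (α t)) (FL fun t => π (β t)) (fun t => π (y t)) t₀) :
    LRep (FL α) (FL β) y t₀ := by
  have hH : AnalyticAt ℝ (fun z : ℝ × ℝ => h₀ (α z.1)) (t₀, h₀ (y t₀)) :=
    AnalyticAt.fun_comp (g := fun v : Y => h₀ v) (f := fun z : ℝ × ℝ => α z.1) (h₀.analyticAt _)
      (AnalyticAt.fun_comp (g := α) (f := fun z : ℝ × ℝ => z.1) hα analyticAt_fst)
  obtain ⟨ζ, hζa, hζ0, hζd⟩ := DD.ode_ex hH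
  have hfst : Tendsto (fun z : ℝ × Y => z.1) (𝓝 (t₀, y t₀)) (𝓝 t₀) := continuous_fst.tendsto _
  have hd := DD.ltraj_hd hu hy h₀ (KLin_an hα _) (KLin_an hβ _) (by
    filter_upwards [hfst.eventually h0] with z hz
    exact hz)
  have hEq : ∀ᶠ t in 𝓝 t₀, h₀ (y t) = ζ t :=
    KLin_const (d := fun t => h₀ (α t)) hd hζd hζ0.symm
  have hΘd : ∀ᶠ w : ℝ × Y' in 𝓝 (t₀, π (y t₀)),
      HasFDerivAt (fun w : ℝ × Y' => j w.2 + ζ w.1 • e)
        (j.comp (ContinuousLinearMap.snd ℝ ℝ Y') +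
          ((h₀ (α w.1)) • ContinuousLinearMap.fst ℝ ℝ Y').smulRight e) w := by
    have hfst' : Tendsto (fun z : ℝ × Y' => z.1) (𝓝 (t₀, π (y t₀))) (𝓝 t₀) :=
      continuous_fst.tendsto _
    filter_upwards [hfst'.eventually hζd] with w hw
    have h1 : HasFDerivAt (fun w : ℝ × Y' => j w.2) (j.comp (ContinuousLinearMap.snd ℝ ℝ Y')) w :=
      j.hasFDerivAt.comp w (ContinuousLinearMap.snd ℝ ℝ Y').hasFDerivAt
    have h2 : HasFDerivAt (fun w : ℝ × Y' => ζ w.1) ((h₀ (α w.1)) • ContinuousLinearMap.fst ℝ ℝ Y') w :=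
      hw.comp_hasFDerivAt w (ContinuousLinearMap.fst ℝ ℝ Y').hasFDerivAt
    exact h1.add (h2.smul_const e)
  refine DD.lrep_push (Θ := fun w : ℝ × Y' => j w.2 + ζ w.1 • e) (Fp := FL fun t => π (α t))
    (Gp := FL fun t => π (β t)) (r := fun t => π (y t)) ?_ ?_ ?_ ?_ ?_ ?_ H
  · exact KLin_an (AnalyticAt.fun_comp (g := fun v : Y => π v) (f := α) (π.analyticAt _) hα) _
  · exact KLin_an (AnalyticAt.fun_comp (g := fun v : Y => π v) (f := β) (π.analyticAt _) hβ) _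
  · have h1 : AnalyticAt ℝ (fun w : ℝ × Y' => j w.2) (t₀, π (y t₀)) :=
      AnalyticAt.fun_comp (g := fun v : Y' => j v) (f := fun w : ℝ × Y' => w.2) (j.analyticAt _)
        analyticAt_snd
    have h2 : AnalyticAt ℝ (fun w : ℝ × Y' => ζ w.1) (t₀, π (y t₀)) :=
      AnalyticAt.fun_comp (g := ζ) (f := fun w : ℝ × Y' => w.1) hζa analyticAt_fst
    exact h1.add (h2.smul analyticAt_const)
  · filter_upwards [hΘd] with w hw
    rw [hw.fderiv]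
    show j (π (α w.1)) + (h₀ (α w.1) * 1) • e = α w.1
    rw [mul_one]
    exact (hj (α w.1)).symm
  · have hfst' : Tendsto (fun z : ℝ × Y' => z.1) (𝓝 (t₀, π (y t₀))) (𝓝 t₀) :=
      continuous_fst.tendsto _
    filter_upwards [hΘd, hfst'.eventually h0] with w hw hw0
    rw [hw.fderiv]
    show j (π (β w.1)) + (h₀ (α w.1) * 0) • e = β w.1
    have h1 := hj (β w.1)
    rw [hw0, zero_smul, add_zero] at h1
    rw [mul_zero, zero_smul, add_zero]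
    exact h1.symm
  · filter_upwards [hEq] with t ht
    have h1 := hj (y t)
    rw [ht] at h1
    exact h1

/-- the multiplier is constant -/
private theorem KLin_mult {Y : Type*} [NormedAddCommGroup Y] [NormedSpace ℝ Y] [FiniteDimensional ℝ Y]
    {α β : ℝ → Y} {u : ℝ → ℝ} {y : ℝ → Y} {a b : ℝ} {p : ℝ → Y →L[ℝ] ℝ} {C : Set ℝ}
    (hα : ∀ t ∈ Ioo a b, AnalyticAt ℝ α t) (hβ : ∀ t ∈ Ioo a b, AnalyticAt ℝ β t)
    (h : Cx (FL α) (FL β) u y a b p C) : ∀ s ∈ Ioo a b, ∀ t ∈ Ioo a b, p t = p s := by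
  have hdx : ∀ (γ : ℝ → Y) (t : ℝ) (z v : Y), AnalyticAt ℝ γ t → dx (FL γ) (t, z) v = 0 := by
    intro γ t z v hγ
    have h1 : HasFDerivAt (FL γ) ((fderiv ℝ γ t).comp (ContinuousLinearMap.fst ℝ ℝ Y)) (t, z) :=
      HasFDerivAt.comp (g := γ) (f := fun z : ℝ × Y => z.1) (t, z)
        hγ.differentiableAt.hasFDerivAt (ContinuousLinearMap.fst ℝ ℝ Y).hasFDerivAt
    show fderiv ℝ (FL γ) (t, z) (0, v) = 0
    rw [h1.fderiv]
    show fderiv ℝ γ t 0 = 0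
    rw [map_zero]
  intro s hs t ht
  ext v
  have h1 := h.peq v s hs t ht
  have h2 : ∫ τ in s..t, p τ ((dx (FL α) (τ, y τ) + u τ • dx (FL β) (τ, y τ)) v) = 0 := by
    rw [intervalIntegral.integral_congr (g := fun _ => (0 : ℝ)), intervalIntegral.integral_zero]
    intro τ hτ
    have hτ' : τ ∈ Ioo a b := ordConnected_Ioo.uIcc_subset hs ht hτ
    show p τ ((dx (FL α) (τ, y τ)) v + u τ • (dx (FL β) (τ, y τ)) v) = 0
    rw [hdx α τ _ v (hα τ hτ'), hdx β τ _ v (hβ τ hτ'), smul_zero, add_zero, map_zero]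
  rw [h2, neg_zero] at h1
  linarith

private theorem KLin_step {Y : Type v} [NormedAddCommGroup Y] [NormedSpace ℝ Y]
    [FiniteDimensional ℝ Y] {α β : ℝ → Y} {u : ℝ → ℝ} {y : ℝ → Y} {t₀ : ℝ} (ht₀ : 0 < t₀)
    (hu : Adm u) (hα : AnalyticAt ℝ α t₀) (hβ : AnalyticAt ℝ β t₀)
    (hy : LTraj (FL α) (FL β) u y t₀)
    (IH : ∀ h₀ : Y →L[ℝ] ℝ, h₀ ≠ 0 → ∃ (Y' : Type v) (_ : NormedAddCommGroup Y')
      (_ : NormedSpace ℝ Y') (_ : FiniteDimensional ℝ Y') (π : Y →L[ℝ] Y') (j : Y' →L[ℝ] Y) (e : Y),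
      (∀ y : Y, y = j (π y) + h₀ y • e) ∧
      ∀ (α' β' : ℝ → Y') (y' : ℝ → Y') (t₂ : ℝ), 0 < t₂ → AnalyticAt ℝ α' t₂ → AnalyticAt ℝ β' t₂ →
        LTraj (FL α') (FL β') u y' t₂ → LRep (FL α') (FL β') y' t₂) :
    LRep (FL α) (FL β) y t₀ := by
  obtain ⟨ρ, hρ, hball⟩ := Metric.eventually_nhds_iff_ball.1
    (hα.eventually_analyticAt.and hβ.eventually_analyticAt)
  refine lrep_main hu ht₀ (KLin_an hα _) (KLin_an hβ _) hy hρ ?_
  intro a b p C ha hb hx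
  rw [abs_lt] at ha hb
  have hin : ∀ t ∈ Ioo a b, AnalyticAt ℝ α t ∧ AnalyticAt ℝ β t := fun t ht => hball t (by
    rw [Metric.mem_ball, Real.dist_eq, abs_lt]
    exact ⟨by linarith [ht.1], by linarith [ht.2]⟩)
  have hp := KLin_mult (fun t ht => (hin t ht).1) (fun t ht => (hin t ht).2) hx
  obtain ⟨t₁, ht₁⟩ := hx.perf.ne
  have ht₁ab := hx.sub ht₁
  have hpos : 0 < t₁ := lt_of_le_of_lt hx.a0 ht₁ab.1
  obtain ⟨i1, i2⟩ := hin t₁ ht₁ab
  have hz : ∀ᶠ t in 𝓝 t₁, p t₁ (β t) = 0 := by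
    refine TT.perf_ev hx.perf ht₁ (f := fun t => p t₁ (β t)) ?_ ?_
    · exact AnalyticAt.fun_comp (g := fun v : Y => p t₁ v) (f := β) ((p t₁).analyticAt _) i2
    · refine Filter.Eventually.of_forall fun t ht => ?_
      have h1 := hx.sg t ht
      rw [hp t₁ ht₁ab t (hx.sub ht)] at h1
      exact h1
  obtain ⟨Y', i5, i6, i7, π, j, e, hj, hIH⟩ := IH (p t₁) (hx.pn t₁ ht₁ab)
  have : CompleteSpace Y' := FiniteDimensional.complete ℝ Y'
  refine lgoal_of_lrep ht₁ (KLin_an i1 _) (KLin_an i2 _) ?_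
  have htr := hx.tr t₁ ht₁ab
  refine lin_red π j e hj hu i1 i2 htr hz ?_
  refine hIH _ _ _ t₁ hpos
    (AnalyticAt.fun_comp (g := fun v : Y => π v) (f := α) (π.analyticAt _) i1)
    (AnalyticAt.fun_comp (g := fun v : Y => π v) (f := β) (π.analyticAt _) i2) ?_
  exact ltraj_lin (F' := FL fun t => π (α t)) (G' := FL fun t => π (β t)) hu (KLin_an i1 _)
    (KLin_an i2 _) htr π (fun z => rfl) (fun z => rfl)

theorem lin_lrep (n : ℕ) : ∀ (Y : Type v) [NormedAddCommGroup Y] [NormedSpace ℝ Y]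
    [FiniteDimensional ℝ Y], Module.finrank ℝ Y = n → ∀ (α β : ℝ → Y) (u : ℝ → ℝ) (y : ℝ → Y)
    (t₀ : ℝ), 0 < t₀ → Adm u → AnalyticAt ℝ α t₀ → AnalyticAt ℝ β t₀ →
    LTraj (FL α) (FL β) u y t₀ → LRep (FL α) (FL β) y t₀ := by
  induction n with
  | zero =>
    intro Y _ _ _ hY α β u y t₀ ht₀ hu hα hβ hy
    refine KLin_step ht₀ hu hα hβ hy fun h₀ hh₀ => absurd ?_ hh₀
    have hs : Subsingleton Y := Module.finrank_zero_iff.1 hY
    ext y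
    rw [Subsingleton.elim y 0, map_zero, zero_apply]
  | succ n ih =>
    intro Y _ _ _ hY α β u y t₀ ht₀ hu hα hβ hy
    refine KLin_step ht₀ hu hα hβ hy fun h₀ hh₀ => ?_
    obtain ⟨π, e, hπ, hfr⟩ := ker_split hh₀
    refine ⟨LinearMap.ker (h₀ : Y →ₗ[ℝ] ℝ), inferInstance, inferInstance, inferInstance, π,
      (LinearMap.ker (h₀ : Y →ₗ[ℝ] ℝ)).subtypeL, e, hπ, ?_⟩
    intro α' β' y' t₂ ht₂ h1 h2 h3
    exact ih _ (by omega) α' β' u y' t₂ ht₂ hu h1 h2 h3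

end Pool.Agent.Lib.MP_28b8de_an.KK
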