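import Pool.Agent.Lib.MP_28b8de_an.K.KB0
import Pool.Agent.Lib.MP_28b8de_an.K.KLin
import Pool.Agent.Lib.MP_28b8de_an.K.KGl

/-!
MP_28b8de_an, module KP1.

Planar systems with costs where the controlled planar field vanishes on C.
PROOF.  q t := (r t).1 is a trajectory near t₀ of the planar fields z ↦ f z.2, z ↦ g z.2 (ltraj_lin with l = fst).  caseB0: γ analytic at t₀ with q = γ, γ' = f (γ), g (γ) = 0 near t₀.
α t := a (γ t), β t := b (γ t), analytic at t₀ (γ t₀ = q t₀).  y t := (r t).2: LTraj (FL α) (FL β) u y t₀ (second component of the integral identity, q = γ near t₀).  `lin_lrep _ Y rfl`: LRep (FL α) (FL β) y t₀.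
Θ (t,y) := (γ t, y): fderiv Θ (1, α t) = (γ' t, α t) = (f (γ t), a (γ t)), fderiv Θ (0, β t) = (0, β t) = (g (γ t), b (γ t)) near; r t = Θ (t, y t): `DD.lrep_push`.
-/

set_option linter.unusedSectionVars false

namespace Pool.Agent.Lib.MP_28b8de_an.KK

open Filter Topology Set MeasureTheory
open Pool.Agent.Lib.MP_28b8de_an.PT (Adm Perf)
open Pool.Agent.Lib.MP_28b8de_an.TT (Env Sol Jn Tr SmAt Goal dx Dn Gen Lc Lp Lq fX cf)
open Pool.Agent.Lib.MP_28b8de_an.DD (LTraj LRep Ch)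

variable {Y : Type*} [NormedAddCommGroup Y] [NormedSpace ℝ Y] [FiniteDimensional ℝ Y]

private theorem KP1_lin {V P : Type*} [NormedAddCommGroup V] [NormedSpace ℝ V]
    [FiniteDimensional ℝ V] [NormedAddCommGroup P] [NormedSpace ℝ P] [CompleteSpace P]
    {F G : ℝ × V → V} {F' G' : ℝ × P → P} {u : ℝ → ℝ} (hu : Adm u) {x : ℝ → V} {t₀ : ℝ}
    (hF : AnalyticAt ℝ F (t₀, x t₀)) (hGa : AnalyticAt ℝ G (t₀, x t₀)) (hx : LTraj F G u x t₀)
    (l : V →L[ℝ] P) (h1 : ∀ᶠ t in 𝓝 t₀, l (F (t, x t)) = F' (t, l (x t)))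
    (h2 : ∀ᶠ t in 𝓝 t₀, l (G (t, x t)) = G' (t, l (x t))) :
    LTraj F' G' u (fun t => l (x t)) t₀ := by
  have : CompleteSpace V := FiniteDimensional.complete ℝ V
  have hxc : ContinuousAt x t₀ := (DD.ltraj_cont hx).self_of_nhds
  have hpair : Tendsto (fun t => (t, x t)) (𝓝 t₀) (𝓝 (t₀, x t₀)) :=
    (continuousAt_id.prodMk hxc : ContinuousAt (fun t => (t, x t)) t₀)
  have hev : ∀ᶠ t in 𝓝 t₀, ContinuousAt x t ∧ ContinuousAt F (t, x t) ∧
      ContinuousAt G (t, x t) ∧ l (F (t, x t)) = F' (t, l (x t)) ∧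
        l (G (t, x t)) = G' (t, l (x t)) := by
    filter_upwards [DD.ltraj_cont hx, hpair.eventually hF.eventually_analyticAt,
      hpair.eventually hGa.eventually_analyticAt, h1, h2] with t h1 h2 h3 h4 h5
    exact ⟨h1, h2.continuousAt, h3.continuousAt, h4, h5⟩
  obtain ⟨ε, hε, hc, he⟩ := hx
  obtain ⟨η, hη, hJ⟩ := Metric.eventually_nhds_iff_ball.1 (hev.and
    (Ioo_mem_nhds (show t₀ - ε < t₀ by linarith) (show t₀ < t₀ + ε by linarith)))
  have hmem : ∀ t ∈ Ioo (t₀ - η) (t₀ + η), t ∈ Metric.ball t₀ η := by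
    intro t ht
    rw [Real.ball_eq_Ioo]
    exact ht
  have hpt : ∀ t ∈ Ioo (t₀ - η) (t₀ + η), ContinuousAt (fun t => (t, x t)) t := fun t ht =>
    continuousAt_id.prodMk (hJ t (hmem t ht)).1.1
  have hFc : ContinuousOn (fun τ => F (τ, x τ)) (Ioo (t₀ - η) (t₀ + η)) := fun t ht =>
    (ContinuousAt.comp (f := fun t => (t, x t)) (hJ t (hmem t ht)).1.2.1
      (hpt t ht)).continuousWithinAt
  have hGc : ContinuousOn (fun τ => G (τ, x τ)) (Ioo (t₀ - η) (t₀ + η)) := fun t ht =>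
    (ContinuousAt.comp (f := fun t => (t, x t)) (hJ t (hmem t ht)).1.2.2.1
      (hpt t ht)).continuousWithinAt
  refine ⟨η, hη, fun t ht => ?_, fun s hs t ht => ?_⟩
  · exact (l.continuous.continuousAt.comp (hJ t (hmem t ht)).1.1).continuousWithinAt
  · have hsub : uIcc s t ⊆ Ioo (t₀ - η) (t₀ + η) := ordConnected_Ioo.uIcc_subset hs ht
    have hiF : IntervalIntegrable (fun τ => F (τ, x τ)) volume s t :=
      (hFc.mono hsub).intervalIntegrable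
    have hiG : IntervalIntegrable (fun τ => G (τ, x τ)) volume s t :=
      (hGc.mono hsub).intervalIntegrable
    have hiuG : IntervalIntegrable (fun τ => u τ • G (τ, x τ)) volume s t := by
      refine hiG.mono_fun (hu.1.aestronglyMeasurable.smul hiG.aestronglyMeasurable_restrict_uIoc)
        (Eventually.of_forall fun τ => ?_)
      show ‖u τ • G (τ, x τ)‖ ≤ ‖G (τ, x τ)‖
      rw [norm_smul]
      have h1 : ‖u τ‖ ≤ 1 := by simpa using hu.2 τ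
      calc ‖u τ‖ * ‖G (τ, x τ)‖ ≤ 1 * ‖G (τ, x τ)‖ :=
            mul_le_mul_of_nonneg_right h1 (norm_nonneg _)
        _ = ‖G (τ, x τ)‖ := one_mul _
    have h3 := he s (hJ s (hmem s hs)).2 t (hJ t (hmem t ht)).2
    show l (x t) - l (x s) = _
    rw [← map_sub, h3, ← ContinuousLinearMap.intervalIntegral_comp_comm l (hiF.add hiuG)]
    refine intervalIntegral.integral_congr fun τ hτ => ?_
    show l (F (τ, x τ) + u τ • G (τ, x τ)) = F' (τ, l (x τ)) + u τ • G' (τ, l (x τ))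
    have h4 := (hJ τ (hmem τ (hsub hτ))).1.2.2.2
    rw [map_add, map_smul, h4.1, h4.2]

theorem p_one {f g : ℝ × ℝ → ℝ × ℝ} {a b : ℝ × ℝ → Y} {u : ℝ → ℝ} (hu : Adm u)
    {r : ℝ → (ℝ × ℝ) × Y} {T : ℝ} {C : Set ℝ} (hC : Perf T C) {t₀ : ℝ} (ht₀ : t₀ ∈ C)
    (hpos : 0 < t₀) (hf : AnalyticAt ℝ f (r t₀).1) (hg : AnalyticAt ℝ g (r t₀).1)
    (ha : AnalyticAt ℝ a (r t₀).1) (hb : AnalyticAt ℝ b (r t₀).1)
    (hr : LTraj (FP f a) (FP g b) u r t₀) (h0 : ∀ᶠ t in 𝓝 t₀, t ∈ C → g (r t).1 = 0) :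
    LRep (FP f a) (FP g b) r t₀ := by
  have : CompleteSpace Y := FiniteDimensional.complete ℝ Y
  have hproj : AnalyticAt ℝ (fun z : ℝ × ((ℝ × ℝ) × Y) => z.2.1) (t₀, r t₀) :=
    analyticAt_fst.comp analyticAt_snd
  have hcomp : ∀ {E : Type _} [NormedAddCommGroup E] [NormedSpace ℝ E] {h : ℝ × ℝ → E},
      AnalyticAt ℝ h (r t₀).1 → AnalyticAt ℝ (fun z : ℝ × ((ℝ × ℝ) × Y) => h z.2.1) (t₀, r t₀) := by
    intro E _ _ h hh
    exact AnalyticAt.fun_comp (f := fun z : ℝ × ((ℝ × ℝ) × Y) => z.2.1) hh hproj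
  have hcompY : ∀ {h : ℝ × ℝ → Y},
      AnalyticAt ℝ h (r t₀).1 → AnalyticAt ℝ (fun z : ℝ × ((ℝ × ℝ) × Y) => h z.2.1) (t₀, r t₀) := by
    intro h hh
    exact AnalyticAt.fun_comp (f := fun z : ℝ × ((ℝ × ℝ) × Y) => z.2.1) hh hproj
  have hFP : AnalyticAt ℝ (FP f a) (t₀, r t₀) := (hcomp hf).prod (hcompY ha)
  have hGP : AnalyticAt ℝ (FP g b) (t₀, r t₀) := (hcomp hg).prod (hcompY hb)
  have hq : LTraj (fun z : ℝ × (ℝ × ℝ) => f z.2) (fun z : ℝ × (ℝ × ℝ) => g z.2) u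
      (fun t => (r t).1) t₀ :=
    ltraj_lin hu hFP hGP hr (ContinuousLinearMap.fst ℝ (ℝ × ℝ) Y) (fun _ => rfl) (fun _ => rfl)
  have hf' : AnalyticAt ℝ (fun z : ℝ × (ℝ × ℝ) => f z.2) (t₀, (r t₀).1) :=
    AnalyticAt.fun_comp (f := fun z : ℝ × (ℝ × ℝ) => z.2) hf analyticAt_snd
  have hg' : AnalyticAt ℝ (fun z : ℝ × (ℝ × ℝ) => g z.2) (t₀, (r t₀).1) :=
    AnalyticAt.fun_comp (f := fun z : ℝ × (ℝ × ℝ) => z.2) hg analyticAt_snd
  obtain ⟨γ, hγ, hev⟩ := caseB0 hu hC ht₀ hf' hg' hq h0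
  have hγ0 : (r t₀).1 = γ t₀ := hev.self_of_nhds.1
  have hα : AnalyticAt ℝ (fun t => a (γ t)) t₀ :=
    AnalyticAt.fun_comp (f := γ) (by rw [← hγ0]; exact ha) hγ
  have hβ : AnalyticAt ℝ (fun t => b (γ t)) t₀ :=
    AnalyticAt.fun_comp (f := γ) (by rw [← hγ0]; exact hb) hγ
  have hy : LTraj (FL fun t => a (γ t)) (FL fun t => b (γ t)) u (fun t => (r t).2) t₀ := by
    refine KP1_lin hu hFP hGP hr (ContinuousLinearMap.snd ℝ (ℝ × ℝ) Y) ?_ ?_
    · filter_upwards [hev] with t ht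
      show a (r t).1 = a (γ t)
      rw [ht.1]
    · filter_upwards [hev] with t ht
      show b (r t).1 = b (γ t)
      rw [ht.1]
  have hL := lin_lrep _ Y rfl (fun t => a (γ t)) (fun t => b (γ t)) u (fun t => (r t).2) t₀ hpos hu
    hα hβ hy
  have hFL : ∀ α : ℝ → Y, AnalyticAt ℝ α t₀ → AnalyticAt ℝ (FL α) (t₀, (r t₀).2) := fun α hα =>
    AnalyticAt.fun_comp (f := fun z : ℝ × Y => z.1) hα analyticAt_fst
  have hΘ : AnalyticAt ℝ (fun w : ℝ × Y => (γ w.1, w.2)) (t₀, (r t₀).2) :=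
    (AnalyticAt.fun_comp (f := fun z : ℝ × Y => z.1) hγ analyticAt_fst).prod analyticAt_snd
  have hev2 : ∀ᶠ w in 𝓝 ((t₀, (r t₀).2) : ℝ × Y), (r w.1).1 = γ w.1 ∧
      HasDerivAt γ (f (γ w.1)) w.1 ∧ g (γ w.1) = 0 :=
    (continuousAt_fst (p := ((t₀, (r t₀).2) : ℝ × Y))).eventually hev
  have hfd : ∀ w : ℝ × Y, HasDerivAt γ (f (γ w.1)) w.1 → ∀ v : ℝ × Y,
      fderiv ℝ (fun w : ℝ × Y => (γ w.1, w.2)) w v = (v.1 • f (γ w.1), v.2) := by
    intro w hw v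
    have h1 : HasFDerivAt (fun w : ℝ × Y => γ w.1)
        ((ContinuousLinearMap.toSpanSingleton ℝ (f (γ w.1))).comp (ContinuousLinearMap.fst ℝ ℝ Y)) w :=
      HasFDerivAt.comp (f := fun w : ℝ × Y => w.1) w hw.hasFDerivAt hasFDerivAt_fst
    have h2 : HasFDerivAt (fun w : ℝ × Y => (γ w.1, w.2)) _ w := h1.prodMk hasFDerivAt_snd
    rw [h2.fderiv]
    rfl
  refine DD.lrep_push (Θ := fun w : ℝ × Y => (γ w.1, w.2)) (r := fun t => (r t).2) (hFL _ hα) (hFL _ hβ)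
    hΘ ?_ ?_ ?_ hL
  · filter_upwards [hev2] with w hw
    rw [hfd w hw.2.1]
    show ((1 : ℝ) • f (γ w.1), a (γ w.1)) = (f (γ w.1), a (γ w.1))
    rw [one_smul]
  · filter_upwards [hev2] with w hw
    rw [hfd w hw.2.1]
    show ((0 : ℝ) • f (γ w.1), b (γ w.1)) = (g (γ w.1), b (γ w.1))
    rw [zero_smul, hw.2.2]
  · filter_upwards [hev] with t ht
    show r t = (γ t, (r t).2)
    rw [← ht.1]

end Pool.Agent.Lib.MP_28b8de_an.KK
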