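import Pool.Agent.Lib.MP_28b8de_an.K.KB
import Pool.Agent.Lib.MP_28b8de_an.K.KFlowP
import Pool.Agent.Lib.MP_28b8de_an.K.KP1

/-!
MP_28b8de_an, module KPC.

Planar systems with any number of integral costs.
-/

set_option linter.unusedSectionVars false

namespace Pool.Agent.Lib.MP_28b8de_an.KK

open Filter Topology Set MeasureTheory
open Pool.Agent.Lib.MP_28b8de_an.PT (Adm Perf)
open Pool.Agent.Lib.MP_28b8de_an.TT (Env Sol Jn Tr SmAt Goal dx Dn Gen Lc Lp Lq fX cf)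
open Pool.Agent.Lib.MP_28b8de_an.DD (LTraj LRep Ch)

theorem fp_an {Y : Type*} [NormedAddCommGroup Y] [NormedSpace ℝ Y] {f : ℝ × ℝ → ℝ × ℝ}
    {a : ℝ × ℝ → Y} {z : ℝ × ((ℝ × ℝ) × Y)} (hf : AnalyticAt ℝ f z.2.1)
    (ha : AnalyticAt ℝ a z.2.1) : AnalyticAt ℝ (FP f a) z := by
  have hp : AnalyticAt ℝ (fun z : ℝ × ((ℝ × ℝ) × Y) => z.2.1) z :=
    analyticAt_fst.fun_comp analyticAt_snd
  exact (AnalyticAt.fun_comp (g := f) (f := fun z : ℝ × ((ℝ × ℝ) × Y) => z.2.1) hf hp).prod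
    (AnalyticAt.fun_comp (g := a) (f := fun z : ℝ × ((ℝ × ℝ) × Y) => z.2.1) ha hp)

/-- planar systems with integral costs -/
theorem pc_lrep {Y : Type*} [NormedAddCommGroup Y] [NormedSpace ℝ Y] [FiniteDimensional ℝ Y]
    {f g : ℝ × ℝ → ℝ × ℝ} {a b : ℝ × ℝ → Y} {u : ℝ → ℝ} (hu : Adm u) {r : ℝ → (ℝ × ℝ) × Y}
    {t₀ : ℝ} (ht₀ : 0 < t₀) (hf : AnalyticAt ℝ f (r t₀).1) (hg : AnalyticAt ℝ g (r t₀).1)
    (ha : AnalyticAt ℝ a (r t₀).1) (hb : AnalyticAt ℝ b (r t₀).1)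
    (hr : LTraj (FP f a) (FP g b) u r t₀) : LRep (FP f a) (FP g b) r t₀ := by
  have hc0 : ContinuousAt (fun t => (r t).1) t₀ :=
    continuous_fst.continuousAt.comp (DD.ltraj_cont hr).self_of_nhds
  have hev : ∀ᶠ t in 𝓝 t₀, AnalyticAt ℝ f (r t).1 ∧ AnalyticAt ℝ g (r t).1 ∧
      AnalyticAt ℝ a (r t).1 ∧ AnalyticAt ℝ b (r t).1 := by
    have h1 := hc0.eventually hf.eventually_analyticAt
    have h2 := hc0.eventually hg.eventually_analyticAt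
    have h3 := hc0.eventually ha.eventually_analyticAt
    have h4 := hc0.eventually hb.eventually_analyticAt
    filter_upwards [h1, h2, h3, h4] with t a1 a2 a3 a4
    exact ⟨a1, a2, a3, a4⟩
  obtain ⟨ρ, hρ, hball⟩ := Metric.eventually_nhds_iff_ball.1 hev
  refine lrep_main hu ht₀ (fp_an hf ha) (fp_an hg hb) hr hρ ?_
  intro c d p C hc hd hx
  rw [abs_lt] at hc hd
  have hin : ∀ t ∈ Ioo c d, AnalyticAt ℝ f (r t).1 ∧ AnalyticAt ℝ g (r t).1 ∧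
      AnalyticAt ℝ a (r t).1 ∧ AnalyticAt ℝ b (r t).1 := fun t ht => hball t (by
    rw [Metric.mem_ball, Real.dist_eq, abs_lt]
    exact ⟨by linarith [ht.1], by linarith [ht.2]⟩)
  by_cases hz : ∃ t ∈ C, g (r t).1 ≠ 0
  · obtain ⟨t, ht, hne⟩ := hz
    have hI := hx.sub ht
    obtain ⟨i1, i2, i3, i4⟩ := hin t hI
    have hpos : 0 < t := lt_of_le_of_lt hx.a0 hI.1
    obtain ⟨f', k', h', Θ, Ξ, hf', hk', hh', hch, hΘ0⟩ := flowP (r t).2 t i1 i2 i3 i4 hne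
    have hx0 : r t = Θ (t, (0, (r t).2)) := by rw [hΘ0]
    obtain ⟨hl, h0, he⟩ := DD.ltraj_pull hch hu hx0 (fp_an i1 i3) (fp_an i2 i4) (hx.tr t hI)
    have h1 : (Ξ (t, r t)).1 = 0 := by rw [h0]
    have hrep := b_lrep _ Y rfl f' k' h' u (fun τ => Ξ (τ, r τ)) t hpos hu
      (by rw [h1]; exact hf') (by rw [h1]; exact hk') (by rw [h1]; exact hh') hl
    refine lgoal_of_lrep ht (fp_an i1 i3) (fp_an i2 i4) ?_
    have h2 : ((t, (fun τ => Ξ (τ, r τ)) t) : ℝ × ((ℝ × ℝ) × Y)) = (t, (0, (r t).2)) := by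
      show (t, Ξ (t, r t)) = _
      rw [h0]
    refine DD.lrep_push (Θ := Θ) (r := fun τ => Ξ (τ, r τ)) ?_ ?_ ?_ ?_ ?_ he hrep
    · rw [h2]; exact hch.Fa
    · rw [h2]; exact hch.Ga
    · rw [h2]; exact hch.Θa
    · rw [h2]; exact hch.F1
    · rw [h2]; exact hch.G1
  · have hz' : ∀ t ∈ C, g (r t).1 = 0 := fun t ht => by
      by_contra h1
      exact hz ⟨t, ht, h1⟩
    obtain ⟨t, ht⟩ := hx.perf.ne
    have hI := hx.sub ht
    obtain ⟨i1, i2, i3, i4⟩ := hin t hI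
    exact lgoal_of_lrep ht (fp_an i1 i3) (fp_an i2 i4) (p_one hu hx.perf ht
      (lt_of_le_of_lt hx.a0 hI.1) i1 i2 i3 i4 (hx.tr t hI) (Eventually.of_forall fun t htC => hz' t htC))

end Pool.Agent.Lib.MP_28b8de_an.KK
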