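import Pool.Agent.Lib.MP_28b8de_an.K.KDefs
import Pool.Agent.Lib.MP_28b8de_an.K.KGaps
import Pool.Agent.Lib.MP_28b8de_an.K.KConcat

/-!
MP_28b8de_an, module KPerm.

Rearrangement of loops.
PROOF.  F := FP f a, G := FP g b do not depend on t and y: F (t,z) = P z, G (t,z) = R z with P z := (f z.1, a z.1), R z := (g z.1, b z.1).  C' := C ∩ Ioo s s', gaps: α_i, β_i.  (x t).1 = q for t ∈ C ∩ [s,s'].
For each i with α_i < β_i: Rep (v_i, r_i) with ‖r_i t - x α_i‖ ≤ K (β_i - α_i); for α_i = β_i take v_i = 0, r_i = const x α_i.  μ := volume C' (as a real), ℓ_i := β_i - α_i: gaps_sum with φ = 1: HasSum ℓ (s' - s - μ).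
(1) First component: 0 = (x s').1 - (x s).1.  gaps_sum with φ τ = f (x τ).1 + u τ • g (x τ).1 (x α_i, x β_i have first component q, so every ∫ over a gap is 0): 0 = ∫_{C'} φ = μ f q + (∫_{C'} u) g q.
So with ū := (∫_{C'} u)/μ if μ > 0, ū := 0 if μ = 0: |ū| ≤ 1 and (μ > 0 → f q + ū g q = 0), μ (a q + ū b q) = ∫_{C'} (a (x τ).1 + u τ • b (x τ).1).  Second component, same way: HasSum ((x β_i).2 - (x α_i).2) ((x s').2 - (x s).2 - μ (a q + ū b q)).
(2) `concat` with P, R, S := {z | z.1 ∈ closed ball of radius |K| (s'-s) about q} (compact for the first component: M from continuity of f, g, a, b), pieces: piece 0: length μ, control ū, t ↦ (q, (x s).2 + t (a q + ū b q)); piece i+1: length ℓ_i, control τ ↦ v_i (α_i + τ),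
τ ↦ r_i (α_i + τ) + (0, y_i - (x α_i).2), y_i := (x s).2 + μ (a q + ū b q) + ∑_{j<i} ((x β_j).2 - (x α_j).2).  z 0 = x s, z (i+1) = (q, y_i) → (q, (x s').2) = x s'.  s + (μ + ∑ ℓ_i) = s'.
The constant for hK: max |K| (‖a q‖ + ‖b q‖) or their sum.
(3) Tube: every value of the new curve is x s' or a value of a piece.  Values of pieces: ‖. - x s‖ ≤ (‖a q‖ + ‖b q‖) μ + ∑_{j ≤ i} |K| ℓ_j ≤ (|K| + ‖a q‖ + ‖b q‖)(s'-s) (‖(x β_j) - x α_j‖ = ‖r_j β_j - x α_j‖ ≤ |K| ℓ_j); x s' is the limit.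
-/

set_option linter.unusedSectionVars false

namespace Pool.Agent.Lib.MP_28b8de_an.KK

open Filter Topology Set MeasureTheory
open Pool.Agent.Lib.MP_28b8de_an.PT (Adm Perf)
open Pool.Agent.Lib.MP_28b8de_an.TT (Env Sol Jn Tr SmAt Goal dx Dn Gen Lc Lp Lq fX cf)
open Pool.Agent.Lib.MP_28b8de_an.DD (LTraj LRep Ch)

private lemma KPerm_ii {V : Type*} [NormedAddCommGroup V] [NormedSpace ℝ V] {u : ℝ → ℝ}
    (hu : Adm u) {ψ : ℝ → V} {s s' : ℝ} (hs : s ≤ s') (hψ : ContinuousOn ψ (Icc s s')) :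
    IntervalIntegrable (fun τ => u τ • ψ τ) volume s s' := by
  have h1 : IntervalIntegrable ψ volume s s' := hψ.intervalIntegrable_of_Icc hs
  rw [intervalIntegrable_iff_integrableOn_Ioc_of_le hs] at h1 ⊢
  refine Integrable.mono' h1.norm (hu.1.aestronglyMeasurable.smul h1.aestronglyMeasurable) ?_
  refine Eventually.of_forall fun τ => ?_
  rw [norm_smul, Real.norm_eq_abs]
  exact mul_le_of_le_one_left (norm_nonneg _) (hu.2 τ)

private lemma KPerm_set {V : Type*} [NormedAddCommGroup V] [NormedSpace ℝ V] [CompleteSpace V]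
    {u : ℝ → ℝ} (hu : Adm u) {A : Set ℝ} (hfin : volume A ≠ ⊤) (P0 R0 : V) :
    ∃ c : ℝ, |c| ≤ 1 ∧
      ∫ τ in A, (P0 + u τ • R0) = volume.real A • (P0 + c • R0) := by
  have hui : IntegrableOn u A volume := by
    apply Measure.integrableOn_of_bounded hfin hu.1.aestronglyMeasurable (M := 1)
    exact Eventually.of_forall fun τ => by rw [Real.norm_eq_abs]; exact hu.2 τ
  have hci : IntegrableOn (fun _ : ℝ => P0) A volume := integrableOn_const hfin
  have e1 : ∫ τ in A, (P0 + u τ • R0) = volume.real A • P0 + (∫ τ in A, u τ) • R0 := by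
    rw [integral_add hci (hui.smul_const R0), setIntegral_const, integral_smul_const]
  have hU : |∫ τ in A, u τ| ≤ volume.real A := by
    have := norm_setIntegral_le_of_norm_le_const (μ := volume) (s := A) (f := u) (C := 1)
      (lt_top_iff_ne_top.2 hfin) (fun τ _ => by rw [Real.norm_eq_abs]; exact hu.2 τ)
    rw [Real.norm_eq_abs, one_mul] at this
    exact this
  by_cases hμ : volume.real A = 0
  · refine ⟨0, by simp, ?_⟩
    rw [hμ] at hU
    have h0 : ∫ τ in A, u τ = 0 := abs_nonpos_iff.1 hU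
    rw [e1, hμ, h0]
    simp
  · have hμ0 : 0 < volume.real A := lt_of_le_of_ne measureReal_nonneg (Ne.symm hμ)
    refine ⟨(∫ τ in A, u τ) / volume.real A, ?_, ?_⟩
    · rw [abs_div, abs_of_pos hμ0, div_le_one hμ0]
      exact hU
    · rw [e1, smul_add, smul_smul, mul_div_cancel₀ _ hμ]

private lemma KPerm_sm {V : Type*} [NormedAddCommGroup V] [NormedSpace ℝ V] {r : ℝ → V} {c t : ℝ}
    (w : V) (h : SmAt r (c + t)) : SmAt (fun τ => r (c + τ) + w) t := by
  obtain ⟨ε, hε, hr⟩ := h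
  refine ⟨ε, hε, ?_⟩
  have h1 : ContDiffOn ℝ (⊤ : ℕ∞) (fun τ : ℝ => c + τ) (Ioo (t - ε) (t + ε)) :=
    (contDiff_const.add contDiff_id).contDiffOn
  have h2 : MapsTo (fun τ : ℝ => c + τ) (Ioo (t - ε) (t + ε)) (Ioo (c + t - ε) (c + t + ε)) := by
    intro τ hτ
    constructor
    · have := hτ.1
      show c + t - ε < c + τ
      linarith
    · have := hτ.2
      show c + τ < c + t + ε
      linarith
  exact (hr.comp h1 h2).add contDiffOn_const

variable {Y : Type*} [NormedAddCommGroup Y] [NormedSpace ℝ Y] [FiniteDimensional ℝ Y]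

theorem perm_rep {f g : ℝ × ℝ → ℝ × ℝ} {a b : ℝ × ℝ → Y} {q : ℝ × ℝ} {ρ : ℝ}
    (hf : ContinuousOn f (Metric.ball q ρ)) (hg : ContinuousOn g (Metric.ball q ρ))
    (ha : ContinuousOn a (Metric.ball q ρ)) (hb : ContinuousOn b (Metric.ball q ρ)) {u : ℝ → ℝ}
    (hu : Adm u) {x : ℝ → (ℝ × ℝ) × Y} {s s' : ℝ} (hs : s < s') (hx : ContinuousOn x (Icc s s'))
    (hxq : ∀ t ∈ Icc s s', (x t).1 ∈ Metric.ball q ρ)
    (heq : ∀ t ∈ Icc s s', x t = x s + ∫ τ in s..t, (FP f a (τ, x τ) + u τ • FP g b (τ, x τ)))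
    {C : Set ℝ} (hC : IsClosed C) (hsC : s ∈ C) (hsC' : s' ∈ C)
    (hq : ∀ t ∈ C, t ∈ Icc s s' → (x t).1 = q) {K : ℝ} (hK : |K| * (s' - s) < ρ)
    (gap : ∀ α ∈ C, ∀ β ∈ C, s ≤ α → α < β → β ≤ s' → (∀ τ ∈ Ioo α β, τ ∉ C) →
      Rep (FP f a) (FP g b) x K α β) :
    Rep (FP f a) (FP g b) x (|K| + ‖a q‖ + ‖b q‖) s s' := by
  haveI : CompleteSpace Y := FiniteDimensional.complete ℝ Y
  obtain ⟨α, β, hαβ, hdis, hun⟩ := gaps hC hs hsC hsC'
  have hK0 : 0 ≤ |K| := abs_nonneg K
  have hss : 0 < s' - s := by linarith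
  have hρ : 0 < ρ := lt_of_le_of_lt (mul_nonneg hK0 hss.le) hK
  have hl : ∀ i, α i ≤ β i := fun i => (hαβ i).2.2.2.1
  have hαI : ∀ i, α i ∈ Icc s s' := fun i =>
    ⟨(hαβ i).2.2.1, (hl i).trans (hαβ i).2.2.2.2.1⟩
  have hβI : ∀ i, β i ∈ Icc s s' := fun i =>
    ⟨(hαβ i).2.2.1.trans (hl i), (hαβ i).2.2.2.2.1⟩
  have hxα : ∀ i, (x (α i)).1 = q := fun i => hq _ (hαβ i).1 (hαI i)
  have hxβ : ∀ i, (x (β i)).1 = q := fun i => hq _ (hαβ i).2.1 (hβI i)
  have hxs : (x s).1 = q := hq _ hsC ⟨le_refl _, hs.le⟩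
  have hxs' : (x s').1 = q := hq _ hsC' ⟨hs.le, le_refl _⟩
  -- the fields
  obtain ⟨P, hP⟩ : ∃ P : (ℝ × ℝ) × Y → (ℝ × ℝ) × Y, P = fun z => (f z.1, a z.1) := ⟨_, rfl⟩
  obtain ⟨R, hR⟩ : ∃ R : (ℝ × ℝ) × Y → (ℝ × ℝ) × Y, R = fun z => (g z.1, b z.1) := ⟨_, rfl⟩
  have hFP : ∀ z : ℝ × ((ℝ × ℝ) × Y), FP f a z = P z.2 := fun z => by rw [hP]; rfl
  have hGP : ∀ z : ℝ × ((ℝ × ℝ) × Y), FP g b z = R z.2 := fun z => by rw [hR]; rfl
  have hPeq : ∀ z z' : (ℝ × ℝ) × Y, z.1 = z'.1 → P z = P z' := fun z z' h => by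
    rw [hP]; simp only [h]
  have hReq : ∀ z z' : (ℝ × ℝ) × Y, z.1 = z'.1 → R z = R z' := fun z z' h => by
    rw [hR]; simp only [h]
  simp only [hFP, hGP] at heq
  -- the pieces
  have hpiece : ∀ i, ∃ (v : ℝ → ℝ) (r : ℝ → (ℝ × ℝ) × Y), Adm v ∧
      ContinuousOn r (Icc (α i) (β i)) ∧ r (α i) = x (α i) ∧ r (β i) = x (β i) ∧
      (∀ t ∈ Icc (α i) (β i), ‖r t - x (α i)‖ ≤ |K| * (β i - α i)) ∧
      (∀ t ∈ Icc (α i) (β i), r t = r (α i) + ∫ τ in (α i)..t, (P (r τ) + v τ • R (r τ))) ∧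
      {t ∈ Ioo (α i) (β i) | ¬ SmAt r t}.Countable := by
    intro i
    rcases (hl i).lt_or_eq with h | h
    · obtain ⟨v, r, h1, h2, h3, h4, h5, h6, h7⟩ := gap (α i) (hαβ i).1 (β i) (hαβ i).2.1
        (hαβ i).2.2.1 h (hαβ i).2.2.2.2.1 (hαβ i).2.2.2.2.2
      refine ⟨v, r, h1, h2, h3, h4, ?_, ?_, h7⟩
      · intro t ht
        refine (h5 t ht).trans ?_
        exact mul_le_mul_of_nonneg_right (le_abs_self K) (by linarith)
      · intro t ht
        have := h6 t ht
        simp only [hFP, hGP] at this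
        exact this
    · refine ⟨fun _ => 0, fun _ => x (α i), ⟨measurable_const, by simp⟩, continuousOn_const, rfl,
        by rw [h], ?_, ?_, ?_⟩
      · intro t _
        rw [h]
        simp
      · intro t ht
        have : t = α i := le_antisymm (by rw [h]; exact ht.2) ht.1
        rw [this]
        simp
      · rw [h]
        simp
  choose v r hv hrc hr0 hr1 hrK hreq hrbad using hpiece
  -- integrability
  have hxP : ContinuousOn (fun τ => P (x τ)) (Icc s s') := by
    rw [hP]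
    exact (hf.comp (continuous_fst.comp_continuousOn hx) hxq).prodMk
      (ha.comp (continuous_fst.comp_continuousOn hx) hxq)
  have hxR : ContinuousOn (fun τ => R (x τ)) (Icc s s') := by
    rw [hR]
    exact (hg.comp (continuous_fst.comp_continuousOn hx) hxq).prodMk
      (hb.comp (continuous_fst.comp_continuousOn hx) hxq)
  have hΦ : IntervalIntegrable (fun τ => P (x τ) + u τ • R (x τ)) volume s s' :=
    (hxP.intervalIntegrable_of_Icc hs.le).add (KPerm_ii hu hs.le hxR)
  have hsum := gaps_sum hC hs hl hdis hun hΦ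
  have hsub : ∀ t ∈ Icc s s', IntervalIntegrable (fun τ => P (x τ) + u τ • R (x τ)) volume s t := by
    intro t ht
    apply hΦ.mono_set
    rw [uIcc_of_le ht.1, uIcc_of_le hs.le]
    exact Icc_subset_Icc (le_refl _) ht.2
  have hgap : ∀ i, ∫ τ in (α i)..(β i), (P (x τ) + u τ • R (x τ)) = x (β i) - x (α i) := by
    intro i
    rw [heq (α i) (hαI i), heq (β i) (hβI i), ← intervalIntegral.integral_interval_sub_left
      (hsub _ (hβI i)) (hsub _ (hαI i))]
    abel
  simp only [hgap] at hsum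
  have hAm : MeasurableSet (C ∩ Ioo s s') := hC.measurableSet.inter measurableSet_Ioo
  have hAle : volume (C ∩ Ioo s s') ≤ ENNReal.ofReal (s' - s) := by
    refine (measure_mono inter_subset_right).trans ?_
    rw [Real.volume_Ioo]
  have hfin : volume (C ∩ Ioo s s') ≠ ⊤ := ne_top_of_le_ne_top ENNReal.ofReal_ne_top hAle
  obtain ⟨c, hc, hcI⟩ := KPerm_set hu hfin ((f q, a q) : (ℝ × ℝ) × Y) (g q, b q)
  have hΦC : ∫ τ in C ∩ Ioo s s', (P (x τ) + u τ • R (x τ)) =
      ∫ τ in C ∩ Ioo s s', (((f q, a q) : (ℝ × ℝ) × Y) + u τ • (g q, b q)) := by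
    refine setIntegral_congr_fun hAm fun τ hτ => ?_
    have : (x τ).1 = q := hq τ hτ.1 ⟨hτ.2.1.le, hτ.2.2.le⟩
    rw [hP, hR]
    simp only [this]
  rw [hΦC, hcI] at hsum
  have hss' : ∫ τ in s..s', (P (x τ) + u τ • R (x τ)) = x s' - x s := by
    rw [heq s' ⟨hs.le, le_refl _⟩]
    abel
  rw [hss'] at hsum
  obtain ⟨μ, hμ⟩ : ∃ μ : ℝ, μ = volume.real (C ∩ Ioo s s') := ⟨_, rfl⟩
  obtain ⟨W, hW⟩ : ∃ W : (ℝ × ℝ) × Y, W = (f q, a q) + c • (g q, b q) := ⟨_, rfl⟩
  rw [← hμ, ← hW] at hsum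
  have hμ0 : 0 ≤ μ := by rw [hμ]; exact measureReal_nonneg
  -- the first component
  have hfst : μ • W.1 = 0 := by
    have h1 := (ContinuousLinearMap.fst ℝ (ℝ × ℝ) Y).hasSum hsum
    have h2 : (fun i => (ContinuousLinearMap.fst ℝ (ℝ × ℝ) Y) (x (β i) - x (α i))) =
        fun _ => (0 : ℝ × ℝ) := by
      funext i
      show (x (β i) - x (α i)).1 = 0
      rw [Prod.fst_sub, hxα, hxβ, sub_self]
    rw [h2] at h1
    have h3 := h1.unique hasSum_zero
    have h4 : ((x s' - x s) - μ • W).1 = 0 := h3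
    rw [Prod.fst_sub, Prod.fst_sub, hxs, hxs', sub_self, zero_sub, neg_eq_zero] at h4
    exact h4
  have hfst' : ∀ t ∈ Icc 0 μ, (t • W).1 = 0 := by
    intro t ht
    rw [Prod.smul_fst]
    rcases smul_eq_zero.1 hfst with h | h
    · have : t = 0 := le_antisymm (by rw [← h]; exact ht.2) ht.1
      rw [this, zero_smul]
    · rw [h, smul_zero]
  have hWt : ∀ t ∈ Icc 0 μ, ‖t • W‖ ≤ (‖a q‖ + ‖b q‖) * t := by
    intro t ht
    rw [Prod.norm_def]
    refine max_le ?_ ?_
    · rw [hfst' t ht, norm_zero]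
      exact mul_nonneg (by positivity) ht.1
    · rw [Prod.smul_snd, norm_smul, Real.norm_eq_abs, abs_of_nonneg ht.1, mul_comm]
      apply mul_le_mul_of_nonneg_right _ ht.1
      rw [hW]
      show ‖a q + c • b q‖ ≤ _
      refine (norm_add_le _ _).trans ?_
      rw [norm_smul, Real.norm_eq_abs]
      have := mul_le_of_le_one_left (norm_nonneg (b q)) hc
      linarith
  -- the lengths
  have hℓ : HasSum (fun i => β i - α i) ((s' - s) - μ) := by
    have h1 := gaps_sum hC hs hl hdis hun (φ := fun _ => (1 : ℝ)) intervalIntegrable_const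
    simp only [intervalIntegral.integral_const, smul_eq_mul, mul_one, setIntegral_const] at h1
    rw [← hμ] at h1
    exact h1
  have hℓ0 : ∀ i, 0 ≤ β i - α i := fun i => by have := hl i; linarith
  have hpart : ∀ i, ∑ j ∈ Finset.range i, (β j - α j) ≤ (s' - s) - μ := fun i =>
    sum_le_hasSum _ (fun j _ => hℓ0 j) hℓ
  have hℓle : ∀ i, β i - α i ≤ s' - s := by
    intro i
    have h1 := (hβI i).2
    have h2 := (hαI i).1
    linarith
  have hμle : μ ≤ s' - s := by
    have := hpart 0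
    simp at this
    linarith
  -- the data of `concat`
  obtain ⟨ℓ, hℓd⟩ : ∃ ℓ : ℕ → ℝ, ℓ = fun n => Nat.casesOn n μ (fun i => β i - α i) := ⟨_, rfl⟩
  have hℓz : ℓ 0 = μ := congrFun hℓd 0
  have hℓs : ∀ i, ℓ (i + 1) = β i - α i := fun i => congrFun hℓd (i + 1)
  obtain ⟨w, hwd⟩ : ∃ w : ℕ → ℝ → ℝ, w = fun n => Nat.casesOn n (fun _ => c)
      (fun i τ => v i (α i + τ)) := ⟨_, rfl⟩
  have hwz : w 0 = fun _ => c := congrFun hwd 0
  have hws : ∀ i, w (i + 1) = fun τ => v i (α i + τ) := fun i => congrFun hwd (i + 1)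
  obtain ⟨z, hzd⟩ : ∃ z : ℕ → (ℝ × ℝ) × Y, z = fun n => Nat.casesOn n (x s)
      (fun i => x s + μ • W + ∑ j ∈ Finset.range i, (x (β j) - x (α j))) := ⟨_, rfl⟩
  have hzz : z 0 = x s := congrFun hzd 0
  have hzs : ∀ i, z (i + 1) = x s + μ • W + ∑ j ∈ Finset.range i, (x (β j) - x (α j)) :=
    fun i => congrFun hzd (i + 1)
  obtain ⟨y, hyd⟩ : ∃ y : ℕ → ℝ → (ℝ × ℝ) × Y, y = fun n => Nat.casesOn n (fun t => x s + t • W)
      (fun i τ => r i (α i + τ) + (z (i + 1) - x (α i))) := ⟨_, rfl⟩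
  have hyz : y 0 = fun t => x s + t • W := congrFun hyd 0
  have hys : ∀ i, y (i + 1) = fun τ => r i (α i + τ) + (z (i + 1) - x (α i)) :=
    fun i => congrFun hyd (i + 1)
  have hzq : ∀ i, (z (i + 1)).1 = q := by
    intro i
    rw [hzs, Prod.fst_add, Prod.fst_add, hxs, hfst' μ ⟨hμ0, le_refl _⟩, Prod.fst_sum]
    simp only [Prod.fst_sub, hxα, hxβ, sub_self, Finset.sum_const_zero, add_zero]
  have hyq : ∀ i τ, (y (i + 1) τ).1 = (r i (α i + τ)).1 := by
    intro i τ
    rw [hys]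
    show (r i (α i + τ) + (z (i + 1) - x (α i))).1 = _
    rw [Prod.fst_add, Prod.fst_sub, hzq, hxα, sub_self, add_zero]
  have hyq0 : ∀ t ∈ Icc 0 μ, (y 0 t).1 = q := by
    intro t ht
    rw [hyz]
    show (x s + t • W).1 = q
    rw [Prod.fst_add, hfst' t ht, hxs, add_zero]
  have hmem : ∀ i, ∀ t ∈ Icc 0 (β i - α i), α i + t ∈ Icc (α i) (β i) := by
    intro i t ht
    exact ⟨by linarith [ht.1], by linarith [ht.2]⟩
  -- the estimates
  have hxd : ∀ j, ‖x (β j) - x (α j)‖ ≤ |K| * (β j - α j) := by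
    intro j
    have := hrK j (β j) ⟨hl j, le_refl _⟩
    rwa [hr1] at this
  have hzdist : ∀ i, ‖z (i + 1) - x s‖ ≤
      (‖a q‖ + ‖b q‖) * μ + |K| * ∑ j ∈ Finset.range i, (β j - α j) := by
    intro i
    have e1 : z (i + 1) - x s = μ • W + ∑ j ∈ Finset.range i, (x (β j) - x (α j)) := by
      rw [hzs]; abel
    rw [e1]
    refine (norm_add_le _ _).trans (add_le_add (hWt μ ⟨hμ0, le_refl _⟩) ?_)
    refine (norm_sum_le _ _).trans ?_
    rw [Finset.mul_sum]
    exact Finset.sum_le_sum fun j _ => hxd j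
  have hab0 : 0 ≤ ‖a q‖ + ‖b q‖ := by positivity
  have htube : ∀ n, ∀ t ∈ Icc 0 (ℓ n), ‖y n t - x s‖ ≤ (|K| + ‖a q‖ + ‖b q‖) * (s' - s) := by
    intro n t ht
    rcases n with _ | i
    · rw [hℓz] at ht
      rw [hyz]
      show ‖x s + t • W - x s‖ ≤ _
      rw [add_sub_cancel_left]
      refine (hWt t ht).trans ?_
      have h1 : t ≤ s' - s := ht.2.trans hμle
      have h2 : (‖a q‖ + ‖b q‖) * t ≤ (‖a q‖ + ‖b q‖) * (s' - s) :=
        mul_le_mul_of_nonneg_left h1 hab0
      have h3 : 0 ≤ |K| * (s' - s) := mul_nonneg hK0 hss.le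
      linarith
    · rw [hℓs] at ht
      have e1 : y (i + 1) t - x s = (r i (α i + t) - x (α i)) + (z (i + 1) - x s) := by
        rw [hys]
        show r i (α i + t) + (z (i + 1) - x (α i)) - x s = _
        abel
      rw [e1]
      refine (norm_add_le _ _).trans ?_
      have h1 := hrK i (α i + t) (hmem i t ht)
      have h2 := hzdist i
      have h3 := hpart (i + 1)
      rw [Finset.sum_range_succ] at h3
      have h4 : |K| * ((∑ j ∈ Finset.range i, (β j - α j)) + (β i - α i)) ≤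
          |K| * ((s' - s) - μ) := mul_le_mul_of_nonneg_left h3 hK0
      have h5 : (‖a q‖ + ‖b q‖) * μ ≤ (‖a q‖ + ‖b q‖) * (s' - s) :=
        mul_le_mul_of_nonneg_left hμle hab0
      have h6 : 0 ≤ |K| * μ := mul_nonneg hK0 hμ0
      nlinarith
  have hlim : Tendsto z atTop (𝓝 (x s')) := by
    rw [← tendsto_add_atTop_iff_nat 1]
    have h1 : Tendsto (fun n => x s + μ • W + ∑ j ∈ Finset.range n, (x (β j) - x (α j))) atTop
        (𝓝 (x s + μ • W + ((x s' - x s) - μ • W))) := hsum.tendsto_sum_nat.const_add _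
    have h2 : x s + μ • W + ((x s' - x s) - μ • W) = x s' := by abel
    rw [h2] at h1
    exact h1.congr fun n => (hzs n).symm
  have hlim' : ‖x s' - x s‖ ≤ (|K| + ‖a q‖ + ‖b q‖) * (s' - s) := by
    have h1 : Tendsto (fun n => ‖z (n + 1) - x s‖) atTop (𝓝 ‖x s' - x s‖) :=
      (((tendsto_add_atTop_iff_nat 1).2 hlim).sub_const _).norm
    refine le_of_tendsto h1 (Eventually.of_forall fun n => ?_)
    refine (hzdist n).trans ?_
    have h3 := hpart n
    have h4 : |K| * (∑ j ∈ Finset.range n, (β j - α j)) ≤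
        |K| * ((s' - s) - μ) := mul_le_mul_of_nonneg_left h3 hK0
    have h5 : (‖a q‖ + ‖b q‖) * μ ≤ (‖a q‖ + ‖b q‖) * (s' - s) :=
      mul_le_mul_of_nonneg_left hμle hab0
    have h6 : 0 ≤ |K| * μ := mul_nonneg hK0 hμ0
    nlinarith
  -- the compact set
  obtain ⟨S, hS⟩ : ∃ S : Set ((ℝ × ℝ) × Y), S =
      {z | z.1 ∈ Metric.closedBall q (|K| * (s' - s))} := ⟨_, rfl⟩
  have hcb : Metric.closedBall q (|K| * (s' - s)) ⊆ Metric.ball q ρ :=
    Metric.closedBall_subset_ball hK
  have hSb : MapsTo (fun z : (ℝ × ℝ) × Y => z.1) S (Metric.ball q ρ) := by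
    intro z hz
    rw [hS] at hz
    exact hcb hz
  have hPS : ContinuousOn P S := by
    rw [hP]
    exact (hf.comp continuous_fst.continuousOn hSb).prodMk
      (ha.comp continuous_fst.continuousOn hSb)
  have hRS : ContinuousOn R S := by
    rw [hR]
    exact (hg.comp continuous_fst.continuousOn hSb).prodMk
      (hb.comp continuous_fst.continuousOn hSb)
  obtain ⟨M1, hM1⟩ := (isCompact_closedBall q (|K| * (s' - s))).exists_bound_of_continuousOn
    ((hf.mono hcb).prodMk (ha.mono hcb))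
  obtain ⟨M2, hM2⟩ := (isCompact_closedBall q (|K| * (s' - s))).exists_bound_of_continuousOn
    ((hg.mono hcb).prodMk (hb.mono hcb))
  have hM : ∀ z ∈ S, ‖P z‖ ≤ max M1 M2 ∧ ‖R z‖ ≤ max M1 M2 := by
    intro z hz
    rw [hS] at hz
    rw [hP, hR]
    exact ⟨(hM1 z.1 hz).trans (le_max_left _ _), (hM2 z.1 hz).trans (le_max_right _ _)⟩
  have hL : HasSum ℓ (s' - s) := by
    have h1 : HasSum (fun n => ℓ (n + 1)) ((s' - s) - μ) := by
      simp only [hℓs]
      exact hℓ
    have h2 := h1.zero_add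
    rw [hℓz] at h2
    have h3 : μ + ((s' - s) - μ) = s' - s := by ring
    rwa [h3] at h2
  obtain ⟨V, Z, h1, h2, h3, h4, h5, h6, h7⟩ := concat hPS hRS hM (ℓ := ℓ)
    (by
      intro n
      rcases n with _ | i
      · rw [hℓz]; exact hμ0
      · rw [hℓs]; exact hℓ0 i)
    hL (z := z) (z' := x s') (w := w) (r := y)
    (by
      intro n
      rcases n with _ | i
      · rw [hwz]
        exact ⟨measurable_const, fun _ => hc⟩
      · rw [hws]
        exact ⟨(hv i).1.comp (measurable_const_add _), fun t => (hv i).2 _⟩)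
    (by
      intro n
      rcases n with _ | i
      · rw [hyz]
        exact (continuous_const.add (continuous_id.smul continuous_const)).continuousOn
      · rw [hys, hℓs]
        refine ContinuousOn.add ?_ continuousOn_const
        exact (hrc i).comp (continuous_const.add continuous_id).continuousOn (hmem i))
    (by
      intro n t ht
      rw [hS]
      show (y n t).1 ∈ Metric.closedBall q (|K| * (s' - s))
      rcases n with _ | i
      · rw [hℓz] at ht
        rw [hyq0 t ht]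
        exact Metric.mem_closedBall_self (mul_nonneg hK0 hss.le)
      · rw [hℓs] at ht
        rw [hyq, Metric.mem_closedBall, dist_eq_norm, ← hxα i, ← Prod.fst_sub]
        refine (norm_fst_le _).trans ((hrK i _ (hmem i t ht)).trans ?_)
        exact mul_le_mul_of_nonneg_left (hℓle i) hK0)
    (by
      intro n
      rcases n with _ | i
      · rw [hyz, hzz]
        simp
      · rw [hys]
        show r i (α i + 0) + (z (i + 1) - x (α i)) = z (i + 1)
        rw [add_zero, hr0]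
        abel)
    (by
      intro n
      rcases n with _ | i
      · rw [hyz, hℓz, hzs]
        simp
      · rw [hys, hℓs]
        show r i (α i + (β i - α i)) + (z (i + 1) - x (α i)) = z (i + 1 + 1)
        have e1 : α i + (β i - α i) = β i := by ring
        rw [e1, hr1, hzs (i + 1), Finset.sum_range_succ, hzs i]
        abel)
    (by
      intro n t ht
      rcases n with _ | i
      · rw [hℓz] at ht
        have e1 : ∫ τ in (0 : ℝ)..t, (P (y 0 τ) + w 0 τ • R (y 0 τ)) = ∫ _ in (0 : ℝ)..t, W := by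
          refine intervalIntegral.integral_congr fun τ hτ => ?_
          rw [uIcc_of_le ht.1] at hτ
          have e2 := hyq0 τ ⟨hτ.1, hτ.2.trans ht.2⟩
          show P (y 0 τ) + w 0 τ • R (y 0 τ) = W
          rw [hwz, hP, hR, hW]
          simp only [e2]
        rw [e1, intervalIntegral.integral_const, sub_zero, hyz, hzz]
      · rw [hℓs] at ht
        have e1 : ∫ τ in (0 : ℝ)..t, (P (y (i + 1) τ) + w (i + 1) τ • R (y (i + 1) τ)) =
            ∫ τ in (0 : ℝ)..t, (fun τ' => P (r i τ') + v i τ' • R (r i τ')) (α i + τ) := by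
          refine intervalIntegral.integral_congr fun τ _ => ?_
          show P (y (i + 1) τ) + w (i + 1) τ • R (y (i + 1) τ) =
            P (r i (α i + τ)) + v i (α i + τ) • R (r i (α i + τ))
          rw [hws, hPeq _ _ (hyq i τ), hReq _ _ (hyq i τ)]
        have e3 := intervalIntegral.integral_comp_add_left (a := 0) (b := t)
          (fun τ' => P (r i τ') + v i τ' • R (r i τ')) (α i)
        rw [e1, e3, add_zero, hys]
        show r i (α i + t) + (z (i + 1) - x (α i)) = _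
        rw [hreq i (α i + t) (hmem i t ht), hr0]
        abel)
    hlim (K := |K| + ‖a q‖ + ‖b q‖)
    (by
      intro n t ht
      rcases n with _ | i
      · rw [hℓz] at ht
        rw [hyz, hzz, hℓz]
        show ‖x s + t • W - x s‖ ≤ _
        rw [add_sub_cancel_left]
        refine (hWt t ht).trans ?_
        have q1 : (‖a q‖ + ‖b q‖) * t ≤ (‖a q‖ + ‖b q‖) * μ :=
          mul_le_mul_of_nonneg_left ht.2 hab0
        have q2 : 0 ≤ |K| * μ := mul_nonneg hK0 hμ0
        linarith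
      · rw [hℓs] at ht ⊢
        rw [hys]
        show ‖r i (α i + t) + (z (i + 1) - x (α i)) - z (i + 1)‖ ≤ _
        have e1 : r i (α i + t) + (z (i + 1) - x (α i)) - z (i + 1) =
            r i (α i + t) - x (α i) := by abel
        rw [e1]
        refine (hrK i _ (hmem i t ht)).trans ?_
        have q1 : 0 ≤ (‖a q‖ + ‖b q‖) * (β i - α i) := mul_nonneg hab0 (hℓ0 i)
        linarith)
    (by
      intro n
      rcases n with _ | i
      · rw [hyz]
        have : {t ∈ Ioo 0 (ℓ 0) | ¬ SmAt (fun t : ℝ => x s + t • W) t} = ∅ := by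
          rw [Set.eq_empty_iff_forall_notMem]
          intro t ht
          apply ht.2
          refine ⟨1, one_pos, ?_⟩
          exact (contDiff_const.add (contDiff_id.smul contDiff_const)).contDiffOn
        rw [this]
        exact countable_empty
      · have hinj : Function.Injective (fun t : ℝ => α i + t) := add_right_injective _
        refine ((hrbad i).preimage hinj).mono ?_
        intro t ht
        rw [hℓs] at ht
        refine ⟨⟨?_, ?_⟩, ?_⟩
        · show α i < α i + t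
          linarith [ht.1.1]
        · show α i + t < β i
          linarith [ht.1.2]
        · intro hsm
          apply ht.2
          rw [hys]
          exact KPerm_sm _ hsm)
    s
  have hsL : s + (s' - s) = s' := by ring
  rw [hsL] at h2 h4 h5 h6 h7
  rw [hzz] at h3
  refine ⟨V, Z, h1, h2, h3, h4, ?_, ?_, h7⟩
  · intro t ht
    rcases h6 t ht with h | ⟨n, τ, hτ, h⟩
    · rw [h]
      exact hlim'
    · rw [h]
      exact htube n τ hτ
  · intro t ht
    simp only [hFP, hGP]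
    exact h5 t ht

end Pool.Agent.Lib.MP_28b8de_an.KK
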