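import Pool.Agent.Lib.MP_28b8de_an.K.KDefs
import Pool.Agent.Lib.MP_28b8de_an.T.TPrin

/-!
MP_28b8de_an, module KPrin.

Localisation, with replacements on the gaps.
PROOF.  Copy of `TT.principle` (file T/TPrin.lean, complete; its private lemmas TPrin_closed .. TPrin_four must be copied and renamed, they are private there).  C := the set of bad times, as there.
The additional information (for s < t in [0,T] without points of C in (s,t): Jn s t) is TPrin_two.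
-/

set_option linter.unusedSectionVars false

namespace Pool.Agent.Lib.MP_28b8de_an.KK

open Filter Topology Set MeasureTheory
open Pool.Agent.Lib.MP_28b8de_an.PT (Adm Perf)
open Pool.Agent.Lib.MP_28b8de_an.TT (Env Sol Jn Tr SmAt Goal dx Dn Gen Lc Lp Lq fX cf)
open Pool.Agent.Lib.MP_28b8de_an.DD (LTraj LRep Ch)

variable {V : Type*} [NormedAddCommGroup V] [NormedSpace ℝ V] [FiniteDimensional ℝ V]

/-- the points near which the relation fails -/
private def KPrinC (J : ℝ → ℝ → Prop) (T : ℝ) : Set ℝ :=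
  {t | t ∈ Icc 0 T ∧ ∀ ε : ℝ, 0 < ε → ∃ a b : ℝ, a ∈ Icc 0 T ∧ b ∈ Icc 0 T ∧ |a - t| < ε ∧
    |b - t| < ε ∧ a ≤ b ∧ ¬ J a b}

private theorem KPrin_closed (J : ℝ → ℝ → Prop) (T : ℝ) : IsClosed (KPrinC J T) := by
  rw [← isSeqClosed_iff_isClosed]
  intro x t hx hlim
  refine ⟨isClosed_Icc.mem_of_tendsto hlim (Eventually.of_forall fun n => (hx n).1), ?_⟩
  intro ε hε
  obtain ⟨n, hn⟩ := (Metric.tendsto_atTop.mp hlim (ε / 2) (by positivity))
  have hn' := hn n le_rfl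
  rw [Real.dist_eq] at hn'
  obtain ⟨a, b, ha, hb, h1, h2, h3, h4⟩ := (hx n).2 (ε / 2) (by positivity)
  refine ⟨a, b, ha, hb, ?_, ?_, h3, h4⟩
  · calc |a - t| = |(a - x n) + (x n - t)| := by ring_nf
      _ ≤ |a - x n| + |x n - t| := abs_add_le _ _
      _ < ε := by linarith
  · calc |b - t| = |(b - x n) + (x n - t)| := by ring_nf
      _ ≤ |b - x n| + |x n - t| := abs_add_le _ _
      _ < ε := by linarith

private theorem KPrin_loc {J : ℝ → ℝ → Prop} {T t : ℝ} (ht : t ∈ Icc 0 T)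
    (hC : t ∉ KPrinC J T) : ∃ ε : ℝ, 0 < ε ∧ ∀ a b : ℝ, a ∈ Icc 0 T → b ∈ Icc 0 T →
      |a - t| < ε → |b - t| < ε → a ≤ b → J a b := by
  by_contra h
  refine hC ⟨ht, fun ε hε => ?_⟩
  by_contra h2
  refine h ⟨ε, hε, fun a b ha hb h3 h4 h5 => ?_⟩
  by_contra h6
  exact h2 ⟨a, b, ha, hb, h3, h4, h5, h6⟩

private theorem KPrin_one {J : ℝ → ℝ → Prop} {T : ℝ} (hrefl : ∀ a, J a a)
    (htrans : ∀ a b c, a ≤ b → b ≤ c → J a b → J b c → J a c) {s t : ℝ}
    (hs : s ∈ Icc 0 T) (ht : t ∈ Icc 0 T) (hst : s ≤ t)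
    (hC : ∀ τ ∈ Icc s t, τ ∉ KPrinC J T) : J s t := by
  set S : Set ℝ := {τ | τ ∈ Icc s t ∧ ∀ τ' ∈ Icc s τ, J s τ'} with hS
  have hsS : s ∈ S := by
    refine ⟨⟨le_rfl, hst⟩, fun τ' hτ' => ?_⟩
    have : τ' = s := le_antisymm hτ'.2 hτ'.1
    rw [this]
    exact hrefl s
  have hbdd : BddAbove S := ⟨t, fun τ hτ => hτ.1.2⟩
  set σ := sSup S with hσ
  have h1 : s ≤ σ := le_csSup hbdd hsS
  have h2 : σ ≤ t := csSup_le ⟨s, hsS⟩ fun τ hτ => hτ.1.2
  have hσT : σ ∈ Icc 0 T := ⟨hs.1.trans h1, h2.trans ht.2⟩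
  obtain ⟨ε, hε, hloc⟩ := KPrin_loc hσT (hC σ ⟨h1, h2⟩)
  obtain ⟨τ, hτS, hτ⟩ := exists_lt_of_lt_csSup ⟨s, hsS⟩ (show σ - ε < sSup S by
    rw [← hσ]
    linarith)
  have hτσ : τ ≤ σ := le_csSup hbdd hτS
  have key : min t (σ + ε / 2) ∈ S := by
    refine ⟨⟨le_min hst (by linarith), min_le_left _ _⟩, fun τ' hτ' => ?_⟩
    rcases le_or_gt τ' τ with h | h
    · exact hτS.2 τ' ⟨hτ'.1, h⟩
    · have h3 : τ' ≤ t := hτ'.2.trans (min_le_left _ _)
      have h4 : τ' ≤ σ + ε / 2 := hτ'.2.trans (min_le_right _ _)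
      refine htrans s τ τ' hτS.1.1 h.le (hτS.2 τ ⟨hτS.1.1, le_rfl⟩) (hloc τ τ' ?_ ?_ ?_ ?_ h.le)
      · exact ⟨hs.1.trans hτS.1.1, hτS.1.2.trans ht.2⟩
      · exact ⟨hs.1.trans hτ'.1, h3.trans ht.2⟩
      · rw [abs_lt]
        constructor <;> linarith
      · rw [abs_lt]
        constructor <;> linarith
  have h5 : min t (σ + ε / 2) ≤ σ := le_csSup hbdd key
  have h6 : t ≤ σ := by
    rcases min_le_iff.mp h5 with h | h
    · exact h
    · linarith
  have h7 : min t (σ + ε / 2) = t := min_eq_left (by linarith)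
  rw [h7] at key
  exact key.2 t ⟨hst, le_rfl⟩

private theorem KPrin_two {J : ℝ → ℝ → Prop} {T : ℝ} (hrefl : ∀ a, J a a)
    (htrans : ∀ a b c, a ≤ b → b ≤ c → J a b → J b c → J a c)
    (hup : ∀ (s : ℕ → ℝ) (c : ℝ), (∀ i, s i ∈ Icc 0 T) → c ∈ Icc 0 T → StrictMono s →
      Tendsto s atTop (𝓝 c) → (∀ i, J (s i) (s (i + 1))) → J (s 0) c)
    (hdown : ∀ (s : ℕ → ℝ) (c : ℝ), (∀ i, s i ∈ Icc 0 T) → c ∈ Icc 0 T → StrictAnti s →
      Tendsto s atTop (𝓝 c) → (∀ i, J (s (i + 1)) (s i)) → J c (s 0)) {s t : ℝ}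
    (hs : s ∈ Icc 0 T) (ht : t ∈ Icc 0 T) (hst : s < t)
    (hC : ∀ τ ∈ Ioo s t, τ ∉ KPrinC J T) : J s t := by
  set m := (s + t) / 2 with hm
  have hsm : s < m := by linarith
  have hmt : m < t := by linarith
  have hlim0 : Tendsto (fun i : ℕ => (1 / 2 : ℝ) ^ i) atTop (𝓝 0) :=
    tendsto_pow_atTop_nhds_zero_of_lt_one (by norm_num) (by norm_num)
  have hpos : ∀ i : ℕ, (0 : ℝ) < (1 / 2) ^ i := fun i => by positivity
  have hle : ∀ i : ℕ, (1 / 2 : ℝ) ^ i ≤ 1 := fun i => pow_le_one₀ (by norm_num) (by norm_num)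
  have hsucc : ∀ i : ℕ, (1 / 2 : ℝ) ^ (i + 1) = (1 / 2) ^ i / 2 := fun i => by
    rw [pow_succ]
    ring
  have h1 : J m t := by
    have hmem : ∀ i : ℕ, t - (t - m) * (1 / 2) ^ i ∈ Ico m t := by
      intro i
      have := hpos i
      have := hle i
      constructor
      · nlinarith
      · have : 0 < (t - m) * (1 / 2) ^ i := mul_pos (by linarith) (hpos i)
        linarith
    have h := hup (fun i => t - (t - m) * (1 / 2) ^ i) t
      (fun i => ⟨hs.1.trans (hsm.le.trans (hmem i).1), (hmem i).2.le.trans ht.2⟩) ht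
      (strictMono_nat_of_lt_succ fun i => ?_) ?_ (fun i => ?_)
    · simpa using h
    · have := hsucc i
      have h3 : (t - m) * (1 / 2 : ℝ) ^ (i + 1) < (t - m) * (1 / 2) ^ i := by
        rw [this]
        have := mul_pos (show 0 < t - m by linarith) (hpos i)
        linarith
      show t - (t - m) * (1 / 2) ^ i < t - (t - m) * (1 / 2) ^ (i + 1)
      linarith
    · have h3 := (hlim0.const_mul (t - m)).const_sub t
      simpa using h3
    · refine KPrin_one hrefl htrans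
        ⟨hs.1.trans (hsm.le.trans (hmem i).1), (hmem i).2.le.trans ht.2⟩
        ⟨hs.1.trans (hsm.le.trans (hmem (i + 1)).1), (hmem (i + 1)).2.le.trans ht.2⟩ ?_ ?_
      · have := hsucc i
        have h3 : (t - m) * (1 / 2 : ℝ) ^ (i + 1) < (t - m) * (1 / 2) ^ i := by
          rw [this]
          have := mul_pos (show 0 < t - m by linarith) (hpos i)
          linarith
        show t - (t - m) * (1 / 2) ^ i ≤ t - (t - m) * (1 / 2) ^ (i + 1)
        linarith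
      · intro τ hτ
        exact hC τ ⟨hsm.trans_le ((hmem i).1.trans hτ.1), hτ.2.trans_lt (hmem (i + 1)).2⟩
  have h2 : J s m := by
    have hmem : ∀ i : ℕ, s + (m - s) * (1 / 2) ^ i ∈ Ioc s m := by
      intro i
      have := hpos i
      have := hle i
      constructor
      · have : 0 < (m - s) * (1 / 2) ^ i := mul_pos (by linarith) (hpos i)
        linarith
      · nlinarith
    have hlt : ∀ i : ℕ, s + (m - s) * (1 / 2) ^ (i + 1) < s + (m - s) * (1 / 2) ^ i := by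
      intro i
      have := hsucc i
      have h3 : (m - s) * (1 / 2 : ℝ) ^ (i + 1) < (m - s) * (1 / 2) ^ i := by
        rw [this]
        have := mul_pos (show 0 < m - s by linarith) (hpos i)
        linarith
      linarith
    have h := hdown (fun i => s + (m - s) * (1 / 2) ^ i) s
      (fun i => ⟨hs.1.trans (hmem i).1.le, (hmem i).2.trans (hmt.le.trans ht.2)⟩) hs
      (strictAnti_nat_of_succ_lt fun i => hlt i) ?_ (fun i => ?_)
    · simpa using h
    · have h3 := (hlim0.const_mul (m - s)).const_add s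
      simpa using h3
    · refine KPrin_one hrefl htrans
        ⟨hs.1.trans (hmem (i + 1)).1.le, (hmem (i + 1)).2.trans (hmt.le.trans ht.2)⟩
        ⟨hs.1.trans (hmem i).1.le, (hmem i).2.trans (hmt.le.trans ht.2)⟩ (hlt i).le ?_
      intro τ hτ
      exact hC τ ⟨(hmem (i + 1)).1.trans_le hτ.1, (hτ.2.trans (hmem i).2).trans_lt hmt⟩
  exact htrans s m t hsm.le hmt.le h2 h1

private theorem KPrin_three {J : ℝ → ℝ → Prop} {T : ℝ} (hrefl : ∀ a, J a a)
    (htrans : ∀ a b c, a ≤ b → b ≤ c → J a b → J b c → J a c)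
    (hup : ∀ (s : ℕ → ℝ) (c : ℝ), (∀ i, s i ∈ Icc 0 T) → c ∈ Icc 0 T → StrictMono s →
      Tendsto s atTop (𝓝 c) → (∀ i, J (s i) (s (i + 1))) → J (s 0) c)
    (hdown : ∀ (s : ℕ → ℝ) (c : ℝ), (∀ i, s i ∈ Icc 0 T) → c ∈ Icc 0 T → StrictAnti s →
      Tendsto s atTop (𝓝 c) → (∀ i, J (s (i + 1)) (s i)) → J c (s 0)) {α β : ℝ}
    (h : ∀ s ∈ KPrinC J T, s ∈ Ioo α β → ∀ t ∈ KPrinC J T, t ∈ Ioo α β → s < t → J s t)
    {s t : ℝ} (hs : s ∈ Icc 0 T) (ht : t ∈ Icc 0 T) (hst : s ≤ t) (hsα : s ∈ Ioo α β)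
    (htα : t ∈ Ioo α β) : J s t := by
  by_cases hne : (KPrinC J T ∩ Icc s t).Nonempty
  · have hcomp : IsCompact (KPrinC J T ∩ Icc s t) :=
      isCompact_Icc.inter_left (KPrin_closed J T)
    obtain ⟨s', hs', hmin⟩ := hcomp.exists_isLeast hne
    obtain ⟨t', ht', hmax⟩ := hcomp.exists_isGreatest hne
    have hst' : s' ≤ t' := hmin ht'
    have a1 : J s s' := by
      rcases eq_or_lt_of_le hs'.2.1 with e | e
      · rw [← e]
        exact hrefl s
      · refine KPrin_two hrefl htrans hup hdown hs hs'.1.1 e fun τ hτ hτC => ?_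
        have := hmin ⟨hτC, hτ.1.le, hτ.2.le.trans hs'.2.2⟩
        exact absurd hτ.2 (not_lt.mpr this)
    have a2 : J s' t' := by
      rcases eq_or_lt_of_le hst' with e | e
      · rw [← e]
        exact hrefl s'
      · exact h s' hs'.1 ⟨hsα.1.trans_le hs'.2.1, hs'.2.2.trans_lt htα.2⟩ t' ht'.1
          ⟨hsα.1.trans_le ht'.2.1, ht'.2.2.trans_lt htα.2⟩ e
    have a3 : J t' t := by
      rcases eq_or_lt_of_le ht'.2.2 with e | e
      · rw [← e]
        exact hrefl t'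
      · refine KPrin_two hrefl htrans hup hdown ht'.1.1 ht e fun τ hτ hτC => ?_
        have := hmax ⟨hτC, ht'.2.1.trans hτ.1.le, hτ.2.le⟩
        exact absurd hτ.1 (not_lt.mpr this)
    exact htrans s s' t hs'.2.1 (hst'.trans ht'.2.2) a1 (htrans s' t' t hst' ht'.2.2 a2 a3)
  · refine KPrin_one hrefl htrans hs ht hst fun τ hτ hτC => hne ⟨τ, hτC, hτ⟩

private theorem KPrin_four {J : ℝ → ℝ → Prop} {T : ℝ} (hrefl : ∀ a, J a a)
    (htrans : ∀ a b c, a ≤ b → b ≤ c → J a b → J b c → J a c)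
    (hup : ∀ (s : ℕ → ℝ) (c : ℝ), (∀ i, s i ∈ Icc 0 T) → c ∈ Icc 0 T → StrictMono s →
      Tendsto s atTop (𝓝 c) → (∀ i, J (s i) (s (i + 1))) → J (s 0) c)
    (hdown : ∀ (s : ℕ → ℝ) (c : ℝ), (∀ i, s i ∈ Icc 0 T) → c ∈ Icc 0 T → StrictAnti s →
      Tendsto s atTop (𝓝 c) → (∀ i, J (s (i + 1)) (s i)) → J c (s 0)) {α β : ℝ}
    (h : ∀ s ∈ KPrinC J T, s ∈ Ioo α β → ∀ t ∈ KPrinC J T, t ∈ Ioo α β → s < t → J s t)
    {t : ℝ} (ht : t ∈ KPrinC J T) (htα : t ∈ Ioo α β) : False := by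
  obtain ⟨a, b, ha, hb, h1, h2, h3, h4⟩ := ht.2 (min (t - α) (β - t))
    (lt_min (by linarith [htα.1]) (by linarith [htα.2]))
  have g1 := lt_min_iff.mp h1
  have g2 := lt_min_iff.mp h2
  refine h4 (KPrin_three hrefl htrans hup hdown h ha hb h3 ?_ ?_)
  · have := abs_lt.mp g1.1
    have := abs_lt.mp g1.2
    constructor <;> linarith
  · have := abs_lt.mp g2.1
    have := abs_lt.mp g2.2
    constructor <;> linarith

theorem principle' {F G : ℝ × V → V} {M : ℝ} (E : Env F G M) {q : ℝ → V} {T : ℝ} (hT : 0 < T)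
    (hq : ContinuousOn q (Icc 0 T))
    (H : ∀ C : Set ℝ, Perf T C →
      (∀ t ∈ C, ∀ ε : ℝ, 0 < ε → ∃ a b : ℝ, a ∈ Icc 0 T ∧ b ∈ Icc 0 T ∧ |a - t| < ε ∧ |b - t| < ε ∧
        a ≤ b ∧ ¬ Jn F G q a b) →
      (∀ s ∈ Icc 0 T, ∀ t ∈ Icc 0 T, s < t → (∀ τ ∈ Ioo s t, τ ∉ C) → Jn F G q s t) →
      Goal F G q C) :
    Jn F G q 0 T := by
  have hrefl : ∀ a, Jn F G q a a := fun a => TT.jn_refl q a
  have htrans : ∀ a b c, a ≤ b → b ≤ c → Jn F G q a b → Jn F G q b c → Jn F G q a c :=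
    fun a b c hab hbc h₁ h₂ => TT.jn_trans E hab hbc h₁ h₂
  have hup : ∀ (s : ℕ → ℝ) (c : ℝ), (∀ i, s i ∈ Icc 0 T) → c ∈ Icc 0 T → StrictMono s →
      Tendsto s atTop (𝓝 c) → (∀ i, Jn F G q (s i) (s (i + 1))) → Jn F G q (s 0) c := by
    intro s c hs hc hm hlim h
    exact TT.jn_seq_up E (hq.mono (Icc_subset_Icc (hs 0).1 hc.2)) hm hlim h
  have hdown : ∀ (s : ℕ → ℝ) (c : ℝ), (∀ i, s i ∈ Icc 0 T) → c ∈ Icc 0 T → StrictAnti s →
      Tendsto s atTop (𝓝 c) → (∀ i, Jn F G q (s (i + 1)) (s i)) → Jn F G q c (s 0) := by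
    intro s c hs hc hm hlim h
    exact TT.jn_seq_down E (hq.mono (Icc_subset_Icc hc.1 (hs 0).2)) hm hlim h
  by_contra hJ
  set C := KPrinC (Jn F G q) T with hC
  have hne : C.Nonempty := by
    by_contra h
    rw [Set.not_nonempty_iff_eq_empty] at h
    refine hJ (KPrin_one hrefl htrans ⟨le_rfl, hT.le⟩ ⟨hT.le, le_rfl⟩ hT.le fun τ _ hτ => ?_)
    rw [← hC, h] at hτ
    exact hτ
  have hperf : Perf T C := by
    refine ⟨fun t ht => ht.1, KPrin_closed _ T, hne, fun t ht ε hε => ?_⟩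
    by_contra h
    push Not at h
    refine KPrin_four hrefl htrans hup hdown (α := t - ε) (β := t + ε) ?_ ht
      ⟨by linarith, by linarith⟩
    intro a ha haI b hb hbI hab
    exfalso
    have e : ∀ x ∈ C, x ∈ Ioo (t - ε) (t + ε) → x = t := by
      intro x hx hxI
      by_contra hne'
      have := h x hx hne'
      rw [le_abs] at this
      rcases this with h1 | h1
      · linarith [hxI.2]
      · linarith [hxI.1]
    rw [e a ha haI, e b hb hbI] at hab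
    exact lt_irrefl _ hab
  have hgap : ∀ s ∈ Icc 0 T, ∀ t ∈ Icc 0 T, s < t → (∀ τ ∈ Ioo s t, τ ∉ C) → Jn F G q s t :=
    fun s hs t ht hst h => KPrin_two hrefl htrans hup hdown hs ht hst h
  obtain ⟨α, β, ⟨t, htC, htI⟩, hg⟩ := H C hperf (fun t ht => ht.2) hgap
  exact KPrin_four hrefl htrans hup hdown hg htC htI

end Pool.Agent.Lib.MP_28b8de_an.KK
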