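import Pool.Agent.Lib.MP_28b8de_an.K.KSCurve

/-!
MP_28b8de_an, module KSCore.

Scalar extremals with a perfect set of zeros of the switching function.
-/

set_option linter.unusedSectionVars false

namespace Pool.Agent.Lib.MP_28b8de_an.KK

open Filter Topology Set MeasureTheory
open Pool.Agent.Lib.MP_28b8de_an.PT (Adm Perf)
open Pool.Agent.Lib.MP_28b8de_an.TT (Env Sol Jn Tr SmAt Goal dx Dn Gen Lc Lp Lq fX cf)
open Pool.Agent.Lib.MP_28b8de_an.DD (LTraj LRep Ch)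

theorem sd_core {F G η : ℝ × ℝ → ℝ} {u : ℝ → ℝ} {a b : ℝ} {x ϕ : ℝ → ℝ} (h : SD F G η u a b x ϕ)
    {T : ℝ} {C : Set ℝ} (hC : Perf T C) {t₁ : ℝ} (ht₁ : t₁ ∈ C) (hab : t₁ ∈ Ioo a b)
    (h0 : ∀ t ∈ C, ϕ t = 0) :
    ∃ t₂ ∈ C, t₂ ∈ Ioo a b ∧ ((∃ ξ : ℝ → ℝ, AnalyticAt ℝ ξ t₂ ∧ ∀ᶠ t in 𝓝 t₂, x t = ξ t) ∨
      ∀ᶠ z in 𝓝 (t₂, x t₂), Dn η z = 0) := by
  have hxc : ∀ t ∈ Ioo a b, ContinuousAt x t := fun t ht =>
    h.xc.continuousAt (isOpen_Ioo.mem_nhds ht)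
  have hxe : ∀ᶠ t in 𝓝 t₁, ContinuousAt x t := by
    filter_upwards [isOpen_Ioo.mem_nhds hab] with t ht
    exact hxc t ht
  have hk : ∀ᶠ t in 𝓝 t₁, t ∈ C → Dn η (t, x t) = 0 :=
    sd_kder h hC ht₁ hab (Eventually.of_forall h0)
  obtain ⟨ε, hε, hball⟩ := Metric.isOpen_iff.1 isOpen_Ioo t₁ hab
  have hin : ∀ t, |t - t₁| < ε → t ∈ Ioo a b := fun t ht => hball (by
    rw [Metric.mem_ball, Real.dist_eq]
    exact ht)
  rcases TT.zw (w := fun t => t) ht₁ (Eventually.of_forall fun t => continuousAt_id) hxe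
    (TT.Dn_an (h.ηa t₁ hab)) hk hε with h1 | ⟨t₂, ht₂, hd, ξ, hξ, hxξ⟩ | ⟨b', hb', hbC, hb0⟩
  · exact ⟨t₁, ht₁, hab, Or.inr h1⟩
  · have ht₂ab := hin t₂ hd
    have hI : ∀ᶠ t in 𝓝 t₂, t ∈ Ioo a b := isOpen_Ioo.mem_nhds ht₂ab
    have hev : ∀ᶠ t in 𝓝 t₂, AnalyticAt ℝ ξ t ∧ t ∈ Ioo a b ∧ (t ∈ C → x t = ξ t) :=
      (hξ.eventually_analyticAt).and (hI.and hxξ)
    obtain ⟨ε₂, hε₂, hb₂⟩ := Metric.eventually_nhds_iff_ball.1 hev
    have hin₂ : ∀ t ∈ Ioo (t₂ - ε₂) (t₂ + ε₂), AnalyticAt ℝ ξ t ∧ t ∈ Ioo a b ∧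
        (t ∈ C → x t = ξ t) := fun t ht => hb₂ t (by
      rw [Metric.mem_ball, Real.dist_eq, abs_lt]
      exact ⟨by linarith [ht.1], by linarith [ht.2]⟩)
    have hm1 : t₂ - ε₂ / 2 ∈ Ioo (t₂ - ε₂) (t₂ + ε₂) := ⟨by linarith, by linarith⟩
    have hm2 : t₂ + ε₂ / 2 ∈ Ioo (t₂ - ε₂) (t₂ + ε₂) := ⟨by linarith, by linarith⟩
    have h' : SD F G η u (t₂ - ε₂ / 2) (t₂ + ε₂ / 2) x ϕ :=
      h.mono (hin₂ _ hm1).2.1.1.le (hin₂ _ hm2).2.1.2.le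
    have hs := sd_shift h' (ξ := ξ) fun t ht => (hin₂ t ⟨by linarith [ht.1], by linarith [ht.2]⟩).1
    have h0' : ∀ᶠ t in 𝓝 t₂, t ∈ C → x t - ξ t = 0 ∧ ϕ t = 0 := by
      filter_upwards [hxξ] with t ht htC
      exact ⟨by rw [ht htC, sub_self], h0 t htC⟩
    obtain ⟨t₃, ht₃, hd₃, h3⟩ := sd_curve hs hC ht₂ ⟨by linarith, by linarith⟩ h0'
      (show 0 < ε₂ / 2 by linarith)
    rw [abs_lt] at hd₃
    have ht₃' : t₃ ∈ Ioo (t₂ - ε₂) (t₂ + ε₂) := ⟨by linarith, by linarith⟩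
    obtain ⟨g1, g2, g3⟩ := hin₂ t₃ ht₃'
    refine ⟨t₃, ht₃, g2, ?_⟩
    rcases h3 with h3 | h3
    · refine Or.inl ⟨ξ, g1, ?_⟩
      filter_upwards [h3] with t ht
      linarith
    · refine Or.inr ?_
      have hη : ∀ᶠ z in 𝓝 (t₃, x t₃), AnalyticAt ℝ η z := (h.ηa t₃ g2).eventually_analyticAt
      have hc : ContinuousAt (fun z : ℝ × ℝ => ((z.1, z.2 - ξ z.1) : ℝ × ℝ)) (t₃, x t₃) := by
        refine continuousAt_fst.prodMk (continuousAt_snd.sub ?_)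
        exact ContinuousAt.comp (g := ξ) (f := fun z : ℝ × ℝ => z.1) g1.continuousAt continuousAt_fst
      have h4 := hc.eventually h3
      have hξe : ∀ᶠ z : ℝ × ℝ in 𝓝 (t₃, x t₃), AnalyticAt ℝ ξ z.1 :=
        (continuous_fst.tendsto (t₃, x t₃)).eventually g1.eventually_analyticAt
      filter_upwards [h4, hη, hξe] with z hz hza hzξ
      have e1 : HasDerivAt (fun X : ℝ => η (z.1, ξ z.1 + X)) (Dn η z) (z.2 - ξ z.1) := by
        have h5 : HasDerivAt (fun X : ℝ => η (z.1, X)) (Dn η (z.1, z.2)) z.2 :=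
          TT.Dn_slice hza.differentiableAt
        have h6 : HasDerivAt (fun X : ℝ => ξ z.1 + X) 1 (z.2 - ξ z.1) := by
          simpa using (hasDerivAt_id (z.2 - ξ z.1)).const_add (ξ z.1)
        have h7 : ξ z.1 + (z.2 - ξ z.1) = z.2 := by ring
        rw [← h7] at h5
        have h8 := h5.comp (z.2 - ξ z.1) h6
        rw [mul_one, h7] at h8
        exact h8
      have e2 : HasDerivAt (fun X : ℝ => (fun z : ℝ × ℝ => η (z.1, ξ z.1 + z.2)) (z.1, X))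
          (Dn (fun z : ℝ × ℝ => η (z.1, ξ z.1 + z.2)) (z.1, z.2 - ξ z.1)) (z.2 - ξ z.1) := by
        refine TT.Dn_slice (f := fun z : ℝ × ℝ => η (z.1, ξ z.1 + z.2)) (v := z.1)
          (x := z.2 - ξ z.1) ?_
        have h8 : AnalyticAt ℝ (fun z : ℝ × ℝ => ξ z.1) (z.1, z.2 - ξ z.1) :=
          AnalyticAt.fun_comp (g := ξ) (f := fun z : ℝ × ℝ => z.1) hzξ analyticAt_fst
        have h9 : AnalyticAt ℝ (fun z : ℝ × ℝ => ((z.1, ξ z.1 + z.2) : ℝ × ℝ)) (z.1, z.2 - ξ z.1) :=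
          analyticAt_fst.prod (h8.fun_add analyticAt_snd)
        have h10 : AnalyticAt ℝ η ((z.1, z.2 - ξ z.1).1, ξ (z.1, z.2 - ξ z.1).1 +
            (z.1, z.2 - ξ z.1).2) := by
          show AnalyticAt ℝ η (z.1, ξ z.1 + (z.2 - ξ z.1))
          rw [add_sub_cancel]
          exact hza
        exact (AnalyticAt.fun_comp (g := η) (f := fun z : ℝ × ℝ => ((z.1, ξ z.1 + z.2) : ℝ × ℝ))
          h10 h9).differentiableAt
      rw [e1.unique e2]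
      exact hz
  · exact absurd (TT.perf_ev hC ht₁ hb' hbC) hb0

end Pool.Agent.Lib.MP_28b8de_an.KK
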