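import Pool.Agent.Lib.MP_28b8de_an.K.KSLc

/-!
MP_28b8de_an, module KSCurve.

Scalar extremals that vanish on C.
PROOF.  X := x.  Near t₁: X = ϕ = 0 on C.  Bf (v,Y,X) := η (v,X) (v ∈ ℝ), α (v,Y,X) := F (v,X), g (v,Y,X) := G (v,X).  sd_lc at points of C near t₁ (Lc, Lq, Lp with Y = 0).
(1) `TT.kder_ev` (m = X, A = F (t, X t), B = G (t, X t)): |F (t,0)| ≤ |G (t,0)| for t ∈ C near t₁.
(2) If |F (t,0)| = |G (t,0)| for all t ∈ C near t₁: F (v,0)² - G (v,0)² is analytic in v and vanishes on C, so it vanishes near t₁ (`TT.perf_ev`); G (v,0) ≠ 0 near, (F/G)² = 1, F/G is continuous, so F (v,0) = -ν G (v,0) near t₁, ν = ±1.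
`TT.lc_sat` (Y = 0): X = 0 on [s,s'] for s < s' in C near t₁.  `TT.three_points`: s < t₂ < s' in C near t₁, so X = 0 near t₂: first alternative.
(3) Otherwise there is t₂ ∈ C near t₁ with |F (t₂,0)| < |G (t₂,0)|.  f := fX Bf, f (v,X) = η (v,X) - η (v,0).  If f = 0 near (t₂,0): Dn η = Dn f = 0 near (t₂, 0) = (t₂, x t₂): second alternative.
Otherwise `TT.order` (w t = t; Gen C (fun t => t) t for t ∈ C is `TT.perf_ev`): t₃ ∈ C close to t₂ and m; m ≠ 0 since f (v,0) = 0; m ≠ 1: Dn f (t₃,0) = Dn η (t₃,0) = 0 by sd_kder.  So m ≥ 2, and |F (t₃,0)| < |G (t₃,0)| (continuity).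
`TT.lc_one` at t₃ with pp = 1, n from sd_lc: n + Dn η (t, X t) = -ϕ (Dn F + u Dn G), |..| ≤ K |ϕ|, fderiv Bf (v,Y,X) (0,0,1) = Dn η (v,X), y' = 0: X = 0 on [s,s'] for s < s' in C near t₃.  three_points as in (2): first alternative.
-/

set_option linter.unusedSectionVars false

namespace Pool.Agent.Lib.MP_28b8de_an.KK

open Filter Topology Set MeasureTheory
open Pool.Agent.Lib.MP_28b8de_an.PT (Adm Perf)
open Pool.Agent.Lib.MP_28b8de_an.TT (Env Sol Jn Tr SmAt Goal dx Dn Gen Lc Lp Lq fX cf)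
open Pool.Agent.Lib.MP_28b8de_an.DD (LTraj LRep Ch)

/-- the radius form of a local property -/
private theorem KSCurve_rad {P : ℝ → Prop} {t₀ : ℝ} (h : ∀ᶠ t in 𝓝 t₀, P t) :
    ∃ δ > 0, ∀ t, |t - t₀| < δ → P t := by
  obtain ⟨δ, hδ, h1⟩ := Metric.eventually_nhds_iff.1 h
  exact ⟨δ, hδ, fun t ht => h1 (by rw [Real.dist_eq]; exact ht)⟩

/-- `t ∈ C` between two points where `x` vanishes on the interval -/
private theorem KSCurve_mid {x : ℝ → ℝ} {s t s' : ℝ} (h1 : s < t) (h2 : t < s')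
    (h : ∀ r ∈ Icc s s', x r = 0) : ∀ᶠ r in 𝓝 t, x r = 0 := by
  filter_upwards [Ioo_mem_nhds h1 h2] with r hr
  exact h r ⟨hr.1.le, hr.2.le⟩

private theorem KSCurve_an3 {f : ℝ × ℝ → ℝ} {t x : ℝ} (y : ℝ) (hf : AnalyticAt ℝ f (t, x)) :
    AnalyticAt ℝ (fun z : ℝ × ℝ × ℝ => f (z.1, z.2.2)) (t, y, x) := by
  have h1 : AnalyticAt ℝ (fun z : ℝ × ℝ × ℝ => (z.1, z.2.2)) (t, y, x) :=
    analyticAt_fst.prod (analyticAt_snd.comp analyticAt_snd)
  exact AnalyticAt.comp (g := f) (f := fun z : ℝ × ℝ × ℝ => (z.1, z.2.2)) hf h1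

private theorem KSCurve_an1 {f : ℝ × ℝ → ℝ} {t : ℝ} (hf : AnalyticAt ℝ f (t, 0)) :
    AnalyticAt ℝ (fun v : ℝ => f (v, 0)) t := by
  have h1 : AnalyticAt ℝ (fun v : ℝ => ((v, (0 : ℝ)) : ℝ × ℝ)) t :=
    analyticAt_id.prod analyticAt_const
  exact AnalyticAt.comp (g := f) (f := fun v : ℝ => ((v, (0 : ℝ)) : ℝ × ℝ)) hf h1

/-- the derivative of `(v,Y,X) ↦ η(v,X)` in `X` -/
private theorem KSCurve_d3 {η : ℝ × ℝ → ℝ} {t x : ℝ} (y : ℝ) (hη : DifferentiableAt ℝ η (t, x)) :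
    fderiv ℝ (fun z : ℝ × ℝ × ℝ => η (z.1, z.2.2)) (t, y, x) (0, 0, 1) = Dn η (t, x) := by
  have h1 : HasFDerivAt (fun z : ℝ × ℝ × ℝ => (z.1, z.2.2))
      ((ContinuousLinearMap.fst ℝ ℝ (ℝ × ℝ)).prod
        ((ContinuousLinearMap.snd ℝ ℝ ℝ).comp (ContinuousLinearMap.snd ℝ ℝ (ℝ × ℝ)))) (t, y, x) :=
    ((ContinuousLinearMap.fst ℝ ℝ (ℝ × ℝ)).prod
        ((ContinuousLinearMap.snd ℝ ℝ ℝ).comp (ContinuousLinearMap.snd ℝ ℝ (ℝ × ℝ)))).hasFDerivAt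
  have h2 : HasFDerivAt η (fderiv ℝ η (t, x)) ((fun z : ℝ × ℝ × ℝ => (z.1, z.2.2)) (t, y, x)) :=
    hη.hasFDerivAt
  have h3 := h2.comp (t, y, x) h1
  have h4 : (fun z : ℝ × ℝ × ℝ => η (z.1, z.2.2)) = η ∘ (fun z : ℝ × ℝ × ℝ => (z.1, z.2.2)) := rfl
  rw [h4, h3.fderiv]
  simp [Dn]

/-- the derivative of `(v,X) ↦ η(v,0)` in `X` -/
private theorem KSCurve_d0 {η : ℝ × ℝ → ℝ} {z : ℝ × ℝ} (hη : DifferentiableAt ℝ η (z.1, 0)) :
    HasFDerivAt (fun p : ℝ × ℝ => η (p.1, 0)) ((fderiv ℝ η (z.1, 0)).comp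
      ((ContinuousLinearMap.fst ℝ ℝ ℝ).prod 0)) z := by
  have h1 : HasFDerivAt (fun p : ℝ × ℝ => ((p.1, (0 : ℝ)) : ℝ × ℝ))
      ((ContinuousLinearMap.fst ℝ ℝ ℝ).prod 0) z :=
    (ContinuousLinearMap.fst ℝ ℝ ℝ).hasFDerivAt.prodMk (hasFDerivAt_const (0 : ℝ) z)
  have h2 : HasFDerivAt η (fderiv ℝ η (z.1, 0)) ((fun p : ℝ × ℝ => ((p.1, (0 : ℝ)) : ℝ × ℝ)) z) :=
    hη.hasFDerivAt
  exact h2.comp z h1

private theorem KSCurve_fX {η : ℝ × ℝ → ℝ} {z : ℝ × ℝ} (hη : DifferentiableAt ℝ η (z.1, 0))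
    (hz : DifferentiableAt ℝ η z) :
    Dn (fX (fun z : ℝ × ℝ × ℝ => η (z.1, z.2.2))) z = Dn η z := by
  have h1 := hz.hasFDerivAt.sub (KSCurve_d0 hη)
  have h2 : (fX (fun z : ℝ × ℝ × ℝ => η (z.1, z.2.2))) = η - (fun p : ℝ × ℝ => η (p.1, 0)) := rfl
  unfold Dn
  rw [h2, h1.fderiv]
  have h3 : ((0 : ℝ), (0 : ℝ)) = 0 := rfl
  simp [h3]

theorem sd_curve {F G η : ℝ × ℝ → ℝ} {u : ℝ → ℝ} {a b : ℝ} {x ϕ : ℝ → ℝ} (h : SD F G η u a b x ϕ)
    {T : ℝ} {C : Set ℝ} (hC : Perf T C) {t₁ : ℝ} (ht₁ : t₁ ∈ C) (hab : t₁ ∈ Ioo a b)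
    (h0 : ∀ᶠ t in 𝓝 t₁, t ∈ C → x t = 0 ∧ ϕ t = 0) {ε : ℝ} (hε : 0 < ε) :
    ∃ t₂ ∈ C, |t₂ - t₁| < ε ∧ ((∀ᶠ t in 𝓝 t₂, x t = 0) ∨
      ∀ᶠ z in 𝓝 (t₂, x t₂), Dn η z = 0) := by
  obtain ⟨K, a', b', hm, hsub, hLc, hLq, hKb⟩ := sd_lc h hab
  have hK0 : 0 ≤ K := zero_le_one.trans hLc.K1
  have hN0 : ∀ᶠ t in 𝓝 t₁, t ∈ Ioo a' b' ∧ (t ∈ C → x t = 0 ∧ ϕ t = 0) := by
    filter_upwards [Ioo_mem_nhds hm.1 hm.2, h0] with t h1 h2
    exact ⟨h1, h2⟩
  obtain ⟨δ₁, hδ₁, hN⟩ := KSCurve_rad hN0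
  have hxc : ∀ t ∈ Ioo a b, ContinuousAt x t := fun t ht =>
    (h.xc t ht).continuousAt (Ioo_mem_nhds ht.1 ht.2)
  have hpair : ∀ t ∈ Ioo a b, ContinuousAt (fun t => ((t, x t) : ℝ × ℝ)) t := fun t ht =>
    continuousAt_id.prodMk (hxc t ht)
  have hFc : ∀ t ∈ Ioo a b, ContinuousAt (fun t => F (t, x t)) t := fun t ht =>
    ContinuousAt.comp (g := F) (f := fun t => ((t, x t) : ℝ × ℝ)) (h.Fa t ht).continuousAt
      (hpair t ht)
  have hGc : ∀ t ∈ Ioo a b, ContinuousAt (fun t => G (t, x t)) t := fun t ht =>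
    ContinuousAt.comp (g := G) (f := fun t => ((t, x t) : ℝ × ℝ)) (h.Ga t ht).continuousAt
      (hpair t ht)
  have hLp : ∀ t ∈ C, |t - t₁| < δ₁ → Lp a' b' (fun t => t) (fun _ => 0) x
      (fun z : ℝ × ℝ × ℝ => F (z.1, z.2.2)) (fun z : ℝ × ℝ × ℝ => G (z.1, z.2.2)) t := by
    intro t htC ht
    obtain ⟨h1, h2⟩ := hN t ht
    have hx : x t = 0 := (h2 htC).1
    have hFt := h.Fa t (hsub h1)
    have hGt := h.Ga t (hsub h1)
    rw [hx] at hFt hGt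
    exact ⟨h1, hx, rfl, KSCurve_an3 0 hFt, KSCurve_an3 0 hGt⟩
  have hx1 : x t₁ = 0 := (h0.self_of_nhds ht₁).1
  -- (1)
  have hab' : ∀ᶠ t in 𝓝 t₁, t ∈ Ioo a b := Ioo_mem_nhds hab.1 hab.2
  obtain ⟨δ₂, hδ₂, hI⟩ := KSCurve_rad hab'
  have hle : ∀ᶠ t in 𝓝 t₁, t ∈ C → |F (t, x t)| ≤ |G (t, x t)| := by
    refine TT.kder_ev hC ht₁ (A := fun t => F (t, x t)) (B := fun t => G (t, x t)) (m := x) h.adm
      (hab'.mono hFc) (hab'.mono hGc) (h0.mono fun t ht htC => (ht htC).1) hδ₂ ?_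
    intro s hs s' hs'
    refine h.xeq s (hI s ?_) s' (hI s' ?_)
    · rw [abs_lt]; constructor <;> linarith [hs.1, hs.2]
    · rw [abs_lt]; constructor <;> linarith [hs'.1, hs'.2]
  by_cases hsat : ∀ᶠ t in 𝓝 t₁, t ∈ C → |F (t, x t)| = |G (t, x t)|
  · -- (2)
    have hF1 : AnalyticAt ℝ (fun v : ℝ => F (v, 0)) t₁ :=
      KSCurve_an1 (by have := h.Fa t₁ hab; rwa [hx1] at this)
    have hG1 : AnalyticAt ℝ (fun v : ℝ => G (v, 0)) t₁ :=
      KSCurve_an1 (by have := h.Ga t₁ hab; rwa [hx1] at this)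
    have hG10 : G (t₁, 0) ≠ 0 := by have := h.G0 t₁ hab; rwa [hx1] at this
    have hsq : ∀ᶠ t in 𝓝 t₁, F (t, 0) ^ 2 - G (t, 0) ^ 2 = 0 := by
      refine TT.perf_ev hC ht₁ (f := fun t : ℝ => F (t, 0) ^ 2 - G (t, 0) ^ 2)
        ((hF1.pow 2).sub (hG1.pow 2)) ?_
      filter_upwards [hsat, h0] with t h1 h2 htC
      have h3 := h1 htC
      rw [(h2 htC).1] at h3
      have h4 : F (t, 0) ^ 2 = G (t, 0) ^ 2 := by rw [← sq_abs (F (t, 0)), h3, sq_abs]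
      rw [h4, sub_self]
    have hG0' : ∀ᶠ t in 𝓝 t₁, G (t, 0) ≠ 0 := hG1.continuousAt.eventually_ne hG10
    have hqc : ContinuousAt (fun t : ℝ => F (t, 0) / G (t, 0)) t₁ :=
      hF1.continuousAt.div hG1.continuousAt hG10
    have hq1 : ∀ᶠ t in 𝓝 t₁, (F (t, 0) / G (t, 0)) = 1 ∨ (F (t, 0) / G (t, 0)) = -1 := by
      filter_upwards [hsq, hG0'] with t h1 h2
      have h3 : (F (t, 0) / G (t, 0)) ^ 2 = 1 := by
        rw [div_pow]
        have h4 : F (t, 0) ^ 2 = G (t, 0) ^ 2 := by linarith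
        rw [h4]
        exact div_self (pow_ne_zero 2 h2)
      have h5 : (F (t, 0) / G (t, 0) - 1) * (F (t, 0) / G (t, 0) + 1) = 0 := by linear_combination h3
      rcases mul_eq_zero.1 h5 with h6 | h6
      · exact Or.inl (by linarith)
      · exact Or.inr (by linarith)
    obtain ⟨ν, hν, hs⟩ : ∃ ν : ℝ, (ν = 1 ∨ ν = -1) ∧
        ∀ᶠ v in 𝓝 t₁, F (v, 0) = -(ν * G (v, 0)) := by
      rcases hq1.self_of_nhds with h1 | h1
      · refine ⟨-1, Or.inr rfl, ?_⟩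
        have h2 : ∀ᶠ t in 𝓝 t₁, (F (t, 0) / G (t, 0)) > 0 :=
          hqc.eventually (lt_mem_nhds (by
            show (0 : ℝ) < F (t₁, 0) / G (t₁, 0)
            rw [h1]; exact one_pos))
        filter_upwards [h2, hq1, hG0'] with t e1 e2 e3
        rcases e2 with e2 | e2
        · rw [div_eq_iff e3] at e2
          rw [e2]; ring
        · rw [e2] at e1; linarith
      · refine ⟨1, Or.inl rfl, ?_⟩
        have h2 : ∀ᶠ t in 𝓝 t₁, (F (t, 0) / G (t, 0)) < 0 :=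
          hqc.eventually (gt_mem_nhds (by
            show F (t₁, 0) / G (t₁, 0) < 0
            rw [h1]; norm_num))
        filter_upwards [h2, hq1, hG0'] with t e1 e2 e3
        rcases e2 with e2 | e2
        · rw [e2] at e1; linarith
        · rw [div_eq_iff e3] at e2
          rw [e2]; ring
    obtain ⟨δ, hδ, hz⟩ := TT.lc_sat hLc (hLp t₁ ht₁ (by simpa using hδ₁)) (ν := ν) hG10 hν hs
      (K' := 0) (Eventually.of_forall fun t => by simp)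
    obtain ⟨s, hs1, t₂, ht₂, s', hs2, hst, hts, hds, hdt, hds'⟩ :=
      TT.three_points hC ht₁ (ε := min ε (min δ δ₁)) (lt_min hε (lt_min hδ hδ₁))
    simp only [lt_min_iff] at hds hdt hds'
    refine ⟨t₂, ht₂, hdt.1, Or.inl (KSCurve_mid hst hts fun r hr => ?_)⟩
    exact (hz s s' (hst.trans hts) hds.2.1 hds'.2.1 ((hN s hds.2.2).2 hs1).1 rfl
      ((hN s' hds'.2.2).2 hs2).1 r hr).1
  · -- (3)
    rw [not_eventually] at hsat
    have hne := (hsat.and_eventually (hle.and ((Metric.ball_mem_nhds t₁ (lt_min hε hδ₁) :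
      ∀ᶠ t in 𝓝 t₁, t ∈ Metric.ball t₁ (min ε δ₁))))).exists
    obtain ⟨t₂, hA, hB, hC2⟩ := hne
    rw [Classical.not_imp] at hA
    obtain ⟨ht₂, hA⟩ := hA
    rw [Real.dist_eq, lt_min_iff] at hC2
    obtain ⟨hd1, hd2⟩ := hC2
    have hm2 := (hN t₂ hd2).1
    have hx2 : x t₂ = 0 := ((hN t₂ hd2).2 ht₂).1
    have hlt2 : |F (t₂, x t₂)| < |G (t₂, x t₂)| := lt_of_le_of_ne (hB ht₂) hA
    have hη2 : AnalyticAt ℝ η (t₂, 0) := by
      have := h.ηa t₂ (hsub hm2); rwa [hx2] at this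
    by_cases hz : ∀ᶠ p in 𝓝 ((t₂, (0 : ℝ)) : ℝ × ℝ), fX (fun z : ℝ × ℝ × ℝ => η (z.1, z.2.2)) p = 0
    · refine ⟨t₂, ht₂, hd1, Or.inr ?_⟩
      rw [hx2]
      have hp0 : ContinuousAt (fun p : ℝ × ℝ => ((p.1, (0 : ℝ)) : ℝ × ℝ)) (t₂, (0 : ℝ)) :=
        continuousAt_fst.prodMk continuousAt_const
      filter_upwards [hz.eventually_nhds, hη2.eventually_analyticAt,
        hp0.eventually hη2.eventually_analyticAt] with z h1 h2 h3
      rw [← KSCurve_fX h3.differentiableAt h2.differentiableAt]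
      have h4 : fX (fun z : ℝ × ℝ × ℝ => η (z.1, z.2.2)) =ᶠ[𝓝 z] fun _ => 0 := h1
      unfold Dn
      rw [h4.fderiv_eq]
      simp
    · have hcont : ∀ᶠ t in 𝓝 t₂, |F (t, x t)| < |G (t, x t)| :=
        (hFc t₂ (hsub hm2)).abs.eventually_lt (hGc t₂ (hsub hm2)).abs hlt2
      obtain ⟨δ₃, hδ₃, hlt3⟩ := KSCurve_rad hcont
      have hgen : ∀ᶠ t in 𝓝 t₂, t ∈ C → Gen C (fun t => t) t :=
        Eventually.of_forall fun t ht f hf hv => TT.perf_ev hC ht hf hv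
      obtain ⟨t₃, ht₃, hd3, hfa, m, ho, hnem⟩ := TT.order (w := fun t : ℝ => t) ht₂
        (Eventually.of_forall fun t => continuousAt_id) hgen
        (TT.fX_an (KSCurve_an3 0 hη2)) hz
        (ε := min δ₃ (min (ε - |t₂ - t₁|) (δ₁ - |t₂ - t₁|)))
        (lt_min hδ₃ (lt_min (by linarith) (by linarith)))
      simp only [lt_min_iff] at hd3
      have hd31 : |t₃ - t₁| < ε := by
        have := abs_sub_le t₃ t₂ t₁; linarith [hd3.2.1]
      have hd32 : |t₃ - t₁| < δ₁ := by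
        have := abs_sub_le t₃ t₂ t₁; linarith [hd3.2.2]
      have hm3 := (hN t₃ hd32).1
      have hx3 : x t₃ = 0 := ((hN t₃ hd32).2 ht₃).1
      have hlt : |F (t₃, x t₃)| < |G (t₃, x t₃)| := hlt3 t₃ hd3.1
      rw [hx3] at hlt
      have hη3 : AnalyticAt ℝ η (t₃, 0) := by
        have := h.ηa t₃ (hsub hm3); rwa [hx3] at this
      have hloc : ∀ᶠ t in 𝓝 t₃, |t - t₁| < δ₁ := by
        have : ContinuousAt (fun t : ℝ => |t - t₁|) t₃ := (continuousAt_id.sub continuousAt_const).abs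
        exact this.eventually (gt_mem_nhds hd32)
      have hm2' : 2 ≤ m := by
        rcases m with _ | _ | m
        · exact absurd (by simp [fX]) hnem
        · exfalso
          apply hnem
          rw [Function.iterate_one, KSCurve_fX hη3.differentiableAt hη3.differentiableAt]
          have h1 := sd_kder h hC ht₃ (hsub hm3)
            (hloc.mono fun t ht htC => ((hN t ht).2 htC).2)
          have h2 := h1.self_of_nhds ht₃
          rwa [hx3] at h2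
        · omega
      obtain ⟨δ, hδ, hz3⟩ := TT.lc_one hLc (hLp t₃ ht₃ hd32) hlt hLq (KSCurve_an3 0 hη3) hm2' ho hnem
        (pp := fun _ => 1) (fun s _ t _ => by simpa using mul_nonneg hK0 (abs_nonneg (s - t)))
        one_ne_zero (by
          intro t ht
          rw [one_mul, KSCurve_d3 0 (h.ηa t (hsub ht)).differentiableAt]
          have e1 : -(ϕ t * (Dn F (t, x t) + u t * Dn G (t, x t)) + Dn η (t, x t)) + Dn η (t, x t) =
              -(ϕ t * (Dn F (t, x t) + u t * Dn G (t, x t))) := by ring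
          rw [e1, abs_neg, abs_mul, mul_comm K]
          refine mul_le_mul_of_nonneg_left ?_ (abs_nonneg _)
          refine (abs_add_le _ _).trans ((add_le_add le_rfl ?_).trans (hKb t ht))
          rw [abs_mul]
          exact mul_le_of_le_one_left (abs_nonneg _) (h.adm.2 t))
        (K' := 0) (Eventually.of_forall fun t => by simp)
      obtain ⟨s, hs1, t₄, ht₄, s', hs2, hst, hts, hds, hdt, hds'⟩ :=
        TT.three_points hC ht₃ (ε := min (ε - |t₃ - t₁|) (min δ (δ₁ - |t₃ - t₁|)))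
          (lt_min (by linarith) (lt_min hδ (by linarith)))
      simp only [lt_min_iff] at hds hdt hds'
      have e1 : |s - t₁| < δ₁ := by have := abs_sub_le s t₃ t₁; linarith [hds.2.2]
      have e2 : |s' - t₁| < δ₁ := by have := abs_sub_le s' t₃ t₁; linarith [hds'.2.2]
      refine ⟨t₄, ht₄, by have := abs_sub_le t₄ t₃ t₁; linarith [hdt.1],
        Or.inl (KSCurve_mid hst hts fun r hr => ?_)⟩
      have f1 := (hN s e1).2 hs1
      have f2 := (hN s' e2).2 hs2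
      exact (hz3 s s' (hst.trans hts) hds.2.1 hds'.2.1 f1.1 rfl f1.2 f2.1 f2.2 r hr).1

end Pool.Agent.Lib.MP_28b8de_an.KK
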