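import Pool.Agent.Lib.MP_28b8de_an.K.KDefs

/-!
MP_28b8de_an, module KSFacts.

Elementary facts on scalar data.
PROOFS.  SD.mono: restriction.  sd_kder: `TT.kder_ev` for m = ϕ, A = -(ϕ Dn F + Dn η), B = -(ϕ Dn G) (continuous near t₁: F, G, η are analytic along the curve and x is continuous): |A| ≤ |B| on C near t₁ and ϕ = 0 on C.
sd_shift: F̃ (t,X) = F (t, ξ t + X) - ξ' t etc.: Dn F̃ (t,X) = Dn F (t, ξ t + X), so ϕeq is the same; X = x - ξ, ξ t - ξ r = ∫ ξ' (ξ is analytic on Ioo a b); G̃ (t, X t) = G (t, x t).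
-/

set_option linter.unusedSectionVars false

namespace Pool.Agent.Lib.MP_28b8de_an.KK

open Filter Topology Set MeasureTheory
open Pool.Agent.Lib.MP_28b8de_an.PT (Adm Perf)
open Pool.Agent.Lib.MP_28b8de_an.TT (Env Sol Jn Tr SmAt Goal dx Dn Gen Lc Lp Lq fX cf)
open Pool.Agent.Lib.MP_28b8de_an.DD (LTraj LRep Ch)

private theorem KSFacts_dn {F : ℝ × ℝ → ℝ} {x : ℝ → ℝ} {t : ℝ} (hF : AnalyticAt ℝ F (t, x t))
    (hx : ContinuousAt x t) : ContinuousAt (fun τ => Dn F (τ, x τ)) t := by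
  have h1 : ContinuousAt (fun z => fderiv ℝ F z) (t, x t) := hF.fderiv.continuousAt
  have h2 : ContinuousAt (fun z : ℝ × ℝ => Dn F z) (t, x t) := by
    unfold Dn
    exact h1.clm_apply continuousAt_const
  have h3 : ContinuousAt (fun τ : ℝ => (τ, x τ)) t := continuousAt_id.prodMk hx
  exact ContinuousAt.comp (f := fun τ : ℝ => (τ, x τ)) (g := fun z : ℝ × ℝ => Dn F z) h2 h3

private theorem KSFacts_an {F : ℝ × ℝ → ℝ} {x : ℝ → ℝ} {t : ℝ} (hF : AnalyticAt ℝ F (t, x t))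
    (hx : ContinuousAt x t) : ContinuousAt (fun τ => F (τ, x τ)) t := by
  have h3 : ContinuousAt (fun τ : ℝ => (τ, x τ)) t := continuousAt_id.prodMk hx
  exact ContinuousAt.comp (f := fun τ : ℝ => (τ, x τ)) (g := fun z : ℝ × ℝ => F z) hF.continuousAt h3

private theorem KSFacts_sub {a b r t : ℝ} (hr : r ∈ Ioo a b) (ht : t ∈ Ioo a b) :
    uIcc r t ⊆ Ioo a b := by
  intro s hs
  rw [mem_uIcc] at hs
  rcases hs with hs | hs
  · exact ⟨lt_of_lt_of_le hr.1 hs.1, lt_of_le_of_lt hs.2 ht.2⟩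
  · exact ⟨lt_of_lt_of_le ht.1 hs.1, lt_of_le_of_lt hs.2 hr.2⟩

theorem SD.mono {F G η : ℝ × ℝ → ℝ} {u : ℝ → ℝ} {a b a' b' : ℝ} {x ϕ : ℝ → ℝ}
    (h : SD F G η u a b x ϕ) (ha : a ≤ a') (hb : b' ≤ b) : SD F G η u a' b' x ϕ := by
  have hs : Ioo a' b' ⊆ Ioo a b := Ioo_subset_Ioo ha hb
  exact
    { adm := h.adm
      Fa := fun t ht => h.Fa t (hs ht)
      Ga := fun t ht => h.Ga t (hs ht)
      ηa := fun t ht => h.ηa t (hs ht)
      G0 := fun t ht => h.G0 t (hs ht)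
      xc := h.xc.mono hs
      xeq := fun r hr t ht => h.xeq r (hs hr) t (hs ht)
      ϕc := h.ϕc.mono hs
      ϕeq := fun r hr t ht => h.ϕeq r (hs hr) t (hs ht)
      us := h.us.mono fun t ht ht' => ht (hs ht') }

theorem sd_kder {F G η : ℝ × ℝ → ℝ} {u : ℝ → ℝ} {a b : ℝ} {x ϕ : ℝ → ℝ} (h : SD F G η u a b x ϕ)
    {T : ℝ} {C : Set ℝ} (hC : Perf T C) {t₁ : ℝ} (ht₁ : t₁ ∈ C) (hab : t₁ ∈ Ioo a b)
    (h0 : ∀ᶠ t in 𝓝 t₁, t ∈ C → ϕ t = 0) : ∀ᶠ t in 𝓝 t₁, t ∈ C → Dn η (t, x t) = 0 := by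
  have hx : ∀ t ∈ Ioo a b, ContinuousAt x t := fun t ht => h.xc.continuousAt (Ioo_mem_nhds ht.1 ht.2)
  have hϕ : ∀ t ∈ Ioo a b, ContinuousAt ϕ t := fun t ht => h.ϕc.continuousAt (Ioo_mem_nhds ht.1 ht.2)
  have hev : ∀ᶠ t in 𝓝 t₁, t ∈ Ioo a b := Ioo_mem_nhds hab.1 hab.2
  have hA : ∀ᶠ t in 𝓝 t₁, ContinuousAt (fun τ => -(ϕ τ * Dn F (τ, x τ) + Dn η (τ, x τ))) t := by
    filter_upwards [hev] with t ht
    exact (((hϕ t ht).mul (KSFacts_dn (h.Fa t ht) (hx t ht))).add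
      (KSFacts_dn (h.ηa t ht) (hx t ht))).neg
  have hB : ∀ᶠ t in 𝓝 t₁, ContinuousAt (fun τ => -(ϕ τ * Dn G (τ, x τ))) t := by
    filter_upwards [hev] with t ht
    exact ((hϕ t ht).mul (KSFacts_dn (h.Ga t ht) (hx t ht))).neg
  have hε : 0 < min (t₁ - a) (b - t₁) := lt_min (by linarith [hab.1]) (by linarith [hab.2])
  have hsub : Ioo (t₁ - min (t₁ - a) (b - t₁)) (t₁ + min (t₁ - a) (b - t₁)) ⊆ Ioo a b := by
    apply Ioo_subset_Ioo
    · have := min_le_left (t₁ - a) (b - t₁)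
      linarith
    · have := min_le_right (t₁ - a) (b - t₁)
      linarith
  have h1 := TT.kder_ev hC ht₁ h.adm hA hB h0 hε (by
    intro s hs s' hs'
    rw [h.ϕeq s (hsub hs) s' (hsub hs'), ← intervalIntegral.integral_neg]
    congr 1
    funext τ
    ring)
  filter_upwards [h1, h0] with t ht1 ht2 htC
  have h2 := ht1 htC
  rw [ht2 htC] at h2
  simp only [zero_mul, zero_add, neg_zero, abs_zero, abs_neg] at h2
  exact abs_nonpos_iff.1 h2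

private theorem KSFacts_th {ξ : ℝ → ℝ} {t y : ℝ} (hξ : AnalyticAt ℝ ξ t) :
    AnalyticAt ℝ (fun z : ℝ × ℝ => (z.1, ξ z.1 + z.2)) (t, y) := by
  have h1 : AnalyticAt ℝ (fun z : ℝ × ℝ => z.1) (t, y) := analyticAt_fst
  have h2 : AnalyticAt ℝ (fun z : ℝ × ℝ => z.2) (t, y) := analyticAt_snd
  have h3 : AnalyticAt ℝ (fun z : ℝ × ℝ => ξ z.1) (t, y) :=
    AnalyticAt.comp (g := ξ) (f := fun z : ℝ × ℝ => z.1) (x := (t, y)) hξ h1
  exact h1.prod (h3.add h2)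

private theorem KSFacts_comp {ξ : ℝ → ℝ} {t y : ℝ} (hξ : AnalyticAt ℝ ξ t) {F : ℝ × ℝ → ℝ}
    (hF : AnalyticAt ℝ F (t, ξ t + y)) :
    AnalyticAt ℝ (fun z : ℝ × ℝ => F (z.1, ξ z.1 + z.2)) (t, y) :=
  AnalyticAt.comp (g := F) (f := fun z : ℝ × ℝ => (z.1, ξ z.1 + z.2)) (x := (t, y)) hF (KSFacts_th hξ)

private theorem KSFacts_Dn {ξ : ℝ → ℝ} {t y : ℝ} (hξ : AnalyticAt ℝ ξ t) {F : ℝ × ℝ → ℝ}
    (hF : AnalyticAt ℝ F (t, ξ t + y)) :
    Dn (fun z : ℝ × ℝ => F (z.1, ξ z.1 + z.2)) (t, y) = Dn F (t, ξ t + y) := by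
  unfold Dn
  have h1 : HasFDerivAt (fun z : ℝ × ℝ => (z.1, ξ z.1 + z.2))
      ((ContinuousLinearMap.fst ℝ ℝ ℝ).prod
        ((ContinuousLinearMap.toSpanSingleton ℝ (deriv ξ t)).comp (ContinuousLinearMap.fst ℝ ℝ ℝ) +
          ContinuousLinearMap.snd ℝ ℝ ℝ)) (t, y) := by
    have e1 : HasFDerivAt (fun z : ℝ × ℝ => z.1) (ContinuousLinearMap.fst ℝ ℝ ℝ) (t, y) := hasFDerivAt_fst
    have e2 : HasFDerivAt (fun z : ℝ × ℝ => z.2) (ContinuousLinearMap.snd ℝ ℝ ℝ) (t, y) := hasFDerivAt_snd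
    have e3 : HasFDerivAt ξ (ContinuousLinearMap.toSpanSingleton ℝ (deriv ξ t)) t :=
      hξ.differentiableAt.hasDerivAt.hasFDerivAt
    have e4 : HasFDerivAt (fun z : ℝ × ℝ => ξ z.1)
        ((ContinuousLinearMap.toSpanSingleton ℝ (deriv ξ t)).comp (ContinuousLinearMap.fst ℝ ℝ ℝ)) (t, y) :=
      HasFDerivAt.comp (g := ξ) (f := fun z : ℝ × ℝ => z.1) (t, y) e3 e1
    exact e1.prodMk (e4.add e2)
  have h2 : HasFDerivAt F (fderiv ℝ F (t, ξ t + y)) (t, ξ t + y) := hF.differentiableAt.hasFDerivAt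
  have h3 : HasFDerivAt (fun z : ℝ × ℝ => F (z.1, ξ z.1 + z.2)) _ (t, y) :=
    HasFDerivAt.comp (g := F) (f := fun z : ℝ × ℝ => (z.1, ξ z.1 + z.2)) (t, y) h2 h1
  rw [h3.fderiv]
  simp

private theorem KSFacts_Dn2 {ξ : ℝ → ℝ} {t y : ℝ} (hξ : AnalyticAt ℝ ξ t) {F : ℝ × ℝ → ℝ}
    (hF : AnalyticAt ℝ F (t, ξ t + y)) :
    Dn (fun z : ℝ × ℝ => F (z.1, ξ z.1 + z.2) - deriv ξ z.1) (t, y) = Dn F (t, ξ t + y) := by
  rw [← KSFacts_Dn hξ hF]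
  unfold Dn
  have e1 : HasFDerivAt (fun z : ℝ × ℝ => z.1) (ContinuousLinearMap.fst ℝ ℝ ℝ) (t, y) := hasFDerivAt_fst
  have e3 : HasFDerivAt (deriv ξ) (ContinuousLinearMap.toSpanSingleton ℝ (deriv (deriv ξ) t)) t :=
    hξ.deriv.differentiableAt.hasDerivAt.hasFDerivAt
  have e4 : HasFDerivAt (fun z : ℝ × ℝ => deriv ξ z.1)
      ((ContinuousLinearMap.toSpanSingleton ℝ (deriv (deriv ξ) t)).comp (ContinuousLinearMap.fst ℝ ℝ ℝ)) (t, y) :=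
    HasFDerivAt.comp (g := deriv ξ) (f := fun z : ℝ × ℝ => z.1) (t, y) e3 e1
  have e5 : HasFDerivAt (fun z : ℝ × ℝ => F (z.1, ξ z.1 + z.2))
      (fderiv ℝ (fun z : ℝ × ℝ => F (z.1, ξ z.1 + z.2)) (t, y)) (t, y) :=
    (KSFacts_comp hξ hF).differentiableAt.hasFDerivAt
  have e6 : HasFDerivAt (fun z : ℝ × ℝ => F (z.1, ξ z.1 + z.2) - deriv ξ z.1) _ (t, y) := e5.sub e4
  rw [e6.fderiv]
  simp

theorem sd_shift {F G η : ℝ × ℝ → ℝ} {u : ℝ → ℝ} {a b : ℝ} {x ϕ : ℝ → ℝ} (h : SD F G η u a b x ϕ)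
    {ξ : ℝ → ℝ} (hξ : ∀ t ∈ Ioo a b, AnalyticAt ℝ ξ t) :
    SD (fun z => F (z.1, ξ z.1 + z.2) - deriv ξ z.1) (fun z => G (z.1, ξ z.1 + z.2))
      (fun z => η (z.1, ξ z.1 + z.2)) u a b (fun t => x t - ξ t) ϕ := by
  have hx : ∀ t ∈ Ioo a b, ContinuousAt x t := fun t ht => h.xc.continuousAt (Ioo_mem_nhds ht.1 ht.2)
  have e0 : ∀ t, ξ t + (x t - ξ t) = x t := fun t => by ring
  have hF : ∀ t ∈ Ioo a b, AnalyticAt ℝ F (t, ξ t + (x t - ξ t)) := by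
    intro t ht
    rw [e0]
    exact h.Fa t ht
  have hG : ∀ t ∈ Ioo a b, AnalyticAt ℝ G (t, ξ t + (x t - ξ t)) := by
    intro t ht
    rw [e0]
    exact h.Ga t ht
  have hη : ∀ t ∈ Ioo a b, AnalyticAt ℝ η (t, ξ t + (x t - ξ t)) := by
    intro t ht
    rw [e0]
    exact h.ηa t ht
  refine
    { adm := h.adm
      Fa := ?_
      Ga := ?_
      ηa := ?_
      G0 := ?_
      xc := ?_
      xeq := ?_
      ϕc := h.ϕc
      ϕeq := ?_
      us := ?_ }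
  · intro t ht
    have h1 : AnalyticAt ℝ (fun z : ℝ × ℝ => deriv ξ z.1) (t, x t - ξ t) :=
      AnalyticAt.comp (g := deriv ξ) (f := fun z : ℝ × ℝ => z.1) (x := (t, x t - ξ t))
        (hξ t ht).deriv analyticAt_fst
    exact (KSFacts_comp (hξ t ht) (hF t ht)).sub h1
  · intro t ht
    exact KSFacts_comp (hξ t ht) (hG t ht)
  · intro t ht
    exact KSFacts_comp (hξ t ht) (hη t ht)
  · intro t ht
    show G (t, ξ t + (x t - ξ t)) ≠ 0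
    rw [e0]
    exact h.G0 t ht
  · exact h.xc.sub fun t ht => (hξ t ht).continuousAt.continuousWithinAt
  · intro r hr t ht
    have hsub := KSFacts_sub hr ht
    have hFc : ContinuousOn (fun τ => F (τ, x τ)) (uIcc r t) := fun τ hτ =>
      (KSFacts_an (h.Fa τ (hsub hτ)) (hx τ (hsub hτ))).continuousWithinAt
    have hGc : ContinuousOn (fun τ => G (τ, x τ)) (uIcc r t) := fun τ hτ =>
      (KSFacts_an (h.Ga τ (hsub hτ)) (hx τ (hsub hτ))).continuousWithinAt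
    have hξc : ContinuousOn (deriv ξ) (uIcc r t) := fun τ hτ =>
      (hξ τ (hsub hτ)).deriv.continuousAt.continuousWithinAt
    have hGi : IntervalIntegrable (fun τ => u τ * G (τ, x τ)) volume r t := by
      refine hGc.intervalIntegrable.mono_fun ?_ ?_
      · exact h.adm.1.aestronglyMeasurable.mul hGc.intervalIntegrable.def'.aestronglyMeasurable
      · refine Filter.Eventually.of_forall fun τ => ?_
        show ‖u τ * G (τ, x τ)‖ ≤ ‖G (τ, x τ)‖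
        rw [norm_mul]
        have h2 : ‖u τ‖ ≤ 1 := h.adm.2 τ
        calc ‖u τ‖ * ‖G (τ, x τ)‖ ≤ 1 * ‖G (τ, x τ)‖ := by gcongr
          _ = ‖G (τ, x τ)‖ := one_mul _
    have hI : IntervalIntegrable (fun τ => F (τ, x τ) + u τ * G (τ, x τ)) volume r t :=
      hFc.intervalIntegrable.add hGi
    have h5 : ∫ τ in r..t, deriv ξ τ = ξ t - ξ r := by
      refine intervalIntegral.integral_deriv_eq_sub (fun τ hτ => (hξ τ (hsub hτ)).differentiableAt)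
        hξc.intervalIntegrable
    have h6 : (∫ τ in r..t, ((fun z : ℝ × ℝ => F (z.1, ξ z.1 + z.2) - deriv ξ z.1) (τ, x τ - ξ τ) +
        u τ * (fun z : ℝ × ℝ => G (z.1, ξ z.1 + z.2)) (τ, x τ - ξ τ))) =
        ∫ τ in r..t, ((F (τ, x τ) + u τ * G (τ, x τ)) - deriv ξ τ) := by
      congr 1
      funext τ
      show F (τ, ξ τ + (x τ - ξ τ)) - deriv ξ τ + u τ * G (τ, ξ τ + (x τ - ξ τ)) = _
      rw [e0]
      ring
    show x t - ξ t - (x r - ξ r) = _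
    rw [h6, intervalIntegral.integral_sub hI hξc.intervalIntegrable, h5, ← h.xeq r hr t ht]
    ring
  · intro r hr t ht
    have hsub := KSFacts_sub hr ht
    rw [h.ϕeq r hr t ht]
    congr 1
    apply intervalIntegral.integral_congr
    intro τ hτ
    have hτ' := hsub hτ
    show _ = ϕ τ * (Dn (fun z : ℝ × ℝ => F (z.1, ξ z.1 + z.2) - deriv ξ z.1) (τ, x τ - ξ τ) +
      u τ * Dn (fun z : ℝ × ℝ => G (z.1, ξ z.1 + z.2)) (τ, x τ - ξ τ)) +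
      Dn (fun z : ℝ × ℝ => η (z.1, ξ z.1 + z.2)) (τ, x τ - ξ τ)
    rw [KSFacts_Dn2 (hξ τ hτ') (hF τ hτ'), KSFacts_Dn (hξ τ hτ') (hG τ hτ'),
      KSFacts_Dn (hξ τ hτ') (hη τ hτ'), e0]
  · filter_upwards [h.us] with t ht ht'
    show u t * (G (t, ξ t + (x t - ξ t)) * ϕ t) = |G (t, ξ t + (x t - ξ t)) * ϕ t|
    rw [e0]
    exact ht ht'

end Pool.Agent.Lib.MP_28b8de_an.KK
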