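import Pool.Agent.Lib.MP_28b8de_an.K.KSFacts

/-!
MP_28b8de_an, module KSLc.

Local data (in the sense of T/) of a scalar extremal.
PROOF.  Take a' < t₁ < b' with [a',b'] ⊂ (a,b).  F, G, η and their first derivatives are continuous along the curve, hence bounded on [a',b'] (compact), also ϕ; K large.
Lc: w t = t, w' = 1, Y = 0, Xeq from SD.xeq.  Lq: n t := -(ϕ (Dn F + u Dn G) + Dn η), bounded, measurable: integrable; usgn from SD.us.
-/

set_option linter.unusedSectionVars false

namespace Pool.Agent.Lib.MP_28b8de_an.KK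

open Filter Topology Set MeasureTheory
open Pool.Agent.Lib.MP_28b8de_an.PT (Adm Perf)
open Pool.Agent.Lib.MP_28b8de_an.TT (Env Sol Jn Tr SmAt Goal dx Dn Gen Lc Lp Lq fX cf)
open Pool.Agent.Lib.MP_28b8de_an.DD (LTraj LRep Ch)

private theorem kslc_dn {F : ℝ × ℝ → ℝ} {x : ℝ → ℝ} {a b : ℝ}
    (hF : ∀ t ∈ Ioo a b, AnalyticAt ℝ F (t, x t)) (hx : ContinuousOn x (Ioo a b)) :
    ContinuousOn (fun t => Dn F (t, x t)) (Ioo a b) := by
  intro t ht
  have h1 : ContinuousAt (fun p => fderiv ℝ F p) (t, x t) := (hF t ht).fderiv.continuousAt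
  have h2 : ContinuousWithinAt (fun t => (t, x t)) (Ioo a b) t :=
    continuousWithinAt_id.prodMk (hx t ht)
  have h3 : ContinuousWithinAt (fun t => fderiv ℝ F (t, x t)) (Ioo a b) t :=
    ContinuousAt.comp_continuousWithinAt (f := fun t => (t, x t)) h1 h2
  exact h3.clm_apply continuousWithinAt_const

theorem sd_lc {F G η : ℝ × ℝ → ℝ} {u : ℝ → ℝ} {a b : ℝ} {x ϕ : ℝ → ℝ} (h : SD F G η u a b x ϕ)
    {t₁ : ℝ} (hab : t₁ ∈ Ioo a b) :
    ∃ K a' b' : ℝ, t₁ ∈ Ioo a' b' ∧ Ioo a' b' ⊆ Ioo a b ∧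
      Lc K u a' b' (fun t => t) (fun _ => (1 : ℝ)) (fun _ => 0) (fun _ => 0) x
        (fun z => F (z.1, z.2.2)) (fun z => G (z.1, z.2.2)) ∧
      Lq K u a' b' (fun t => t) (fun _ => 0) x (fun z => G (z.1, z.2.2)) ϕ
        (fun t => -(ϕ t * (Dn F (t, x t) + u t * Dn G (t, x t)) + Dn η (t, x t))) ∧
      ∀ t ∈ Ioo a' b', |Dn F (t, x t)| + |Dn G (t, x t)| ≤ K := by
  obtain ⟨h1, h2⟩ := hab
  have hsub : Icc ((a + t₁) / 2) ((t₁ + b) / 2) ⊆ Ioo a b := by
    intro t ht
    exact ⟨by linarith [ht.1], by linarith [ht.2]⟩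
  set a' := (a + t₁) / 2 with ha'
  set b' := (t₁ + b) / 2 with hb'
  have hsub' : Ioo a' b' ⊆ Ioo a b := Ioo_subset_Icc_self.trans hsub
  have cF := kslc_dn h.Fa h.xc
  have cG := kslc_dn h.Ga h.xc
  have cη := kslc_dn h.ηa h.xc
  obtain ⟨KF, hKF⟩ := isCompact_Icc.exists_bound_of_continuousOn (cF.mono hsub)
  obtain ⟨KG, hKG⟩ := isCompact_Icc.exists_bound_of_continuousOn (cG.mono hsub)
  obtain ⟨Kη, hKη⟩ := isCompact_Icc.exists_bound_of_continuousOn (cη.mono hsub)
  obtain ⟨Kϕ, hKϕ⟩ := isCompact_Icc.exists_bound_of_continuousOn (h.ϕc.mono hsub)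
  have ht1 : t₁ ∈ Icc a' b' := ⟨by linarith, by linarith⟩
  have pF : 0 ≤ KF := (norm_nonneg _).trans (hKF t₁ ht1)
  have pG : 0 ≤ KG := (norm_nonneg _).trans (hKG t₁ ht1)
  have pη : 0 ≤ Kη := (norm_nonneg _).trans (hKη t₁ ht1)
  have pϕ : 0 ≤ Kϕ := (norm_nonneg _).trans (hKϕ t₁ ht1)
  have hu : ∀ t, |u t| ≤ 1 := h.adm.2
  refine ⟨1 + KF + KG + (Kϕ * (KF + KG) + Kη), a', b', ⟨by linarith, by linarith⟩, hsub', ?_, ?_, ?_⟩
  · have hq : 0 ≤ Kϕ * (KF + KG) := by positivity
    refine ⟨by linarith, h.adm, fun t _ => hasDerivAt_id t, continuousOn_const, fun t _ => ?_,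
      fun t _ => hasDerivAt_const t 0, continuousOn_const, h.xc.mono hsub', ?_⟩
    · rw [norm_one]; linarith
    · intro s hs t ht
      exact h.xeq s (hsub' hs) t (hsub' ht)
  · refine ⟨h.ϕc.mono hsub', ?_, ?_, ?_, ?_⟩
    · intro s hs t ht
      have hst : uIcc s t ⊆ Ioo a b := by
        intro r hr
        have h3 : Icc s t ⊆ Ioo a b ∧ Icc t s ⊆ Ioo a b := by
          constructor
          · intro y hy
            exact ⟨lt_of_lt_of_le (hsub' hs).1 hy.1, lt_of_le_of_lt hy.2 (hsub' ht).2⟩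
          · intro y hy
            exact ⟨lt_of_lt_of_le (hsub' ht).1 hy.1, lt_of_le_of_lt hy.2 (hsub' hs).2⟩
        rcases le_total s t with hle | hle
        · rw [uIcc_of_le hle] at hr; exact h3.1 hr
        · rw [uIcc_of_ge hle] at hr; exact h3.2 hr
      have iu : IntervalIntegrable u volume s t := by
        refine IntervalIntegrable.mono_fun (intervalIntegrable_const (c := (1 : ℝ)))
          h.adm.1.aestronglyMeasurable ?_
        refine Filter.Eventually.of_forall fun r => ?_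
        change |u r| ≤ ‖(1 : ℝ)‖
        rw [norm_one]
        exact hu r
      have i1 : IntervalIntegrable (fun t => ϕ t * Dn F (t, x t) + Dn η (t, x t)) volume s t :=
        (((h.ϕc.mul cF).add cη).mono hst).intervalIntegrable
      have i2 : IntervalIntegrable (fun t => u t * (ϕ t * Dn G (t, x t))) volume s t :=
        iu.mul_continuousOn ((h.ϕc.mul cG).mono hst)
      have i3 := (i1.add i2).neg
      refine i3.congr fun r _ => ?_
      simp only [Pi.neg_apply]
      ring
    · intro t ht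
      have htI := Ioo_subset_Icc_self ht
      have b1 := hKF t htI
      have b2 := hKG t htI
      have b3 := hKη t htI
      have b4 := hKϕ t htI
      rw [Real.norm_eq_abs] at b1 b2 b3 b4
      rw [abs_neg]
      have e1 : |ϕ t * (Dn F (t, x t) + u t * Dn G (t, x t))| ≤ Kϕ * (KF + KG) := by
        rw [abs_mul]
        have e2 : |Dn F (t, x t) + u t * Dn G (t, x t)| ≤ KF + KG := by
          refine (abs_add_le _ _).trans (add_le_add b1 ?_)
          rw [abs_mul]
          calc |u t| * |Dn G (t, x t)| ≤ 1 * |Dn G (t, x t)| :=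
                mul_le_mul_of_nonneg_right (hu t) (abs_nonneg _)
            _ ≤ KG := by rw [one_mul]; exact b2
        exact mul_le_mul b4 e2 (abs_nonneg _) pϕ
      refine (abs_add_le _ _).trans ?_
      linarith
    · intro s hs t ht
      rw [h.ϕeq s (hsub' hs) t (hsub' ht), ← intervalIntegral.integral_neg]
    · filter_upwards [h.us] with t ht hta
      exact ht (hsub' hta)
  · intro t ht
    have htI := Ioo_subset_Icc_self ht
    have b1 := hKF t htI
    have b2 := hKG t htI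
    rw [Real.norm_eq_abs] at b1 b2
    have hq : 0 ≤ Kϕ * (KF + KG) := by positivity
    linarith

end Pool.Agent.Lib.MP_28b8de_an.KK
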