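import Pool.Agent.Lib.MP_28b8de_an.K.KDefs
import Pool.Agent.Lib.MP_28b8de_an.T.TSol

/-!
MP_28b8de_an, module KTime1.

Change of time.
PROOF.  θ' = ϑ (z) > 0 continuous on [a,b]: θ is C¹ and strictly increasing on [a,b], onto [θ a, θ b]; τ := its inverse (extend θ outside [a,b] by lines, or use `StrictMonoOn`), continuous, with derivative 1/ϑ (z (τ σ)) at σ ∈ (θ a,θ b), Lipschitz.
y σ := z (τ σ), w σ := v (τ σ) on [θ a,θ b], w := 0 elsewhere (measurable).  z is Lipschitz with z' = P + v R a.e. in [a,b]; the exceptional null set N is mapped by θ (Lipschitz) to a null set, so for a.e. σ: y' σ = z' (τ σ) / ϑ = (ϑ (y σ))⁻¹ • (P (y σ) + w σ • R (y σ)).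
y is Lipschitz: `TT.sol_of_ae` (T/TSol.lean) or the fundamental theorem for Lipschitz functions.  (Or: substitution rule `MeasureTheory.integral_image_eq_integral_abs_deriv_smul`.)
SmAt: near t z is smooth, so θ is smooth with positive derivative near t (θ' = ϑ ∘ z smooth), its inverse is smooth near θ t (`ContDiffAt.to_localInverse` / `OpenPartialHomeomorph.contDiffAt_symm_deriv`), y = z ∘ τ near θ t.
-/

set_option linter.unusedSectionVars false

namespace Pool.Agent.Lib.MP_28b8de_an.KK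

open Filter Topology Set MeasureTheory
open Pool.Agent.Lib.MP_28b8de_an.PT (Adm Perf)
open Pool.Agent.Lib.MP_28b8de_an.TT (Env Sol Jn Tr SmAt Goal dx Dn Gen Lc Lp Lq fX cf)
open Pool.Agent.Lib.MP_28b8de_an.DD (LTraj LRep Ch)

theorem time_change {V : Type*} [NormedAddCommGroup V] [NormedSpace ℝ V] [FiniteDimensional ℝ V]
    {P R : V → V} {ϑ : V → ℝ} {v : ℝ → ℝ} (hv : Adm v) {z : ℝ → V} {a b : ℝ} (hab : a < b)
    (hz : ContinuousOn z (Icc a b)) {S : Set V} (hS : IsOpen S) (hzS : ∀ t ∈ Icc a b, z t ∈ S)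
    (hP : ContDiffOn ℝ (⊤ : ℕ∞) P S) (hR : ContDiffOn ℝ (⊤ : ℕ∞) R S)
    (hϑ : ContDiffOn ℝ (⊤ : ℕ∞) ϑ S) (hpos : ∀ x ∈ S, 0 < ϑ x)
    (heq : ∀ t ∈ Icc a b, z t = z a + ∫ τ in a..t, (P (z τ) + v τ • R (z τ))) {θ : ℝ → ℝ}
    (hθ : ∀ t ∈ Icc a b, θ t = θ a + ∫ τ in a..t, ϑ (z τ)) :
    θ a < θ b ∧ ∃ (w : ℝ → ℝ) (y : ℝ → V), Adm w ∧ ContinuousOn y (Icc (θ a) (θ b)) ∧
      (∀ t ∈ Icc a b, θ t ∈ Icc (θ a) (θ b) ∧ y (θ t) = z t ∧ w (θ t) = v t) ∧
      (∀ σ ∈ Icc (θ a) (θ b), ∃ t ∈ Icc a b, σ = θ t) ∧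
      (∀ σ ∈ Icc (θ a) (θ b),
        y σ = y (θ a) + ∫ τ in (θ a)..σ, ((ϑ (y τ))⁻¹ • (P (y τ) + w τ • R (y τ)))) ∧
      ∀ t ∈ Ioo a b, SmAt z t → SmAt y (θ t) := by
  classical
  -- a global positive speed
  set g : ℝ → ℝ := fun t => ϑ (z (projIcc a b hab.le t)) with hg
  have hzc : Continuous fun t => z (projIcc a b hab.le t) :=
    hz.comp_continuous (continuous_subtype_val.comp continuous_projIcc)
      (fun s => (projIcc a b hab.le s).2)
  have hgc : Continuous g :=
    hϑ.continuousOn.comp_continuous hzc (fun s => hzS _ (projIcc a b hab.le s).2)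
  have hgpos : ∀ t, 0 < g t := fun t => hpos _ (hzS _ (projIcc a b hab.le t).2)
  have hgeq : ∀ t ∈ Icc a b, g t = ϑ (z t) := fun t ht => by
    simp [hg, projIcc_of_mem hab.le ht]
  obtain ⟨m, hm, hmg⟩ : ∃ m > 0, ∀ t, m ≤ g t := by
    obtain ⟨t0, ht0, hmin⟩ := isCompact_Icc.exists_isMinOn
      (nonempty_Icc.2 hab.le) (hgc.continuousOn (s := Icc a b))
    refine ⟨g t0, hgpos t0, fun t => ?_⟩
    have h1 : g t = g (projIcc a b hab.le t) := by
      simp only [hg]
      congr 3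
      exact (projIcc_val hab.le _).symm
    rw [h1]
    exact hmin (projIcc a b hab.le t).2
  set Θ : ℝ → ℝ := fun t => θ a + ∫ τ in a..t, g τ with hΘ
  have hΘd : ∀ t, HasDerivAt Θ (g t) t := fun t =>
    (intervalIntegral.integral_hasDerivAt_right (hgc.intervalIntegrable _ _)
      (hgc.stronglyMeasurableAtFilter _ _) hgc.continuousAt).const_add _
  have hΘm : StrictMono Θ := strictMono_of_deriv_pos (fun t => by
    rw [(hΘd t).deriv]
    exact hgpos t)
  have hΘθ : ∀ t ∈ Icc a b, Θ t = θ t := by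
    intro t ht
    rw [hθ t ht]
    simp only [hΘ]
    congr 1
    refine intervalIntegral.integral_congr fun x hx => ?_
    rw [uIcc_of_le ht.1] at hx
    exact hgeq x ⟨hx.1, hx.2.trans ht.2⟩
  have hΘc : Continuous Θ := continuous_iff_continuousAt.2 fun t => (hΘd t).continuousAt
  have hmono : Monotone (fun t => Θ t - m * t) := by
    have h1 : ∀ t, HasDerivAt (fun t => Θ t - m * t) (g t - m) t := by
      intro t
      have h2 := (hΘd t).sub ((hasDerivAt_id t).const_mul m)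
      rw [mul_one] at h2
      exact h2
    refine monotone_of_deriv_nonneg (fun t => (h1 t).differentiableAt) (fun t => ?_)
    rw [(h1 t).deriv]
    linarith [hmg t]
  have htop : Tendsto Θ atTop atTop := by
    have h1 : Tendsto (fun t : ℝ => m * t + Θ 0) atTop atTop :=
      tendsto_atTop_add_const_right _ _ (tendsto_id.const_mul_atTop hm)
    refine tendsto_atTop_mono' _ ?_ h1
    filter_upwards [eventually_ge_atTop (0 : ℝ)] with t ht
    have h2 := hmono ht
    simp only [mul_zero, sub_zero] at h2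
    linarith
  have hbot : Tendsto Θ atBot atBot := by
    have h1 : Tendsto (fun t : ℝ => m * t + Θ 0) atBot atBot :=
      tendsto_atBot_add_const_right _ _ (tendsto_id.const_mul_atBot hm)
    refine tendsto_atBot_mono' _ ?_ h1
    filter_upwards [eventually_le_atBot (0 : ℝ)] with t ht
    have h2 := hmono ht
    simp only [mul_zero, sub_zero] at h2
    linarith
  have hΘs : Function.Surjective Θ := hΘc.surjective htop hbot
  set e : ℝ ≃o ℝ := hΘm.orderIsoOfSurjective Θ hΘs with he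
  have heΘ : ∀ t, e t = Θ t := fun t => rfl
  set σi : ℝ → ℝ := fun s => e.symm s with hσi
  have hσc : Continuous σi := e.symm.continuous
  have hσm : StrictMono σi := e.symm.strictMono
  have hl : ∀ t, σi (Θ t) = t := fun t => e.symm_apply_apply t
  have hr : ∀ s, Θ (σi s) = s := fun s => e.apply_symm_apply s
  have hσd : ∀ s, HasDerivAt σi (g (σi s))⁻¹ s := fun s =>
    HasDerivAt.of_local_left_inverse hσc.continuousAt (hΘd _) (hgpos _).ne'
      (Eventually.of_forall hr)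
  have ha : a ∈ Icc a b := left_mem_Icc.2 hab.le
  have hb : b ∈ Icc a b := right_mem_Icc.2 hab.le
  have hθab : θ a < θ b := by
    rw [← hΘθ a ha, ← hΘθ b hb]
    exact hΘm hab
  have hσa : σi (θ a) = a := by rw [← hΘθ a ha, hl]
  have hσb : σi (θ b) = b := by rw [← hΘθ b hb, hl]
  have hmaps : ∀ s ∈ Icc (θ a) (θ b), σi s ∈ Icc a b := by
    intro s hs
    constructor
    · rw [← hσa]
      exact hσm.monotone hs.1
    · rw [← hσb]
      exact hσm.monotone hs.2
  refine ⟨hθab, fun s => v (σi s), fun s => z (σi s), ⟨hv.1.comp hσc.measurable, fun s => hv.2 _⟩,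
    ?_, ?_, ?_, ?_, ?_⟩
  · exact hz.comp hσc.continuousOn hmaps
  · intro t ht
    refine ⟨⟨?_, ?_⟩, ?_, ?_⟩
    · rw [← hΘθ a ha, ← hΘθ t ht]
      exact hΘm.monotone ht.1
    · rw [← hΘθ b hb, ← hΘθ t ht]
      exact hΘm.monotone ht.2
    · show z (σi (θ t)) = z t
      rw [← hΘθ t ht, hl]
    · show v (σi (θ t)) = v t
      rw [← hΘθ t ht, hl]
  · intro s hs
    refine ⟨σi s, hmaps s hs, ?_⟩
    rw [← hΘθ _ (hmaps s hs), hr]
  · intro s hs
    show z (σi s) = z (σi (θ a)) + ∫ τ in (θ a)..s, ((ϑ (z (σi τ)))⁻¹ •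
      (P (z (σi τ)) + v (σi τ) • R (z (σi τ))))
    rw [hσa, heq _ (hmaps s hs)]
    congr 1
    rw [intervalIntegral.integral_of_le (hmaps s hs).1, intervalIntegral.integral_of_le hs.1]
    have himg : σi '' Ioc (θ a) s = Ioc a (σi s) := by
      ext x
      constructor
      · rintro ⟨y, hy, rfl⟩
        refine ⟨?_, hσm.monotone hy.2⟩
        rw [← hσa]
        exact hσm hy.1
      · intro hx
        refine ⟨Θ x, ⟨?_, ?_⟩, hl x⟩
        · rw [← hΘθ a ha]
          exact hΘm hx.1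
        · rw [← hr s]
          exact hΘm.monotone hx.2
    rw [← himg, integral_image_eq_integral_abs_deriv_smul measurableSet_Ioc
      (fun x _ => (hσd x).hasDerivWithinAt) hσm.injective.injOn]
    refine setIntegral_congr_fun measurableSet_Ioc fun x hx => ?_
    have hx' : x ∈ Icc (θ a) (θ b) := ⟨hx.1.le, hx.2.trans hs.2⟩
    show |(g (σi x))⁻¹| • (P (z (σi x)) + v (σi x) • R (z (σi x))) = _
    rw [abs_of_pos (inv_pos.2 (hgpos _)), hgeq _ (hmaps x hx')]
  · rintro t ht ⟨ε, hε, hsm⟩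
    -- a smaller interval
    set δ : ℝ := min ε (min (t - a) (b - t)) with hδ
    have hδ0 : 0 < δ := lt_min hε (lt_min (by linarith [ht.1]) (by linarith [ht.2]))
    have hδε : δ ≤ ε := min_le_left _ _
    have hδa : δ ≤ t - a := (min_le_right _ _).trans (min_le_left _ _)
    have hδb : δ ≤ b - t := (min_le_right _ _).trans (min_le_right _ _)
    set J : Set ℝ := Ioo (t - δ) (t + δ) with hJ
    have hJo : IsOpen J := isOpen_Ioo
    have htJ : t ∈ J := ⟨by linarith, by linarith⟩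
    have hJI : J ⊆ Icc a b := fun x hx => ⟨by linarith [hx.1], by linarith [hx.2]⟩
    have hzJ : ContDiffOn ℝ (⊤ : ℕ∞) z J :=
      hsm.mono (Ioo_subset_Ioo (by linarith) (by linarith))
    have hgJ : ContDiffOn ℝ (⊤ : ℕ∞) g J := by
      have h1 : ContDiffOn ℝ (⊤ : ℕ∞) (fun x => ϑ (z x)) J :=
        hϑ.comp hzJ (fun x hx => hzS x (hJI hx))
      exact h1.congr (fun x hx => hgeq x (hJI hx))
    have hΘJ : ContDiffOn ℝ (⊤ : ℕ∞) Θ J := by
      refine (contDiffOn_infty_iff_deriv_of_isOpen hJo).2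
        ⟨fun x _ => (hΘd x).differentiableAt.differentiableWithinAt, ?_⟩
      exact hgJ.congr (fun x _ => (hΘd x).deriv)
    -- the image of the interval
    have hσJ : ∀ s ∈ σi ⁻¹' J, ContDiffAt ℝ (⊤ : ℕ∞) σi s := by
      intro s hs
      have h1 : ContDiffAt ℝ (⊤ : ℕ∞) Θ (σi s) := (hΘJ _ hs).contDiffAt (hJo.mem_nhds hs)
      exact (e.toHomeomorph.toOpenPartialHomeomorph).contDiffAt_symm_deriv
        (f₀' := g (σi s)) (hgpos _).ne' (mem_univ s) (hΘd _) h1
    have hopen : IsOpen (σi ⁻¹' J) := hJo.preimage hσc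
    have hmem : θ t ∈ σi ⁻¹' J := by
      show σi (θ t) ∈ J
      rw [← hΘθ t (Ioo_subset_Icc_self ht), hl]
      exact htJ
    obtain ⟨η, hη, hball⟩ := Metric.isOpen_iff.1 hopen _ hmem
    refine ⟨η, hη, ?_⟩
    have h1 : ContDiffOn ℝ (⊤ : ℕ∞) (fun s => z (σi s)) (σi ⁻¹' J) :=
      hzJ.comp (fun s hs => (hσJ s hs).contDiffWithinAt) (fun s hs => hs)
    refine h1.mono ?_
    rw [Real.ball_eq_Ioo] at hball
    exact hball

end Pool.Agent.Lib.MP_28b8de_an.KK
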