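import Pool.Agent.Lib.MP_28b8de_an.K.KYFlow
import Pool.Agent.Lib.MP_28b8de_an.D.DCh

/-!
MP_28b8de_an, module KYChart.

Charts in which commuting fields are constant.
PROOF.  φ from `joint_flow`.  θ (s,y) := φ (y, x₀ + A (s,0)), analytic at 0, θ 0 = φ (0,x₀) = x₀.
fderiv θ w (0,y) = fderiv φ (w.2, x₀ + A (w.1,0)) (y,0) = ∑ y i • Z i (θ w) near 0 (chain rule).  fderiv θ 0 (s,0) = A (s,0) since θ (s,0) = x₀ + A (s,0) near 0; fderiv θ 0 (0,y) = ∑ y i • Z i x₀ = A (0,y): fderiv θ 0 = A.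
Analytic inverse function theorem: e.g. `DD.ch_of` (D/DCh.lean) with P = S × (Fin m → ℝ), w₀ = (0,0), Θ (t,w) := θ w, F = G = 0, Gp = 0: hA: (fderiv Θ w₀).comp inr = A; it gives Ξ with Θ (t, Ξ (t,x)) = x and Ξ (t, Θ (t,w)) = w near: ψ x := Ξ (0,x)
(restrict the eventual statements to t = 0).
-/

set_option linter.unusedSectionVars false

namespace Pool.Agent.Lib.MP_28b8de_an.KK

open Filter Topology Set MeasureTheory
open Pool.Agent.Lib.MP_28b8de_an.PT (Adm Perf)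
open Pool.Agent.Lib.MP_28b8de_an.TT (Env Sol Jn Tr SmAt Goal dx Dn Gen Lc Lp Lq fX cf)
open Pool.Agent.Lib.MP_28b8de_an.DD (LTraj LRep Ch)

variable {V : Type*} [NormedAddCommGroup V] [NormedSpace ℝ V] [FiniteDimensional ℝ V]

theorem sym_chart {m : ℕ} {Z : Fin m → V → V} {x₀ : V} (hZ : ∀ i, AnalyticAt ℝ (Z i) x₀)
    (hc : ∀ᶠ x in 𝓝 x₀, ∀ i j, fderiv ℝ (Z i) x (Z j x) = fderiv ℝ (Z j) x (Z i x))
    {S : Type*} [NormedAddCommGroup S] [NormedSpace ℝ S] [FiniteDimensional ℝ S]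
    (A : (S × (Fin m → ℝ)) ≃L[ℝ] V) (hA : ∀ y : Fin m → ℝ, A (0, y) = ∑ i, y i • Z i x₀) :
    ∃ (θ : S × (Fin m → ℝ) → V) (ψ : V → S × (Fin m → ℝ)), AnalyticAt ℝ θ 0 ∧ θ 0 = x₀ ∧
      AnalyticAt ℝ ψ x₀ ∧ (∀ᶠ x in 𝓝 x₀, θ (ψ x) = x) ∧ (∀ᶠ w in 𝓝 0, ψ (θ w) = w) ∧
      ∀ᶠ w in 𝓝 0, ∀ y : Fin m → ℝ, fderiv ℝ θ w (0, y) = ∑ i, y i • Z i (θ w) := by
  obtain ⟨φ, hφ, hφ0, hφd⟩ := joint_flow hZ hc
  have hV : CompleteSpace V := FiniteDimensional.complete ℝ V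
  -- the affine map
  let L : (S × (Fin m → ℝ)) →L[ℝ] V := (A : (S × (Fin m → ℝ)) →L[ℝ] V).comp
    ((ContinuousLinearMap.inl ℝ S (Fin m → ℝ)).comp (ContinuousLinearMap.fst ℝ S (Fin m → ℝ)))
  have hL : ∀ w, L w = A (w.1, 0) := fun w => rfl
  let D : (S × (Fin m → ℝ)) →L[ℝ] (Fin m → ℝ) × V :=
    (ContinuousLinearMap.snd ℝ S (Fin m → ℝ)).prod L
  let Λ : S × (Fin m → ℝ) → (Fin m → ℝ) × V := fun w => (w.2, x₀ + L w)
  have hΛd : ∀ w, HasFDerivAt Λ D w := fun w =>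
    hasFDerivAt_snd.prodMk ((L.hasFDerivAt).const_add x₀)
  have hΛa : AnalyticAt ℝ Λ 0 := analyticAt_snd.prod (analyticAt_const.add (L.analyticAt 0))
  have hΛ0 : Λ 0 = (0, x₀) := by
    show ((0 : S × (Fin m → ℝ)).2, x₀ + L 0) = (0, x₀)
    rw [map_zero, add_zero, Prod.snd_zero]
  have hΛc : Tendsto Λ (𝓝 0) (𝓝 (0, x₀)) := by
    have := hΛa.continuousAt.tendsto
    rwa [hΛ0] at this
  have hφ' : AnalyticAt ℝ φ (Λ 0) := by rw [hΛ0]; exact hφ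
  let θ : S × (Fin m → ℝ) → V := fun w => φ (Λ w)
  have hθa : AnalyticAt ℝ θ 0 := AnalyticAt.fun_comp hφ' hΛa
  have hθ0 : θ 0 = x₀ := by
    show φ (Λ 0) = x₀
    rw [hΛ0]
    exact hφ0.self_of_nhds
  have hθd : ∀ᶠ w in 𝓝 0, HasFDerivAt θ ((fderiv ℝ φ (Λ w)).comp D) w := by
    filter_upwards [hΛc.eventually hφ.eventually_analyticAt] with w hw
    exact hw.differentiableAt.hasFDerivAt.comp w (hΛd w)
  have hθy : ∀ᶠ w in 𝓝 0, ∀ y : Fin m → ℝ, fderiv ℝ θ w (0, y) = ∑ i, y i • Z i (θ w) := by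
    filter_upwards [hθd, hΛc.eventually hφd] with w h1 h2 y
    rw [h1.fderiv, ContinuousLinearMap.comp_apply]
    have h3 : D (0, y) = (y, 0) := by
      show (y, A (0, 0)) = (y, 0)
      rw [show ((0 : S), (0 : Fin m → ℝ)) = 0 from rfl, map_zero]
    rw [h3]
    exact h2 y
  have hx : ∀ v : V, fderiv ℝ φ (0, x₀) (0, v) = v := by
    intro v
    have h1 : HasFDerivAt (fun x : V => φ (0, x)) ((fderiv ℝ φ (0, x₀)).comp
        (ContinuousLinearMap.inr ℝ (Fin m → ℝ) V)) x₀ :=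
      HasFDerivAt.comp (f := fun x : V => ((0 : Fin m → ℝ), x)) x₀
        hφ.differentiableAt.hasFDerivAt (hasFDerivAt_prodMk_right (0 : Fin m → ℝ) x₀)
    have h2 : HasFDerivAt (fun x : V => φ (0, x)) (ContinuousLinearMap.id ℝ V) x₀ :=
      (hasFDerivAt_id x₀).congr_of_eventuallyEq hφ0
    have h3 := congrArg (fun T : V →L[ℝ] V => T v) (h1.unique h2)
    simpa using h3
  have hA0 : fderiv ℝ θ 0 = (A : (S × (Fin m → ℝ)) →L[ℝ] V) := by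
    refine ContinuousLinearMap.ext fun w => ?_
    have h1 := hθd.self_of_nhds
    have h2 : fderiv ℝ θ 0 (0, w.2) = A (0, w.2) := by
      rw [hθy.self_of_nhds w.2, hA, hθ0]
    have h3 : fderiv ℝ θ 0 (w.1, 0) = A (w.1, 0) := by
      rw [h1.fderiv, ContinuousLinearMap.comp_apply, hΛ0]
      have h4 : D (w.1, 0) = (0, A (w.1, 0)) := rfl
      rw [h4, hx]
    have h5 : w = (w.1, 0) + (0, w.2) := by simp
    rw [h5, map_add, h2, h3]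
    exact (map_add A _ _).symm
  have hΘ : AnalyticAt ℝ (fun w : ℝ × (S × (Fin m → ℝ)) => θ w.2)
      ((0 : ℝ), (0 : S × (Fin m → ℝ))) := AnalyticAt.fun_comp hθa analyticAt_snd
  have hΘA : (fderiv ℝ (fun w : ℝ × (S × (Fin m → ℝ)) => θ w.2)
      ((0 : ℝ), (0 : S × (Fin m → ℝ)))).comp
      (ContinuousLinearMap.inr ℝ ℝ (S × (Fin m → ℝ))) = (A : (S × (Fin m → ℝ)) →L[ℝ] V) := by
    have h1 : HasFDerivAt (fun w : ℝ × (S × (Fin m → ℝ)) => θ w.2)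
        ((fderiv ℝ θ 0).comp (ContinuousLinearMap.snd ℝ ℝ (S × (Fin m → ℝ))))
        ((0 : ℝ), (0 : S × (Fin m → ℝ))) :=
      HasFDerivAt.comp (g := θ) (f := Prod.snd) ((0 : ℝ), (0 : S × (Fin m → ℝ)))
        hθa.differentiableAt.hasFDerivAt hasFDerivAt_snd
    rw [h1.fderiv, hA0]
    refine ContinuousLinearMap.ext fun w => ?_
    simp
  obtain ⟨Ξ, Fp, hch⟩ := DD.ch_of (F := fun _ => (0 : V)) (G := fun _ => (0 : V))
    (Gp := fun _ => (0 : S × (Fin m → ℝ))) hΘ A hΘA analyticAt_const analyticAt_const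
    (Eventually.of_forall fun w => by
      show fderiv ℝ _ w (0, 0) = 0
      exact map_zero _)
  have hi : Tendsto (fun x : V => ((0 : ℝ), x)) (𝓝 x₀) (𝓝 ((0 : ℝ), x₀)) :=
    (Continuous.prodMk_right (0 : ℝ)).tendsto x₀
  refine ⟨θ, fun x => Ξ (0, x), hθa, hθ0, ?_, ?_, ?_, hθy⟩
  · have h1 := hch.Ξa
    have h2 : AnalyticAt ℝ (fun x : V => ((0 : ℝ), x)) x₀ := analyticAt_const.prod analyticAt_id
    have h3 : AnalyticAt ℝ Ξ ((fun x : V => ((0 : ℝ), x)) x₀) := by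
      have h4 : AnalyticAt ℝ Ξ ((0 : ℝ), θ 0) := h1
      rw [hθ0] at h4
      exact h4
    exact AnalyticAt.fun_comp h3 h2
  · have h1 := hch.li
    have h2 : ∀ᶠ z in 𝓝 ((0 : ℝ), x₀), θ (Ξ z) = z.2 := by
      have : ((0 : ℝ), θ 0) = ((0 : ℝ), x₀) := by rw [hθ0]
      exact this ▸ h1
    exact hi.eventually h2
  · have h1 : ∀ᶠ w in 𝓝 ((0 : ℝ), (0 : S × (Fin m → ℝ))), Ξ (w.1, θ w.2) = w.2 := hch.ri
    have h2 : Tendsto (fun w : S × (Fin m → ℝ) => ((0 : ℝ), w)) (𝓝 0)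
        (𝓝 ((0 : ℝ), (0 : S × (Fin m → ℝ)))) := (Continuous.prodMk_right (0 : ℝ)).tendsto 0
    exact h2.eventually h1

end Pool.Agent.Lib.MP_28b8de_an.KK
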