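import Pool.Agent.Lib.MP_28b8de_an.K.KDefs
import Pool.Agent.Lib.MP_28b8de_an.T.TCut

/-!
MP_28b8de_an, module KYCut.

Cut off on a neighbourhood of a compact set, with a scaling.
PROOF.  cut_on: there is ρ with 0 < ρ ≤ 1 and {x | ∃ y ∈ K₀, ‖x - y‖ ≤ 3 ρ} ⊆ Ω (`IsCompact.exists_cthickening_subset_open`); this set is compact (finite dimension, `IsCompact.cthickening`).  χ : V → ℝ smooth with χ = 1 on the closed 2ρ-neighbourhood of K₀ and support (tsupport) in the open 3ρ-neighbourhood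
(e.g. `exists_contMDiff_zero_iff_one_iff_of_isClosed` or `exists_contDiff_one_nhds_of_interior`-type lemmas; or a finite sum of `ContDiffBump`s composed with `Real.smoothTransition`; or, as in the private lemmas of D/DCut.lean, T/TCut.lean, other cut offs).
f₁ := χ • f, g₁ := χ • g are smooth on V (f is smooth on Ω, χ vanishes near every point outside) with compact support.  λ := ρ⁻¹ ≥ 1.  f' x := λ • f₁ (λ⁻¹ • x), g' similarly: smooth with compact support: bounded with all derivatives, derivative Lipschitz: Env for M large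
(compare T/TCut.lean (Bd, bd_of_compact), D/DCut.lean (cut_env), K/KCut.lean).
For x with ‖x - λ • y‖ < 2, y ∈ K₀: ‖ρ • x - y‖ < 2ρ, so ρ • x ∈ Ω and f' x = λ • f (ρ • x).
-/

set_option linter.unusedSectionVars false

namespace Pool.Agent.Lib.MP_28b8de_an.KK

open Filter Topology Set MeasureTheory
open Pool.Agent.Lib.MP_28b8de_an.PT (Adm Perf)
open Pool.Agent.Lib.MP_28b8de_an.TT (Env Sol Jn Tr SmAt Goal dx Dn Gen Lc Lp Lq fX cf)
open Pool.Agent.Lib.MP_28b8de_an.DD (LTraj LRep Ch)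

variable {V : Type*} [NormedAddCommGroup V] [NormedSpace ℝ V] [FiniteDimensional ℝ V]

open Pool.Agent.Lib.MP_28b8de_an.TT (Bd bd_of_compact) in
/-- a scaled cut off with a given cut off function -/
private theorem KYCut_cut {Ω D : Set V} (hD : IsCompact D) (hDΩ : D ⊆ Ω) {χ : V → ℝ}
    (hχ : ContDiff ℝ (⊤ : ℕ∞) χ) (hχD : ∀ x ∉ D, χ x = 0) {H : V → V}
    (hH : AnalyticOnNhd ℝ H Ω) {ρ : ℝ} (hρ : 0 < ρ) :
    ∃ M, Bd M (fun x : V => ρ⁻¹ • (χ (ρ • x) • H (ρ • x))) := by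
  have : CompleteSpace V := FiniteDimensional.complete ℝ V
  have : ProperSpace V := FiniteDimensional.proper ℝ V
  have hts : tsupport χ ⊆ D := by
    refine closure_minimal ?_ hD.isClosed
    intro x hx
    by_contra h
    exact hx (hχD x h)
  have hsm : ContDiff ℝ (⊤ : ℕ∞) (fun z => χ z • H z) := by
    rw [contDiff_iff_contDiffAt]
    intro z
    by_cases hz : z ∈ tsupport χ
    · exact hχ.contDiffAt.smul (hH z (hDΩ (hts hz))).contDiffAt
    · have h0 : (fun z => χ z • H z) =ᶠ[𝓝 z] fun _ => 0 := by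
        filter_upwards [notMem_tsupport_iff_eventuallyEq.1 hz] with w hw
        rw [hw, Pi.zero_apply, zero_smul]
      exact contDiffAt_const.congr_of_eventuallyEq h0
  have hsc : ContDiff ℝ (⊤ : ℕ∞) (fun x : V => ρ • x) := contDiff_const.smul contDiff_id
  refine bd_of_compact (contDiff_const.smul (hsm.comp hsc)) ?_
  have hcont : Continuous (fun x : V => ρ⁻¹ • x) := continuous_const_smul _
  refine HasCompactSupport.intro (hD.image hcont) ?_
  intro x hx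
  have h1 : ρ • x ∉ D := by
    intro h
    apply hx
    refine ⟨ρ • x, h, ?_⟩
    change ρ⁻¹ • (ρ • x) = x
    rw [smul_smul, inv_mul_cancel₀ hρ.ne', one_smul]
  change ρ⁻¹ • (χ (ρ • x) • H (ρ • x)) = 0
  rw [hχD _ h1, zero_smul, smul_zero]

open Pool.Agent.Lib.MP_28b8de_an.TT (Bd) in
theorem cut_on {Ω : Set V} (hΩ : IsOpen Ω) {f g : V → V} (hf : AnalyticOnNhd ℝ f Ω)
    (hg : AnalyticOnNhd ℝ g Ω) {K₀ : Set V} (hK : IsCompact K₀) (hKΩ : K₀ ⊆ Ω) :
    ∃ (f' g' : V → V) (M ρ : ℝ), 0 < ρ ∧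
      Env (fun z : ℝ × V => f' z.2) (fun z : ℝ × V => g' z.2) M ∧
      ∀ y ∈ K₀, ∀ x : V, ‖x - ρ⁻¹ • y‖ < 2 →
        ρ • x ∈ Ω ∧ f' x = ρ⁻¹ • f (ρ • x) ∧ g' x = ρ⁻¹ • g (ρ • x) := by
  have : CompleteSpace V := FiniteDimensional.complete ℝ V
  have : ProperSpace V := FiniteDimensional.proper ℝ V
  obtain ⟨δ, hδ, hδΩ⟩ := hK.exists_cthickening_subset_open hΩ hKΩ
  set ρ : ℝ := δ / 3 with hρd
  have hρ : 0 < ρ := by positivity
  have h3 : 3 * ρ = δ := by rw [hρd]; ring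
  -- the cut off function
  have hdisj : Disjoint (Metric.thickening (3 * ρ) K₀)ᶜ (Metric.cthickening (2 * ρ) K₀) := by
    rw [Set.disjoint_left]
    intro x hx hx'
    exact hx (Metric.cthickening_subset_thickening' (by linarith) (by linarith) K₀ hx')
  obtain ⟨χ, hχ0, hχ1, -⟩ := exists_contMDiffMap_zero_one_of_isClosed (n := (⊤ : ℕ∞))
    (modelWithCornersSelf ℝ V) Metric.isOpen_thickening.isClosed_compl
    Metric.isClosed_cthickening hdisj
  have hχs : ContDiff ℝ (⊤ : ℕ∞) (χ : V → ℝ) := χ.contMDiff.contDiff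
  have hD : IsCompact (Metric.cthickening δ K₀) := hK.cthickening
  have hχD : ∀ x ∉ Metric.cthickening δ K₀, χ x = 0 := by
    intro x hx
    refine hχ0 ?_
    intro h
    apply hx
    rw [h3] at h
    exact Metric.thickening_subset_cthickening δ K₀ h
  obtain ⟨M₁, b1⟩ := KYCut_cut hD hδΩ hχs hχD hf hρ
  obtain ⟨M₂, b2⟩ := KYCut_cut hD hδΩ hχs hχD hg hρ
  have h1 := b1.1
  have h2 := b2.1
  have hl : ‖ContinuousLinearMap.snd ℝ ℝ V‖ ≤ 1 := ContinuousLinearMap.norm_snd_le ℝ ℝ V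
  have c1 := (b1.mono (show M₁ ≤ 1 + M₁ + M₂ by linarith)).comp_clm
    (ContinuousLinearMap.snd ℝ ℝ V) hl
  have c2 := (b2.mono (show M₂ ≤ 1 + M₁ + M₂ by linarith)).comp_clm
    (ContinuousLinearMap.snd ℝ ℝ V) hl
  refine ⟨fun x => ρ⁻¹ • (χ (ρ • x) • f (ρ • x)), fun x => ρ⁻¹ • (χ (ρ • x) • g (ρ • x)),
    1 + M₁ + M₂, ρ, hρ, ⟨by linarith, c1.2.1, c2.2.1, c1.2.2.1, c2.2.2.1, c1.2.2.2.1,
    c2.2.2.2.1, c1.2.2.2.2, c2.2.2.2.2⟩, ?_⟩
  intro y hy x hx
  have hdist : dist (ρ • x) y ≤ 2 * ρ := by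
    have e : ρ • x - y = ρ • (x - ρ⁻¹ • y) := by
      rw [smul_sub, smul_smul, mul_inv_cancel₀ hρ.ne', one_smul]
    rw [dist_eq_norm, e, norm_smul, Real.norm_of_nonneg hρ.le]
    nlinarith
  have hmem : ρ • x ∈ Metric.cthickening (2 * ρ) K₀ :=
    Metric.mem_cthickening_of_dist_le (ρ • x) y (2 * ρ) K₀ hy hdist
  have hone : χ (ρ • x) = 1 := hχ1 hmem
  refine ⟨hδΩ (Metric.cthickening_mono (by linarith) K₀ hmem), ?_, ?_⟩
  · change ρ⁻¹ • (χ (ρ • x) • f (ρ • x)) = _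
    rw [hone, one_smul]
  · change ρ⁻¹ • (χ (ρ • x) • g (ρ • x)) = _
    rw [hone, one_smul]

end Pool.Agent.Lib.MP_28b8de_an.KK
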