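import Pool.Agent.Lib.MP_28b8de_an.K.KDefs
import Pool.Agent.Lib.MP_28b8de_an.D.DFlow

/-!
MP_28b8de_an, module KYFlow.

The joint flow of commuting analytic fields.
PROOF.  V is complete.  X := (Fin m → ℝ) × V, v (y,x) := (0, ∑ i, y i • Z i x), analytic at (0,x₀).  Φ from `DD.flow_an` (D/DFlow.lean) at (0,x₀): analytic at (0,(0,x₀)), Φ (0,z) = z near (0,x₀), fderiv Φ p (1,0) = v (Φ p) near (0,(0,x₀)).
ρ > 0 such that on B := {(t,(y,x)) : |t| < ρ, ‖y‖ < ρ, ‖x - x₀‖ < ρ} (= ball of radius ρ about (0,(0,x₀)), sup norm): Φ is analytic at p, fderiv Φ p (1,0) = v (Φ p), Φ (0,(y,x)) = (y,x), all Z i are analytic at (Φ p).2 and commute there (hc).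
(1) (Φ p).1 = y for p = (t,(y,x)) ∈ B: its t-derivative is 0 on (-ρ,ρ), value y at t = 0.  Write φ' t := (Φ (t,(y,x))).2: φ'' t = ∑ y i • Z i (φ' t).  For y = 0: φ' t = x (derivative 0).
(2) For e : Fin m → ℝ: (fderiv Φ (t,(y,x)) (0,(e,0))).2 = t • ∑ i, e i • Z i (φ' t) on (-ρ,ρ).  Both sides vanish at t = 0 (left: Φ (0,·) = id near, so fderiv Φ (0,z) (0,w) = w; its second component for w = (e,0) is 0).
 Left side J: J' = (second component of) fderiv (fderiv Φ) p (1,0) (0,(e,0)) = fderiv (fderiv Φ) p (0,(e,0)) (1,0) (symmetry of the second derivative; compare DBr_pt, br_rel in D/DBr.lean) = derivative of p ↦ v (Φ p) in the direction (0,(e,0))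
 = ∑ e i • Z i (φ') + ∑ y i • fderiv (Z i) (φ') J (first component of fderiv Φ p (0,(e,0)) is e by (1)).  Right side K: K' = ∑ e i • Z i (φ') + t ∑_i e i • fderiv (Z i) (φ') (∑_j y j • Z j (φ')) = ∑ e i • Z i (φ') + ∑_j y j • fderiv (Z j) (φ') K by hc.
 So (J - K)' = L(t) (J - K) with L(t) continuous on (-ρ,ρ), (J - K)(0) = 0: J = K (Gronwall: `ODE_solution_unique` type results, or P/PGron, applied on compact subintervals).
(3) ε := ρ/2, φ (y,x) := (Φ (ε, (ε⁻¹ • y, x))).2: analytic at (0,x₀); φ (0,x) = x near x₀ by (1); fderiv φ (y,x) (e,0) = (fderiv Φ (ε,(ε⁻¹ y,x)) (0,(ε⁻¹ e,0))).2 = ε • ∑ ε⁻¹ e i • Z i (φ (y,x)) by (2).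
-/

set_option linter.unusedSectionVars false

namespace Pool.Agent.Lib.MP_28b8de_an.KK

open Filter Topology Set MeasureTheory
open Pool.Agent.Lib.MP_28b8de_an.PT (Adm Perf)
open Pool.Agent.Lib.MP_28b8de_an.TT (Env Sol Jn Tr SmAt Goal dx Dn Gen Lc Lp Lq fX cf)
open Pool.Agent.Lib.MP_28b8de_an.DD (LTraj LRep Ch)

variable {V : Type*} [NormedAddCommGroup V] [NormedSpace ℝ V] [FiniteDimensional ℝ V]

private theorem KYFlow_bdd {X Y : Type*} [TopologicalSpace X] [SeminormedAddCommGroup Y] {f : X → Y}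
    {x : X} (hf : ContinuousAt f x) : ∃ B : ℝ, 0 ≤ B ∧ ∀ᶠ w in 𝓝 x, ‖f w‖ ≤ B := by
  refine ⟨‖f x‖ + 1, by positivity, ?_⟩
  have h1 : Tendsto (fun w => ‖f w‖) (𝓝 x) (𝓝 ‖f x‖) := hf.norm
  filter_upwards [h1.eventually (gt_mem_nhds (show ‖f x‖ < ‖f x‖ + 1 by linarith))] with w hw
  exact le_of_lt hw

/-- the field `(0, ∑ y i Z i)` -/
private def KYFlow_v {m : ℕ} (Z : Fin m → V → V) (z : (Fin m → ℝ) × V) : (Fin m → ℝ) × V :=
  (0, ∑ i, z.1 i • Z i z.2)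

private theorem KYFlow_vd {m : ℕ} {Z : Fin m → V → V} {z : (Fin m → ℝ) × V}
    (hZ : ∀ i, AnalyticAt ℝ (Z i) z.2) :
    DifferentiableAt ℝ (KYFlow_v Z) z ∧ ∀ w : (Fin m → ℝ) × V,
      fderiv ℝ (KYFlow_v Z) z w =
        (0, ∑ i, (w.1 i • Z i z.2 + z.1 i • fderiv ℝ (Z i) z.2 w.2)) := by
  have h : HasFDerivAt (KYFlow_v Z)
      ((0 : (Fin m → ℝ) × V →L[ℝ] (Fin m → ℝ)).prod
        (∑ i, (z.1 i • ((fderiv ℝ (Z i) z.2).comp (ContinuousLinearMap.snd ℝ (Fin m → ℝ) V)) +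
          ((ContinuousLinearMap.proj (R := ℝ) (φ := fun _ : Fin m => ℝ) i).comp
            (ContinuousLinearMap.fst ℝ (Fin m → ℝ) V)).smulRight (Z i z.2)))) z := by
    refine (hasFDerivAt_const _ _).prodMk ?_
    apply HasFDerivAt.fun_sum
    intro i _
    have h1 : HasFDerivAt (fun z : (Fin m → ℝ) × V => z.1 i)
        ((ContinuousLinearMap.proj (R := ℝ) (φ := fun _ : Fin m => ℝ) i).comp
          (ContinuousLinearMap.fst ℝ (Fin m → ℝ) V)) z :=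
      ((ContinuousLinearMap.proj (R := ℝ) (φ := fun _ : Fin m => ℝ) i).comp
          (ContinuousLinearMap.fst ℝ (Fin m → ℝ) V)).hasFDerivAt
    have h2 : HasFDerivAt (fun z : (Fin m → ℝ) × V => Z i z.2)
        ((fderiv ℝ (Z i) z.2).comp (ContinuousLinearMap.snd ℝ (Fin m → ℝ) V)) z :=
      HasFDerivAt.comp (g := Z i) z (hZ i).differentiableAt.hasFDerivAt hasFDerivAt_snd
    exact h1.fun_smul h2
  refine ⟨h.differentiableAt, fun w => ?_⟩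
  rw [h.fderiv]
  refine Prod.ext rfl ?_
  show (∑ i, (z.1 i • ((fderiv ℝ (Z i) z.2).comp (ContinuousLinearMap.snd ℝ (Fin m → ℝ) V)) +
          ((ContinuousLinearMap.proj (R := ℝ) (φ := fun _ : Fin m => ℝ) i).comp
            (ContinuousLinearMap.fst ℝ (Fin m → ℝ) V)).smulRight (Z i z.2))) w = _
  rw [sum_apply]
  refine Finset.sum_congr rfl fun i _ => ?_
  rw [add_comm]
  rfl

private theorem KYFlow_path {m : ℕ} {Z : Fin m → V → V}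
    {Φ : ℝ × ((Fin m → ℝ) × V) → (Fin m → ℝ) × V} {τ : ℝ} {z : (Fin m → ℝ) × V}
    (hA : AnalyticAt ℝ Φ (τ, z)) (hB : fderiv ℝ Φ (τ, z) (1, 0) = KYFlow_v Z (Φ (τ, z))) :
    HasDerivAt (fun σ => Φ (σ, z)) (KYFlow_v Z (Φ (τ, z))) τ := by
  have h1 := hA.differentiableAt.hasFDerivAt
  have h2 : HasDerivAt (fun σ : ℝ => (σ, z)) ((1 : ℝ), (0 : (Fin m → ℝ) × V)) τ :=
    (hasDerivAt_id τ).prodMk (hasDerivAt_const τ z)
  have h3 := h1.comp_hasDerivAt τ h2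
  rw [hB] at h3
  exact h3

private theorem KYFlow_fst {m : ℕ} {Z : Fin m → V → V}
    {Φ : ℝ × ((Fin m → ℝ) × V) → (Fin m → ℝ) × V} {ρ : ℝ} {z : (Fin m → ℝ) × V}
    (hA : ∀ τ ∈ Ioo (-ρ) ρ, AnalyticAt ℝ Φ (τ, z))
    (hB : ∀ τ ∈ Ioo (-ρ) ρ, fderiv ℝ Φ (τ, z) (1, 0) = KYFlow_v Z (Φ (τ, z)))
    (hC : Φ (0, z) = z) {τ : ℝ} (hτ : τ ∈ Ioo (-ρ) ρ) : (Φ (τ, z)).1 = z.1 := by
  have h0 : (0 : ℝ) ∈ Ioo (-ρ) ρ := ⟨by linarith [hτ.1, hτ.2], by linarith [hτ.1, hτ.2]⟩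
  have hd : ∀ σ ∈ Ioo (-ρ) ρ, HasDerivAt (fun σ => (Φ (σ, z)).1) 0 σ := by
    intro σ hσ
    have h1 := KYFlow_path (hA σ hσ) (hB σ hσ)
    exact (ContinuousLinearMap.fst ℝ (Fin m → ℝ) V).hasFDerivAt.comp_hasDerivAt σ h1
  have h2 := isOpen_Ioo.is_const_of_deriv_eq_zero isPreconnected_Ioo
    (fun σ hσ => (hd σ hσ).differentiableAt.differentiableWithinAt)
    (fun σ hσ => (hd σ hσ).deriv) hτ h0
  rw [h2, hC]

private theorem KYFlow_key {m : ℕ} {Z : Fin m → V → V}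
    {Φ : ℝ × ((Fin m → ℝ) × V) → (Fin m → ℝ) × V} {ρ M : ℝ} (hM0 : 0 ≤ M)
    {U : Set ((Fin m → ℝ) × V)} (hU : IsOpen U)
    (hA : ∀ z ∈ U, ∀ τ ∈ Ioo (-ρ) ρ, AnalyticAt ℝ Φ (τ, z))
    (hB : ∀ z ∈ U, ∀ τ ∈ Ioo (-ρ) ρ, fderiv ℝ Φ (τ, z) (1, 0) = KYFlow_v Z (Φ (τ, z)))
    (hC : ∀ z ∈ U, Φ (0, z) = z)
    (hD : ∀ z ∈ U, ∀ τ ∈ Ioo (-ρ) ρ, ∀ i, AnalyticAt ℝ (Z i) (Φ (τ, z)).2)
    (hE : ∀ z ∈ U, ∀ τ ∈ Ioo (-ρ) ρ, ∀ i j,
      fderiv ℝ (Z i) (Φ (τ, z)).2 (Z j (Φ (τ, z)).2) =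
        fderiv ℝ (Z j) (Φ (τ, z)).2 (Z i (Φ (τ, z)).2))
    (hM : ∀ z ∈ U, ∀ τ ∈ Ioo (-ρ) ρ, ∀ i, ‖fderiv ℝ (Z i) (Φ (τ, z)).2‖ ≤ M)
    {z : (Fin m → ℝ) × V} (hz : z ∈ U) (e : Fin m → ℝ) {τ : ℝ} (hτ : τ ∈ Ioo (-ρ) ρ) :
    (fderiv ℝ Φ (τ, z) (0, (e, 0))).2 = τ • ∑ i, e i • Z i (Φ (τ, z)).2 := by
  have h0 : (0 : ℝ) ∈ Ioo (-ρ) ρ := ⟨by linarith [hτ.1, hτ.2], by linarith [hτ.1, hτ.2]⟩
  obtain ⟨q, hq⟩ : ∃ q : ℝ × ((Fin m → ℝ) × V), q = (0, (e, 0)) := ⟨_, rfl⟩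
  rw [← hq]
  -- neighbourhoods
  have hnb : ∀ σ ∈ Ioo (-ρ) ρ, ∀ᶠ p : ℝ × ((Fin m → ℝ) × V) in 𝓝 (σ, z),
      p.1 ∈ Ioo (-ρ) ρ ∧ p.2 ∈ U := fun σ hσ =>
    prod_mem_nhds (Ioo_mem_nhds hσ.1 hσ.2) (hU.mem_nhds hz)
  -- first component of the derivative
  have hfst : ∀ σ ∈ Ioo (-ρ) ρ, ∀ w : ℝ × ((Fin m → ℝ) × V),
      (fderiv ℝ Φ (σ, z) w).1 = w.2.1 := by
    intro σ hσ w
    have h1 : HasFDerivAt (fun p : ℝ × ((Fin m → ℝ) × V) => (Φ p).1)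
        ((ContinuousLinearMap.fst ℝ (Fin m → ℝ) V).comp (fderiv ℝ Φ (σ, z))) (σ, z) :=
      (ContinuousLinearMap.fst ℝ (Fin m → ℝ) V).hasFDerivAt.comp _
        (hA z hz σ hσ).differentiableAt.hasFDerivAt
    have h2 : HasFDerivAt (fun p : ℝ × ((Fin m → ℝ) × V) => (Φ p).1)
        ((ContinuousLinearMap.fst ℝ (Fin m → ℝ) V).comp
          (ContinuousLinearMap.snd ℝ ℝ ((Fin m → ℝ) × V))) (σ, z) := by
      refine ((ContinuousLinearMap.fst ℝ (Fin m → ℝ) V).comp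
          (ContinuousLinearMap.snd ℝ ℝ ((Fin m → ℝ) × V))).hasFDerivAt.congr_of_eventuallyEq ?_
      filter_upwards [hnb σ hσ] with p hp
      exact KYFlow_fst (hA p.2 hp.2) (hB p.2 hp.2) (hC p.2 hp.2) hp.1
    have h3 := h1.unique h2
    exact congrArg (fun T : ℝ × ((Fin m → ℝ) × V) →L[ℝ] (Fin m → ℝ) => T w) h3
  -- the relation for the second derivative
  have hsec : ∀ σ ∈ Ioo (-ρ) ρ, (fderiv ℝ (fderiv ℝ Φ) (σ, z) (1, 0) q).2 =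
      ∑ i, (e i • Z i (Φ (σ, z)).2 +
        z.1 i • fderiv ℝ (Z i) (Φ (σ, z)).2 (fderiv ℝ Φ (σ, z) q).2) := by
    intro σ hσ
    have hsym : IsSymmSndFDerivAt ℝ Φ (σ, z) :=
      ((hA z hz σ hσ).contDiffAt (n := (2 : ℕ))).isSymmSndFDerivAt (by simp)
    rw [hsym.eq]
    have hc : HasFDerivAt (fderiv ℝ Φ) (fderiv ℝ (fderiv ℝ Φ) (σ, z)) (σ, z) :=
      (hA z hz σ hσ).fderiv.differentiableAt.hasFDerivAt
    have hL := hc.clm_apply (hasFDerivAt_const ((1 : ℝ), (0 : (Fin m → ℝ) × V)) (σ, z))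
    obtain ⟨hv1, hv2⟩ := KYFlow_vd (z := Φ (σ, z)) (hD z hz σ hσ)
    have hR : HasFDerivAt (fun p => KYFlow_v Z (Φ p))
        ((fderiv ℝ (KYFlow_v Z) (Φ (σ, z))).comp (fderiv ℝ Φ (σ, z))) (σ, z) :=
      HasFDerivAt.comp (g := KYFlow_v Z) _ hv1.hasFDerivAt
        (hA z hz σ hσ).differentiableAt.hasFDerivAt
    have hEq : (fun p => KYFlow_v Z (Φ p)) =ᶠ[𝓝 (σ, z)] fun p => fderiv ℝ Φ p (1, 0) := by
      filter_upwards [hnb σ hσ] with p hp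
      exact (hB p.2 hp.2 p.1 hp.1).symm
    have h3 := hL.unique (hR.congr_of_eventuallyEq hEq.symm)
    have h4 := congrArg (fun T : ℝ × ((Fin m → ℝ) × V) →L[ℝ] (Fin m → ℝ) × V => T q) h3
    simp only [add_apply, ContinuousLinearMap.comp_apply,
      ContinuousLinearMap.flip_apply, zero_apply, map_zero, zero_add] at h4
    rw [h4, hv2]
    dsimp only
    rw [hfst σ hσ q, KYFlow_fst (hA z hz) (hB z hz) (hC z hz) hσ, hq]
  -- the two functions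
  obtain ⟨f, hf⟩ : ∃ f : ℝ → V → V, f = fun σ w =>
      ∑ i, (e i • Z i (Φ (σ, z)).2 + z.1 i • fderiv ℝ (Z i) (Φ (σ, z)).2 w) := ⟨_, rfl⟩
  have hJ : ∀ σ ∈ Ioo (-ρ) ρ, HasDerivAt (fun σ => (fderiv ℝ Φ (σ, z) q).2)
      (f σ (fderiv ℝ Φ (σ, z) q).2) σ ∧ (fderiv ℝ Φ (σ, z) q).2 ∈ (univ : Set V) := by
    intro σ hσ
    refine ⟨?_, mem_univ _⟩
    have h1 : HasFDerivAt (fderiv ℝ Φ) (fderiv ℝ (fderiv ℝ Φ) (σ, z)) (σ, z) :=
      (hA z hz σ hσ).fderiv.differentiableAt.hasFDerivAt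
    have h2 : HasDerivAt (fun σ : ℝ => (σ, z)) ((1 : ℝ), (0 : (Fin m → ℝ) × V)) σ :=
      (hasDerivAt_id σ).prodMk (hasDerivAt_const σ z)
    have h3 := h1.comp_hasDerivAt σ h2
    have h4 := (h3.clm_apply (hasDerivAt_const σ q))
    have h5 := (ContinuousLinearMap.snd ℝ (Fin m → ℝ) V).hasFDerivAt.comp_hasDerivAt σ h4
    have h6 : HasDerivAt (fun σ => (fderiv ℝ Φ (σ, z) q).2)
        (fderiv ℝ (fderiv ℝ Φ) (σ, z) (1, 0) q + fderiv ℝ Φ (σ, z) 0).2 σ := h5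
    rw [map_zero, add_zero, hsec σ hσ] at h6
    rw [hf]
    exact h6
  have hg : ∀ σ ∈ Ioo (-ρ) ρ, HasDerivAt (fun σ => (Φ (σ, z)).2)
      (∑ j, z.1 j • Z j (Φ (σ, z)).2) σ := by
    intro σ hσ
    have h1 := KYFlow_path (hA z hz σ hσ) (hB z hz σ hσ)
    have h2 := (ContinuousLinearMap.snd ℝ (Fin m → ℝ) V).hasFDerivAt.comp_hasDerivAt σ h1
    have h3 : HasDerivAt (fun σ => (Φ (σ, z)).2)
        (∑ j, (Φ (σ, z)).1 j • Z j (Φ (σ, z)).2) σ := h2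
    rw [KYFlow_fst (hA z hz) (hB z hz) (hC z hz) hσ] at h3
    exact h3
  have hK : ∀ σ ∈ Ioo (-ρ) ρ, HasDerivAt (fun σ => σ • ∑ i, e i • Z i (Φ (σ, z)).2)
      (f σ (σ • ∑ i, e i • Z i (Φ (σ, z)).2)) σ ∧
        (σ • ∑ i, e i • Z i (Φ (σ, z)).2) ∈ (univ : Set V) := by
    intro σ hσ
    refine ⟨?_, mem_univ _⟩
    have h1 : HasDerivAt (fun σ => ∑ i, e i • Z i (Φ (σ, z)).2)
        (∑ i, e i • fderiv ℝ (Z i) (Φ (σ, z)).2 (∑ j, z.1 j • Z j (Φ (σ, z)).2)) σ := by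
      apply HasDerivAt.fun_sum
      intro i _
      refine HasDerivAt.const_smul (e i) ?_
      exact (hD z hz σ hσ i).differentiableAt.hasFDerivAt.comp_hasDerivAt σ (hg σ hσ)
    have h2 := (hasDerivAt_id σ).smul h1
    have h3 : HasDerivAt (fun σ => σ • ∑ i, e i • Z i (Φ (σ, z)).2)
        (σ • (∑ i, e i • fderiv ℝ (Z i) (Φ (σ, z)).2 (∑ j, z.1 j • Z j (Φ (σ, z)).2)) +
          (1 : ℝ) • ∑ i, e i • Z i (Φ (σ, z)).2) σ := h2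
    have h4 : σ • (∑ i, e i • fderiv ℝ (Z i) (Φ (σ, z)).2 (∑ j, z.1 j • Z j (Φ (σ, z)).2)) +
          (1 : ℝ) • ∑ i, e i • Z i (Φ (σ, z)).2 =
        f σ (σ • ∑ i, e i • Z i (Φ (σ, z)).2) := by
      rw [hf]
      dsimp only
      rw [one_smul, Finset.sum_add_distrib, add_comm]
      congr 1
      simp only [map_sum, map_smul, Finset.smul_sum]
      rw [Finset.sum_comm]
      refine Finset.sum_congr rfl fun j _ => Finset.sum_congr rfl fun i _ => ?_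
      rw [hE z hz σ hσ i j, smul_smul, smul_smul, smul_smul, smul_smul]
      congr 1
      ring
    rw [h4] at h3
    exact h3
  have hlip : ∀ σ ∈ Ioo (-ρ) ρ, LipschitzOnWith (∑ i, |z.1 i| * M).toNNReal (f σ) univ := by
    intro σ hσ
    refine LipschitzOnWith.of_dist_le_mul fun w _ w' _ => ?_
    rw [dist_eq_norm, dist_eq_norm, Real.coe_toNNReal _
      (Finset.sum_nonneg fun i _ => mul_nonneg (abs_nonneg _) hM0), hf]
    dsimp only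
    rw [← Finset.sum_sub_distrib, Finset.sum_mul]
    refine (norm_sum_le _ _).trans (Finset.sum_le_sum fun i _ => ?_)
    rw [add_sub_add_left_eq_sub, ← smul_sub, ← map_sub, norm_smul, Real.norm_eq_abs, mul_assoc]
    refine mul_le_mul_of_nonneg_left ?_ (abs_nonneg _)
    exact (ContinuousLinearMap.le_opNorm _ _).trans
      (mul_le_mul_of_nonneg_right (hM z hz σ hσ i) (norm_nonneg _))
  have hinit : (fderiv ℝ Φ (0, z) q).2 = (0 : ℝ) • ∑ i, e i • Z i (Φ (0, z)).2 := by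
    rw [zero_smul]
    have h1 : HasFDerivAt (fun z' : (Fin m → ℝ) × V => Φ (0, z'))
        ((fderiv ℝ Φ (0, z)).comp (ContinuousLinearMap.inr ℝ ℝ ((Fin m → ℝ) × V))) z := by
      refine HasFDerivAt.comp (g := Φ) z (hA z hz 0 h0).differentiableAt.hasFDerivAt ?_
      exact hasFDerivAt_prodMk_right 0 z
    have h2 : HasFDerivAt (fun z' : (Fin m → ℝ) × V => Φ (0, z'))
        (ContinuousLinearMap.id ℝ ((Fin m → ℝ) × V)) z := by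
      refine (hasFDerivAt_id z).congr_of_eventuallyEq ?_
      filter_upwards [hU.mem_nhds hz] with z' hz'
      exact hC z' hz'
    have h3 := h1.unique h2
    have h4 := congrArg (fun T : ((Fin m → ℝ) × V) →L[ℝ] (Fin m → ℝ) × V => T (e, 0)) h3
    have h5 : fderiv ℝ Φ (0, z) (0, (e, 0)) = (e, 0) := h4
    rw [hq, h5]
  exact ODE_solution_unique_of_mem_Ioo hlip h0 hJ hK hinit hτ

private theorem KYFlow_zero {m : ℕ} {Z : Fin m → V → V}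
    {Φ : ℝ × ((Fin m → ℝ) × V) → (Fin m → ℝ) × V} {ρ : ℝ} {z : (Fin m → ℝ) × V}
    (hA : ∀ τ ∈ Ioo (-ρ) ρ, AnalyticAt ℝ Φ (τ, z))
    (hB : ∀ τ ∈ Ioo (-ρ) ρ, fderiv ℝ Φ (τ, z) (1, 0) = KYFlow_v Z (Φ (τ, z)))
    (hC : Φ (0, z) = z) (hz : z.1 = 0) {τ : ℝ} (hτ : τ ∈ Ioo (-ρ) ρ) : Φ (τ, z) = z := by
  have h0 : (0 : ℝ) ∈ Ioo (-ρ) ρ := ⟨by linarith [hτ.1, hτ.2], by linarith [hτ.1, hτ.2]⟩
  have hd : ∀ σ ∈ Ioo (-ρ) ρ, HasDerivAt (fun σ => Φ (σ, z)) 0 σ := by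
    intro σ hσ
    have h1 := KYFlow_path (hA σ hσ) (hB σ hσ)
    have h2 : KYFlow_v Z (Φ (σ, z)) = 0 := by
      unfold KYFlow_v
      rw [KYFlow_fst hA hB hC hσ, hz]
      simp
    rw [h2] at h1
    exact h1
  have h2 := isOpen_Ioo.is_const_of_deriv_eq_zero isPreconnected_Ioo
    (fun σ hσ => (hd σ hσ).differentiableAt.differentiableWithinAt)
    (fun σ hσ => (hd σ hσ).deriv) hτ h0
  rw [h2, hC]

theorem joint_flow {m : ℕ} {Z : Fin m → V → V} {x₀ : V} (hZ : ∀ i, AnalyticAt ℝ (Z i) x₀)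
    (hc : ∀ᶠ x in 𝓝 x₀, ∀ i j, fderiv ℝ (Z i) x (Z j x) = fderiv ℝ (Z j) x (Z i x)) :
    ∃ φ : (Fin m → ℝ) × V → V, AnalyticAt ℝ φ (0, x₀) ∧ (∀ᶠ x in 𝓝 x₀, φ (0, x) = x) ∧
      ∀ᶠ p in 𝓝 ((0 : Fin m → ℝ), x₀), ∀ y : Fin m → ℝ,
        fderiv ℝ φ p (y, 0) = ∑ i, y i • Z i (φ p) := by
  have : CompleteSpace V := FiniteDimensional.complete ℝ V
  have hv : AnalyticAt ℝ (KYFlow_v Z) ((0 : Fin m → ℝ), x₀) := by
    have h1 : AnalyticAt ℝ (fun z : (Fin m → ℝ) × V => ∑ i, z.1 i • Z i z.2)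
        ((0 : Fin m → ℝ), x₀) := by
      refine Finset.analyticAt_fun_sum _ fun i _ => ?_
      refine AnalyticAt.fun_smul ?_ ?_
      · exact ((ContinuousLinearMap.proj (R := ℝ) (φ := fun _ : Fin m => ℝ) i).comp
          (ContinuousLinearMap.fst ℝ (Fin m → ℝ) V)).analyticAt _
      · exact AnalyticAt.fun_comp (g := Z i) (f := fun z : (Fin m → ℝ) × V => z.2) (hZ i)
          analyticAt_snd
    exact analyticAt_const.prod h1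
  obtain ⟨Φ, hΦ, hΦ0, hΦ1⟩ := DD.flow_an hv
  have hc0 : Φ (0, (0, x₀)) = (0, x₀) := hΦ0.self_of_nhds
  have hcont : Tendsto (fun p => (Φ p).2) (𝓝 ((0 : ℝ), ((0 : Fin m → ℝ), x₀))) (𝓝 x₀) := by
    have h1 : ContinuousAt (fun p => (Φ p).2) ((0 : ℝ), ((0 : Fin m → ℝ), x₀)) :=
      continuous_snd.continuousAt.comp hΦ.continuousAt
    have h2 := h1.tendsto
    rw [hc0] at h2
    exact h2
  have ev3 : ∀ᶠ p in 𝓝 ((0 : ℝ), ((0 : Fin m → ℝ), x₀)), Φ (0, p.2) = p.2 := by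
    have h1 : Tendsto (fun p : ℝ × ((Fin m → ℝ) × V) => p.2)
        (𝓝 ((0 : ℝ), ((0 : Fin m → ℝ), x₀))) (𝓝 ((0 : Fin m → ℝ), x₀)) :=
      continuous_snd.tendsto _
    exact h1.eventually hΦ0
  have ev4 : ∀ᶠ p in 𝓝 ((0 : ℝ), ((0 : Fin m → ℝ), x₀)), ∀ i, AnalyticAt ℝ (Z i) (Φ p).2 := by
    rw [eventually_all]
    intro i
    exact hcont.eventually (hZ i).eventually_analyticAt
  have ev5 := hcont.eventually hc
  have hMi : ∀ i, ∃ B : ℝ, 0 ≤ B ∧ ∀ᶠ x in 𝓝 x₀, ‖fderiv ℝ (Z i) x‖ ≤ B := fun i =>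
    KYFlow_bdd (hZ i).fderiv.continuousAt
  choose Bi hBi0 hBi using hMi
  have ev6 : ∀ᶠ p in 𝓝 ((0 : ℝ), ((0 : Fin m → ℝ), x₀)), ∀ i,
      ‖fderiv ℝ (Z i) (Φ p).2‖ ≤ ∑ i, Bi i := by
    rw [eventually_all]
    intro i
    filter_upwards [hcont.eventually (hBi i)] with p hp
    exact hp.trans (Finset.single_le_sum (fun i _ => hBi0 i) (Finset.mem_univ i))
  obtain ⟨ρ, hρ, hball⟩ := Metric.eventually_nhds_iff_ball.1
    (((((hΦ.eventually_analyticAt.and hΦ1).and ev3).and ev4).and ev5).and ev6)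
  have hmem : ∀ z ∈ Metric.ball ((0 : Fin m → ℝ), x₀) ρ, ∀ τ ∈ Ioo (-ρ) ρ,
      ((τ, z) : ℝ × ((Fin m → ℝ) × V)) ∈
        Metric.ball ((0 : ℝ), ((0 : Fin m → ℝ), x₀)) ρ := by
    intro z hz τ hτ
    rw [Metric.mem_ball, Prod.dist_eq]
    refine max_lt ?_ hz
    show dist τ 0 < ρ
    rw [Real.dist_eq, sub_zero, abs_lt]
    exact hτ
  have h00 : (0 : ℝ) ∈ Ioo (-ρ) ρ := ⟨by linarith, hρ⟩
  have hA : ∀ z ∈ Metric.ball ((0 : Fin m → ℝ), x₀) ρ, ∀ τ ∈ Ioo (-ρ) ρ,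
      AnalyticAt ℝ Φ (τ, z) := fun z hz τ hτ => (hball _ (hmem z hz τ hτ)).1.1.1.1.1
  have hB : ∀ z ∈ Metric.ball ((0 : Fin m → ℝ), x₀) ρ, ∀ τ ∈ Ioo (-ρ) ρ,
      fderiv ℝ Φ (τ, z) (1, 0) = KYFlow_v Z (Φ (τ, z)) := fun z hz τ hτ =>
    (hball _ (hmem z hz τ hτ)).1.1.1.1.2
  have hC : ∀ z ∈ Metric.ball ((0 : Fin m → ℝ), x₀) ρ, Φ (0, z) = z := fun z hz =>
    (hball _ (hmem z hz 0 h00)).1.1.1.2
  obtain ⟨ε, hε⟩ : ∃ ε : ℝ, ε = ρ / 2 := ⟨_, rfl⟩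
  have hε0 : 0 < ε := by rw [hε]; positivity
  have hεI : ε ∈ Ioo (-ρ) ρ := by rw [hε]; exact ⟨by linarith, by linarith⟩
  obtain ⟨A, hAd⟩ : ∃ A : (Fin m → ℝ) × V → ℝ × ((Fin m → ℝ) × V),
      A = fun p => (ε, (ε⁻¹ • p.1, p.2)) := ⟨_, rfl⟩
  have hAan : ∀ p, AnalyticAt ℝ A p := by
    intro p
    rw [hAd]
    refine analyticAt_const.prod (AnalyticAt.prod ?_ analyticAt_snd)
    exact (ε⁻¹ • ContinuousLinearMap.fst ℝ (Fin m → ℝ) V).analyticAt p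
  have hA' : ∀ p, HasFDerivAt A ((0 : (Fin m → ℝ) × V →L[ℝ] ℝ).prod
      ((ε⁻¹ • ContinuousLinearMap.fst ℝ (Fin m → ℝ) V).prod
        (ContinuousLinearMap.snd ℝ (Fin m → ℝ) V))) p := by
    intro p
    rw [hAd]
    refine (hasFDerivAt_const _ _).prodMk (HasFDerivAt.prodMk ?_ hasFDerivAt_snd)
    exact (ε⁻¹ • ContinuousLinearMap.fst ℝ (Fin m → ℝ) V).hasFDerivAt
  have hctr : ((0 : Fin m → ℝ), x₀) ∈ Metric.ball ((0 : Fin m → ℝ), x₀) ρ :=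
    Metric.mem_ball_self hρ
  have hA0 : A (0, x₀) = (ε, (0, x₀)) := by
    rw [hAd]
    simp
  refine ⟨fun p => (Φ (A p)).2, ?_, ?_, ?_⟩
  · have h1 : AnalyticAt ℝ Φ (A (0, x₀)) := by
      rw [hA0]
      exact hA _ hctr ε hεI
    exact analyticAt_snd.fun_comp (AnalyticAt.fun_comp (g := Φ) (f := A) h1 (hAan _))
  · have hc1 : Tendsto (fun x : V => ((0 : Fin m → ℝ), x)) (𝓝 x₀)
        (𝓝 ((0 : Fin m → ℝ), x₀)) := by
      have : Continuous fun x : V => ((0 : Fin m → ℝ), x) := by fun_prop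
      exact this.tendsto x₀
    filter_upwards [hc1.eventually (Metric.ball_mem_nhds _ hρ)] with x hx
    have h1 : A (0, x) = (ε, (0, x)) := by
      rw [hAd]
      simp
    rw [h1, KYFlow_zero (hA _ hx) (hB _ hx) (hC _ hx) rfl hεI]
  · have hc1 : Tendsto (fun p : (Fin m → ℝ) × V => (A p).2) (𝓝 ((0 : Fin m → ℝ), x₀))
        (𝓝 ((0 : Fin m → ℝ), x₀)) := by
      have h1 : ContinuousAt (fun p : (Fin m → ℝ) × V => (A p).2) ((0 : Fin m → ℝ), x₀) :=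
        continuous_snd.continuousAt.comp (hAan _).continuousAt
      have h2 := h1.tendsto
      rw [hA0] at h2
      exact h2
    filter_upwards [hc1.eventually (Metric.ball_mem_nhds _ hρ)] with p hp y
    have hp' : (A p).2 ∈ Metric.ball ((0 : Fin m → ℝ), x₀) ρ := hp
    have hAp : A p = (ε, (A p).2) := by
      rw [hAd]
    have h1 : AnalyticAt ℝ Φ (A p) := by
      rw [hAp]
      exact hA _ hp' ε hεI
    have h2 : HasFDerivAt (fun p => (Φ (A p)).2)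
        ((ContinuousLinearMap.snd ℝ (Fin m → ℝ) V).comp ((fderiv ℝ Φ (A p)).comp
          ((0 : (Fin m → ℝ) × V →L[ℝ] ℝ).prod
            ((ε⁻¹ • ContinuousLinearMap.fst ℝ (Fin m → ℝ) V).prod
              (ContinuousLinearMap.snd ℝ (Fin m → ℝ) V))))) p :=
      (ContinuousLinearMap.snd ℝ (Fin m → ℝ) V).hasFDerivAt.comp p
        (HasFDerivAt.comp (g := Φ) p h1.differentiableAt.hasFDerivAt (hA' p))
    have hkey := KYFlow_key (Finset.sum_nonneg fun i _ => hBi0 i) Metric.isOpen_ball hA hB hC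
      (fun z hz τ hτ => (hball _ (hmem z hz τ hτ)).1.1.2)
      (fun z hz τ hτ => (hball _ (hmem z hz τ hτ)).1.2)
      (fun z hz τ hτ => (hball _ (hmem z hz τ hτ)).2) hp' (ε⁻¹ • y) hεI
    rw [← hAp] at hkey
    rw [h2.fderiv]
    have h3 : ((ContinuousLinearMap.snd ℝ (Fin m → ℝ) V).comp ((fderiv ℝ Φ (A p)).comp
          ((0 : (Fin m → ℝ) × V →L[ℝ] ℝ).prod
            ((ε⁻¹ • ContinuousLinearMap.fst ℝ (Fin m → ℝ) V).prod
              (ContinuousLinearMap.snd ℝ (Fin m → ℝ) V))))) (y, 0) =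
        (fderiv ℝ Φ (A p) (0, (ε⁻¹ • y, 0))).2 := rfl
    rw [h3, hkey, Finset.smul_sum]
    refine Finset.sum_congr rfl fun i _ => ?_
    rw [smul_smul, Pi.smul_apply, smul_eq_mul, ← mul_assoc, mul_inv_cancel₀ hε0.ne', one_mul]

end Pool.Agent.Lib.MP_28b8de_an.KK
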