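import Pool.Agent.Lib.MP_28b8de_an.K.KDefs

/-!
MP_28b8de_an, module KYStr.

Fields which commute with the coordinate fields.
PROOF.  g w := fderiv ψ (θ w) (f (θ w)), analytic at 0 (θ 0 = x₀).  Near x₀: θ (ψ x) = x, so fderiv θ (ψ x) (fderiv ψ x v) = v; with x = θ w: fderiv θ w (g w) = f (θ w) near 0.  Near 0: ψ (θ w) = w, so fderiv ψ (θ w) (fderiv θ w v) = v: fderiv θ w is injective.
Differentiate fderiv θ w (g w) = f (θ w) in the direction (0,y): D²θ (0,y) (g w) + Dθ (Dg (0,y)) = Df (θ w) (Dθ (0,y)) = ∑ y i • Df (θ w) (Z i (θ w)).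
Differentiate fderiv θ w (0,y) = ∑ y i • Z i (θ w) in the direction g w: D²θ (g w) (0,y) = ∑ y i • D(Z i) (θ w) (Dθ (g w)) = ∑ y i • D(Z i) (θ w) (f (θ w)) = ∑ y i • Df (θ w) (Z i (θ w)) (hfZ).
D²θ is symmetric (compare DBr_pt in D/DBr.lean), so Dθ w (Dg w (0,y)) = 0, Dg w (0,y) = 0 near 0.  On a ball about 0 (convex; sup norm) g (s,y) = g (s,0) (mean value theorem, `Convex.is_const_of_fderivWithin_eq_zero` on the slice or `is_const_of_deriv_eq_zero` along the segment).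
φ s := g (s,0), analytic at 0.
-/

set_option linter.unusedSectionVars false

namespace Pool.Agent.Lib.MP_28b8de_an.KK

open Filter Topology Set MeasureTheory
open Pool.Agent.Lib.MP_28b8de_an.PT (Adm Perf)
open Pool.Agent.Lib.MP_28b8de_an.TT (Env Sol Jn Tr SmAt Goal dx Dn Gen Lc Lp Lq fX cf)
open Pool.Agent.Lib.MP_28b8de_an.DD (LTraj LRep Ch)

variable {V : Type*} [NormedAddCommGroup V] [NormedSpace ℝ V] [FiniteDimensional ℝ V]

private theorem KYStr_app {W E E' : Type*} [NormedAddCommGroup W] [NormedSpace ℝ W]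
    [NormedAddCommGroup E] [NormedSpace ℝ E] [NormedAddCommGroup E'] [NormedSpace ℝ E']
    {L : W → E →L[ℝ] E'} {h : W → E} {w : W} (hL : AnalyticAt ℝ L w) (hh : AnalyticAt ℝ h w) :
    AnalyticAt ℝ (fun w => L w (h w)) w := by
  have h3 := (ContinuousLinearMap.id ℝ (E →L[ℝ] E')).analyticAt_bilinear (L w, h w)
  exact AnalyticAt.comp (f := fun z => (L z, h z)) h3 (hL.prod hh)

theorem sym_str {m : ℕ} {Z : Fin m → V → V} {x₀ : V} (hZ : ∀ i, AnalyticAt ℝ (Z i) x₀)
    {S : Type*} [NormedAddCommGroup S] [NormedSpace ℝ S] [FiniteDimensional ℝ S]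
    {θ : S × (Fin m → ℝ) → V} {ψ : V → S × (Fin m → ℝ)} (hθ : AnalyticAt ℝ θ 0) (hθ0 : θ 0 = x₀)
    (hψ : AnalyticAt ℝ ψ x₀) (hl : ∀ᶠ x in 𝓝 x₀, θ (ψ x) = x) (hr : ∀ᶠ w in 𝓝 0, ψ (θ w) = w)
    (hθZ : ∀ᶠ w in 𝓝 0, ∀ y : Fin m → ℝ, fderiv ℝ θ w (0, y) = ∑ i, y i • Z i (θ w))
    {f : V → V} (hf : AnalyticAt ℝ f x₀)
    (hfZ : ∀ᶠ x in 𝓝 x₀, ∀ i, fderiv ℝ (Z i) x (f x) = fderiv ℝ f x (Z i x)) :
    ∃ φ : S → S × (Fin m → ℝ), AnalyticAt ℝ φ 0 ∧
      ∀ᶠ w in 𝓝 (0 : S × (Fin m → ℝ)), fderiv ℝ θ w (φ w.1) = f (θ w) := by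
  classical
  have hψ0 : ψ x₀ = 0 := by
    have h1 := hr.self_of_nhds
    rwa [hθ0] at h1
  have hθc : Tendsto θ (𝓝 0) (𝓝 x₀) := by
    have h1 := hθ.continuousAt.tendsto
    rwa [hθ0] at h1
  have hψc : Tendsto ψ (𝓝 x₀) (𝓝 0) := by
    have h1 := hψ.continuousAt.tendsto
    rwa [hψ0] at h1
  set g : S × (Fin m → ℝ) → S × (Fin m → ℝ) := fun w => fderiv ℝ ψ (θ w) (f (θ w)) with hg
  have hψ' : AnalyticAt ℝ ψ (θ 0) := by rw [hθ0]; exact hψ
  have hf' : AnalyticAt ℝ f (θ 0) := by rw [hθ0]; exact hf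
  have hga : AnalyticAt ℝ g 0 :=
    KYStr_app (L := fun w => fderiv ℝ ψ (θ w)) (h := fun w => f (θ w))
      (AnalyticAt.comp (g := fderiv ℝ ψ) (f := θ) hψ'.fderiv hθ) (AnalyticAt.comp hf' hθ)
  -- the two inverse relations for the derivatives
  have k1 : ∀ᶠ x in 𝓝 x₀, ∀ v : V, fderiv ℝ θ (ψ x) (fderiv ℝ ψ x v) = v := by
    filter_upwards [hl.eventually_nhds, hψ.eventually_analyticAt,
      hψc.eventually hθ.eventually_analyticAt] with x h1 h2 h3 v
    have h4 : HasFDerivAt (fun x => θ (ψ x)) ((fderiv ℝ θ (ψ x)).comp (fderiv ℝ ψ x)) x :=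
      HasFDerivAt.comp x h3.differentiableAt.hasFDerivAt h2.differentiableAt.hasFDerivAt
    have h5 : HasFDerivAt (fun x => θ (ψ x)) (ContinuousLinearMap.id ℝ V) x :=
      (hasFDerivAt_id x).congr_of_eventuallyEq h1
    have h6 := congrArg (fun T : V →L[ℝ] V => T v) (h4.unique h5)
    simpa using h6
  have k2 : ∀ᶠ w in 𝓝 (0 : S × (Fin m → ℝ)), ∀ v, fderiv ℝ ψ (θ w) (fderiv ℝ θ w v) = v := by
    filter_upwards [hr.eventually_nhds, hθ.eventually_analyticAt,
      hθc.eventually hψ.eventually_analyticAt] with w h1 h2 h3 v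
    have h4 : HasFDerivAt (fun w => ψ (θ w)) ((fderiv ℝ ψ (θ w)).comp (fderiv ℝ θ w)) w :=
      HasFDerivAt.comp w h3.differentiableAt.hasFDerivAt h2.differentiableAt.hasFDerivAt
    have h5 : HasFDerivAt (fun w => ψ (θ w)) (ContinuousLinearMap.id ℝ (S × (Fin m → ℝ))) w :=
      (hasFDerivAt_id w).congr_of_eventuallyEq h1
    have h6 := congrArg (fun T : (S × (Fin m → ℝ)) →L[ℝ] (S × (Fin m → ℝ)) => T v) (h4.unique h5)
    simpa using h6
  have e1 : ∀ᶠ w in 𝓝 (0 : S × (Fin m → ℝ)), fderiv ℝ θ w (g w) = f (θ w) := by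
    filter_upwards [hθc.eventually k1, hr] with w h1 h2
    have h3 := h1 (f (θ w))
    rw [h2] at h3
    exact h3
  -- the derivative of `g` in the direction of `y`
  have e2 : ∀ᶠ w in 𝓝 (0 : S × (Fin m → ℝ)), ∀ y : Fin m → ℝ, fderiv ℝ g w (0, y) = 0 := by
    have hZa : ∀ᶠ x in 𝓝 x₀, ∀ i, AnalyticAt ℝ (Z i) x := by
      rw [Filter.eventually_all]
      exact fun i => (hZ i).eventually_analyticAt
    filter_upwards [e1.eventually_nhds, hθZ.eventually_nhds, hθ.eventually_analyticAt,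
      hga.eventually_analyticAt, hθc.eventually hf.eventually_analyticAt, hθc.eventually hZa,
      hθc.eventually hfZ, k2] with w a1 a2 a3 a4 a5 a6 a7 a8 y
    have hD : HasFDerivAt (fderiv ℝ θ) (fderiv ℝ (fderiv ℝ θ) w) w :=
      a3.fderiv.differentiableAt.hasFDerivAt
    -- first relation
    have r1 : fderiv ℝ (fderiv ℝ θ) w (0, y) (g w) + fderiv ℝ θ w (fderiv ℝ g w (0, y)) =
        fderiv ℝ f (θ w) (fderiv ℝ θ w (0, y)) := by
      have hL := hD.clm_apply a4.differentiableAt.hasFDerivAt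
      have hR : HasFDerivAt (fun w => f (θ w)) ((fderiv ℝ f (θ w)).comp (fderiv ℝ θ w)) w :=
        HasFDerivAt.comp w a5.differentiableAt.hasFDerivAt a3.differentiableAt.hasFDerivAt
      have hU := hL.unique (hR.congr_of_eventuallyEq a1)
      have hv := congrArg (fun T : (S × (Fin m → ℝ)) →L[ℝ] V => T (0, y)) hU
      simp only [add_apply, ContinuousLinearMap.comp_apply,
        ContinuousLinearMap.flip_apply] at hv
      rw [← hv, add_comm]
    -- second relation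
    have r2 : fderiv ℝ (fderiv ℝ θ) w (g w) (0, y) =
        ∑ i, y i • fderiv ℝ (Z i) (θ w) (fderiv ℝ θ w (g w)) := by
      have hL := hD.clm_apply (hasFDerivAt_const ((0 : S), y) w)
      have hR : HasFDerivAt (fun w => ∑ i, y i • Z i (θ w))
          (∑ i, y i • (fderiv ℝ (Z i) (θ w)).comp (fderiv ℝ θ w)) w := by
        refine HasFDerivAt.fun_sum fun i _ => ?_
        exact (HasFDerivAt.comp w (a6 i).differentiableAt.hasFDerivAt
          a3.differentiableAt.hasFDerivAt).const_smul (y i)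
      have hU := hL.unique (hR.congr_of_eventuallyEq (a2.mono fun w' h => h y))
      have hv := congrArg (fun T : (S × (Fin m → ℝ)) →L[ℝ] V => T (g w)) hU
      simpa using hv
    have hs : fderiv ℝ (fderiv ℝ θ) w (0, y) (g w) = fderiv ℝ (fderiv ℝ θ) w (g w) (0, y) := by
      have hsym : IsSymmSndFDerivAt ℝ θ w :=
        (a3.contDiffAt (n := (2 : ℕ))).isSymmSndFDerivAt (by simp)
      exact hsym.eq _ _
    have q1 := a1.self_of_nhds
    have q2 := a2.self_of_nhds y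
    rw [q2, map_sum, hs, r2, q1] at r1
    have r3 : fderiv ℝ θ w (fderiv ℝ g w (0, y)) = 0 := by
      have r4 : ∑ i, y i • fderiv ℝ (Z i) (θ w) (f (θ w)) =
          ∑ i, fderiv ℝ f (θ w) (y i • Z i (θ w)) := by
        refine Finset.sum_congr rfl fun i _ => ?_
        rw [map_smul, a7 i]
      rw [r4] at r1
      exact add_eq_left.1 r1
    have r5 := a8 (fderiv ℝ g w (0, y))
    rw [r3, map_zero] at r5
    exact r5.symm
  -- a ball
  obtain ⟨ε, hε, hball⟩ := Metric.eventually_nhds_iff_ball.1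
    (e2.and (e1.and hga.eventually_analyticAt))
  have hconst : ∀ w ∈ Metric.ball (0 : S × (Fin m → ℝ)) ε, g (w.1, 0) = g w := by
    intro w hw
    have hw' : ‖w‖ < ε := by simpa using hw
    have hw1 : ‖w.1‖ < ε := (norm_fst_le w).trans_lt hw'
    have hw2 : ‖w.2‖ < ε := (norm_snd_le w).trans_lt hw'
    have hmem : ∀ y ∈ Metric.ball (0 : Fin m → ℝ) ε,
        ((w.1, y) : S × (Fin m → ℝ)) ∈ Metric.ball (0 : S × (Fin m → ℝ)) ε := by
      intro y hy
      have hy' : ‖y‖ < ε := by simpa using hy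
      rw [mem_ball_zero_iff, Prod.norm_def]
      exact max_lt hw1 hy'
    have hd : ∀ y ∈ Metric.ball (0 : Fin m → ℝ) ε,
        HasFDerivAt (fun y => g (w.1, y)) (0 : (Fin m → ℝ) →L[ℝ] (S × (Fin m → ℝ))) y := by
      intro y hy
      obtain ⟨b1, -, b3⟩ := hball _ (hmem y hy)
      have h1 : HasFDerivAt (fun y : Fin m → ℝ => ((w.1, y) : S × (Fin m → ℝ)))
          (ContinuousLinearMap.inr ℝ S (Fin m → ℝ)) y := by
        have h2 := (hasFDerivAt_const w.1 y).prodMk (hasFDerivAt_id (𝕜 := ℝ) y)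
        exact h2
      have h3 : HasFDerivAt (fun y => g (w.1, y))
          ((fderiv ℝ g (w.1, y)).comp (ContinuousLinearMap.inr ℝ S (Fin m → ℝ))) y :=
        HasFDerivAt.comp y b3.differentiableAt.hasFDerivAt h1
      have h4 : (fderiv ℝ g (w.1, y)).comp (ContinuousLinearMap.inr ℝ S (Fin m → ℝ)) = 0 := by
        ext1 v
        simp only [ContinuousLinearMap.comp_apply, ContinuousLinearMap.inr_apply,
          zero_apply]
        exact b1 v
      rwa [h4] at h3
    have h5 := Metric.isOpen_ball.is_const_of_fderiv_eq_zero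
      (convex_ball (0 : Fin m → ℝ) ε).isPreconnected
      (fun y hy => (hd y hy).differentiableAt.differentiableWithinAt)
      (fun y hy => (hd y hy).fderiv) (Metric.mem_ball_self hε)
      (show w.2 ∈ Metric.ball (0 : Fin m → ℝ) ε by simpa using hw2)
    exact h5
  refine ⟨fun s => g (s, 0), ?_, ?_⟩
  · have h1 : AnalyticAt ℝ (fun s : S => ((s, 0) : S × (Fin m → ℝ))) 0 :=
      analyticAt_id.prod analyticAt_const
    exact AnalyticAt.comp (g := g) (f := fun s : S => ((s, 0) : S × (Fin m → ℝ))) hga h1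
  · refine Metric.eventually_nhds_iff_ball.2 ⟨ε, hε, fun w hw => ?_⟩
    show fderiv ℝ θ w (g (w.1, 0)) = f (θ w)
    rw [hconst w hw]
    exact (hball w hw).2.1

end Pool.Agent.Lib.MP_28b8de_an.KK
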