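import Pool.Agent.Lib.MP_28b8de_an.K.KYProd
import Pool.Agent.Lib.MP_28b8de_an.K.KYChart
import Pool.Agent.Lib.MP_28b8de_an.K.KYStr
import Mathlib.Analysis.Calculus.VectorField

/-!
MP_28b8de_an, module KYLoc.

Local replacements for systems with `n - 2` commuting symmetries near the point.
-/

set_option linter.unusedSectionVars false

namespace Pool.Agent.Lib.MP_28b8de_an.KK

open Filter Topology Set MeasureTheory
open Pool.Agent.Lib.MP_28b8de_an.PT (Adm Perf)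
open Pool.Agent.Lib.MP_28b8de_an.TT (Env Sol Jn Tr SmAt Goal dx Dn Gen Lc Lp Lq fX cf)
open Pool.Agent.Lib.MP_28b8de_an.DD (LTraj LRep Ch)

variable {V : Type*} [NormedAddCommGroup V] [NormedSpace ℝ V] [FiniteDimensional ℝ V]

/-- near `x₀` there are `m ≥ dim V - 2` analytic vector fields, linearly independent, which
commute with each other and with `f` and `g` -/
def LocSym (f g : V → V) (x₀ : V) : Prop :=
  ∃ (m : ℕ) (Z : Fin m → V → V), Module.finrank ℝ V ≤ m + 2 ∧ (∀ i, AnalyticAt ℝ (Z i) x₀) ∧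
    LinearIndependent ℝ (fun i => Z i x₀) ∧
    ∀ᶠ x in 𝓝 x₀, ∀ i, VectorField.lieBracket ℝ (Z i) f x = 0 ∧
      VectorField.lieBracket ℝ (Z i) g x = 0 ∧ ∀ j, VectorField.lieBracket ℝ (Z i) (Z j) x = 0

/-- splitting off the span of independent vectors -/
theorem span_split {m : ℕ} {z : Fin m → V} (hz : LinearIndependent ℝ z) :
    ∃ (S : Submodule ℝ V) (A : (S × (Fin m → ℝ)) ≃L[ℝ] V),
      (∀ y : Fin m → ℝ, A (0, y) = ∑ i, y i • z i) ∧ Module.finrank ℝ S + m = Module.finrank ℝ V := by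
  obtain ⟨S, hS⟩ := (Submodule.span ℝ (range z)).exists_isCompl
  let B : (S × (Fin m → ℝ)) →ₗ[ℝ] V :=
    S.subtype.comp (LinearMap.fst ℝ S (Fin m → ℝ)) +
      (Fintype.linearCombination ℝ z).comp (LinearMap.snd ℝ S (Fin m → ℝ))
  have hB : ∀ (s : S) (y : Fin m → ℝ), B (s, y) = (s : V) + ∑ i, y i • z i := fun s y => by
    simp [B, Fintype.linearCombination_apply]
  have hmem : ∀ y : Fin m → ℝ, ∑ i, y i • z i ∈ Submodule.span ℝ (range z) := fun y =>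
    Submodule.sum_mem _ fun i _ => Submodule.smul_mem _ _ (Submodule.subset_span ⟨i, rfl⟩)
  have hinj : Function.Injective B := by
    rw [← LinearMap.ker_eq_bot, LinearMap.ker_eq_bot']
    rintro ⟨s, y⟩ h
    rw [hB] at h
    have h1 : (s : V) = -∑ i, y i • z i := eq_neg_of_add_eq_zero_left h
    have h2 : (s : V) ∈ Submodule.span ℝ (range z) := by
      rw [h1]
      exact Submodule.neg_mem _ (hmem y)
    have h3 : (s : V) = 0 := (Submodule.disjoint_def.1 hS.disjoint) _ h2 s.2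
    have h4 : ∑ i, y i • z i = 0 := by
      rw [h3] at h
      rwa [zero_add] at h
    have h5 : y = 0 := funext fun i => Fintype.linearIndependent_iff.1 hz y h4 i
    exact Prod.ext (Subtype.ext h3) h5
  have hsurj : Function.Surjective B := by
    intro v
    have h1 : v ∈ Submodule.span ℝ (range z) ⊔ S := by
      rw [hS.sup_eq_top]
      exact Submodule.mem_top
    obtain ⟨w, hw, s, hs, h2⟩ := Submodule.mem_sup.1 h1
    obtain ⟨y, hy⟩ := (Submodule.mem_span_range_iff_exists_fun ℝ).1 hw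
    refine ⟨(⟨s, hs⟩, y), ?_⟩
    rw [hB, hy, add_comm]
    exact h2
  let e : (S × (Fin m → ℝ)) ≃ₗ[ℝ] V := LinearEquiv.ofBijective B ⟨hinj, hsurj⟩
  refine ⟨S, e.toContinuousLinearEquiv, fun y => ?_, ?_⟩
  · show B (0, y) = _
    rw [hB]
    simp
  · have h1 := e.finrank_eq
    rw [Module.finrank_prod, Module.finrank_fin_fun] at h1
    exact h1

theorem sy_lrep {f g : V → V} {u : ℝ → ℝ} (hu : Adm u) {x : ℝ → V} {t₀ : ℝ} (ht₀ : 0 < t₀)
    (hf : AnalyticAt ℝ f (x t₀)) (hg : AnalyticAt ℝ g (x t₀)) (hs : LocSym f g (x t₀))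
    (hx : LTraj (fun z : ℝ × V => f z.2) (fun z : ℝ × V => g z.2) u x t₀) :
    LRep (fun z : ℝ × V => f z.2) (fun z : ℝ × V => g z.2) x t₀ := by
  obtain ⟨m, Z, hm, hZ, hli, hbr⟩ := hs
  obtain ⟨S, A, hA, hfr⟩ := span_split hli
  have hS : Module.finrank ℝ S ≤ 2 := by omega
  have hc : ∀ᶠ y in 𝓝 (x t₀), ∀ i j, fderiv ℝ (Z i) y (Z j y) = fderiv ℝ (Z j) y (Z i y) := by
    filter_upwards [hbr] with y hy i j
    have h1 := (hy i).2.2 j
    unfold VectorField.lieBracket at h1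
    exact (sub_eq_zero.1 h1).symm
  have hfZ : ∀ᶠ y in 𝓝 (x t₀), ∀ i, fderiv ℝ (Z i) y (f y) = fderiv ℝ f y (Z i y) := by
    filter_upwards [hbr] with y hy i
    have h1 := (hy i).1
    unfold VectorField.lieBracket at h1
    exact (sub_eq_zero.1 h1).symm
  have hgZ : ∀ᶠ y in 𝓝 (x t₀), ∀ i, fderiv ℝ (Z i) y (g y) = fderiv ℝ g y (Z i y) := by
    filter_upwards [hbr] with y hy i
    have h1 := (hy i).2.1
    unfold VectorField.lieBracket at h1
    exact (sub_eq_zero.1 h1).symm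
  obtain ⟨θ, ψ, hθ, hθ0, hψ, hl, hr, hθZ⟩ := sym_chart hZ hc A hA
  obtain ⟨φ, hφ, hφ1⟩ := sym_str hZ hθ hθ0 hψ hl hr hθZ hf hfZ
  obtain ⟨γ, hγ, hγ1⟩ := sym_str hZ hθ hθ0 hψ hl hr hθZ hg hgZ
  -- the time-independent chart
  have hsnd : ∀ z : ℝ × (S × (Fin m → ℝ)), AnalyticAt ℝ (fun w : ℝ × (S × (Fin m → ℝ)) => w.2) z :=
    fun z => analyticAt_snd
  have hpr : ∀ z : ℝ × (S × (Fin m → ℝ)), AnalyticAt ℝ (fun z : ℝ × (S × (Fin m → ℝ)) => z.2.1) z :=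
    fun z => analyticAt_fst.fun_comp analyticAt_snd
  have hΘfd : ∀ᶠ w in 𝓝 ((t₀, 0) : ℝ × (S × (Fin m → ℝ))), ∀ (τ : ℝ) (v : S × (Fin m → ℝ)),
      fderiv ℝ (fun w : ℝ × (S × (Fin m → ℝ)) => θ w.2) w (τ, v) = fderiv ℝ θ w.2 v := by
    have h1 : Tendsto (fun w : ℝ × (S × (Fin m → ℝ)) => w.2) (𝓝 (t₀, 0)) (𝓝 0) :=
      continuous_snd.tendsto _
    filter_upwards [h1.eventually hθ.eventually_analyticAt] with w hw τ v
    have h2 : HasFDerivAt (fun w : ℝ × (S × (Fin m → ℝ)) => θ w.2)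
        ((fderiv ℝ θ w.2).comp (ContinuousLinearMap.snd ℝ ℝ (S × (Fin m → ℝ)))) w :=
      HasFDerivAt.comp (g := θ) (f := fun w : ℝ × (S × (Fin m → ℝ)) => w.2) w
        hw.differentiableAt.hasFDerivAt hasFDerivAt_snd
    rw [h2.fderiv]
    rfl
  have htend : Tendsto (fun w : ℝ × (S × (Fin m → ℝ)) => w.2) (𝓝 (t₀, 0)) (𝓝 0) :=
    continuous_snd.tendsto _
  have htend' : Tendsto (fun z : ℝ × V => z.2) (𝓝 (t₀, x t₀)) (𝓝 (x t₀)) :=
    continuous_snd.tendsto _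
  have hch : Ch (fun z : ℝ × V => f z.2) (fun z : ℝ × V => g z.2)
      (fun z : ℝ × (S × (Fin m → ℝ)) => φ z.2.1) (fun z : ℝ × (S × (Fin m → ℝ)) => γ z.2.1)
      (fun w : ℝ × (S × (Fin m → ℝ)) => θ w.2) (fun z : ℝ × V => ψ z.2) (t₀, 0) := by
    refine ⟨?_, ?_, ?_, ?_, ?_, ?_, ?_, ?_⟩
    · exact AnalyticAt.fun_comp (g := θ) (f := fun w : ℝ × (S × (Fin m → ℝ)) => w.2) hθ (hsnd _)
    · show AnalyticAt ℝ (fun z : ℝ × V => ψ z.2) (t₀, θ 0)
      rw [hθ0]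
      exact AnalyticAt.fun_comp (g := ψ) (f := fun z : ℝ × V => z.2) hψ analyticAt_snd
    · show ∀ᶠ z in 𝓝 ((t₀, θ 0) : ℝ × V), θ (ψ z.2) = z.2
      rw [hθ0]
      exact htend'.eventually hl
    · exact htend.eventually hr
    · exact AnalyticAt.fun_comp (g := φ) (f := fun z : ℝ × (S × (Fin m → ℝ)) => z.2.1) hφ (hpr _)
    · exact AnalyticAt.fun_comp (g := γ) (f := fun z : ℝ × (S × (Fin m → ℝ)) => z.2.1) hγ (hpr _)
    · filter_upwards [hΘfd, htend.eventually hφ1] with w h1 h2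
      rw [h1]
      exact h2
    · filter_upwards [hΘfd, htend.eventually hγ1] with w h1 h2
      rw [h1]
      exact h2
  have hF : AnalyticAt ℝ (fun z : ℝ × V => f z.2) (t₀, x t₀) :=
    AnalyticAt.fun_comp (g := f) (f := fun z : ℝ × V => z.2) hf analyticAt_snd
  have hG : AnalyticAt ℝ (fun z : ℝ × V => g z.2) (t₀, x t₀) :=
    AnalyticAt.fun_comp (g := g) (f := fun z : ℝ × V => z.2) hg analyticAt_snd
  obtain ⟨hlt, h0, he⟩ := DD.ltraj_pull hch hu (show x t₀ = θ 0 from hθ0.symm) hF hG hx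
  have h0' : ψ (x t₀) = 0 := h0
  have h01 : (ψ (x t₀)).1 = 0 := by rw [h0']; rfl
  have hrep := prod_lrep hS hu (r := fun t => ψ (x t)) ht₀
    (show AnalyticAt ℝ φ (ψ (x t₀)).1 by rw [h01]; exact hφ)
    (show AnalyticAt ℝ γ (ψ (x t₀)).1 by rw [h01]; exact hγ) hlt
  refine DD.lrep_push (Θ := fun w : ℝ × (S × (Fin m → ℝ)) => θ w.2) (r := fun t => ψ (x t))
    ?_ ?_ ?_ ?_ ?_ he hrep
  · show AnalyticAt ℝ _ (t₀, ψ (x t₀))
    rw [h0']; exact hch.Fa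
  · show AnalyticAt ℝ _ (t₀, ψ (x t₀))
    rw [h0']; exact hch.Ga
  · show AnalyticAt ℝ _ (t₀, ψ (x t₀))
    rw [h0']; exact hch.Θa
  · show ∀ᶠ w in 𝓝 (t₀, ψ (x t₀)), _
    rw [h0']; exact hch.F1
  · show ∀ᶠ w in 𝓝 (t₀, ψ (x t₀)), _
    rw [h0']; exact hch.G1

end Pool.Agent.Lib.MP_28b8de_an.KK
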