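import Pool.Agent.Lib.MP_28b8de_an.K.KYCut
import Pool.Agent.Lib.MP_28b8de_an.K.KGl
import Pool.Agent.Lib.MP_28b8de_an.D.DMain
import Pool.Agent.Lib.MP_28b8de_an.T.TPrin
import Pool.Agent.Lib.MP_28b8de_an.T.TPmp

/-!
MP_28b8de_an, module KYOm.

From local replacements to the theorem, in an open set.
PROOF.  `cut_on` with K₀ := q '' Icc 0 T: f', g', M, ρ.  q̂ t := ρ⁻¹ • q t.  F' z := f' z.2, G' z := g' z.2.  For t ∈ Icc 0 T: f' (q̂ t) = ρ⁻¹ • f (q t) etc. (x = q̂ t, y = q t), so Tr F' G' M T u q̂ (the integral identity multiplied by ρ⁻¹).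
For t ∈ Ioo 0 T: LRep F' G' q̂ t from hL t by `DD.lrep_push` with Θ (τ,x) := ρ⁻¹ • x: fderiv Θ w (1, f w.2) = ρ⁻¹ • f w.2 = f' (ρ⁻¹ • w.2) for w near (t, q t) (‖ρ⁻¹ w.2 - ρ⁻¹ q t‖ < 2).
`TT.principle` with `PT.perf_inner`, `DD.lrep_jn`, `TT.emb_goal` (exactly as in the proof of `pc_main` in K/PCResult.lean, last lines): Jn F' G' q̂ 0 T: v, r̂ with ‖r̂ t - q̂ t‖ ≤ 1.  r t := ρ • r̂ t: in Ω, f' (r̂ t) = ρ⁻¹ • f (r t): `TT.sol_ae` for r̂, multiplied by ρ; Lipschitz by `TT.sol_lip`;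
SmAt r̂ t → SmAt r t; r 0 = ρ • ρ⁻¹ • q 0 = q 0.
-/

set_option linter.unusedSectionVars false

namespace Pool.Agent.Lib.MP_28b8de_an.KK

open Filter Topology Set MeasureTheory
open Pool.Agent.Lib.MP_28b8de_an.PT (Adm Perf)
open Pool.Agent.Lib.MP_28b8de_an.TT (Env Sol Jn Tr SmAt Goal dx Dn Gen Lc Lp Lq fX cf)
open Pool.Agent.Lib.MP_28b8de_an.DD (LTraj LRep Ch)

variable {V : Type*} [NormedAddCommGroup V] [NormedSpace ℝ V] [FiniteDimensional ℝ V]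

theorem omega_main {Ω : Set V} (hΩ : IsOpen Ω) {f g : V → V} (hf : AnalyticOnNhd ℝ f Ω)
    (hg : AnalyticOnNhd ℝ g Ω) {T : ℝ} (hT : 0 < T) {u : ℝ → ℝ} (hu : Adm u) {q : ℝ → V}
    (hq : ContinuousOn q (Icc 0 T)) (hqΩ : ∀ t ∈ Icc 0 T, q t ∈ Ω)
    (heq : ∀ t ∈ Icc 0 T, q t = q 0 + ∫ τ in (0 : ℝ)..t, (f (q τ) + u τ • g (q τ)))
    (hL : ∀ t ∈ Ioo 0 T, LRep (fun z : ℝ × V => f z.2) (fun z : ℝ × V => g z.2) q t) :
    ∃ (v : ℝ → ℝ) (r : ℝ → V), Adm v ∧ (∃ L : NNReal, LipschitzOnWith L r (Icc 0 T)) ∧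
      r 0 = q 0 ∧ r T = q T ∧ (∀ t ∈ Icc 0 T, r t ∈ Ω) ∧
      (∀ᵐ t : ℝ, t ∈ Ioo 0 T → HasDerivAt r (f (r t) + v t • g (r t)) t) ∧
      {t ∈ Ioo 0 T | ¬ SmAt r t}.Countable := by
  have : CompleteSpace V := FiniteDimensional.complete ℝ V
  obtain ⟨f', g', M, ρ, hρ, hE, hcut⟩ := cut_on hΩ hf hg
    (isCompact_Icc.image_of_continuousOn hq) (by rintro _ ⟨t, ht, rfl⟩; exact hqΩ t ht)
  have hcut' : ∀ t ∈ Icc 0 T, ∀ x : V, ‖x - ρ⁻¹ • q t‖ < 2 →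
      ρ • x ∈ Ω ∧ f' x = ρ⁻¹ • f (ρ • x) ∧ g' x = ρ⁻¹ • g (ρ • x) :=
    fun t ht x hx => hcut _ ⟨t, ht, rfl⟩ x hx
  have hfq : ∀ t ∈ Icc 0 T, f' (ρ⁻¹ • q t) = ρ⁻¹ • f (q t) ∧ g' (ρ⁻¹ • q t) = ρ⁻¹ • g (q t) := by
    intro t ht
    obtain ⟨-, h1, h2⟩ := hcut' t ht (ρ⁻¹ • q t) (by simp)
    rw [smul_inv_smul₀ hρ.ne'] at h1 h2
    exact ⟨h1, h2⟩
  have hsol : Sol (fun z : ℝ × V => f' z.2) (fun z : ℝ × V => g' z.2) u (fun t => ρ⁻¹ • q t) 0 T := by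
    refine ⟨hq.const_smul ρ⁻¹, fun t ht => ?_⟩
    show ρ⁻¹ • q t = ρ⁻¹ • q 0 + ∫ s in (0 : ℝ)..t, (f' (ρ⁻¹ • q s) + u s • g' (ρ⁻¹ • q s))
    rw [heq t ht, smul_add, ← intervalIntegral.integral_smul]
    congr 1
    apply intervalIntegral.integral_congr
    intro τ hτ
    rw [uIcc_of_le ht.1] at hτ
    obtain ⟨h1, h2⟩ := hfq τ ⟨hτ.1, hτ.2.trans ht.2⟩
    show ρ⁻¹ • (f (q τ) + u τ • g (q τ)) = f' (ρ⁻¹ • q τ) + u τ • g' (ρ⁻¹ • q τ)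
    rw [h1, h2, smul_add, smul_comm]
  have htr : Tr (fun z : ℝ × V => f' z.2) (fun z : ℝ × V => g' z.2) M T u (fun t => ρ⁻¹ • q t) :=
    ⟨hE, hT, hu, hsol⟩
  have hjn : Jn (fun z : ℝ × V => f' z.2) (fun z : ℝ × V => g' z.2) (fun t => ρ⁻¹ • q t) 0 T := by
    apply TT.principle hE hT hsol.cont
    intro C hC _
    obtain ⟨t₁, ht₁⟩ := hC.ne
    obtain ⟨t₀, ht₀C, -, ht₀⟩ := PT.perf_inner hT hC (α := t₁ - 1) (β := t₁ + 1)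
      ⟨t₁, ht₁, by linarith, by linarith⟩
    have hI := Ioo_subset_Icc_self ht₀
    have hnear : ∀ᶠ w : ℝ × V in 𝓝 (t₀, q t₀), ‖ρ⁻¹ • w.2 - ρ⁻¹ • q t₀‖ < 2 := by
      have hc : ContinuousAt (fun w : ℝ × V => ‖ρ⁻¹ • w.2 - ρ⁻¹ • q t₀‖) (t₀, q t₀) := by
        fun_prop
      have h2 := hc.tendsto
      simp only [sub_self, norm_zero] at h2
      exact h2.eventually (gt_mem_nhds (by norm_num : (0 : ℝ) < 2))
    have hpush : LRep (fun z : ℝ × V => f' z.2) (fun z : ℝ × V => g' z.2)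
        (fun t => ρ⁻¹ • q t) t₀ := by
      refine DD.lrep_push (Fp := fun z : ℝ × V => f z.2) (Gp := fun z : ℝ × V => g z.2)
        (Θ := fun w : ℝ × V => ρ⁻¹ • w.2) (r := q) ?_ ?_ ?_ ?_ ?_
        (Eventually.of_forall fun t => rfl) (hL t₀ ht₀)
      · exact AnalyticAt.fun_comp (g := f) (f := fun z : ℝ × V => z.2) (hf _ (hqΩ t₀ hI))
          analyticAt_snd
      · exact AnalyticAt.fun_comp (g := g) (f := fun z : ℝ × V => z.2) (hg _ (hqΩ t₀ hI))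
          analyticAt_snd
      · exact analyticAt_const.smul analyticAt_snd
      · filter_upwards [hnear] with w hw
        obtain ⟨-, h1, -⟩ := hcut' t₀ hI (ρ⁻¹ • w.2) hw
        have hfd : HasFDerivAt (fun w : ℝ × V => ρ⁻¹ • w.2)
            (ρ⁻¹ • ContinuousLinearMap.snd ℝ ℝ V) w := hasFDerivAt_snd.const_smul ρ⁻¹
        rw [hfd.fderiv]
        show ρ⁻¹ • f w.2 = f' (ρ⁻¹ • w.2)
        rw [h1, smul_inv_smul₀ hρ.ne']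
      · filter_upwards [hnear] with w hw
        obtain ⟨-, -, h1⟩ := hcut' t₀ hI (ρ⁻¹ • w.2) hw
        have hfd : HasFDerivAt (fun w : ℝ × V => ρ⁻¹ • w.2)
            (ρ⁻¹ • ContinuousLinearMap.snd ℝ ℝ V) w := hasFDerivAt_snd.const_smul ρ⁻¹
        rw [hfd.fderiv]
        show ρ⁻¹ • g w.2 = g' (ρ⁻¹ • w.2)
        rw [h1, smul_inv_smul₀ hρ.ne']
    obtain ⟨δ, hδ, hjn⟩ := DD.lrep_jn htr ht₀ hpush
    exact TT.emb_goal ht₀C hδ hjn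
  obtain ⟨v, r, hv, hsol', h0, h1, htube, hcount⟩ := hjn
  have hM : 0 ≤ M := by linarith [hE.hM]
  have hcr : ∀ t ∈ Icc 0 T, ρ • r t ∈ Ω ∧ f' (r t) = ρ⁻¹ • f (ρ • r t) ∧
      g' (r t) = ρ⁻¹ • g (ρ • r t) := fun t ht =>
    hcut' t ht (r t) (lt_of_le_of_lt (htube t ht) (by norm_num))
  refine ⟨v, fun t => ρ • r t, hv, ⟨⟨ρ * (2 * M), by positivity⟩, ?_⟩, ?_, ?_,
    fun t ht => (hcr t ht).1, ?_, ?_⟩
  · apply LipschitzOnWith.of_dist_le_mul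
    intro x hx y hy
    rw [dist_smul₀, Real.norm_of_nonneg hρ.le, dist_eq_norm, Real.dist_eq]
    show ρ * ‖r x - r y‖ ≤ ρ * (2 * M) * |x - y|
    rw [mul_assoc]
    exact mul_le_mul_of_nonneg_left (TT.sol_lip hE hv hsol' hy hx) hρ.le
  · show ρ • r 0 = q 0
    rw [h0, smul_inv_smul₀ hρ.ne']
  · show ρ • r T = q T
    rw [h1, smul_inv_smul₀ hρ.ne']
  · filter_upwards [TT.sol_ae hE hv hsol'] with t ht htm
    have h2 := (ht htm).const_smul ρ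
    obtain ⟨-, h3, h4⟩ := hcr t (Ioo_subset_Icc_self htm)
    have h5 : ρ • (f' (r t) + v t • g' (r t)) = f (ρ • r t) + v t • g (ρ • r t) := by
      rw [h3, h4, smul_add, smul_inv_smul₀ hρ.ne', smul_comm ρ (v t), smul_inv_smul₀ hρ.ne']
    have h6 : HasDerivAt (fun t => ρ • r t) (ρ • (f' (r t) + v t • g' (r t))) t := h2
    rw [h5] at h6
    exact h6
  · refine hcount.mono ?_
    rintro t ⟨ht, hns⟩
    refine ⟨ht, fun hs => hns ?_⟩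
    obtain ⟨ε, hε, hsm⟩ := hs
    exact ⟨ε, hε, hsm.const_smul ρ⟩

end Pool.Agent.Lib.MP_28b8de_an.KK
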