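import Pool.Agent.Lib.MP_28b8de_an.K.KPC

/-!
MP_28b8de_an, module KYProd.

Systems on a product `S × Y`, `dim S ≤ 2`, which do not depend on the second factor.
-/

set_option linter.unusedSectionVars false

namespace Pool.Agent.Lib.MP_28b8de_an.KK

open Filter Topology Set MeasureTheory
open Pool.Agent.Lib.MP_28b8de_an.PT (Adm Perf)
open Pool.Agent.Lib.MP_28b8de_an.TT (Env Sol Jn Tr SmAt Goal dx Dn Gen Lc Lp Lq fX cf)
open Pool.Agent.Lib.MP_28b8de_an.DD (LTraj LRep Ch)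

theorem prod_lrep {S Y : Type*} [NormedAddCommGroup S] [NormedSpace ℝ S] [FiniteDimensional ℝ S]
    [NormedAddCommGroup Y] [NormedSpace ℝ Y] [FiniteDimensional ℝ Y]
    (hS : Module.finrank ℝ S ≤ 2) {φ γ : S → S × Y} {u : ℝ → ℝ} (hu : Adm u) {r : ℝ → S × Y}
    {t₀ : ℝ} (ht₀ : 0 < t₀) (hφ : AnalyticAt ℝ φ (r t₀).1) (hγ : AnalyticAt ℝ γ (r t₀).1)
    (hr : LTraj (fun z : ℝ × (S × Y) => φ z.2.1) (fun z : ℝ × (S × Y) => γ z.2.1) u r t₀) :
    LRep (fun z : ℝ × (S × Y) => φ z.2.1) (fun z : ℝ × (S × Y) => γ z.2.1) r t₀ := by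
  have hcS : CompleteSpace S := FiniteDimensional.complete ℝ S
  have hcY : CompleteSpace Y := FiniteDimensional.complete ℝ Y
  have h2 : Module.finrank ℝ S ≤ Module.finrank ℝ (ℝ × ℝ) := by
    rw [Module.finrank_prod, Module.finrank_self]
    omega
  obtain ⟨j₀, hj₀⟩ := finrank_le_iff_exists_linearMap.1 h2
  obtain ⟨j₁, hj₁⟩ := j₀.exists_leftInverse_of_injective (LinearMap.ker_eq_bot.2 hj₀)
  let j : S →L[ℝ] ℝ × ℝ := j₀.toContinuousLinearMap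
  let j' : (ℝ × ℝ) →L[ℝ] S := j₁.toContinuousLinearMap
  have hjj : ∀ s : S, j' (j s) = s := fun s => congrArg (fun l => l s) hj₁
  have hpr : ∀ z : ℝ × (S × Y), AnalyticAt ℝ (fun z : ℝ × (S × Y) => z.2.1) z := fun z =>
    analyticAt_fst.fun_comp analyticAt_snd
  have hφz : AnalyticAt ℝ (fun z : ℝ × (S × Y) => φ z.2.1) (t₀, r t₀) :=
    AnalyticAt.fun_comp (g := φ) (f := fun z : ℝ × (S × Y) => z.2.1) hφ (hpr _)
  have hγz : AnalyticAt ℝ (fun z : ℝ × (S × Y) => γ z.2.1) (t₀, r t₀) :=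
    AnalyticAt.fun_comp (g := γ) (f := fun z : ℝ × (S × Y) => z.2.1) hγ (hpr _)
  let l : (S × Y) →L[ℝ] (ℝ × ℝ) × Y :=
    (j.comp (ContinuousLinearMap.fst ℝ S Y)).prod (ContinuousLinearMap.snd ℝ S Y)
  have hl := ltraj_lin (F' := FP (fun q => j (φ (j' q)).1) fun q => (φ (j' q)).2)
    (G' := FP (fun q => j (γ (j' q)).1) fun q => (γ (j' q)).2) hu hφz hγz hr l
    (fun z => by
      show ((j (φ z.2.1).1, (φ z.2.1).2) : (ℝ × ℝ) × Y) =
        (j (φ (j' (j z.2.1))).1, (φ (j' (j z.2.1))).2)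
      rw [hjj])
    (fun z => by
      show ((j (γ z.2.1).1, (γ z.2.1).2) : (ℝ × ℝ) × Y) =
        (j (γ (j' (j z.2.1))).1, (γ (j' (j z.2.1))).2)
      rw [hjj])
  have hφ' : AnalyticAt ℝ (fun q => φ (j' q)) (j (r t₀).1) := by
    refine AnalyticAt.fun_comp (g := φ) (f := fun q => j' q) ?_ (j'.analyticAt _)
    rw [hjj]
    exact hφ
  have hγ' : AnalyticAt ℝ (fun q => γ (j' q)) (j (r t₀).1) := by
    refine AnalyticAt.fun_comp (g := γ) (f := fun q => j' q) ?_ (j'.analyticAt _)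
    rw [hjj]
    exact hγ
  have c1 : AnalyticAt ℝ (fun q => j (φ (j' q)).1) (j (r t₀).1) :=
    AnalyticAt.fun_comp (g := fun v : S => j v) (f := fun q => (φ (j' q)).1) (j.analyticAt _)
      (analyticAt_fst.fun_comp hφ')
  have c2 : AnalyticAt ℝ (fun q => j (γ (j' q)).1) (j (r t₀).1) :=
    AnalyticAt.fun_comp (g := fun v : S => j v) (f := fun q => (γ (j' q)).1) (j.analyticAt _)
      (analyticAt_fst.fun_comp hγ')
  have c3 : AnalyticAt ℝ (fun q => (φ (j' q)).2) (j (r t₀).1) := analyticAt_snd.fun_comp hφ'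
  have c4 : AnalyticAt ℝ (fun q => (γ (j' q)).2) (j (r t₀).1) := analyticAt_snd.fun_comp hγ'
  have hrep := pc_lrep hu ht₀ c1 c2 c3 c4 hl
  let L : ((ℝ × ℝ) × Y) →L[ℝ] S × Y :=
    (j'.comp (ContinuousLinearMap.fst ℝ (ℝ × ℝ) Y)).prod (ContinuousLinearMap.snd ℝ (ℝ × ℝ) Y)
  have hL : ∀ w : ℝ × ((ℝ × ℝ) × Y), HasFDerivAt (fun w : ℝ × ((ℝ × ℝ) × Y) => L w.2)
      (L.comp (ContinuousLinearMap.snd ℝ ℝ ((ℝ × ℝ) × Y))) w := fun w =>
    (L.comp (ContinuousLinearMap.snd ℝ ℝ ((ℝ × ℝ) × Y))).hasFDerivAt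
  refine DD.lrep_push (Θ := fun w : ℝ × ((ℝ × ℝ) × Y) => L w.2) (fp_an c1 c3)
    (fp_an c2 c4) ((L.comp (ContinuousLinearMap.snd ℝ ℝ ((ℝ × ℝ) × Y))).analyticAt _)
    (Eventually.of_forall fun w => ?_) (Eventually.of_forall fun w => ?_)
    (Eventually.of_forall fun t => ?_) hrep
  · rw [(hL w).fderiv]
    show ((j' (j (φ (j' w.2.1)).1), (φ (j' w.2.1)).2) : S × Y) = φ (j' w.2.1)
    rw [hjj]
  · rw [(hL w).fderiv]
    show ((j' (j (γ (j' w.2.1)).1), (γ (j' w.2.1)).2) : S × Y) = γ (j' w.2.1)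
    rw [hjj]
  · show r t = (j' (j (r t).1), (r t).2)
    rw [hjj]

end Pool.Agent.Lib.MP_28b8de_an.KK
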